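import Pool.Agent.Lib.Tor.Covers

/-! MODULE Tor.SZFacts (0.8 h): elementary facts on strong Z-sets. -/

open Set Topology Filter

namespace Pool.Agent.Tor

theorem SZ.subset {M : Type} [TopologicalSpace M] {A B : Set M} (hA : SZ A) (hB : IsClosed B)
    (h : B ⊆ A) : SZ B := by
  refine ⟨hB, fun U hU => ?_⟩
  obtain ⟨f, hf, hn, hd⟩ := hA.2 U hU
  exact ⟨f, hf, hn, hd.mono_right h⟩

theorem SZ.image {M M' : Type} [TopologicalSpace M] [TopologicalSpace M'] (h : M ≃ₜ M')
    {A : Set M} (hA : SZ A) : SZ (h '' A) := by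
  refine ⟨h.isClosedMap _ hA.1, fun U hU => ?_⟩
  obtain ⟨f, hf, hn, hd⟩ := hA.2 _ (hU.pull h.continuous)
  refine ⟨fun m => h (f (h.symm m)), h.continuous.comp (hf.comp h.symm.continuous), fun m => ?_, ?_⟩
  · obtain ⟨z, h1, h2⟩ := hn (h.symm m)
    refine ⟨h z, h1, ?_⟩
    simpa using h2
  · have e : range (fun m => h (f (h.symm m))) = h '' range f := by
      ext y
      constructor
      · rintro ⟨m, rfl⟩
        exact ⟨_, ⟨h.symm m, rfl⟩, rfl⟩
      · rintro ⟨_, ⟨m, rfl⟩, rfl⟩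
        exact ⟨h m, by simp⟩
    rw [e, ← h.image_closure]
    exact (disjoint_image_iff h.injective).2 hd

theorem SZ.preimage {M M' : Type} [TopologicalSpace M] [TopologicalSpace M'] (h : M ≃ₜ M')
    {A : Set M'} (hA : SZ A) : SZ (h ⁻¹' A) := by
  rw [← h.image_symm]
  exact hA.image h.symm

/-- PROOF: let `f` be near `id` with `C = closure (range f)` disjoint from `A`; `exists_cov_sep`
gives a cover `U1` and a closed `D` disjoint from `A` such that a map `g` which is `U1`-close to the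
identity maps `C` into `D`; let `g` be `U1`- and `U2`-close to the identity with
`closure (range g)` disjoint from `B`. Then `g o f` works: its range lies in `D` and in `range g`
(`Near` composes by `near_trans`, star refinement). -/
theorem SZ.union {M : Type} [TopologicalSpace M] [TopologicalSpace.MetrizableSpace M]
    {A B : Set M} (hA : SZ A) (hB : SZ B) : SZ (A ∪ B) := by
  refine ⟨hA.1.union hB.1, fun U hU => ?_⟩
  obtain ⟨V, hV, hs⟩ := exists_star hU
  obtain ⟨f, hf, hfn, hfd⟩ := hA.2 V hV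
  obtain ⟨U1, D, hU1, hD, hDA, _, hsep⟩ := exists_cov_sep isClosed_closure hA.1 hfd
  obtain ⟨g, hg, hgn, hgd⟩ := hB.2 _ (hV.inter hU1)
  refine ⟨g ∘ f, hg.comp hf, ?_, ?_⟩
  · refine near_trans hs (g := f) (fun m => ?_) hfn
    obtain ⟨z, h1, h2⟩ := hgn (f m)
    exact ⟨z, h1.1, h2.1⟩
  · rw [disjoint_union_right]
    constructor
    · refine hDA.mono_left (closure_minimal ?_ hD)
      rintro _ ⟨m, rfl⟩
      obtain ⟨z, h1, h2⟩ := hgn (f m)
      exact hsep (f m) (subset_closure ⟨m, rfl⟩) _ ⟨z, h2.2, h1.2⟩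
    · refine hgd.mono_left (closure_mono ?_)
      exact range_comp_subset_range f g

namespace SZFactsAux

theorem near_small {Z : Type} [TopologicalSpace Z] [TopologicalSpace.MetrizableSpace Z]
    {H : Z × I → Z} (hH : Continuous H) (h0 : ∀ z, H (z, 0) = z) {U : Z → Set Z} (hU : Cov U) :
    ∃ ε : Z → I, Continuous ε ∧ (∀ z, 0 < ε z) ∧ Near U (fun z => H (z, ε z)) id := by
  obtain ⟨ε, hε, hp, hP⟩ := exists_below
    (fun z r => ∀ s : I, 0 < s → (s : ℝ) ≤ r → ∃ z', H (z, s) ∈ U z' ∧ z ∈ U z')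
    (fun z r s _ hrs h t ht htr => h t ht (htr.trans hrs))
    (fun z => by
      have h1 : H ⁻¹' (U z) ∩ (Prod.fst ⁻¹' (U z)) ∈ 𝓝 (z, (0 : I)) := by
        refine inter_mem ?_ ?_
        · refine hH.continuousAt.preimage_mem_nhds ?_
          rw [h0]
          exact (hU z).1.mem_nhds (hU z).2
        · exact continuous_fst.continuousAt.preimage_mem_nhds ((hU z).1.mem_nhds (hU z).2)
      obtain ⟨O, hO, J, hJ, hsub⟩ := mem_nhds_prod_iff.1 h1
      obtain ⟨r, hr, hball⟩ := Metric.mem_nhds_iff.1 hJ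
      refine ⟨r / 2, by positivity, ?_⟩
      filter_upwards [hO] with z' hz' s hs hsr
      have hmem : (z', s) ∈ O ×ˢ J := by
        refine ⟨hz', hball ?_⟩
        rw [Metric.mem_ball, Subtype.dist_eq, Real.dist_eq]
        have : (0 : ℝ) ≤ s := s.2.1
        have e0 : ((0 : I) : ℝ) = 0 := rfl
        rw [e0, sub_zero, abs_of_nonneg this]
        linarith
      exact ⟨z, (hsub hmem).1, (hsub hmem).2⟩)
  refine ⟨fun z => ⟨ε z, (hp z).1.le, (hp z).2⟩, hε.subtype_mk _, fun z => ?_, fun z => ?_⟩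
  · exact Subtype.mk_lt_mk.2 (hp z).1
  · exact hP z ⟨ε z, (hp z).1.le, (hp z).2⟩ (Subtype.mk_lt_mk.2 (hp z).1) le_rfl

/-- cut-off -/
noncomputable def sg (i : ℕ) (s : ℝ) : ℝ := max 0 (min 1 (i * s - 1))

theorem sg_cont (i : ℕ) : Continuous (sg i) := by
  unfold sg
  fun_prop

theorem sg_zero {i : ℕ} {s : ℝ} (h : i * s ≤ 1) : sg i s = 0 := by
  unfold sg
  exact max_eq_left ((min_le_right _ _).trans (by linarith))

theorem sg_one {i : ℕ} {s : ℝ} (h : 2 ≤ i * s) : sg i s = 1 := by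
  unfold sg
  rw [min_eq_left (by linarith), max_eq_right zero_le_one]

/-- push the far coordinates to `(1, 0)` -/
noncomputable def ps (v : E) (s : ℝ) : E := fun i => (1 - sg i s) • v i + sg i s • ((1, 0) : F)

theorem ps_cont : Continuous (fun p : E × ℝ => ps p.1 p.2) := by
  unfold ps
  refine continuous_pi fun i => ?_
  have h := (sg_cont i).comp (continuous_snd : Continuous (fun p : E × ℝ => p.2))
  have h2 : Continuous (fun p : E × ℝ => p.1 i) := (continuous_apply i).comp continuous_fst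
  exact ((continuous_const.sub h).smul h2).add (h.smul continuous_const)

theorem ps_eq {v : E} {s : ℝ} {i : ℕ} (h : i * s ≤ 1) : ps v s i = v i := by
  unfold ps
  rw [sg_zero h]
  simp

theorem ps_far {v : E} {s : ℝ} {i : ℕ} (h : 2 ≤ i * s) : (ps v s i).1 = 1 := by
  unfold ps
  rw [sg_one h]
  simp

theorem exists_sat {M : Type} [TopologicalSpace M] {p : M × E} {S : Set (M × E)} (hS : S ∈ 𝓝 p) :
    ∃ n : ℕ, ∃ O : Set (M × E), IsOpen O ∧ p ∈ O ∧ O ⊆ S ∧
      ∀ m v w, (m, v) ∈ O → (∀ i < n, w i = v i) → (m, w) ∈ O := by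
  obtain ⟨u, v, hu, hpu, hv, hpv, hsub⟩ := mem_nhds_prod_iff'.1 (by simpa using hS)
  obtain ⟨J, B, hB, hJ⟩ := isOpen_pi_iff.1 hv _ hpv
  refine ⟨J.sup id + 1, u ×ˢ (J : Set ℕ).pi B, ?_, ?_, ?_, ?_⟩
  · exact hu.prod (isOpen_set_pi J.finite_toSet fun i hi => (hB i hi).1)
  · exact ⟨hpu, fun i hi => (hB i hi).2⟩
  · exact (prod_mono le_rfl hJ).trans hsub
  · rintro m v w ⟨h1, h2⟩ h3
    refine ⟨h1, fun i hi => ?_⟩
    have := Finset.le_sup (f := id) (Finset.mem_coe.1 hi)
    simp only [id] at this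
    have h4 := h2 i hi
    simp only at h4 ⊢
    rw [h3 i (by omega)]
    exact h4

end SZFactsAux

open SZFactsAux

/-- the zero level of `M x E`. PROOF: closed. Given a cover `U` of `M x E`, choose by `exists_below`
a continuous `t : M x E -> (0,1]` such that `(m,v)` and `(m, v^s)` lie in one `U z` for all
`0 < s <= t(m,v)`, where `(v^s)_i = (1 - sig_i s) v_i + sig_i s . e1`, `sig_i s = clamp (i s - 1)`,
`e1 = (1, 0)` in `F` (local uniformity: only the coordinates `i > 1/s` are changed), and `t` at most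
`1`. `f (m,v) = (m, v^(t(m,v)))`. -/
theorem sz_level {M : Type} [TopologicalSpace M] [TopologicalSpace.MetrizableSpace M] :
    SZ {p : M × E | p.2 = 0} := by
  refine ⟨isClosed_eq continuous_snd continuous_const, fun U hU => ?_⟩
  have hH : Continuous (fun q : (M × E) × I => ((q.1.1, ps q.1.2 q.2) : M × E)) := by
    refine (continuous_fst.comp continuous_fst).prodMk ?_
    exact ps_cont.comp ((continuous_snd.comp continuous_fst).prodMk (continuous_subtype_val.comp continuous_snd))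
  obtain ⟨ε, hε, hpos, hnear⟩ := near_small hH (fun z => by
    refine Prod.ext rfl (funext fun i => ?_)
    exact ps_eq (by simp)) hU
  refine ⟨fun z => (z.1, ps z.2 (ε z)), hH.comp (continuous_id.prodMk hε), hnear, ?_⟩
  rw [Set.disjoint_left]
  rintro ⟨m, v⟩ hcl hv
  have hv' : v = 0 := hv
  subst hv'
  have hτ : (0 : ℝ) < ε (m, 0) := hpos (m, 0)
  set τ : ℝ := (ε (m, 0) : ℝ) / 2 with hτdef
  have hτ0 : 0 < τ := by positivity
  have hN : {z : M × E | τ < (ε z : ℝ)} ∈ 𝓝 ((m, 0) : M × E) := by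
    refine (isOpen_lt continuous_const (continuous_subtype_val.comp hε)).mem_nhds ?_
    simp only [mem_ofPred_eq, Function.comp]
    linarith
  obtain ⟨n, O, hO, hmO, hOS, hsat⟩ := exists_sat hN
  obtain ⟨N, hN1⟩ := exists_nat_gt (2 / τ)
  set k : ℕ := max (2 * n + 1) N with hk
  have hk1 : 2 / τ < k := lt_of_lt_of_le hN1 (by exact_mod_cast le_max_right _ _)
  have hk2 : (2 : ℝ) * n + 1 ≤ k := by
    have : 2 * n + 1 ≤ k := le_max_left _ _
    exact_mod_cast this
  have hkpos : (0 : ℝ) < k := by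
    have : (0 : ℝ) ≤ n := Nat.cast_nonneg n
    linarith
  have hW : O ∩ {z : M × E | (z.2 k).1 < 1} ∈ 𝓝 ((m, 0) : M × E) := by
    refine inter_mem (hO.mem_nhds hmO) ?_
    refine (isOpen_lt (continuous_fst.comp ((continuous_apply k).comp continuous_snd)) continuous_const).mem_nhds ?_
    simp
  obtain ⟨y, ⟨hyO, hyk⟩, ⟨⟨m', w⟩, rfl⟩⟩ := mem_closure_iff_nhds.1 hcl _ hW
  set s : ℝ := (ε (m', w) : ℝ) with hs
  have hs0 : 0 < s := hpos (m', w)
  by_cases hc : 2 ≤ k * s
  · have := ps_far (v := w) hc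
    simp only [mem_ofPred_eq] at hyk
    rw [this] at hyk
    exact lt_irrefl _ hyk
  · push Not at hc
    have hmem : (m', w) ∈ O := by
      refine hsat m' _ w hyO fun i hi => ?_
      refine (ps_eq ?_).symm
      have hi' : (i : ℝ) ≤ n := by exact_mod_cast hi.le
      have h5 : (i : ℝ) * s ≤ n * s := mul_le_mul_of_nonneg_right hi' hs0.le
      nlinarith
    have h6 : τ < s := hOS hmem
    rw [div_lt_iff₀ hτ0] at hk1
    nlinarith

/-- PROOF: `f (m,t) = (m, max t (eps (m,t)))` with `eps` small continuous positive. -/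
theorem sz_bottom {M : Type} [TopologicalSpace M] [TopologicalSpace.MetrizableSpace M] :
    SZ {p : M × I | p.2 = 0} := by
  refine ⟨isClosed_eq continuous_snd continuous_const, fun U hU => ?_⟩
  have hH : Continuous (fun q : (M × I) × I => ((q.1.1, max q.1.2 q.2) : M × I)) := by
    exact (continuous_fst.comp continuous_fst).prodMk ((continuous_snd.comp continuous_fst).max continuous_snd)
  obtain ⟨ε, hε, hpos, hnear⟩ := near_small hH (fun z => by
    refine Prod.ext rfl ?_
    exact max_eq_left z.2.2.1) hU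
  refine ⟨fun z => (z.1, max z.2 (ε z)), hH.comp (continuous_id.prodMk hε), hnear, ?_⟩
  rw [Set.disjoint_left]
  rintro ⟨m, v⟩ hcl hv
  have hv' : v = 0 := hv
  subst hv'
  obtain ⟨τ, hτ0, hτ1⟩ := exists_between (hpos (m, 0))
  have hN : {z : M × I | τ < ε z} ∈ 𝓝 ((m, 0) : M × I) :=
    (isOpen_lt continuous_const hε).mem_nhds hτ1
  obtain ⟨u, J, hu, hmu, hJ, h0J, hsub⟩ := mem_nhds_prod_iff'.1 hN
  obtain ⟨r, hr, hball⟩ := Metric.mem_nhds_iff.1 (hJ.mem_nhds h0J)
  have hW : (u ×ˢ ({t : I | (t : ℝ) < r} ∩ {t : I | t < τ})) ∈ 𝓝 ((m, 0) : M × I) := by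
    refine prod_mem_nhds (hu.mem_nhds hmu) (inter_mem ?_ ?_)
    · exact (isOpen_lt continuous_subtype_val continuous_const).mem_nhds (by simpa using hr)
    · exact (isOpen_lt continuous_id continuous_const).mem_nhds hτ0
  obtain ⟨y, ⟨hyu, hyr, hyτ⟩, ⟨⟨m', w⟩, rfl⟩⟩ := mem_closure_iff_nhds.1 hcl _ hW
  simp only [mem_ofPred_eq] at hyr hyτ hyu
  have hw : (w : ℝ) < r := lt_of_le_of_lt (by exact_mod_cast le_max_left w (ε (m', w))) hyr
  have hmem : (m', w) ∈ u ×ˢ J := by
    refine ⟨hyu, hball ?_⟩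
    rw [Metric.mem_ball, Subtype.dist_eq, Real.dist_eq]
    have : (0 : ℝ) ≤ w := w.2.1
    have e0 : ((0 : I) : ℝ) = 0 := rfl
    rw [e0, sub_zero, abs_of_nonneg this]
    exact hw
  have h6 : τ < ε (m', w) := hsub hmem
  exact lt_irrefl _ (h6.trans (lt_of_le_of_lt (le_max_right w _) hyτ))

theorem HZ.subset {M : Type} [TopologicalSpace M] {A B : Set M} (hA : HZ A) (hB : IsClosed B)
    (h : B ⊆ A) : HZ B := by
  obtain ⟨_, H, hH, h0, h1⟩ := hA
  exact ⟨hB, H, hH, h0, fun m t ht hm => h1 m t ht (h hm)⟩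

theorem HZ.image {M M' : Type} [TopologicalSpace M] [TopologicalSpace M'] (h : M ≃ₜ M')
    {A : Set M} (hA : HZ A) : HZ (h '' A) := by
  obtain ⟨hc, H, hH, h0, h1⟩ := hA
  refine ⟨h.isClosedMap _ hc, fun p => h (H (h.symm p.1, p.2)), ?_, fun m => ?_, fun m t ht hm => ?_⟩
  · exact h.continuous.comp (hH.comp ((h.symm.continuous.comp continuous_fst).prodMk continuous_snd))
  · simp [h0]
  · obtain ⟨a, ha, hae⟩ := hm
    have := h.injective hae
    exact h1 _ t ht (this ▸ ha)

theorem HZ.preimage {M M' : Type} [TopologicalSpace M] [TopologicalSpace M'] (h : M ≃ₜ M')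
    {A : Set M'} (hA : HZ A) : HZ (h ⁻¹' A) := by
  rw [← h.image_symm]
  exact hA.image h.symm

/-- PROOF: `f = H (., t(.))` with `t` positive small is near the identity and misses `A`; only used
for `HD`. -/
theorem HD.hz {X : Type} [TopologicalSpace X] {Om C : Set X} (h : HD Om) (hC : IsClosed C)
    (hs : C ⊆ Om) : HZ C := by
  obtain ⟨H, hH, h0, h1⟩ := h
  exact ⟨hC, H, hH, h0, fun m t ht hm => h1 m t ht (hs hm)⟩

end Pool.Agent.Tor
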