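import Pool.Agent.Lib.Tor.Dugundji
import Pool.Agent.Lib.Tor.SZFacts
import Pool.Agent.Lib.Pc7f692.Trap

/-! Tor.IntAE: the spaces `C(I,I)`, surjective maps, closure of the transitive maps are Polish
absolute extensors; homotopy density of the transitive maps; homotopy Z-sets. -/

open Set Topology Filter

namespace Pool.Agent.Tor

open Pool.Agent.Lib.Pc7f692 (IsTrans defo)

/-- continuous self-maps of the unit interval -/
abbrev CI : Type := C(unitInterval, unitInterval)

/-- the surjective maps -/
abbrev SI : Type := {f : CI // Function.Surjective f}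

/-- the set of transitive maps -/
def Tr : Set CI := {f | IsTrans f}

/-- closure of the transitive maps -/
abbrev TI : Type := {f : CI // f ∈ closure Tr}

namespace IntAEAux

/-- largest value -/
noncomputable def mx (f : CI) : ℝ := sSup ((fun x => ((f x : unitInterval) : ℝ)) '' univ)

/-- smallest value -/
noncomputable def mn (f : CI) : ℝ := sInf ((fun x => ((f x : unitInterval) : ℝ)) '' univ)

theorem continuous_mx : Continuous mx := by
  refine isCompact_univ.continuous_sSup (f := fun (f : CI) (x : unitInterval) =>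
    ((f x : unitInterval) : ℝ)) ?_
  show Continuous fun q : CI × unitInterval => ((q.1 q.2 : unitInterval) : ℝ)
  fun_prop

theorem continuous_mn : Continuous mn := by
  refine isCompact_univ.continuous_sInf (f := fun (f : CI) (x : unitInterval) =>
    ((f x : unitInterval) : ℝ)) ?_
  show Continuous fun q : CI × unitInterval => ((q.1 q.2 : unitInterval) : ℝ)
  fun_prop

theorem bddAbove (f : CI) : BddAbove ((fun x => ((f x : unitInterval) : ℝ)) '' univ) :=
  ⟨1, by rintro _ ⟨x, _, rfl⟩; exact (f x).2.2⟩

theorem bddBelow (f : CI) : BddBelow ((fun x => ((f x : unitInterval) : ℝ)) '' univ) :=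
  ⟨0, by rintro _ ⟨x, _, rfl⟩; exact (f x).2.1⟩

theorem le_mx (f : CI) (x : unitInterval) : (f x : ℝ) ≤ mx f :=
  le_csSup (bddAbove f) ⟨x, mem_univ x, rfl⟩

theorem mn_le (f : CI) (x : unitInterval) : mn f ≤ (f x : ℝ) :=
  csInf_le (bddBelow f) ⟨x, mem_univ x, rfl⟩

theorem exists_mx (f : CI) : ∃ x, (f x : ℝ) = mx f := by
  have h := (isCompact_univ.image (f := fun x => ((f x : unitInterval) : ℝ))
    (by fun_prop)).sSup_mem (univ_nonempty.image _)
  obtain ⟨x, _, hx⟩ := h
  exact ⟨x, hx⟩

theorem exists_mn (f : CI) : ∃ x, (f x : ℝ) = mn f := by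
  have h := (isCompact_univ.image (f := fun x => ((f x : unitInterval) : ℝ))
    (by fun_prop)).sInf_mem (univ_nonempty.image _)
  obtain ⟨x, _, hx⟩ := h
  exact ⟨x, hx⟩

theorem mx_le_one (f : CI) : mx f ≤ 1 := by
  obtain ⟨x, hx⟩ := exists_mx f
  rw [← hx]; exact (f x).2.2

theorem mn_nonneg (f : CI) : 0 ≤ mn f := by
  obtain ⟨x, hx⟩ := exists_mn f
  rw [← hx]; exact (f x).2.1

theorem mx_surj {f : CI} (hf : Function.Surjective f) : mx f = 1 := by
  obtain ⟨x, hx⟩ := hf 1
  refine le_antisymm (mx_le_one f) ?_
  have := le_mx f x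
  rw [hx] at this
  exact this

theorem mn_surj {f : CI} (hf : Function.Surjective f) : mn f = 0 := by
  obtain ⟨x, hx⟩ := hf 0
  refine le_antisymm ?_ (mn_nonneg f)
  have := mn_le f x
  rw [hx] at this
  exact this

/-- a self-map with values `0` and `1` is surjective -/
theorem surj_of {f : CI} (h0 : ∃ x, (f x : ℝ) = 0) (h1 : ∃ x, (f x : ℝ) = 1) :
    Function.Surjective f := by
  obtain ⟨a, ha⟩ := h0
  obtain ⟨b, hb⟩ := h1
  have ha' : f a = 0 := Subtype.ext ha
  have hb' : f b = 1 := Subtype.ext hb
  intro y
  have hsub := intermediate_value_univ a b f.continuous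
  rw [ha', hb'] at hsub
  exact hsub ⟨y.2.1, y.2.2⟩

/-- size of the spike -/
noncomputable def kap (f : CI) : ℝ := min 1 (2 * (1 - (mx f - mn f))) / 4

theorem continuous_kap : Continuous kap := by
  have := continuous_mx
  have := continuous_mn
  unfold kap
  fun_prop

theorem kap_nonneg (f : CI) : 0 ≤ kap f := by
  have h1 := mx_le_one f
  have h2 := mn_nonneg f
  have : 0 ≤ min 1 (2 * (1 - (mx f - mn f))) := le_min zero_le_one (by linarith)
  unfold kap
  linarith

theorem kap_le (f : CI) : kap f ≤ 1 / 4 := by
  have : min 1 (2 * (1 - (mx f - mn f))) ≤ 1 := min_le_left _ _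
  unfold kap
  linarith

theorem kap_surj {f : CI} (hf : Function.Surjective f) : kap f = 0 := by
  unfold kap
  rw [mx_surj hf, mn_surj hf]
  norm_num

/-- the spiked map, with real values -/
noncomputable def spk (f : CI) (x : unitInterval) : ℝ :=
  (f (projIcc 0 1 zero_le_one (((x : ℝ) - kap f) / (1 - kap f))) : ℝ) +
    max 0 (4 * kap f - |8 * (x : ℝ) - 4 * kap f|)

theorem continuous_spk : Continuous fun q : CI × unitInterval => spk q.1 q.2 := by
  have hk : Continuous fun q : CI × unitInterval => kap q.1 := continuous_kap.comp continuous_fst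
  have hne : ∀ q : CI × unitInterval, 1 - kap q.1 ≠ 0 := fun q => by
    have := kap_le q.1
    intro h
    linarith
  have h1 : Continuous fun q : CI × unitInterval => ((q.2 : ℝ) - kap q.1) / (1 - kap q.1) :=
    ((continuous_subtype_val.comp continuous_snd).sub hk).div (continuous_const.sub hk) hne
  have h2 : Continuous fun q : CI × unitInterval =>
      q.1 (projIcc 0 1 zero_le_one (((q.2 : ℝ) - kap q.1) / (1 - kap q.1))) :=
    continuous_fst.eval (continuous_projIcc.comp h1)
  have h3 : Continuous fun q : CI × unitInterval => (q.2 : ℝ) :=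
    continuous_subtype_val.comp continuous_snd
  have h4 := continuous_subtype_val.comp h2
  unfold spk
  fun_prop

theorem spk_surj {f : CI} (hf : Function.Surjective f) (x : unitInterval) : spk f x = f x := by
  unfold spk
  rw [kap_surj hf]
  have h1 : ((x : ℝ) - 0) / (1 - 0) = x := by ring
  have h2 : max 0 (4 * (0 : ℝ) - |8 * (x : ℝ) - 4 * 0|) = 0 := by
    apply max_eq_left
    have := abs_nonneg (8 * (x : ℝ) - 4 * 0)
    linarith
  rw [h1, h2, add_zero]
  congr 2
  exact projIcc_val zero_le_one x

/-- largest value of the spiked map -/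
noncomputable def smx (f : CI) : ℝ := sSup (spk f '' univ)

/-- smallest value of the spiked map -/
noncomputable def smn (f : CI) : ℝ := sInf (spk f '' univ)

theorem continuous_smx : Continuous smx :=
  isCompact_univ.continuous_sSup continuous_spk

theorem continuous_smn : Continuous smn :=
  isCompact_univ.continuous_sInf continuous_spk

theorem cont_spk (f : CI) : Continuous (spk f) :=
  continuous_spk.comp (continuous_const.prodMk continuous_id)

theorem sbddAbove (f : CI) : BddAbove (spk f '' univ) :=
  (isCompact_univ.image (cont_spk f)).bddAbove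

theorem sbddBelow (f : CI) : BddBelow (spk f '' univ) :=
  (isCompact_univ.image (cont_spk f)).bddBelow

theorem le_smx (f : CI) (x : unitInterval) : spk f x ≤ smx f :=
  le_csSup (sbddAbove f) ⟨x, mem_univ x, rfl⟩

theorem smn_le (f : CI) (x : unitInterval) : smn f ≤ spk f x :=
  csInf_le (sbddBelow f) ⟨x, mem_univ x, rfl⟩

theorem exists_smx (f : CI) : ∃ x, spk f x = smx f := by
  obtain ⟨x, _, hx⟩ := (isCompact_univ.image (cont_spk f)).sSup_mem (univ_nonempty.image _)
  exact ⟨x, hx⟩

theorem exists_smn (f : CI) : ∃ x, spk f x = smn f := by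
  obtain ⟨x, _, hx⟩ := (isCompact_univ.image (cont_spk f)).sInf_mem (univ_nonempty.image _)
  exact ⟨x, hx⟩

/-- the spiked map is not constant -/
theorem spk_osc (f : CI) : smn f < smx f := by
  have hk0 := kap_nonneg f
  have hk1 := kap_le f
  rcases hk0.lt_or_eq with hk | hk
  · -- the spike has positive height
    have hx0 : spk f 0 = f 0 := by
      unfold spk
      have e1 : projIcc 0 1 zero_le_one ((((0 : unitInterval) : ℝ) - kap f) / (1 - kap f)) =
          (0 : unitInterval) := by
        apply projIcc_of_le_left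
        have h0 : ((0 : unitInterval) : ℝ) = 0 := rfl
        rw [h0]
        apply div_nonpos_of_nonpos_of_nonneg <;> linarith
      have e2 : max 0 (4 * kap f - |8 * ((0 : unitInterval) : ℝ) - 4 * kap f|) = 0 := by
        apply max_eq_left
        have h0 : ((0 : unitInterval) : ℝ) = 0 := rfl
        rw [h0]
        have : |8 * (0 : ℝ) - 4 * kap f| = 4 * kap f := by
          rw [show 8 * (0 : ℝ) - 4 * kap f = -(4 * kap f) by ring, abs_neg, abs_of_nonneg]
          linarith
        rw [this, sub_self]
      rw [e1, e2, add_zero]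
    have hmem : kap f / 2 ∈ unitInterval := ⟨by linarith, by linarith⟩
    have hx1 : spk f ⟨kap f / 2, hmem⟩ = f 0 + 4 * kap f := by
      unfold spk
      have e1 : projIcc 0 1 zero_le_one ((kap f / 2 - kap f) / (1 - kap f)) =
          (0 : unitInterval) := by
        apply projIcc_of_le_left
        apply div_nonpos_of_nonpos_of_nonneg <;> linarith
      have e2 : max 0 (4 * kap f - |8 * (kap f / 2) - 4 * kap f|) = 4 * kap f := by
        have : 8 * (kap f / 2) - 4 * kap f = 0 := by ring
        rw [this, abs_zero, sub_zero]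
        exact max_eq_right (by linarith)
      show (f (projIcc 0 1 zero_le_one ((kap f / 2 - kap f) / (1 - kap f))) : ℝ) +
        max 0 (4 * kap f - |8 * (kap f / 2) - 4 * kap f|) = _
      rw [e1, e2]
    have h1 := smn_le f 0
    have h2 := le_smx f ⟨kap f / 2, hmem⟩
    rw [hx0] at h1
    rw [hx1] at h2
    linarith
  · -- no spike: the oscillation is one
    have hosc : mx f - mn f = 1 := by
      have h1 := mx_le_one f
      have h2 := mn_nonneg f
      have h3 : min 1 (2 * (1 - (mx f - mn f))) = 0 := by
        unfold kap at hk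
        linarith
      rcases min_choice (1 : ℝ) (2 * (1 - (mx f - mn f))) with h | h
      · rw [h] at h3; norm_num at h3
      · rw [h] at h3; linarith
    have hsp : ∀ x, spk f x = f x := by
      intro x
      unfold spk
      rw [← hk]
      have h1 : ((x : ℝ) - 0) / (1 - 0) = x := by ring
      have h2 : max 0 (4 * (0 : ℝ) - |8 * (x : ℝ) - 4 * 0|) = 0 := by
        apply max_eq_left
        have := abs_nonneg (8 * (x : ℝ) - 4 * 0)
        linarith
      rw [h1, h2, add_zero]
      congr 2
      exact projIcc_val zero_le_one x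
    obtain ⟨a, ha⟩ := exists_mx f
    obtain ⟨b, hb⟩ := exists_mn f
    have h1 := smn_le f b
    have h2 := le_smx f a
    rw [hsp, hb] at h1
    rw [hsp, ha] at h2
    linarith

theorem nrm_mem (f : CI) (x : unitInterval) :
    (spk f x - smn f) / (smx f - smn f) ∈ Icc (0 : ℝ) 1 := by
  have h := spk_osc f
  have h1 := smn_le f x
  have h2 := le_smx f x
  constructor
  · apply div_nonneg <;> linarith
  · rw [div_le_one (by linarith)]
    linarith

/-- the normalised spiked map -/
noncomputable def ret (f : CI) : CI where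
  toFun x := ⟨(spk f x - smn f) / (smx f - smn f), nrm_mem f x⟩
  continuous_toFun := by
    have := cont_spk f
    apply Continuous.subtype_mk
    fun_prop

theorem continuous_ret : Continuous ret := by
  apply ContinuousMap.continuous_of_continuous_uncurry
  have h1 := continuous_spk
  have h2 : Continuous fun q : CI × unitInterval => smn q.1 := continuous_smn.comp continuous_fst
  have h3 : Continuous fun q : CI × unitInterval => smx q.1 := continuous_smx.comp continuous_fst
  have h : Continuous fun q : CI × unitInterval =>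
      (spk q.1 q.2 - smn q.1) / (smx q.1 - smn q.1) :=
    (h1.sub h2).div (h3.sub h2) fun q => by
      have := spk_osc q.1
      intro h
      linarith
  exact h.subtype_mk _

theorem ret_surj (f : CI) : Function.Surjective (ret f) := by
  have h := spk_osc f
  apply surj_of
  · obtain ⟨x, hx⟩ := exists_smn f
    refine ⟨x, ?_⟩
    show (spk f x - smn f) / (smx f - smn f) = 0
    rw [hx, sub_self, zero_div]
  · obtain ⟨x, hx⟩ := exists_smx f
    refine ⟨x, ?_⟩
    show (spk f x - smn f) / (smx f - smn f) = 1
    rw [hx, div_self]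
    intro h'
    linarith

theorem ret_eq {f : CI} (hf : Function.Surjective f) : ret f = f := by
  have hsp : spk f = fun x => (f x : ℝ) := funext (spk_surj hf)
  have e1 : smx f = 1 := by
    have : smx f = mx f := by unfold smx mx; rw [hsp]
    rw [this, mx_surj hf]
  have e2 : smn f = 0 := by
    have : smn f = mn f := by unfold smn mn; rw [hsp]
    rw [this, mn_surj hf]
  ext x
  show (spk f x - smn f) / (smx f - smn f) = f x
  rw [e1, e2, spk_surj hf]
  ring

/-- truncation `C(I,R) -> C(I,I)` -/
noncomputable def trunc (g : C(unitInterval, ℝ)) : CI :=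
  (⟨projIcc 0 1 zero_le_one, continuous_projIcc⟩ : C(ℝ, unitInterval)).comp g

/-- inclusion `C(I,I) -> C(I,R)` -/
def incl (f : CI) : C(unitInterval, ℝ) :=
  (⟨Subtype.val, continuous_subtype_val⟩ : C(unitInterval, ℝ)).comp f

end IntAEAux

open IntAEAux

instance polish_CI : PolishSpace CI := inferInstance

theorem isClosed_surj : IsClosed {f : CI | Function.Surjective f} := by
  have : {f : CI | Function.Surjective f} = {f : CI | ret f = f} := by
    ext f
    constructor
    · intro hf
      exact ret_eq hf
    · intro hf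
      have := ret_surj f
      rw [show ret f = f from hf] at this
      exact this
  rw [this]
  exact isClosed_eq continuous_ret continuous_id

instance polish_SI : PolishSpace SI := isClosed_surj.polishSpace

instance polish_TI : PolishSpace TI := isClosed_closure.polishSpace

theorem ae_CI : AE CI := by
  refine (ae_normed C(unitInterval, ℝ)).retract incl trunc ?_ ?_ ?_
  · exact ContinuousMap.continuous_postcomp _
  · exact ContinuousMap.continuous_postcomp _
  · intro f
    ext x
    show ((projIcc (0 : ℝ) 1 zero_le_one ((f x : unitInterval) : ℝ) : unitInterval) : ℝ) = f x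
    rw [projIcc_val]

theorem ae_SI : AE SI :=
  ae_CI.retract Subtype.val (fun f => ⟨ret f, ret_surj f⟩) continuous_subtype_val
    (continuous_ret.subtype_mk _) fun f => Subtype.ext (ret_eq f.2)

theorem defo_mem (f : CI) : defo (f, 0) ∈ closure Tr := by
  by_cases h : f ∈ closure Tr
  · rw [Pool.Agent.Lib.Pc7f692.defo_zero h]
    exact h
  · exact subset_closure (Pool.Agent.Lib.Pc7f692.isTrans_defo (Or.inl h))

theorem ae_TI : AE TI :=
  ae_CI.retract Subtype.val (fun f => ⟨defo (f, 0), defo_mem f⟩) continuous_subtype_val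
    ((Pool.Agent.Lib.Pc7f692.continuous_defo.comp (by fun_prop)).subtype_mk _)
    fun f => Subtype.ext (Pool.Agent.Lib.Pc7f692.defo_zero f.2)

/-- the transitive maps are homotopy dense in their closure -/
theorem hd_TI : HD {f : TI | f.1 ∉ Tr} := by
  refine ⟨fun q => ⟨defo (q.1.1, q.2), ?_⟩, ?_, ?_, ?_⟩
  · by_cases h : q.2 = 0
    · rw [h]
      exact defo_mem _
    · exact subset_closure (Pool.Agent.Lib.Pc7f692.isTrans_defo (Or.inr h))
  · apply Continuous.subtype_mk
    exact Pool.Agent.Lib.Pc7f692.continuous_defo.comp (by fun_prop)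
  · intro f
    exact Subtype.ext (Pool.Agent.Lib.Pc7f692.defo_zero f.2)
  · intro f t ht hmem
    exact hmem (Pool.Agent.Lib.Pc7f692.isTrans_defo (Or.inr ht.ne'))

/-- the set of transitive maps is a countable intersection of open sets -/
theorem isGδ_Tr : IsGδ Tr := by
  let B := TopologicalSpace.countableBasis unitInterval
  have hBc : B.Countable := TopologicalSpace.countable_countableBasis unitInterval
  have hBb : TopologicalSpace.IsTopologicalBasis B :=
    TopologicalSpace.isBasis_countableBasis unitInterval
  have hcont : ∀ (n : ℕ) (x : unitInterval), Continuous fun f : CI => (⇑f)^[n] x := by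
    intro n x
    induction n with
    | zero => exact continuous_const
    | succ n ih =>
      have : (fun f : CI => (⇑f)^[n + 1] x) = fun f : CI => f ((⇑f)^[n] x) := by
        funext f
        rw [Function.iterate_succ_apply']
      rw [this]
      exact continuous_id.eval ih
  have hopen : ∀ U V : Set unitInterval, IsOpen V →
      IsOpen {f : CI | ∃ n : ℕ, 0 < n ∧ ((⇑f)^[n] '' U ∩ V).Nonempty} := by
    intro U V hV
    have : {f : CI | ∃ n : ℕ, 0 < n ∧ ((⇑f)^[n] '' U ∩ V).Nonempty} =
        ⋃ n : ℕ, ⋃ (_ : 0 < n), ⋃ x ∈ U, {f : CI | (⇑f)^[n] x ∈ V} := by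
      ext f
      simp only [mem_ofPred_eq, mem_iUnion, exists_prop]
      constructor
      · rintro ⟨n, hn, y, ⟨x, hx, rfl⟩, hy⟩
        exact ⟨n, hn, x, hx, hy⟩
      · rintro ⟨n, hn, x, hx, hy⟩
        exact ⟨n, hn, _, ⟨x, hx, rfl⟩, hy⟩
    rw [this]
    refine isOpen_iUnion fun n => isOpen_iUnion fun _ => isOpen_biUnion fun x _ => ?_
    exact hV.preimage (hcont n x)
  have : Tr = ⋂ U ∈ B, ⋂ V ∈ B, {f : CI | U.Nonempty → V.Nonempty →
      ∃ n : ℕ, 0 < n ∧ ((⇑f)^[n] '' U ∩ V).Nonempty} := by
    ext f
    simp only [mem_iInter, mem_ofPred_eq]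
    constructor
    · intro hf U hU V hV h1 h2
      exact hf U V (hBb.isOpen hU) (hBb.isOpen hV) h1 h2
    · intro hf U V hU hV h1 h2
      obtain ⟨x, hx⟩ := h1
      obtain ⟨y, hy⟩ := h2
      obtain ⟨U', hU', hxU', hUU⟩ := hBb.exists_subset_of_mem_open hx hU
      obtain ⟨V', hV', hyV', hVV⟩ := hBb.exists_subset_of_mem_open hy hV
      obtain ⟨n, hn, z, ⟨w, hw, hwz⟩, hz⟩ := hf U' hU' V' hV' ⟨x, hxU'⟩ ⟨y, hyV'⟩
      exact ⟨n, hn, z, ⟨w, hUU hw, hwz⟩, hVV hz⟩
  rw [this]
  refine IsGδ.biInter hBc fun U hU => IsGδ.biInter hBc fun V hV => ?_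
  by_cases h1 : U.Nonempty
  · by_cases h2 : V.Nonempty
    · have : {f : CI | U.Nonempty → V.Nonempty →
          ∃ n : ℕ, 0 < n ∧ ((⇑f)^[n] '' U ∩ V).Nonempty} =
          {f : CI | ∃ n : ℕ, 0 < n ∧ ((⇑f)^[n] '' U ∩ V).Nonempty} := by
        ext f
        simp only [mem_ofPred_eq, h1, h2, true_imp_iff]
      rw [this]
      exact (hopen U V (hBb.isOpen hV)).isGδ
    · have : {f : CI | U.Nonempty → V.Nonempty →
          ∃ n : ℕ, 0 < n ∧ ((⇑f)^[n] '' U ∩ V).Nonempty} = univ := by
        ext f
        simp only [mem_ofPred_eq, mem_univ, iff_true]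
        intro _ h
        exact absurd h h2
      rw [this]
      exact IsGδ.univ
  · have : {f : CI | U.Nonempty → V.Nonempty →
        ∃ n : ℕ, 0 < n ∧ ((⇑f)^[n] '' U ∩ V).Nonempty} = univ := by
      ext f
      simp only [mem_ofPred_eq, mem_univ, iff_true]
      intro h
      exact absurd h h1
    rw [this]
    exact IsGδ.univ

/-- a set whose complement is a countable intersection of open sets is a countable union of
closed sets -/
theorem fsigma_of_compl {X : Type} [TopologicalSpace X] {S : Set X} (h : IsGδ S) :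
    ∃ K : ℕ → Set X, (∀ n, IsClosed (K n)) ∧ Monotone K ∧ Sᶜ = ⋃ n, K n := by
  obtain ⟨f, hf, hS⟩ := isGδ_iff_eq_iInter_nat.1 h
  refine ⟨fun n => ⋃ i ∈ Finset.range (n + 1), (f i)ᶜ, ?_, ?_, ?_⟩
  · intro n
    exact Set.Finite.isClosed_biUnion (Finset.finite_toSet _) fun i _ => (hf i).isClosed_compl
  · intro m n hmn
    refine biUnion_subset_biUnion_left ?_
    intro i hi
    have h1 : i ∈ Finset.range (m + 1) := hi
    have : i < m + 1 := Finset.mem_range.1 h1
    have h2 : i ∈ Finset.range (n + 1) := Finset.mem_range.2 (by omega)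
    exact h2
  · rw [hS, compl_iInter]
    ext x
    simp only [mem_iUnion, Finset.mem_range, exists_prop]
    constructor
    · rintro ⟨i, hi⟩
      exact ⟨i, i, by omega, hi⟩
    · rintro ⟨_, i, _, hi⟩
      exact ⟨i, hi⟩

theorem fsigma_TI : ∃ K : ℕ → Set TI, (∀ n, IsClosed (K n)) ∧ Monotone K ∧
    {f : TI | f.1 ∉ Tr} = ⋃ n, K n := by
  have h : IsGδ {f : TI | f.1 ∈ Tr} := isGδ_Tr.preimage continuous_subtype_val
  obtain ⟨K, h1, h2, h3⟩ := fsigma_of_compl h
  exact ⟨K, h1, h2, h3⟩

/-- The surjective maps form a homotopy Z-set in `C(I,I)`. -/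
theorem hz_SI : HZ {f : CI | Function.Surjective f} := by
  refine ⟨isClosed_surj, ?_⟩
  have hmem : ∀ (q : CI × unitInterval) (x : unitInterval),
      (1 - (q.2 : ℝ)) * (q.1 x : ℝ) + (q.2 : ℝ) / 2 ∈ unitInterval := by
    intro q x
    have h1 := q.2.2.1
    have h2 := q.2.2.2
    have h3 := (q.1 x).2.1
    have h4 := (q.1 x).2.2
    constructor
    · have : 0 ≤ (1 - (q.2 : ℝ)) * (q.1 x : ℝ) := mul_nonneg (by linarith) h3
      linarith
    · nlinarith
  refine ⟨fun q => ⟨fun x => ⟨_, hmem q x⟩, ?_⟩, ?_, ?_, ?_⟩
  · apply Continuous.subtype_mk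
    fun_prop
  · apply ContinuousMap.continuous_of_continuous_uncurry
    have : Continuous fun z : (CI × unitInterval) × unitInterval =>
        (1 - (z.1.2 : ℝ)) * (z.1.1 z.2 : ℝ) + (z.1.2 : ℝ) / 2 := by fun_prop
    exact this.subtype_mk _
  · intro f
    ext x
    show (1 - ((0 : unitInterval) : ℝ)) * (f x : ℝ) + ((0 : unitInterval) : ℝ) / 2 = f x
    simp
  · intro f t ht hs
    obtain ⟨x, hx⟩ := hs 0
    have h0 : (1 - (t : ℝ)) * (f x : ℝ) + (t : ℝ) / 2 = 0 := congrArg Subtype.val hx
    have h1 : (0 : ℝ) < t := ht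
    have h2 := t.2.2
    have h3 : 0 ≤ (1 - (t : ℝ)) * (f x : ℝ) := mul_nonneg (by linarith) (f x).2.1
    linarith

/-- The closure of the transitive maps consists of surjective maps. -/
theorem surj_of_mem_closure {f : CI} (hf : f ∈ closure Tr) : Function.Surjective f := by
  have h : Tr ⊆ {f : CI | Function.Surjective f} := by
    intro g hg
    have hdense : DenseRange g := by
      rw [DenseRange, dense_iff_inter_open]
      intro V hV hVne
      obtain ⟨n, hn, y, ⟨x, _, hx⟩, hy⟩ := hg univ V isOpen_univ hV univ_nonempty hVne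
      obtain ⟨m, rfl⟩ : ∃ m, n = m + 1 := ⟨n - 1, by omega⟩
      rw [Function.iterate_succ_apply'] at hx
      exact ⟨y, hy, ⟨_, hx⟩⟩
    have hclosed : IsClosed (range g) := (isCompact_range g.continuous).isClosed
    have : range g = univ := by
      rw [← hclosed.closure_eq]
      exact hdense.closure_range
    exact range_eq_univ.1 this
  exact isClosed_surj.closure_subset_iff.2 h hf

/-- The closure of the transitive maps is a homotopy Z-set in the space of surjective maps. -/
theorem hz_TI : HZ {f : SI | f.1 ∈ closure Tr} := by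
  refine ⟨isClosed_closure.preimage continuous_subtype_val, ?_⟩
  classical
  -- glue the trapping operator to the identity at `t = 0`
  let P : CI × unitInterval → CI := fun q =>
    if h : 0 < (q.2 : ℝ) then Pool.Agent.Lib.Pc7f692.tmap ⟨(q.1, (q.2 : ℝ)), h⟩ else q.1
  have hP : Continuous P := by
    rw [continuous_iff_continuousAt]
    rintro ⟨f, t⟩
    have ht0 : 0 ≤ (t : ℝ) := t.2.1
    rcases ht0.lt_or_eq with ht | ht
    · have hopen : IsOpen {q : CI × unitInterval | 0 < (q.2 : ℝ)} :=
        isOpen_lt continuous_const (by fun_prop)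
      have hon : ContinuousOn P {q | 0 < (q.2 : ℝ)} := by
        rw [continuousOn_iff_continuous_domRestrict]
        have heq : ({q : CI × unitInterval | 0 < (q.2 : ℝ)}.domRestrict P) =
            fun w : {q : CI × unitInterval | 0 < (q.2 : ℝ)} =>
              Pool.Agent.Lib.Pc7f692.tmap ⟨(w.1.1, (w.1.2 : ℝ)), w.2⟩ := by
          funext w
          show P w.1 = _
          have hw : 0 < (w.1.2 : ℝ) := w.2
          simp only [P]
          rw [dif_pos hw]
        rw [heq]
        apply Pool.Agent.Lib.Pc7f692.continuous_tmap.comp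
        apply Continuous.subtype_mk
        fun_prop
      exact hon.continuousAt (hopen.mem_nhds ht)
    · have hval : P (f, t) = f := by
        simp only [P]
        rw [dif_neg]
        rw [← ht]
        exact lt_irrefl _
      rw [ContinuousAt, hval, tendsto_iff_dist_tendsto_zero]
      have hb : Tendsto (fun w : CI × unitInterval => 2 * (w.2 : ℝ) + dist w.1 f)
          (𝓝 (f, t)) (𝓝 0) := by
        have h1 : Continuous fun w : CI × unitInterval => 2 * (w.2 : ℝ) + dist w.1 f := by
          fun_prop
        have h2 := h1.tendsto (f, t)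
        simp only [← ht, dist_self] at h2
        simpa using h2
      refine squeeze_zero (fun _ => dist_nonneg) ?_ hb
      intro w
      have h2 := dist_triangle (P w) w.1 f
      have h1 : dist (P w) w.1 ≤ 2 * (w.2 : ℝ) := by
        by_cases hw : 0 < (w.2 : ℝ)
        · simp only [P]
          rw [dif_pos hw]
          exact Pool.Agent.Lib.Pc7f692.dist_tmap_le _
        · simp only [P]
          rw [dif_neg hw, dist_self]
          have := w.2.2.1
          linarith
      linarith
  have hPs : ∀ q : CI × unitInterval, Function.Surjective q.1 → Function.Surjective (P q) := by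
    intro q hq
    by_cases hw : 0 < (q.2 : ℝ)
    · simp only [P]
      rw [dif_pos hw]
      exact Pool.Agent.Lib.Pc7f692.tmap_surj _ hq
    · simp only [P]
      rw [dif_neg hw]
      exact hq
  refine ⟨fun q => ⟨P (q.1.1, q.2), hPs _ q.1.2⟩, ?_, ?_, ?_⟩
  · apply Continuous.subtype_mk
    exact hP.comp (by fun_prop)
  · intro f
    apply Subtype.ext
    simp only [P]
    rw [dif_neg]
    exact lt_irrefl _
  · intro f t ht hmem
    have h : P (f.1, t) ∈ closure Tr := hmem
    simp only [P] at h
    rw [dif_pos (show 0 < (t : ℝ) from ht)] at h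
    exact Pool.Agent.Lib.Pc7f692.tmap_notMem _ h

end Pool.Agent.Tor
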