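import Mathlib

/-! Torunczyk project (MP_c7f692): common definitions. All types live in `Type`. -/

open Set Topology Filter

namespace Pool.Agent.Tor

/-- the unit interval as a type -/
abbrev I : Type := unitInterval

/-- `l1` -/
abbrev L1 : Type := lp (fun _ : ℕ => ℝ) 1

/-- the linear fibre `F = R x l1`, a separable Banach space -/
abbrev F : Type := ℝ × L1

/-- the model space `E = F^N` (product topology) -/
abbrev E : Type := ℕ → F

/-- the code space `W = [0,oo)^N` (product topology) -/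
abbrev W : Type := ℕ → {r : ℝ // 0 ≤ r}

/-- `Y` is an absolute extensor for metric spaces -/
def AE (Y : Type) [TopologicalSpace Y] : Prop :=
  ∀ (X : Type) [MetricSpace X] (A : Set X), IsClosed A → ∀ f : A → Y, Continuous f →
    ∃ g : X → Y, Continuous g ∧ ∀ a : A, g a = f a

/-- `U` is a neighbourhood assignment (an indexed open cover) of `Z` -/
def Cov {Z : Type} [TopologicalSpace Z] (U : Z → Set Z) : Prop :=
  ∀ z, IsOpen (U z) ∧ z ∈ U z

/-- `f` and `g` are `U`-close -/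
def Near {M Z : Type} (U : Z → Set Z) (f g : M → Z) : Prop :=
  ∀ m, ∃ z, f m ∈ U z ∧ g m ∈ U z

/-- strong Z-sets -/
def SZ {M : Type} [TopologicalSpace M] (A : Set M) : Prop :=
  IsClosed A ∧ ∀ U : M → Set M, Cov U →
    ∃ f : M → M, Continuous f ∧ Near U f id ∧ Disjoint (closure (range f)) A

/-- homotopy Z-sets -/
def HZ {M : Type} [TopologicalSpace M] (A : Set M) : Prop :=
  IsClosed A ∧ ∃ H : M × I → M, Continuous H ∧ (∀ m, H (m, 0) = m) ∧
    ∀ m (t : I), 0 < t → H (m, t) ∉ A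

/-- the complement of `Om` is homotopy dense -/
def HD {X : Type} [TopologicalSpace X] (Om : Set X) : Prop :=
  ∃ H : X × I → X, Continuous H ∧ (∀ x, H (x, 0) = x) ∧ ∀ x (t : I), 0 < t → H (x, t) ∉ Om

/-- PROPER READING of the code: along parameters `t` bounded away from zero, convergence of the
values forces convergence of the codes -/
def Reads {X : Type} [TopologicalSpace X] (N : X × I × W → X) : Prop :=
  ∀ (x : ℕ → X) (t : ℕ → I) (e : ℕ → W) (τ : ℝ) (y : X), 0 < τ → (∀ k, τ ≤ t k) →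
      Tendsto (fun k => N (x k, t k, e k)) atTop (𝓝 y) →
      ∃ e' : W, Tendsto e atTop (𝓝 e')

/-- `X` has a coded operator with values in `Om` (topological form) -/
def Coded (X : Type) [TopologicalSpace X] (Om : Set X) : Prop :=
  ∃ N : X × I × W → X, Continuous N ∧
    (∀ (x : ℕ → X) (t : ℕ → I) (e : ℕ → W) (y : X), Tendsto t atTop (𝓝 0) →
      (Tendsto x atTop (𝓝 y) ↔ Tendsto (fun k => N (x k, t k, e k)) atTop (𝓝 y))) ∧
    (∀ x t e, 0 < t → N (x, t, e) ∈ Om) ∧ Reads N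

/-- metric form of `Coded` -/
def CodedM (X : Type) [MetricSpace X] (Om : Set X) : Prop :=
  ∃ N : X × I × W → X, Continuous N ∧ (∀ x t e, dist (N (x, t, e)) x ≤ t) ∧
    (∀ x t e, 0 < t → N (x, t, e) ∈ Om) ∧ Reads N

/-- `J : E x I -> M` exhibits `M` as a mapping cylinder of `q : E -> X` (metrizable topology);
`c` is the collapse, `lev` the level, `i` the inclusion of the end `X` -/
structure IsCyl {X M : Type} [TopologicalSpace X] [TopologicalSpace M] (q : E → X) (c : M → X)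
    (lev : M → I) (i : X → M) (J : E × I → M) : Prop where
  hq : Continuous q
  hc : Continuous c
  hlev : Continuous lev
  hi : Continuous i
  hJ : Continuous J
  c_i : ∀ x, c (i x) = x
  lev_i : ∀ x, lev (i x) = 0
  c_J : ∀ n t, c (J (n, t)) = q n
  lev_J : ∀ n t, lev (J (n, t)) = t
  J_zero : ∀ n, J (n, 0) = i (q n)
  eq_i : ∀ m, lev m = 0 → m = i (c m)
  pn : ∃ pn : M → E, ContinuousOn pn {m | 0 < lev m} ∧
    (∀ n (t : I), 0 < t → pn (J (n, t)) = n) ∧ ∀ m, 0 < lev m → J (pn m, lev m) = m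
  nhds_i : ∀ x, ∀ V ∈ 𝓝 (i x), ∃ O ∈ 𝓝 x, ∃ ε : ℝ, 0 < ε ∧ ∀ m, c m ∈ O → (lev m : ℝ) < ε → m ∈ V

/-- `p : M -> MK` crushes the fibres of `c : M -> X` over the closed set `K` -/
structure IsCrush {X M MK : Type} [TopologicalSpace X] [TopologicalSpace M] [TopologicalSpace MK]
    (K : Set X) (c : M → X) (p : M → MK) (cK : MK → X) : Prop where
  hK : IsClosed K
  hc : Continuous c
  hp : Continuous p
  hcK : Continuous cK
  surj : Function.Surjective p
  cK_p : ∀ m, cK (p m) = c m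
  at_K : ∀ m, c m ∈ K → ∀ V ∈ 𝓝 (p m), ∃ O ∈ 𝓝 (c m), ∀ m', c m' ∈ O → p m' ∈ V
  off_K : ∀ m, c m ∉ K → ∀ V ∈ 𝓝 m, ∃ V' ∈ 𝓝 (p m), p ⁻¹' V' ⊆ V

/-- exact fibrewise deformation of `q : E -> X` to a section -/
structure IsResol {X : Type} [TopologicalSpace X] (q : E → X) (s : X → E) (D : E × I → E) :
    Prop where
  hq : Continuous q
  hs : Continuous s
  hD : Continuous D
  q_s : ∀ x, q (s x) = x
  D_zero : ∀ n, D (n, 0) = n
  D_one : ∀ n, D (n, 1) = s (q n)
  q_D : ∀ n t, q (D (n, t)) = q n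

/-- strong homotopy Z-property of `K` -/
def StrongK {X : Type} [MetricSpace X] (K : Set X) : Prop :=
  IsClosed K ∧ ∃ κ : X × I → X, Continuous κ ∧ (∀ x t, dist (κ (x, t)) x ≤ t) ∧
    (∀ x (t : I), 0 < t → κ (x, t) ∉ K) ∧
    ∀ (x : ℕ → X) (t : ℕ → I) (τ : ℝ) (y : X), 0 < τ → (∀ k, τ ≤ t k) →
      Tendsto (fun k => κ (x k, t k)) atTop (𝓝 y) → y ∉ K

/-- the shrinkability hypothesis of the Bing theorem -/
def Shrinkable {M Q : Type} [TopologicalSpace M] [TopologicalSpace Q] (p : M → Q) : Prop :=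
  ∀ U : Q → Set Q, Cov U → ∀ V : M → Set M, Cov V → ∃ k : M ≃ₜ M,
    Near U (fun m => p (k m)) p ∧ ∀ y, ∃ O ∈ 𝓝 y, ∃ m, (fun x => p (k x)) ⁻¹' O ⊆ V m

end Pool.Agent.Tor
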