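import Pool.Agent.Lib.Tor.Covers

/-! MODULE Tor.Bing (2 h): the Bing shrinking theorem for Polish spaces. -/

open Set Topology Filter

namespace Pool.Agent.Tor

/-- positive and 1-Lipschitz -/
def BingGood {Q : Type} [MetricSpace Q] (ρ : Q → ℝ) : Prop :=
  (∀ y, 0 < ρ y) ∧ ∀ x y, |ρ x - ρ y| ≤ dist x y

/-- one step of the construction -/
theorem bing_step {M Q : Type} [MetricSpace M] [MetricSpace Q] (p : M → Q)
    (H : Shrinkable p) (n : ℕ) (K : M ≃ₜ M) (ρ : Q → ℝ) (hρ : BingGood ρ) :
    ∃ (K' : M ≃ₜ M) (ρ' : Q → ℝ), BingGood ρ' ∧ (∀ y, ρ' y ≤ ρ y / 4) ∧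
      (∀ m, dist (p (K m)) (p (K' m)) < ρ (p (K m)) / 8) ∧
      ∀ y m m', dist (p (K' m)) y < ρ' y → dist (p (K' m')) y < ρ' y →
        dist m m' ≤ (1 / 2 : ℝ) ^ (n + 1) := by
  have hρc : Continuous ρ := by
    rw [Metric.continuous_iff]
    intro b ε hε
    exact ⟨ε, hε, fun a ha => lt_of_le_of_lt (hρ.2 a b) ha⟩
  obtain ⟨Un, hUn, hUn'⟩ := exists_cov (ε := fun y => ρ y / 8) (hρc.div_const 8)
    (fun z => by have := hρ.1 z; positivity)
  have hr : (0 : ℝ) < (1 / 2 : ℝ) ^ (n + 2) := by positivity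
  let V : M → Set M := fun m => {x | dist (K.symm x) (K.symm m) < (1 / 2 : ℝ) ^ (n + 2)}
  have hV : Cov V := by
    intro m
    refine ⟨?_, ?_⟩
    · exact isOpen_lt ((K.symm.continuous).dist continuous_const) continuous_const
    · change dist (K.symm m) (K.symm m) < _
      rw [dist_self]
      exact hr
  obtain ⟨k, hk1, hk2⟩ := H Un hUn V hV
  choose O hO m0 hm0 using hk2
  have hOc : Cov (fun y => interior (O y)) := fun y =>
    ⟨isOpen_interior, mem_interior_iff_mem_nhds.mpr (hO y)⟩
  obtain ⟨ε', _, hε'p, hε'l, hε'b⟩ := exists_eps hOc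
  refine ⟨K.trans k, fun y => min (ε' y) (ρ y / 4), ⟨?_, ?_⟩, ?_, ?_, ?_⟩
  · intro y
    have := hρ.1 y
    exact lt_min (hε'p y).1 (by positivity)
  · intro x y
    refine (abs_min_sub_min_le_max _ _ _ _).trans (max_le (hε'l x y) ?_)
    have : ρ x / 4 - ρ y / 4 = (ρ x - ρ y) / 4 := by ring
    rw [this, abs_div, abs_of_pos (by norm_num : (0 : ℝ) < 4)]
    have h1 := hρ.2 x y
    have h2 : 0 ≤ dist x y := dist_nonneg
    linarith
  · intro y
    exact min_le_right _ _
  · intro m
    obtain ⟨z, hz1, hz2⟩ := hk1 (K m)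
    exact hUn' z _ hz2 _ hz1
  · intro y m m' h1 h2
    obtain ⟨z, hz⟩ := hε'b y
    have key : ∀ x, dist (p ((K.trans k) x)) y < min (ε' y) (ρ y / 4) →
        dist x (K.symm (m0 z)) < (1 / 2 : ℝ) ^ (n + 2) := by
      intro x hx
      have hx1 : p ((K.trans k) x) ∈ interior (O z) :=
        hz (Metric.mem_ball.mpr (lt_of_lt_of_le hx (min_le_left _ _)))
      have hx1' : p ((K.trans k) x) ∈ O z := interior_subset hx1
      have hx2 : K x ∈ (fun x => p (k x)) ⁻¹' O z := hx1'
      have hx3 : dist (K.symm (K x)) (K.symm (m0 z)) < (1 / 2 : ℝ) ^ (n + 2) := hm0 z hx2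
      rwa [Homeomorph.symm_apply_apply] at hx3
    have a1 := key m h1
    have a2 := key m' h2
    have a3 := dist_triangle_right m m' (K.symm (m0 z))
    have e : (1 / 2 : ℝ) ^ (n + 1) = (1 / 2 : ℝ) ^ (n + 2) + (1 / 2 : ℝ) ^ (n + 2) := by
      rw [pow_succ (1 / 2 : ℝ) (n + 1)]
      ring
    linarith

theorem bing_metric {M Q : Type} [MetricSpace M] [CompleteSpace M] [MetricSpace Q]
    [CompleteSpace Q] (p : M → Q) (hp : Continuous p) (hd : DenseRange p) (H : Shrinkable p)
    (U : Q → Set Q) (hU : Cov U) : ∃ h : M ≃ₜ Q, Near U h p := by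
  classical
  obtain ⟨ε0, _, hε0p, hε0l, hε0b⟩ := exists_eps hU
  have hgood0 : BingGood ε0 := ⟨fun y => (hε0p y).1, hε0l⟩
  -- the sequence
  choose stK stρ hst using fun (n : ℕ) (K : M ≃ₜ M) (ρ : Q → ℝ) (hρ : BingGood ρ) =>
    bing_step p H n K ρ hρ
  let S : ℕ → {s : (M ≃ₜ M) × (Q → ℝ) // BingGood s.2} := fun n =>
    Nat.rec ⟨(Homeomorph.refl M, ε0), hgood0⟩
      (fun n s => ⟨(stK n s.1.1 s.1.2 s.2, stρ n s.1.1 s.1.2 s.2), (hst n _ _ s.2).1⟩) n
  let K : ℕ → M ≃ₜ M := fun n => (S n).1.1
  let ρ : ℕ → Q → ℝ := fun n => (S n).1.2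
  have hρg : ∀ n, BingGood (ρ n) := fun n => (S n).2
  have hρ4 : ∀ n y, ρ (n + 1) y ≤ ρ n y / 4 := fun n y => (hst n _ _ (S n).2).2.1 y
  have hmove : ∀ n m, dist (p (K n m)) (p (K (n + 1) m)) < ρ n (p (K n m)) / 8 :=
    fun n m => (hst n _ _ (S n).2).2.2.1 m
  have hdiam : ∀ n y m m', dist (p (K (n + 1) m)) y < ρ (n + 1) y →
      dist (p (K (n + 1) m')) y < ρ (n + 1) y → dist m m' ≤ (1 / 2 : ℝ) ^ (n + 1) :=
    fun n => (hst n _ _ (S n).2).2.2.2
  have hK0 : ∀ m, K 0 m = m := fun m => rfl
  have hρ0 : ρ 0 = ε0 := rfl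
  have hρpos : ∀ n y, 0 < ρ n y := fun n y => (hρg n).1 y
  have hρlip : ∀ n x y, ρ n x ≤ ρ n y + dist x y := fun n x y => by
    have := (abs_le.mp ((hρg n).2 x y)).2
    linarith
  have hρle : ∀ n y, ρ n y ≤ (1 / 4 : ℝ) ^ n := by
    intro n
    induction n with
    | zero => intro y; rw [pow_zero]; exact (hε0p y).2
    | succ n ih =>
      intro y
      have h1 := hρ4 n y
      have h2 := ih y
      rw [pow_succ]
      linarith
  -- the telescoping bound
  have htel : ∀ n m k, dist (p (K n m)) (p (K (n + k) m)) + ρ (n + k) (p (K (n + k) m)) / 4 ≤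
      ρ n (p (K n m)) / 4 := by
    intro n m k
    induction k with
    | zero => simp
    | succ k ih =>
      have h1 := hmove (n + k) m
      have h2 := hρ4 (n + k) (p (K (n + k + 1) m))
      have h3 := hρlip (n + k) (p (K (n + k + 1) m)) (p (K (n + k) m))
      rw [dist_comm] at h3
      have h4 := dist_triangle (p (K n m)) (p (K (n + k) m)) (p (K (n + k + 1) m))
      have h5 := hρpos (n + k) (p (K (n + k) m))
      rw [← add_assoc]
      linarith
  have hcau : ∀ m, CauchySeq (fun n => p (K n m)) := by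
    intro m
    refine cauchySeq_of_le_geometric (1 / 4 : ℝ) 1 (by norm_num) fun n => ?_
    have h1 := hmove n m
    have h2 := hρle n (p (K n m))
    have h3 := hρpos n (p (K n m))
    rw [one_mul]
    linarith
  choose h hh using fun m => cauchySeq_tendsto_of_complete (hcau m)
  have hclose : ∀ n m, dist (p (K n m)) (h m) ≤ ρ n (p (K n m)) / 4 := by
    intro n m
    have ht : Tendsto (fun k => dist (p (K n m)) (p (K (n + k) m))) atTop
        (𝓝 (dist (p (K n m)) (h m))) := by
      refine Tendsto.dist tendsto_const_nhds ?_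
      have := (hh m).comp (tendsto_add_atTop_nat n)
      refine this.congr fun k => ?_
      simp only [Function.comp_apply]
      rw [add_comm]
    refine le_of_tendsto ht (Eventually.of_forall fun k => ?_)
    have h1 := htel n m k
    have h2 := hρpos (n + k) (p (K (n + k) m))
    linarith
  have hpK : ∀ n, Continuous (fun m => p (K n m)) := fun n => hp.comp (K n).continuous
  have hcont : Continuous h := by
    have hu : TendstoUniformly (fun n m => p (K n m)) h atTop := by
      rw [Metric.tendstoUniformly_iff]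
      intro ε hε
      obtain ⟨N, hN⟩ := exists_pow_lt_of_lt_one hε (by norm_num : (1 / 4 : ℝ) < 1)
      filter_upwards [eventually_ge_atTop N] with n hn m
      have h1 := hclose n m
      have h2 := hρle n (p (K n m))
      have h3 : (1 / 4 : ℝ) ^ n ≤ (1 / 4 : ℝ) ^ N :=
        pow_le_pow_of_le_one (by norm_num) (by norm_num) hn
      have h4 : (0 : ℝ) < (1 / 4 : ℝ) ^ n := by positivity
      rw [dist_comm]
      linarith
    exact hu.continuous (Frequently.of_forall hpK)
  -- key estimate
  have hkey : ∀ n y m m', dist (h m) y < ρ (n + 1) y / 4 → dist (h m') y < ρ (n + 1) y / 4 →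
      dist m m' ≤ (1 / 2 : ℝ) ^ (n + 1) := by
    intro n y m m' h1 h2
    have aux : ∀ x, dist (h x) y < ρ (n + 1) y / 4 →
        dist (p (K (n + 1) x)) y < ρ (n + 1) y := by
      intro x hx
      have a1 := hclose (n + 1) x
      have a2 := hρlip (n + 1) (p (K (n + 1) x)) y
      have a3 := dist_triangle (p (K (n + 1) x)) (h x) y
      have a4 := hρpos (n + 1) y
      linarith
    exact hdiam n y m m' (aux m h1) (aux m' h2)
  have hsmall : ∀ ε : ℝ, 0 < ε → ∃ n : ℕ, (1 / 2 : ℝ) ^ (n + 1) < ε := by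
    intro ε hε
    obtain ⟨N, hN⟩ := exists_pow_lt_of_lt_one hε (by norm_num : (1 / 2 : ℝ) < 1)
    refine ⟨N, lt_of_le_of_lt ?_ hN⟩
    exact pow_le_pow_of_le_one (by norm_num) (by norm_num) (Nat.le_succ N)
  have hinj : Function.Injective h := by
    intro m m' hmm
    refine dist_le_zero.mp (le_of_forall_pos_lt_add fun ε hε => ?_)
    obtain ⟨n, hn⟩ := hsmall ε hε
    have := hkey n (h m) m m' (by rw [dist_self]; have := hρpos (n + 1) (h m); positivity)
      (by rw [← hmm, dist_self]; have := hρpos (n + 1) (h m); positivity)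
    linarith
  have hsurj : Function.Surjective h := by
    intro y
    have hex : ∀ n, ∃ m, dist (p (K n m)) y < ρ n y / 8 := by
      intro n
      obtain ⟨x, hx⟩ := hd.exists_dist_lt y (ε := ρ n y / 8)
        (by have := hρpos n y; positivity)
      refine ⟨(K n).symm x, ?_⟩
      rw [Homeomorph.apply_symm_apply, dist_comm]
      exact hx
    choose mm hmm using hex
    have hb : ∀ n, dist (h (mm n)) y ≤ 13 / 32 * ρ n y := by
      intro n
      have a1 := hclose n (mm n)
      have a2 := hρlip n (p (K n (mm n))) y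
      have a3 := hmm n
      have a4 := dist_triangle (h (mm n)) (p (K n (mm n))) y
      rw [dist_comm (h (mm n)) (p (K n (mm n)))] at a4
      linarith
    have hmono : ∀ n l, n + 1 ≤ l → ρ l y ≤ ρ n y / 4 := by
      intro n l hl
      obtain ⟨k, rfl⟩ := Nat.exists_eq_add_of_le hl
      induction k with
      | zero => exact hρ4 n y
      | succ k ih =>
        have h1 := hρ4 (n + 1 + k) y
        have h2 := ih (Nat.le_add_right _ _)
        have h3 := hρpos (n + 1 + k) y
        rw [← add_assoc]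
        linarith
    have hnear : ∀ n l, n + 1 ≤ l → dist (h (mm l)) y < ρ n y / 4 := by
      intro n l hl
      have a1 := hb l
      have a2 := hmono n l hl
      have a3 := hρpos n y
      linarith
    have hcs : CauchySeq mm := by
      rw [Metric.cauchySeq_iff]
      intro ε hε
      obtain ⟨n, hn⟩ := hsmall ε hε
      refine ⟨n + 2, fun l hl l' hl' => ?_⟩
      exact lt_of_le_of_lt (hkey n y (mm l) (mm l') (hnear (n + 1) l hl)
        (hnear (n + 1) l' hl')) hn
    obtain ⟨m, hm⟩ := cauchySeq_tendsto_of_complete hcs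
    refine ⟨m, ?_⟩
    have t1 : Tendsto (fun l => h (mm l)) atTop (𝓝 (h m)) := (hcont.tendsto m).comp hm
    have t2 : Tendsto (fun l => h (mm l)) atTop (𝓝 y) := by
      rw [tendsto_iff_dist_tendsto_zero]
      refine squeeze_zero (fun _ => dist_nonneg) (g := fun l => (1 / 4 : ℝ) ^ l) (fun l => ?_)
        (tendsto_pow_atTop_nhds_zero_of_lt_one (by norm_num) (by norm_num))
      have a1 := hb l
      have a2 := hρle l y
      have a3 := hρpos l y
      linarith
    exact tendsto_nhds_unique t1 t2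
  let e : M ≃ Q := Equiv.ofBijective h ⟨hinj, hsurj⟩
  have hes : ∀ y, h (e.symm y) = y := fun y => e.apply_symm_apply y
  have hinv : Continuous e.symm := by
    rw [Metric.continuous_iff]
    intro y ε hε
    obtain ⟨n, hn⟩ := hsmall ε hε
    have hpos := hρpos (n + 1) y
    refine ⟨ρ (n + 1) y / 4, by positivity, fun y' hy' => ?_⟩
    refine lt_of_le_of_lt (hkey n y _ _ ?_ ?_) hn
    · rw [hes]; exact hy'
    · rw [hes, dist_self]; positivity
  refine ⟨⟨e, hcont, hinv⟩, fun m => ?_⟩
  obtain ⟨z, hz⟩ := hε0b (p m)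
  refine ⟨z, hz ?_, hz (Metric.mem_ball_self (hε0p _).1)⟩
  rw [Metric.mem_ball]
  have h1 := hclose 0 m
  rw [hK0, hρ0, dist_comm] at h1
  have h2 := (hε0p (p m)).1
  change dist (h m) (p m) < ε0 (p m)
  linarith

/-- BING. PROOF. Fix complete metrics on `M` and `Q` (`upgradeIsCompletelyMetrizable` or
`TopologicalSpace.upgradeIsCompletelyMetrizable`). Construct homeomorphisms `K n : M -> M`,
`K 0 = id`, `K (n+1) = k_n o K n` (i.e. `K (n+1) m = k_n (K n m)`), with `p_n = p o K n`, and
positive continuous functions `rho_n <= 2^-n` on `Q` (1-Lipschitz) such that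
(a) every `y` in `Q` has: `p_n^-1 (ball y (rho_n y))` has diameter at most `2^-n` (for `n >= 1`);
(b) `dist (p_(n+1) m) (p_n m) < eps_n (p_n m)` where `eps_n <= min_(j<=n) rho_j / 2^(n+4)`,
evaluated so that all later moves sum up: `dist (p_l m) (p_n m) < rho_n (p_n m) / 4` for `l >= n`
(use 1-Lipschitz functions), and the total move from `p_0 = p` is `U`-small.
Step: given `K n`, apply `Shrinkable` with the cover of `Q` given by `eps_n` (`exists_cov`) and the
cover `V` of `M` such that `(K n)^-1 (V m)` has diameter at most `2^-(n+1)` (continuity of `(K n).symm`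
): then `p_(n+1) m = p (k_n (K n m))` is close to `p (K n m) = p_n m`, and
`p_(n+1)^-1 (O) = (K n)^-1 ((p k_n)^-1 O) subset (K n)^-1 (V m)`; take `rho_(n+1)` from the
neighbourhoods `O` by `exists_eps` (cover by interiors of the `O`).
Limit: `h = lim p_n` exists uniformly (`Q` complete), is continuous and `U`-close to `p`.
Injective with continuous inverse: if `h m, h m'` lie in `ball y (rho_n y / 4)` then `p_n m, p_n m'`
lie in `ball y (rho_n y)`, so `dist m m' <= 2^-n`. Surjective: given `y`, choose `m_n` with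
`dist (p_n m_n) y < rho_n y / 8` (dense range of `p`, `K n` onto); then `h m_n -> y`, and the points
`m_l`, `l >= n`, have `h m_l` close to `y`, so `m_l` is Cauchy and its limit `m` has `h m = y`. -/
theorem bing {M Q : Type} [TopologicalSpace M] [PolishSpace M] [TopologicalSpace Q]
    [PolishSpace Q] (p : M → Q) (hp : Continuous p) (hd : DenseRange p) (H : Shrinkable p)
    (U : Q → Set Q) (hU : Cov U) : ∃ h : M ≃ₜ Q, Near U h p := by
  let _ := TopologicalSpace.upgradeIsCompletelyMetrizable M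
  let _ := TopologicalSpace.upgradeIsCompletelyMetrizable Q
  exact bing_metric p hp hd H U hU

end Pool.Agent.Tor
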