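import Pool.Agent.Lib.Tor.Basic

/-! MODULE Tor.Insert (1.5 h): insertion of one coordinate with adapted clocks (rotations). -/

open Set Topology Filter

namespace Pool.Agent.Tor

namespace InsertAux

variable {Y K : Type} [TopologicalSpace Y] [AddCommGroup K] [Module ℝ K]

/-- the cosine of the clock -/
noncomputable def cs (s : ℕ → Y × (ℕ → K) → ℝ) (n : ℕ) (p : Y × (ℕ → K)) : ℝ :=
  Real.cos (Real.pi / 2 * s n p)

/-- the sine of the clock -/
noncomputable def sn (s : ℕ → Y × (ℕ → K) → ℝ) (n : ℕ) (p : Y × (ℕ → K)) : ℝ :=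
  Real.sin (Real.pi / 2 * s n p)

theorem cs_sn (s : ℕ → Y × (ℕ → K) → ℝ) (n : ℕ) (p : Y × (ℕ → K)) :
    sn s n p * sn s n p + cs s n p * cs s n p = 1 := by
  have := Real.sin_sq_add_cos_sq (Real.pi / 2 * s n p)
  unfold cs sn
  nlinarith

/-- state of the forward recursion -/
noncomputable def fw (s : ℕ → Y × (ℕ → K) → ℝ) (x : (Y × (ℕ → K)) × K) : ℕ → (ℕ → K) × K
  | 0 => (x.1.2, x.2)
  | n + 1 =>
    (Function.update (fw s x n).1 n
      (cs s n (x.1.1, (fw s x n).1) • (fw s x n).1 n + sn s n (x.1.1, (fw s x n).1) • (fw s x n).2),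
     (-sn s n (x.1.1, (fw s x n).1)) • (fw s x n).1 n
      + cs s n (x.1.1, (fw s x n).1) • (fw s x n).2)

/-- the output of the forward recursion -/
noncomputable def out (s : ℕ → Y × (ℕ → K) → ℝ) (x : (Y × (ℕ → K)) × K) : ℕ → K :=
  fun i => (fw s x (i + 1)).1 i

/-- the first coordinate and the output -/
noncomputable def po (s : ℕ → Y × (ℕ → K) → ℝ) (x : (Y × (ℕ → K)) × K) : Y × (ℕ → K) :=
  (x.1.1, out s x)

theorem fw_ge (s : ℕ → Y × (ℕ → K) → ℝ) (x : (Y × (ℕ → K)) × K) (n i : ℕ) (h : n ≤ i) :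
    (fw s x n).1 i = x.1.2 i := by
  induction n with
  | zero => rfl
  | succ n ih =>
    change Function.update (fw s x n).1 n _ i = _
    rw [Function.update_of_ne (by omega)]
    exact ih (by omega)

theorem fw_lt (s : ℕ → Y × (ℕ → K) → ℝ) (x : (Y × (ℕ → K)) × K) (n i : ℕ) (h : i < n) :
    (fw s x n).1 i = out s x i := by
  induction n with
  | zero => omega
  | succ n ih =>
    by_cases hi : i = n
    · rw [hi]; rfl
    · change Function.update (fw s x n).1 n _ i = _
      rw [Function.update_of_ne hi]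
      exact ih (by omega)

section
variable {s : ℕ → Y × (ℕ → K) → ℝ}
  (ad : ∀ n y v v', (∀ i < n, v i = v' i) → s n (y, v) = s n (y, v'))
include ad

theorem cs_po (x : (Y × (ℕ → K)) × K) (n : ℕ) : cs s n (x.1.1, (fw s x n).1) = cs s n (po s x) := by
  unfold cs po
  rw [ad n x.1.1 _ _ (fun i hi => fw_lt s x n i hi)]

theorem sn_po (x : (Y × (ℕ → K)) × K) (n : ℕ) : sn s n (x.1.1, (fw s x n).1) = sn s n (po s x) := by
  unfold sn po
  rw [ad n x.1.1 _ _ (fun i hi => fw_lt s x n i hi)]

theorem out_eq (x : (Y × (ℕ → K)) × K) (n : ℕ) :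
    out s x n = cs s n (po s x) • x.1.2 n + sn s n (po s x) • (fw s x n).2 := by
  change Function.update (fw s x n).1 n _ n = _
  rw [Function.update_self, cs_po ad, sn_po ad, fw_ge s x n n le_rfl]

theorem fw_succ_snd (x : (Y × (ℕ → K)) × K) (n : ℕ) :
    (fw s x (n + 1)).2 = (-sn s n (po s x)) • x.1.2 n + cs s n (po s x) • (fw s x n).2 := by
  change (-sn s n (x.1.1, (fw s x n).1)) • (fw s x n).1 n
      + cs s n (x.1.1, (fw s x n).1) • (fw s x n).2 = _
  rw [cs_po ad, sn_po ad, fw_ge s x n n le_rfl]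

/-- the forward sequence solves the backward equation -/
theorem fw_back (x : (Y × (ℕ → K)) × K) (n : ℕ) :
    (fw s x n).2 = sn s n (po s x) • out s x n + cs s n (po s x) • (fw s x (n + 1)).2 := by
  rw [out_eq ad, fw_succ_snd ad, smul_add, smul_add, smul_smul, smul_smul, smul_smul, smul_smul]
  have h1 : sn s n (po s x) * cs s n (po s x) + cs s n (po s x) * -sn s n (po s x) = 0 := by ring
  have h2 := cs_sn s n (po s x)
  calc (fw s x n).2 = (sn s n (po s x) * cs s n (po s x) + cs s n (po s x) * -sn s n (po s x)) •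
        x.1.2 n + (sn s n (po s x) * sn s n (po s x) + cs s n (po s x) * cs s n (po s x)) •
        (fw s x n).2 := by rw [h1, h2, zero_smul, one_smul, zero_add]
    _ = _ := by rw [add_smul, add_smul]; abel

/-- recovering the input -/
theorem fw_in (x : (Y × (ℕ → K)) × K) (n : ℕ) :
    x.1.2 n = cs s n (po s x) • out s x n - sn s n (po s x) • (fw s x (n + 1)).2 := by
  rw [out_eq ad, fw_succ_snd ad, smul_add, smul_add, smul_smul, smul_smul, smul_smul, smul_smul]
  have h1 : cs s n (po s x) * sn s n (po s x) - sn s n (po s x) * cs s n (po s x) = 0 := by ring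
  have h2 := cs_sn s n (po s x)
  calc x.1.2 n = (sn s n (po s x) * sn s n (po s x) + cs s n (po s x) * cs s n (po s x)) •
        x.1.2 n + (cs s n (po s x) * sn s n (po s x) - sn s n (po s x) * cs s n (po s x)) •
        (fw s x n).2 := by rw [h1, h2, zero_smul, one_smul, add_zero]
    _ = _ := by rw [add_smul, sub_smul, mul_neg, neg_smul]; abel

end

/-- the backward operator -/
noncomputable def bw (s : ℕ → Y × (ℕ → K) → ℝ) (p : Y × (ℕ → K)) : ℕ → (ℕ → K)
  | 0 => p.2
  | k + 1 => fun n => sn s n p • p.2 n + cs s n p • bw s p k (n + 1)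

/-- solutions of the backward equation -/
def Sol (s : ℕ → Y × (ℕ → K) → ℝ) (p : Y × (ℕ → K)) (w : ℕ → K) : Prop :=
  ∀ n, w n = sn s n p • p.2 n + cs s n p • w (n + 1)

theorem sn_one {s : ℕ → Y × (ℕ → K) → ℝ} {p : Y × (ℕ → K)} {n : ℕ} (h : s n p = 1) :
    sn s n p = 1 := by
  unfold sn; rw [h, mul_one, Real.sin_pi_div_two]

theorem cs_one {s : ℕ → Y × (ℕ → K) → ℝ} {p : Y × (ℕ → K)} {n : ℕ} (h : s n p = 1) :
    cs s n p = 0 := by
  unfold cs; rw [h, mul_one, Real.cos_pi_div_two]

theorem sn_zero {s : ℕ → Y × (ℕ → K) → ℝ} {p : Y × (ℕ → K)} {n : ℕ} (h : s n p = 0) :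
    sn s n p = 0 := by
  unfold sn; rw [h, mul_zero, Real.sin_zero]

theorem cs_zero {s : ℕ → Y × (ℕ → K) → ℝ} {p : Y × (ℕ → K)} {n : ℕ} (h : s n p = 0) :
    cs s n p = 1 := by
  unfold cs; rw [h, mul_zero, Real.cos_zero]

theorem bw_stable {s : ℕ → Y × (ℕ → K) → ℝ} {p : Y × (ℕ → K)} {n₀ : ℕ}
    (h : ∀ n, n₀ ≤ n → s n p = 1) (k n : ℕ) (hn : n₀ ≤ n + k) :
    bw s p (k + 1) n = bw s p k n := by
  induction k generalizing n with
  | zero =>
    change sn s n p • p.2 n + cs s n p • p.2 (n + 1) = p.2 n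
    rw [sn_one (h n hn), cs_one (h n hn), one_smul, zero_smul, add_zero]
  | succ k ih =>
    change sn s n p • p.2 n + cs s n p • bw s p (k + 1) (n + 1)
      = sn s n p • p.2 n + cs s n p • bw s p k (n + 1)
    rw [ih (n + 1) (by omega)]

theorem bw_sol {s : ℕ → Y × (ℕ → K) → ℝ} {p : Y × (ℕ → K)} {n₀ : ℕ}
    (h : ∀ n, n₀ ≤ n → s n p = 1) : Sol s p (bw s p n₀) := by
  intro n
  rw [← bw_stable h n₀ n (by omega)]
  rfl

theorem Sol.unique {s : ℕ → Y × (ℕ → K) → ℝ} {p : Y × (ℕ → K)} {n₀ : ℕ}
    (h : ∀ n, n₀ ≤ n → s n p = 1) {w w' : ℕ → K} (hw : Sol s p w) (hw' : Sol s p w') :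
    w = w' := by
  have key : ∀ k n, n₀ ≤ n + k → w n = w' n := by
    intro k
    induction k with
    | zero =>
      intro n hn
      rw [hw n, hw' n, cs_one (h n hn), zero_smul, zero_smul]
    | succ k ih =>
      intro n hn
      rw [hw n, hw' n, ih (n + 1) (by omega)]
  funext n
  exact key n₀ n (by omega)

section cont
variable [TopologicalSpace K] [IsTopologicalAddGroup K] [ContinuousSMul ℝ K]

theorem continuous_cs {s : ℕ → Y × (ℕ → K) → ℝ} (hs : ∀ n, Continuous (s n)) (n : ℕ) :
    Continuous (cs s n) := Real.continuous_cos.comp (continuous_const.mul (hs n))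

theorem continuous_sn {s : ℕ → Y × (ℕ → K) → ℝ} (hs : ∀ n, Continuous (s n)) (n : ℕ) :
    Continuous (sn s n) := Real.continuous_sin.comp (continuous_const.mul (hs n))

theorem continuous_fw {s : ℕ → Y × (ℕ → K) → ℝ} (hs : ∀ n, Continuous (s n)) (n : ℕ) :
    Continuous (fun x : (Y × (ℕ → K)) × K => fw s x n) := by
  induction n with
  | zero =>
    change Continuous (fun x : (Y × (ℕ → K)) × K => (x.1.2, x.2))
    fun_prop
  | succ n ih =>
    have h1 : Continuous (fun x : (Y × (ℕ → K)) × K => (fw s x n).1) := continuous_fst.comp ih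
    have h2 : Continuous (fun x : (Y × (ℕ → K)) × K => (fw s x n).2) := continuous_snd.comp ih
    have h3 : Continuous (fun x : (Y × (ℕ → K)) × K => (fw s x n).1 n) :=
      (continuous_apply n).comp h1
    have h4 : Continuous (fun x : (Y × (ℕ → K)) × K => (x.1.1, (fw s x n).1)) :=
      (continuous_fst.comp continuous_fst).prodMk h1
    have h5 := (continuous_cs hs n).comp h4
    have h6 := (continuous_sn hs n).comp h4
    exact (h1.update n ((h5.smul h3).add (h6.smul h2))).prodMk ((h6.neg.smul h3).add (h5.smul h2))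

theorem continuous_out {s : ℕ → Y × (ℕ → K) → ℝ} (hs : ∀ n, Continuous (s n)) :
    Continuous (out s) := by
  refine continuous_pi fun i => ?_
  exact (continuous_apply i).comp (continuous_fst.comp (continuous_fw hs (i + 1)))

theorem continuous_bw {s : ℕ → Y × (ℕ → K) → ℝ} (hs : ∀ n, Continuous (s n)) (k : ℕ) :
    Continuous (fun p : Y × (ℕ → K) => bw s p k) := by
  induction k with
  | zero => exact continuous_snd
  | succ k ih =>
    refine continuous_pi fun n => ?_
    exact ((continuous_sn hs n).smul ((continuous_apply n).comp continuous_snd)).add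
      ((continuous_cs hs n).smul ((continuous_apply (n + 1)).comp ih))

end cont

end InsertAux

open InsertAux in
/-- INSERTION. `Om = {p | exists n, s n p /= 0}` (an open set). Given an input `(p', w)`,
`p' = (y, v')` in `Om`, define the output `p = (y, v)` recursively: `w_0 = w`,
`al_n = (pi/2) s_n(y, v)` (this depends on `v_0, ..., v_(n-1)` only, by adaptedness: use for instance
`s n (y, fun i => if i < n then v i else 0)`), and
`v_n = cos al_n . v'_n + sin al_n . w_n`, `w_(n+1) = - sin al_n . v'_n + cos al_n . w_n`.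
FACTS. If `s n p' = 0` then (monotone, `0 <=`) all `s i p' = 0` for `i <= n`, so by induction
`v_i = v'_i` for `i <= n` and `s i p = s i p'`. At the first `n` with `s n p' /= 0` the coordinates
below `n` agree, so `s n p = s n p' /= 0`: the output lies in `Om`.
INVERSE. Given `p = (y, v)` in `Om` all clocks `s n p` are known, and they are `1` for `n >= n_0`
(`ev`). So `w_n = v_n` for `n >= n_0` (`al_n = pi/2`), and going down (`n = n_0 - 1, ..., 0`)
`w_n = sin al_n . v_n + cos al_n . w_(n+1)`, `v'_n = cos al_n . v_n - sin al_n . w_(n+1)` for all `n`.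
`n_0` can be chosen locally constant (`ev`), the result does not depend on the choice, so the inverse
is continuous. (For the formalisation: define `R n_0 n p`, the downward recursion started at `n_0`
with value `v_(n_0)`; if `s n p = 1` for all `n >= n_0` then `R (n_0+1) = R n_0` below `n_0`.) -/
theorem insertion {Y K : Type} [TopologicalSpace Y] [AddCommGroup K] [Module ℝ K]
    [TopologicalSpace K] [IsTopologicalAddGroup K] [ContinuousSMul ℝ K]
    (s : ℕ → Y × (ℕ → K) → ℝ) (hs : ∀ n, Continuous (s n)) (h01 : ∀ n p, s n p ∈ Icc (0 : ℝ) 1)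
    (mono : ∀ n p, s n p ≤ s (n + 1) p)
    (ad : ∀ n y v v', (∀ i < n, v i = v' i) → s n (y, v) = s n (y, v'))
    (ev : ∀ p, (∃ n, s n p ≠ 0) → ∃ n₀, ∀ᶠ p' in 𝓝 p, ∀ n, n₀ ≤ n → s n p' = 1) :
    ∃ Φ : {p : Y × (ℕ → K) // ∃ n, s n p ≠ 0} × K ≃ₜ {p : Y × (ℕ → K) // ∃ n, s n p ≠ 0},
      ∀ p w, (Φ (p, w)).1.1 = p.1.1 ∧
        ∀ n, s n p.1 = 0 → ∀ i ≤ n, (Φ (p, w)).1.2 i = p.1.2 i := by
  have hmono : ∀ p m n, m ≤ n → s m p ≤ s n p := fun p m n h =>
    monotone_nat_of_le_succ (f := fun n => s n p) (fun n => mono n p) h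
  have hzero : ∀ p m n, m ≤ n → s n p = 0 → s m p = 0 := fun p m n h h0 =>
    le_antisymm ((hmono p m n h).trans h0.le) (h01 m p).1
  -- general facts on a relation between the input and the output
  have hfst : ∀ (y : Y) (v v' w : ℕ → K),
      (∀ n, v n = cs s n (y, v) • v' n + sn s n (y, v) • w n) →
      ∀ n, s n (y, v) = 0 → ∀ i ≤ n, v i = v' i := by
    intro y v v' w h n hn i hi
    have h0 := hzero _ i n hi hn
    rw [h i, cs_zero h0, sn_zero h0, one_smul, zero_smul, add_zero]
  have hin : ∀ (y : Y) (v v' w : ℕ → K),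
      (∀ n, v n = cs s n (y, v) • v' n + sn s n (y, v) • w n) →
      (∃ n, s n (y, v) ≠ 0) → ∃ n, s n (y, v') ≠ 0 := by
    classical
    intro y v v' w h hex
    refine ⟨Nat.find hex, ?_⟩
    have h1 := Nat.find_spec hex
    have h2 : s (Nat.find hex) (y, v) = s (Nat.find hex) (y, v') := by
      apply ad
      intro i hi
      have h3 := Nat.find_min hex hi
      push Not at h3
      exact hfst y v v' w h i h3 i le_rfl
    rwa [← h2]
  have hsame : ∀ (y : Y) (v v' w : ℕ → K),
      (∀ n, v n = cs s n (y, v) • v' n + sn s n (y, v) • w n) →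
      ∀ n, s n (y, v') = 0 → ∀ i ≤ n, v i = v' i := by
    intro y v v' w h n hn i
    induction i using Nat.strong_induction_on with
    | _ i ih =>
      intro hi
      have h1 : s i (y, v) = s i (y, v') := ad _ _ _ _ (fun j hj => ih j hj (by omega))
      have h0 : s i (y, v) = 0 := by
        rw [h1]; exact hzero _ i n hi hn
      exact hfst y v v' w h i h0 i le_rfl
  have hout : ∀ (y : Y) (v v' w : ℕ → K),
      (∀ n, v n = cs s n (y, v) • v' n + sn s n (y, v) • w n) →
      (∃ n, s n (y, v') ≠ 0) → ∃ n, s n (y, v) ≠ 0 := by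
    intro y v v' w h hex
    by_contra hcon
    push Not at hcon
    have h1 : v = v' := by
      funext i
      exact hfst y v v' w h i (hcon i) i le_rfl
    obtain ⟨n, hn⟩ := hex
    rw [← h1] at hn
    exact hn (hcon n)
  -- the solution of the backward equation
  let N : {p : Y × (ℕ → K) // ∃ n, s n p ≠ 0} → ℕ := fun p => (ev p.1 p.2).choose
  have hN : ∀ p : {p : Y × (ℕ → K) // ∃ n, s n p ≠ 0},
      ∀ᶠ p' in 𝓝 p.1, ∀ n, N p ≤ n → s n p' = 1 := fun p => (ev p.1 p.2).choose_spec
  have hN' : ∀ p : {p : Y × (ℕ → K) // ∃ n, s n p ≠ 0}, ∀ n, N p ≤ n → s n p.1 = 1 :=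
    fun p => (hN p).self_of_nhds
  let sol : {p : Y × (ℕ → K) // ∃ n, s n p ≠ 0} → (ℕ → K) := fun p => bw s p.1 (N p)
  have hsol : ∀ p, Sol s p.1 (sol p) := fun p => bw_sol (hN' p)
  have hsolc : Continuous sol := by
    rw [continuous_iff_continuousAt]
    intro p
    have h1 : ∀ᶠ p' : {p : Y × (ℕ → K) // ∃ n, s n p ≠ 0} in 𝓝 p,
        ∀ n, N p ≤ n → s n p'.1 = 1 := (continuous_subtype_val.tendsto p).eventually (hN p)
    have h2 : sol =ᶠ[𝓝 p] fun p' => bw s p'.1 (N p) := by
      filter_upwards [h1] with p' hp'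
      exact Sol.unique (hN' p') (hsol p') (bw_sol hp')
    have h3 : ContinuousAt (fun p' : {p : Y × (ℕ → K) // ∃ n, s n p ≠ 0} => bw s p'.1 (N p)) p :=
      ((continuous_bw hs (N p)).comp continuous_subtype_val).continuousAt
    exact h3.congr h2.symm
  -- the inverse
  let vi : {p : Y × (ℕ → K) // ∃ n, s n p ≠ 0} → (ℕ → K) := fun p n =>
    cs s n p.1 • p.1.2 n - sn s n p.1 • sol p (n + 1)
  have hvic : Continuous vi := by
    refine continuous_pi fun n => ?_
    exact (((continuous_cs hs n).comp continuous_subtype_val).smul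
      ((continuous_apply n).comp (continuous_snd.comp continuous_subtype_val))).sub
      (((continuous_sn hs n).comp continuous_subtype_val).smul
      ((continuous_apply (n + 1)).comp hsolc))
  have hvrel : ∀ p : {p : Y × (ℕ → K) // ∃ n, s n p ≠ 0}, ∀ n,
      p.1.2 n = cs s n (p.1.1, p.1.2) • vi p n + sn s n (p.1.1, p.1.2) • sol p n := by
    intro p n
    have h1 := hsol p n
    change p.1.2 n = cs s n p.1 • (cs s n p.1 • p.1.2 n - sn s n p.1 • sol p (n + 1))
      + sn s n p.1 • sol p n
    rw [h1, smul_sub, smul_add, smul_smul, smul_smul, smul_smul, smul_smul]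
    have h2 := cs_sn s n p.1
    have h3 : sn s n p.1 * cs s n p.1 - cs s n p.1 * sn s n p.1 = 0 := by ring
    calc p.1.2 n = (sn s n p.1 * sn s n p.1 + cs s n p.1 * cs s n p.1) • p.1.2 n
          + (sn s n p.1 * cs s n p.1 - cs s n p.1 * sn s n p.1) • sol p (n + 1) := by
            rw [h2, h3, one_smul, zero_smul, add_zero]
      _ = _ := by rw [add_smul, sub_smul]; abel
  have hvrel2 : ∀ p : {p : Y × (ℕ → K) // ∃ n, s n p ≠ 0}, ∀ n,
      sol p (n + 1) = (-sn s n (p.1.1, p.1.2)) • vi p n + cs s n (p.1.1, p.1.2) • sol p n := by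
    intro p n
    have h1 := hsol p n
    change sol p (n + 1) = (-sn s n p.1) • (cs s n p.1 • p.1.2 n - sn s n p.1 • sol p (n + 1))
      + cs s n p.1 • sol p n
    rw [h1, smul_sub, smul_add, smul_smul, smul_smul, smul_smul, smul_smul]
    have h2 := cs_sn s n p.1
    have h3 : cs s n p.1 * sn s n p.1 + -sn s n p.1 * cs s n p.1 = 0 := by ring
    calc sol p (n + 1) = (cs s n p.1 * sn s n p.1 + -sn s n p.1 * cs s n p.1) • p.1.2 n
          + (sn s n p.1 * sn s n p.1 + cs s n p.1 * cs s n p.1) • sol p (n + 1) := by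
            rw [h2, h3, one_smul, zero_smul, zero_add]
      _ = _ := by rw [add_smul, add_smul, neg_mul, neg_mul, neg_smul, neg_smul]; abel
  have hviO : ∀ p : {p : Y × (ℕ → K) // ∃ n, s n p ≠ 0}, ∃ n, s n (p.1.1, vi p) ≠ 0 :=
    fun p => hin p.1.1 p.1.2 (vi p) (sol p) (hvrel p) p.2
  have houtO : ∀ x : {p : Y × (ℕ → K) // ∃ n, s n p ≠ 0} × K,
      ∃ n, s n (x.1.1.1, out s (x.1.1, x.2)) ≠ 0 :=
    fun x => hout x.1.1.1 (out s (x.1.1, x.2)) x.1.1.2 (fun n => (fw s (x.1.1, x.2) n).2)
      (fun n => out_eq ad (x.1.1, x.2) n) x.1.2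
  let Φ : {p : Y × (ℕ → K) // ∃ n, s n p ≠ 0} × K ≃ₜ {p : Y × (ℕ → K) // ∃ n, s n p ≠ 0} :=
    { toFun := fun x => ⟨(x.1.1.1, out s (x.1.1, x.2)), houtO x⟩
      invFun := fun p => (⟨(p.1.1, vi p), hviO p⟩, sol p 0)
      left_inv := by
        rintro ⟨⟨⟨y, v⟩, hp⟩, w⟩
        obtain ⟨q, hq⟩ : ∃ q : {p : Y × (ℕ → K) // ∃ n, s n p ≠ 0},
          q = ⟨(y, out s ((y, v), w)), houtO (⟨(y, v), hp⟩, w)⟩ := ⟨_, rfl⟩
        have h1 : Sol s (y, out s ((y, v), w)) (fun n => (fw s ((y, v), w) n).2) :=
          fun n => fw_back ad ((y, v), w) n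
        have hq1 : q.1 = (y, out s ((y, v), w)) := by rw [hq]
        have h2 : sol q = fun n => (fw s ((y, v), w) n).2 := by
          apply Sol.unique (hN' q) (hsol q)
          rw [hq1]; exact h1
        have h3 : vi q = v := by
          funext n
          change cs s n q.1 • q.1.2 n - sn s n q.1 • sol q (n + 1) = v n
          rw [h2, hq1]
          exact (fw_in ad ((y, v), w) n).symm
        change ((⟨((⟨(y, out s ((y, v), w)), houtO (⟨(y, v), hp⟩, w)⟩ :
            {p : Y × (ℕ → K) // ∃ n, s n p ≠ 0}).1.1,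
          vi ⟨(y, out s ((y, v), w)), houtO (⟨(y, v), hp⟩, w)⟩), _⟩ :
            {p : Y × (ℕ → K) // ∃ n, s n p ≠ 0}),
          sol ⟨(y, out s ((y, v), w)), houtO (⟨(y, v), hp⟩, w)⟩ 0) = _
        refine Prod.ext (Subtype.ext (Prod.ext rfl ?_)) ?_
        · change vi ⟨(y, out s ((y, v), w)), houtO (⟨(y, v), hp⟩, w)⟩ = v
          rw [← hq]; exact h3
        · change sol ⟨(y, out s ((y, v), w)), houtO (⟨(y, v), hp⟩, w)⟩ 0 = w
          rw [← hq, h2]
          rfl
      right_inv := by
        intro p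
        have key : ∀ n, (fw s ((p.1.1, vi p), sol p 0) n).2 = sol p n ∧
            ∀ i < n, (fw s ((p.1.1, vi p), sol p 0) n).1 i = p.1.2 i := by
          intro n
          induction n with
          | zero => exact ⟨rfl, fun i hi => absurd hi (by omega)⟩
          | succ n ih =>
            obtain ⟨ih1, ih2⟩ := ih
            have hc : cs s n (p.1.1, (fw s ((p.1.1, vi p), sol p 0) n).1)
                = cs s n (p.1.1, p.1.2) := by
              unfold cs; rw [ad n p.1.1 _ _ ih2]
            have hsn : sn s n (p.1.1, (fw s ((p.1.1, vi p), sol p 0) n).1)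
                = sn s n (p.1.1, p.1.2) := by
              unfold sn; rw [ad n p.1.1 _ _ ih2]
            have hge := fw_ge s ((p.1.1, vi p), sol p 0) n n le_rfl
            constructor
            · change (-sn s n (p.1.1, (fw s ((p.1.1, vi p), sol p 0) n).1)) •
                (fw s ((p.1.1, vi p), sol p 0) n).1 n
                + cs s n (p.1.1, (fw s ((p.1.1, vi p), sol p 0) n).1) •
                (fw s ((p.1.1, vi p), sol p 0) n).2 = _
              rw [hc, hsn, hge, ih1]
              exact (hvrel2 p n).symm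
            · intro i hi
              change Function.update (fw s ((p.1.1, vi p), sol p 0) n).1 n
                (cs s n (p.1.1, (fw s ((p.1.1, vi p), sol p 0) n).1) •
                  (fw s ((p.1.1, vi p), sol p 0) n).1 n
                + sn s n (p.1.1, (fw s ((p.1.1, vi p), sol p 0) n).1) •
                  (fw s ((p.1.1, vi p), sol p 0) n).2) i = _
              by_cases hin' : i = n
              · rw [hin', Function.update_self, hc, hsn, hge, ih1]
                exact (hvrel p n).symm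
              · rw [Function.update_of_ne hin']
                exact ih2 i (by omega)
        apply Subtype.ext
        refine Prod.ext rfl ?_
        funext i
        exact (key (i + 1)).2 i (by omega)
      continuous_toFun := by
        refine Continuous.subtype_mk ?_ _
        exact (continuous_fst.comp (continuous_subtype_val.comp continuous_fst)).prodMk
          ((continuous_out hs).comp
            ((continuous_subtype_val.comp continuous_fst).prodMk continuous_snd))
      continuous_invFun := by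
        refine Continuous.prodMk ?_ ?_
        · refine Continuous.subtype_mk ?_ _
          exact (continuous_fst.comp continuous_subtype_val).prodMk hvic
        · exact (continuous_apply 0).comp hsolc }
  refine ⟨Φ, fun p w => ⟨rfl, ?_⟩⟩
  intro n hn i hi
  exact hsame p.1.1 (out s (p.1, w)) p.1.2 (fun n => (fw s (p.1, w) n).2)
      (fun n => out_eq ad (p.1, w) n) n hn i hi

end Pool.Agent.Tor
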