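import Pool.Agent.Lib.Tor.BoxRad
import Pool.Agent.Lib.Tor.Insert

/-! MODULE Tor.BoxIns (1.5 h): `RP = F^N` by insertion, and the box homeomorphism. -/

open Set Topology Filter

namespace Pool.Agent.Tor

namespace BoxInsAux

/-- running maximum. -/
noncomputable def M : ℕ → (ℕ → F) → ℝ
  | 0, _ => 0
  | n + 1, u => max (M n u) (max 0 (1 - ‖u n‖))

theorem M_nonneg : ∀ (n : ℕ) (u : ℕ → F), 0 ≤ M n u
  | 0, _ => le_rfl
  | n + 1, u => le_trans (M_nonneg n u) (le_max_left _ _)

theorem M_mono (u : ℕ → F) : Monotone fun n => M n u :=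
  monotone_nat_of_le_succ fun _ => le_max_left _ _

theorem M_cont : ∀ n : ℕ, Continuous (M n)
  | 0 => continuous_const
  | n + 1 => by
    have h := M_cont n
    show Continuous fun u : ℕ → F => max (M n u) (max 0 (1 - ‖u n‖))
    exact h.max (continuous_const.max (continuous_const.sub (continuous_apply n).norm))

theorem M_adapted : ∀ (n : ℕ) (u v : ℕ → F), (∀ i < n, u i = v i) → M n u = M n v
  | 0, _, _, _ => rfl
  | n + 1, u, v, h => by
    show max (M n u) (max 0 (1 - ‖u n‖)) = max (M n v) (max 0 (1 - ‖v n‖))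
    rw [M_adapted n u v fun i hi => h i (by omega), h n (by omega)]

theorem M_zero_of {u : ℕ → F} (h : ∀ i, 1 ≤ ‖u i‖) : ∀ n, M n u = 0
  | 0 => rfl
  | n + 1 => by
    show max (M n u) (max 0 (1 - ‖u n‖)) = 0
    rw [M_zero_of h n, max_eq_left (by linarith [h n] : 1 - ‖u n‖ ≤ 0), max_self]

theorem M_pos_of {u : ℕ → F} {i : ℕ} (h : ‖u i‖ < 1) : 0 < M (i + 1) u := by
  show 0 < max (M i u) (max 0 (1 - ‖u i‖))
  exact lt_max_of_lt_right (lt_max_of_lt_right (by linarith))

theorem exists_of_M_pos : ∀ {n : ℕ} {u : ℕ → F}, 0 < M n u → ∃ i, ‖u i‖ < 1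
  | 0, _, h => absurd h (lt_irrefl _)
  | n + 1, u, h => by
    rcases lt_max_iff.1 (show 0 < max (M n u) (max 0 (1 - ‖u n‖)) from h) with h | h
    · exact exists_of_M_pos h
    · rcases lt_max_iff.1 h with h | h
      · exact absurd h (lt_irrefl _)
      · exact ⟨n, by linarith⟩

/-- clocks. -/
noncomputable def s (n : ℕ) (p : Unit × (ℕ → F)) : ℝ := max 0 (min 1 (n * M n p.2 - 1))

theorem s_cont (n : ℕ) : Continuous (s n) := by
  unfold s
  exact continuous_const.max (continuous_const.min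
    ((continuous_const.mul ((M_cont n).comp continuous_snd)).sub continuous_const))

theorem s_mem (n : ℕ) (p : Unit × (ℕ → F)) : s n p ∈ Icc (0 : ℝ) 1 := by
  unfold s
  exact ⟨le_max_left _ _, max_le zero_le_one (min_le_left _ _)⟩

theorem s_mono (n : ℕ) (p : Unit × (ℕ → F)) : s n p ≤ s (n + 1) p := by
  unfold s
  apply max_le_max le_rfl
  apply min_le_min le_rfl
  have h1 : M n p.2 ≤ M (n + 1) p.2 := M_mono p.2 (Nat.le_succ n)
  have h2 := M_nonneg n p.2
  have h3 : (0 : ℝ) ≤ n := Nat.cast_nonneg n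
  push_cast
  nlinarith

theorem s_monotone (p : Unit × (ℕ → F)) : Monotone fun n => s n p :=
  monotone_nat_of_le_succ fun n => s_mono n p

theorem s_adapted (n : ℕ) (y : Unit) (v v' : ℕ → F) (h : ∀ i < n, v i = v' i) :
    s n (y, v) = s n (y, v') := by
  unfold s
  rw [M_adapted n v v' h]

theorem s_ne_iff (p : Unit × (ℕ → F)) : (∃ n, s n p ≠ 0) ↔ ∃ i, ‖p.2 i‖ < 1 := by
  constructor
  · rintro ⟨n, hn⟩
    by_contra hcon
    push Not at hcon
    apply hn
    unfold s
    rw [M_zero_of hcon n, mul_zero, zero_sub]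
    rw [min_eq_right (by norm_num), max_eq_left (by norm_num)]
  · rintro ⟨i, hi⟩
    have hM := M_pos_of hi
    obtain ⟨m, hm⟩ := exists_nat_gt (2 / M (i + 1) p.2)
    refine ⟨max m (i + 1), ?_⟩
    have h1 : M (i + 1) p.2 ≤ M (max m (i + 1)) p.2 := M_mono p.2 (le_max_right _ _)
    have h2 : (m : ℝ) ≤ ((max m (i + 1) : ℕ) : ℝ) := by exact_mod_cast le_max_left _ _
    have h3 : 2 < (m : ℝ) * M (i + 1) p.2 := by rwa [div_lt_iff₀ hM] at hm
    have h4 : 2 < ((max m (i + 1) : ℕ) : ℝ) * M (max m (i + 1)) p.2 := by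
      have h0 : (0 : ℝ) ≤ m := Nat.cast_nonneg m
      calc (2 : ℝ) < (m : ℝ) * M (i + 1) p.2 := h3
        _ ≤ _ := mul_le_mul h2 h1 hM.le (h0.trans h2)
    have : s (max m (i + 1)) p = 1 := by
      unfold s
      rw [min_eq_left (by linarith), max_eq_right zero_le_one]
    rw [this]
    norm_num

theorem s_ev (p : Unit × (ℕ → F)) (h : ∃ n, s n p ≠ 0) :
    ∃ n₀, ∀ᶠ p' in 𝓝 p, ∀ n, n₀ ≤ n → s n p' = 1 := by
  obtain ⟨i, hi⟩ := (s_ne_iff p).1 h
  have hM := M_pos_of hi
  obtain ⟨m, hm⟩ := exists_nat_gt (4 / M (i + 1) p.2)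
  refine ⟨max m (i + 1), ?_⟩
  have h1 : ∀ᶠ p' : Unit × (ℕ → F) in 𝓝 p, M (i + 1) p.2 / 2 < M (i + 1) p'.2 :=
    ((M_cont (i + 1)).comp continuous_snd).continuousAt.eventually_const_lt (by
      show M (i + 1) p.2 / 2 < M (i + 1) p.2
      linarith)
  filter_upwards [h1] with p' hp' n hn
  have h2 : M (i + 1) p'.2 ≤ M n p'.2 := M_mono p'.2 ((le_max_right _ _).trans hn)
  have h3 : (m : ℝ) ≤ (n : ℝ) := by exact_mod_cast (le_max_left _ _).trans hn
  have h4 : 4 < (m : ℝ) * M (i + 1) p.2 := by rwa [div_lt_iff₀ hM] at hm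
  have h0 : (0 : ℝ) ≤ m := Nat.cast_nonneg m
  have h5 : 2 < (n : ℝ) * M n p'.2 := by
    calc (2 : ℝ) < (m : ℝ) * (M (i + 1) p.2 / 2) := by linarith
      _ ≤ (n : ℝ) * M n p'.2 := mul_le_mul h3 (hp'.le.trans h2) (by positivity) (h0.trans h3)
  unfold s
  rw [min_eq_left (by linarith), max_eq_right zero_le_one]

/-- the open set. -/
abbrev Om : Set (ℕ → F) := {u | ∃ i, ‖u i‖ < 1}

theorem Om_open : IsOpen Om := by
  have : Om = ⋃ i : ℕ, {u : ℕ → F | ‖u i‖ < 1} := by
    ext u
    simp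
  rw [this]
  exact isOpen_iUnion fun i => isOpen_lt (continuous_apply i).norm continuous_const

/-- weights. -/
noncomputable def tm (n : ℕ) (u : ℕ → F) : ℝ := (1 / 2) ^ n * max 0 (1 - ‖u n‖)

theorem tm_nonneg (n : ℕ) (u : ℕ → F) : 0 ≤ tm n u := by
  unfold tm
  positivity

theorem tm_le (n : ℕ) (u : ℕ → F) : tm n u ≤ (1 / 2) ^ n := by
  unfold tm
  have h : max 0 (1 - ‖u n‖) ≤ 1 := max_le zero_le_one (by linarith [norm_nonneg (u n)])
  have h2 : (0 : ℝ) < (1 / 2) ^ n := by positivity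
  nlinarith

theorem tm_le_one (n : ℕ) (u : ℕ → F) : tm n u ≤ 1 :=
  (tm_le n u).trans (pow_le_one₀ (by norm_num) (by norm_num))

theorem tm_bdd (u : ℕ → F) : BddAbove (range fun n => tm n u) :=
  ⟨1, by rintro _ ⟨n, rfl⟩; exact tm_le_one n u⟩

theorem tm_cont (n : ℕ) : Continuous (tm n) := by
  unfold tm
  exact continuous_const.mul (continuous_const.max (continuous_const.sub (continuous_apply n).norm))

/-- the radius. -/
noncomputable def lam (u : ℕ → F) : ℝ := ⨆ n, tm n u

theorem tm_le_lam (n : ℕ) (u : ℕ → F) : tm n u ≤ lam u := le_ciSup (tm_bdd u) n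

theorem lam_nonneg (u : ℕ → F) : 0 ≤ lam u := (tm_nonneg 0 u).trans (tm_le_lam 0 u)

theorem lt_lam_iff {u : ℕ → F} {a : ℝ} : a < lam u ↔ ∃ n, a < tm n u := by
  unfold lam
  exact lt_ciSup_iff (tm_bdd u)

theorem lam_cont : Continuous lam := by
  rw [continuous_iff_continuousAt]
  intro u
  rw [ContinuousAt, tendsto_order]
  constructor
  · intro a ha
    obtain ⟨n, hn⟩ := lt_lam_iff.1 ha
    have := (tm_cont n).continuousAt.eventually_const_lt hn
    filter_upwards [this] with u' hu'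
    exact lt_lam_iff.2 ⟨n, hu'⟩
  · intro b hb
    obtain ⟨b', hb1, hb2⟩ := exists_between hb
    have hb0 : 0 < b' := lt_of_le_of_lt (lam_nonneg u) hb1
    obtain ⟨N, hN⟩ := exists_pow_lt_of_lt_one hb0 (by norm_num : (1 / 2 : ℝ) < 1)
    have h1 : ∀ᶠ u' in 𝓝 u, ∀ n ∈ Finset.range N, tm n u' < b' := by
      rw [Filter.eventually_all_finset]
      intro n _
      exact (tm_cont n).continuousAt.eventually_lt_const (lt_of_le_of_lt (tm_le_lam n u) hb1)
    filter_upwards [h1] with u' hu'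
    refine lt_of_le_of_lt ?_ hb2
    apply ciSup_le
    intro n
    by_cases hn : n < N
    · exact (hu' n (Finset.mem_range.2 hn)).le
    · push Not at hn
      refine (tm_le n u').trans (le_trans ?_ hN.le)
      exact pow_le_pow_of_le_one (by norm_num) (by norm_num) hn

theorem lam_pos {u : ℕ → F} (h : u ∈ Om) : 0 < lam u := by
  obtain ⟨i, hi⟩ := h
  refine lt_lam_iff.2 ⟨i, ?_⟩
  unfold tm
  exact mul_pos (by positivity) (lt_max_of_lt_right (by linarith))

theorem lam_zero {u : ℕ → F} (h : u ∉ Om) : lam u = 0 := by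
  by_contra hne
  have hpos : 0 < lam u := lt_of_le_of_ne (lam_nonneg u) (Ne.symm hne)
  obtain ⟨n, hn⟩ := lt_lam_iff.1 hpos
  apply h
  refine ⟨n, ?_⟩
  unfold tm at hn
  by_contra hcon
  push Not at hcon
  rw [max_eq_left (by linarith), mul_zero] at hn
  exact lt_irrefl _ hn

theorem mem_iff (u : ℕ → F) (w : F) :
    (w = 0 ∨ ∃ n : ℕ, ‖u n‖ + 2 ^ n * ‖w‖ < 1) ↔ (w = 0 ∨ ‖w‖ < lam u) := by
  by_cases hw : w = 0
  · simp [hw]
  · simp only [hw, false_or]
    rw [lt_lam_iff]
    apply exists_congr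
    intro n
    unfold tm
    have h2 : (0 : ℝ) < 2 ^ n := by positivity
    have e : ((1 : ℝ) / 2) ^ n * max 0 (1 - ‖u n‖) = max 0 (1 - ‖u n‖) / 2 ^ n := by
      rw [one_div, inv_pow]
      ring
    rw [e, lt_div_iff₀ h2]
    have hw0 : 0 < ‖w‖ := norm_pos_iff.2 hw
    constructor
    · intro h
      exact lt_max_of_lt_right (by linarith)
    · intro h
      rcases lt_max_iff.1 h with h | h
      · have : 0 < ‖w‖ * 2 ^ n := by positivity
        linarith
      · linarith

theorem lt_of_mem {u : ℕ → F} {w : F} (h : w = 0 ∨ ∃ n : ℕ, ‖u n‖ + 2 ^ n * ‖w‖ < 1) (hu : u ∈ Om) :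
    ‖w‖ < lam u := by
  rcases (mem_iff u w).1 h with h | h
  · rw [h, norm_zero]
    exact lam_pos hu
  · exact h

theorem zero_of_mem {u : ℕ → F} {w : F} (h : w = 0 ∨ ∃ n : ℕ, ‖u n‖ + 2 ^ n * ‖w‖ < 1)
    (hu : u ∉ Om) : w = 0 := by
  rcases (mem_iff u w).1 h with h | h
  · exact h
  · rw [lam_zero hu] at h
    exact absurd h (not_lt.2 (norm_nonneg _))

/-- clocks vanish near points off `Om`. -/
theorem s_near {u : ℕ → F} (hu : u ∉ Om) (n : ℕ) : ∀ᶠ v in 𝓝 u, s n ((), v) = 0 := by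
  have hu' : ∀ i, 1 ≤ ‖u i‖ := by
    intro i
    by_contra hcon
    exact hu ⟨i, not_le.1 hcon⟩
  have h1 : Continuous fun v : ℕ → F => (n : ℝ) * M n v := continuous_const.mul (M_cont n)
  have h2 : ∀ᶠ v in 𝓝 u, (n : ℝ) * M n v < 1 := by
    apply h1.continuousAt.eventually_lt_const
    show (n : ℝ) * M n u < 1
    rw [M_zero_of hu' n, mul_zero]
    norm_num
  filter_upwards [h2] with v hv
  unfold s
  simp only
  rw [min_eq_right (by linarith), max_eq_left (by linarith)]

end BoxInsAux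

open BoxInsAux in
/-- PROOF. `insertion` with `Y = Unit`, `K = F`, clocks
`s n u = max 0 (min 1 (n * max_(i<n) max 0 (1 - |u_i|) - 1))` (adapted, nondecreasing, locally
eventually `1` where some `|u_i| < 1`; `Om = {u | some |u_i| < 1}`). Let
`lam u = sup_n 2^-n max 0 (1 - |u_n|)`, continuous, positive exactly on `Om`; `(u,w) in RP` iff `w = 0`
or `|w| < lam u`. `iota (u,w) = Phi (u, w / (lam u - |w|))` for `u in Om` and `iota (u,0) = u` otherwise.
Inverse: `v in Om`, `Phi^-1 v = (u,w')`, `-> (u, (lam u / (1 + |w'|)) w')`, and `v -> (v,0)` off `Om`.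
Continuity at points off `Om`: for each `n` the clocks `s 0 .. s n` vanish near such a point, so the
coordinates `<= n` agree, and `|w| <= lam u -> 0`. -/
theorem box_ins : ∃ ι : RP ≃ₜ (ℕ → F), ∀ u, (∀ i, 1 ≤ ‖u i‖) →
    ι ⟨(u, 0), Or.inl rfl⟩ = u := by
  classical
  obtain ⟨Φ, hΦ⟩ := insertion (Y := Unit) (K := F) s s_cont s_mem s_mono s_adapted s_ev
  -- the map on `Om`
  let toS : Om → {p : Unit × (ℕ → F) // ∃ n, s n p ≠ 0} := fun u =>
    ⟨((), u.1), (s_ne_iff _).2 u.2⟩
  have toS_cont : Continuous toS :=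
    Continuous.subtype_mk (continuous_const.prodMk continuous_subtype_val) _
  let ofS : {p : Unit × (ℕ → F) // ∃ n, s n p ≠ 0} → Om := fun p =>
    ⟨p.1.2, (s_ne_iff _).1 p.2⟩
  have ofS_cont : Continuous ofS :=
    Continuous.subtype_mk (continuous_snd.comp continuous_subtype_val) _
  let A : Om × F → Om := fun q => ofS (Φ (toS q.1, q.2))
  have A_cont : Continuous A :=
    ofS_cont.comp (Φ.continuous.comp ((toS_cont.comp continuous_fst).prodMk continuous_snd))
  let B : Om → Om × F := fun v => (ofS (Φ.symm (toS v)).1, (Φ.symm (toS v)).2)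
  have B_cont : Continuous B := by
    have h : Continuous fun v : Om => Φ.symm (toS v) := Φ.symm.continuous.comp toS_cont
    exact (ofS_cont.comp (continuous_fst.comp h)).prodMk (continuous_snd.comp h)
  have toS_ofS : ∀ p, toS (ofS p) = p := by
    intro p
    apply Subtype.ext
    show ((), p.1.2) = p.1
    rfl
  have ofS_toS : ∀ u, ofS (toS u) = u := fun u => rfl
  have AB : ∀ v, A (B v) = v := by
    intro v
    show ofS (Φ (toS (ofS (Φ.symm (toS v)).1), (Φ.symm (toS v)).2)) = v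
    rw [toS_ofS, Prod.mk.eta, Φ.apply_symm_apply, ofS_toS]
  have BA : ∀ q, B (A q) = q := by
    intro q
    show (ofS (Φ.symm (toS (ofS (Φ (toS q.1, q.2))))).1,
      (Φ.symm (toS (ofS (Φ (toS q.1, q.2))))).2) = q
    rw [toS_ofS, Φ.symm_apply_apply]
  have A_eq : ∀ (q : Om × F) (n : ℕ), s n ((), q.1.1) = 0 → ∀ i ≤ n, (A q).1 i = q.1.1 i := by
    intro q n hn i hi
    exact (hΦ (toS q.1) q.2).2 n hn i hi
  have B_eq : ∀ (v : Om) (n : ℕ), s n ((), v.1) = 0 → ∀ i ≤ n, (B v).1.1 i = v.1 i := by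
    intro v n hn i hi
    have h1 : ∀ m ≤ n, s m ((), (B v).1.1) = 0 := by
      intro m
      induction m with
      | zero =>
        intro _
        have h2 : s 0 ((), (B v).1.1) = s 0 ((), v.1) := s_adapted 0 () _ _ (by intro i hi; omega)
        rw [h2]
        have h3 : s 0 ((), v.1) ≤ s n ((), v.1) := s_monotone _ (Nat.zero_le n)
        have h4 := (s_mem 0 ((), v.1)).1
        linarith
      | succ m ih =>
        intro hm
        have h2 := ih (by omega)
        have h3 : ∀ i ≤ m, (A (B v)).1 i = (B v).1.1 i := A_eq (B v) m h2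
        have h4 : s (m + 1) ((), (B v).1.1) = s (m + 1) ((), v.1) := by
          apply s_adapted
          intro i hi
          rw [← h3 i (by omega), AB]
        rw [h4]
        have h5 : s (m + 1) ((), v.1) ≤ s n ((), v.1) := s_monotone _ hm
        have h6 := (s_mem (m + 1) ((), v.1)).1
        linarith
    have h2 := A_eq (B v) n (h1 n le_rfl) i hi
    rw [AB] at h2
    exact h2.symm
  -- the map and its inverse
  let f : RP → (ℕ → F) := fun p =>
    if h : p.1.1 ∈ Om then (A (⟨p.1.1, h⟩, (lam p.1.1 - ‖p.1.2‖)⁻¹ • p.1.2)).1 else p.1.1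
  have hg_mem : ∀ (u : ℕ → F) (w : F), u ∈ Om →
      ((lam u / (1 + ‖w‖)) • w = 0 ∨ ∃ n : ℕ, ‖u n‖ + 2 ^ n * ‖(lam u / (1 + ‖w‖)) • w‖ < 1) := by
    intro u w hu
    rw [mem_iff]
    right
    have hl := lam_pos hu
    have hw := norm_nonneg w
    rw [norm_smul, Real.norm_of_nonneg (by positivity), div_mul_eq_mul_div, div_lt_iff₀ (by linarith)]
    nlinarith
  let g : (ℕ → F) → RP := fun v =>
    if h : v ∈ Om then
      ⟨((B ⟨v, h⟩).1.1, (lam (B ⟨v, h⟩).1.1 / (1 + ‖(B ⟨v, h⟩).2‖)) • (B ⟨v, h⟩).2),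
        hg_mem _ _ (B ⟨v, h⟩).1.2⟩
    else ⟨(v, 0), Or.inl rfl⟩
  have f_pos : ∀ (p : RP) (h : p.1.1 ∈ Om),
      f p = (A (⟨p.1.1, h⟩, (lam p.1.1 - ‖p.1.2‖)⁻¹ • p.1.2)).1 := fun p h => dif_pos h
  have f_neg : ∀ (p : RP), p.1.1 ∉ Om → f p = p.1.1 := fun p h => dif_neg h
  have g_pos : ∀ (v : ℕ → F) (h : v ∈ Om), g v =
      ⟨((B ⟨v, h⟩).1.1, (lam (B ⟨v, h⟩).1.1 / (1 + ‖(B ⟨v, h⟩).2‖)) • (B ⟨v, h⟩).2),
        hg_mem _ _ (B ⟨v, h⟩).1.2⟩ := fun v h => dif_pos h
  have g_neg : ∀ (v : ℕ → F), v ∉ Om → g v = ⟨(v, 0), Or.inl rfl⟩ := fun v h => dif_neg h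
  have fg : ∀ v, f (g v) = v := by
    intro v
    by_cases h : v ∈ Om
    · rw [g_pos v h]
      rw [f_pos _ (B ⟨v, h⟩).1.2]
      have hl := lam_pos (B ⟨v, h⟩).1.2
      set w := (B ⟨v, h⟩).2 with hw
      set l := lam (B ⟨v, h⟩).1.1 with hl'
      have hn : 0 ≤ ‖w‖ := norm_nonneg w
      have e1 : (l - ‖(l / (1 + ‖w‖)) • w‖)⁻¹ • ((l / (1 + ‖w‖)) • w) = w := by
        rw [norm_smul, Real.norm_of_nonneg (by positivity), smul_smul]
        have : (l - l / (1 + ‖w‖) * ‖w‖)⁻¹ * (l / (1 + ‖w‖)) = 1 := by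
          have h1 : (1 + ‖w‖) ≠ 0 := by linarith
          have h2 : l - l / (1 + ‖w‖) * ‖w‖ = l / (1 + ‖w‖) := by
            field_simp
            ring
          rw [h2]
          exact inv_mul_cancel₀ (by positivity)
        rw [this, one_smul]
      have e2 : (A (⟨(B ⟨v, h⟩).1.1, (B ⟨v, h⟩).1.2⟩,
          (l - ‖(l / (1 + ‖w‖)) • w‖)⁻¹ • ((l / (1 + ‖w‖)) • w))).1 = v := by
        rw [e1]
        show (A (B ⟨v, h⟩)).1 = v
        rw [AB]
      exact e2
    · rw [g_neg v h, f_neg _ h]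
  have gf : ∀ p, g (f p) = p := by
    intro p
    by_cases h : p.1.1 ∈ Om
    · have hm : f p ∈ Om := by
        rw [f_pos p h]
        exact (A _).2
      have hlt : ‖p.1.2‖ < lam p.1.1 := lt_of_mem p.2 h
      have hl := lam_pos h
      have hB : B ⟨f p, hm⟩ = (⟨p.1.1, h⟩, (lam p.1.1 - ‖p.1.2‖)⁻¹ • p.1.2) := by
        rw [← BA (⟨p.1.1, h⟩, (lam p.1.1 - ‖p.1.2‖)⁻¹ • p.1.2)]
        congr 1
        apply Subtype.ext
        exact f_pos p h
      rw [g_pos _ hm]
      apply Subtype.ext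
      apply Prod.ext
      · show (B ⟨f p, hm⟩).1.1 = p.1.1
        rw [hB]
      · show (lam (B ⟨f p, hm⟩).1.1 / (1 + ‖(B ⟨f p, hm⟩).2‖)) • (B ⟨f p, hm⟩).2 = p.1.2
        rw [hB]
        show (lam p.1.1 / (1 + ‖(lam p.1.1 - ‖p.1.2‖)⁻¹ • p.1.2‖)) •
          ((lam p.1.1 - ‖p.1.2‖)⁻¹ • p.1.2) = p.1.2
        rw [norm_smul, Real.norm_of_nonneg (inv_nonneg.2 (by linarith)), smul_smul]
        have h1 : lam p.1.1 - ‖p.1.2‖ ≠ 0 := by linarith
        have : lam p.1.1 / (1 + (lam p.1.1 - ‖p.1.2‖)⁻¹ * ‖p.1.2‖) * (lam p.1.1 - ‖p.1.2‖)⁻¹ = 1 := by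
          have h2 : 1 + (lam p.1.1 - ‖p.1.2‖)⁻¹ * ‖p.1.2‖ = lam p.1.1 * (lam p.1.1 - ‖p.1.2‖)⁻¹ := by
            field_simp
            ring
          rw [h2]
          have h3 : lam p.1.1 * (lam p.1.1 - ‖p.1.2‖)⁻¹ ≠ 0 := mul_ne_zero hl.ne' (inv_ne_zero h1)
          field_simp
        rw [this, one_smul]
    · rw [f_neg p h, g_neg _ h]
      apply Subtype.ext
      apply Prod.ext
      · rfl
      · exact (zero_of_mem p.2 h).symm
  have f_cont : Continuous f := by
    rw [continuous_iff_continuousAt]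
    intro p
    by_cases h : p.1.1 ∈ Om
    · have hopen : IsOpen {p : RP | p.1.1 ∈ Om} :=
        Om_open.preimage (continuous_fst.comp continuous_subtype_val)
      have hon : ContinuousOn f {p : RP | p.1.1 ∈ Om} := by
        rw [continuousOn_iff_continuous_domRestrict]
        have e : ({p : RP | p.1.1 ∈ Om}).domRestrict f = fun q =>
            (A (⟨q.1.1.1, q.2⟩, (lam q.1.1.1 - ‖q.1.1.2‖)⁻¹ • q.1.1.2)).1 := by
          ext1 q
          exact f_pos q.1 q.2
        rw [e]
        apply continuous_subtype_val.comp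
        apply A_cont.comp
        have c1 : Continuous fun q : {p : RP | p.1.1 ∈ Om} => q.1.1.1 :=
          continuous_fst.comp (continuous_subtype_val.comp continuous_subtype_val)
        have c2 : Continuous fun q : {p : RP | p.1.1 ∈ Om} => q.1.1.2 :=
          continuous_snd.comp (continuous_subtype_val.comp continuous_subtype_val)
        refine (Continuous.subtype_mk c1 _).prodMk ?_
        have c3 : Continuous fun q : {p : RP | p.1.1 ∈ Om} =>
            (lam q.1.1.1 - ‖q.1.1.2‖)⁻¹ := by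
          refine Continuous.inv₀ ((lam_cont.comp c1).sub c2.norm) ?_
          intro q
          have := lt_of_mem q.1.2 q.2
          show lam q.1.1.1 - ‖q.1.1.2‖ ≠ 0
          linarith
        exact c3.smul c2
      exact hon.continuousAt (hopen.mem_nhds h)
    · rw [continuousAt_pi]
      intro n
      have h1 : ∀ᶠ q : RP in 𝓝 p, s n ((), q.1.1) = 0 :=
        (continuous_fst.comp continuous_subtype_val).continuousAt.eventually (s_near h n)
      have h2 : (fun q : RP => f q n) =ᶠ[𝓝 p] fun q => q.1.1 n := by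
        filter_upwards [h1] with q hq
        by_cases hq2 : q.1.1 ∈ Om
        · rw [f_pos q hq2]
          exact A_eq (⟨q.1.1, hq2⟩, (lam q.1.1 - ‖q.1.2‖)⁻¹ • q.1.2) n hq n le_rfl
        · rw [f_neg q hq2]
      refine ContinuousAt.congr ?_ h2.symm
      exact ((continuous_apply n).comp (continuous_fst.comp continuous_subtype_val)).continuousAt
  have g_cont : Continuous g := by
    rw [continuous_iff_continuousAt]
    intro v
    by_cases h : v ∈ Om
    · have hon : ContinuousOn g Om := by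
        rw [continuousOn_iff_continuous_domRestrict]
        have e : Om.domRestrict g = fun v => ⟨((B v).1.1, (lam (B v).1.1 / (1 + ‖(B v).2‖)) • (B v).2),
            hg_mem _ _ (B v).1.2⟩ := by
          ext1 q
          exact g_pos q.1 q.2
        rw [e]
        have c1 : Continuous fun v : Om => (B v).1.1 :=
          continuous_subtype_val.comp (continuous_fst.comp B_cont)
        have c2 : Continuous fun v : Om => (B v).2 := continuous_snd.comp B_cont
        refine Continuous.subtype_mk (c1.prodMk ?_) _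
        have c3 : Continuous fun v : Om => lam (B v).1.1 / (1 + ‖(B v).2‖) := by
          refine Continuous.div (lam_cont.comp c1) (continuous_const.add c2.norm) ?_
          intro q
          have := norm_nonneg (B q).2
          linarith
        exact c3.smul c2
      exact hon.continuousAt (Om_open.mem_nhds h)
    · rw [Topology.IsInducing.subtypeVal.continuousAt_iff]
      have hc1 : ContinuousAt (fun u => (g u).1.1) v := by
        rw [continuousAt_pi]
        intro n
        have h2 : (fun u => (g u).1.1 n) =ᶠ[𝓝 v] fun u => u n := by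
          filter_upwards [s_near h n] with u hu
          by_cases hq2 : u ∈ Om
          · rw [g_pos u hq2]
            exact B_eq ⟨u, hq2⟩ n hu n le_rfl
          · rw [g_neg u hq2]
        refine ContinuousAt.congr ?_ h2.symm
        exact (continuous_apply n).continuousAt
      have hc2 : ContinuousAt (fun u => (g u).1.2) v := by
        have e0 : (g v).1.2 = 0 := by rw [g_neg v h]
        have e1 : (g v).1.1 = v := by rw [g_neg v h]
        rw [ContinuousAt, e0]
        have hl : Tendsto (fun u => lam (g u).1.1) (𝓝 v) (𝓝 0) := by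
          have : ContinuousAt (fun u => lam (g u).1.1) v :=
            ContinuousAt.comp (g := lam) lam_cont.continuousAt hc1
          rw [ContinuousAt, e1, lam_zero h] at this
          exact this
        apply squeeze_zero_norm _ hl
        intro u
        rcases (mem_iff _ _).1 (g u).2 with h3 | h3
        · rw [h3, norm_zero]
          exact lam_nonneg _
        · exact h3.le
      exact hc1.prodMk hc2
  refine ⟨⟨⟨f, g, gf, fg⟩, f_cont, g_cont⟩, ?_⟩
  intro u hu
  have hn : u ∉ Om := by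
    rintro ⟨i, hi⟩
    exact absurd hi (not_lt.2 (hu i))
  exact f_neg ⟨(u, 0), Or.inl rfl⟩ hn

/-- PROOF: inverse of `(m,w) -> iota (G (m, w / (1 + |w|)))`. -/
theorem box : ∃ β : (ℕ → F) ≃ₜ (ℕ → F) × F, ∀ u, (∀ i, 1 ≤ ‖u i‖) → (β u).2 = 0 := by
  obtain ⟨ι, hι⟩ := box_ins
  obtain ⟨G, hG⟩ := box_rad
  let e : F ≃ₜ {w : F // ‖w‖ < 1} :=
    (Homeomorph.unitBall (E := F)).trans (Homeomorph.setCongr (s := Metric.ball (0 : F) 1)
      (t := {w : F | ‖w‖ < 1}) (by
      ext w
      simp))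
  have he : e 0 = ⟨0, by simp⟩ := by
    apply Subtype.ext
    show ((Homeomorph.unitBall (0 : F) : Metric.ball (0 : F) 1) : F) = 0
    simp
  let T : (ℕ → F) × F ≃ₜ (ℕ → F) :=
    (((Homeomorph.refl (ℕ → F)).prodCongr e).trans G).trans ι
  refine ⟨T.symm, ?_⟩
  intro u hu
  have h1 : T (u, 0) = u := by
    show ι (G (u, e 0)) = u
    rw [he]
    have h2 : G (u, ⟨0, by simp⟩) = ⟨(u, 0), Or.inl rfl⟩ := Subtype.ext (hG u)
    rw [h2]
    exact hι u hu
  have h2 : T.symm u = (u, 0) := by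
    rw [Homeomorph.symm_apply_eq]
    exact h1.symm
  rw [h2]

end Pool.Agent.Tor
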