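import Pool.Agent.Lib.Tor.Basic

/-! MODULE Tor.BoxRad: an explicit isotopy pushing `F^N` off `{all |u_i| >= 1}`. -/

open Set Topology Filter

namespace Pool.Agent.Tor

/-- pairs `(u,w)` with `w = 0` or `|w| < sup_n 2^-n (1 - |u_n|)` -/
abbrev RP : Type := {p : (ℕ → F) × F // p.2 = 0 ∨ ∃ n : ℕ, ‖p.1 n‖ + 2 ^ n * ‖p.2‖ < 1}

namespace BoxRadAux

/-- the radius -/
noncomputable def r (t : ℝ) (n : ℕ) : ℝ := max 0 (1 - 2 ^ n * t)

/-- the cutoff -/
noncomputable def c (t : ℝ) (n : ℕ) : ℝ := max 0 (min 1 (2 - 4 * (2 ^ n * t)))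

/-- the parameter -/
noncomputable def P (t : ℝ) (n : ℕ) (μ : ℝ) : ℝ := min 1 (c t n + μ)

/-- the defect, computed from the image -/
noncomputable def mu (t : ℝ) (u : ℕ → F) : ℕ → ℝ
  | 0 => 0
  | n + 1 => max (mu t u n) (r t n - ‖u n‖)

/-- the coefficient -/
noncomputable def coef (t : ℝ) (n : ℕ) (μ s : ℝ) : ℝ := (1 - P t n μ) * r t n / (1 + s) + P t n μ

/-- the defect, computed from the source -/
noncomputable def nu (t : ℝ) (m : ℕ → F) : ℕ → ℝ
  | 0 => 0
  | n + 1 => max (nu t m n) (r t n - ‖coef t n (nu t m n) ‖m n‖ • m n‖)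

/-- the image -/
noncomputable def fw (t : ℝ) (m : ℕ → F) (n : ℕ) : F := coef t n (nu t m n) ‖m n‖ • m n

noncomputable def B (t : ℝ) (u : ℕ → F) (n : ℕ) : ℝ :=
  (1 - P t n (mu t u n)) * r t n + P t n (mu t u n) - ‖u n‖

noncomputable def D (t : ℝ) (u : ℕ → F) (n : ℕ) : ℝ :=
  B t u n + Real.sqrt (B t u n ^ 2 + 4 * P t n (mu t u n) * ‖u n‖)

/-- the preimage -/
noncomputable def bw (t : ℝ) (u : ℕ → F) (n : ℕ) : F := (2 / D t u n) • u n

theorem r_nonneg (t : ℝ) (n : ℕ) : 0 ≤ r t n := le_max_left _ _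

theorem c_nonneg (t : ℝ) (n : ℕ) : 0 ≤ c t n := le_max_left _ _

theorem P_le (t : ℝ) (n : ℕ) (μ : ℝ) : P t n μ ≤ 1 := min_le_left _ _

theorem P_nonneg (t : ℝ) (n : ℕ) {μ : ℝ} (h : 0 ≤ μ) : 0 ≤ P t n μ :=
  le_min zero_le_one (add_nonneg (c_nonneg _ _) h)

theorem mu_nonneg (t : ℝ) (u : ℕ → F) (n : ℕ) : 0 ≤ mu t u n := by
  induction n with
  | zero => exact le_rfl
  | succ n ih => exact ih.trans (le_max_left _ _)

theorem nu_nonneg (t : ℝ) (m : ℕ → F) (n : ℕ) : 0 ≤ nu t m n := by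
  induction n with
  | zero => exact le_rfl
  | succ n ih => exact ih.trans (le_max_left _ _)

theorem mu_pos {t : ℝ} {u : ℕ → F} {n : ℕ} (h : 0 < mu t u n) : ∃ i < n, ‖u i‖ < r t i := by
  induction n with
  | zero => exact absurd h (lt_irrefl _)
  | succ n ih =>
    have h1 : 0 < max (mu t u n) (r t n - ‖u n‖) := h
    rcases lt_max_iff.mp h1 with h2 | h2
    · obtain ⟨i, hi, hi'⟩ := ih h2
      exact ⟨i, by omega, hi'⟩
    · exact ⟨n, by omega, by linarith⟩

theorem mu_ge {t : ℝ} {u : ℕ → F} {n i : ℕ} (hi : i < n) : r t i - ‖u i‖ ≤ mu t u n := by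
  induction n with
  | zero => omega
  | succ n ih =>
    rcases Nat.lt_succ_iff_lt_or_eq.mp hi with h | h
    · exact (ih h).trans (le_max_left _ _)
    · rw [h]; exact le_max_right _ _

theorem mu_fw (t : ℝ) (m : ℕ → F) (n : ℕ) : mu t (fw t m) n = nu t m n := by
  induction n with
  | zero => rfl
  | succ n ih =>
    change max (mu t (fw t m) n) (r t n - ‖fw t m n‖) = max (nu t m n) _
    rw [ih]
    rfl

theorem coef_nonneg (t : ℝ) (n : ℕ) {μ s : ℝ} (hμ : 0 ≤ μ) (hs : 0 ≤ s) : 0 ≤ coef t n μ s := by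
  have h1 := P_le t n μ
  have h2 := P_nonneg t n hμ
  have h3 := r_nonneg t n
  unfold coef
  have : 0 ≤ (1 - P t n μ) * r t n := mul_nonneg (by linarith) h3
  positivity

theorem norm_fw (t : ℝ) (m : ℕ → F) (n : ℕ) :
    ‖fw t m n‖ = coef t n (nu t m n) ‖m n‖ * ‖m n‖ := by
  unfold fw
  rw [norm_smul, Real.norm_of_nonneg (coef_nonneg t n (nu_nonneg t m n) (norm_nonneg _))]

/-- values of the forward map -/
theorem fw_mem {t : ℝ} (ht : 0 < t) (ht1 : t < 1) (m : ℕ → F) :
    ∃ n : ℕ, ‖fw t m n‖ + 2 ^ n * t < 1 := by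
  classical
  have hex : ∃ n : ℕ, 1 / 2 ≤ (2 : ℝ) ^ n * t := by
    obtain ⟨n, hn⟩ := pow_unbounded_of_one_lt (1 / t) (one_lt_two)
    refine ⟨n, ?_⟩
    rw [div_lt_iff₀ ht] at hn
    linarith
  obtain ⟨hn1, hmin⟩ : 1 / 2 ≤ (2 : ℝ) ^ (Nat.find hex) * t ∧
      ∀ i < Nat.find hex, (2 : ℝ) ^ i * t < 1 / 2 :=
    ⟨Nat.find_spec hex, fun i hi => not_le.mp (Nat.find_min hex hi)⟩
  generalize Nat.find hex = n at hn1 hmin
  have hn2 : (2 : ℝ) ^ n * t < 1 := by
    rcases Nat.eq_zero_or_pos n with h | h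
    · rw [h, pow_zero, one_mul]; exact ht1
    · have := hmin (n - 1) (by omega)
      have e : (2 : ℝ) ^ n = 2 ^ (n - 1) * 2 := by
        rw [← pow_succ]; congr 1; omega
      rw [e]
      linarith
  have hc : c t n = 0 := by
    unfold c
    apply max_eq_left
    refine (min_le_right _ _).trans ?_
    linarith
  by_cases hμ : 0 < mu t (fw t m) n
  · obtain ⟨i, hi, hi'⟩ := mu_pos hμ
    refine ⟨i, ?_⟩
    have h1 := hmin i hi
    have h2 : r t i = 1 - 2 ^ i * t := max_eq_right (by linarith)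
    rw [h2] at hi'
    linarith
  · have hμ0 : mu t (fw t m) n = 0 := le_antisymm (not_lt.mp hμ) (mu_nonneg _ _ _)
    rw [mu_fw] at hμ0
    have hP : P t n (nu t m n) = 0 := by
      unfold P
      rw [hc, hμ0]
      norm_num
    refine ⟨n, ?_⟩
    rw [norm_fw]
    unfold coef
    rw [hP]
    have h2 : r t n = 1 - 2 ^ n * t := max_eq_right (by linarith)
    have h3 := norm_nonneg (m n)
    have h4 : 0 < r t n := by rw [h2]; linarith
    have h5 : ((1 - 0) * r t n / (1 + ‖m n‖) + 0) * ‖m n‖ < r t n := by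
      rw [add_zero, sub_zero, one_mul, div_mul_eq_mul_div, div_lt_iff₀ (by linarith)]
      nlinarith
    rw [h2] at h5
    rw [h2]
    linarith

theorem D_pos_zero (u : ℕ → F) (n : ℕ) : D 0 u n = 2 := by
  have hc : c 0 n = 1 := by
    unfold c; norm_num
  have hP : P 0 n (mu 0 u n) = 1 := by
    unfold P
    rw [hc]
    exact min_eq_left (by linarith [mu_nonneg 0 u n])
  unfold D B
  rw [hP]
  have h0 := norm_nonneg (u n)
  have h1 : (((1 : ℝ) - 1) * r 0 n + 1 - ‖u n‖) ^ 2 + 4 * 1 * ‖u n‖ = (1 + ‖u n‖) ^ 2 := by ring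
  rw [h1, Real.sqrt_sq (by linarith)]
  ring

theorem D_pos {t : ℝ} (ht : 0 < t) {u : ℕ → F} (hu : ∃ j : ℕ, ‖u j‖ + 2 ^ j * t < 1) (n : ℕ) :
    0 < D t u n := by
  obtain ⟨j, hj⟩ := hu
  have hp0 := P_nonneg t n (mu_nonneg t u n)
  have hp1 := P_le t n (mu t u n)
  have hr := r_nonneg t n
  have hu0 := norm_nonneg (u n)
  have hsq : |B t u n| ≤ Real.sqrt (B t u n ^ 2 + 4 * P t n (mu t u n) * ‖u n‖) := by
    apply Real.abs_le_sqrt
    have : 0 ≤ 4 * P t n (mu t u n) * ‖u n‖ := by positivity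
    linarith
  rcases hp0.lt_or_eq with hp | hp
  · rcases hu0.lt_or_eq with h | h
    · have h1 : |B t u n| < Real.sqrt (B t u n ^ 2 + 4 * P t n (mu t u n) * ‖u n‖) := by
        rw [← Real.sqrt_sq_eq_abs]
        apply Real.sqrt_lt_sqrt (sq_nonneg _)
        have : 0 < 4 * P t n (mu t u n) * ‖u n‖ := by positivity
        linarith
      have h2 := neg_abs_le (B t u n)
      unfold D
      linarith
    · have hB : 0 < B t u n := by
        unfold B
        rw [← h]
        have : 0 ≤ (1 - P t n (mu t u n)) * r t n := mul_nonneg (by linarith) hr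
        linarith
      have h2 := Real.sqrt_nonneg (B t u n ^ 2 + 4 * P t n (mu t u n) * ‖u n‖)
      unfold D
      linarith
  · -- p = 0
    have hp' : min 1 (c t n + mu t u n) = 0 := hp.symm
    have h1 : c t n + mu t u n = 0 := by
      rcases min_choice 1 (c t n + mu t u n) with h | h
      · rw [h] at hp'; norm_num at hp'
      · rw [h] at hp'; exact hp'
    have hc0 : c t n = 0 := by
      have := c_nonneg t n
      have := mu_nonneg t u n
      linarith
    have hμ0 : mu t u n = 0 := by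
      have := c_nonneg t n
      have := mu_nonneg t u n
      linarith
    have h2 : 1 / 2 ≤ 2 ^ n * t := by
      by_contra hcon
      push Not at hcon
      have : 0 < c t n := by
        unfold c
        apply lt_max_of_lt_right
        apply lt_min zero_lt_one
        linarith
      linarith
    have h3 : n ≤ j := by
      by_contra hcon
      push Not at hcon
      have h4 := mu_ge (t := t) (u := u) hcon
      rw [hμ0] at h4
      have h5 : 1 - 2 ^ j * t ≤ r t j := le_max_right _ _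
      linarith
    have h4 : j = n := by
      by_contra hne
      have h5 : n + 1 ≤ j := by omega
      have h6 : (2 : ℝ) ^ (n + 1) ≤ 2 ^ j := pow_le_pow_right₀ (by norm_num) h5
      have h7 : (2 : ℝ) ^ (n + 1) * t ≤ 2 ^ j * t := mul_le_mul_of_nonneg_right h6 ht.le
      rw [pow_succ] at h7
      have := norm_nonneg (u j)
      linarith
    subst h4
    have hB : 0 < B t u j := by
      unfold B
      rw [← hp]
      have h5 : 1 - 2 ^ j * t ≤ r t j := le_max_right _ _
      linarith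
    have h2 := Real.sqrt_nonneg (B t u j ^ 2 + 4 * P t j (mu t u j) * ‖u j‖)
    unfold D
    linarith

/-- on the range of the forward map -/
theorem D_fw (t : ℝ) (m : ℕ → F) (n : ℕ) : D t (fw t m) n = 2 * coef t n (nu t m n) ‖m n‖ := by
  have hs := norm_nonneg (m n)
  have hμ := nu_nonneg t m n
  have hp0 := P_nonneg t n hμ
  have hc0 := coef_nonneg t n hμ hs
  have h1 : ‖fw t m n‖ = coef t n (nu t m n) ‖m n‖ * ‖m n‖ := norm_fw t m n
  have hcs : coef t n (nu t m n) ‖m n‖ * (1 + ‖m n‖) =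
      (1 - P t n (nu t m n)) * r t n + P t n (nu t m n) * (1 + ‖m n‖) := by
    unfold coef
    have : 1 + ‖m n‖ ≠ 0 := by linarith
    field_simp
  have hB : B t (fw t m) n = coef t n (nu t m n) ‖m n‖ - P t n (nu t m n) * ‖m n‖ := by
    unfold B
    rw [mu_fw, h1]
    linarith
  unfold D
  rw [hB, mu_fw, h1]
  have h2 : (coef t n (nu t m n) ‖m n‖ - P t n (nu t m n) * ‖m n‖) ^ 2 +
      4 * P t n (nu t m n) * (coef t n (nu t m n) ‖m n‖ * ‖m n‖) =
      (coef t n (nu t m n) ‖m n‖ + P t n (nu t m n) * ‖m n‖) ^ 2 := by ring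
  rw [h2, Real.sqrt_sq (by positivity)]
  ring

theorem bw_fw {t : ℝ} {m : ℕ → F} (n : ℕ) (hD : 0 < D t (fw t m) n) : bw t (fw t m) n = m n := by
  unfold bw
  rw [D_fw] at hD ⊢
  have hc : coef t n (nu t m n) ‖m n‖ ≠ 0 := by
    intro h
    rw [h] at hD
    norm_num at hD
  unfold fw
  rw [smul_smul]
  have : 2 / (2 * coef t n (nu t m n) ‖m n‖) * coef t n (nu t m n) ‖m n‖ = 1 := by
    field_simp
  rw [this, one_smul]

theorem coef_bw {t : ℝ} {u : ℕ → F} (n : ℕ) (hD : 0 < D t u n) :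
    coef t n (mu t u n) ‖bw t u n‖ * (2 / D t u n) = 1 := by
  have hv := norm_nonneg (u n)
  have hp0 := P_nonneg t n (mu_nonneg t u n)
  set p := P t n (mu t u n) with hp
  set v := ‖u n‖ with hv'
  set d := D t u n with hd
  set b := B t u n with hb
  have hnorm : ‖bw t u n‖ = 2 / d * v := by
    unfold bw
    rw [norm_smul, Real.norm_of_nonneg (by positivity)]
  have hquad : d ^ 2 = 2 * b * d + 4 * p * v := by
    have h1 : d - b = Real.sqrt (b ^ 2 + 4 * p * v) := by
      rw [hd, hb, hp, hv']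
      unfold D
      ring
    have h2 : (d - b) ^ 2 = b ^ 2 + 4 * p * v := by
      rw [h1, Real.sq_sqrt]
      positivity
    linarith [h2]
  have hbdef : (1 - p) * r t n = b - p + v := by
    rw [hb, hp, hv']
    unfold B
    ring
  have hcoef : coef t n (mu t u n) (2 / d * v) = ((1 - p) * r t n) / (1 + 2 / d * v) + p := rfl
  rw [hnorm, hcoef, hbdef]
  have h3 : 0 < 1 + 2 / d * v := by positivity
  have h4 : 0 < d + 2 * v := by positivity
  have h5 : 1 + 2 / d * v = (d + 2 * v) / d := by field_simp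
  rw [h5]
  field_simp
  nlinarith [hquad]

theorem nu_bw {t : ℝ} {u : ℕ → F} (hD : ∀ n, 0 < D t u n) (n : ℕ) :
    nu t (bw t u) n = mu t u n := by
  induction n with
  | zero => rfl
  | succ n ih =>
    change max (nu t (bw t u) n) (r t n - ‖coef t n (nu t (bw t u) n) ‖bw t u n‖ • bw t u n‖) =
      max (mu t u n) (r t n - ‖u n‖)
    rw [ih]
    have : coef t n (mu t u n) ‖bw t u n‖ • bw t u n = u n := by
      have h1 := coef_bw n (hD n)
      conv_lhs => rw [show bw t u n = (2 / D t u n) • u n from rfl]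
      rw [smul_smul]
      have h2 : ‖(2 / D t u n) • u n‖ = ‖bw t u n‖ := rfl
      rw [h2, h1, one_smul]
    rw [this]

theorem fw_bw {t : ℝ} {u : ℕ → F} (hD : ∀ n, 0 < D t u n) (n : ℕ) :
    fw t (bw t u) n = u n := by
  unfold fw
  rw [nu_bw hD]
  have h1 := coef_bw n (hD n)
  conv_lhs => rw [show bw t u n = (2 / D t u n) • u n from rfl]
  rw [smul_smul]
  have h2 : ‖(2 / D t u n) • u n‖ = ‖bw t u n‖ := rfl
  rw [h2, h1, one_smul]

theorem fw_zero (m : ℕ → F) (n : ℕ) : fw 0 m n = m n := by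
  have hc : c 0 n = 1 := by
    unfold c; norm_num
  have hP : P 0 n (nu 0 m n) = 1 := by
    unfold P
    rw [hc]
    exact min_eq_left (by linarith [nu_nonneg 0 m n])
  unfold fw coef
  rw [hP]
  simp

/-! continuity -/

theorem continuous_r (n : ℕ) : Continuous (fun t : ℝ => r t n) := by
  unfold r; fun_prop

theorem continuous_c (n : ℕ) : Continuous (fun t : ℝ => c t n) := by
  unfold c; fun_prop

theorem continuous_P (n : ℕ) : Continuous (fun z : ℝ × ℝ => P z.1 n z.2) := by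
  unfold P
  exact continuous_const.min (((continuous_c n).comp continuous_fst).add continuous_snd)

theorem continuous_mu (n : ℕ) : Continuous (fun z : ℝ × (ℕ → F) => mu z.1 z.2 n) := by
  induction n with
  | zero => exact continuous_const
  | succ n ih =>
    have h1 : Continuous (fun z : ℝ × (ℕ → F) => z.2 n) :=
      (continuous_apply n).comp continuous_snd
    have h2 : Continuous (fun z : ℝ × (ℕ → F) => r z.1 n) := (continuous_r n).comp continuous_fst
    exact ih.max (h2.sub h1.norm)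

theorem continuous_coef {X : Type*} [TopologicalSpace X] (n : ℕ) {t μ s : X → ℝ}
    (ht : Continuous t) (hμ : Continuous μ) (hs : Continuous s) (hs0 : ∀ x, 0 ≤ s x) :
    Continuous (fun x => coef (t x) n (μ x) (s x)) := by
  have hP : Continuous (fun x => P (t x) n (μ x)) := (continuous_P n).comp (ht.prodMk hμ)
  have hr : Continuous (fun x => r (t x) n) := (continuous_r n).comp ht
  have h1 : Continuous (fun x => 1 - P (t x) n (μ x)) := continuous_const.sub hP
  have h2 : Continuous (fun x => (1 - P (t x) n (μ x)) * r (t x) n) := h1.mul hr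
  have h3 : Continuous (fun x => 1 + s x) := continuous_const.add hs
  have h4 : ∀ x, 1 + s x ≠ 0 := fun x => by
    have := hs0 x
    linarith
  have h5 : Continuous (fun x => (1 - P (t x) n (μ x)) * r (t x) n / (1 + s x)) := h2.div h3 h4
  exact h5.add hP

theorem continuous_nu (n : ℕ) : Continuous (fun z : ℝ × (ℕ → F) => nu z.1 z.2 n) := by
  induction n with
  | zero => exact continuous_const
  | succ n ih =>
    have h1 : Continuous (fun z : ℝ × (ℕ → F) => z.2 n) :=
      (continuous_apply n).comp continuous_snd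
    have h2 : Continuous (fun z : ℝ × (ℕ → F) => r z.1 n) := (continuous_r n).comp continuous_fst
    have h3 : Continuous (fun z : ℝ × (ℕ → F) => coef z.1 n (nu z.1 z.2 n) ‖z.2 n‖) :=
      continuous_coef n continuous_fst ih h1.norm (fun _ => norm_nonneg _)
    have h4 : Continuous (fun z : ℝ × (ℕ → F) => coef z.1 n (nu z.1 z.2 n) ‖z.2 n‖ • z.2 n) :=
      h3.smul h1
    exact ih.max (h2.sub h4.norm)

theorem continuous_fw (n : ℕ) : Continuous (fun z : ℝ × (ℕ → F) => fw z.1 z.2 n) := by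
  have h1 : Continuous (fun z : ℝ × (ℕ → F) => z.2 n) := (continuous_apply n).comp continuous_snd
  exact (continuous_coef n continuous_fst (continuous_nu n) h1.norm
    (fun _ => norm_nonneg _)).smul h1

theorem continuous_D (n : ℕ) : Continuous (fun z : ℝ × (ℕ → F) => D z.1 z.2 n) := by
  have hP : Continuous (fun z : ℝ × (ℕ → F) => P z.1 n (mu z.1 z.2 n)) :=
    (continuous_P n).comp (continuous_fst.prodMk (continuous_mu n))
  have h1 : Continuous (fun z : ℝ × (ℕ → F) => ‖z.2 n‖) :=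
    ((continuous_apply n).comp continuous_snd).norm
  have hr : Continuous (fun z : ℝ × (ℕ → F) => r z.1 n) := (continuous_r n).comp continuous_fst
  have hB : Continuous (fun z : ℝ × (ℕ → F) => B z.1 z.2 n) := by
    unfold B
    exact (((continuous_const.sub hP).mul hr).add hP).sub h1
  unfold D
  exact hB.add (((hB.pow 2).add ((continuous_const.mul hP).mul h1)).sqrt)

theorem continuous_bw {X : Type*} [TopologicalSpace X] (n : ℕ) {t : X → ℝ} {u : X → ℕ → F}
    (ht : Continuous t) (hu : Continuous u) (hD : ∀ x, D (t x) (u x) n ≠ 0) :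
    Continuous (fun x => bw (t x) (u x) n) := by
  have h1 : Continuous (fun x => D (t x) (u x) n) :=
    Continuous.comp (g := fun z : ℝ × (ℕ → F) => D z.1 z.2 n) (f := fun x => (t x, u x))
      (continuous_D n) (ht.prodMk hu)
  have h2 : Continuous (fun x => u x n) := (continuous_apply n).comp hu
  have h3 : Continuous (fun x => 2 / D (t x) (u x) n) := continuous_const.div h1 hD
  unfold bw
  exact h3.smul h2

theorem continuous_fw' {X : Type*} [TopologicalSpace X] (n : ℕ) {t : X → ℝ} {m : X → ℕ → F}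
    (ht : Continuous t) (hm : Continuous m) : Continuous (fun x => fw (t x) (m x) n) :=
  Continuous.comp (g := fun z : ℝ × (ℕ → F) => fw z.1 z.2 n) (f := fun x => (t x, m x))
    (continuous_fw n) (ht.prodMk hm)

/-- the source -/
abbrev Src : Type := (ℕ → F) × {w : F // ‖w‖ < 1}

theorem hDpos (u : ℕ → F) (w : F) (h : w = 0 ∨ ∃ n : ℕ, ‖u n‖ + 2 ^ n * ‖w‖ < 1) (n : ℕ) :
    0 < D ‖w‖ u n := by
  by_cases hw : w = 0
  · rw [hw, norm_zero, D_pos_zero]; norm_num
  · rcases h with h | h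
    · exact absurd h hw
    · exact D_pos (norm_pos_iff.mpr hw) h n

theorem hfw (m : ℕ → F) (w : F) (hw1 : ‖w‖ < 1) :
    w = 0 ∨ ∃ n : ℕ, ‖fw ‖w‖ m n‖ + 2 ^ n * ‖w‖ < 1 := by
  by_cases hw : w = 0
  · exact Or.inl hw
  · exact Or.inr (fw_mem (norm_pos_iff.mpr hw) hw1 m)

theorem hlt (u : ℕ → F) (w : F) (h : w = 0 ∨ ∃ n : ℕ, ‖u n‖ + 2 ^ n * ‖w‖ < 1) : ‖w‖ < 1 := by
  rcases h with h | ⟨n, hn⟩
  · rw [h, norm_zero]; norm_num
  · have h1 : (1 : ℝ) ≤ 2 ^ n := one_le_pow₀ (by norm_num)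
    have h2 := norm_nonneg (u n)
    have h3 := norm_nonneg w
    nlinarith

/-- the forward map -/
noncomputable def fwd (z : Src) : RP :=
  ⟨(fw ‖(z.2 : F)‖ z.1, (z.2 : F)), hfw z.1 (z.2 : F) z.2.2⟩

/-- the backward map -/
noncomputable def bwd (z : RP) : Src := (bw ‖z.1.2‖ z.1.1, ⟨z.1.2, hlt z.1.1 z.1.2 z.2⟩)

theorem bwd_fwd (z : Src) : bwd (fwd z) = z := by
  have h1 : (bwd (fwd z)).1 = z.1 :=
    funext fun n => bw_fw n (hDpos _ _ (hfw z.1 (z.2 : F) z.2.2) n)
  have h2 : (bwd (fwd z)).2 = z.2 := Subtype.ext rfl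
  exact Prod.ext h1 h2

theorem fwd_bwd (z : RP) : fwd (bwd z) = z := by
  have h1 : (fwd (bwd z)).1.1 = z.1.1 := funext fun n => fw_bw (hDpos z.1.1 z.1.2 z.2) n
  have h2 : (fwd (bwd z)).1.2 = z.1.2 := rfl
  exact Subtype.ext (Prod.ext h1 h2)

theorem continuous_fwd : Continuous fwd := by
  have h1 : Continuous (fun z : Src => (z.2 : F)) := continuous_subtype_val.comp continuous_snd
  have h2 : Continuous (fun z : Src => ‖(z.2 : F)‖) := h1.norm
  have h3 : Continuous (fun z : Src => fw ‖(z.2 : F)‖ z.1) :=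
    continuous_pi fun n => continuous_fw' n h2 continuous_fst
  exact (h3.prodMk h1).subtype_mk _

theorem continuous_bwd : Continuous bwd := by
  have h1 : Continuous (fun z : RP => z.1.2) := continuous_snd.comp continuous_subtype_val
  have h2 : Continuous (fun z : RP => z.1.1) := continuous_fst.comp continuous_subtype_val
  have h3 : Continuous (fun z : RP => bw ‖z.1.2‖ z.1.1) :=
    continuous_pi fun n => continuous_bw n h1.norm h2
      (fun z => (hDpos z.1.1 z.1.2 z.2 n).ne')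
  exact h3.prodMk (h1.subtype_mk _)

/-- the homeomorphism -/
noncomputable def homeo : Src ≃ₜ RP where
  toFun := fwd
  invFun := bwd
  left_inv := bwd_fwd
  right_inv := fwd_bwd
  continuous_toFun := continuous_fwd
  continuous_invFun := continuous_bwd

theorem homeo_zero (m : ℕ → F) (h : ‖(0 : F)‖ < 1) : (homeo (m, ⟨0, h⟩)).1 = (m, 0) := by
  have h1 : (homeo (m, ⟨0, h⟩)).1.1 = m := by
    funext n
    change fw ‖(0 : F)‖ m n = m n
    rw [norm_zero, fw_zero]
  have h2 : (homeo (m, ⟨0, h⟩)).1.2 = 0 := rfl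
  exact Prod.ext h1 h2

end BoxRadAux

/-- PROOF. Given `(m,w)` with `t = |w| < 1` put `tau_n = 2^n t`, `r_n = max 0 (1 - tau_n)`,
`c_n = max 0 (min 1 (2 - 4 tau_n))` and recursively `mu_n = max_(i<n) max 0 (r_i - |u_i|)`,
`p_n = min 1 (c_n + mu_n)`, `u_n = ((1 - p_n) r_n / (1 + |m_n|) + p_n) m_n`; `G (m,w) = (u,w)`.
All is continuous in `(m,w)` (finite recursion), `G (m,0) = (m,0)` since `p_n = 1` for `t = 0`.
VALUES IN RP: for `t > 0` let `n` be the smallest index with `tau_n >= 1/2`; then `tau_n < 1`, `c_n = 0`;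
if `mu_n > 0` some `i < n` has `|u_i| < r_i = 1 - 2^i t`; otherwise `p_n = 0` and
`|u_n| = r_n |m_n| / (1 + |m_n|) < r_n`. INVERSE: for `(u,w)` in RP compute `mu_n, p_n` from `u` and put
`B_n = (1 - p_n) r_n + p_n - |u_n|`, `D_n = B_n + sqrt (B_n^2 + 4 p_n |u_n|)`, `m_n = (2 / D_n) u_n`.
`D_n > 0`: if `p_n > 0` and `u_n /= 0` clear; if `u_n = 0` and `p_n > 0`, `B_n > 0`; if `p_n = 0` then
`tau_n >= 1/2` and `|u_i| >= r_i` for all `i < n`, so the index `j` with `|u_j| < r_j` (RP) has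
`j >= n`, `tau_j < 1`, hence `j = n` (as `tau_(n+1) >= 1`) and `B_n = r_n - |u_n| > 0`.
(`s = |m_n|` solves `((1-p) r / (1+s) + p) s = |u_n|`, i.e. `p s^2 + B s - |u_n| = 0`; the left side is
strictly increasing in `s` if `p > 0` or `r > 0`.) Both composites are the identity. -/
theorem box_rad : ∃ G : (ℕ → F) × {w : F // ‖w‖ < 1} ≃ₜ RP,
    ∀ m, (G (m, ⟨0, by simp⟩)).1 = (m, 0) :=
  ⟨BoxRadAux.homeo, fun m => BoxRadAux.homeo_zero m _⟩

end Pool.Agent.Tor
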