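import Pool.Agent.Lib.Tor.Basic

/-! MODULE Tor.Covers (0.8 h): elementary facts on neighbourhood assignments. -/

open Set Topology Filter

namespace Pool.Agent.Tor

namespace CoversAux

/-- admissible radii at `x` -/
def rad {Z : Type} [MetricSpace Z] (U : Z → Set Z) (x : Z) : Set ℝ :=
  {r | 0 ≤ r ∧ r ≤ 1 ∧ ∃ z, Metric.ball x r ⊆ U z}

lemma rad_bdd {Z : Type} [MetricSpace Z] (U : Z → Set Z) (x : Z) : BddAbove (rad U x) :=
  ⟨1, fun _ hr => hr.2.1⟩

lemma rad_zero {Z : Type} [MetricSpace Z] (U : Z → Set Z) (x : Z) : (0:ℝ) ∈ rad U x :=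
  ⟨le_rfl, zero_le_one, x, by simp⟩

lemma sSup_rad_nonneg {Z : Type} [MetricSpace Z] (U : Z → Set Z) (x : Z) :
    0 ≤ sSup (rad U x) := le_csSup (rad_bdd U x) (rad_zero U x)

lemma sSup_rad_le {Z : Type} [MetricSpace Z] (U : Z → Set Z) (x : Z) :
    sSup (rad U x) ≤ 1 := csSup_le ⟨0, rad_zero U x⟩ fun _ hr => hr.2.1

lemma sSup_rad_lip {Z : Type} [MetricSpace Z] (U : Z → Set Z) (x y : Z) :
    sSup (rad U x) ≤ sSup (rad U y) + dist x y := by
  apply csSup_le ⟨0, rad_zero U x⟩
  rintro r ⟨h0, h1, z, hz⟩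
  by_cases hr : r ≤ dist x y
  · linarith [sSup_rad_nonneg U y]
  · have hmem : r - dist x y ∈ rad U y := by
      refine ⟨by linarith, by linarith [dist_nonneg (x := x) (y := y)], z, ?_⟩
      refine subset_trans ?_ hz
      intro w hw
      rw [Metric.mem_ball] at hw ⊢
      have := dist_triangle w y x
      rw [dist_comm y x] at this
      linarith
    linarith [le_csSup (rad_bdd U y) hmem]

lemma sSup_rad_pos {Z : Type} [MetricSpace Z] {U : Z → Set Z} (hU : Cov U) (x : Z) :
    0 < sSup (rad U x) := by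
  obtain ⟨r, hr, hsub⟩ := Metric.isOpen_iff.1 (hU x).1 x (hU x).2
  have hmem : min r 1 ∈ rad U x :=
    ⟨by positivity, min_le_right _ _, x,
      (Metric.ball_subset_ball (min_le_left _ _)).trans hsub⟩
  exact lt_of_lt_of_le (by positivity) (le_csSup (rad_bdd U x) hmem)

end CoversAux

open CoversAux

/-- Lebesgue function of a cover. PROOF: `eps x = (1/2) sup {r in [0,1] : exists z, ball x r subset U z}`;
it is positive, at most `1/2`, and `1`-Lipschitz since `ball y (r - dist x y) subset ball x r`. -/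
theorem exists_eps {Z : Type} [MetricSpace Z] {U : Z → Set Z} (hU : Cov U) :
    ∃ ε : Z → ℝ, Continuous ε ∧ (∀ z, 0 < ε z ∧ ε z ≤ 1) ∧ (∀ x y, |ε x - ε y| ≤ dist x y) ∧
      ∀ x, ∃ z, Metric.ball x (ε x) ⊆ U z := by
  have hlip : ∀ x y : Z, |sSup (rad U x) / 2 - sSup (rad U y) / 2| ≤ dist x y := by
    intro x y
    have h1 := sSup_rad_lip U x y
    have h2 := sSup_rad_lip U y x
    rw [dist_comm y x] at h2
    have h3 := dist_nonneg (x := x) (y := y)
    rw [abs_le]
    constructor <;> linarith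
  refine ⟨fun x => sSup (rad U x) / 2, ?_, ?_, hlip, ?_⟩
  · have : LipschitzWith 1 fun x : Z => sSup (rad U x) / 2 := by
      apply LipschitzWith.of_dist_le_mul
      intro x y
      rw [Real.dist_eq, NNReal.coe_one, one_mul]
      exact hlip x y
    exact this.continuous
  · intro z
    have h1 := sSup_rad_pos hU z
    have h2 := sSup_rad_le U z
    constructor <;> linarith
  · intro x
    have h1 := sSup_rad_pos hU x
    obtain ⟨r, ⟨_, _, z, hz⟩, hr⟩ := exists_lt_of_lt_csSup (b := sSup (rad U x) / 2)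
      ⟨0, rad_zero U x⟩ (by linarith)
    exact ⟨z, (Metric.ball_subset_ball hr.le).trans hz⟩

/-- PROOF: `U z = ball z (r z)` with `r z > 0` such that `2 r z < eps x` for all `x` in
`ball z (r z)` (continuity of `eps`). -/
theorem exists_cov {Z : Type} [MetricSpace Z] {ε : Z → ℝ} (hε : Continuous ε)
    (hp : ∀ z, 0 < ε z) :
    ∃ U : Z → Set Z, Cov U ∧ ∀ z, ∀ x ∈ U z, ∀ y ∈ U z, dist x y < ε x := by
  have h : ∀ z : Z, ∃ r > 0, ∀ x ∈ Metric.ball z r, 2 * r < ε x := by
    intro z
    have h1 : ∀ᶠ x in 𝓝 z, ε z / 2 < ε x :=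
      hε.continuousAt.eventually_const_lt (by linarith [hp z])
    obtain ⟨ρ, hρ, hsub⟩ := Metric.eventually_nhds_iff_ball.1 h1
    refine ⟨min ρ (ε z / 4), lt_min hρ (by linarith [hp z]), ?_⟩
    intro x hx
    have h2 := hsub x (Metric.ball_subset_ball (min_le_left _ _) hx)
    have h3 := min_le_right ρ (ε z / 4)
    linarith
  choose r hr hr2 using h
  refine ⟨fun z => Metric.ball z (r z), fun z => ⟨Metric.isOpen_ball, Metric.mem_ball_self (hr z)⟩,
    ?_⟩
  intro z x hx y hy
  have h1 := hr2 z x hx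
  rw [Metric.mem_ball] at hx hy
  have h2 := dist_triangle_right x y z
  linarith

/-- star refinement. PROOF: choose a metric, take `eps` from `exists_eps` for `U` and
`V a = ball a (eps a / 8)`: if `V a` meets `V b` then `eps b <= 2 eps a` and
`V b subset ball a (eps a)`. -/
theorem exists_star {Z : Type} [TopologicalSpace Z] [TopologicalSpace.MetrizableSpace Z] {U : Z → Set Z}
    (hU : Cov U) :
    ∃ V : Z → Set Z, Cov V ∧ ∀ a, ∃ z, ∀ b, (V a ∩ V b).Nonempty → V b ⊆ U z := by
  let _ : MetricSpace Z := TopologicalSpace.metrizableSpaceMetric Z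
  obtain ⟨ε, _, hp, hl, hb⟩ := exists_eps hU
  refine ⟨fun a => Metric.ball a (ε a / 8), fun a => ⟨Metric.isOpen_ball,
    Metric.mem_ball_self (by linarith [(hp a).1])⟩, ?_⟩
  intro a
  obtain ⟨z, hz⟩ := hb a
  refine ⟨z, ?_⟩
  rintro b ⟨w, hwa, hwb⟩
  rw [Metric.mem_ball] at hwa hwb
  refine subset_trans ?_ hz
  intro y hy
  rw [Metric.mem_ball] at hy ⊢
  have h1 : dist a b ≤ dist w a + dist w b := by
    have := dist_triangle_left a b w
    exact this
  have h2 := (abs_le.1 (hl a b)).1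
  have h3 : dist y a ≤ dist y b + dist a b := by
    have := dist_triangle y b a
    rwa [dist_comm b a] at this
  have h4 := (hp a).1
  linarith

/-- a star refinement composes. PROOF: from the star property (take `a` = the member containing the
middle point for the first pair). -/
theorem near_trans {M Z : Type} {U V : Z → Set Z}
    (hs : ∀ a, ∃ z, ∀ b, (V a ∩ V b).Nonempty → V b ⊆ U z) {f g h : M → Z}
    (h1 : Near V f g) (h2 : Near V g h) : Near U f h := by
  intro m
  obtain ⟨a, ha1, ha2⟩ := h1 m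
  obtain ⟨b, hb1, hb2⟩ := h2 m
  obtain ⟨z, hz⟩ := hs a
  exact ⟨z, hz a ⟨_, ha1, ha1⟩ ha1, hz b ⟨_, ha2, hb1⟩ hb2⟩

theorem Near.symm {M Z : Type} {U : Z → Set Z} {f g : M → Z} (h : Near U f g) : Near U g f := by
  intro m
  obtain ⟨z, h1, h2⟩ := h m
  exact ⟨z, h2, h1⟩

theorem Cov.inter {Z : Type} [TopologicalSpace Z] {U V : Z → Set Z} (hU : Cov U) (hV : Cov V) :
    Cov (fun z => U z ∩ V z) := by
  intro z
  exact ⟨(hU z).1.inter (hV z).1, (hU z).2, (hV z).2⟩

/-- pull back of a cover under a continuous map -/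
theorem Cov.pull {M Z : Type} [TopologicalSpace M] [TopologicalSpace Z] {U : Z → Set Z}
    (hU : Cov U) {C : M → Z} (hC : Continuous C) : Cov (fun m => C ⁻¹' U (C m)) := by
  intro m
  exact ⟨(hU (C m)).1.preimage hC, (hU (C m)).2⟩

/-- a positive continuous function below a locally satisfiable antitone requirement. PROOF:
`exists_continuous_forall_mem_convex_of_local_const` with the convex sets `{r | 0 < r and P z r}`
(metrizable spaces are paracompact and normal). -/
theorem exists_below {Z : Type} [TopologicalSpace Z] [TopologicalSpace.MetrizableSpace Z] (P : Z → ℝ → Prop)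
    (anti : ∀ z r s, 0 < r → r ≤ s → P z s → P z r)
    (loc : ∀ z, ∃ r > 0, ∀ᶠ z' in 𝓝 z, P z' r) :
    ∃ ε : Z → ℝ, Continuous ε ∧ (∀ z, 0 < ε z ∧ ε z ≤ 1) ∧ ∀ z, P z (ε z) := by
  let _ : MetricSpace Z := TopologicalSpace.metrizableSpaceMetric Z
  have hconv : ∀ z : Z, Convex ℝ {r : ℝ | 0 < r ∧ r ≤ 1 ∧ P z r} := by
    intro z
    apply Set.OrdConnected.convex
    constructor
    rintro a ⟨ha, _, _⟩ b ⟨_, hb1, hbP⟩ c ⟨hac, hcb⟩
    exact ⟨lt_of_lt_of_le ha hac, hcb.trans hb1, anti z c b (lt_of_lt_of_le ha hac) hcb hbP⟩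
  obtain ⟨g, hg⟩ := exists_continuous_forall_mem_convex_of_local_const
    (t := fun z : Z => {r : ℝ | 0 < r ∧ r ≤ 1 ∧ P z r}) hconv (fun z => by
      obtain ⟨r, hr, hev⟩ := loc z
      refine ⟨min r 1, ?_⟩
      filter_upwards [hev] with z' hz'
      exact ⟨by positivity, min_le_right _ _, anti z' _ r (by positivity) (min_le_left _ _) hz'⟩)
  exact ⟨g, g.continuous, fun z => ⟨(hg z).1, (hg z).2.1⟩, fun z => (hg z).2.2⟩

/-- two closed disjoint sets: a cover which separates the closed set `C` from `A` strongly: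
whatever is `U`-close to a point of `C` stays in a closed set `D` disjoint from `A`. PROOF: metric,
`D = {x | dist x C <= dist x A}` (infDist, cases of empty sets apart), `U z` = `Cᶜ` for `z` not in
`C`, and for `z` in `C` the interior of `D` intersected with a small ball; care: a member `U z` with
`z` not in `C` does not meet `C`. -/
theorem exists_cov_sep {Z : Type} [TopologicalSpace Z] [TopologicalSpace.MetrizableSpace Z] {C A : Set Z}
    (hC : IsClosed C) (hA : IsClosed A) (hd : Disjoint C A) :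
    ∃ (U : Z → Set Z) (D : Set Z), Cov U ∧ IsClosed D ∧ Disjoint D A ∧ C ⊆ interior D ∧
      ∀ x ∈ C, ∀ y, (∃ z, x ∈ U z ∧ y ∈ U z) → y ∈ D := by
  classical
  let _ : MetricSpace Z := TopologicalSpace.metrizableSpaceMetric Z
  obtain ⟨u, hu, hCu, huA⟩ := normal_exists_closure_subset hC hA.isOpen_compl
    (Set.subset_compl_iff_disjoint_right.2 hd)
  refine ⟨fun z => if z ∈ C then u else Cᶜ, closure u, ?_, isClosed_closure,
    Set.subset_compl_iff_disjoint_right.1 huA, ?_, ?_⟩
  · intro z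
    by_cases hz : z ∈ C
    · simp only [if_pos hz]
      exact ⟨hu, hCu hz⟩
    · simp only [if_neg hz]
      exact ⟨hC.isOpen_compl, hz⟩
  · exact hCu.trans (interior_maximal subset_closure hu)
  · rintro x hx y ⟨z, hxz, hyz⟩
    by_cases hz : z ∈ C
    · simp only [if_pos hz] at hyz
      exact subset_closure hyz
    · simp only [if_neg hz] at hxz
      exact absurd hx hxz

end Pool.Agent.Tor
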