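import Pool.Agent.Lib.Tor.Polish
import Pool.Agent.Lib.Tor.Covers

/-! MODULE Tor.CodePush (1.5 h): pushing closed sets into `Om`, relatively. -/

open Set Topology Filter

namespace Pool.Agent.Tor

namespace CodePushAux

theorem N_zero {M : Type} [TopologicalSpace M] [T2Space M] {N : M × I × W → M}
    (h2 : ∀ (x : ℕ → M) (t : ℕ → I) (e : ℕ → W) (y : M), Tendsto t atTop (𝓝 0) →
      (Tendsto x atTop (𝓝 y) ↔ Tendsto (fun k => N (x k, t k, e k)) atTop (𝓝 y)))
    (x : M) (e : W) : N (x, 0, e) = x := by
  have h := (h2 (fun _ => x) (fun _ => 0) (fun _ => e) x tendsto_const_nhds).1 tendsto_const_nhds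
  exact tendsto_nhds_unique tendsto_const_nhds h

theorem exists_dd {M : Type} [TopologicalSpace M] [TopologicalSpace.MetrizableSpace M]
    {P : Set M} (hP : IsClosed P) :
    ∃ dd : M → ℝ, Continuous dd ∧ (∀ x, 0 ≤ dd x) ∧ ∀ x, dd x = 0 ↔ x ∈ P := by
  let _ : MetricSpace M := TopologicalSpace.metrizableSpaceMetric M
  rcases P.eq_empty_or_nonempty with h | h
  · refine ⟨fun _ => 1, continuous_const, fun _ => zero_le_one, fun x => ?_⟩
    rw [h]
    simp
  · exact ⟨fun x => Metric.infDist x P, Metric.continuous_infDist_pt P,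
      fun x => Metric.infDist_nonneg, fun x => (hP.mem_iff_infDist_zero h).symm⟩

end CodePushAux

open CodePushAux

/-- PROOF. Let `N` be the coded operator; `N (x,0,e) = x` (constant sequences, T2). Let `e : D -> W` be a
closed embedding (`exists_emb_W`, `D` is Polish, `hD.polishSpace`). On the metrizable space
`Z = {x : D // x not in P}` use `exists_below` with `Pr x rho := exists z, for all s : I,
s <= rho -> N (x, s, e x) in V z \ P` (locally true by continuity of `N` at `(x,0,e x)`, `z = x`):
continuous `eps : Z -> (0,1]`. Let `tt x = min (eps x) (infDist x P)` for `x` in `D \ P` and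
`tt x = 0` on `P` (if `P` is empty take `tt = eps`); `tt : D -> I` is continuous
(on the open set `D \ P` clear, at the points of `P` it is at most `dist (., P)`), and
`tt x = 0` iff `x in P`. `G (x,r) = N (x, r * tt x, e x)`.
CLOSED EMBEDDING of `g = G (., 1)`. Injective: `g x = g x'`. If both are in `P`, `x = x'`; if exactly one
is in `P`, say `x`, then `g x = x in P` but `g x' not in P`; if none is in `P`, apply `Reads` to
the alternating sequence (`y = g x`, `tau = min (tt x) (tt x')`): the codes `e x, e x', e x, ...`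
converge, so `e x = e x'`. Closed map: `M`, `D` are metrizable, so sequences suffice: let `g (x_k) -> y`;
it is enough that `x_k` has a convergent subsequence. Pass to a subsequence with `tt (x_k) -> s`
(compactness of `I`). If `s > 0`, drop finitely many terms, `Reads` gives convergence of `e (x_k)`, so of
`x_k` (closed embedding). If `s = 0`, the second property of `Coded` gives `x_k -> y` in `M`, so in `D`
(`D` closed). Use `IsClosedEmbedding.of_continuous_injective_isClosedMap` (compare
`PolishAux.closedEmb` in Polish.lean: for a complete metric on `D` it suffices that convergence of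
`g (x_k)` implies `CauchySeq x`; or adapt its proof). -/
theorem code_push {M : Type} [TopologicalSpace M] [PolishSpace M] {Om : Set M} (hcod : Coded M Om)
    {V : M → Set M} (hV : Cov V) {D P : Set M} (hD : IsClosed D) (hP : IsClosed P) (hPD : P ⊆ D)
    (hPO : P ⊆ Om) :
    ∃ G : D × I → M, Continuous G ∧ (∀ x, G (x, 0) = x) ∧
      (∀ (x : D) (t : I), (x : M) ∈ P → G (x, t) = x) ∧
      IsClosedEmbedding (fun x => G (x, 1)) ∧ (∀ x, G (x, 1) ∈ Om) ∧
      ∀ x, ∃ z, ∀ t, G (x, t) ∈ V z := by
  classical
  obtain ⟨N, hN, hN2, hNO, hR⟩ := hcod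
  have hN0 : ∀ x e, N (x, 0, e) = x := fun x e => N_zero hN2 x e
  have hMm : TopologicalSpace.MetrizableSpace M := inferInstance
  have hDm : TopologicalSpace.MetrizableSpace D := inferInstance
  have hZm : TopologicalSpace.MetrizableSpace {x : D // (x : M) ∉ P} :=
    Topology.IsEmbedding.subtypeVal.metrizableSpace
  have hDp : PolishSpace D := hD.polishSpace
  obtain ⟨e, he⟩ := exists_emb_W D
  obtain ⟨dd, hdd, hdd0, hddP⟩ := exists_dd hP
  -- the bound off `P`
  obtain ⟨ε, hε, hε1, hεP⟩ := exists_below (Z := {x : D // (x : M) ∉ P})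
    (fun x ρ => ∃ z, ∀ s : I, (s : ℝ) ≤ ρ → N ((x : D), s, e x) ∈ V z \ P)
    (by
      rintro x r s - hrs ⟨z, hz⟩
      exact ⟨z, fun u hu => hz u (hu.trans hrs)⟩)
    (by
      intro x
      let Ψ : {x : D // (x : M) ∉ P} × I → M := fun q => N (((q.1 : D) : M), q.2, e q.1)
      have hΨ : Continuous Ψ := by
        refine hN.comp ?_
        refine Continuous.prodMk ?_ (Continuous.prodMk continuous_snd ?_)
        · exact continuous_subtype_val.comp (continuous_subtype_val.comp continuous_fst)
        · exact he.continuous.comp (continuous_subtype_val.comp continuous_fst)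
      have hopen : IsOpen (Ψ ⁻¹' (V ((x : D) : M) \ P)) :=
        ((hV _).1.sdiff hP).preimage hΨ
      have hmem : (x, (0 : I)) ∈ Ψ ⁻¹' (V ((x : D) : M) \ P) := by
        change N (((x : D) : M), 0, e x) ∈ V ((x : D) : M) \ P
        rw [hN0]
        exact ⟨(hV _).2, x.2⟩
      have hnh := hopen.mem_nhds hmem
      rw [nhds_prod_eq, Filter.mem_prod_iff] at hnh
      obtain ⟨O, hO, S, hS, hOS⟩ := hnh
      obtain ⟨δ, hδ, hball⟩ := Metric.mem_nhds_iff.1 hS
      refine ⟨δ / 2, by positivity, ?_⟩
      filter_upwards [hO] with x' hx'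
      refine ⟨((x : D) : M), fun s hs => ?_⟩
      refine hOS (Set.mk_mem_prod hx' (hball ?_))
      rw [Metric.mem_ball, Subtype.dist_eq, Real.dist_eq]
      change |(s : ℝ) - 0| < δ
      rw [sub_zero, abs_of_nonneg s.2.1]
      linarith)
  -- the time function
  let tt : D → ℝ := fun x => if hx : (x : M) ∈ P then 0 else min (ε ⟨x, hx⟩) (dd x)
  have ttP : ∀ x : D, (x : M) ∈ P → tt x = 0 := fun x hx => dif_pos hx
  have ttO : ∀ (x : D) (hx : (x : M) ∉ P), tt x = min (ε ⟨x, hx⟩) (dd x) := fun x hx => dif_neg hx
  have tt0 : ∀ x, 0 ≤ tt x := by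
    intro x
    by_cases hx : (x : M) ∈ P
    · rw [ttP x hx]
    · rw [ttO x hx]
      exact le_min (hε1 _).1.le (hdd0 _)
  have tt1 : ∀ x, tt x ≤ 1 := by
    intro x
    by_cases hx : (x : M) ∈ P
    · rw [ttP x hx]; exact zero_le_one
    · rw [ttO x hx]
      exact (min_le_left _ _).trans (hε1 _).2
  have ttd : ∀ x, tt x ≤ dd x := by
    intro x
    by_cases hx : (x : M) ∈ P
    · rw [ttP x hx]; exact hdd0 _
    · rw [ttO x hx]
      exact min_le_right _ _
  have ttpos : ∀ x : D, (x : M) ∉ P → 0 < tt x := by
    intro x hx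
    rw [ttO x hx]
    refine lt_min (hε1 _).1 (lt_of_le_of_ne (hdd0 _) ?_)
    intro h
    exact hx ((hddP _).1 h.symm)
  have htt : Continuous tt := by
    rw [continuous_iff_continuousAt]
    intro x
    by_cases hx : (x : M) ∈ P
    · rw [ContinuousAt, ttP x hx]
      have h1 : Tendsto (fun y : D => dd y) (𝓝 x) (𝓝 0) := by
        have := (hdd.comp continuous_subtype_val).tendsto x
        rwa [Function.comp_apply, (hddP _).2 hx] at this
      exact squeeze_zero tt0 ttd h1
    · have hU : IsOpen {y : D | (y : M) ∉ P} :=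
        hP.isOpen_compl.preimage continuous_subtype_val
      have hc : ContinuousOn tt {y : D | (y : M) ∉ P} := by
        rw [continuousOn_iff_continuous_domRestrict]
        have : ({y : D | (y : M) ∉ P}).domRestrict tt =
            fun y : {x : D // (x : M) ∉ P} => min (ε y) (dd (y : D)) := by
          funext y
          exact ttO y y.2
        rw [this]
        exact hε.min (hdd.comp (continuous_subtype_val.comp continuous_subtype_val))
      exact hc.continuousAt (hU.mem_nhds hx)
  let τ : D → I := fun x => ⟨tt x, tt0 x, tt1 x⟩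
  have hτ : Continuous τ := htt.subtype_mk _
  have hτP : ∀ x : D, (x : M) ∈ P → τ x = 0 := fun x hx => Subtype.ext (ttP x hx)
  have hτpos : ∀ x : D, (x : M) ∉ P → 0 < τ x := by
    intro x hx
    change (0 : ℝ) < tt x
    exact ttpos x hx
  have hoff : ∀ (x : D) (hx : (x : M) ∉ P), ∃ z, ∀ s : I, N ((x : M), s * τ x, e x) ∈ V z \ P := by
    intro x hx
    obtain ⟨z, hz⟩ := hεP ⟨x, hx⟩
    refine ⟨z, fun s => hz _ ?_⟩
    have h1 : ((s * τ x : I) : ℝ) = (s : ℝ) * tt x := rfl
    rw [h1]
    have h2 : tt x ≤ ε ⟨x, hx⟩ := by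
      rw [ttO x hx]; exact min_le_left _ _
    have h3 : (s : ℝ) * tt x ≤ 1 * tt x := mul_le_mul_of_nonneg_right s.2.2 (tt0 x)
    linarith
  let g : D → M := fun x => N ((x : M), τ x, e x)
  have hg : Continuous g := hN.comp
    (continuous_subtype_val.prodMk (hτ.prodMk he.continuous))
  have hgP : ∀ x : D, (x : M) ∈ P → g x = x := by
    intro x hx
    change N ((x : M), τ x, e x) = x
    rw [hτP x hx, hN0]
  have hgO : ∀ x : D, (x : M) ∉ P → g x ∉ P := by
    intro x hx
    obtain ⟨z, hz⟩ := hoff x hx
    have := hz 1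
    rw [one_mul] at this
    exact this.2
  have hinj : Function.Injective g := by
    intro x x' hxx
    by_cases hx : (x : M) ∈ P
    · by_cases hx' : (x' : M) ∈ P
      · apply Subtype.ext
        rw [← hgP x hx, ← hgP x' hx', hxx]
      · exfalso
        apply hgO x' hx'
        rw [← hxx, hgP x hx]
        exact hx
    · by_cases hx' : (x' : M) ∈ P
      · exfalso
        apply hgO x hx
        rw [hxx, hgP x' hx']
        exact hx'
      · apply he.injective
        let a : ℕ → D := fun k => if Even k then x else x'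
        have ha : ∀ k, g (a k) = g x := by
          intro k
          by_cases hk : Even k
          · simp only [a, if_pos hk]
          · simp only [a, if_neg hk]; exact hxx.symm
        have h1 : Tendsto (fun k => N ((a k : M), τ (a k), e (a k))) atTop (𝓝 (g x)) := by
          have : (fun k => N ((a k : M), τ (a k), e (a k))) = fun _ => g x := funext ha
          rw [this]; exact tendsto_const_nhds
        obtain ⟨w, hw⟩ := hR (fun k => (a k : M)) (fun k => τ (a k)) (fun k => e (a k))
          (min (tt x) (tt x')) (g x) (lt_min (ttpos x hx) (ttpos x' hx'))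
          (by
            intro k
            by_cases hk : Even k
            · simp only [a, if_pos hk]; exact min_le_left _ _
            · simp only [a, if_neg hk]; exact min_le_right _ _) h1
        have h2 : Tendsto (fun k : ℕ => e (a (2 * k))) atTop (𝓝 w) :=
          hw.comp (tendsto_id.const_mul_atTop' (by norm_num : 0 < 2))
        have h3 : Tendsto (fun k : ℕ => e (a (2 * k + 1))) atTop (𝓝 w) :=
          hw.comp ((tendsto_add_atTop_nat 1).comp (tendsto_id.const_mul_atTop' (by norm_num : 0 < 2)))
        have e1 : ∀ k : ℕ, a (2 * k) = x := fun k => if_pos (even_two_mul k)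
        have e2 : ∀ k : ℕ, a (2 * k + 1) = x' := fun k => if_neg (by simp)
        simp only [e1] at h2
        simp only [e2] at h3
        rw [tendsto_nhds_unique tendsto_const_nhds h2, tendsto_nhds_unique tendsto_const_nhds h3]
  have hsub : ∀ (x : ℕ → D) (y : M), Tendsto (fun k => g (x k)) atTop (𝓝 y) →
      ∃ φ : ℕ → ℕ, Tendsto φ atTop atTop ∧ ∃ a : D, Tendsto (fun k => x (φ k)) atTop (𝓝 a) := by
    intro x y hy
    obtain ⟨s, -, φ, hφ, hs⟩ := (isCompact_univ (X := I)).tendsto_subseq
      (x := fun k => τ (x k)) (fun k => mem_univ _)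
    have hφt := hφ.tendsto_atTop
    by_cases hs0 : s = 0
    · rw [hs0] at hs
      have h1 := (hN2 (fun k => (x (φ k) : M)) (fun k => τ (x (φ k))) (fun k => e (x (φ k))) y
        hs).2 (hy.comp hφt)
      have hyD : y ∈ D := hD.mem_of_tendsto h1 (Eventually.of_forall fun k => (x (φ k)).2)
      exact ⟨φ, hφt, ⟨y, hyD⟩, tendsto_subtype_rng.2 h1⟩
    · have hspos : (0 : ℝ) < s := by
        rcases s.2.1.lt_or_eq with h | h
        · exact h
        · exact absurd (Subtype.ext h.symm) hs0
      have hs' : Tendsto (fun k => (τ (x (φ k)) : ℝ)) atTop (𝓝 (s : ℝ)) :=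
        (continuous_subtype_val.tendsto s).comp hs
      obtain ⟨K, hK⟩ := eventually_atTop.1
        (hs'.eventually (lt_mem_nhds (show (s : ℝ) / 2 < s by linarith)))
      have hψ : Tendsto (fun k => φ (k + K)) atTop atTop :=
        hφt.comp (tendsto_add_atTop_nat K)
      obtain ⟨w, hw⟩ := hR (fun k => (x (φ (k + K)) : M)) (fun k => τ (x (φ (k + K))))
        (fun k => e (x (φ (k + K)))) ((s : ℝ) / 2) y (by linarith)
        (fun k => (hK (k + K) (by omega)).le) (hy.comp hψ)
      have hwr : w ∈ range e := he.isClosed_range.mem_of_tendsto hw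
        (Eventually.of_forall fun k => mem_range_self _)
      obtain ⟨a, rfl⟩ := hwr
      exact ⟨fun k => φ (k + K), hψ, a, he.isEmbedding.tendsto_nhds_iff.2 hw⟩
  have hclosed : IsClosedMap g := by
    intro C hC
    let _ : MetricSpace M := TopologicalSpace.metrizableSpaceMetric M
    rw [← isSeqClosed_iff_isClosed]
    intro y z hy hz
    choose x hx using hy
    have h1 : Tendsto (fun k => g (x k)) atTop (𝓝 z) := by
      have : (fun k => g (x k)) = y := funext fun k => (hx k).2
      rw [this]
      exact hz
    obtain ⟨φ, hφ, a, ha⟩ := hsub x z h1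
    refine ⟨a, hC.mem_of_tendsto ha (Eventually.of_forall fun k => (hx _).1), ?_⟩
    exact tendsto_nhds_unique ((hg.tendsto a).comp ha) (h1.comp hφ)
  have hone : ∀ x : D, N ((x : M), (1 : I) * τ x, e x) = g x := by
    intro x
    rw [one_mul]
  refine ⟨fun q => N ((q.1 : M), q.2 * τ q.1, e q.1), ?_, ?_, ?_, ?_, ?_, ?_⟩
  · refine hN.comp ?_
    refine (continuous_subtype_val.comp continuous_fst).prodMk ((continuous_snd.mul
      (hτ.comp continuous_fst)).prodMk (he.continuous.comp continuous_fst))
  · intro x
    change N ((x : M), (0 : I) * τ x, e x) = x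
    rw [zero_mul, hN0]
  · intro x t hx
    change N ((x : M), t * τ x, e x) = x
    rw [hτP x hx, mul_zero, hN0]
  · have : (fun x : D => (fun q : D × I => N ((q.1 : M), q.2 * τ q.1, e q.1)) (x, 1)) = g :=
      funext hone
    rw [this]
    exact IsClosedEmbedding.of_continuous_injective_isClosedMap hg hinj hclosed
  · intro x
    change N ((x : M), (1 : I) * τ x, e x) ∈ Om
    rw [hone]
    by_cases hx : (x : M) ∈ P
    · rw [hgP x hx]; exact hPO hx
    · exact hNO _ _ _ (hτpos x hx)
  · intro x
    by_cases hx : (x : M) ∈ P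
    · refine ⟨x, fun t => ?_⟩
      change N ((x : M), t * τ x, e x) ∈ V x
      rw [hτP x hx, mul_zero, hN0]
      exact (hV _).2
    · obtain ⟨z, hz⟩ := hoff x hx
      exact ⟨z, fun t => (hz t).1⟩

end Pool.Agent.Tor
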