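import Pool.Agent.Lib.Tor.Basic

/-! The Dugundji extension theorem and closure properties of `AE`. -/

open Set Topology Filter

namespace Pool.Agent.Tor

namespace DugundjiAux

/-- the convex constraint at a point off `A` -/
def con {G : Type} [NormedAddCommGroup G] [NormedSpace ℝ G] {X : Type} [MetricSpace X]
    (A : Set X) (f : A → G) (y : X) : Set G :=
  convexHull ℝ (f '' {a : A | dist y a < 2 * Metric.infDist y A})

theorem exists_sel {G : Type} [NormedAddCommGroup G] [NormedSpace ℝ G] {X : Type} [MetricSpace X]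
    {A : Set X} (hA : IsClosed A) (hne : A.Nonempty) (f : A → G) :
    ∃ g : C(((Aᶜ : Set X) : Type), G), ∀ y : ((Aᶜ : Set X) : Type), g y ∈ con A f (y : X) := by
  apply exists_continuous_forall_mem_convex_of_local_const
  · intro x
    exact convex_convexHull ℝ _
  · intro x
    have hpos : 0 < Metric.infDist (x : X) A := (hA.notMem_iff_infDist_pos hne).1 x.2
    obtain ⟨a, ha, hlt⟩ := (Metric.infDist_lt_iff hne).1
      (show Metric.infDist (x : X) A < 2 * Metric.infDist (x : X) A by linarith)
    refine ⟨f ⟨a, ha⟩, ?_⟩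
    have hc1 : Continuous (fun y : ((Aᶜ : Set X) : Type) => dist (y : X) a) := by fun_prop
    have hc2 : Continuous (fun y : ((Aᶜ : Set X) : Type) => 2 * Metric.infDist (y : X) A) :=
      continuous_const.mul ((Metric.continuous_infDist_pt A).comp continuous_subtype_val)
    have h1 : ∀ᶠ y : ((Aᶜ : Set X) : Type) in 𝓝 x, dist (y : X) a < 2 * Metric.infDist (y : X) A :=
      (isOpen_lt hc1 hc2).mem_nhds hlt
    filter_upwards [h1] with y hy
    exact subset_convexHull ℝ _ ⟨⟨a, ha⟩, hy, rfl⟩

end DugundjiAux

open DugundjiAux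

/-- Dugundji's theorem: a nonempty convex set in a normed space is an absolute extensor -/
theorem ae_convex {G : Type} [NormedAddCommGroup G] [NormedSpace ℝ G] {K : Set G}
    (hK : Convex ℝ K) (hne : K.Nonempty) : AE K := by
  classical
  intro X _ A hA f hf
  rcases A.eq_empty_or_nonempty with rfl | hAne
  · obtain ⟨k, hk⟩ := hne
    exact ⟨fun _ => ⟨k, hk⟩, continuous_const, fun a => (Set.notMem_empty _ a.2).elim⟩
  · let f0 : A → G := fun a => (f a : G)
    have hf0 : Continuous f0 := continuous_subtype_val.comp hf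
    obtain ⟨g, hg⟩ := exists_sel hA hAne f0
    have hconK : ∀ y, con A f0 y ⊆ K := by
      intro y
      apply convexHull_min _ hK
      rintro _ ⟨a, _, rfl⟩
      exact (f a).2
    let gg : X → G := fun x => if h : x ∈ A then f0 ⟨x, h⟩ else g ⟨x, h⟩
    have hggK : ∀ x, gg x ∈ K := by
      intro x
      by_cases h : x ∈ A
      · simp only [gg, dif_pos h]
        exact (f ⟨x, h⟩).2
      · simp only [gg, dif_neg h]
        exact hconK x (hg ⟨x, h⟩)
    have hcont : Continuous gg := by
      rw [continuous_iff_continuousAt]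
      intro x
      by_cases h : x ∈ A
      · rw [Metric.continuousAt_iff]
        intro ε hε
        obtain ⟨δ, hδ, hd⟩ := (Metric.continuousAt_iff.1 hf0.continuousAt : ∀ ε > 0, ∃ δ > 0,
          ∀ ⦃y : A⦄, dist y ⟨x, h⟩ < δ → dist (f0 y) (f0 ⟨x, h⟩) < ε) ε hε
        refine ⟨δ / 3, by positivity, ?_⟩
        intro y hy
        have e1 : gg x = f0 ⟨x, h⟩ := by simp only [gg, dif_pos h]
        rw [e1]
        by_cases hyA : y ∈ A
        · have e2 : gg y = f0 ⟨y, hyA⟩ := by simp only [gg, dif_pos hyA]
          rw [e2]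
          apply hd
          change dist y x < δ
          linarith
        · have e2 : gg y = g ⟨y, hyA⟩ := by simp only [gg, dif_neg hyA]
          rw [e2]
          have hsub : con A f0 y ⊆ Metric.ball (f0 ⟨x, h⟩) ε := by
            apply convexHull_min _ (convex_ball _ _)
            rintro _ ⟨a, ha, rfl⟩
            rw [Metric.mem_ball]
            apply hd
            change dist (a : X) x < δ
            have h1 : Metric.infDist y A ≤ dist y x := Metric.infDist_le_dist_of_mem h
            have h2 : dist (a : X) x ≤ dist (a : X) y + dist y x := dist_triangle _ _ _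
            have h3 : dist y (a : X) < 2 * Metric.infDist y A := ha
            rw [dist_comm] at h3
            linarith
          exact Metric.mem_ball.1 (hsub (hg ⟨y, hyA⟩))
      · have hemb := hA.isOpen_compl.isOpenEmbedding_subtypeVal
        have h1 : ContinuousAt (gg ∘ (Subtype.val : ((Aᶜ : Set X) : Type) → X)) ⟨x, h⟩ := by
          have e : gg ∘ (Subtype.val : ((Aᶜ : Set X) : Type) → X) = g := by
            funext y
            have hy : (y : X) ∉ A := y.2
            simp only [Function.comp, gg, dif_neg hy]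
          rw [e]
          exact g.continuous.continuousAt
        exact (hemb.continuousAt_iff (x := (⟨x, h⟩ : ((Aᶜ : Set X) : Type)))).1 h1
    refine ⟨fun x => ⟨gg x, hggK x⟩, hcont.subtype_mk _, ?_⟩
    intro a
    apply Subtype.ext
    simp only [gg, dif_pos a.2]
    rfl

theorem AE.retract {Y Z : Type} [TopologicalSpace Y] [TopologicalSpace Z] (hZ : AE Z)
    (i : Y → Z) (r : Z → Y) (hi : Continuous i) (hr : Continuous r) (h : ∀ y, r (i y) = y) :
    AE Y := by
  intro X _ A hA f hf
  obtain ⟨g, hg, hgf⟩ := hZ X A hA (fun a => i (f a)) (hi.comp hf)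
  exact ⟨fun x => r (g x), hr.comp hg, fun a => by simp only [hgf, h]⟩

theorem AE.homeo {Y Z : Type} [TopologicalSpace Y] [TopologicalSpace Z] (hZ : AE Z)
    (e : Y ≃ₜ Z) : AE Y :=
  hZ.retract e e.symm e.continuous e.symm.continuous (fun y => e.symm_apply_apply y)

theorem AE.pi {ι : Type} {Y : ι → Type} [∀ i, TopologicalSpace (Y i)] (h : ∀ i, AE (Y i)) :
    AE (∀ i, Y i) := by
  intro X _ A hA f hf
  choose g hg hgf using fun i => h i X A hA (fun a => f a i) ((continuous_apply i).comp hf)
  exact ⟨fun x i => g i x, continuous_pi hg, fun a => funext fun i => hgf i a⟩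

theorem AE.prod {Y Z : Type} [TopologicalSpace Y] [TopologicalSpace Z] (hY : AE Y) (hZ : AE Z) :
    AE (Y × Z) := by
  intro X _ A hA f hf
  obtain ⟨g1, hg1, e1⟩ := hY X A hA (fun a => (f a).1) (continuous_fst.comp hf)
  obtain ⟨g2, hg2, e2⟩ := hZ X A hA (fun a => (f a).2) (continuous_snd.comp hf)
  exact ⟨fun x => (g1 x, g2 x), hg1.prodMk hg2, fun a => Prod.ext (e1 a) (e2 a)⟩

/-- a normed space is an absolute extensor -/
theorem ae_normed (G : Type) [NormedAddCommGroup G] [NormedSpace ℝ G] : AE G :=
  (ae_convex (convex_univ : Convex ℝ (univ : Set G)) univ_nonempty).homeo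
    (Homeomorph.Set.univ G).symm

theorem ae_F : AE F := ae_normed F

theorem ae_E : AE E := AE.pi fun _ => ae_F

/-- `Icc a b` in `R` as a subtype, in particular the unit interval -/
theorem ae_Icc {a b : ℝ} (h : a ≤ b) : AE (Set.Icc a b) :=
  ae_convex (convex_Icc a b) (nonempty_Icc.2 h)

/-- extension from a closed subset of a metrizable space (the form which is used) -/
theorem AE.extend {X Y : Type} [TopologicalSpace X] [TopologicalSpace.MetrizableSpace X] [TopologicalSpace Y]
    (hY : AE Y) {A : Set X} (hA : IsClosed A) (f : A → Y) (hf : Continuous f) :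
    ∃ g : X → Y, Continuous g ∧ ∀ a : A, g a = f a := by
  letI : MetricSpace X := TopologicalSpace.metrizableSpaceMetric X
  exact hY X A hA f hf

/-- extension along a closed embedding -/
theorem AE.extend_emb {X A Y : Type} [TopologicalSpace X] [TopologicalSpace.MetrizableSpace X]
    [TopologicalSpace A] [TopologicalSpace Y] (hY : AE Y) {j : A → X} (hj : IsClosedEmbedding j)
    (f : A → Y) (hf : Continuous f) :
    ∃ g : X → Y, Continuous g ∧ ∀ a, g (j a) = f a := by
  obtain ⟨g, hg, hgf⟩ := hY.extend hj.isClosed_range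
    (fun x => f (hj.isEmbedding.toHomeomorph.symm x))
    (hf.comp (hj.isEmbedding.toHomeomorph.symm.continuous))
  refine ⟨g, hg, fun a => ?_⟩
  have h1 := hgf ⟨j a, a, rfl⟩
  have h2 : hj.isEmbedding.toHomeomorph.symm ⟨j a, a, rfl⟩ = a := by
    rw [Homeomorph.symm_apply_eq]
    rfl
  simp only [h2] at h1
  exact h1

end Pool.Agent.Tor
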