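import Pool.Agent.Lib.Tor.Basic

/-! MODULE Tor.Polish (1.5 h): `F`, `E`, `W` are Polish; closed embeddings of Polish spaces. -/

open Set Topology Filter

namespace Pool.Agent.Tor

/-- `lp` is separable for `p` finite. PROOF: `lp.hasSum_single` (the finitely supported sequences are
dense) and rational coefficients; or: the closed span of the countable set of `lp.single` is
everything, and the span of a countable set is separable. -/
theorem separable_lp (p : ENNReal) [Fact (1 ≤ p)] (hp : p ≠ ⊤) :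
    TopologicalSpace.SeparableSpace (lp (fun _ : ℕ => ℝ) p) := by
  have h1 : TopologicalSpace.IsSeparable
      (Submodule.span ℝ (range fun i : ℕ => (lp.single (E := fun _ : ℕ => ℝ) p i (1 : ℝ))) :
        Set (lp (fun _ : ℕ => ℝ) p)) :=
    (countable_range _).isSeparable.span
  rw [← TopologicalSpace.isSeparable_univ_iff]
  refine h1.closure.mono ?_
  intro f _
  have h2 := lp.hasSum_single hp f
  refine mem_closure_of_tendsto h2 (Eventually.of_forall fun s => ?_)
  refine Submodule.sum_mem _ fun i _ => ?_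
  have h3 : lp.single (E := fun _ : ℕ => ℝ) p i (f i)
      = (f i) • lp.single (E := fun _ : ℕ => ℝ) p i (1 : ℝ) := by
    rw [← lp.single_smul, smul_eq_mul, mul_one]
  rw [h3]
  exact Submodule.smul_mem _ _ (Submodule.subset_span ⟨i, rfl⟩)

instance polish_F : PolishSpace F := by
  have : TopologicalSpace.SeparableSpace L1 := separable_lp 1 ENNReal.one_ne_top
  infer_instance

instance polish_E : PolishSpace E := by
  infer_instance

instance polish_W : PolishSpace W := by
  have : PolishSpace {r : ℝ // 0 ≤ r} := isClosed_Ici.polishSpace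
  infer_instance

/-- partitions of unity at scale `2^-n`. PROOF: dense sequence `x_i`, open cover of a metric space by
the balls `ball (x_i) (2^-n / 2)`, a partition of unity subordinate to it (`X` is paracompact). -/
theorem exists_pu {X : Type} [MetricSpace X] [TopologicalSpace.SeparableSpace X] (hne : Nonempty X) (n : ℕ) :
    ∃ ρ : ℕ → X → ℝ, (∀ i, Continuous (ρ i)) ∧ (∀ i x, 0 ≤ ρ i x) ∧
      (∀ x, ∃ O ∈ 𝓝 x, ∃ m, ∀ i, m ≤ i → ∀ y ∈ O, ρ i y = 0) ∧ (∀ x, ∑' i, ρ i x = 1) ∧
      ∀ i x y, 0 < ρ i x → 0 < ρ i y → dist x y ≤ (1 / 2) ^ n := by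
  have := hne
  have hr : (0 : ℝ) < (1 / 2) ^ n / 2 := by positivity
  obtain ⟨f, hf⟩ := PartitionOfUnity.exists_isSubordinate (X := X) isClosed_univ
    (fun i : ℕ => Metric.ball (TopologicalSpace.denseSeq X i) ((1 / 2) ^ n / 2))
    (fun i => Metric.isOpen_ball) (by
      intro x _
      have h1 := Metric.dense_iff.1 (TopologicalSpace.denseRange_denseSeq X) x _ hr
      obtain ⟨y, hy, i, rfl⟩ := h1
      exact mem_iUnion.2 ⟨i, by rw [Metric.mem_ball, dist_comm]; exact hy⟩)
  refine ⟨fun i x => f i x, fun i => (f i).continuous, fun i x => f.nonneg i x, ?_, ?_, ?_⟩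
  · intro x
    obtain ⟨O, hO, hfin⟩ := f.locallyFinite x
    obtain ⟨m, hm⟩ := hfin.bddAbove
    refine ⟨O, hO, m + 1, fun i hi y hy => ?_⟩
    by_contra hne0
    have : i ≤ m := hm ⟨y, hne0, hy⟩
    omega
  · intro x
    have h1 : (∑ᶠ i, f i x) = 1 := f.sum_eq_one (mem_univ x)
    rw [← h1]
    exact tsum_eq_finsum (f.locallyFinite.point_finite x)
  · intro i x y hx hy
    have h1 : x ∈ Metric.ball (TopologicalSpace.denseSeq X i) ((1 / 2) ^ n / 2) :=
      hf i (subset_tsupport _ hx.ne')
    have h2 : y ∈ Metric.ball (TopologicalSpace.denseSeq X i) ((1 / 2) ^ n / 2) :=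
      hf i (subset_tsupport _ hy.ne')
    rw [Metric.mem_ball] at h1 h2
    have h3 := dist_triangle_right x y (TopologicalSpace.denseSeq X i)
    linarith

namespace PolishAux

/-- a family of partitions of unity -/
structure PU (X : Type) [MetricSpace X] (ρ : ℕ → ℕ → X → ℝ) : Prop where
  cont : ∀ n i, Continuous (ρ n i)
  nonneg : ∀ n i x, 0 ≤ ρ n i x
  locf : ∀ n x, ∃ O ∈ 𝓝 x, ∃ m, ∀ i, m ≤ i → ∀ y ∈ O, ρ n i y = 0
  sum : ∀ n x, ∑' i, ρ n i x = 1
  small : ∀ n i x y, 0 < ρ n i x → 0 < ρ n i y → dist x y ≤ (1 / 2) ^ n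

theorem exists_PU (X : Type) [MetricSpace X] [TopologicalSpace.SeparableSpace X]
    (hne : Nonempty X) : ∃ ρ : ℕ → ℕ → X → ℝ, PU X ρ := by
  choose ρ h1 h2 h3 h4 h5 using fun n : ℕ => exists_pu hne n
  exact ⟨ρ, h1, h2, h3, h4, h5⟩

variable {X : Type} [MetricSpace X] {ρ : ℕ → ℕ → X → ℝ}

theorem PU.hasSum (h : PU X ρ) (n : ℕ) (x : X) : HasSum (fun i => ρ n i x) 1 := by
  have h1 : Summable (fun i => ρ n i x) := by
    by_contra hcon
    have h2 := h.sum n x
    rw [tsum_eq_zero_of_not_summable hcon] at h2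
    exact zero_ne_one h2
  have h2 := h1.hasSum
  rwa [h.sum n x] at h2

theorem PU.cauchy (h : PU X ρ) {x : ℕ → X} (hx : ∀ n, ∃ i, ∀ᶠ k in atTop, 0 < ρ n i (x k)) :
    CauchySeq x := by
  rw [Metric.cauchySeq_iff']
  intro ε hε
  obtain ⟨n, hn⟩ := exists_pow_lt_of_lt_one hε (by norm_num : (1 / 2 : ℝ) < 1)
  obtain ⟨i, hi⟩ := hx n
  obtain ⟨N, hN⟩ := eventually_atTop.1 hi
  exact ⟨N, fun m hm => (h.small n i _ _ (hN m hm) (hN N le_rfl)).trans_lt hn⟩

theorem closedEmb [CompleteSpace X] {Y : Type} [TopologicalSpace Y] [T2Space Y]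
    [FirstCountableTopology Y] {j : X → Y} (hj : Continuous j)
    (hc : ∀ (x : ℕ → X) (y : Y), Tendsto (fun k => j (x k)) atTop (𝓝 y) → CauchySeq x) :
    IsClosedEmbedding j := by
  refine IsClosedEmbedding.of_continuous_injective_isClosedMap hj ?_ ?_
  · intro a b hab
    let x : ℕ → X := fun k => if Even k then a else b
    have h1 : Tendsto (fun k => j (x k)) atTop (𝓝 (j a)) := by
      have : (fun k => j (x k)) = fun _ => j a := by
        funext k
        simp only [x]
        split_ifs
        · rfl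
        · exact hab.symm
      rw [this]
      exact tendsto_const_nhds
    have h2 := hc x (j a) h1
    rw [Metric.cauchySeq_iff] at h2
    by_contra hne
    obtain ⟨N, hN⟩ := h2 (dist a b) (dist_pos.2 hne)
    have h3 := hN (2 * N) (by omega) (2 * N + 1) (by omega)
    have e1 : x (2 * N) = a := if_pos (even_two_mul N)
    have e2 : x (2 * N + 1) = b := if_neg (by simp)
    rw [e1, e2] at h3
    exact lt_irrefl _ h3
  · intro C hC
    rw [← isSeqClosed_iff_isClosed]
    intro y z hy hz
    choose x hx using hy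
    have h1 : Tendsto (fun k => j (x k)) atTop (𝓝 z) := by
      have : (fun k => j (x k)) = y := funext fun k => (hx k).2
      rw [this]
      exact hz
    obtain ⟨a, ha⟩ := cauchySeq_tendsto_of_complete (hc x z h1)
    refine ⟨a, hC.mem_of_tendsto ha (Eventually.of_forall fun k => (hx k).1), ?_⟩
    exact tendsto_nhds_unique ((hj.tendsto a).comp ha) h1

theorem hasSum_pairs {r : ℕ → ℕ → ℝ} (h0 : ∀ n i, 0 ≤ r n i) (h1 : ∀ n, HasSum (r n) 1) :
    HasSum (fun m : ℕ => (1 / 16) * (1 / 2) ^ (Nat.unpair m).1 * r (Nat.unpair m).1 (Nat.unpair m).2)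
      (1 / 8) := by
  set g : ℕ × ℕ → ℝ := fun q => (1 / 16) * (1 / 2) ^ q.1 * r q.1 q.2 with hg
  have hg0 : 0 ≤ g := fun q => by
    have := h0 q.1 q.2
    simp only [hg, Pi.zero_apply]
    positivity
  have hrow : ∀ n, HasSum (fun i => g (n, i)) ((1 / 16) * (1 / 2) ^ n) := by
    intro n
    have := (h1 n).mul_left ((1 / 16 : ℝ) * (1 / 2) ^ n)
    rwa [mul_one] at this
  have hgeo : HasSum (fun n : ℕ => (1 / 16 : ℝ) * (1 / 2) ^ n) (1 / 8) := by
    have := (hasSum_geometric_of_lt_one (r := (1 / 2 : ℝ)) (by norm_num) (by norm_num)).mul_left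
      (1 / 16 : ℝ)
    have e : (1 / 16 : ℝ) * (1 - 1 / 2)⁻¹ = 1 / 8 := by norm_num
    rwa [e] at this
  have hs : Summable g := by
    refine (summable_prod_of_nonneg hg0).2 ⟨fun n => (hrow n).summable, ?_⟩
    refine hgeo.summable.congr fun n => ?_
    exact (hrow n).tsum_eq.symm
  have h2 : HasSum g (1 / 8) := by
    have h3 := hs.hasSum
    have h4 := h3.prod_fiberwise hrow
    rw [← h4.unique hgeo]
    exact h3
  have h5 : HasSum (g ∘ Nat.pairEquiv.symm) (1 / 8) := (Nat.pairEquiv.symm.hasSum_iff).2 h2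
  have e : (fun m : ℕ => (1 / 16) * (1 / 2) ^ (Nat.unpair m).1 *
      r (Nat.unpair m).1 (Nat.unpair m).2) = g ∘ Nat.pairEquiv.symm := by
    funext m
    simp only [hg, Function.comp_apply, Nat.pairEquiv_symm_apply]
  rw [e]
  exact h5

theorem memL1 {w : ℕ → ℝ} (h : Summable (fun i => |w i|)) : Memℓp w 1 := by
  refine memℓp_gen ?_
  simpa using h

theorem normL1 (v : L1) : ‖v‖ = ∑' i, |v i| := by
  rw [lp.norm_eq_tsum_rpow (by simp)]
  simp

theorem summableL1 (v : L1) : Summable (fun i => |v i|) := by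
  have := lp.memℓp v
  have h2 := (memℓp_gen_iff (by simp)).1 this
  simpa using h2

/-- the map into `l1` -/
noncomputable def vv (h : PU X ρ) (x : X) : L1 :=
  ⟨fun m => (1 / 16) * (1 / 2) ^ (Nat.unpair m).1 * ρ (Nat.unpair m).1 (Nat.unpair m).2 x,
    memL1 (by
      have h1 := (hasSum_pairs (fun n i => h.nonneg n i x) (fun n => h.hasSum n x)).summable
      refine h1.congr fun m => ?_
      have := h.nonneg (Nat.unpair m).1 (Nat.unpair m).2 x
      rw [abs_of_nonneg (by positivity)])⟩

theorem vv_apply (h : PU X ρ) (x : X) (m : ℕ) : vv h x m =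
    (1 / 16) * (1 / 2) ^ (Nat.unpair m).1 * ρ (Nat.unpair m).1 (Nat.unpair m).2 x := rfl

theorem vv_nonneg (h : PU X ρ) (x : X) (m : ℕ) : 0 ≤ vv h x m := by
  rw [vv_apply]
  have := h.nonneg (Nat.unpair m).1 (Nat.unpair m).2 x
  positivity

theorem vv_hasSum (h : PU X ρ) (x : X) : HasSum (fun m => vv h x m) (1 / 8) := by
  simp only [vv_apply]
  exact hasSum_pairs (r := fun n i => ρ n i x) (fun n i => h.nonneg n i x)
    (fun n => h.hasSum n x)

theorem vv_norm (h : PU X ρ) (x : X) : ‖vv h x‖ = 1 / 8 := by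
  rw [normL1]
  simp_rw [abs_of_nonneg (vv_nonneg h x _)]
  exact (vv_hasSum h x).tsum_eq

theorem vv_dist (h : PU X ρ) (x y : X) :
    ‖vv h y - vv h x‖ = 2 * ∑' m, max (vv h x m - vv h y m) 0 := by
  have h1 : ∀ m, |(vv h y - vv h x : L1) m| = 2 * max (vv h x m - vv h y m) 0
      + (vv h y m - vv h x m) := by
    intro m
    change |vv h y m - vv h x m| = _
    rcases le_total (vv h x m) (vv h y m) with hle | hle
    · rw [abs_of_nonneg (by linarith), max_eq_right (by linarith)]
      ring
    · rw [abs_of_nonpos (by linarith), max_eq_left (by linarith)]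
      ring
  have hs : Summable (fun m => max (vv h x m - vv h y m) 0) := by
    refine Summable.of_nonneg_of_le (fun m => le_max_right _ _) (fun m => ?_)
      (vv_hasSum h x).summable
    exact max_le (by linarith [vv_nonneg h y m]) (vv_nonneg h x m)
  rw [normL1]
  simp_rw [h1]
  have hs2 : HasSum (fun m => vv h y m - vv h x m) (1 / 8 - 1 / 8) :=
    (vv_hasSum h y).sub (vv_hasSum h x)
  rw [(hs.mul_left 2).tsum_add hs2.summable, hs2.tsum_eq, tsum_mul_left]
  ring

theorem vv_continuous (h : PU X ρ) : Continuous (vv h) := by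
  rw [continuous_iff_continuousAt]
  intro x
  rw [ContinuousAt, tendsto_iff_norm_sub_tendsto_zero]
  have h1 : Tendsto (fun y => ∑' m, max (vv h x m - vv h y m) 0) (𝓝 x) (𝓝 (∑' _ : ℕ, (0 : ℝ))) := by
    refine tendsto_tsum_of_dominated_convergence (bound := fun m => vv h x m)
      (vv_hasSum h x).summable (fun m => ?_) (Eventually.of_forall fun y m => ?_)
    · have hc : Continuous (fun y => max (vv h x m - vv h y m) 0) := by
        simp only [vv_apply]
        have := h.cont (Nat.unpair m).1 (Nat.unpair m).2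
        fun_prop
      have h2 := hc.tendsto x
      simpa using h2
    · rw [Real.norm_eq_abs, abs_of_nonneg (le_max_right _ _)]
      exact max_le (by linarith [vv_nonneg h y m]) (vv_nonneg h x m)
  rw [tsum_zero] at h1
  have h2 := h1.const_mul 2
  rw [mul_zero] at h2
  refine h2.congr fun y => ?_
  rw [vv_dist]

theorem vv_cauchy (h : PU X ρ) {x : ℕ → X} {v : L1}
    (hv : Tendsto (fun k => vv h (x k)) atTop (𝓝 v)) : CauchySeq x := by
  refine h.cauchy fun n => ?_
  have hcoord : ∀ m, Tendsto (fun k => vv h (x k) m) atTop (𝓝 (v m)) := by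
    intro m
    rw [tendsto_iff_norm_sub_tendsto_zero] at hv ⊢
    refine squeeze_zero (fun k => norm_nonneg _) (fun k => ?_) hv
    exact lp.norm_apply_le_norm one_ne_zero (vv h (x k) - v) m
  have hnn : ∀ m, 0 ≤ v m := fun m =>
    ge_of_tendsto' (hcoord m) fun k => vv_nonneg h (x k) m
  by_contra hcon0
  have hcon : ∀ i, ¬ ∀ᶠ k in atTop, 0 < ρ n i (x k) := fun i hi => hcon0 ⟨i, hi⟩
  have hz : ∀ i, v (Nat.pair n i) = 0 := by
    intro i
    by_contra hne
    have hpos : 0 < v (Nat.pair n i) := lt_of_le_of_ne (hnn _) (Ne.symm hne)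
    apply hcon i
    filter_upwards [(hcoord (Nat.pair n i)).eventually (lt_mem_nhds hpos)] with k hk
    rw [vv_apply, Nat.unpair_pair] at hk
    by_contra h2
    have h3 := h.nonneg n i (x k)
    have h4 : ρ n i (x k) = 0 := le_antisymm (not_lt.1 h2) h3
    change 0 < (1 / 16 : ℝ) * (1 / 2) ^ n * ρ n i (x k) at hk
    rw [h4, mul_zero] at hk
    exact lt_irrefl _ hk
  have hlow : ∀ k, (1 / 16 : ℝ) * (1 / 2) ^ n ≤ ‖vv h (x k) - v‖ := by
    intro k
    rw [normL1]
    have hinj : Function.Injective (fun i : ℕ => Nat.pair n i) := by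
      intro i i' hi
      have := congrArg (fun m => (Nat.unpair m).2) hi
      simpa using this
    have h5 : ∑' i, |(vv h (x k) - v : L1) (Nat.pair n i)| ≤ ∑' m, |(vv h (x k) - v : L1) m| :=
      tsum_comp_le_tsum_of_inj (summableL1 (vv h (x k) - v)) (fun _ => abs_nonneg _) hinj
    refine le_trans ?_ h5
    have h6 : ∀ i, |(vv h (x k) - v : L1) (Nat.pair n i)|
        = (1 / 16 : ℝ) * (1 / 2) ^ n * ρ n i (x k) := by
      intro i
      change |vv h (x k) (Nat.pair n i) - v (Nat.pair n i)| = _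
      rw [hz, sub_zero, abs_of_nonneg (vv_nonneg h _ _), vv_apply, Nat.unpair_pair]
    simp_rw [h6]
    rw [tsum_mul_left, (h.hasSum n (x k)).tsum_eq, mul_one]
  have h7 := tendsto_iff_norm_sub_tendsto_zero.1 hv
  have h8 : (1 / 16 : ℝ) * (1 / 2) ^ n ≤ 0 := ge_of_tendsto' h7 hlow
  have h9 : (0 : ℝ) < (1 / 16 : ℝ) * (1 / 2) ^ n := by positivity
  linarith

/-- weighted sum -/
noncomputable def uu (ρ : ℕ → ℕ → X → ℝ) (n : ℕ) (x : X) : ℝ := ∑' i : ℕ, (i : ℝ) * ρ n i x

theorem uu_summable (h : PU X ρ) (n : ℕ) (x : X) : Summable (fun i : ℕ => (i : ℝ) * ρ n i x) := by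
  obtain ⟨O, hO, m, hm⟩ := h.locf n x
  refine summable_of_ne_finset_zero (s := Finset.range m) fun i hi => ?_
  rw [Finset.mem_range, not_lt] at hi
  rw [hm i hi x (mem_of_mem_nhds hO), mul_zero]

theorem uu_nonneg (h : PU X ρ) (n : ℕ) (x : X) : 0 ≤ uu ρ n x :=
  tsum_nonneg fun i => mul_nonneg (Nat.cast_nonneg i) (h.nonneg n i x)

theorem uu_continuous (h : PU X ρ) (n : ℕ) : Continuous (uu ρ n) := by
  rw [continuous_iff_continuousAt]
  intro x
  obtain ⟨O, hO, m, hm⟩ := h.locf n x
  have hc : Continuous (fun y => ∑ i ∈ Finset.range m, (i : ℝ) * ρ n i y) := by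
    have := fun i => h.cont n i
    fun_prop
  refine hc.continuousAt.congr ?_
  filter_upwards [hO] with y hy
  unfold uu
  symm
  refine tsum_eq_sum fun i hi => ?_
  rw [Finset.mem_range, not_lt] at hi
  rw [hm i hi y hy, mul_zero]

/-- the map into `W` -/
noncomputable def jw (h : PU X ρ) (x : X) : W := fun m =>
  if (Nat.unpair m).2 = 0 then ⟨uu ρ (Nat.unpair m).1 x, uu_nonneg h _ x⟩
  else ⟨ρ (Nat.unpair m).1 ((Nat.unpair m).2 - 1) x, h.nonneg _ _ x⟩

theorem jw_continuous (h : PU X ρ) : Continuous (jw h) := by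
  refine continuous_pi fun m => ?_
  unfold jw
  split_ifs
  · exact (uu_continuous h _).subtype_mk _
  · exact (h.cont _ _).subtype_mk _

theorem jw_cauchy (h : PU X ρ) {x : ℕ → X} {w : W}
    (hw : Tendsto (fun k => jw h (x k)) atTop (𝓝 w)) : CauchySeq x := by
  refine h.cauchy fun n => ?_
  rw [tendsto_pi_nhds] at hw
  have hu : Tendsto (fun k => uu ρ n (x k)) atTop (𝓝 (w (Nat.pair n 0) : ℝ)) := by
    have h1 := (continuous_subtype_val.tendsto _).comp (hw (Nat.pair n 0))
    refine h1.congr fun k => ?_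
    simp [jw]
  have hr : ∀ i, Tendsto (fun k => ρ n i (x k)) atTop (𝓝 (w (Nat.pair n (i + 1)) : ℝ)) := by
    intro i
    have h1 := (continuous_subtype_val.tendsto _).comp (hw (Nat.pair n (i + 1)))
    refine h1.congr fun k => ?_
    simp [jw]
  by_contra hcon0
  have hcon : ∀ i, ¬ ∀ᶠ k in atTop, 0 < ρ n i (x k) := fun i hi => hcon0 ⟨i, hi⟩
  have hz : ∀ i, (w (Nat.pair n (i + 1)) : ℝ) = 0 := by
    intro i
    by_contra hne
    have hpos : 0 < (w (Nat.pair n (i + 1)) : ℝ) :=
      lt_of_le_of_ne (w (Nat.pair n (i + 1))).2 (Ne.symm hne)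
    apply hcon i
    exact (hr i).eventually (lt_mem_nhds hpos)
  set L : ℝ := (w (Nat.pair n 0) : ℝ) with hL
  obtain ⟨N, hN⟩ := exists_nat_gt (2 * (L + 1))
  have hfin : Tendsto (fun k => ∑ i ∈ Finset.range N, ρ n i (x k)) atTop (𝓝 0) := by
    have := tendsto_finsetSum (Finset.range N) (fun i _ => hr i)
    simp_rw [hz] at this
    simpa using this
  have h1 : ∀ᶠ k in atTop, ∑ i ∈ Finset.range N, ρ n i (x k) < 1 / 2 :=
    hfin.eventually (gt_mem_nhds (by norm_num))
  have h2 : ∀ᶠ k in atTop, uu ρ n (x k) < L + 1 := hu.eventually (gt_mem_nhds (by linarith))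
  obtain ⟨k, hk1, hk2⟩ := (h1.and h2).exists
  have hs := h.hasSum n (x k)
  have h3 : (N : ℝ) * (1 - ∑ i ∈ Finset.range N, ρ n i (x k)) ≤ uu ρ n (x k) := by
    have h4 : HasSum (fun i => (N : ℝ) * (ρ n i (x k) -
        (if i ∈ Finset.range N then ρ n i (x k) else 0)))
        ((N : ℝ) * (1 - ∑ i ∈ Finset.range N, ρ n i (x k))) := by
      refine (hs.sub ?_).mul_left _
      have : HasSum (fun i => if i ∈ Finset.range N then ρ n i (x k) else 0)
          (∑ i ∈ Finset.range N, (if i ∈ Finset.range N then ρ n i (x k) else 0)) :=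
        hasSum_sum_of_ne_finset_zero (fun i hi => if_neg hi)
      have e : ∑ i ∈ Finset.range N, (if i ∈ Finset.range N then ρ n i (x k) else 0)
          = ∑ i ∈ Finset.range N, ρ n i (x k) :=
        Finset.sum_congr rfl fun i hi => if_pos hi
      rwa [e] at this
    refine hasSum_le (fun i => ?_) h4 (uu_summable h n (x k)).hasSum
    by_cases hi : i ∈ Finset.range N
    · rw [if_pos hi, sub_self, mul_zero]
      exact mul_nonneg (Nat.cast_nonneg i) (h.nonneg n i _)
    · rw [if_neg hi, sub_zero]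
      rw [Finset.mem_range, not_lt] at hi
      exact mul_le_mul_of_nonneg_right (by exact_mod_cast hi) (h.nonneg n i _)
  have hN0 : (0 : ℝ) < N := by
    have : 0 ≤ L := (w (Nat.pair n 0)).2
    linarith
  nlinarith

end PolishAux

/-- PROOF: complete metric; `j x = (0, (2^-n rho_{n,i}(x))_{(n,i)})` in `l1` over `N x N` (reindex by
`Nat.pair`), rescaled by `1/16`. Continuous into `l1`: each level has locally finitely many terms,
the levels beyond `n` have total mass `2^-n+1`. If `j (x_k) -> v` then for each `n` the masses of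
level `n` of `v` sum up to the right constant, so some coordinate `(n,i)` of `v` is positive, hence
`rho_{n,i}(x_k) > 0` for large `k` and `x_k` is Cauchy; so `j` is injective, closed, an embedding
(`IsClosedEmbedding` via sequences or via `AntilipschitzWith`-free argument: injective + continuous +
closed map, `IsClosedEmbedding.of_continuous_injective_isClosedMap`). -/
theorem exists_emb_F (X : Type) [TopologicalSpace X] [PolishSpace X] :
    ∃ j : X → F, IsClosedEmbedding j ∧ ∀ x, ‖j x‖ ≤ 1 / 4 := by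
  classical
  rcases isEmpty_or_nonempty X with hE | hne
  · refine ⟨fun x => (hE.false x).elim, ?_, fun x => (hE.false x).elim⟩
    refine IsClosedEmbedding.of_continuous_injective_isClosedMap ?_ ?_ ?_
    · exact continuous_of_const fun x => (hE.false x).elim
    · intro x
      exact (hE.false x).elim
    · intro C _
      have : C = ∅ := by
        ext x
        exact (hE.false x).elim
      rw [this, image_empty]
      exact isClosed_empty
  · let := TopologicalSpace.upgradeIsCompletelyMetrizable X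
    obtain ⟨ρ, hρ⟩ := PolishAux.exists_PU X hne
    refine ⟨fun x => (0, PolishAux.vv hρ x), ?_, ?_⟩
    · refine PolishAux.closedEmb (continuous_const.prodMk (PolishAux.vv_continuous hρ)) ?_
      intro x y hy
      exact PolishAux.vv_cauchy hρ ((continuous_snd.tendsto y).comp hy)
    · intro x
      rw [Prod.norm_def, norm_zero, PolishAux.vv_norm]
      norm_num

/-- PROOF: `j x = ((rho_{n,i}(x))_{n,i}, (sum_i i rho_{n,i}(x))_n)` in `[0,oo)^N` (product topology).
If `j (x_k)` converges then `u_n(x_k) = sum_i i rho_{n,i}(x_k) <= L`, so the mass of level `n` beyond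
index `2L` is at most `1/2`, some `rho_{n,i}(x_k)` has a positive limit, and `x_k` is Cauchy. -/
theorem exists_emb_W (X : Type) [TopologicalSpace X] [PolishSpace X] :
    ∃ j : X → W, IsClosedEmbedding j := by
  classical
  rcases isEmpty_or_nonempty X with hE | hne
  · refine ⟨fun x => (hE.false x).elim, ?_⟩
    refine IsClosedEmbedding.of_continuous_injective_isClosedMap ?_ ?_ ?_
    · exact continuous_of_const fun x => (hE.false x).elim
    · intro x
      exact (hE.false x).elim
    · intro C _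
      have : C = ∅ := by
        ext x
        exact (hE.false x).elim
      rw [this, image_empty]
      exact isClosed_empty
  · let := TopologicalSpace.upgradeIsCompletelyMetrizable X
    obtain ⟨ρ, hρ⟩ := PolishAux.exists_PU X hne
    refine ⟨PolishAux.jw hρ, PolishAux.closedEmb (PolishAux.jw_continuous hρ) ?_⟩
    intro x y hy
    exact PolishAux.jw_cauchy hρ hy

end Pool.Agent.Tor
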