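import Pool.Agent.Lib.Tor.Gauge
import Pool.Agent.Lib.Tor.Covers

/-! MODULE Tor.PushPath: pushing along a family of paths. -/

open Set Topology Filter

namespace Pool.Agent.Tor

namespace PushPathAux

/-- compactness of the unit interval: a requirement monotone in a parameter, locally satisfiable -/
theorem compact_unif {P : Type} [TopologicalSpace P] (Q : ℝ → P → I → Prop)
    (mono : ∀ r s p t, 1 ≤ r → r ≤ s → Q r p t → Q s p t) (p₀ : P)
    (loc : ∀ t₀ : I, ∃ r : ℝ, 1 ≤ r ∧ ∀ᶠ q : P × I in 𝓝 (p₀, t₀), Q r q.1 q.2) :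
    ∃ r : ℝ, 1 ≤ r ∧ ∀ᶠ p in 𝓝 p₀, ∀ t, Q r p t := by
  have h : ∃ r : ℝ, 1 ≤ r ∧ ∀ᶠ p in 𝓝 p₀, ∀ t ∈ (univ : Set I), Q r p t := by
    refine isCompact_univ.induction_on (p := fun s : Set I => ∃ r : ℝ, 1 ≤ r ∧
      ∀ᶠ p in 𝓝 p₀, ∀ t ∈ s, Q r p t) ?_ ?_ ?_ ?_
    · exact ⟨1, le_refl _, Eventually.of_forall fun p t ht => absurd ht (notMem_empty t)⟩
    · rintro s t hst ⟨r, hr, h⟩
      exact ⟨r, hr, h.mono fun p hp x hx => hp x (hst hx)⟩
    · rintro s t ⟨r, hr, h⟩ ⟨r', hr', h'⟩
      refine ⟨max r r', le_trans hr (le_max_left _ _), ?_⟩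
      filter_upwards [h, h'] with p hp hp' x hx
      rcases hx with hx | hx
      · exact mono _ _ _ _ hr (le_max_left _ _) (hp x hx)
      · exact mono _ _ _ _ hr' (le_max_right _ _) (hp' x hx)
    · intro t₀ _
      obtain ⟨r, hr, h⟩ := loc t₀
      rw [nhds_prod_eq, eventually_prod_iff] at h
      obtain ⟨pa, hpa, pb, hpb, hh⟩ := h
      refine ⟨{t | pb t}, mem_nhdsWithin_of_mem_nhds hpb, r, hr, ?_⟩
      exact hpa.mono fun p hp t ht => hh hp ht
  obtain ⟨r, hr, h⟩ := h
  exact ⟨r, hr, h.mono fun p hp t => hp t (mem_univ t)⟩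

/-- step (1) -/
theorem exists_nu {P Z : Type} [TopologicalSpace P] [TopologicalSpace.MetrizableSpace P]
    [TopologicalSpace Z] (C : E → Z) (hC : Continuous C)
    (U : Z → Set Z) (hU : Cov U) (γ : P × I → E) (hγ : Continuous γ) :
    ∃ ν : P → ℝ, Continuous ν ∧ (∀ p, 1 ≤ ν p) ∧
      ∀ p t u, gau (ν p) (u - γ (p, t)) < 2 → ∃ z, C u ∈ U z ∧ C (γ (p, t)) ∈ U z := by
  obtain ⟨ε, hε, hε1, hP⟩ := exists_below (Z := P)
    (fun p r => ∀ (t : I) (u : E), gau (1 / r) (u - γ (p, t)) < 2 →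
      ∃ z, C u ∈ U z ∧ C (γ (p, t)) ∈ U z)
    (fun p r s hr hrs h t u hu => h t u (lt_of_le_of_lt
      (gau_mono (by positivity [lt_of_lt_of_le hr hrs]) (one_div_le_one_div_of_le hr hrs) _) hu))
    (by
      intro p₀
      obtain ⟨r, hr, h⟩ := compact_unif (fun r p t => ∀ u : E, gau r (u - γ (p, t)) < 2 →
        ∃ z, C u ∈ U z ∧ C (γ (p, t)) ∈ U z)
        (fun r s p t h1 hrs h u hu => h u (lt_of_le_of_lt
          (gau_mono (le_trans zero_le_one h1) hrs _) hu)) p₀ (by
        intro t₀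
        set a₀ := γ (p₀, t₀) with ha₀
        obtain ⟨ν₀, h1, hν⟩ := gau_nhds a₀ (C ⁻¹' (U (C a₀)))
          ((hC.continuousAt).preimage_mem_nhds ((hU (C a₀)).1.mem_nhds (hU (C a₀)).2))
        refine ⟨ν₀, h1, ?_⟩
        have hcont : Continuous fun q : P × I => gau ν₀ (γ q - a₀) :=
          gau_cont.comp (continuous_const.prodMk (hγ.sub continuous_const))
        have h0 : (fun q : P × I => gau ν₀ (γ q - a₀)) (p₀, t₀) < 1 := by
          simp only [← ha₀, sub_self, gau_zero]
          exact one_pos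
        filter_upwards [hcont.continuousAt.eventually (gt_mem_nhds h0)] with q hq u hu
        have hq' : gau ν₀ (γ q - a₀) < 1 := hq
        refine ⟨C a₀, ?_, ?_⟩
        · have := hν ν₀ le_rfl u (by
            have e : u - a₀ = (u - γ (q.1, q.2)) + (γ q - a₀) := by
              simp
            rw [e]
            have := gau_add_le (le_trans zero_le_one h1) (u - γ (q.1, q.2)) (γ q - a₀)
            linarith)
          exact this
        · exact hν ν₀ le_rfl (γ q) (by linarith))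
      refine ⟨1 / r, by positivity, ?_⟩
      filter_upwards [h] with p hp t u hu
      rw [one_div_one_div] at hu
      exact hp t u hu)
  refine ⟨fun p => 1 / ε p, ?_, ?_, ?_⟩
  · exact continuous_const.div hε fun p => (hε1 p).1.ne'
  · intro p
    exact (one_le_div (hε1 p).1).2 (hε1 p).2
  · intro p t u hu
    exact hP p t u hu

/-- step (2) -/
theorem exists_s {P : Type} [TopologicalSpace P] [TopologicalSpace.MetrizableSpace P]
    (ν : P → ℝ) (hν : Continuous ν) (γ : P × I → E) (hγ : Continuous γ) :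
    ∃ s : P → ℝ, Continuous s ∧ (∀ p, 0 < s p ∧ s p ≤ 1) ∧
      ∀ p (t t' : I), |(t : ℝ) - t'| ≤ s p → gau (ν p) (γ (p, t') - γ (p, t)) ≤ 1 / 2 := by
  refine exists_below (Z := P) (fun p r => ∀ (t t' : I), |(t : ℝ) - t'| ≤ r →
    gau (ν p) (γ (p, t') - γ (p, t)) ≤ 1 / 2) ?_ ?_
  · intro p r s _ hrs h t t' htt
    exact h t t' (le_trans htt hrs)
  · intro p₀
    obtain ⟨r, hr, h⟩ := compact_unif (fun r p t => ∀ t' : I, |(t : ℝ) - t'| ≤ 1 / r →
      gau (ν p) (γ (p, t') - γ (p, t)) ≤ 1 / 2)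
      (fun r s p t h1 hrs h t' ht' => h t' (le_trans ht'
        (one_div_le_one_div_of_le (lt_of_lt_of_le one_pos h1) hrs))) p₀ (by
      intro t₀
      have hcont : Continuous fun q : (P × I) × I =>
          gau (ν q.1.1) (γ (q.1.1, q.2) - γ (q.1.1, q.1.2)) := by
        refine gau_cont.comp (Continuous.prodMk (hν.comp (continuous_fst.comp continuous_fst)) ?_)
        exact (hγ.comp (by fun_prop)).sub (hγ.comp (by fun_prop))
      have h0 : (fun q : (P × I) × I =>
          gau (ν q.1.1) (γ (q.1.1, q.2) - γ (q.1.1, q.1.2))) ((p₀, t₀), t₀) < 1 / 2 := by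
        simp only [sub_self, gau_zero]
        norm_num
      have hev := hcont.continuousAt.eventually (gt_mem_nhds h0)
      rw [nhds_prod_eq, eventually_prod_iff] at hev
      obtain ⟨pa, hpa, pb, hpb, hh⟩ := hev
      obtain ⟨ρ, hρ, hball⟩ := Metric.eventually_nhds_iff.1 hpb
      refine ⟨max 1 (2 / ρ), le_max_left _ _, ?_⟩
      have hpc : ∀ᶠ q : P × I in 𝓝 (p₀, t₀), dist q.2 t₀ < ρ / 2 := by
        have : ContinuousAt (fun q : P × I => dist q.2 t₀) (p₀, t₀) := by fun_prop
        exact this.eventually (gt_mem_nhds (by simp only [dist_self]; positivity))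
      filter_upwards [hpa, hpc] with q hq hq2 t' ht'
      have h3 : dist t' t₀ < ρ := by
        have e1 : dist t' q.2 ≤ ρ / 2 := by
          have : dist t' q.2 = |(q.2 : ℝ) - t'| := by
            rw [dist_comm, Subtype.dist_eq, Real.dist_eq]
          rw [this]
          refine le_trans ht' ?_
          rw [div_le_iff₀ (lt_of_lt_of_le one_pos (le_max_left _ _))]
          calc (1 : ℝ) = ρ / 2 * (2 / ρ) := by field_simp
            _ ≤ ρ / 2 * max 1 (2 / ρ) := by gcongr; exact le_max_right _ _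
        calc dist t' t₀ ≤ dist t' q.2 + dist q.2 t₀ := dist_triangle _ _ _
          _ < ρ / 2 + ρ / 2 := by linarith
          _ = ρ := by ring
      exact le_of_lt (hh hq (hball h3)))
    refine ⟨1 / r, by positivity, ?_⟩
    filter_upwards [h] with p hp t t' htt
    exact hp t t' htt

/-- the level `tau_k` -/
noncomputable def tau (x : ℝ) : I := projIcc 0 1 zero_le_one x

theorem tau_cont : Continuous tau := continuous_projIcc (h := zero_le_one)

theorem tau_zero : tau 0 = 0 := projIcc_left zero_le_one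

theorem tau_one {x : ℝ} (h : 1 ≤ x) : tau x = 1 := projIcc_of_right_le zero_le_one h

theorem tau_dist (x y : ℝ) : |(tau x : ℝ) - tau y| ≤ |x - y| := by
  have := (LipschitzWith.projIcc (zero_le_one (α := ℝ))).dist_le_mul x y
  simpa [Subtype.dist_eq, Real.dist_eq, tau] using this

section
variable {P : Type} [TopologicalSpace P]

/-- composition of the first `n` homeomorphisms -/
noncomputable def comps (T : ℕ → (P × E ≃ₜ P × E)) : ℕ → (P × E ≃ₜ P × E)
  | 0 => Homeomorph.refl _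
  | n + 1 => (comps T n).trans (T n)

theorem comps_succ (T : ℕ → (P × E ≃ₜ P × E)) (n : ℕ) (q : P × E) :
    comps T (n + 1) q = T n (comps T n q) := rfl

theorem comps_fst (T : ℕ → (P × E ≃ₜ P × E)) (h : ∀ k p u, (T k (p, u)).1 = p) (n : ℕ)
    (q : P × E) : (comps T n q).1 = q.1 := by
  induction n with
  | zero => rfl
  | succ n ih =>
    rw [comps_succ]
    have := h n (comps T n q).1 (comps T n q).2
    rw [Prod.mk.eta] at this
    rw [this, ih]

theorem comps_symm_fst (T : ℕ → (P × E ≃ₜ P × E)) (h : ∀ k p u, (T k (p, u)).1 = p) (n : ℕ)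
    (q : P × E) : ((comps T n).symm q).1 = q.1 := by
  have := comps_fst T h n ((comps T n).symm q)
  rw [Homeomorph.apply_symm_apply] at this
  exact this.symm

theorem comps_stable (T : ℕ → (P × E ≃ₜ P × E)) (h : ∀ k p u, (T k (p, u)).1 = p) (n : ℕ)
    (p : P) (hid : ∀ k, n ≤ k → ∀ u, T k (p, u) = (p, u)) (m : ℕ) (hm : n ≤ m) (u : E) :
    comps T m (p, u) = comps T n (p, u) := by
  induction m, hm using Nat.le_induction with
  | base => rfl
  | succ m hm ih =>
    rw [comps_succ, ih]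
    have h1 : (p, (comps T n (p, u)).2) = comps T n (p, u) :=
      Prod.ext (comps_fst T h n (p, u)).symm rfl
    have h2 := hid m hm (comps T n (p, u)).2
    rw [h1] at h2
    exact h2

theorem comps_symm_stable (T : ℕ → (P × E ≃ₜ P × E)) (h : ∀ k p u, (T k (p, u)).1 = p) (n : ℕ)
    (p : P) (hid : ∀ k, n ≤ k → ∀ u, T k (p, u) = (p, u)) (m : ℕ) (hm : n ≤ m) (u : E) :
    (comps T m).symm (p, u) = (comps T n).symm (p, u) := by
  rw [Homeomorph.symm_apply_eq]
  have h2 := comps_stable T h n p hid m hm ((comps T n).symm (p, u)).2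
  have h3 : (p, ((comps T n).symm (p, u)).2) = (comps T n).symm (p, u) :=
    Prod.ext (comps_symm_fst T h n (p, u)).symm rfl
  rw [h3] at h2
  rw [h2, Homeomorph.apply_symm_apply]

/-- infinite composition of homeomorphisms over `P`, locally finite -/
theorem infinite_comp (T : ℕ → (P × E ≃ₜ P × E)) (h : ∀ k p u, (T k (p, u)).1 = p)
    (s : P → ℝ) (hs : Continuous s) (hs0 : ∀ p, 0 < s p)
    (hid : ∀ (k : ℕ) p, 1 ≤ (k : ℝ) * s p → ∀ u, T k (p, u) = (p, u)) :
    ∃ Ψ : P × E ≃ₜ P × E, ∀ p, ∃ n : ℕ, 1 ≤ (n : ℝ) * s p ∧ ∀ u, Ψ (p, u) = comps T n (p, u) := by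
  classical
  let N : P → ℕ := fun p => ⌈1 / s p⌉₊
  have hN : ∀ p, 1 ≤ (N p : ℝ) * s p := by
    intro p
    have := Nat.le_ceil (1 / s p)
    rw [div_le_iff₀ (hs0 p)] at this
    exact this
  have hid' : ∀ p (n : ℕ), 1 ≤ (n : ℝ) * s p → ∀ k, n ≤ k → ∀ u, T k (p, u) = (p, u) := by
    intro p n hn k hk u
    refine hid k p (le_trans hn ?_) u
    have : (n : ℝ) ≤ k := by exact_mod_cast hk
    exact mul_le_mul_of_nonneg_right this (hs0 p).le
  have hNle : ∀ p (n : ℕ), 1 ≤ (n : ℝ) * s p → N p ≤ n := by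
    intro p n hn
    refine Nat.ceil_le.2 ?_
    rw [div_le_iff₀ (hs0 p)]
    exact hn
  have hF : ∀ p (n : ℕ), 1 ≤ (n : ℝ) * s p → ∀ u,
      comps T (N p) (p, u) = comps T n (p, u) := by
    intro p n hn u
    exact (comps_stable T h (N p) p (hid' p (N p) (hN p)) n (hNle p n hn) u).symm
  have hG : ∀ p (n : ℕ), 1 ≤ (n : ℝ) * s p → ∀ u,
      (comps T (N p)).symm (p, u) = (comps T n).symm (p, u) := by
    intro p n hn u
    exact (comps_symm_stable T h (N p) p (hid' p (N p) (hN p)) n (hNle p n hn) u).symm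
  have hloc : ∀ p₀ : P, ∃ n : ℕ, ∀ᶠ p in 𝓝 p₀, 1 ≤ (n : ℝ) * s p := by
    intro p₀
    obtain ⟨n, hn⟩ := exists_nat_gt (1 / s p₀)
    refine ⟨n, ?_⟩
    have h1 : (fun p => (n : ℝ) * s p) p₀ > 1 := by
      rw [div_lt_iff₀ (hs0 p₀)] at hn
      exact hn
    have hc : Continuous fun p => (n : ℝ) * s p := by fun_prop
    exact (hc.continuousAt.eventually (lt_mem_nhds h1)).mono fun p hp => le_of_lt hp
  refine ⟨{ toFun := fun q => comps T (N q.1) q
            invFun := fun q => (comps T (N q.1)).symm q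
            left_inv := ?_
            right_inv := ?_
            continuous_toFun := ?_
            continuous_invFun := ?_ }, ?_⟩
  · intro q
    simp only [comps_fst T h, Homeomorph.symm_apply_apply]
  · intro q
    simp only [comps_symm_fst T h, Homeomorph.apply_symm_apply]
  · rw [continuous_iff_continuousAt]
    rintro ⟨p₀, u₀⟩
    obtain ⟨n, hn⟩ := hloc p₀
    refine ((comps T n).continuous.continuousAt (x := (p₀, u₀))).congr ?_
    have : ∀ᶠ q : P × E in 𝓝 (p₀, u₀), 1 ≤ (n : ℝ) * s q.1 :=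
      (continuous_fst.tendsto (p₀, u₀)).eventually hn
    filter_upwards [this] with q hq
    exact (hF q.1 n hq q.2).symm
  · rw [continuous_iff_continuousAt]
    rintro ⟨p₀, u₀⟩
    obtain ⟨n, hn⟩ := hloc p₀
    refine ((comps T n).symm.continuous.continuousAt (x := (p₀, u₀))).congr ?_
    have : ∀ᶠ q : P × E in 𝓝 (p₀, u₀), 1 ≤ (n : ℝ) * s q.1 :=
      (continuous_fst.tendsto (p₀, u₀)).eventually hn
    filter_upwards [this] with q hq
    exact (hG q.1 n hq q.2).symm
  · intro p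
    exact ⟨N p, hN p, fun u => rfl⟩

end

end PushPathAux

open PushPathAux

/-- PROOF. (1) There is a continuous `nu : P -> [1,oo)` such that for all `p, t, u` with
`gau (nu p) (u - gamma(p,t)) < 2` there is `z` with `C u` and `C (gamma(p,t))` in `U z`.
(2) Similarly a continuous `s : P -> (0,1]` with `gau (nu p) (gamma(p,t') - gamma(p,t)) <= 1/2` for
`|t - t'| <= s p`. (3) `tau_k p = min 1 (k s p)`, `T_k` = `push_step` with `a = gamma(p, tau_k p)`,
`b = gamma(p, tau_(k+1) p)`; infinite composition. (4) If `Psi` moves `(p,u)`, look at the first and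
at the last step which moves the point. -/
theorem push_path {P Z : Type} [TopologicalSpace P] [TopologicalSpace.MetrizableSpace P]
    [TopologicalSpace Z] (C : E → Z) (hC : Continuous C)
    (U : Z → Set Z) (hU : Cov U) (γ : P × I → E) (hγ : Continuous γ) :
    ∃ Ψ : P × E ≃ₜ P × E, (∀ p u, (Ψ (p, u)).1 = p) ∧ (∀ p, Ψ (p, γ (p, 0)) = (p, γ (p, 1))) ∧
      ∀ p u, Ψ (p, u) = (p, u) ∨ ((∃ t z, C u ∈ U z ∧ C (γ (p, t)) ∈ U z) ∧
        ∃ t z, C (Ψ (p, u)).2 ∈ U z ∧ C (γ (p, t)) ∈ U z) := by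
  obtain ⟨ν, hν, hν1, hνU⟩ := exists_nu C hC U hU γ hγ
  obtain ⟨s, hs, hs1, hsν⟩ := exists_s ν hν γ hγ
  let tk : ℕ → P → I := fun k p => tau ((k : ℝ) * s p)
  have htk : ∀ k, Continuous (tk k) := fun k => tau_cont.comp (by fun_prop)
  let a : ℕ → P → E := fun k p => γ (p, tk k p)
  have ha : ∀ k, Continuous (a k) := fun k => hγ.comp (continuous_id.prodMk (htk k))
  have hstep : ∀ k, ∃ T : P × E ≃ₜ P × E, (∀ p u, (T (p, u)).1 = p) ∧
      (∀ p, T (p, a k p) = (p, a (k + 1) p)) ∧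
      (∀ p, a k p = a (k + 1) p → ∀ u, T (p, u) = (p, u)) ∧
      (∀ p u, 1 ≤ gau (ν p) (u - a k p) → T (p, u) = (p, u)) ∧
      ∀ p u, gau (ν p) ((T (p, u)).2 - a k p) ≤ gau (ν p) (u - a k p) + 1 / 2 := by
    intro k
    refine push_step (a k) (a (k + 1)) ν (ha k) (ha (k + 1)) hν hν1 ?_
    intro p
    refine hsν p (tk k p) (tk (k + 1) p) (le_trans (tau_dist _ _) ?_)
    have : (k : ℝ) * s p - ((k + 1 : ℕ) : ℝ) * s p = - s p := by push_cast; ring
    rw [this, abs_neg, abs_of_pos (hs1 p).1]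
  choose T hT1 hT2 hT3 hT4 hT5 using hstep
  have hid : ∀ (k : ℕ) p, 1 ≤ (k : ℝ) * s p → ∀ u, T k (p, u) = (p, u) := by
    intro k p hk u
    refine hT3 k p ?_ u
    have h1 : tk k p = 1 := tau_one hk
    have h2 : tk (k + 1) p = 1 := by
      refine tau_one (le_trans hk ?_)
      push_cast
      nlinarith [(hs1 p).1]
    simp only [a, h1, h2]
  obtain ⟨Ψ, hΨ⟩ := infinite_comp T hT1 s hs (fun p => (hs1 p).1) hid
  have htrack : ∀ p (n : ℕ), comps T n (p, γ (p, 0)) = (p, a n p) := by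
    intro p n
    induction n with
    | zero =>
      simp only [comps, a, tk, Nat.cast_zero, zero_mul, tau_zero, Homeomorph.refl_apply, id]
    | succ n ih => rw [comps_succ, ih, hT2]
  have hmove : ∀ p u (n : ℕ), comps T n (p, u) = (p, u) ∨
      ((∃ t, gau (ν p) (u - γ (p, t)) < 1) ∧
        ∃ t, gau (ν p) ((comps T n (p, u)).2 - γ (p, t)) < 3 / 2) := by
    intro p u n
    induction n with
    | zero => exact Or.inl rfl
    | succ n ih =>
      have h1 : (comps T n (p, u)).1 = p := comps_fst T hT1 n (p, u)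
      obtain ⟨v, hv⟩ : ∃ v, comps T n (p, u) = (p, v) := ⟨(comps T n (p, u)).2, by
        rw [Prod.ext_iff]; exact ⟨h1, rfl⟩⟩
      rw [comps_succ, hv]
      rw [hv] at ih
      by_cases hc : 1 ≤ gau (ν p) (v - a n p)
      · rw [hT4 n p v hc]
        exact ih
      · rw [not_le] at hc
        right
        refine ⟨?_, tk n p, ?_⟩
        · rcases ih with ih | ih
          · have : v = u := by
              have := congrArg Prod.snd ih
              exact this
            rw [this] at hc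
            exact ⟨tk n p, hc⟩
          · exact ih.1
        · have := hT5 n p v
          exact lt_of_le_of_lt this (by linarith)
  refine ⟨Ψ, ?_, ?_, ?_⟩
  · intro p u
    obtain ⟨n, _, hn⟩ := hΨ p
    rw [hn u, comps_fst T hT1]
  · intro p
    obtain ⟨n, hn1, hn⟩ := hΨ p
    rw [hn, htrack]
    simp only [a, tk, tau_one hn1]
  · intro p u
    obtain ⟨n, _, hn⟩ := hΨ p
    rw [hn u]
    rcases hmove p u n with h | ⟨⟨t, ht⟩, t', ht'⟩
    · exact Or.inl h
    · right
      refine ⟨?_, ?_⟩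
      · obtain ⟨z, hz⟩ := hνU p t u (by linarith)
        exact ⟨t, z, hz⟩
      · obtain ⟨z, hz⟩ := hνU p t' _ (by linarith)
        exact ⟨t', z, hz⟩

end Pool.Agent.Tor
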