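import Pool.Agent.Lib.Tor.Stab
import Pool.Agent.Lib.Tor.PushPath
import Pool.Agent.Lib.Tor.Dugundji
import Pool.Agent.Lib.Tor.Polish
import Pool.Agent.Lib.Tor.SZFacts

/-! MODULE Tor.Core (3 h): moving a strong Z-set of `B x F` off the tube `|v| < 1`. -/

open Set Topology Filter

namespace Pool.Agent.Tor

namespace CoreAux

/-- pointwise closeness -/
def Cl {Z : Type} (U : Z → Set Z) (x y : Z) : Prop := ∃ z, x ∈ U z ∧ y ∈ U z

theorem Cl.symm {Z : Type} {U : Z → Set Z} {x y : Z} (h : Cl U x y) : Cl U y x := by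
  obtain ⟨z, h1, h2⟩ := h
  exact ⟨z, h2, h1⟩

theorem Cl.trans {Z : Type} {U V : Z → Set Z}
    (hs : ∀ a, ∃ z, ∀ b, (V a ∩ V b).Nonempty → V b ⊆ U z) {x y z : Z}
    (h1 : Cl V x y) (h2 : Cl V y z) : Cl U x z := by
  obtain ⟨a, ha1, ha2⟩ := h1
  obtain ⟨b, hb1, hb2⟩ := h2
  obtain ⟨c, hc⟩ := hs a
  exact ⟨c, hc a ⟨x, ha1, ha1⟩ ha1, hc b ⟨y, ha2, hb1⟩ hb2⟩

theorem Cl.mono {Z : Type} {U V : Z → Set Z}
    (hs : ∀ a, ∃ z, ∀ b, (V a ∩ V b).Nonempty → V b ⊆ U z) {x y : Z}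
    (h1 : Cl V x y) : Cl U x y := by
  obtain ⟨a, ha1, ha2⟩ := h1
  obtain ⟨c, hc⟩ := hs a
  exact ⟨c, hc a ⟨x, ha1, ha1⟩ ha1, hc a ⟨x, ha1, ha1⟩ ha2⟩

/-- a refinement of order three: chains of eight members -/
theorem exists_ref (U : E → Set E) (hU : Cov U) : ∃ V : E → Set E, Cov V ∧
    ∀ x₀ x₁ x₂ x₃ x₄ x₅ x₆ : E, Cl V x₀ x₁ → Cl V x₁ x₂ → Cl V x₂ x₃ → Cl V x₃ x₄ → Cl V x₄ x₅ →
      Cl V x₅ x₆ → Cl U x₀ x₆ := by
  obtain ⟨V1, hV1, s1⟩ := exists_star hU
  obtain ⟨V2, hV2, s2⟩ := exists_star hV1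
  obtain ⟨V3, hV3, s3⟩ := exists_star hV2
  refine ⟨V3, hV3, fun x₀ x₁ x₂ x₃ x₄ x₅ x₆ h1 h2 h3 h4 h5 h6 => ?_⟩
  exact Cl.trans s1 (Cl.trans s2 (Cl.trans s3 h1 h2) (Cl.trans s3 h3 h4))
    (Cl.mono s2 (Cl.trans s3 h5 h6))

/-- convex refinements -/
theorem exists_convex (U : E → Set E) (hU : Cov U) :
    ∃ V : E → Set E, Cov V ∧ (∀ z, Convex ℝ (V z)) ∧ ∀ z, V z ⊆ U z := by
  have h : ∀ z : E, ∃ S : Set E, (IsOpen S ∧ z ∈ S) ∧ Convex ℝ S ∧ S ⊆ U z := by
    intro z
    obtain ⟨S, hS, hc, hSU⟩ := (locallyConvexSpace_iff_exists_convex_subset ℝ E).1 inferInstance z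
      (U z) ((hU z).1.mem_nhds (hU z).2)
    exact ⟨interior S, ⟨isOpen_interior, mem_interior_iff_mem_nhds.2 hS⟩, hc.interior,
      interior_subset.trans hSU⟩
  choose V h1 h2 h3 using h
  exact ⟨V, h1, h2, h3⟩

/-- short paths -/
theorem exists_gam (V : E → Set E) (hV : Cov V) (hc : ∀ z, Convex ℝ (V z)) (k : E → F)
    (hk : IsClosedEmbedding k) (b0 f1 : E → E) (hb0 : Continuous b0) (hf1 : Continuous f1)
    (hcl : ∀ b, Cl V (b0 b) (f1 b)) :
    ∃ γ : F × I → E, Continuous γ ∧ (∀ b, γ (k b, 0) = b0 b) ∧ (∀ b, γ (k b, 1) = f1 b) ∧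
      ∀ z t, Cl V (γ (z, 0)) (γ (z, t)) := by
  obtain ⟨G0, hG0, e0⟩ := ae_E.extend_emb hk b0 hb0
  obtain ⟨G1, hG1, e1⟩ := ae_E.extend_emb hk f1 hf1
  set Seg : F × I → E := fun p => (1 - (p.2 : ℝ)) • G0 p.1 + (p.2 : ℝ) • G1 p.1 with hSeg
  have hSc : Continuous Seg := by
    have h1 : Continuous fun p : F × I => G0 p.1 := hG0.comp continuous_fst
    have h2 : Continuous fun p : F × I => G1 p.1 := hG1.comp continuous_fst
    have h3 : Continuous fun p : F × I => (p.2 : ℝ) := continuous_subtype_val.comp continuous_snd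
    exact ((continuous_const.sub h3).smul h1).add (h3.smul h2)
  have hS0 : ∀ z, Seg (z, 0) = G0 z := by
    intro z; simp [hSeg]
  have hS1 : ∀ z, Seg (z, 1) = G1 z := by
    intro z; simp [hSeg]
  set O : Set (F × I) := {p | Cl V (G0 p.1) (Seg p)} with hO
  have hOo : IsOpen O := by
    have : O = ⋃ w, {p : F × I | G0 p.1 ∈ V w} ∩ {p | Seg p ∈ V w} := by
      ext p
      simp [hO, Cl]
    rw [this]
    exact isOpen_iUnion fun w => ((hV w).1.preimage (hG0.comp continuous_fst)).inter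
      ((hV w).1.preimage hSc)
  have hcl1 : IsClosed (Prod.fst '' Oᶜ) := isClosedMap_fst_of_compactSpace _ hOo.isClosed_compl
  have hdis : Disjoint (Prod.fst '' Oᶜ) (range k) := by
    rw [Set.disjoint_left]
    rintro z ⟨⟨z', t⟩, hp, rfl⟩ ⟨b, hb⟩
    apply hp
    simp only at hb
    subst hb
    obtain ⟨w, hw1, hw2⟩ := hcl b
    refine ⟨w, ?_, ?_⟩
    · simpa [e0] using hw1
    · have : Seg (k b, t) = (1 - (t : ℝ)) • b0 b + (t : ℝ) • f1 b := by
        simp [hSeg, e0, e1]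
      rw [this]
      exact hc w hw1 hw2 (by have := t.2.2; linarith) t.2.1 (by ring)
  obtain ⟨χ, hχ0, hχ1, hχ⟩ := exists_continuous_zero_one_of_isClosed hcl1 hk.isClosed_range hdis
  set ch : F → I := fun z => ⟨χ z, hχ z⟩ with hch
  have hchc : Continuous ch := χ.continuous.subtype_mk _
  refine ⟨fun p => Seg (p.1, ch p.1 * p.2), ?_, ?_, ?_, ?_⟩
  · exact hSc.comp (continuous_fst.prodMk ((hchc.comp continuous_fst).mul continuous_snd))
  · intro b
    simp only [mul_zero, hS0, e0]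
  · intro b
    have : ch (k b) = 1 := by
      apply Subtype.ext
      exact hχ1 (mem_range_self b)
    simp only [this, mul_one, hS1, e1]
  · intro z t
    simp only [mul_zero, hS0]
    by_cases hz : z ∈ Prod.fst '' Oᶜ
    · have : ch z = 0 := by
        apply Subtype.ext
        exact hχ0 hz
      rw [this, zero_mul, hS0]
      exact ⟨G0 z, (hV _).2, (hV _).2⟩
    · by_contra hcon
      exact hz ⟨(z, ch z * t), hcon, rfl⟩

/-- shear -/
def shear {X G : Type} [TopologicalSpace X] [TopologicalSpace G] [AddCommGroup G]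
    [IsTopologicalAddGroup G] (c : X → G) (hc : Continuous c) : G × X ≃ₜ G × X where
  toFun p := (p.1 + c p.2, p.2)
  invFun p := (p.1 - c p.2, p.2)
  left_inv p := by simp
  right_inv p := by simp
  continuous_toFun := by fun_prop
  continuous_invFun := by fun_prop

theorem shear_apply {X G : Type} [TopologicalSpace X] [TopologicalSpace G] [AddCommGroup G]
    [IsTopologicalAddGroup G] (c : X → G) (hc : Continuous c) (p : G × X) :
    shear c hc p = (p.1 + c p.2, p.2) := rfl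

/-- shear of the last coordinate -/
def shear2 {X Y G : Type} [TopologicalSpace X] [TopologicalSpace Y] [TopologicalSpace G]
    [AddCommGroup G]
    [IsTopologicalAddGroup G] (c : X → G) (hc : Continuous c) : X × (Y × G) ≃ₜ X × (Y × G) where
  toFun p := (p.1, (p.2.1, p.2.2 + c p.1))
  invFun p := (p.1, (p.2.1, p.2.2 - c p.1))
  left_inv p := by simp
  right_inv p := by simp
  continuous_toFun := by fun_prop
  continuous_invFun := by fun_prop

theorem shear2_apply {X Y G : Type} [TopologicalSpace X] [TopologicalSpace Y] [TopologicalSpace G]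
    [AddCommGroup G]
    [IsTopologicalAddGroup G] (c : X → G) (hc : Continuous c) (p : X × (Y × G)) :
    shear2 c hc p = (p.1, (p.2.1, p.2.2 + c p.1)) := rfl

/-- a fibre preserving homeomorphism acting on the middle coordinate -/
def mid {X P Y : Type} [TopologicalSpace X] [TopologicalSpace P] [TopologicalSpace Y]
    (Ψ : P × Y ≃ₜ P × Y) (h : ∀ p u, (Ψ (p, u)).1 = p) : X × (Y × P) ≃ₜ X × (Y × P) where
  toFun q := (q.1, ((Ψ (q.2.2, q.2.1)).2, q.2.2))
  invFun q := (q.1, ((Ψ.symm (q.2.2, q.2.1)).2, q.2.2))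
  left_inv q := by
    have h1 : (q.2.2, (Ψ (q.2.2, q.2.1)).2) = Ψ (q.2.2, q.2.1) :=
      Prod.ext (h _ _).symm rfl
    simp only [h1, Homeomorph.symm_apply_apply]
  right_inv q := by
    have h0 : (Ψ.symm (q.2.2, q.2.1)).1 = q.2.2 := by
      have h2 := h (Ψ.symm (q.2.2, q.2.1)).1 (Ψ.symm (q.2.2, q.2.1)).2
      rw [Prod.mk.eta, Homeomorph.apply_symm_apply] at h2
      exact h2.symm
    have h1 : (q.2.2, (Ψ.symm (q.2.2, q.2.1)).2) = Ψ.symm (q.2.2, q.2.1) :=
      Prod.ext h0.symm rfl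
    simp only [h1, Homeomorph.apply_symm_apply]
  continuous_toFun := by fun_prop
  continuous_invFun := by fun_prop

theorem mid_apply {X P Y : Type} [TopologicalSpace X] [TopologicalSpace P] [TopologicalSpace Y]
    (Ψ : P × Y ≃ₜ P × Y) (h : ∀ p u, (Ψ (p, u)).1 = p) (q : X × (Y × P)) :
    mid Ψ h q = (q.1, ((Ψ (q.2.2, q.2.1)).2, q.2.2)) := rfl

/-- scaling of the fibre -/
noncomputable def scal (δ : E → ℝ) (hδ : Continuous δ) (hp : ∀ b, 0 < δ b) : E × F ≃ₜ E × F where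
  toFun p := (p.1, (δ p.1)⁻¹ • p.2)
  invFun p := (p.1, (δ p.1) • p.2)
  left_inv p := by
    ext1
    · rfl
    · simp only [smul_smul, mul_inv_cancel₀ (hp p.1).ne', one_smul]
  right_inv p := by
    ext1
    · rfl
    · simp only [smul_smul, inv_mul_cancel₀ (hp p.1).ne', one_smul]
  continuous_toFun := by
    have h1 : Continuous fun p : E × F => (δ p.1)⁻¹ :=
      (hδ.comp continuous_fst).inv₀ fun p => (hp p.1).ne'
    exact continuous_fst.prodMk (h1.smul continuous_snd)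
  continuous_invFun := by
    have h1 : Continuous fun p : E × F => δ p.1 := hδ.comp continuous_fst
    exact continuous_fst.prodMk (h1.smul continuous_snd)

theorem scal_apply (δ : E → ℝ) (hδ : Continuous δ) (hp : ∀ b, 0 < δ b) (p : E × F) :
    scal δ hδ hp p = (p.1, (δ p.1)⁻¹ • p.2) := rfl

/-- the first three steps: moving the zero section off `A` -/
theorem off_zero (A : Set (E × F)) (hA : SZ A) (U : E → Set E) (hU : Cov U) :
    ∃ h : E × F ≃ₜ E × F, (∀ p, Cl U p.1 (h p).1) ∧ ∀ b, h (b, 0) ∉ A := by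
  obtain ⟨V, hV, href⟩ := exists_ref U hU
  obtain ⟨Vc, hVc, hconv, hVcV⟩ := exists_convex V hV
  obtain ⟨Vs, hVs, hstar⟩ := exists_star hVc
  have clV : ∀ {x y}, Cl Vc x y → Cl V x y := fun ⟨z, h1, h2⟩ => ⟨z, hVcV z h1, hVcV z h2⟩
  -- step 1
  obtain ⟨f, hf, hfn, hfd⟩ := hA.2 (fun p => Prod.fst ⁻¹' Vs p.1) (Cov.pull hVs continuous_fst)
  have hfc : ∀ p, Cl Vs p.1 (f p).1 := by
    intro p
    obtain ⟨z, h1, h2⟩ := hfn p
    exact ⟨z.1, h2, h1⟩
  -- step 2
  obtain ⟨Us, D, hUs, hDc, hDA, hCD, hUD⟩ := exists_cov_sep isClosed_closure hA.1 hfd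
  set Wc : E × F → Set (E × F) := fun p => Us p ∩ Prod.fst ⁻¹' Vs p.1 with hWc
  have hWcc : Cov Wc := Cov.inter hUs (Cov.pull hVs continuous_fst)
  obtain ⟨θ, hθ1, hθ2⟩ := stab_over (Y := F) (fun q : F × E => Prod.swap ⁻¹' (Wc q.swap))
    (Cov.pull hWcc continuous_swap)
  set T : E × F ≃ₜ F × (E × F) :=
    (Homeomorph.prodComm E F).trans (θ.trans (Homeomorph.prodAssoc F E F)) with hT
  have hTa : ∀ p : E × F, T p = ((θ (p.2, p.1)).1.1, ((θ (p.2, p.1)).1.2, (θ (p.2, p.1)).2)) :=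
    fun p => rfl
  have hT1 : ∀ p : E × F, (T p).1 = p.2 := fun p => by rw [hTa]; exact hθ1 _
  have hTc : ∀ p : E × F, Cl Wc p ((T p).2.1, p.2) := by
    intro p
    obtain ⟨z, h1, h2⟩ := hθ2 (p.2, p.1)
    refine ⟨z.swap, h1, ?_⟩
    have h3 : (θ (p.2, p.1)).1.swap = ((T p).2.1, p.2) := Prod.ext rfl (hθ1 _)
    have h4 : (θ (p.2, p.1)).1.swap ∈ Wc z.swap := h2
    rwa [h3] at h4
  have hTV : ∀ p : E × F, Cl Vs p.1 (T p).2.1 := by
    intro p
    obtain ⟨z, h1, h2⟩ := hTc p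
    exact ⟨z.1, h1.2, h2.2⟩
  -- the zero section
  set b0 : E → E := fun b => (T (b, 0)).2.1 with hb0
  set z0 : E → F := fun b => (T (b, 0)).2.2 with hz0
  have hTzero : ∀ b, T (b, 0) = (0, (b0 b, z0 b)) := fun b => Prod.ext (hT1 _) rfl
  have hin : Continuous fun b : E => (b, (0 : F)) := by fun_prop
  have hb0c : Continuous b0 := by
    exact (continuous_fst.comp (continuous_snd.comp (T.continuous.comp hin)))
  have hz0c : Continuous z0 := by
    exact (continuous_snd.comp (continuous_snd.comp (T.continuous.comp hin)))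
  have hemb : IsClosedEmbedding fun b => (b0 b, z0 b) := by
    have h1 : IsClosedEmbedding fun b : E => (b, (0 : F)) :=
      Function.LeftInverse.isClosedEmbedding (f := Prod.fst) (fun _ => rfl) continuous_fst hin
    have h2 : IsClosedEmbedding fun b : E => T (b, 0) := T.isClosedEmbedding.comp h1
    have h3 : IsClosedEmbedding fun x : E × F => ((0 : F), x) :=
      Function.LeftInverse.isClosedEmbedding (f := Prod.snd) (fun _ => rfl) continuous_snd
        (by fun_prop)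
    have h4 : (fun b : E => T (b, 0)) = (fun x : E × F => ((0 : F), x)) ∘ fun b => (b0 b, z0 b) := by
      funext b
      exact hTzero b
    rw [h4] at h2
    exact (IsClosedEmbedding.of_comp_iff h3).1 h2
  -- embeddings
  obtain ⟨k, hk, -⟩ := exists_emb_F E
  obtain ⟨φ, hφ, -⟩ := exists_emb_F (E × F)
  set f1 : E → E := fun b => (f (b, 0)).1 with hf1
  set f2 : E → F := fun b => (f (b, 0)).2 with hf2
  have hf1c : Continuous f1 := continuous_fst.comp (hf.comp hin)
  have hf2c : Continuous f2 := continuous_snd.comp (hf.comp hin)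
  have hφe : IsClosedEmbedding fun b => φ (b0 b, z0 b) := hφ.comp hemb
  obtain ⟨ζ, hζ, hζe⟩ := ae_F.extend_emb hφe (fun b => k b - z0 b) (hk.continuous.sub hz0c)
  obtain ⟨ω, hω, hωe⟩ := ae_F.extend_emb hk (fun b => f2 b - φ (b0 b, z0 b))
    (hf2c.sub hφe.continuous)
  have hbf : ∀ b, Cl Vc (b0 b) (f1 b) := fun b =>
    Cl.trans hstar (Cl.symm (hTV (b, 0))) (hfc (b, 0))
  obtain ⟨γ, hγ, hγ0, hγ1, hγc⟩ := exists_gam Vc hVc hconv k hk b0 f1 hb0c hf1c hbf
  obtain ⟨Ψ, hΨ1, hΨ2, hΨ3⟩ := push_path (id : E → E) continuous_id V hV γ hγ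
  set g1 : F × (E × F) ≃ₜ F × (E × F) := shear φ hφ.continuous with hg1
  set g2 : F × (E × F) ≃ₜ F × (E × F) := shear2 ζ hζ with hg2
  set g3 : F × (E × F) ≃ₜ F × (E × F) := mid Ψ hΨ1 with hg3
  set g4 : F × (E × F) ≃ₜ F × (E × F) := shear (fun x : E × F => ω x.2) (hω.comp continuous_snd)
    with hg4
  refine ⟨T.trans (g1.trans (g2.trans (g3.trans (g4.trans T.symm)))), ?_, ?_⟩
  · intro p
    set q := (T.trans (g1.trans (g2.trans (g3.trans (g4.trans T.symm))))) p with hq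
    have hTq : T q = g4 (g3 (g2 (g1 (T p)))) := by
      rw [hq]
      simp only [Homeomorph.trans_apply, Homeomorph.apply_symm_apply]
    have h1 : Cl V p.1 (T p).2.1 := clV (Cl.mono hstar (hTV p))
    have h2 : Cl V (T q).2.1 q.1 := clV (Cl.mono hstar (hTV q).symm)
    set z : F := (g2 (g1 (T p))).2.2 with hz
    have h3 : (T q).2.1 = (Ψ (z, (T p).2.1)).2 := by
      rw [hTq]
      rfl
    have hVr : ∀ x, Cl V x x := fun x => ⟨x, (hV x).2, (hV x).2⟩
    rcases hΨ3 z (T p).2.1 with h4 | ⟨⟨t, w, h4, h5⟩, t', w', h6, h7⟩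
    · have h5 : (T q).2.1 = (T p).2.1 := by rw [h3, h4]
      rw [h5] at h2
      exact href _ _ _ _ _ _ _ h1 h2 (hVr _) (hVr _) (hVr _) (hVr _)
    · rw [h3] at h2
      exact href p.1 (T p).2.1 (γ (z, t)) (γ (z, 0)) (γ (z, t')) (Ψ (z, (T p).2.1)).2 q.1 h1
        ⟨w, h4, h5⟩ (clV (hγc z t).symm) (clV (hγc z t')) ⟨w', h7, h6⟩ h2
  · intro b
    set q := (T.trans (g1.trans (g2.trans (g3.trans (g4.trans T.symm))))) (b, (0 : F)) with hq
    have hTq : T q = g4 (g3 (g2 (g1 (T (b, 0))))) := by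
      rw [hq]
      simp only [Homeomorph.trans_apply, Homeomorph.apply_symm_apply]
    have e1 : g1 (T (b, 0)) = (φ (b0 b, z0 b), (b0 b, z0 b)) := by
      rw [hTzero, hg1, shear_apply]
      simp
    have e2 : g2 (g1 (T (b, 0))) = (φ (b0 b, z0 b), (b0 b, k b)) := by
      rw [e1, hg2, shear2_apply]
      simp only [hζe b, add_sub_cancel]
    have e3 : g3 (g2 (g1 (T (b, 0)))) = (φ (b0 b, z0 b), (f1 b, k b)) := by
      rw [e2, hg3, mid_apply]
      have := hΨ2 (k b)
      rw [hγ0, hγ1] at this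
      simp only [this]
    have e4 : g4 (g3 (g2 (g1 (T (b, 0))))) = (f2 b, (f1 b, k b)) := by
      rw [e3, hg4, shear_apply]
      simp only [hωe b, add_sub_cancel]
    rw [e4] at hTq
    have hq2 : q.2 = f2 b := by
      have := hT1 q
      rw [hTq] at this
      exact this.symm
    have hcl := hTc q
    have h5 : ((T q).2.1, q.2) = f (b, 0) := by
      rw [hTq, hq2]
    rw [h5] at hcl
    obtain ⟨z, h6, h7⟩ := hcl
    have hqD : q ∈ D := hUD (f (b, 0)) (subset_closure (mem_range_self _)) q ⟨z, h7.1, h6.1⟩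
    exact fun hqA => Set.disjoint_left.1 hDA hqD hqA

end CoreAux

open CoreAux in
/-- PROOF. Fix star refinements of `U` (several times). (1) `SZ A` gives `f : E x F -> E x F` near the
identity (with respect to a cover whose `E`-projection is small) with `C = closure (range f)`
disjoint from `A`. Write `f (b,0) = (f1 b, f2 b)`, `b in E`; `f1` is near the identity.
(2) Let `Wc` be a cover of `F x E` (coordinates swapped) such that whatever is `Wc`-close to a point
of `C` is not in `A` (`exists_cov_sep`) and whose members have small `E`-projection. `stab_over` with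
`Y = F` gives a homeomorphism `th` of `E x F` onto `E x F2 x F` (`F2 = F`), `th (b,v) = (b',z,v)`, with
`(b,v)`, `(b',v)` `Wc`-close. (3) Let `th (b,0) = (b0 b, z0 b, 0)`; `b -> (b0 b, z0 b)` is a closed
embedding. Let `k : E -> F` and `phi : E x F2 -> F` be closed embeddings (`exists_emb_F`). Define
homeomorphisms of `E x F2 x F`: `g1 (b,z,v) = (b,z,v + phi(b,z))`; `g2 (b,z,v) = (b, z + ze(v), v)`,
`ze : F -> F2` a continuous extension of `phi(b0 b, z0 b) -> k b - z0 b` (closed set, `AE.extend_emb`);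
`g3 (b,z,v) = (Psi_z b, z, v)` where `Psi : F2 x E = F2 x E` is the push along the paths
`gam(z,t) = (1 - t chi z) G0 z + t chi z G1 z` (`push_path`, `C = id`), `G0, G1 : F2 -> E` continuous with
`G0 (k b) = b0 b`, `G1 (k b) = f1 b`, and `chi : F2 -> [0,1]` continuous, `1` on `range k` and `0` off the
open set of the `z` for which all points of the segment `[G0 z, G1 z]` are small-close to `G0 z` (it
contains `range k` if the covers are convex enough: take covers of `E` by open sets with convex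
refinements, or use a metric-free argument: for `a in E` and an open `O` containing `a` there is a
convex open neighbourhood of `a` inside `O`); `g4 (b,z,v) = (b,z,v + om(z))`, `om : F2 -> F`,
`om (k b) = f2 b - phi(b0 b, z0 b)`.
Then `g4 g3 g2 g1 (b0 b, z0 b, 0) = (f1 b, k b, f2 b)`, and `h' = th^-1 g4 g3 g2 g1 th` is a
homeomorphism of `E x F` near the identity over `E` (only `g3` and `th` move the `E`-coordinate) with
`h' (b,0) = th^-1 (f1 b, k b, f2 b)`, which is `Wc`-close to `(f1 b, f2 b) in C`, hence not in `A`.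
(4) `B = h'^-1 A` is closed and misses `E x {0}`, so there is a continuous `de : E -> (0,oo)` with
`|v| >= de b` for all `(b,v) in B` (`exists_below`). Put `h (p) = (b, v / de b)`, `(b,v) = h'^-1 p`. -/
theorem core (A : Set (E × F)) (hA : SZ A) (U : E → Set E) (hU : Cov U) :
    ∃ h : E × F ≃ₜ E × F, (∀ p, ∃ z, p.1 ∈ U z ∧ (h p).1 ∈ U z) ∧ ∀ p ∈ A, 1 ≤ ‖(h p).2‖ := by
  obtain ⟨h', hcl, hoff⟩ := off_zero A hA U hU
  have hB : IsClosed (h' ⁻¹' A) := hA.1.preimage h'.continuous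
  obtain ⟨δ, hδ, hδ1, hδ2⟩ := exists_below (Z := E)
    (fun b r => ∀ v : F, (b, v) ∈ h' ⁻¹' A → r ≤ ‖v‖)
    (fun b r s _ hrs h v hv => hrs.trans (h v hv)) (by
      intro b
      have h1 : (h' ⁻¹' A)ᶜ ∈ 𝓝 (b, (0 : F)) := hB.isOpen_compl.mem_nhds (hoff b)
      rw [nhds_prod_eq, mem_prod_iff] at h1
      obtain ⟨O, hO, N, hN, hsub⟩ := h1
      obtain ⟨r, hr, hrN⟩ := Metric.mem_nhds_iff.1 hN
      refine ⟨r, hr, ?_⟩
      filter_upwards [hO] with b' hb' v hv
      by_contra hlt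
      rw [not_le] at hlt
      exact hsub (mk_mem_prod hb' (hrN (mem_ball_zero_iff.2 hlt))) hv)
  refine ⟨h'.symm.trans (scal δ hδ fun b => (hδ1 b).1), ?_, ?_⟩
  · intro p
    have h1 : ((h'.symm.trans (scal δ hδ fun b => (hδ1 b).1)) p).1 = (h'.symm p).1 := rfl
    rw [h1]
    obtain ⟨z, hz1, hz2⟩ := hcl (h'.symm p)
    rw [Homeomorph.apply_symm_apply] at hz2
    exact ⟨z, hz2, hz1⟩
  · intro p hp
    have h1 : ((h'.symm.trans (scal δ hδ fun b => (hδ1 b).1)) p).2 =
        (δ (h'.symm p).1)⁻¹ • (h'.symm p).2 := rfl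
    have h2 : δ (h'.symm p).1 ≤ ‖(h'.symm p).2‖ := by
      refine hδ2 _ _ ?_
      rw [mem_preimage, Prod.mk.eta, Homeomorph.apply_symm_apply]
      exact hp
    have h3 := (hδ1 (h'.symm p).1).1
    rw [h1, norm_smul, norm_inv, Real.norm_of_nonneg h3.le, ← div_eq_inv_mul, le_div_iff₀ h3,
      one_mul]
    exact h2

/-- transport -/
theorem core' {B : Type} [TopologicalSpace B] (hB : B ≃ₜ E) (A : Set (B × F)) (hA : SZ A)
    (U : B → Set B) (hU : Cov U) :
    ∃ h : B × F ≃ₜ B × F, (∀ p, ∃ z, p.1 ∈ U z ∧ (h p).1 ∈ U z) ∧ ∀ p ∈ A, 1 ≤ ‖(h p).2‖ := by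
  set e : B × F ≃ₜ E × F := hB.prodCongr (Homeomorph.refl F) with he
  obtain ⟨h, h1, h2⟩ := core (e '' A) (hA.image e) (fun x => hB.symm ⁻¹' U (hB.symm x))
    (Cov.pull hU hB.symm.continuous)
  refine ⟨e.trans (h.trans e.symm), ?_, ?_⟩
  · intro p
    obtain ⟨z, hz1, hz2⟩ := h1 (e p)
    refine ⟨hB.symm z, ?_, hz2⟩
    have : hB.symm (e p).1 = p.1 := hB.symm_apply_apply p.1
    rw [mem_preimage, this] at hz1
    exact hz1
  · intro p hp
    exact h2 (e p) (mem_image_of_mem e hp)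

end Pool.Agent.Tor
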