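import Pool.Agent.Lib.Tor.Covers
import Pool.Agent.Lib.Tor.Polish

/-! MODULE Tor.Crush (1.2 h): crushing the fibres over a closed set. -/

open Set Topology Filter

namespace Pool.Agent.Tor

/-- the crushing with an explicit Urysohn function -/
theorem crush_aux {X M : Type} [TopologicalSpace X] [PolishSpace X] [TopologicalSpace M]
    [PolishSpace M] (c : M → X) (hc : Continuous c) (hs : Function.Surjective c) (K : Set X)
    (hK : IsClosed K) (lam : X → ℝ) (hlam : Continuous lam) (hlam0 : ∀ x, 0 ≤ lam x)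
    (hlamK : ∀ x, x ∈ K → lam x = 0) (hlamK' : ∀ x, x ∉ K → 0 < lam x)
    (φ : M → F) (hφ : IsClosedEmbedding φ) (hφn : ∀ x, ‖φ x‖ ≤ 1 / 4)
    (S : Set (X × F)) (hSdef : S = {q | ∃ m, c m = q.1 ∧ q.2 = lam (c m) • φ m}) :
    IsClosed S ∧ ∃ (p : M → S) (cK : S → X), IsCrush K c p cK := by
  have hS : IsClosed S := by
    rw [hSdef]
    apply IsSeqClosed.isClosed
    intro u q hu hq
    choose m hm1 hm2 using hu
    have h1 : Tendsto (fun k => c (m k)) atTop (𝓝 q.1) := by
      have := (continuous_fst.tendsto q).comp hq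
      exact this.congr fun k => (hm1 k).symm
    have h2 : Tendsto (fun k => lam (c (m k))) atTop (𝓝 (lam q.1)) := (hlam.tendsto _).comp h1
    have h3 : Tendsto (fun k => lam (c (m k)) • φ (m k)) atTop (𝓝 q.2) := by
      have := (continuous_snd.tendsto q).comp hq
      exact this.congr fun k => (hm2 k)
    rcases (hlam0 q.1).eq_or_lt with h0 | h0
    · have h4 : Tendsto (fun k => lam (c (m k)) • φ (m k)) atTop (𝓝 0) := by
        refine squeeze_zero_norm (a := fun k => lam (c (m k)) * (1 / 4)) (fun k => ?_) ?_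
        · rw [norm_smul, Real.norm_of_nonneg (hlam0 _)]
          exact mul_le_mul_of_nonneg_left (hφn _) (hlam0 _)
        · have := h2.mul_const (1 / 4 : ℝ)
          rwa [← h0, zero_mul] at this
      have h5 : q.2 = 0 := tendsto_nhds_unique h3 h4
      obtain ⟨m', hm'⟩ := hs q.1
      refine ⟨m', hm', ?_⟩
      rw [hm', ← h0, zero_smul, h5]
    · have h4 : Tendsto (fun k => φ (m k)) atTop (𝓝 ((lam q.1)⁻¹ • q.2)) := by
        have h5 := (h2.inv₀ h0.ne').smul h3
        refine h5.congr' ?_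
        filter_upwards [h2.eventually (lt_mem_nhds h0)] with k hk
        rw [smul_smul, inv_mul_cancel₀ hk.ne', one_smul]
      have h5 : (lam q.1)⁻¹ • q.2 ∈ range φ :=
        hφ.isClosed_range.mem_of_tendsto h4 (Eventually.of_forall fun k => mem_range_self _)
      obtain ⟨m', hm'⟩ := h5
      have h6 : Tendsto m atTop (𝓝 m') := by
        rw [hφ.isEmbedding.isInducing.tendsto_nhds_iff, hm']
        exact h4
      have h7 : c m' = q.1 := tendsto_nhds_unique ((hc.tendsto m').comp h6) h1
      refine ⟨m', h7, ?_⟩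
      rw [hm', h7, smul_smul, mul_inv_cancel₀ h0.ne', one_smul]
  have hmem : ∀ m, (c m, lam (c m) • φ m) ∈ S := fun m => hSdef ▸ ⟨m, rfl, rfl⟩
  obtain ⟨p, hpdef⟩ : ∃ p : M → S, ∀ m, (p m : X × F) = (c m, lam (c m) • φ m) :=
    ⟨fun m => ⟨(c m, lam (c m) • φ m), hmem m⟩, fun m => rfl⟩
  have hp : Continuous p := by
    rw [continuous_induced_rng]
    exact (hc.prodMk ((hlam.comp hc).smul hφ.continuous)).congr fun m => (hpdef m).symm
  refine ⟨hS, p, fun q => q.1.1,
      { hK := hK
        hc := hc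
        hp := hp
        hcK := continuous_fst.comp continuous_subtype_val
        surj := ?_
        cK_p := fun m => by rw [hpdef]
        at_K := ?_
        off_K := ?_ }⟩
  · rintro ⟨⟨x, v⟩, hxv⟩
    have hxv' := hxv
    rw [hSdef] at hxv'
    obtain ⟨m, hm1, hm2⟩ := hxv'
    refine ⟨m, Subtype.ext ?_⟩
    rw [hpdef]
    exact Prod.ext hm1 hm2.symm
  · intro m hm V hV
    rw [nhds_subtype_eq_comap, mem_comap] at hV
    obtain ⟨V1, hV1, hV2⟩ := hV
    rw [hpdef, hlamK _ hm, zero_smul, mem_nhds_prod_iff] at hV1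
    obtain ⟨O, hO, B, hB, hOB⟩ := hV1
    obtain ⟨r, hr, hrB⟩ := Metric.mem_nhds_iff.1 hB
    have h1 : {x | lam x < r} ∈ 𝓝 (c m) :=
      (hlam.tendsto (c m)).eventually (gt_mem_nhds (by rw [hlamK _ hm]; exact hr))
    refine ⟨O ∩ {x | lam x < r}, inter_mem hO h1, fun m' hm' => hV2 (hOB ?_)⟩
    rw [hpdef]
    refine ⟨hm'.1, hrB ?_⟩
    rw [mem_ball_zero_iff, norm_smul, Real.norm_of_nonneg (hlam0 _)]
    have h2 : lam (c m') < r := hm'.2
    have h3 := hφn m'
    have h4 := hlam0 (c m')
    calc lam (c m') * ‖φ m'‖ ≤ lam (c m') * 1 :=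
          mul_le_mul_of_nonneg_left (h3.trans (by norm_num)) h4
      _ < r := by rw [mul_one]; exact h2
  · intro m hm V hV
    have hpos := hlamK' _ hm
    rw [hφ.isEmbedding.isInducing.nhds_eq_comap, mem_comap] at hV
    obtain ⟨B, hB, hBV⟩ := hV
    have c1 : Continuous fun q : S => lam q.1.1 :=
      hlam.comp (continuous_fst.comp continuous_subtype_val)
    have c2 : Continuous fun q : S => q.1.2 := continuous_snd.comp continuous_subtype_val
    have h2 : ∀ m', lam (c m') ≠ 0 → (lam (p m').1.1)⁻¹ • (p m').1.2 = φ m' := by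
      intro m' h
      rw [hpdef, smul_smul, inv_mul_cancel₀ h, one_smul]
    have hpos2 : lam (p m).1.1 ≠ 0 := by
      rw [hpdef]
      exact hpos.ne'
    have h1 : ContinuousAt (fun q : S => (lam q.1.1)⁻¹ • q.1.2) (p m) :=
      (c1.continuousAt.inv₀ hpos2).smul c2.continuousAt
    have h3 : {q : S | lam q.1.1 ≠ 0 ∧ (lam q.1.1)⁻¹ • q.1.2 ∈ B} ∈ 𝓝 (p m) := by
      have h4 : ∀ᶠ q : S in 𝓝 (p m), lam q.1.1 ≠ 0 := c1.continuousAt.eventually_ne hpos2
      have h5 : ∀ᶠ q : S in 𝓝 (p m), (lam q.1.1)⁻¹ • q.1.2 ∈ B := by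
        refine h1.eventually_mem ?_
        rw [h2 m hpos.ne']
        exact hB
      exact h4.and h5
    refine ⟨_, h3, fun m' hm' => hBV ?_⟩
    have h6 : lam (c m') ≠ 0 := by
      have := hm'.1
      rwa [hpdef] at this
    have h4 := hm'.2
    rw [h2 m' h6] at h4
    exact h4

/-- PROOF. Metric on `X`. If `K` is empty take `MK = M`, `p = id`. Otherwise `lam x = infDist x K`,
`phi : M -> F` a bounded closed embedding, `MK = {(x,v) in X x F : exists m, c m = x and
v = (min 1 (lam x)) . phi m}`, `p m = (c m, min 1 (lam (c m)) . phi m)`, `cK = ` first coordinate.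
`MK` is closed in `X x F`: if `(c m_k, lam_k phi m_k) -> (x,v)` and `lam x > 0` then `phi m_k`
converges, so `m_k` converges; if `lam x = 0` then `v = 0` and any `m` with `c m = x` (surjectivity)
does. `at_K`: `|v| <= lam`. `off_K`: if `c m` is not in `K`, `phi m' = v / lam` depends continuously on
`(x,v)`, and `phi` is an embedding. -/
theorem exists_crush {X M : Type} [TopologicalSpace X] [PolishSpace X] [TopologicalSpace M]
    [PolishSpace M] (c : M → X) (hc : Continuous c) (hs : Function.Surjective c) (K : Set X)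
    (hK : IsClosed K) :
    ∃ (MK : Type) (_ : TopologicalSpace MK) (_ : PolishSpace MK) (p : M → MK) (cK : MK → X),
      IsCrush K c p cK := by
  rcases K.eq_empty_or_nonempty with rfl | hne
  · exact ⟨M, inferInstance, inferInstance, id, c,
      { hK := hK
        hc := hc
        hp := continuous_id
        hcK := hc
        surj := Function.surjective_id
        cK_p := fun m => rfl
        at_K := fun m hm => absurd hm (notMem_empty _)
        off_K := fun m _ V hV => ⟨V, hV, Subset.rfl⟩ }⟩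
  obtain ⟨lam, hlam, hlam0, hlamK, hlamK'⟩ : ∃ lam : X → ℝ, Continuous lam ∧ (∀ x, 0 ≤ lam x) ∧
      (∀ x, x ∈ K → lam x = 0) ∧ ∀ x, x ∉ K → 0 < lam x := by
    let := TopologicalSpace.upgradeIsCompletelyMetrizable X
    exact ⟨fun x => Metric.infDist x K, Metric.continuous_infDist_pt K,
      fun x => Metric.infDist_nonneg, fun x hx => Metric.infDist_zero_of_mem hx,
      fun x hx => (hK.notMem_iff_infDist_pos hne).1 hx⟩
  obtain ⟨φ, hφ, hφn⟩ := exists_emb_F M
  obtain ⟨hS, p, cK, h⟩ := crush_aux c hc hs K hK lam hlam hlam0 hlamK hlamK' φ hφ hφn _ rfl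
  exact ⟨_, inferInstance, hS.polishSpace, p, cK, h⟩

/-- PROOF: `at_K` for both points and `T1`. -/
theorem crush_eq {X M MK : Type} [TopologicalSpace X] [TopologicalSpace M]
    [TopologicalSpace MK] [T1Space MK] {K : Set X} {c : M → X} {p : M → MK} {cK : MK → X}
    (h : IsCrush K c p cK) (m m' : M) (hm : c m ∈ K) (he : c m' = c m) : p m' = p m := by
  by_contra hne
  obtain ⟨O, hO, h1⟩ := h.at_K m hm {p m'}ᶜ (isClosed_singleton.isOpen_compl.mem_nhds
    (fun h' => hne (mem_singleton_iff.1 h').symm))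
  exact h1 m' (he ▸ mem_of_mem_nhds hO) rfl

end Pool.Agent.Tor
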