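import Pool.Agent.Lib.Tor.Covers
import Pool.Agent.Lib.Tor.Polish

/-! MODULE Tor.CylFacts (2 h): existence and elementary facts on mapping cylinders. -/

open Set Topology Filter

namespace Pool.Agent.Tor

namespace CylFactsAux

/-- the carrier of the mapping cylinder -/
def S {X : Type} (q : E → X) (φ : E → F) : Set (X × I × F) :=
  {p | (p.2.1 = 0 ∧ p.2.2 = 0) ∨
    (0 < p.2.1 ∧ ∃ n, q n = p.1 ∧ p.2.2 = (p.2.1 : ℝ) • φ n)}

theorem S_closed {X : Type} [TopologicalSpace X] [PolishSpace X] {q : E → X}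
    (hq : Continuous q) {φ : E → F} (hφ : IsClosedEmbedding φ) (hb : ∀ n, ‖φ n‖ ≤ 1 / 4) :
    IsClosed (S q φ) := by
  rw [← isSeqClosed_iff_isClosed]
  intro p z hp hz
  have hx : Tendsto (fun k => (p k).1) atTop (𝓝 z.1) := (continuous_fst.tendsto z).comp hz
  have ht : Tendsto (fun k => ((p k).2.1 : ℝ)) atTop (𝓝 (z.2.1 : ℝ)) :=
    ((continuous_subtype_val.comp (continuous_fst.comp continuous_snd)).tendsto z).comp hz
  have hv : Tendsto (fun k => (p k).2.2) atTop (𝓝 z.2.2) :=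
    ((continuous_snd.comp continuous_snd).tendsto z).comp hz
  have hnorm : ∀ k, ‖(p k).2.2‖ ≤ ((p k).2.1 : ℝ) := by
    intro k
    rcases hp k with ⟨h1, h2⟩ | ⟨h1, n, h2, h3⟩
    · rw [h2, norm_zero]
      exact (p k).2.1.2.1
    · rw [h3, norm_smul, Real.norm_eq_abs, abs_of_nonneg (p k).2.1.2.1]
      have := hb n
      have h4 := (p k).2.1.2.1
      nlinarith
  rcases eq_or_lt_of_le (unitInterval.nonneg' (t := z.2.1)) with h0 | h0
  · left
    refine ⟨h0.symm, ?_⟩
    have h1 : ‖z.2.2‖ ≤ (z.2.1 : ℝ) := le_of_tendsto_of_tendsto' hv.norm ht hnorm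
    rw [← h0] at h1
    exact norm_le_zero_iff.1 h1
  · right
    refine ⟨h0, ?_⟩
    have h0' : (0 : ℝ) < (z.2.1 : ℝ) := h0
    have hev : ∀ᶠ k in atTop, 0 < ((p k).2.1 : ℝ) := ht.eventually (lt_mem_nhds h0')
    have hw : Tendsto (fun k => ((p k).2.1 : ℝ)⁻¹ • (p k).2.2) atTop
        (𝓝 ((z.2.1 : ℝ)⁻¹ • z.2.2)) := (ht.inv₀ h0'.ne').smul hv
    have hform : ∀ᶠ k in atTop, ∃ n, q n = (p k).1 ∧ φ n = ((p k).2.1 : ℝ)⁻¹ • (p k).2.2 := by
      filter_upwards [hev] with k hk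
      rcases hp k with ⟨h1, h2⟩ | ⟨h1, n, h2, h3⟩
      · rw [h1] at hk
        exact absurd hk (lt_irrefl _)
      · refine ⟨n, h2, ?_⟩
        rw [h3, smul_smul, inv_mul_cancel₀ hk.ne', one_smul]
    have hmem : ((z.2.1 : ℝ)⁻¹ • z.2.2) ∈ range φ := by
      refine hφ.isClosed_range.mem_of_tendsto hw ?_
      filter_upwards [hform] with k hk
      obtain ⟨n, -, hn⟩ := hk
      exact ⟨n, hn⟩
    obtain ⟨n, hn⟩ := hmem
    refine ⟨n, ?_, ?_⟩
    · have h2 : Tendsto (fun k => Function.invFun φ (((p k).2.1 : ℝ)⁻¹ • (p k).2.2)) atTop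
          (𝓝 n) := by
        rw [hφ.isInducing.tendsto_nhds_iff, hn]
        refine hw.congr' ?_
        filter_upwards [hform] with k hk
        obtain ⟨n', -, hn'⟩ := hk
        exact (Function.invFun_eq ⟨n', hn'⟩).symm
      have h3 : Tendsto (fun k => q (Function.invFun φ (((p k).2.1 : ℝ)⁻¹ • (p k).2.2))) atTop
          (𝓝 (q n)) := (hq.tendsto n).comp h2
      refine tendsto_nhds_unique h3 (hx.congr' ?_)
      filter_upwards [hform] with k hk
      obtain ⟨n', h4, hn'⟩ := hk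
      rw [← hn', Function.leftInverse_invFun hφ.injective n', h4]
    · rw [hn, smul_smul, mul_inv_cancel₀ h0'.ne', one_smul]

end CylFactsAux

open CylFactsAux

/-- PROOF. Let `phi : E -> F` be a closed embedding with `|phi| <= 1/4` and
`M = {(x,t,v) in X x I x F : (t = 0 and v = 0) or (0 < t and exists n, q n = x and v = t . phi n)}`.
`M` is closed: if `(x_k,t_k,t_k phi(n_k)) -> (x,t,v)` with `t > 0` then `phi (n_k) -> v / t`, so `n_k`
converges; if `t = 0` then `|v| <= lim t_k / 4 = 0`. So `M` is Polish. `c = ` first, `lev = ` second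
coordinate, `i x = (x,0,0)`, `J (n,t) = (q n, t, t . phi n)`, `pn (x,t,v) = phi^-1 (v / t)`.
`nhds_i`: `|v| <= t`. -/
theorem exists_cyl {X : Type} [TopologicalSpace X] [PolishSpace X] (q : E → X)
    (hq : Continuous q) :
    ∃ (M : Type) (_ : TopologicalSpace M) (_ : PolishSpace M) (c : M → X) (lev : M → I)
      (i : X → M) (J : E × I → M), IsCyl q c lev i J := by
  obtain ⟨φ, hφ, hb⟩ := exists_emb_F E
  have hcl : IsClosed (S q φ) := S_closed hq hφ hb
  have hpol : PolishSpace (S q φ) := hcl.polishSpace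
  have hnorm : ∀ m : S q φ, ‖m.1.2.2‖ ≤ (m.1.2.1 : ℝ) := by
    intro m
    rcases m.2 with ⟨h1, h2⟩ | ⟨h1, n, h2, h3⟩
    · rw [h2, norm_zero]
      exact m.1.2.1.2.1
    · rw [h3, norm_smul, Real.norm_eq_abs, abs_of_nonneg m.1.2.1.2.1]
      have := hb n
      have h4 := m.1.2.1.2.1
      nlinarith
  have hJm : ∀ p : E × I, ((q p.1, p.2, (p.2 : ℝ) • φ p.1) : X × I × F) ∈ S q φ := by
    intro p
    rcases eq_or_lt_of_le (unitInterval.nonneg' (t := p.2)) with h0 | h0
    · left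
      refine ⟨h0.symm, ?_⟩
      change (p.2 : ℝ) • φ p.1 = 0
      rw [← h0]
      simp
    · right
      exact ⟨h0, p.1, rfl, rfl⟩
  refine ⟨S q φ, inferInstance, hpol, fun m => m.1.1, fun m => m.1.2.1,
    fun x => ⟨(x, 0, 0), Or.inl ⟨rfl, rfl⟩⟩,
    fun p => ⟨(q p.1, p.2, (p.2 : ℝ) • φ p.1), hJm p⟩, ?_⟩
  have hφc : Continuous φ := hφ.continuous
  refine ⟨hq, by fun_prop, by fun_prop, by fun_prop, by fun_prop, fun x => rfl, fun x => rfl,
    fun n t => rfl, fun n t => rfl, ?_, ?_, ?_, ?_⟩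
  · intro n
    apply Subtype.ext
    simp
  · intro m hm
    apply Subtype.ext
    rcases m.2 with ⟨h1, h2⟩ | ⟨h1, n, h2, h3⟩
    · exact Prod.ext rfl (Prod.ext h1 h2)
    · exact absurd hm h1.ne'
  · refine ⟨fun m => Function.invFun φ ((m.1.2.1 : ℝ)⁻¹ • m.1.2.2), ?_, ?_, ?_⟩
    · rw [hφ.isInducing.continuousOn_iff]
      have h1 : ContinuousOn (fun m : S q φ => (m.1.2.1 : ℝ)⁻¹ • m.1.2.2)
          {m | 0 < m.1.2.1} := by
        have h2 : Continuous (fun m : S q φ => (m.1.2.1 : ℝ)) := by fun_prop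
        have h3 : Continuous (fun m : S q φ => m.1.2.2) := by fun_prop
        refine ContinuousOn.smul (ContinuousOn.inv₀ h2.continuousOn ?_) h3.continuousOn
        intro m hm
        have : (0 : ℝ) < (m.1.2.1 : ℝ) := hm
        exact this.ne'
      refine h1.congr ?_
      intro m hm
      have hm' : (0 : ℝ) < (m.1.2.1 : ℝ) := hm
      rcases m.2 with ⟨h1, h2⟩ | ⟨h1, n, h2, h3⟩
      · exact absurd h1 (ne_of_gt hm)
      · refine Function.invFun_eq ⟨n, ?_⟩
        rw [h3, smul_smul, inv_mul_cancel₀ hm'.ne', one_smul]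
    · intro n t ht
      have ht' : (0 : ℝ) < (t : ℝ) := ht
      change Function.invFun φ ((t : ℝ)⁻¹ • ((t : ℝ) • φ n)) = n
      rw [smul_smul, inv_mul_cancel₀ ht'.ne', one_smul]
      exact Function.leftInverse_invFun hφ.injective n
    · intro m hm
      have hm' : (0 : ℝ) < (m.1.2.1 : ℝ) := hm
      apply Subtype.ext
      rcases m.2 with ⟨h1, h2⟩ | ⟨h1, n, h2, h3⟩
      · exact absurd h1 (ne_of_gt hm)
      · have e : Function.invFun φ ((m.1.2.1 : ℝ)⁻¹ • m.1.2.2) = n := by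
          rw [h3, smul_smul, inv_mul_cancel₀ hm'.ne', one_smul]
          exact Function.leftInverse_invFun hφ.injective n
        change (q (Function.invFun φ ((m.1.2.1 : ℝ)⁻¹ • m.1.2.2)), m.1.2.1,
          (m.1.2.1 : ℝ) • φ (Function.invFun φ ((m.1.2.1 : ℝ)⁻¹ • m.1.2.2))) = m.1
        rw [e, h2]
        exact Prod.ext rfl (Prod.ext rfl h3.symm)
  · intro x V hV
    rw [nhds_subtype_eq_comap, mem_comap] at hV
    obtain ⟨U, hU, hUV⟩ := hV
    rw [nhds_prod_eq, mem_prod_iff] at hU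
    obtain ⟨O, hO, T, hT, hOT⟩ := hU
    rw [nhds_prod_eq, mem_prod_iff] at hT
    obtain ⟨T1, hT1, B, hB, hTB⟩ := hT
    obtain ⟨r, hr, hrT⟩ := Metric.mem_nhds_iff.1 hT1
    obtain ⟨r', hr', hrB⟩ := Metric.mem_nhds_iff.1 hB
    refine ⟨O, hO, min r r', lt_min hr hr', ?_⟩
    intro m hm hlt
    apply hUV
    apply hOT
    refine ⟨hm, hTB ⟨hrT ?_, hrB ?_⟩⟩
    · rw [Metric.mem_ball, Subtype.dist_eq, Real.dist_eq]
      have h1 := m.1.2.1.2.1
      have h2 := lt_of_lt_of_le hlt (min_le_left r r')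
      have h3 : ((0 : I) : ℝ) = 0 := rfl
      rw [h3, sub_zero, abs_of_nonneg h1]
      exact h2
    · rw [mem_ball_zero_iff]
      exact lt_of_le_of_lt (hnorm m) (lt_of_lt_of_le hlt (min_le_right r r'))

variable {X M : Type} [TopologicalSpace X] [TopologicalSpace M] {q : E → X} {c : M → X}
  {lev : M → I} {i : X → M} {J : E × I → M}

/-- vertical collapse. PROOF: `ver (m,u) = J (pn m, (1-u) lev m)` if `lev m > 0`, `i (c m)` otherwise;
continuity at `lev m = 0` by `nhds_i`. -/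
theorem exists_ver (hc : IsCyl q c lev i J) : ∃ ver : M × I → M, Continuous ver ∧
    (∀ m, ver (m, 0) = m) ∧ (∀ m, ver (m, 1) = i (c m)) ∧ (∀ m u, c (ver (m, u)) = c m) ∧
    (∀ m u, (lev (ver (m, u)) : ℝ) = (1 - u) * lev m) ∧
    (∀ (n : E) (t u t' : I), (t' : ℝ) = (1 - u) * t → ver (J (n, t), u) = J (n, t')) ∧
    ∀ x u, ver (i x, u) = i x := by
  classical
  obtain ⟨pn, hpc, hpJ, hJp⟩ := hc.pn
  have hzero : ∀ m, ¬ 0 < lev m → lev m = 0 := fun m hm =>
    le_antisymm (not_lt.1 hm) unitInterval.nonneg'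
  set ver : M × I → M := fun p =>
    if 0 < lev p.1 then J (pn p.1, unitInterval.symm p.2 * lev p.1) else i (c p.1) with hver
  have hvp : ∀ m u, 0 < lev m → ver (m, u) = J (pn m, unitInterval.symm u * lev m) := by
    intro m u hm
    simp only [hver]
    rw [if_pos hm]
  have hvz : ∀ m u, ¬ 0 < lev m → ver (m, u) = i (c m) := by
    intro m u hm
    simp only [hver]
    rw [if_neg hm]
  have hcv : ∀ m u, c (ver (m, u)) = c m := by
    intro m u
    by_cases hm : 0 < lev m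
    · rw [hvp m u hm, hc.c_J, ← hc.c_J (pn m) (lev m), hJp m hm]
    · rw [hvz m u hm, hc.c_i]
  have hlv : ∀ m u, (lev (ver (m, u)) : ℝ) = (1 - u) * lev m := by
    intro m u
    by_cases hm : 0 < lev m
    · rw [hvp m u hm, hc.lev_J]
      simp
    · rw [hvz m u hm, hc.lev_i, hzero m hm]
      simp
  refine ⟨ver, ?_, ?_, ?_, hcv, hlv, ?_, ?_⟩
  · rw [continuous_iff_continuousAt]
    rintro ⟨m, u⟩
    by_cases hm : 0 < lev m
    · have hopen : IsOpen {p : M × I | 0 < lev p.1} :=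
        isOpen_lt continuous_const (hc.hlev.comp continuous_fst)
      have hmem : {p : M × I | 0 < lev p.1} ∈ 𝓝 (m, u) := hopen.mem_nhds hm
      have h1 : ContinuousOn (fun p : M × I => J (pn p.1, unitInterval.symm p.2 * lev p.1))
          {p : M × I | 0 < lev p.1} := by
        refine hc.hJ.comp_continuousOn (ContinuousOn.prodMk ?_ ?_)
        · exact hpc.comp continuous_fst.continuousOn (fun p hp => hp)
        · exact ((unitInterval.continuous_symm.comp continuous_snd).mul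
            (hc.hlev.comp continuous_fst)).continuousOn
      refine (h1.continuousAt hmem).congr ?_
      filter_upwards [hmem] with p hp
      exact (hvp p.1 p.2 hp).symm
    · rw [ContinuousAt, hvz m u hm]
      intro V hV
      obtain ⟨O, hO, ε, hε, hOV⟩ := hc.nhds_i (c m) V hV
      have h1 : ∀ᶠ p : M × I in 𝓝 (m, u), c p.1 ∈ O :=
        ((hc.hc.comp continuous_fst).tendsto (m, u)) hO
      have h2 : ∀ᶠ p : M × I in 𝓝 (m, u), (lev p.1 : ℝ) < ε := by
        have h3 : Continuous (fun p : M × I => (lev p.1 : ℝ)) :=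
          continuous_subtype_val.comp (hc.hlev.comp continuous_fst)
        refine (h3.tendsto (m, u)).eventually (gt_mem_nhds ?_)
        change (lev m : ℝ) < ε
        rw [hzero m hm]
        exact hε
      rw [mem_map]
      filter_upwards [h1, h2] with p hp1 hp2
      refine hOV _ ?_ ?_
      · rw [show p = (p.1, p.2) from rfl, hcv]
        exact hp1
      · rw [show p = (p.1, p.2) from rfl, hlv]
        have h4 := p.2.2.1
        have h5 := (lev p.1).2.1
        nlinarith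
  · intro m
    by_cases hm : 0 < lev m
    · rw [hvp m 0 hm, unitInterval.symm_zero, one_mul, hJp m hm]
    · rw [hvz m 0 hm]
      exact (hc.eq_i m (hzero m hm)).symm
  · intro m
    by_cases hm : 0 < lev m
    · rw [hvp m 1 hm, unitInterval.symm_one, zero_mul, hc.J_zero, ← hc.c_J (pn m) (lev m),
        hJp m hm]
    · rw [hvz m 1 hm]
  · intro n t u t' ht'
    by_cases ht : 0 < t
    · have h1 : 0 < lev (J (n, t)) := by
        rw [hc.lev_J]
        exact ht
      rw [hvp _ u h1, hpJ n t ht, hc.lev_J]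
      congr 2
      apply Subtype.ext
      rw [ht']
      simp
    · have h0 : t = 0 := le_antisymm (not_lt.1 ht) unitInterval.nonneg'
      have h1 : t' = 0 := by
        apply Subtype.ext
        rw [ht', h0]
        simp
      have h2 : ¬ 0 < lev (J (n, t)) := by
        rw [hc.lev_J]
        exact ht
      rw [hvz _ u h2, hc.c_J, h1, hc.J_zero]
  · intro x u
    have h2 : ¬ 0 < lev (i x) := by
      rw [hc.lev_i]
      exact lt_irrefl _
    rw [hvz _ u h2, hc.c_i]

/-- `J` is onto when `q` is. -/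
theorem cyl_surj (hc : IsCyl q c lev i J) (hs : Function.Surjective q) :
    Function.Surjective J := by
  obtain ⟨pn, hpc, hpJ, hJp⟩ := hc.pn
  intro m
  by_cases hm : 0 < lev m
  · exact ⟨(pn m, lev m), hJp m hm⟩
  · have h0 : lev m = 0 := le_antisymm (not_lt.1 hm) unitInterval.nonneg'
    obtain ⟨n, hn⟩ := hs (c m)
    refine ⟨(n, 0), ?_⟩
    rw [hc.J_zero, hn]
    exact (hc.eq_i m h0).symm

/-- local inverse of `J` off the zero level: PROOF: `pn`. -/
theorem cyl_open (hc : IsCyl q c lev i J) (n : E) (t : I) (ht : 0 < t) (V : Set (E × I))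
    (hV : V ∈ 𝓝 (n, t)) : ∃ V' ∈ 𝓝 (J (n, t)), J ⁻¹' V' ⊆ V ∧ V' ⊆ J '' V := by
  obtain ⟨pn, hpc, hpJ, hJp⟩ := hc.pn
  have hopen : IsOpen {m | 0 < lev m} := isOpen_lt continuous_const hc.hlev
  have hmem : J (n, t) ∈ {m | 0 < lev m} := by
    change 0 < lev (J (n, t))
    rw [hc.lev_J]
    exact ht
  have h1 : ContinuousAt (fun m => (pn m, lev m)) (J (n, t)) :=
    ((hpc.continuousAt (hopen.mem_nhds hmem))).prodMk hc.hlev.continuousAt
  have h2 : (fun m => (pn m, lev m)) ⁻¹' V ∈ 𝓝 (J (n, t)) := by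
    apply h1
    change V ∈ 𝓝 (pn (J (n, t)), lev (J (n, t)))
    rw [hpJ n t ht, hc.lev_J]
    exact hV
  refine ⟨{m | 0 < lev m} ∩ (fun m => (pn m, lev m)) ⁻¹' V,
    inter_mem (hopen.mem_nhds hmem) h2, ?_, ?_⟩
  · rintro ⟨n', t'⟩ ⟨h3, h4⟩
    have h3' : 0 < t' := by
      have : 0 < lev (J (n', t')) := h3
      rwa [hc.lev_J] at this
    have h5 : (pn (J (n', t')), lev (J (n', t'))) ∈ V := h4
    rwa [hpJ n' t' h3', hc.lev_J] at h5
  · rintro m ⟨h3, h4⟩
    exact ⟨(pn m, lev m), h4, hJp m h3⟩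

theorem cyl_inj (hc : IsCyl q c lev i J) (n n' : E) (t t' : I) (ht : 0 < t)
    (h : J (n, t) = J (n', t')) : n = n' ∧ t = t' := by
  obtain ⟨pn, hpc, hpJ, hJp⟩ := hc.pn
  have h1 : t = t' := by
    have := congrArg lev h
    rwa [hc.lev_J, hc.lev_J] at this
  subst h1
  have h2 := congrArg pn h
  rw [hpJ n t ht, hpJ n' t ht] at h2
  exact ⟨h2, rfl⟩

/-- PROOF. For `x` let `O_x` open, `de_x > 0` with `c m in O_x, lev m < de_x -> m in V (i x)`
(`nhds_i`). `exists_below` with `P y r = exists x', y in O_x' and 8 r < de_x'` gives `eps`; for `y0` take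
`x'` from `P y0 (eps y0)` and `O y0 = O_x' inter {y | eps y < 2 eps y0}`. -/
theorem cyl_cover [TopologicalSpace.MetrizableSpace X] (hc : IsCyl q c lev i J)
    (V : M → Set M) (hV : Cov V) :
    ∃ (ε : X → ℝ) (O : X → Set X), Continuous ε ∧ (∀ x, 0 < ε x ∧ ε x ≤ 1 / 4) ∧ Cov O ∧
      ∀ x, ∃ x', ∀ m, c m ∈ O x → (lev m : ℝ) ≤ 4 * ε (c m) → m ∈ V (i x') := by
  have h1 : ∀ x, ∃ (O : Set X) (δ : ℝ), IsOpen O ∧ x ∈ O ∧ 0 < δ ∧
      ∀ m, c m ∈ O → (lev m : ℝ) < δ → m ∈ V (i x) := by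
    intro x
    obtain ⟨O, hO, δ, hδ, hOV⟩ := hc.nhds_i x (V (i x)) ((hV (i x)).1.mem_nhds (hV (i x)).2)
    exact ⟨interior O, δ, isOpen_interior, mem_interior_iff_mem_nhds.2 hO, hδ,
      fun m hm hl => hOV m (interior_subset hm) hl⟩
  choose O δ hO hxO hδ hOV using h1
  obtain ⟨ε, hε, hε1, hP⟩ := exists_below (Z := X)
    (fun y r => ∃ x', y ∈ O x' ∧ 8 * r < δ x')
    (by
      rintro z r s hr hrs ⟨x', h2, h3⟩
      exact ⟨x', h2, by linarith⟩)
    (by
      intro z
      refine ⟨δ z / 16, by linarith [hδ z], ?_⟩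
      filter_upwards [(hO z).mem_nhds (hxO z)] with z' hz'
      exact ⟨z, hz', by linarith [hδ z]⟩)
  choose x' hx'O hx'δ using hP
  refine ⟨fun x => ε x / 4, fun y => O (x' y) ∩ {z | ε z < 2 * ε y}, by fun_prop, ?_, ?_, ?_⟩
  · intro x
    have := hε1 x
    constructor <;> linarith [this.1, this.2]
  · intro y
    refine ⟨(hO _).inter (isOpen_lt hε continuous_const), hx'O y, ?_⟩
    change ε y < 2 * ε y
    linarith [(hε1 y).1]
  · intro y
    refine ⟨x' y, ?_⟩
    rintro m ⟨hm1, hm2⟩ hl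
    refine hOV _ m hm1 ?_
    have h2 : ε (c m) < 2 * ε y := hm2
    have h3 := hx'δ y
    have h4 := (hε1 y).1
    linarith

/-- PROOF: `exists_below` on `E` for `1 - w`. -/
theorem cyl_top (hc : IsCyl q c lev i J) (W : Set M) (hW : IsOpen W)
    (h : ∀ n, J (n, 1) ∈ W) :
    ∃ w : E → ℝ, Continuous w ∧ (∀ n, 1 / 2 ≤ w n ∧ w n < 1) ∧
      ∀ n (t : I), w n ≤ t → J (n, t) ∈ W := by
  obtain ⟨ε, hε, hε1, hP⟩ := exists_below (Z := E)
    (fun n r => ∀ t : I, 1 - r ≤ t → J (n, t) ∈ W)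
    (by
      intro n r s hr hrs hs t ht
      exact hs t (by linarith))
    (by
      intro n
      have h1 : J ⁻¹' W ∈ 𝓝 (n, (1 : I)) := (hW.preimage hc.hJ).mem_nhds (h n)
      rw [nhds_prod_eq, mem_prod_iff] at h1
      obtain ⟨O, hO, T, hT, hOT⟩ := h1
      obtain ⟨r, hr, hrT⟩ := Metric.mem_nhds_iff.1 hT
      refine ⟨r / 2, by linarith, ?_⟩
      filter_upwards [hO] with n' hn' t ht
      refine hOT ⟨hn', hrT ?_⟩
      rw [Metric.mem_ball, Subtype.dist_eq, Real.dist_eq]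
      have h2 := t.2.2
      have h3 : ((1 : I) : ℝ) = 1 := rfl
      rw [h3, abs_of_nonpos (by linarith)]
      linarith)
  refine ⟨fun n => 1 - ε n / 2, by fun_prop, ?_, ?_⟩
  · intro n
    have := hε1 n
    constructor <;> linarith [this.1, this.2]
  · intro n t ht
    refine hP n t ?_
    have := (hε1 n).1
    linarith

end Pool.Agent.Tor
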