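import Pool.Agent.Lib.Tor.Crush
import Pool.Agent.Lib.Tor.CylFacts

/-! MODULE Tor.CrushSZ (1.5 h): the crushed part is a strong Z-set. -/

open Set Topology Filter

namespace Pool.Agent.Tor

namespace CrushSZAux

/-- clamping to the unit interval -/
noncomputable def clamp (r : ℝ) : I := projIcc 0 1 zero_le_one r

theorem continuous_clamp : Continuous clamp := continuous_projIcc (h := zero_le_one)

theorem clamp_le {r : ℝ} (h : r ≤ 0) : clamp r = 0 := projIcc_of_le_left _ h

theorem clamp_ge {r : ℝ} (h : 1 ≤ r) : clamp r = 1 := projIcc_of_right_le _ h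

theorem clamp_val {r : ℝ} (h0 : 0 ≤ r) (h1 : r ≤ 1) : (clamp r : ℝ) = r := by
  unfold clamp
  rw [projIcc_of_mem zero_le_one ⟨h0, h1⟩]

theorem spec_eq {X M : Type} [MetricSpace X] [TopologicalSpace M] {q : E → X} {c : M → X}
    {lev : M → I} {i : X → M} {J : E × I → M} (hc : IsCyl q c lev i J) {m m' : M}
    (h : m' ⤳ m) : m' = m := by
  have h1 : c m' = c m := (h.map hc.hc).eq
  have h2 : lev m' = lev m := (h.map hc.hlev).eq
  obtain ⟨pn, hpn, -, hpn3⟩ := hc.pn
  rcases (unitInterval.nonneg (lev m)).eq_or_lt with h0 | h0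
  · have h3 : lev m = 0 := Subtype.ext h0.symm
    rw [hc.eq_i m h3, hc.eq_i m' (h2.trans h3), h1]
  · have h0' : 0 < lev m := h0
    have ho : IsOpen {m | 0 < lev m} := isOpen_lt continuous_const hc.hlev
    have h3 : ContinuousAt pn m := hpn.continuousAt (ho.mem_nhds h0')
    have h4 : pn m' = pn m := by
      rw [← specializes_iff_eq, specializes_iff_pure]
      have h5 : Tendsto pn (pure m') (𝓝 (pn m)) :=
        h3.mono_left (specializes_iff_pure.1 h)
      rwa [Tendsto, map_pure] at h5
    rw [← hpn3 m h0', ← hpn3 m' (h2 ▸ h0'), h4, h2]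

end CrushSZAux

open CrushSZAux in
/-- PROOF. If `K` is empty, trivial. Let `a x = infDist x K`. Given a cover `U` of `MK`: for `x in K`
`at_K` gives an open `O_x` containing `x` with `c m in O_x -> p m in U (p (i x))`. `exists_below` for
`P x r = (a x < 2 r -> exists x' in K, ball x (3 r) subset O_x')` gives `eps : X -> (0,1]`. Define
`g : M -> M`: if `a (c m) >= eps (c m)`, `g m = ver (m, 1 - mu)` with `mu = min 1 (a/eps - 1)`; if
`a (c m) <= eps (c m)`, `g m = i (kap (c m, eps - a))` (both are `i (c m)` when `a = eps`; `kap` from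
`StrongK`, `ver` from `exists_ver`). On `{a (c m) <= eps}` the value depends on `c m` only, so
`f (p m) = p (g m)` defines `f : MK -> MK`; it is continuous: on the open set
`{y | a (cK y) < eps}` it is `p (i (kap (cK y, ..)))`, and on `{y | cK y not in K}` the map `p` is a
local homeomorphism (`off_K`, and `p` is injective there). `f` is near the identity by the choice of
`eps` (`f y = y` if `a >= 2 eps`). If `f (y_k) -> y'` with `cK y' in K`, `x_k = cK y_k`: infinitely often
`a x_k >= eps x_k` is impossible (`cK (f y_k) = x_k -> cK y'` in `K`, `a x_k -> 0`,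
`eps x_k -> eps (cK y') > 0`); otherwise `kap (x_k, ta_k) -> cK y'`, `ta_k = eps x_k - a x_k`; if
`ta_k -> 0` along a subsequence then `x_k -> cK y'` (`dist <= ta_k`) and `ta_k -> eps (cK y') > 0`,
contradiction; so `ta_k` is bounded below and `StrongK` says the limit is not in `K`. -/
theorem crush_sz {X M MK : Type} [MetricSpace X] [TopologicalSpace M] [TopologicalSpace MK]
    [TopologicalSpace.MetrizableSpace MK] {q : E → X} {c : M → X} {lev : M → I} {i : X → M}
    {J : E × I → M} (hc : IsCyl q c lev i J) {K : Set X} {p : M → MK} {cK : MK → X}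
    (h : IsCrush K c p cK) (hS : StrongK K) : SZ (cK ⁻¹' K) := by
  classical
  refine ⟨h.hK.preimage h.hcK, fun U hU => ?_⟩
  rcases K.eq_empty_or_nonempty with rfl | hne
  · exact ⟨id, continuous_id, fun y => ⟨y, (hU y).2, (hU y).2⟩, by simp⟩
  obtain ⟨-, κ, hκ, hκd, hκK, hκs⟩ := hS
  obtain ⟨ver, hver, hver0, hver1, hverc, -⟩ := exists_ver hc
  -- the distance to `K`
  obtain ⟨a, ha, ha0, haK, haK'⟩ : ∃ a : X → ℝ, Continuous a ∧ (∀ x, 0 ≤ a x) ∧
      (∀ x, x ∈ K → a x = 0) ∧ ∀ x, x ∉ K → 0 < a x :=
    ⟨fun x => Metric.infDist x K, Metric.continuous_infDist_pt K,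
      fun x => Metric.infDist_nonneg, fun x hx => Metric.infDist_zero_of_mem hx,
      fun x hx => (h.hK.notMem_iff_infDist_pos hne).1 hx⟩
  -- neighbourhoods
  have hO : ∀ x : X, ∃ O : Set X, x ∈ K → (O ∈ 𝓝 x ∧ ∀ m, c m ∈ O → p m ∈ U (p (i x))) := by
    intro x
    by_cases hx : x ∈ K
    · obtain ⟨O, hO, hO'⟩ := h.at_K (i x) (by rw [hc.c_i]; exact hx) (U (p (i x)))
        ((hU _).1.mem_nhds (hU _).2)
      rw [hc.c_i] at hO
      exact ⟨O, fun _ => ⟨hO, hO'⟩⟩
    · exact ⟨∅, fun h' => absurd h' hx⟩
  choose O hO using hO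
  obtain ⟨eps, heps, hepsb, hepsP⟩ := exists_below
    (fun x r => a x < 2 * r → ∃ x' ∈ K, Metric.ball x (3 * r) ⊆ O x')
    (by
      intro x r s hr hrs hP har
      obtain ⟨x', hx', hb⟩ := hP (by linarith)
      exact ⟨x', hx', (Metric.ball_subset_ball (by linarith)).trans hb⟩)
    (by
      intro z
      by_cases hz : z ∈ K
      · obtain ⟨r, hr, hrO⟩ := Metric.mem_nhds_iff.1 (hO z hz).1
        refine ⟨r / 4, by positivity, ?_⟩
        filter_upwards [Metric.ball_mem_nhds z (show 0 < r / 4 by positivity)] with z' hz' _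
        refine ⟨z, hz, fun w hw => hrO ?_⟩
        rw [Metric.mem_ball] at hw hz' ⊢
        have := dist_triangle w z' z
        linarith
      · have h1 := haK' z hz
        refine ⟨a z / 4, by positivity, ?_⟩
        filter_upwards [(ha.tendsto z).eventually (lt_mem_nhds (show a z / 2 < a z by linarith))]
          with z' hz' h2
        exfalso
        linarith)
  -- the map on `M`
  obtain ⟨g, hgdef⟩ : ∃ g : M → M, ∀ m, g m = if a (c m) ≤ eps (c m) then
      i (κ (c m, clamp (eps (c m) - a (c m)))) else ver (m, clamp (2 - a (c m) / eps (c m))) :=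
    ⟨_, fun m => rfl⟩
  have hκ0 : ∀ x, κ (x, 0) = x := by
    intro x
    have := hκd x 0
    exact dist_le_zero.1 this
  have hac : Continuous fun m => a (c m) := ha.comp hc.hc
  have hec : Continuous fun m => eps (c m) := heps.comp hc.hc
  have hg : Continuous g := by
    have e : g = fun m => if a (c m) ≤ eps (c m) then
      i (κ (c m, clamp (eps (c m) - a (c m)))) else ver (m, clamp (2 - a (c m) / eps (c m))) :=
      funext hgdef
    rw [e]
    refine Continuous.if_le ?_ ?_ hac hec ?_
    · exact hc.hi.comp (hκ.comp (hc.hc.prodMk (continuous_clamp.comp (hec.sub hac))))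
    · exact hver.comp (continuous_id.prodMk (continuous_clamp.comp
        (continuous_const.sub (hac.div hec fun m => (hepsb _).1.ne'))))
    · intro m hm
      have h1 : (2 - a (c m) / eps (c m)) = 1 := by
        rw [hm, div_self (hepsb _).1.ne']; norm_num
      rw [h1, clamp_ge le_rfl, hver1, hm, sub_self, clamp_le le_rfl, hκ0]
  have hgle : ∀ m, a (c m) ≤ eps (c m) → g m = i (κ (c m, clamp (eps (c m) - a (c m)))) := by
    intro m hm
    rw [hgdef, if_pos hm]
  have hggt : ∀ m, ¬ a (c m) ≤ eps (c m) → g m = ver (m, clamp (2 - a (c m) / eps (c m))) := by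
    intro m hm
    rw [hgdef, if_neg hm]
  -- descent
  have hinj : ∀ m m', c m ∉ K → p m' = p m → m' = m := by
    intro m m' hm he
    apply spec_eq hc
    rw [specializes_iff_pure]
    intro V hV
    obtain ⟨V', hV', hV2⟩ := h.off_K m hm V hV
    exact hV2 (by
      change p m' ∈ V'
      rw [he]
      exact mem_of_mem_nhds hV')
  have hg2 : ∀ m m', p m' = p m → p (g m') = p (g m) := by
    intro m m' he
    have hcc : c m' = c m := by
      rw [← h.cK_p, ← h.cK_p, he]
    by_cases hle : a (c m) ≤ eps (c m)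
    · rw [hgle m hle, hgle m' (hcc ▸ hle), hcc]
    · have hK : c m ∉ K := by
        intro hK
        apply hle
        rw [haK _ hK]
        exact (hepsb _).1.le
      rw [hinj m m' hK he]
  obtain ⟨f, hf⟩ : ∃ f : MK → MK, ∀ m, f (p m) = p (g m) :=
    ⟨fun y => p (g (Function.surjInv h.surj y)), fun m =>
      hg2 _ _ (Function.surjInv_eq h.surj (p m))⟩
  have hfc : Continuous f := by
    rw [continuous_iff_continuousAt]
    intro y
    obtain ⟨m, rfl⟩ := h.surj y
    by_cases hlt : a (c m) < eps (c m)
    · have c1 : Continuous fun y => p (i (κ (cK y, clamp (eps (cK y) - a (cK y))))) :=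
        h.hp.comp (hc.hi.comp (hκ.comp (h.hcK.prodMk (continuous_clamp.comp
          ((heps.comp h.hcK).sub (ha.comp h.hcK))))))
      refine c1.continuousAt.congr ?_
      have h2 : ∀ᶠ y in 𝓝 (p m), a (cK y) < eps (cK y) := by
        have ho : IsOpen {y | a (cK y) < eps (cK y)} :=
          isOpen_lt (ha.comp h.hcK) (heps.comp h.hcK)
        exact ho.mem_nhds (by
          change a (cK (p m)) < eps (cK (p m))
          rw [h.cK_p]
          exact hlt)
      filter_upwards [h2] with y hy
      obtain ⟨m', rfl⟩ := h.surj y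
      rw [h.cK_p] at hy ⊢
      rw [hf, hgle m' hy.le]
    · have hK : c m ∉ K := by
        intro hK
        apply hlt
        rw [haK _ hK]
        exact (hepsb _).1
      rw [ContinuousAt, hf]
      intro V hV
      have h1 : (fun m' => p (g m')) ⁻¹' V ∈ 𝓝 m := (h.hp.comp hg).continuousAt hV
      obtain ⟨V', hV', hV2⟩ := h.off_K m hK _ h1
      rw [mem_map]
      refine mem_of_superset hV' fun y hy => ?_
      obtain ⟨m', rfl⟩ := h.surj y
      have h3 : m' ∈ (fun m' => p (g m')) ⁻¹' V := hV2 hy
      change f (p m') ∈ V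
      rw [hf]
      exact h3
  refine ⟨f, hfc, ?_, ?_⟩
  · intro y
    obtain ⟨m, rfl⟩ := h.surj y
    have he := hepsb (c m)
    by_cases h2 : a (c m) < 2 * eps (c m)
    · obtain ⟨x', hx', hb⟩ := hepsP (c m) h2
      refine ⟨p (i x'), ?_, ?_⟩
      · rw [hf]
        by_cases hle : a (c m) ≤ eps (c m)
        · rw [hgle m hle]
          apply (hO x' hx').2
          rw [hc.c_i]
          apply hb
          rw [Metric.mem_ball]
          refine (hκd _ _).trans_lt ?_
          rw [clamp_val (sub_nonneg.2 hle) (by linarith [ha0 (c m)])]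
          linarith [ha0 (c m)]
        · rw [hggt m hle]
          apply (hO x' hx').2
          rw [hverc]
          exact hb (Metric.mem_ball_self (by linarith))
      · exact (hO x' hx').2 m (hb (Metric.mem_ball_self (by linarith)))
    · refine ⟨p m, ?_, (hU _).2⟩
      have hle : ¬ a (c m) ≤ eps (c m) := by
        intro hle
        linarith
      rw [hf, hggt m hle]
      have h3 : 2 - a (c m) / eps (c m) ≤ 0 := by
        have : 2 ≤ a (c m) / eps (c m) := by
          rw [le_div_iff₀ he.1]
          exact not_lt.1 h2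
        linarith
      rw [clamp_le h3, hver0]
      exact (hU _).2
  · rw [Set.disjoint_left]
    intro y' hy' hyK
    have hyK' : cK y' ∈ K := hyK
    obtain ⟨u, hu, hlim⟩ := mem_closure_iff_seq_limit.1 hy'
    have h1 : ∀ k, ∃ m, u k = p (g m) := by
      intro k
      obtain ⟨w, hw⟩ := hu k
      obtain ⟨m, rfl⟩ := h.surj w
      exact ⟨m, by rw [← hw, hf]⟩
    choose m hm using h1
    have hlim2 : Tendsto (fun k => c (g (m k))) atTop (𝓝 (cK y')) := by
      have := (h.hcK.tendsto y').comp hlim
      refine this.congr fun k => ?_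
      rw [Function.comp_apply, hm, h.cK_p]
    set y0 := cK y' with hy0
    have ey0 := (hepsb y0).1
    have ay0 : a y0 = 0 := haK _ hyK'
    -- the function `eps - a` near `y0`
    have hd : ∀ᶠ z in 𝓝 y0, eps y0 / 2 < eps z - a z := by
      have hcont : Continuous fun z => eps z - a z := heps.sub ha
      refine (hcont.tendsto y0).eventually (lt_mem_nhds ?_)
      rw [ay0]
      linarith
    obtain ⟨δ, hδ, hδ'⟩ := Metric.eventually_nhds_iff.1 hd
    have hle : ∀ᶠ k in atTop, a (c (m k)) ≤ eps (c (m k)) := by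
      filter_upwards [hlim2.eventually hd] with k hk
      by_contra hcon
      rw [hggt _ hcon, hverc] at hk
      apply hcon
      linarith
    have hτ : ∀ᶠ k in atTop, min (δ / 2) (eps y0 / 2) ≤
        (clamp (eps (c (m k)) - a (c (m k))) : ℝ) := by
      filter_upwards [hle, hlim2.eventually (Metric.ball_mem_nhds y0 (half_pos hδ))] with k hk hk2
      rw [hgle _ hk, hc.c_i] at hk2
      have hcv := clamp_val (sub_nonneg.2 hk)
        (by linarith [ha0 (c (m k)), (hepsb (c (m k))).2])
      by_contra hcon
      rw [not_le, lt_min_iff] at hcon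
      have h3 := hκd (c (m k)) (clamp (eps (c (m k)) - a (c (m k))))
      have h4 : dist (c (m k)) y0 < δ := by
        have h5 := dist_triangle_left (c (m k)) y0
          (κ (c (m k), clamp (eps (c (m k)) - a (c (m k)))))
        have h6 : dist (κ (c (m k), clamp (eps (c (m k)) - a (c (m k))))) y0 < δ / 2 := hk2
        linarith [hcon.1]
      have h7 := hδ' h4
      rw [hcv] at hcon
      linarith [hcon.2]
    obtain ⟨n, hn⟩ := eventually_atTop.1 (hle.and hτ)
    refine hκs (fun k => c (m (k + n)))
      (fun k => clamp (eps (c (m (k + n))) - a (c (m (k + n))))) (min (δ / 2) (eps y0 / 2)) y0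
      (by positivity) (fun k => (hn (k + n) (by omega)).2) ?_ hyK'
    have h8 := hlim2.comp (tendsto_add_atTop_nat n)
    refine h8.congr fun k => ?_
    rw [Function.comp_apply, hgle _ (hn (k + n) (by omega)).1, hc.c_i]

end Pool.Agent.Tor
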