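import Pool.Agent.Lib.Tor.Covers
import Pool.Agent.Lib.Tor.Dugundji

/-! MODULE Tor.Lambda (0.8 h): equiconnecting maps. -/

open Set Topology Filter

namespace Pool.Agent.Tor

/-- PROOF: extend from the closed subset `{t = 0} union {t = 1} union diagonal x I` of
`X x X x I`. -/
theorem exists_lambda {X : Type} [TopologicalSpace X] [TopologicalSpace.MetrizableSpace X]
    (hX : AE X) : ∃ Λ : X × X × I → X, Continuous Λ ∧ (∀ x y, Λ (x, y, 0) = x) ∧
      (∀ x y, Λ (x, y, 1) = y) ∧ ∀ x t, Λ (x, x, t) = x := by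
  classical
  let _ : MetricSpace X := TopologicalSpace.metrizableSpaceMetric X
  set A1 : Set (X × X × I) := {p | p.2.2 = 1} with hA1
  set A2 : Set (X × X × I) := {p | p.2.2 = 0 ∨ p.1 = p.2.1} with hA2
  have hc1 : IsClosed A1 := isClosed_eq (continuous_snd.comp continuous_snd) continuous_const
  have hc2 : IsClosed A2 := by
    have h1 : IsClosed {p : X × X × I | p.2.2 = 0} :=
      isClosed_eq (continuous_snd.comp continuous_snd) continuous_const
    have h2 : IsClosed {p : X × X × I | p.1 = p.2.1} :=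
      isClosed_eq continuous_fst (continuous_fst.comp continuous_snd)
    exact h1.union h2
  set f : X × X × I → X := fun p => if p.2.2 = 1 then p.2.1 else p.1 with hf
  have hf1 : ContinuousOn f A1 := by
    have : ContinuousOn (fun p : X × X × I => p.2.1) A1 :=
      (continuous_fst.comp continuous_snd).continuousOn
    refine this.congr fun p hp => ?_
    have : p.2.2 = 1 := hp
    simp only [hf, if_pos this]
  have hf2 : ContinuousOn f A2 := by
    have : ContinuousOn (fun p : X × X × I => p.1) A2 := continuous_fst.continuousOn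
    refine this.congr fun p hp => ?_
    by_cases h1 : p.2.2 = 1
    · simp only [hf, if_pos h1]
      rcases hp with h0 | h0
      · rw [h0] at h1
        exact absurd h1 (by norm_num)
      · exact h0.symm
    · simp only [hf, if_neg h1]
  have hf12 : ContinuousOn f (A1 ∪ A2) := hf1.union_of_isClosed hf2 hc1 hc2
  obtain ⟨g, hg, hgf⟩ := hX.extend (hc1.union hc2) (fun a => f a)
    (continuousOn_iff_continuous_domRestrict.1 hf12)
  refine ⟨g, hg, ?_, ?_, ?_⟩
  · intro x y
    have h := hgf ⟨(x, y, 0), Or.inr (Or.inl rfl)⟩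
    simp only [hf] at h
    rw [if_neg (by norm_num)] at h
    exact h
  · intro x y
    have h := hgf ⟨(x, y, 1), Or.inl rfl⟩
    simp only [hf] at h
    exact h
  · intro x t
    have h := hgf ⟨(x, x, t), Or.inr (Or.inr rfl)⟩
    simp only [hf, ite_self] at h
    exact h

/-- PROOF: for `x` the set of `(x',y')` with `Lambda (x',y',t) in U x` for all `t` is an open
neighbourhood of `(x,x)` (compactness of `I`); let `V x` be open with `V x` x `V x` inside it. -/
theorem lambda_small {X : Type} [TopologicalSpace X] {Λ : X × X × I → X} (hΛ : Continuous Λ)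
    (hd : ∀ x t, Λ (x, x, t) = x) (U : X → Set X) (hU : Cov U) :
    ∃ V : X → Set X, Cov V ∧ ∀ z, ∀ x ∈ V z, ∀ y ∈ V z, ∀ t, Λ (x, y, t) ∈ U z := by
  have h : ∀ z : X, ∃ V : Set X, IsOpen V ∧ z ∈ V ∧ ∀ x ∈ V, ∀ y ∈ V, ∀ t, Λ (x, y, t) ∈ U z := by
    intro z
    have h1 : ∀ᶠ q : X × X in 𝓝 (z, z), ∀ t ∈ (univ : Set I), Λ (q.1, q.2, t) ∈ U z := by
      apply isCompact_univ.eventually_forall_of_forall_eventually
      intro t _
      have hcont : Continuous fun w : (X × X) × I => Λ (w.1.1, w.1.2, w.2) :=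
        hΛ.comp ((continuous_fst.comp continuous_fst).prodMk
          ((continuous_snd.comp continuous_fst).prodMk continuous_snd))
      have h2 : Λ (z, z, t) ∈ U z := by
        rw [hd]
        exact (hU z).2
      exact hcont.continuousAt.eventually_mem ((hU z).1.mem_nhds h2)
    obtain ⟨u, v, hu, hzu, hv, hzv, hsub⟩ := mem_nhds_prod_iff'.1 h1
    refine ⟨u ∩ v, hu.inter hv, ⟨hzu, hzv⟩, ?_⟩
    intro x hx y hy t
    exact hsub (Set.mk_mem_prod hx.1 hy.2) t (mem_univ t)
  choose V hV1 hV2 hV3 using h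
  exact ⟨V, fun z => ⟨hV1 z, hV2 z⟩, hV3⟩

end Pool.Agent.Tor
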