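import Pool.Agent.Lib.Tor.Basic

/-! MODULE Tor.DelPoint (1.2 h): Bessaga: `F` minus a point is homeomorphic to `F`. -/

open Set Topology Filter

namespace Pool.Agent.Tor

namespace DelPointAux

/-- the clocks -/
noncomputable def gam (i : ℕ) (t : ℝ) : ℝ := (1 / 8) * max 0 (min 1 (2 - 2 ^ (i + 1) * t))

theorem gam_nonneg (i : ℕ) (t : ℝ) : 0 ≤ gam i t :=
  mul_nonneg (by norm_num) (le_max_left _ _)

theorem gam_le (i : ℕ) (t : ℝ) : gam i t ≤ 1 / 8 := by
  unfold gam
  have : max 0 (min 1 (2 - 2 ^ (i + 1) * t)) ≤ 1 := max_le zero_le_one (min_le_left _ _)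
  linarith

theorem gam_zero_of {i : ℕ} {t : ℝ} (h : 1 ≤ 2 ^ i * t) : gam i t = 0 := by
  unfold gam
  have h1 : min 1 (2 - 2 ^ (i + 1) * t) ≤ 0 := by
    refine (min_le_right _ _).trans ?_
    rw [pow_succ]; linarith
  rw [max_eq_left h1, mul_zero]

theorem gam_of_nonpos {i : ℕ} {t : ℝ} (h : t ≤ 0) : gam i t = 1 / 8 := by
  unfold gam
  have h0 : 2 ^ (i + 1) * t ≤ 0 := mul_nonpos_of_nonneg_of_nonpos (by positivity) h
  rw [min_eq_left (by linarith), max_eq_right (by norm_num), mul_one]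

theorem continuous_gam (i : ℕ) : Continuous (gam i) := by
  unfold gam; fun_prop

theorem gam_lip (i : ℕ) (t t' : ℝ) : (1 / 2 : ℝ) ^ i * |gam i t - gam i t'| ≤ |t - t'| / 4 := by
  unfold gam
  have h1 : |max 0 (min 1 (2 - 2 ^ (i + 1) * t)) - max 0 (min 1 (2 - 2 ^ (i + 1) * t'))|
      ≤ 2 ^ (i + 1) * |t - t'| := by
    have h2 := abs_max_sub_max_le_max (0 : ℝ) (min 1 (2 - 2 ^ (i + 1) * t)) 0
      (min 1 (2 - 2 ^ (i + 1) * t'))
    have h3 := abs_min_sub_min_le_max (1 : ℝ) (2 - 2 ^ (i + 1) * t) 1 (2 - 2 ^ (i + 1) * t')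
    rw [sub_self, abs_zero] at h2 h3
    have h4 : |2 - 2 ^ (i + 1) * t - (2 - 2 ^ (i + 1) * t')| = 2 ^ (i + 1) * |t - t'| := by
      have : 2 - 2 ^ (i + 1) * t - (2 - 2 ^ (i + 1) * t') = -(2 ^ (i + 1) * (t - t')) := by ring
      rw [this, abs_neg, abs_mul, abs_of_nonneg (by positivity)]
    rw [h4] at h3
    have h5 : (0 : ℝ) ≤ 2 ^ (i + 1) * |t - t'| := by positivity
    refine h2.trans (max_le h5 (h3.trans (max_le h5 le_rfl)))
  have h6 : (1 / 8 : ℝ) * max 0 (min 1 (2 - 2 ^ (i + 1) * t))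
      - 1 / 8 * max 0 (min 1 (2 - 2 ^ (i + 1) * t'))
      = 1 / 8 * (max 0 (min 1 (2 - 2 ^ (i + 1) * t)) - max 0 (min 1 (2 - 2 ^ (i + 1) * t'))) := by
    ring
  rw [h6, abs_mul, abs_of_nonneg (by norm_num : (0 : ℝ) ≤ 1 / 8)]
  calc (1 / 2 : ℝ) ^ i * (1 / 8 *
        |max 0 (min 1 (2 - 2 ^ (i + 1) * t)) - max 0 (min 1 (2 - 2 ^ (i + 1) * t'))|)
      ≤ (1 / 2 : ℝ) ^ i * (1 / 8 * (2 ^ (i + 1) * |t - t'|)) := by gcongr
    _ = ((1 / 2 : ℝ) ^ i * 2 ^ i) * (|t - t'| / 4) := by rw [pow_succ]; ring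
    _ = |t - t'| / 4 := by
        rw [← mul_pow]; norm_num

/-- the gauge -/
noncomputable def M (r : ℝ) (u : ℕ → ℝ) : ℝ := max |r| (⨆ i, (1 / 2 : ℝ) ^ i * |u i|)

theorem bdd {u : ℕ → ℝ} {C : ℝ} (h : ∀ i, |u i| ≤ C) :
    BddAbove (range fun i => (1 / 2 : ℝ) ^ i * |u i|) := by
  refine ⟨C, ?_⟩
  rintro _ ⟨i, rfl⟩
  have h1 : (1 / 2 : ℝ) ^ i ≤ 1 := pow_le_one₀ (by norm_num) (by norm_num)
  have h2 : 0 ≤ (1 / 2 : ℝ) ^ i := by positivity
  calc (1 / 2 : ℝ) ^ i * |u i| ≤ 1 * |u i| := mul_le_mul_of_nonneg_right h1 (abs_nonneg _)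
    _ ≤ C := by rw [one_mul]; exact h i

theorem M_nonneg (r : ℝ) (u : ℕ → ℝ) : 0 ≤ M r u := (abs_nonneg r).trans (le_max_left _ _)

theorem M_ge {r : ℝ} {u : ℕ → ℝ} (h : BddAbove (range fun i => (1 / 2 : ℝ) ^ i * |u i|)) (i : ℕ) :
    (1 / 2 : ℝ) ^ i * |u i| ≤ M r u := (le_ciSup h i).trans (le_max_right _ _)

theorem M_le {r r' : ℝ} {u u' : ℕ → ℝ} {c : ℝ}
    (hu' : BddAbove (range fun i => (1 / 2 : ℝ) ^ i * |u' i|)) (hr : |r - r'| ≤ c)
    (h : ∀ i, (1 / 2 : ℝ) ^ i * |u i - u' i| ≤ c) : M r u ≤ M r' u' + c := by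
  apply max_le
  · have h1 : |r| ≤ |r'| + |r - r'| := by
      have := abs_add_le r' (r - r')
      rwa [add_sub_cancel] at this
    have h2 : |r'| ≤ M r' u' := le_max_left _ _
    linarith
  · apply ciSup_le
    intro i
    have h1 : |u i| ≤ |u' i| + |u i - u' i| := by
      have := abs_add_le (u' i) (u i - u' i)
      rwa [add_sub_cancel] at this
    have h2 := M_ge (r := r') hu' i
    have h3 : (1 / 2 : ℝ) ^ i * |u i| ≤ (1 / 2 : ℝ) ^ i * |u' i| + (1 / 2 : ℝ) ^ i * |u i - u' i| := by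
      rw [← mul_add]
      exact mul_le_mul_of_nonneg_left h1 (by positivity)
    linarith [h i]

theorem apply_le (x : L1) (i : ℕ) : |x i| ≤ ‖x‖ := by
  have := lp.norm_apply_le_norm one_ne_zero x i
  rwa [Real.norm_eq_abs] at this

theorem half_le (i : ℕ) (a : ℝ) (ha : 0 ≤ a) : (1 / 2 : ℝ) ^ i * a ≤ a := by
  have h1 : (1 / 2 : ℝ) ^ i ≤ 1 := pow_le_one₀ (by norm_num) (by norm_num)
  calc (1 / 2 : ℝ) ^ i * a ≤ 1 * a := mul_le_mul_of_nonneg_right h1 ha
    _ = a := one_mul a

/-- the map whose fixed point is the value of the gauge of the preimage -/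
noncomputable def G (y : F) (t : ℝ) : ℝ := M y.1 (fun i => y.2 i - gam i t)

theorem bddG (y : F) (t : ℝ) :
    BddAbove (range fun i => (1 / 2 : ℝ) ^ i * |y.2 i - gam i t|) := by
  apply bdd (C := ‖y.2‖ + 1 / 8)
  intro i
  have h1 := apply_le y.2 i
  have h2 := gam_le i t
  have h3 := gam_nonneg i t
  rw [abs_le] at *
  constructor <;> linarith

theorem norm_fst (y y' : F) : |y.1 - y'.1| ≤ ‖y - y'‖ := by
  have := norm_fst_le (y - y')
  rwa [Real.norm_eq_abs] at this

theorem norm_snd (y y' : F) (i : ℕ) : |y.2 i - y'.2 i| ≤ ‖y - y'‖ := by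
  have h1 := apply_le (y - y').2 i
  have h2 : ‖(y - y').2‖ ≤ ‖y - y'‖ := norm_snd_le (y - y')
  exact h1.trans h2

theorem G_le (y y' : F) (t t' : ℝ) : G y t ≤ G y' t' + (‖y - y'‖ + |t - t'| / 4) := by
  apply M_le (bddG y' t')
  · have := norm_fst y y'
    have h2 := abs_nonneg (t - t')
    linarith
  · intro i
    have h1 : |y.2 i - gam i t - (y'.2 i - gam i t')| ≤ |y.2 i - y'.2 i| + |gam i t - gam i t'| := by
      have e : y.2 i - gam i t - (y'.2 i - gam i t') = (y.2 i - y'.2 i) - (gam i t - gam i t') := by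
        ring
      rw [e]; exact abs_sub _ _
    have h2 := norm_snd y y' i
    have h3 := gam_lip i t t'
    have h4 : (1 / 2 : ℝ) ^ i * |y.2 i - y'.2 i| ≤ |y.2 i - y'.2 i| := half_le i _ (abs_nonneg _)
    calc (1 / 2 : ℝ) ^ i * |y.2 i - gam i t - (y'.2 i - gam i t')|
        ≤ (1 / 2 : ℝ) ^ i * (|y.2 i - y'.2 i| + |gam i t - gam i t'|) :=
          mul_le_mul_of_nonneg_left h1 (by positivity)
      _ = (1 / 2 : ℝ) ^ i * |y.2 i - y'.2 i| + (1 / 2 : ℝ) ^ i * |gam i t - gam i t'| := by ring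
      _ ≤ _ := by linarith

theorem contr (y : F) : ContractingWith (1 / 4) (G y) := by
  refine ⟨by
    rw [← NNReal.coe_lt_coe]
    norm_num, LipschitzWith.of_le_add_mul _ ?_⟩
  intro t t'
  have h := G_le y y t t'
  rw [sub_self, norm_zero, zero_add] at h
  rw [Real.dist_eq]
  have e : (((1 / 4 : NNReal) : NNReal) : ℝ) = 1 / 4 := by norm_num
  rw [e]
  linarith

/-- the fixed point -/
noncomputable def fx (y : F) : ℝ := ContractingWith.fixedPoint (G y) (contr y)

theorem fx_fix (y : F) : G y (fx y) = fx y := ContractingWith.fixedPoint_isFixedPt (contr y)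

theorem fx_unique {y : F} {t : ℝ} (h : G y t = t) : fx y = t :=
  (ContractingWith.fixedPoint_unique (contr y) h).symm

theorem G_pos (y : F) {t : ℝ} (ht : t ≤ 0) : 0 < G y t := by
  have h1 : Summable (fun i => ‖y.2 i‖ ^ (1 : ENNReal).toReal) :=
    (lp.memℓp y.2).summable (by norm_num)
  have h2 := h1.tendsto_atTop_zero
  have h3 : ∀ᶠ i in atTop, ‖y.2 i‖ ^ (1 : ENNReal).toReal < 1 / 8 :=
    h2.eventually (gt_mem_nhds (by norm_num))
  obtain ⟨i, hi⟩ := h3.exists
  rw [ENNReal.toReal_one, Real.rpow_one, Real.norm_eq_abs] at hi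
  refine lt_of_lt_of_le ?_ (M_ge (r := y.1) (bddG y t) i)
  rw [gam_of_nonpos ht]
  apply mul_pos (by positivity)
  rw [abs_pos]
  intro h4
  have h5 : y.2 i = 1 / 8 := by linarith
  rw [h5, abs_of_nonneg (by norm_num)] at hi
  exact lt_irrefl _ hi

theorem fx_pos (y : F) : 0 < fx y := by
  by_contra hcon
  push Not at hcon
  have h1 := G_pos y hcon
  rw [fx_fix] at h1
  linarith

theorem continuous_fx : Continuous fx := by
  have h : LipschitzWith 2 fx := by
    apply LipschitzWith.of_le_add_mul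
    intro y y'
    have h1 := G_le y y' (fx y) (fx y')
    rw [fx_fix, fx_fix] at h1
    have h2 := G_le y' y (fx y') (fx y)
    rw [fx_fix, fx_fix] at h2
    rw [dist_eq_norm]
    have e : (((2 : NNReal) : NNReal) : ℝ) = 2 := by norm_num
    rw [e]
    have h3 := norm_sub_rev y y'
    have h4 := abs_sub_comm (fx y) (fx y')
    have h5 : |fx y - fx y'| ≤ ‖y - y'‖ + |fx y - fx y'| / 4 := by
      rw [abs_le]
      constructor
      · rw [← h3, ← h4] at h2; linarith
      · linarith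
    have h6 := le_abs_self (fx y - fx y')
    have h7 := norm_nonneg (y - y')
    linarith
  exact h.continuous

/-- the sequence of clocks, truncated -/
noncomputable def GaN (N : ℕ) (t : ℝ) : L1 :=
  ∑ i ∈ Finset.range N, gam i t • lp.single (E := fun _ : ℕ => ℝ) 1 i (1 : ℝ)

theorem continuous_GaN (N : ℕ) : Continuous (GaN N) := by
  unfold GaN
  exact continuous_finsetSum _ fun i _ => (continuous_gam i).smul continuous_const

theorem GaN_apply {N : ℕ} {t : ℝ} (ht : 0 < t) (h : 1 / t ≤ N) (j : ℕ) : GaN N t j = gam j t := by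
  unfold GaN
  rw [lp.coeFn_sum, Finset.sum_apply]
  have h1 : ∀ i ∈ Finset.range N, (gam i t • lp.single (E := fun _ : ℕ => ℝ) 1 i (1 : ℝ) : L1) j
      = if i = j then gam j t else 0 := by
    intro i _
    rw [lp.coeFn_smul, Pi.smul_apply]
    by_cases hij : i = j
    · rw [if_pos hij, hij, lp.single_apply_self, smul_eq_mul, mul_one]
    · rw [if_neg hij, lp.single_apply_ne _ _ _ (Ne.symm hij), smul_zero]
  rw [Finset.sum_congr rfl h1, Finset.sum_ite_eq']
  by_cases hj : j < N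
  · rw [if_pos (Finset.mem_range.2 hj)]
  · rw [if_neg (by rw [Finset.mem_range]; exact hj)]
    symm
    apply gam_zero_of
    have h2 : (N : ℝ) ≤ j := by exact_mod_cast not_lt.1 hj
    have h3 : (j : ℝ) ≤ 2 ^ j := by
      have := (Nat.lt_two_pow_self (n := j)).le
      exact_mod_cast this
    have h4 : 1 / t ≤ 2 ^ j := h.trans (h2.trans h3)
    rwa [div_le_iff₀ ht] at h4

/-- the sequence of clocks -/
noncomputable def Ga (t : ℝ) : L1 := GaN ⌈1 / t⌉₊ t

theorem Ga_apply {t : ℝ} (ht : 0 < t) (j : ℕ) : Ga t j = gam j t :=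
  GaN_apply ht (Nat.le_ceil _) j

theorem continuousAt_Ga {t₀ : ℝ} (ht : 0 < t₀) : ContinuousAt Ga t₀ := by
  have h1 : Ga =ᶠ[𝓝 t₀] GaN ⌈2 / t₀⌉₊ := by
    have h2 : ∀ᶠ t in 𝓝 t₀, t₀ / 2 < t := lt_mem_nhds (by linarith)
    filter_upwards [h2] with t h3
    have h4 : 0 < t := by linarith
    apply lp.ext
    funext j
    rw [Ga_apply h4, GaN_apply h4]
    refine le_trans ?_ (Nat.le_ceil _)
    rw [div_le_div_iff₀ h4 ht]
    linarith
  exact (continuous_GaN _).continuousAt.congr h1.symm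

/-- the gauge of an element -/
noncomputable def om (y : F) : ℝ := M y.1 (fun i => y.2 i)

theorem bddo (y : F) : BddAbove (range fun i => (1 / 2 : ℝ) ^ i * |y.2 i|) :=
  bdd (apply_le y.2)

theorem continuous_om : Continuous om := by
  have h : LipschitzWith 1 om := by
    apply LipschitzWith.of_le_add
    intro y y'
    rw [dist_eq_norm]
    exact M_le (bddo y') (norm_fst y y')
      (fun i => (half_le i _ (abs_nonneg _)).trans (norm_snd y y' i))
  exact h.continuous

theorem om_pos {y : F} (h : y ≠ 0) : 0 < om y := by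
  by_contra hcon
  push Not at hcon
  apply h
  have h1 : |y.1| ≤ 0 := (le_max_left _ _).trans hcon
  have h2 : y.1 = 0 := abs_eq_zero.1 (le_antisymm h1 (abs_nonneg _))
  have h3 : y.2 = 0 := by
    apply lp.ext
    funext i
    have h4 := (M_ge (r := y.1) (bddo y) i).trans hcon
    have h5 : |y.2 i| ≤ 0 := by
      by_contra h6
      push Not at h6
      have : 0 < (1 / 2 : ℝ) ^ i * |y.2 i| := mul_pos (by positivity) h6
      linarith
    exact abs_eq_zero.1 (le_antisymm h5 (abs_nonneg _))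
  exact Prod.ext h2 h3

theorem om_zero : om 0 = 0 := by
  have h : om 0 ≤ 0 := by
    apply max_le
    · exact (abs_zero).le
    · apply ciSup_le
      intro i
      have h1 : (0 : F).2 i = 0 := rfl
      have h2 : (1 / 2 : ℝ) ^ i * |(0 : F).2 i| = 0 := by rw [h1, abs_zero, mul_zero]
      exact h2.le
  exact le_antisymm h (M_nonneg _ _)

theorem om_sub (y : F) {t : ℝ} (ht : 0 < t) : om (y.1, y.2 - Ga t) = G y t := by
  unfold om G
  congr 1
  funext i
  rw [lp.coeFn_sub, Pi.sub_apply, Ga_apply ht]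

theorem G_add (y : F) {t : ℝ} (ht : 0 < t) : G (y.1, y.2 + Ga t) t = om y := by
  unfold om G
  congr 1
  funext i
  rw [lp.coeFn_add, Pi.add_apply, Ga_apply ht, add_sub_cancel_right]

end DelPointAux

open DelPointAux in
/-- PROOF. For a sequence `x` (bounded) put `om(r,x) = max |r| (sup_i 2^-i |x_i|)`, a continuous
function on `F` which vanishes only at `0`. Let `gam_i(t) = (1/8) max 0 (min 1 (2 - 2^(i+1) t))` for
`t >= 0`; for `t > 0` only finitely many `gam_i(t)` are nonzero (locally uniformly in `t`), so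
`gam : (0,oo) -> l1` is continuous. Put `h (r,x) = (r, x + gam (om (r,x)))` for `(r,x) /= 0`.
Inverse: given `y = (r,x)` in `F` the function `g t = max |r| (sup_i 2^-i |x_i - gam_i t|)`, `t >= 0`,
satisfies `|g t - g t'| <= |t - t'| / 4` (because `2^-i |gam_i t - gam_i t'| <= |t-t'|/4`), so it has
a unique fixed point `t(y) >= 0`, continuous in `y` (uniform contraction, `g` is 1-Lipschitz in `y`),
and `t(y) > 0` since `g 0 > 0` (`x_i -> 0` but `gam_i 0 = 1/8`). The inverse of `h` is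
`y -> (r, x - gam (t y))`, which is not `0` since `om` of it is `t y > 0`. -/
theorem del_point : Nonempty ({x : F // x ≠ 0} ≃ₜ F) := by
  have hne : ∀ y : F, ((y.1, y.2 - Ga (fx y)) : F) ≠ 0 := by
    intro y h
    have h1 := om_sub y (fx_pos y)
    rw [h, om_zero, fx_fix] at h1
    exact (fx_pos y).ne h1
  refine ⟨{ toFun := fun y => (y.1.1, y.1.2 + Ga (om y.1))
            invFun := fun y => ⟨(y.1, y.2 - Ga (fx y)), hne y⟩
            left_inv := ?_
            right_inv := ?_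
            continuous_toFun := ?_
            continuous_invFun := ?_ }⟩
  · rintro ⟨y, hy⟩
    apply Subtype.ext
    have h1 : fx (y.1, y.2 + Ga (om y)) = om y := fx_unique (G_add y (om_pos hy))
    change ((y.1, y.2 + Ga (om y) - Ga (fx (y.1, y.2 + Ga (om y)))) : F) = y
    rw [h1, add_sub_cancel_right]
  · intro y
    have h1 : om (y.1, y.2 - Ga (fx y)) = fx y := by
      rw [om_sub y (fx_pos y), fx_fix]
    change ((y.1, y.2 - Ga (fx y) + Ga (om (y.1, y.2 - Ga (fx y)))) : F) = y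
    rw [h1, sub_add_cancel]
  · have h1 : Continuous (fun y : {x : F // x ≠ 0} => Ga (om y.1)) := by
      rw [continuous_iff_continuousAt]
      intro y
      exact ContinuousAt.comp (g := Ga) (f := fun y : {x : F // x ≠ 0} => om y.1)
        (continuousAt_Ga (om_pos y.2)) (continuous_om.comp continuous_subtype_val).continuousAt
    exact (continuous_fst.comp continuous_subtype_val).prodMk
      ((continuous_snd.comp continuous_subtype_val).add h1)
  · have h1 : Continuous (fun y : F => Ga (fx y)) := by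
      rw [continuous_iff_continuousAt]
      intro y
      exact ContinuousAt.comp (g := Ga) (f := fx) (continuousAt_Ga (fx_pos y))
        continuous_fx.continuousAt
    exact (continuous_fst.prodMk (continuous_snd.sub h1)).subtype_mk _

end Pool.Agent.Tor
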