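import Pool.Agent.Lib.Tor.Basic

/-! MODULE Tor.Reindex (0.4 h): reindexing homeomorphisms of `E = F^N`. Mathlib:
`Homeomorph.piCongrLeft`, `Homeomorph.sumArrowHomeomorphProdArrow`, `Homeomorph.piCurry` etc. or by
hand. -/

open Set Topology Filter

namespace Pool.Agent.Tor

/-- `Y^N x Y = Y^N`, explicit -/
def consHomeo (K : Type) [TopologicalSpace K] : (K × (ℕ → K)) ≃ₜ (ℕ → K) where
  toFun p n := Nat.casesOn n p.1 p.2
  invFun g := (g 0, fun n => g (n + 1))
  left_inv p := rfl
  right_inv g := by
    funext n
    cases n <;> rfl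
  continuous_toFun := by
    refine continuous_pi fun n => ?_
    cases n with
    | zero => exact continuous_fst
    | succ n => exact (continuous_apply n).comp continuous_snd
  continuous_invFun :=
    (continuous_apply 0).prodMk (continuous_pi fun n => continuous_apply (n + 1))

/-- reindexing along an equivalence -/
def reindexHomeo {ι κ : Type} (K : Type) [TopologicalSpace K] (e : ι ≃ κ) :
    (ι → K) ≃ₜ (κ → K) where
  toFun f k := f (e.symm k)
  invFun g i := g (e i)
  left_inv f := by funext i; simp
  right_inv g := by funext k; simp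
  continuous_toFun := continuous_pi fun k => continuous_apply _
  continuous_invFun := continuous_pi fun i => continuous_apply _

/-- functions into a product -/
def arrowProdHomeo (ι A B : Type) [TopologicalSpace A] [TopologicalSpace B] :
    (ι → A × B) ≃ₜ (ι → A) × (ι → B) where
  toFun f := (fun i => (f i).1, fun i => (f i).2)
  invFun g i := (g.1 i, g.2 i)
  left_inv f := rfl
  right_inv g := rfl
  continuous_toFun :=
    (continuous_pi fun i => continuous_fst.comp (continuous_apply i)).prodMk
      (continuous_pi fun i => continuous_snd.comp (continuous_apply i))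
  continuous_invFun := continuous_pi fun i =>
    ((continuous_apply i).comp continuous_fst).prodMk ((continuous_apply i).comp continuous_snd)

theorem E_prod_F : Nonempty (E × F ≃ₜ E) :=
  ⟨(Homeomorph.prodComm E F).trans (consHomeo F)⟩

theorem E_prod_E : Nonempty (E × E ≃ₜ E) :=
  ⟨(Homeomorph.sumArrowHomeomorphProdArrow (X := F) (ι := ℕ) (ι' := ℕ)).symm.trans
    (reindexHomeo F Equiv.natSumNatEquivNat)⟩

theorem E_prod_FN : Nonempty (E × (ℕ → F) ≃ₜ E) := E_prod_E

/-- `(N -> K)^N = (N -> K)` with the coordinates controlled by the pairing function -/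
theorem pi_pi (K : Type) [TopologicalSpace K] :
    ∃ Θ : (ℕ → ℕ → K) ≃ₜ (ℕ → K), ∀ u n, Θ u n = u (Nat.unpair n).1 (Nat.unpair n).2 :=
  ⟨{ toFun := fun u n => u (Nat.unpair n).1 (Nat.unpair n).2
     invFun := fun g i j => g (Nat.pair i j)
     left_inv := fun u => by
       funext i j
       simp
     right_inv := fun g => by
       funext n
       simp
     continuous_toFun := continuous_pi fun n =>
       (continuous_apply _).comp (continuous_apply (Nat.unpair n).1)
     continuous_invFun := continuous_pi fun i => continuous_pi fun j => continuous_apply _ },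
    fun _ _ => rfl⟩

theorem R_prod_E : Nonempty (ℝ × E ≃ₜ E) := by
  let a : E ≃ₜ (ℕ → ℝ) × (ℕ → L1) := arrowProdHomeo ℕ ℝ L1
  exact ⟨((Homeomorph.refl ℝ).prodCongr a).trans
    ((Homeomorph.prodAssoc ℝ (ℕ → ℝ) (ℕ → L1)).symm.trans
      (((consHomeo ℝ).prodCongr (Homeomorph.refl (ℕ → L1))).trans a.symm))⟩

/-- `Y^N x Y = Y^N` -/
theorem cons_homeo (K : Type) [TopologicalSpace K] : Nonempty (K × (ℕ → K) ≃ₜ (ℕ → K)) :=
  ⟨consHomeo K⟩

theorem E_prod_Fin (k : ℕ) : Nonempty (E × (Fin k → F) ≃ₜ E) := by
  obtain ⟨e⟩ := (nonempty_equiv_of_countable : Nonempty (ℕ ⊕ Fin k ≃ ℕ))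
  exact ⟨(Homeomorph.sumArrowHomeomorphProdArrow (X := F) (ι := ℕ) (ι' := Fin k)).symm.trans
    (reindexHomeo F e)⟩

/-- last coordinate -/
theorem snoc_homeo (k : ℕ) : ∃ Θ : (E × (Fin k → F)) × F ≃ₜ E × (Fin (k + 1) → F),
    ∀ x w v, (Θ ((x, w), v)).1 = x ∧ (∀ i : Fin k, (Θ ((x, w), v)).2 i.castSucc = w i) ∧
      (Θ ((x, w), v)).2 (Fin.last k) = v := by
  refine ⟨{ toFun := fun p => (p.1.1, Fin.snoc (α := fun _ => F) p.1.2 p.2)
            invFun := fun q => ((q.1, fun i => q.2 i.castSucc), q.2 (Fin.last k))
            left_inv := ?_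
            right_inv := ?_
            continuous_toFun := ?_
            continuous_invFun := ?_ }, ?_⟩
  · rintro ⟨⟨x, w⟩, v⟩
    simp
  · rintro ⟨x, u⟩
    refine Prod.ext rfl ?_
    funext i
    refine Fin.lastCases ?_ (fun j => ?_) i
    · simp
    · simp
  · refine (continuous_fst.comp continuous_fst).prodMk (continuous_pi fun i => ?_)
    refine Fin.lastCases ?_ (fun j => ?_) i
    · simp only [Fin.snoc_last]
      exact continuous_snd
    · simp only [Fin.snoc_castSucc]
      exact (continuous_apply j).comp (continuous_snd.comp continuous_fst)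
  · exact (continuous_fst.prodMk (continuous_pi fun i =>
      (continuous_apply _).comp continuous_snd)).prodMk ((continuous_apply _).comp continuous_snd)
  · intro x w v
    refine ⟨rfl, fun i => ?_, ?_⟩
    · change Fin.snoc (α := fun _ => F) w v i.castSucc = w i
      exact Fin.snoc_castSucc (α := fun _ => F) v w i
    · change Fin.snoc (α := fun _ => F) w v (Fin.last k) = v
      exact Fin.snoc_last (α := fun _ => F) v w

end Pool.Agent.Tor
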