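import Pool.Agent.Lib.Tor.InsertBase
import Pool.Agent.Lib.Tor.DelPoint
import Pool.Agent.Lib.Tor.Reindex

/-! MODULE Tor.Swindle (1.5 h): `[0,oo) x E = E` and `[0,1] x E = E`. -/

open Set Topology Filter

namespace Pool.Agent.Tor

/-- the unit sphere of `F` -/
abbrev S : Type := {x : F // ‖x‖ = 1}

namespace SwindleAux

/-- polar coordinates -/
noncomputable def polar : {x : F // x ≠ 0} ≃ₜ S × ℝ where
  toFun x := (⟨‖x.1‖⁻¹ • x.1, by
    rw [norm_smul, norm_inv, norm_norm, inv_mul_cancel₀ (norm_ne_zero_iff.2 x.2)]⟩,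
    Real.log ‖x.1‖)
  invFun p := ⟨Real.exp p.2 • p.1.1, by
    rw [← norm_ne_zero_iff, norm_smul, p.1.2, mul_one, norm_ne_zero_iff]
    exact (Real.exp_pos _).ne'⟩
  left_inv x := by
    apply Subtype.ext
    have h : 0 < ‖x.1‖ := norm_pos_iff.2 x.2
    change Real.exp (Real.log ‖x.1‖) • ‖x.1‖⁻¹ • x.1 = x.1
    rw [Real.exp_log h, smul_smul, mul_inv_cancel₀ h.ne', one_smul]
  right_inv p := by
    have h : ‖Real.exp p.2 • p.1.1‖ = Real.exp p.2 := by
      rw [norm_smul, p.1.2, mul_one, Real.norm_of_nonneg (Real.exp_pos _).le]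
    refine Prod.ext (Subtype.ext ?_) ?_
    · change ‖Real.exp p.2 • p.1.1‖⁻¹ • Real.exp p.2 • p.1.1 = p.1.1
      rw [h, smul_smul, inv_mul_cancel₀ (Real.exp_pos _).ne', one_smul]
    · change Real.log ‖Real.exp p.2 • p.1.1‖ = p.2
      rw [h, Real.log_exp]
  continuous_toFun := by
    refine Continuous.prodMk (Continuous.subtype_mk ?_ _) ?_
    · exact (continuous_subtype_val.norm.inv₀ fun x => norm_ne_zero_iff.2 x.2).smul
        continuous_subtype_val
    · exact continuous_subtype_val.norm.log fun x => norm_ne_zero_iff.2 x.2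
  continuous_invFun := by
    refine Continuous.subtype_mk ?_ _
    exact (Real.continuous_exp.comp continuous_snd).smul
      (continuous_subtype_val.comp continuous_fst)

/-- a function into a product -/
def arrowProd (A B : Type) [TopologicalSpace A] [TopologicalSpace B] :
    (ℕ → A × B) ≃ₜ (ℕ → A) × (ℕ → B) where
  toFun f := (fun n => (f n).1, fun n => (f n).2)
  invFun p := fun n => (p.1 n, p.2 n)
  left_inv _ := rfl
  right_inv _ := rfl
  continuous_toFun := by fun_prop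
  continuous_invFun := by fun_prop

/-- radial compression -/
noncomputable def cc (v : F) : F := (1 + ‖v‖)⁻¹ • v

/-- its inverse -/
noncomputable def ci (x : F) : F := (1 - ‖x‖)⁻¹ • x

theorem norm_cc (v : F) : ‖cc v‖ < 1 := by
  unfold cc
  have h : 0 < 1 + ‖v‖ := by positivity
  rw [norm_smul, norm_inv, Real.norm_of_nonneg h.le, inv_mul_lt_iff₀ h]
  linarith

theorem ci_cc (v : F) : ci (cc v) = v := by
  have h : 0 < 1 + ‖v‖ := by positivity
  have h1 : ‖cc v‖ = (1 + ‖v‖)⁻¹ * ‖v‖ := by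
    unfold cc
    rw [norm_smul, norm_inv, Real.norm_of_nonneg h.le]
  have h2 : 1 - ‖cc v‖ = (1 + ‖v‖)⁻¹ := by
    rw [h1]; field_simp; ring
  unfold ci
  rw [h2, inv_inv]
  unfold cc
  rw [smul_smul, mul_inv_cancel₀ h.ne', one_smul]

theorem cc_ci {x : F} (hx : ‖x‖ < 1) : cc (ci x) = x := by
  have h : 0 < 1 - ‖x‖ := by linarith
  have h1 : ‖ci x‖ = (1 - ‖x‖)⁻¹ * ‖x‖ := by
    unfold ci
    rw [norm_smul, norm_inv, Real.norm_of_nonneg h.le]
  have h2 : 1 + ‖ci x‖ = (1 - ‖x‖)⁻¹ := by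
    rw [h1]; field_simp; ring
  unfold cc
  rw [h2, inv_inv]
  unfold ci
  rw [smul_smul, mul_inv_cancel₀ h.ne', one_smul]

theorem continuous_cc : Continuous cc := by
  unfold cc
  refine Continuous.smul (Continuous.inv₀ (continuous_const.add continuous_norm) ?_) continuous_id
  intro v
  have : 0 < 1 + ‖v‖ := by positivity
  exact this.ne'

theorem continuousAt_ci {x : F} (hx : ‖x‖ < 1) : ContinuousAt ci x := by
  have h1 : Continuous (fun x : F => 1 - ‖x‖) := continuous_const.sub continuous_norm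
  have h2 : 0 < 1 - ‖x‖ := by linarith
  have h3 : ContinuousAt (fun x : F => (1 - ‖x‖)⁻¹) x := h1.continuousAt.inv₀ h2.ne'
  exact h3.smul (continuous_id (X := F)).continuousAt

theorem cont_scal {Z : Type} [TopologicalSpace Z] {ρ : Z → ℝ} (hρ : Continuous ρ) {g : Z → F}
    (hb : ∀ z, ‖g z‖ ≤ 1) (hg : ∀ z, ρ z ≠ 0 → ContinuousAt g z) :
    Continuous (fun z => ρ z • g z) := by
  rw [continuous_iff_continuousAt]
  intro z
  by_cases h : ρ z = 0
  · have h1 : Tendsto (fun z' => ρ z' • g z') (𝓝 z) (𝓝 0) := by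
      apply squeeze_zero_norm (a := fun z' => |ρ z'|)
      · intro z'
        rw [norm_smul, Real.norm_eq_abs]
        calc |ρ z'| * ‖g z'‖ ≤ |ρ z'| * 1 := mul_le_mul_of_nonneg_left (hb z') (abs_nonneg _)
          _ = _ := mul_one _
      · have h2 : Tendsto (fun z' => |ρ z'|) (𝓝 z) (𝓝 |ρ z|) := (hρ.abs.tendsto z)
        rw [h, abs_zero] at h2
        exact h2
    have h2 : ρ z • g z = 0 := by rw [h, zero_smul]
    change Tendsto (fun z' => ρ z' • g z') (𝓝 z) (𝓝 (ρ z • g z))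
    rw [h2]
    exact h1
  · exact hρ.continuousAt.smul (hg z h)

/-- half line -/
abbrev Hl : Type := {r : ℝ // 0 ≤ r}

/-- the region over the half line -/
abbrev R1 : Type := {p : Hl × (ℕ → F) // p.2 = 0 ∨ ∀ i, ‖p.2 i‖ < (p.1 : ℝ)}

/-- the region over `F` -/
abbrev R2 : Type := {p : F × (ℕ → F) // p.2 = 0 ∨ ∀ i, ‖p.2 i‖ < ‖p.1‖}

open Classical in
/-- the direction of a vector -/
noncomputable def sph (s₀ : S) (u : F) : S :=
  if h : u ≠ 0 then ⟨‖u‖⁻¹ • u, by
    rw [norm_smul, norm_inv, norm_norm, inv_mul_cancel₀ (norm_ne_zero_iff.2 h)]⟩ else s₀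

theorem sph_val {s₀ : S} {u : F} (hu : u ≠ 0) : (sph s₀ u : F) = ‖u‖⁻¹ • u := by
  unfold sph; rw [dif_pos hu]

theorem continuousAt_sph {s₀ : S} {u : F} (hu : u ≠ 0) : ContinuousAt (sph s₀) u := by
  rw [Topology.IsInducing.subtypeVal.continuousAt_iff]
  have h1 : ContinuousAt (fun u : F => ‖u‖⁻¹ • u) u :=
    (continuous_norm.continuousAt.inv₀ (norm_ne_zero_iff.2 hu)).smul continuousAt_id
  apply h1.congr
  have h2 : ∀ᶠ u' in 𝓝 u, u' ≠ 0 := isOpen_ne.mem_nhds hu
  filter_upwards [h2] with u' hu'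
  exact (sph_val hu').symm

theorem small {r : ℝ} (hr : 0 < r) {w : ℕ → F} (h : w = 0 ∨ ∀ i, ‖w i‖ < r) (i : ℕ) :
    ‖r⁻¹ • w i‖ < 1 := by
  rw [norm_smul, norm_inv, Real.norm_of_nonneg hr.le, inv_mul_lt_iff₀ hr, mul_one]
  rcases h with h | h
  · rw [h, Pi.zero_apply, norm_zero]; exact hr
  · exact h i

theorem zero_of {r : ℝ} (hr : r = 0) {w : ℕ → F} (h : w = 0 ∨ ∀ i, ‖w i‖ < r) : w = 0 := by
  rcases h with h | h
  · exact h
  · have := h 0
    rw [hr] at this
    exact absurd this (not_lt.2 (norm_nonneg _))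

theorem mem_region {r : ℝ} (hr : 0 ≤ r) (x : ℕ → F) :
    (fun i => r • cc (x i)) = (0 : ℕ → F) ∨ ∀ i, ‖r • cc (x i)‖ < r := by
  rcases eq_or_lt_of_le hr with h | h
  · left
    funext i
    rw [← h, zero_smul]; rfl
  · right
    intro i
    rw [norm_smul, Real.norm_of_nonneg hr]
    calc r * ‖cc (x i)‖ < r * 1 := mul_lt_mul_of_pos_left (norm_cc _) h
      _ = r := mul_one r

/-- the homeomorphism of the two regions -/
noncomputable def regions (s₀ : S) (h : S × E ≃ₜ E) : R2 ≃ₜ R1 where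
  toFun p := ⟨(⟨‖p.1.1‖, norm_nonneg _⟩, fun i => ‖p.1.1‖ •
    cc (h (sph s₀ p.1.1, fun j => ci (‖p.1.1‖⁻¹ • p.1.2 j)) i)), mem_region (norm_nonneg _) _⟩
  invFun p := ⟨((p.1.1 : ℝ) • ((h.symm (fun i => ci ((p.1.1 : ℝ)⁻¹ • p.1.2 i))).1 : F),
    fun i => (p.1.1 : ℝ) • cc ((h.symm (fun i => ci ((p.1.1 : ℝ)⁻¹ • p.1.2 i))).2 i)), by
      have e : ‖(p.1.1 : ℝ) • ((h.symm (fun i => ci ((p.1.1 : ℝ)⁻¹ • p.1.2 i))).1 : F)‖ = p.1.1 := by
        rw [norm_smul, (h.symm (fun i => ci ((p.1.1 : ℝ)⁻¹ • p.1.2 i))).1.2, mul_one,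
          Real.norm_of_nonneg p.1.1.2]
      simp only [e]
      exact mem_region p.1.1.2 _⟩
  left_inv := by
    rintro ⟨⟨u, w⟩, hp⟩
    apply Subtype.ext
    simp only
    by_cases hu : u = 0
    · have hw : w = 0 := zero_of (by rw [hu]; exact norm_zero) hp
      subst hu hw
      refine Prod.ext ?_ ?_
      · simp
      · funext i
        simp
    · have hr : 0 < ‖u‖ := norm_pos_iff.2 hu
      have e1 : (fun i => ci (‖u‖⁻¹ • ‖u‖ • cc (h (sph s₀ u, fun j => ci (‖u‖⁻¹ • w j)) i))) =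
          h (sph s₀ u, fun j => ci (‖u‖⁻¹ • w j)) := by
        funext i
        rw [smul_smul, inv_mul_cancel₀ hr.ne', one_smul, ci_cc]
      rw [e1, h.symm_apply_apply]
      refine Prod.ext ?_ ?_
      · change ‖u‖ • ((sph s₀ u : S) : F) = u
        rw [sph_val hu, smul_smul, mul_inv_cancel₀ hr.ne', one_smul]
      · funext i
        change ‖u‖ • cc (ci (‖u‖⁻¹ • w i)) = w i
        rw [cc_ci (small hr hp i), smul_smul, mul_inv_cancel₀ hr.ne', one_smul]
  right_inv := by
    rintro ⟨⟨⟨r, hr0⟩, w⟩, hp⟩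
    apply Subtype.ext
    simp only
    obtain ⟨q, hq⟩ : ∃ q, q = h.symm (fun i => ci (r⁻¹ • w i)) := ⟨_, rfl⟩
    have e : ‖r • (q.1 : F)‖ = r := by
      rw [norm_smul, q.1.2, mul_one, Real.norm_of_nonneg hr0]
    refine Prod.ext (Subtype.ext ?_) ?_
    · change ‖r • ((h.symm (fun i => ci (r⁻¹ • w i))).1 : F)‖ = r
      rw [← hq]; exact e
    · funext i
      change ‖r • ((h.symm (fun i => ci (r⁻¹ • w i))).1 : F)‖ •
        cc (h (sph s₀ (r • ((h.symm (fun i => ci (r⁻¹ • w i))).1 : F)), fun j =>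
          ci (‖r • ((h.symm (fun i => ci (r⁻¹ • w i))).1 : F)‖⁻¹ •
            r • cc ((h.symm (fun i => ci (r⁻¹ • w i))).2 j))) i) = w i
      rw [← hq, e]
      rcases eq_or_lt_of_le hr0 with hr | hr
      · have hw : w = 0 := zero_of hr.symm hp
        rw [hw, ← hr, zero_smul]
        rfl
      · have hne : r • (q.1 : F) ≠ 0 := by
          rw [← norm_ne_zero_iff, e]; exact hr.ne'
        have h1 : sph s₀ (r • (q.1 : F)) = q.1 := by
          apply Subtype.ext
          rw [sph_val hne, e, smul_smul, inv_mul_cancel₀ hr.ne', one_smul]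
        have h2 : (fun j => ci (r⁻¹ • r • cc (q.2 j))) = q.2 := by
          funext j
          rw [smul_smul, inv_mul_cancel₀ hr.ne', one_smul, ci_cc]
        rw [h1, h2, Prod.mk.eta, hq, h.apply_symm_apply, cc_ci (small hr hp i), smul_smul,
          mul_inv_cancel₀ hr.ne', one_smul]
  continuous_toFun := by
    refine Continuous.subtype_mk (Continuous.prodMk ?_ (continuous_pi fun i => ?_)) _
    · exact Continuous.subtype_mk (continuous_fst.comp continuous_subtype_val).norm _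
    · apply cont_scal (continuous_fst.comp continuous_subtype_val).norm
        (fun z => (norm_cc _).le)
      intro z hz
      have hz0 : z.1.1 ≠ 0 := norm_ne_zero_iff.1 hz
      have hr : 0 < ‖z.1.1‖ := norm_pos_iff.2 hz0
      refine continuous_cc.continuousAt.comp ?_
      refine ((continuous_apply i).comp h.continuous).continuousAt.comp ?_
      refine ContinuousAt.prodMk ?_ ?_
      · exact ContinuousAt.comp (f := fun z : R2 => z.1.1) (continuousAt_sph hz0)
          (continuous_fst.comp continuous_subtype_val).continuousAt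
      · rw [continuousAt_pi]
        intro j
        refine ContinuousAt.comp (f := fun z : R2 => ‖z.1.1‖⁻¹ • z.1.2 j)
          (continuousAt_ci (small hr z.2 j)) ?_
        refine ContinuousAt.smul (ContinuousAt.inv₀
          (continuous_fst.comp continuous_subtype_val).norm.continuousAt hr.ne') ?_
        exact ((continuous_apply j).comp (continuous_snd.comp continuous_subtype_val)).continuousAt
  continuous_invFun := by
    have hρ : Continuous (fun z : R1 => (z.1.1 : ℝ)) :=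
      continuous_subtype_val.comp (continuous_fst.comp continuous_subtype_val)
    have key : ∀ z : R1, (z.1.1 : ℝ) ≠ 0 →
        ContinuousAt (fun z : R1 => h.symm (fun i => ci ((z.1.1 : ℝ)⁻¹ • z.1.2 i))) z := by
      intro z hz
      have hr : 0 < (z.1.1 : ℝ) := lt_of_le_of_ne z.1.1.2 (Ne.symm hz)
      refine h.symm.continuous.continuousAt.comp ?_
      rw [continuousAt_pi]
      intro j
      refine ContinuousAt.comp (f := fun z : R1 => (z.1.1 : ℝ)⁻¹ • z.1.2 j)
        (continuousAt_ci (small hr z.2 j)) ?_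
      refine ContinuousAt.smul (ContinuousAt.inv₀ hρ.continuousAt hr.ne') ?_
      exact ((continuous_apply j).comp (continuous_snd.comp continuous_subtype_val)).continuousAt
    refine Continuous.subtype_mk (Continuous.prodMk ?_ (continuous_pi fun i => ?_)) _
    · apply cont_scal hρ (fun z => (h.symm (fun i => ci ((z.1.1 : ℝ)⁻¹ • z.1.2 i))).1.2.le)
      intro z hz
      exact (continuous_subtype_val.comp continuous_fst).continuousAt.comp (key z hz)
    · apply cont_scal hρ (fun z => (norm_cc _).le)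
      intro z hz
      refine continuous_cc.continuousAt.comp ?_
      exact ((continuous_apply i).comp continuous_snd).continuousAt.comp (key z hz)

/-- the discriminant -/
def dis (x y : ℝ) : ℝ := (1 + x + y) ^ 2 - 4 * x

theorem dis_eq (x y : ℝ) : dis x y = (x + y - 1) ^ 2 + 4 * y := by unfold dis; ring

theorem sqrt_dis {x y : ℝ} (hx : 0 ≤ x) (hy : 0 ≤ y) :
    |x + y - 1| ≤ Real.sqrt (dis x y) ∧ Real.sqrt (dis x y) ≤ 1 + x + y ∧
      Real.sqrt (dis x y) ^ 2 = dis x y := by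
  refine ⟨?_, ?_, ?_⟩
  · apply Real.abs_le_sqrt
    rw [dis_eq]; linarith
  · rw [Real.sqrt_le_left (by linarith)]
    unfold dis; linarith
  · rw [Real.sq_sqrt]
    rw [dis_eq]; positivity

/-- the square -/
noncomputable def strip : I × Hl ≃ₜ Hl × Hl where
  toFun p := (⟨(p.1 : ℝ) * (1 + p.2), by
      have := p.1.2.1; have := p.2.2; positivity⟩,
    ⟨(p.2 : ℝ) * (1 - p.1), by
      have h1 := p.1.2.2; have := p.2.2
      have : 0 ≤ 1 - (p.1 : ℝ) := by linarith
      positivity⟩)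
  invFun p := (⟨((1 + (p.1 : ℝ) + p.2) - Real.sqrt (dis p.1 p.2)) / 2, by
      obtain ⟨h1, h2, h3⟩ := sqrt_dis p.1.2 p.2.2
      rw [abs_le] at h1
      constructor <;> linarith⟩,
    ⟨(((p.1 : ℝ) + p.2 - 1) + Real.sqrt (dis p.1 p.2)) / 2, by
      obtain ⟨h1, h2, h3⟩ := sqrt_dis p.1.2 p.2.2
      rw [abs_le] at h1
      linarith⟩)
  left_inv := by
    rintro ⟨⟨a, ha0, ha1⟩, ⟨s, hs⟩⟩
    have e : dis (a * (1 + s)) (s * (1 - a)) = (1 + s - a) ^ 2 := by unfold dis; ring
    have e2 : Real.sqrt (dis (a * (1 + s)) (s * (1 - a))) = 1 + s - a := by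
      rw [e, Real.sqrt_sq (by linarith)]
    refine Prod.ext (Subtype.ext ?_) (Subtype.ext ?_)
    · change ((1 + a * (1 + s) + s * (1 - a)) - Real.sqrt (dis (a * (1 + s)) (s * (1 - a)))) / 2 = a
      rw [e2]; ring
    · change ((a * (1 + s) + s * (1 - a) - 1) + Real.sqrt (dis (a * (1 + s)) (s * (1 - a)))) / 2 = s
      rw [e2]; ring
  right_inv := by
    rintro ⟨⟨x, hx⟩, ⟨y, hy⟩⟩
    obtain ⟨h1, h2, h3⟩ := sqrt_dis hx hy
    set D := Real.sqrt (dis x y) with hD
    unfold dis at h3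
    refine Prod.ext (Subtype.ext ?_) (Subtype.ext ?_)
    · change ((1 + x + y) - D) / 2 * (1 + ((x + y - 1) + D) / 2) = x
      nlinarith
    · change ((x + y - 1) + D) / 2 * (1 - ((1 + x + y) - D) / 2) = y
      nlinarith
  continuous_toFun := by
    refine Continuous.prodMk (Continuous.subtype_mk ?_ _) (Continuous.subtype_mk ?_ _)
    · fun_prop
    · fun_prop
  continuous_invFun := by
    unfold dis
    refine Continuous.prodMk (Continuous.subtype_mk ?_ _) (Continuous.subtype_mk ?_ _)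
    · fun_prop
    · fun_prop

end SwindleAux

open SwindleAux

/-- PROOF: polar coordinates `F \ 0 = S x (0,oo) = S x R`, `del_point`: `F = S x R`, so
`E = S^N x R^N`, and `S x S^N = S^N` (`cons_homeo`). -/
theorem sphere_prod : Nonempty (S × E ≃ₜ E) := by
  obtain ⟨d⟩ := del_point
  obtain ⟨c⟩ := cons_homeo S
  let f : F ≃ₜ S × ℝ := d.symm.trans polar
  let g : E ≃ₜ (ℕ → S) × (ℕ → ℝ) :=
    (Homeomorph.piCongrRight fun _ => f).trans (arrowProd S ℝ)
  exact ⟨((Homeomorph.refl S).prodCongr g).trans ((Homeomorph.prodAssoc _ _ _).symm.trans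
    ((c.prodCongr (Homeomorph.refl _)).trans g.symm))⟩

/-- PROOF. `iota = N` in `insert_base`, twice: with `Y = [0,oo)`, `lam = id`, and with `Y = F`,
`lam = norm`. `R1 = {(r,w) : w = 0 or all |w_i| < r}`, `R2 = {(u,w) in F x E : w = 0 or all
|w_i| < |u|}`. `R2 = R1`: for `u /= 0` write `u = |u| sg`, `w_i = |u| x_i` with `|x_i| < 1`, i.e.
`x = c x'`, `x'` in `E` (radial compression of the unit ball in each coordinate), send
`(sg, x')` by `sphere_prod` to `x''` in `E` and back to `r = |u|`, `w'_i = r (c x'')_i`; `(0,0)` to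
`(0,0)`; continuous at `0` both ways since `|w_i| < r`. Then
`[0,oo) x E = [0,oo) x E^N = R1 x E^N = R2 x E^N = F x E^N = F x E = E` (`pi_pi`, `E_prod_F`). -/
theorem halfline : Nonempty ({r : ℝ // 0 ≤ r} × E ≃ₜ E) := by
  obtain ⟨h⟩ := sphere_prod
  have s₀ : S := by
    refine ⟨((1 : ℝ), (0 : L1)), ?_⟩
    rw [Prod.norm_def]
    simp
  obtain ⟨Θ₁, _⟩ := insert_base (Y := Hl) (ι := ℕ) (fun r => (r : ℝ)) continuous_subtype_val
  obtain ⟨Θ₂, _⟩ := insert_base (Y := F) (ι := ℕ) (fun u => ‖u‖) continuous_norm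
  obtain ⟨P, _⟩ := pi_pi F
  obtain ⟨Q⟩ := E_prod_F
  exact ⟨((Homeomorph.refl Hl).prodCongr P.symm).trans (Θ₁.trans
    (((regions s₀ h).symm.prodCongr (Homeomorph.refl _)).trans (Θ₂.symm.trans
      (((Homeomorph.refl F).prodCongr P).trans ((Homeomorph.prodComm _ _).trans Q)))))⟩

/-- PROOF: `[0,1] x [0,oo) = [0,oo) x [0,oo)` by `(a,s) -> (a(1+s), s(1-a))`; inverse of `(x,y)`:
`D = (1+x+y)^2 - 4x = (1-x)^2 + 2y(1+x) + y^2 >= 0`, `a = ((1+x+y) - sqrt D)/2`, `s = x + y - a`.
Then `[0,1] x E = [0,1] x [0,oo) x E = [0,oo) x [0,oo) x E = E`. -/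
theorem interval : Nonempty (I × E ≃ₜ E) := by
  obtain ⟨h⟩ := halfline
  exact ⟨((Homeomorph.refl I).prodCongr h.symm).trans ((Homeomorph.prodAssoc _ _ _).symm.trans
    ((strip.prodCongr (Homeomorph.refl E)).trans ((Homeomorph.prodAssoc _ _ _).trans
      (((Homeomorph.refl Hl).prodCongr h).trans h))))⟩

theorem interval' : Nonempty (E × I ≃ₜ E) := by
  obtain ⟨h⟩ := interval
  exact ⟨(Homeomorph.prodComm _ _).trans h⟩

end Pool.Agent.Tor
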