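import Pool.Agent.Lib.Tor.Defic
import Pool.Agent.Lib.Tor.PushPath
import Pool.Agent.Lib.Tor.Dugundji
import Pool.Agent.Lib.Tor.SZFacts

/-! MODULE Tor.Unknot: controlled unknotting of strong Z-sets. -/

open Set Topology Filter

namespace Pool.Agent.Tor

namespace UnknotAux

/-- two points in a common member of the cover -/
def Rel {Z : Type} (U : Z → Set Z) (x y : Z) : Prop := ∃ z, x ∈ U z ∧ y ∈ U z

theorem Rel.symm {Z : Type} {U : Z → Set Z} {x y : Z} (h : Rel U x y) : Rel U y x := by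
  obtain ⟨z, h1, h2⟩ := h
  exact ⟨z, h2, h1⟩

theorem rel_refl {Z : Type} [TopologicalSpace Z] {U : Z → Set Z} (hU : Cov U) (x : Z) :
    Rel U x x := ⟨x, (hU x).2, (hU x).2⟩

theorem rel_trans {Z : Type} {U V : Z → Set Z}
    (hs : ∀ a, ∃ z, ∀ b, (V a ∩ V b).Nonempty → V b ⊆ U z) {x y w : Z}
    (h1 : Rel V x y) (h2 : Rel V y w) : Rel U x w := by
  obtain ⟨a, hx, hy⟩ := h1
  obtain ⟨b, hy', hw⟩ := h2
  obtain ⟨z, hz⟩ := hs a
  exact ⟨z, hz a ⟨x, hx, hx⟩ hx, hz b ⟨y, hy, hy'⟩ hw⟩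

theorem rel_mono {Z : Type} {U V : Z → Set Z}
    (hs : ∀ a, ∃ z, ∀ b, (V a ∩ V b).Nonempty → V b ⊆ U z) {x y : Z}
    (h1 : Rel V x y) : Rel U x y := by
  obtain ⟨a, hx, hy⟩ := h1
  obtain ⟨z, hz⟩ := hs a
  exact ⟨z, hz a ⟨x, hx, hx⟩ hx, hz a ⟨x, hx, hx⟩ hy⟩

/-- a closed embedding with zero second coordinate -/
theorem emb_fst {A : Type} [TopologicalSpace A] (j : A → E × E) (hj : IsClosedEmbedding j)
    (h0 : ∀ a, (j a).2 = 0) : IsClosedEmbedding (fun a => (j a).1) := by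
  have hk : IsClosedEmbedding (fun x : E => ((x, 0) : E × E)) := by
    refine IsClosedEmbedding.of_continuous_injective_isClosedMap (by fun_prop) ?_ ?_
    · intro x y hxy
      exact congrArg Prod.fst hxy
    · intro K hK
      have : (fun x : E => ((x, 0) : E × E)) '' K = {p : E × E | p.1 ∈ K ∧ p.2 = 0} := by
        ext ⟨x, y⟩
        constructor
        · rintro ⟨a, ha, hab⟩
          simp only [Prod.mk.injEq] at hab
          exact ⟨hab.1 ▸ ha, hab.2.symm⟩
        · rintro ⟨h1, h2⟩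
          simp only at h1 h2
          exact ⟨x, h1, by rw [h2]⟩
      rw [this]
      exact (hK.preimage continuous_fst).inter (isClosed_eq continuous_snd continuous_const)
  rw [← hk.of_comp_iff]
  have : ((fun x : E => ((x, 0) : E × E)) ∘ fun a => (j a).1) = j := by
    funext a
    exact Prod.ext rfl (h0 a).symm
  rw [this]
  exact hj

/-- the shear `(x, v) -> (x, v + f x)` -/
noncomputable def shear (f : E → E) (hf : Continuous f) : E × E ≃ₜ E × E where
  toFun q := (q.1, q.2 + f q.1)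
  invFun q := (q.1, q.2 - f q.1)
  left_inv q := by simp
  right_inv q := by simp
  continuous_toFun := by fun_prop
  continuous_invFun := by fun_prop

/-- the homotopy `gam` -/
theorem exists_gam {A : Type} [TopologicalSpace A] (x₀ : A → E) (hx₀ : IsClosedEmbedding x₀)
    (g : A × I → E) (hg : Continuous g) (hg0 : ∀ a, g (a, 0) = x₀ a) :
    ∃ γ : E × I → E, Continuous γ ∧ (∀ v, γ (v, 0) = v) ∧ ∀ a t, γ (x₀ a, t) = g (a, t) := by
  have hj : IsClosedEmbedding (fun q : A × I => ((x₀ q.1, q.2) : E × I)) :=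
    hx₀.prodMap IsClosedEmbedding.id
  obtain ⟨η, hη, hη'⟩ := ae_E.extend_emb hj (fun q => g q - x₀ q.1)
    (hg.sub (hx₀.continuous.comp continuous_fst))
  refine ⟨fun q => q.1 + (η q - η (q.1, 0)), by fun_prop, ?_, ?_⟩
  · intro v
    simp
  · intro a t
    have h1 : η (x₀ a, t) = g (a, t) - x₀ a := hη' (a, t)
    have h2 : η (x₀ a, 0) = g (a, 0) - x₀ a := hη' (a, 0)
    simp only [h1, h2, hg0]
    abel

end UnknotAux

open UnknotAux

/-- PROOF. Transport to `M = E`. Let `V` be an iterated star refinement of `U`. Given `A`, `G`,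
`g a = G (a,1)`: `SZ.union` and `deficient` (with the cover pulled back from `Z` by `C`) give
`th : E = E x E` with `C (th e).1` near `C e` and `(th e).2 = 0` for `e in A` and `e in range g`. Write
`x0 a = (th a).1`, `x1 a = (th (g a)).1`, closed embeddings `A -> E`. Paths: let `gam : E x I -> E` be
continuous with `gam (v,0) = v` for all `v` and `gam (x0 a, t) = (th (G (a,t))).1` for `a in A`.
The tracks `C (gam (x0 a, .))` are small (near `C (G (a,t))`), hence so are the tracks for `v` in an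
open neighbourhood `O` of `x0(A)`; cut off with `chi : E -> [0,1]`. `push_path` with `P = E`, `gam'`:
get `Psi_v`. Let `psi : E -> E` be continuous with `psi (x1 a) = x0 a`. The homeomorphism
`H (x,v) = (x', v + x - psi x')`, `x' = Psi_(v+x) x`, of `E x E` maps
`(x0 a, 0) -> (x0 a, x0 a) -> (x1 a, x0 a) -> (x1 a, 0)`, and `C x'` is near `C x`.
`h = th^-1 H th`. -/
theorem unknot {M Z : Type} [TopologicalSpace M] (hM : M ≃ₜ E) [TopologicalSpace Z]
    [TopologicalSpace.MetrizableSpace Z] (C : M → Z) (hC : Continuous C) (U : Z → Set Z)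
    (hU : Cov U) :
    ∃ V : Z → Set Z, Cov V ∧ ∀ (A : Set M) (_ : SZ A) (G : A × I → M), Continuous G →
      (∀ a, G (a, 0) = a) → IsClosedEmbedding (fun a => G (a, 1)) →
      SZ (range fun a => G (a, 1)) → (∀ a, ∃ z, ∀ t, C (G (a, t)) ∈ V z) →
      ∃ h : M ≃ₜ M, (∀ a : A, h a = G (a, 1)) ∧ ∀ m, ∃ z, C m ∈ U z ∧ C (h m) ∈ U z := by
  obtain ⟨V0, hV0, s0⟩ := exists_star hU
  obtain ⟨V1, hV1, s1⟩ := exists_star hV0
  obtain ⟨V2, hV2, s2⟩ := exists_star hV1
  obtain ⟨V3, hV3, s3⟩ := exists_star hV2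
  refine ⟨V3, hV3, ?_⟩
  intro A hA G hG hG0 hG1 hGr hsmall
  haveI : TopologicalSpace.MetrizableSpace M := hM.isEmbedding.metrizableSpace
  obtain ⟨θ, hθU, hθ0⟩ := deficient hM (A ∪ range fun a => G (a, 1)) (hA.union hGr)
    (fun m => C ⁻¹' V3 (C m)) (hV3.pull hC)
  -- transport to `E x E`
  let θ' : M ≃ₜ E × E := θ.trans (hM.prodCongr (Homeomorph.refl E))
  let C' : E → Z := fun x => C (hM.symm x)
  have hC' : Continuous C' := hC.comp hM.symm.continuous
  have hθ'0 : ∀ m, (m ∈ A ∨ m ∈ range fun a => G (a, 1)) → (θ' m).2 = 0 := by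
    intro m hm
    exact hθ0 m hm
  have hθ'C : ∀ m, Rel V3 (C m) (C' (θ' m).1) := by
    intro m
    obtain ⟨z, h1, h2⟩ := hθU m
    refine ⟨C z, h1, ?_⟩
    have : C' (θ' m).1 = C (θ m).1 := by
      simp only [C', θ', Homeomorph.trans_apply, Homeomorph.coe_prodCongr, Prod.map_fst,
        Homeomorph.symm_apply_apply]
    rw [this]
    exact h2
  -- the two embeddings
  have hx₀ : IsClosedEmbedding (fun a : A => (θ' (a : M)).1) :=
    emb_fst (fun a : A => θ' (a : M)) (θ'.isClosedEmbedding.comp hA.1.isClosedEmbedding_subtypeVal)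
      fun a => hθ'0 _ (Or.inl a.2)
  have hx₁ : IsClosedEmbedding (fun a : A => (θ' (G (a, 1))).1) :=
    emb_fst (fun a : A => θ' (G (a, 1))) (θ'.isClosedEmbedding.comp hG1)
      fun a => hθ'0 _ (Or.inr ⟨a, rfl⟩)
  obtain ⟨γ, hγ, hγ0, hγA⟩ := exists_gam (fun a : A => (θ' (a : M)).1) hx₀
    (fun q : A × I => (θ' (G q)).1) (by fun_prop) (fun a => by rw [hG0])
  -- the open set of small tracks
  let O : Set E := {v | ∃ z, ∀ t, C' (γ (v, t)) ∈ V2 z}
  have hO : IsOpen O := by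
    rw [isOpen_iff_mem_nhds]
    rintro v ⟨z, hz⟩
    have : ∀ᶠ w in 𝓝 v, ∀ t ∈ (univ : Set I), C' (γ (w, t)) ∈ V2 z := by
      refine isCompact_univ.eventually_forall_of_forall_eventually ?_
      intro t _
      have hc : ContinuousAt (fun q : E × I => C' (γ (q.1, q.2))) (v, t) := by
        have : Continuous (fun q : E × I => C' (γ (q.1, q.2))) := hC'.comp (by fun_prop)
        exact this.continuousAt
      exact hc.eventually ((hV2 z).1.mem_nhds (hz t))
    filter_upwards [this] with w hw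
    exact ⟨z, fun t => hw t (mem_univ t)⟩
  have hx₀O : ∀ a : A, (θ' (a : M)).1 ∈ O := by
    intro a
    obtain ⟨z, hz⟩ := hsmall a
    obtain ⟨z', hz'⟩ := s3 z
    refine ⟨z', fun t => ?_⟩
    rw [hγA]
    obtain ⟨b, hb1, hb2⟩ := hθ'C (G (a, t))
    exact hz' b ⟨_, hz t, hb1⟩ hb2
  obtain ⟨χ, hχ0, hχ1, hχ⟩ := exists_continuous_zero_one_of_isClosed hO.isClosed_compl
    hx₀.isClosed_range (by
      rw [Set.disjoint_left]
      rintro v hv ⟨a, rfl⟩
      exact hv (hx₀O a))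
  have hχm : ∀ (v : E) (t : I), χ v * (t : ℝ) ∈ Icc (0 : ℝ) 1 := fun v t =>
    ⟨mul_nonneg (hχ v).1 t.2.1, mul_le_one₀ (hχ v).2 t.2.1 t.2.2⟩
  let γ' : E × I → E := fun q => γ (q.1, ⟨χ q.1 * (q.2 : ℝ), hχm q.1 q.2⟩)
  have hγ' : Continuous γ' := by
    refine hγ.comp (continuous_fst.prodMk (Continuous.subtype_mk ?_ _))
    exact (χ.continuous.comp continuous_fst).mul (continuous_subtype_val.comp continuous_snd)
  have hγ'0 : ∀ v, γ' (v, 0) = v := by
    intro v
    have : (⟨χ v * ((0 : I) : ℝ), hχm v 0⟩ : I) = 0 := by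
      apply Subtype.ext
      simp
    simp only [γ', this, hγ0]
  have hγ'1 : ∀ a : A, γ' ((θ' (a : M)).1, 1) = (θ' (G (a, 1))).1 := by
    intro a
    have h1 : χ (θ' (a : M)).1 = 1 := hχ1 ⟨a, rfl⟩
    have : (⟨χ (θ' (a : M)).1 * ((1 : I) : ℝ), hχm _ 1⟩ : I) = 1 := by
      apply Subtype.ext
      simp [h1]
    simp only [γ', this, hγA]
  have htrack : ∀ v, ∃ z, ∀ t, C' (γ' (v, t)) ∈ V2 z := by
    intro v
    by_cases hv : v ∈ O
    · obtain ⟨z, hz⟩ := hv
      exact ⟨z, fun t => hz _⟩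
    · refine ⟨C' v, fun t => ?_⟩
      have h1 : χ v = 0 := hχ0 hv
      have : (⟨χ v * ((t : I) : ℝ), hχm _ t⟩ : I) = 0 := by
        apply Subtype.ext
        simp [h1]
      simp only [γ', this, hγ0]
      exact (hV2 (C' v)).2
  obtain ⟨Ψ, hΨ1, hΨ2, hΨ3⟩ := push_path C' hC' V2 hV2 γ' hγ'
  have hΨC : ∀ v x, Rel V1 (C' x) (C' (Ψ (v, x)).2) := by
    intro v x
    rcases hΨ3 v x with h | ⟨⟨t, z1, h1, h2⟩, t', z2, h3, h4⟩
    · rw [h]
      exact rel_refl hV1 _
    · obtain ⟨z0, hz0⟩ := htrack v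
      obtain ⟨w, hw⟩ := s2 z0
      exact ⟨w, hw z1 ⟨_, hz0 t, h2⟩ h1, hw z2 ⟨_, hz0 t', h4⟩ h3⟩
  obtain ⟨ψ, hψ, hψ'⟩ := ae_E.extend_emb hx₁ (fun a : A => (θ' (a : M)).1) hx₀.continuous
  let H : E × E ≃ₜ E × E := (shear id continuous_id).trans
    (((Homeomorph.prodComm E E).trans (Ψ.trans (Homeomorph.prodComm E E))).trans
      (shear (fun x => -ψ x) hψ.neg))
  have hH : ∀ x v, H (x, v) = ((Ψ (v + x, x)).2, (Ψ (v + x, x)).1 - ψ (Ψ (v + x, x)).2) := by
    intro x v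
    simp only [H, shear, Homeomorph.trans_apply, Homeomorph.homeomorph_mk_coe, Equiv.coe_fn_mk,
      id, Homeomorph.coe_prodComm, Prod.swap_prod_mk, Prod.fst_swap, Prod.snd_swap,
      sub_eq_add_neg]
  refine ⟨θ'.trans (H.trans θ'.symm), ?_, ?_⟩
  · intro a
    simp only [Homeomorph.trans_apply]
    rw [Homeomorph.symm_apply_eq]
    have h0 : θ' (a : M) = ((θ' (a : M)).1, 0) := Prod.ext rfl (hθ'0 _ (Or.inl a.2))
    have h1 : θ' (G (a, 1)) = ((θ' (G (a, 1))).1, 0) := Prod.ext rfl (hθ'0 _ (Or.inr ⟨a, rfl⟩))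
    rw [h0, hH, zero_add]
    have h2 : Ψ ((θ' (a : M)).1, (θ' (a : M)).1) = ((θ' (a : M)).1, (θ' (G (a, 1))).1) := by
      have := hΨ2 (θ' (a : M)).1
      rwa [hγ'0, hγ'1] at this
    rw [h2, h1]
    simp only [hψ' a, sub_self]
  · intro m
    have k1 : Rel V1 (C m) (C' (θ' m).1) := rel_mono s2 (rel_mono s3 (hθ'C m))
    set q := θ' m with hq
    have k2 : Rel V1 (C' q.1) (C' (H q).1) := by
      have := hΨC (q.2 + q.1) q.1
      have e : (H q).1 = (Ψ (q.2 + q.1, q.1)).2 := by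
        have := hH q.1 q.2
        rw [Prod.mk.eta] at this
        rw [this]
      rw [e]
      exact this
    have k3 : Rel V1 (C (θ'.symm (H q))) (C' (H q).1) := by
      have := hθ'C (θ'.symm (H q))
      rw [Homeomorph.apply_symm_apply] at this
      exact rel_mono s2 (rel_mono s3 this)
    have k4 : Rel V0 (C m) (C' (H q).1) := rel_trans s1 k1 k2
    exact rel_trans s0 k4 (rel_mono s1 k3.symm)

end Pool.Agent.Tor
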