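import Pool.Agent.Lib.Tor.SZFacts
import Pool.Agent.Lib.Tor.Polish

/-! MODULE Tor.ZEmb (1.3 h): approximation by closed embeddings onto strong Z-sets. -/

open Set Topology Filter

namespace Pool.Agent.Tor

namespace ZEmbAux

/-- the clocks -/
noncomputable def sg (i : ℕ) (t : ℝ) : ℝ := max 0 (min 1 ((i : ℝ) * t - 1))

theorem sg_zero {i : ℕ} {t : ℝ} (h : (i : ℝ) * t ≤ 1) : sg i t = 0 := by
  unfold sg
  exact max_eq_left ((min_le_right _ _).trans (by linarith))

theorem sg_one {i : ℕ} {t : ℝ} (h : 2 ≤ (i : ℝ) * t) : sg i t = 1 := by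
  unfold sg
  rw [min_eq_left (by linarith), max_eq_right zero_le_one]

theorem continuous_sg (i : ℕ) : Continuous (sg i) := by
  unfold sg
  fun_prop

/-- small changes of the coordinates far away stay in the cover -/
theorem exists_t (U : E → Set E) (hU : Cov U) :
    ∃ t : E → ℝ, Continuous t ∧ (∀ x, 0 < t x) ∧
      ∀ x y : E, (∀ i : ℕ, (i : ℝ) * t x ≤ 1 → y i = x i) → ∃ z, y ∈ U z ∧ x ∈ U z := by
  obtain ⟨t, ht1, ht2, ht3⟩ := exists_below (Z := E)
    (fun x r => ∀ y : E, (∀ i : ℕ, (i : ℝ) * r ≤ 1 → y i = x i) → ∃ z, y ∈ U z ∧ x ∈ U z)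
    (fun z r s hr hrs h y hy => h y fun i hi => hy i ((mul_le_mul_of_nonneg_left hrs
      (Nat.cast_nonneg i)).trans hi)) (by
      intro z
      have h1 : U z ∈ 𝓝 z := (hU z).1.mem_nhds (hU z).2
      rw [nhds_pi, Filter.mem_pi] at h1
      obtain ⟨J, hJ, u, hu, hsub⟩ := h1
      obtain ⟨N, hN⟩ := hJ.bddAbove
      refine ⟨1 / (N + 1), by positivity, ?_⟩
      have h2 : ∀ᶠ z' in 𝓝 z, z' ∈ J.pi u :=
        set_pi_mem_nhds hJ fun i _ => hu i
      filter_upwards [h2] with z' hz' y hy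
      refine ⟨z, hsub fun i hi => ?_, hsub hz'⟩
      rw [hy i (by
        have : (i : ℝ) ≤ N := by exact_mod_cast hN hi
        rw [mul_one_div, div_le_one (by positivity)]
        linarith)]
      exact hz' i hi)
  exact ⟨t, ht1, fun x => (ht2 x).1, fun x y h => ht3 x y h⟩

theorem low {t : E → ℝ} (ht : Continuous t) (hpos : ∀ x, 0 < t x) {x B : ℕ → E} {y : E}
    (hB : ∀ k i, ((i : ℕ) : ℝ) * t (x k) ≤ 1 → B k i = x k i) (hy : Tendsto B atTop (𝓝 y)) :
    ∃ τ : ℝ, 0 < τ ∧ ∀ᶠ k in atTop, τ ≤ t (x k) := by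
  by_contra hcon
  push Not at hcon
  have h1 : ∀ n : ℕ, ∃ᶠ k in atTop, t (x k) < 1 / ((n : ℝ) + 1) := fun n => by
    have := hcon (1 / ((n : ℝ) + 1)) (by positivity)
    simpa using this
  obtain ⟨φ, hφ, hφ2⟩ := extraction_forall_of_frequently h1
  have h2 : Tendsto (fun k => x (φ k)) atTop (𝓝 y) := by
    rw [tendsto_pi_nhds]
    intro i
    have h3 : Tendsto (fun k => B (φ k) i) atTop (𝓝 (y i)) :=
      ((tendsto_pi_nhds.1 hy) i).comp hφ.tendsto_atTop
    refine h3.congr' ?_
    filter_upwards [eventually_ge_atTop i] with k hk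
    apply hB
    have h4 := (hφ2 k).le
    have h5 : (i : ℝ) ≤ k := by exact_mod_cast hk
    have h6 : (0:ℝ) < (k:ℝ) + 1 := by positivity
    calc (i : ℝ) * t (x (φ k)) ≤ ((k:ℝ) + 1) * (1 / ((k : ℝ) + 1)) :=
          mul_le_mul (by linarith) h4 (hpos _).le h6.le
      _ = 1 := by field_simp
  have h7 : Tendsto (fun k => t (x (φ k))) atTop (𝓝 (t y)) := (ht.tendsto y).comp h2
  have h8 : Tendsto (fun k => t (x (φ k))) atTop (𝓝 0) :=
    squeeze_zero (fun k => (hpos _).le) (fun k => (hφ2 k).le) tendsto_one_div_add_atTop_nhds_zero_nat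
  exact (hpos y).ne' (tendsto_nhds_unique h7 h8)

theorem exists_odd (τ : ℝ) (hτ : 0 < τ) : ∃ i : ℕ, Odd i ∧ 2 ≤ (i : ℝ) * τ := by
  obtain ⟨n, hn⟩ := exists_nat_ge (2 / τ)
  rw [div_le_iff₀ hτ] at hn
  refine ⟨2 * n + 1, ⟨n, rfl⟩, ?_⟩
  push_cast
  have : (0:ℝ) ≤ n := by positivity
  nlinarith

theorem exists_even (τ : ℝ) (hτ : 0 < τ) : ∃ i : ℕ, ¬ Odd i ∧ 2 ≤ (i : ℝ) * τ := by
  obtain ⟨n, hn⟩ := exists_nat_ge (2 / τ)
  rw [div_le_iff₀ hτ] at hn
  refine ⟨2 * n, by simp, ?_⟩
  push_cast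
  have : (0:ℝ) ≤ n := by positivity
  nlinarith

/-- mixing of coordinates -/
noncomputable def mix (t : ℝ) (x k : E) : E := fun i => (1 - sg i t) • x i + sg i t • k i

theorem mix_low {t : ℝ} {x k : E} {i : ℕ} (h : (i : ℝ) * t ≤ 1) : mix t x k i = x i := by
  unfold mix
  rw [sg_zero h]; simp

theorem mix_high {t : ℝ} {x k : E} {i : ℕ} (h : 2 ≤ (i : ℝ) * t) : mix t x k i = k i := by
  unfold mix
  rw [sg_one h]; simp

theorem continuous_mix {X : Type} [TopologicalSpace X] {t : X → ℝ} {x k : X → E}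
    (ht : Continuous t) (hx : Continuous x) (hk : Continuous k) :
    Continuous fun a => mix (t a) (x a) (k a) := by
  refine continuous_pi fun i => ?_
  have h1 : Continuous fun a => sg i (t a) := (continuous_sg i).comp ht
  have h2 : Continuous fun a => x a i := (continuous_apply i).comp hx
  have h3 : Continuous fun a => k a i := (continuous_apply i).comp hk
  exact ((continuous_const.sub h1).smul h2).add (h1.smul h3)

open Classical in
/-- the theorem for `M = E` -/
theorem main {A : Type} [TopologicalSpace A] [PolishSpace A]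
    (f : A → E) (hf : Continuous f) (U : E → Set E) (hU : Cov U) :
    ∃ g : A → E, IsClosedEmbedding g ∧ SZ (range g) ∧ Near U g f := by
  obtain ⟨t, ht, hpos, hUt⟩ := exists_t U hU
  obtain ⟨k, hk, -⟩ := exists_emb_F A
  let kk : A → E := fun a i => if Odd i then k a else 0
  have hkk : Continuous kk := by
    refine continuous_pi fun i => ?_
    by_cases hi : Odd i
    · simp only [kk, if_pos hi]
      exact hk.continuous
    · simp only [kk, if_neg hi]
      exact continuous_const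
  let g : A → E := fun a => mix (t (f a)) (f a) (kk a)
  have hg : Continuous g := continuous_mix (ht.comp hf) hf hkk
  have hodd : ∀ (a : A) (i : ℕ), Odd i → 2 ≤ (i : ℝ) * t (f a) → g a i = k a := by
    intro a i hi h
    have h1 : g a i = kk a i := mix_high h
    rw [h1]
    exact if_pos hi
  have heven : ∀ (a : A) (i : ℕ), ¬ Odd i → 2 ≤ (i : ℝ) * t (f a) → g a i = 0 := by
    intro a i hi h
    have h1 : g a i = kk a i := mix_high h
    rw [h1]
    exact if_neg hi
  have hinj : Function.Injective g := by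
    intro a b hab
    obtain ⟨i, hi, hi2⟩ := exists_odd (min (t (f a)) (t (f b))) (lt_min (hpos _) (hpos _))
    have h0 : (0:ℝ) ≤ i := by positivity
    have h1 : 2 ≤ (i : ℝ) * t (f a) :=
      hi2.trans (mul_le_mul_of_nonneg_left (min_le_left _ _) h0)
    have h2 : 2 ≤ (i : ℝ) * t (f b) :=
      hi2.trans (mul_le_mul_of_nonneg_left (min_le_right _ _) h0)
    apply hk.injective
    rw [← hodd a i hi h1, ← hodd b i hi h2, hab]
  have hseq : ∀ (a : ℕ → A) (y : E), Tendsto (fun n => g (a n)) atTop (𝓝 y) →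
      ∃ a₀, Tendsto a atTop (𝓝 a₀) := by
    intro a y hy
    obtain ⟨τ, hτ, hev⟩ := low ht hpos (x := fun n => f (a n)) (B := fun n => g (a n))
      (fun n i hi => mix_low hi) hy
    obtain ⟨i, hi, hi2⟩ := exists_odd τ hτ
    have h0 : (0:ℝ) ≤ i := by positivity
    have h1 : Tendsto (fun n => k (a n)) atTop (𝓝 (y i)) := by
      refine ((tendsto_pi_nhds.1 hy) i).congr' ?_
      filter_upwards [hev] with n hn
      exact hodd _ i hi (hi2.trans (mul_le_mul_of_nonneg_left hn h0))
    have h2 : y i ∈ range k := hk.isClosed_range.mem_of_tendsto h1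
      (Eventually.of_forall fun n => ⟨a n, rfl⟩)
    obtain ⟨a₀, ha₀⟩ := h2
    rw [← ha₀] at h1
    exact ⟨a₀, hk.isInducing.tendsto_nhds_iff.2 h1⟩
  have hclosed : IsClosedMap g := by
    intro C hC
    apply isClosed_of_closure_subset
    intro y hy
    obtain ⟨b, hb, hb2⟩ := mem_closure_iff_seq_limit.1 hy
    choose a ha using hb
    have h1 : Tendsto (fun n => g (a n)) atTop (𝓝 y) := hb2.congr fun n => ((ha n).2).symm
    obtain ⟨a₀, ha₀⟩ := hseq a y h1
    refine ⟨a₀, hC.mem_of_tendsto ha₀ (Eventually.of_forall fun n => (ha n).1), ?_⟩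
    exact tendsto_nhds_unique ((hg.tendsto a₀).comp ha₀) h1
  have hce : IsClosedEmbedding g := IsClosedEmbedding.of_continuous_injective_isClosedMap hg hinj
    hclosed
  refine ⟨g, hce, ⟨hce.isClosed_range, ?_⟩, fun a => hUt (f a) (g a) fun i hi => mix_low hi⟩
  intro V hV
  obtain ⟨t', ht', hpos', hVt⟩ := exists_t V hV
  let e1 : E := fun _ => ((1 : ℝ), (0 : L1))
  refine ⟨fun x => mix (t' x) x e1, continuous_mix ht' continuous_id continuous_const,
    fun x => hVt x _ fun i hi => mix_low hi, ?_⟩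
  rw [Set.disjoint_left]
  rintro y hy ⟨a, rfl⟩
  obtain ⟨b, hb, hb2⟩ := mem_closure_iff_seq_limit.1 hy
  choose x hx using hb
  have h1 : Tendsto (fun n => mix (t' (x n)) (x n) e1) atTop (𝓝 (g a)) :=
    hb2.congr fun n => (hx n).symm
  obtain ⟨τ, hτ, hev⟩ := low ht' hpos' (x := x) (B := fun n => mix (t' (x n)) (x n) e1)
    (fun n i hi => mix_low hi) h1
  obtain ⟨i, hi, hi2⟩ := exists_even (min τ (t (f a))) (lt_min hτ (hpos _))
  have h0 : (0:ℝ) ≤ i := by positivity
  have h3 : 2 ≤ (i : ℝ) * t (f a) :=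
    hi2.trans (mul_le_mul_of_nonneg_left (min_le_right _ _) h0)
  have h4 : Tendsto (fun _ : ℕ => e1 i) atTop (𝓝 (g a i)) := by
    refine ((tendsto_pi_nhds.1 h1) i).congr' ?_
    filter_upwards [hev] with n hn
    exact mix_high (hi2.trans (mul_le_mul_of_nonneg_left ((min_le_left _ _).trans hn) h0))
  have h5 : g a i = e1 i := tendsto_nhds_unique h4 tendsto_const_nhds
  rw [heven a i hi h3] at h5
  have h6 : (0 : ℝ) = 1 := congrArg Prod.fst h5
  exact zero_ne_one h6

end ZEmbAux

/-- PROOF. Transport to `M = E`. Let `sig_i t = max 0 (min 1 (i t - 1))` (zero iff `i t <= 1`, one if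
`i t >= 2`) and choose by `exists_below` a continuous `t : E -> (0,1]` such that `x` and every `y` with
`y_i = x_i` for all `i <= 1 / t x` lie in a common `U z`. Let `k : A -> F` be a closed embedding
(`exists_emb_F`) and `g(a)_i = (1 - sig_i) f(a)_i + sig_i k_i(a)`, `sig_i = sig_i (t (f a))`,
`k_i(a) = k(a)` for odd `i`, `0` for even `i`. Continuous, `U`-close to `f`. Suppose `g(a_k) -> y`. If
`t (f a_k) -> 0` along a subsequence then `f a_k -> y` along it (coordinates `i <= 1/t` agree), so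
`t (f a_k) -> t y > 0`, a contradiction; hence `t (f a_k) >= tau > 0` eventually, and for an odd
`i > 2/tau` the coordinates are `k(a_k)`, so `a_k` converges. Same for injectivity (large odd `i`).
SZ of the range `R` (closed): given a cover, `f'(x)_i = (1 - sig_i(t' x)) x_i + sig_i(t' x) e1` with
`e1 = (1,0)` and `t'` small. If `f'(x_k) -> g(a)`: again `t'(x_k)` is bounded below, so the limit has
coordinates `e1` for all large `i`, but `g(a)_i = 0` for large even `i`. -/
theorem zemb {A M : Type} [TopologicalSpace A] [PolishSpace A] [TopologicalSpace M] (hM : M ≃ₜ E)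
    (f : A → M) (hf : Continuous f) (U : M → Set M) (hU : Cov U) :
    ∃ g : A → M, IsClosedEmbedding g ∧ SZ (range g) ∧ Near U g f := by
  obtain ⟨g, hg1, hg2, hg3⟩ := ZEmbAux.main (fun a => hM (f a)) (hM.continuous.comp hf)
    (fun e => hM.symm ⁻¹' U (hM.symm e)) (hU.pull hM.symm.continuous)
  refine ⟨fun a => hM.symm (g a), hM.symm.isClosedEmbedding.comp hg1, ?_, ?_⟩
  · have h1 : range (fun a => hM.symm (g a)) = hM.symm '' range g := by
      rw [← Set.range_comp]; rfl
    rw [h1]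
    exact SZ.image hM.symm hg2
  · intro a
    obtain ⟨z, hz1, hz2⟩ := hg3 a
    refine ⟨hM.symm z, hz1, ?_⟩
    have h2 : hM.symm (hM (f a)) ∈ U (hM.symm z) := hz2
    rwa [hM.symm_apply_apply] at h2

end Pool.Agent.Tor
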