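import Pool.Agent.Lib.Tor.CylFacts
import Pool.Agent.Lib.Tor.Bing
import Pool.Agent.Lib.Tor.Unknot
import Pool.Agent.Lib.Tor.ZEmb
import Pool.Agent.Lib.Tor.Lambda
import Pool.Agent.Lib.Tor.Swindle

/-! MODULE Tor.CylE (2.5 h): the mapping cylinder of a resolution is homeomorphic to `E`. -/

open Set Topology Filter

namespace Pool.Agent.Tor

namespace CylEAux

/-- vertical rescaling of `[0, 2e]` -/
noncomputable def R (e K t : ℝ) : ℝ := t / (min (t / (2 * e)) 1 + K * (1 - min (t / (2 * e)) 1))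

lemma den_pos {K τ : ℝ} (hK : 0 < K) (h0 : 0 ≤ τ) (h1 : τ ≤ 1) : 0 < τ + K * (1 - τ) := by
  rcases eq_or_lt_of_le h1 with h | h
  · rw [h]; norm_num
  · have : 0 < K * (1 - τ) := mul_pos hK (by linarith)
    linarith

lemma tau_mem {e t : ℝ} (he : 0 < e) (ht : 0 ≤ t) : 0 ≤ min (t / (2 * e)) 1 ∧ min (t / (2 * e)) 1 ≤ 1 :=
  ⟨le_min (by positivity) zero_le_one, min_le_right _ _⟩

lemma R_nonneg {e K t : ℝ} (he : 0 < e) (hK : 0 < K) (ht : 0 ≤ t) : 0 ≤ R e K t := by
  unfold R
  exact div_nonneg ht (den_pos hK (tau_mem he ht).1 (tau_mem he ht).2).le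

lemma R_of_le {e K t : ℝ} (he : 0 < e) (h : 2 * e ≤ t) : R e K t = t := by
  unfold R
  have h1 : 1 ≤ t / (2 * e) := (one_le_div (by positivity)).2 h
  rw [min_eq_right h1]
  simp

lemma R_eq {e K t : ℝ} (he : 0 < e) (h : t ≤ 2 * e) :
    R e K t = 2 * e * ((t / (2 * e)) / (t / (2 * e) + K * (1 - t / (2 * e)))) := by
  unfold R
  have h1 : t / (2 * e) ≤ 1 := (div_le_one (by positivity)).2 h
  rw [min_eq_left h1]
  rw [mul_div_assoc', mul_div_cancel₀ _ (by positivity)]

lemma R_le_two {e K t : ℝ} (he : 0 < e) (hK : 0 < K) (ht : 0 ≤ t) (h : t ≤ 2 * e) : R e K t ≤ 2 * e := by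
  rw [R_eq he h]
  have h0 : 0 ≤ t / (2 * e) := by positivity
  have h1 : t / (2 * e) ≤ 1 := (div_le_one (by positivity)).2 h
  have hd := den_pos hK h0 h1
  have : (t / (2 * e)) / (t / (2 * e) + K * (1 - t / (2 * e))) ≤ 1 := by
    rw [div_le_one hd]
    have : 0 ≤ K * (1 - t / (2 * e)) := mul_nonneg hK.le (by linarith)
    linarith
  nlinarith

lemma R_le_one {e K t : ℝ} (he : 0 < e) (he2 : 2 * e ≤ 1) (hK : 0 < K) (ht : 0 ≤ t) (ht1 : t ≤ 1) :
    R e K t ≤ 1 := by
  rcases le_total t (2 * e) with h | h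
  · exact (R_le_two he hK ht h).trans he2
  · rw [R_of_le he h]; exact ht1

lemma R_le {e K t : ℝ} (he : 0 < e) (hK : 1 ≤ K) (ht : 0 ≤ t) : R e K t ≤ t := by
  unfold R
  have h := tau_mem he ht
  refine div_le_self ht ?_
  nlinarith [h.1, h.2]

lemma R_R {e K t : ℝ} (he : 0 < e) (hK : 0 < K) (ht : 0 ≤ t) : R e K⁻¹ (R e K t) = t := by
  rcases le_total t (2 * e) with h | h
  · have h0 : 0 ≤ t / (2 * e) := by positivity
    have h1 : t / (2 * e) ≤ 1 := (div_le_one (by positivity)).2 h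
    have hd := den_pos hK h0 h1
    rw [R_eq he (R_le_two he hK ht h), R_eq he h]
    set τ := t / (2 * e) with hτ
    have e1 : 2 * e * (τ / (τ + K * (1 - τ))) / (2 * e) = τ / (τ + K * (1 - τ)) := by
      rw [mul_div_cancel_left₀ _ (by positivity)]
    rw [e1]
    have e2 : τ / (τ + K * (1 - τ)) + K⁻¹ * (1 - τ / (τ + K * (1 - τ))) = 1 / (τ + K * (1 - τ)) := by
      field_simp
      ring
    rw [e2]
    have e3 : τ / (τ + K * (1 - τ)) / (1 / (τ + K * (1 - τ))) = τ := by
      field_simp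
    rw [e3, hτ]
    field_simp
  · rw [R_of_le he h, R_of_le he h]

lemma R_small {e η t : ℝ} (hη : 0 < η) (hη2 : η ≤ 2 * e) (ht : 0 ≤ t) (h : t ≤ e) :
    R e (2 * e / η) t ≤ η := by
  have he : 0 < e := by linarith
  rw [R_eq he (by linarith)]
  have h0 : 0 ≤ t / (2 * e) := by positivity
  have h1 : t / (2 * e) ≤ 1 / 2 := by
    rw [div_le_div_iff₀ (by positivity) (by norm_num)]; linarith
  set τ := t / (2 * e) with hτ
  have hK : 0 < 2 * e / η := by positivity
  have hd := den_pos hK h0 (by linarith : τ ≤ 1)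
  rw [mul_div_assoc', div_le_iff₀ hd]
  have e1 : η * (τ + 2 * e / η * (1 - τ)) = η * τ + 2 * e * (1 - τ) := by
    field_simp
  rw [e1]
  nlinarith [mul_nonneg hη.le h0]

lemma R_continuous {Y : Type} [TopologicalSpace Y] {e K t : Y → ℝ} (he : Continuous e)
    (hK : Continuous K) (ht : Continuous t) (he0 : ∀ y, 0 < e y) (hK0 : ∀ y, 0 < K y)
    (ht0 : ∀ y, 0 ≤ t y) : Continuous (fun y => R (e y) (K y) (t y)) := by
  unfold R
  have h1 : Continuous (fun y => min (t y / (2 * e y)) 1) := by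
    refine Continuous.min (ht.div (by fun_prop) fun y => ?_) continuous_const
    have := he0 y
    positivity
  refine ht.div (h1.add (hK.mul (continuous_const.sub h1))) fun y => ?_
  exact (den_pos (hK0 y) (tau_mem (he0 y) (ht0 y)).1 (tau_mem (he0 y) (ht0 y)).2).ne'

/-- the vertical homeomorphism -/
lemma exists_rv (e η : E → ℝ) (he : Continuous e) (hη : Continuous η) (he0 : ∀ n, 0 < e n)
    (he1 : ∀ n, 2 * e n ≤ 1) (hη0 : ∀ n, 0 < η n) (hη1 : ∀ n, η n ≤ 2 * e n) :
    ∃ Rv : (E × I) ≃ₜ (E × I), (∀ p, (Rv p).1 = p.1) ∧ (∀ p, ((Rv p).2 : ℝ) ≤ p.2) ∧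
      (∀ p, 2 * e p.1 ≤ p.2 → Rv p = p) ∧ ∀ p, (p.2 : ℝ) ≤ e p.1 → ((Rv p).2 : ℝ) ≤ η p.1 := by
  have hK0 : ∀ n, 0 < 2 * e n / η n := fun n => by
    have := he0 n; have := hη0 n; positivity
  have hKc : Continuous (fun n => 2 * e n / η n) :=
    (continuous_const.mul he).div hη fun n => (hη0 n).ne'
  have hK1 : ∀ n, 1 ≤ 2 * e n / η n := fun n => (one_le_div (hη0 n)).2 (hη1 n)
  refine ⟨{
    toFun := fun p => (p.1, ⟨R (e p.1) (2 * e p.1 / η p.1) p.2,
      R_nonneg (he0 _) (hK0 _) p.2.2.1, R_le_one (he0 _) (he1 _) (hK0 _) p.2.2.1 p.2.2.2⟩)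
    invFun := fun p => (p.1, ⟨R (e p.1) (2 * e p.1 / η p.1)⁻¹ p.2,
      R_nonneg (he0 _) (inv_pos.2 (hK0 _)) p.2.2.1,
      R_le_one (he0 _) (he1 _) (inv_pos.2 (hK0 _)) p.2.2.1 p.2.2.2⟩)
    left_inv := ?_
    right_inv := ?_
    continuous_toFun := ?_
    continuous_invFun := ?_ }, ?_, ?_, ?_, ?_⟩
  · intro p
    refine Prod.ext rfl (Subtype.ext ?_)
    exact R_R (he0 _) (hK0 _) p.2.2.1
  · intro p
    refine Prod.ext rfl (Subtype.ext ?_)
    have := R_R (K := (2 * e p.1 / η p.1)⁻¹) (he0 p.1) (inv_pos.2 (hK0 p.1)) p.2.2.1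
    rw [inv_inv] at this
    exact this
  · refine continuous_fst.prodMk (Continuous.subtype_mk ?_ _)
    exact R_continuous (he.comp continuous_fst) (hKc.comp continuous_fst)
      (continuous_subtype_val.comp continuous_snd) (fun p => he0 _) (fun p => hK0 _) (fun p => p.2.2.1)
  · refine continuous_fst.prodMk (Continuous.subtype_mk ?_ _)
    exact R_continuous (he.comp continuous_fst)
      (K := fun p : E × I => (2 * e p.1 / η p.1)⁻¹)
      ((hKc.comp continuous_fst).inv₀ fun p => (hK0 _).ne')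
      (continuous_subtype_val.comp continuous_snd) (fun p => he0 _) (fun p => inv_pos.2 (hK0 _)) (fun p => p.2.2.1)
  · intro p; rfl
  · intro p
    exact R_le (he0 _) (hK1 _) p.2.2.1
  · intro p hp
    refine Prod.ext rfl (Subtype.ext ?_)
    exact R_of_le (he0 _) hp
  · intro p hp
    exact R_small (hη0 _) (hη1 _) p.2.2.1 hp

end CylEAux

open CylEAux

/-- PROOF: `J : E x I -> M` is shrinkable. Given a cover `U` of `M` and a cover `V` of `E x I`.
(1) `cyl_cover` for `U`: `eps : X -> (0,1/4]`, `O` cover of `X`: points with `c m in O x` and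
`lev m <= 4 eps (c m)` lie in one member of `U`. So vertical moves below level `2 eps` are `U`-small.
(2) `b0 (n) = (s (q n), 0)`, homotopy `G0 (n,t) = (D (n,t), 0)` from `(n,0)` to `b0 n` in `E x I`;
`J (G0 (n,t)) = i (q n)` is constant. `zemb` (with `E x I = E`, `interval'`) gives a closed embedding
`b' : E -> E x I` with SZ range, as close to `b0` as we like; `exists_lambda`, `lambda_small` for
`E x I` connect `b0` to `b'` by a small homotopy. So there is a homotopy `G` from the inclusion of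
`A = {p : E x I | p.2 = 0}` (`sz_bottom`) to `b'` with `J`-small tracks.
(3) `unknot` with `M = E x I`, `Z = M`, `C = J`: a homeomorphism `u` of `E x I` with
`u (n,0) = b' n`, `J u` near `J`. (4) Let `V1` be a double star refinement of `V`; `b'` is `V1`-near `b0`.
By continuity there is `eta : E -> (0,1)` continuous, `eta n < eps (q n)`, with `u (n,t)` `V1`-close to
`u (n,0)` for `t <= eta n` (`exists_below`). For `x in X` choose an open `O' x` containing `x` on which
`(s x', 0)` is `V1`-close to `(s x, 0)`; then `q n in O' x`, `t <= eta n` imply `u (n,t) in V (z)` for a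
`z` depending on `x` only (choose `z` from the star property at the member containing `(s x,0)`).
(5) Let `Rv` be the homeomorphism `(n,t) -> (n, r n t)` of `E x I`, `r n` piecewise linear:
`[0,e] -> [0,eta]`, `[e,2e] -> [eta,2e]`, identity on `[2e,1]`, `e = eps (q n)`. `J Rv` is near `J` by (1).
`g = u o Rv`, `k = g^-1`. `J k` is near `J` (`J m = J (u (Rv m')) ~ J (Rv m') ~ J m'`, `m' = k m`).
(6) For `y = i x` take the neighbourhood `{y' | c y' in O' x, lev y' < eps (c y')}`; its preimage under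
`J k` is `g` of `{(n,t) | q n in O' x, t < eps (q n)}`, inside `u {t <= eta n}`, inside `V z`. For
`y = J (n,t)`, `t > 0`, use `cyl_open` and continuity of `k`. Then `bing` (`E x I` and `M` Polish, `J`
onto by `cyl_surj`, `q` onto by `q_s`) gives `E x I = M`, and `E x I = E`. -/
theorem cyl_E {X M : Type} [TopologicalSpace X] [PolishSpace X] [TopologicalSpace M]
    [PolishSpace M] {q : E → X} {s : X → E} {D : E × I → E} (hr : IsResol q s D) {c : M → X}
    {lev : M → I} {i : X → M} {J : E × I → M} (hc : IsCyl q c lev i J) : Nonempty (M ≃ₜ E) := by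
  obtain ⟨hI⟩ := interval'
  have hsurj : Function.Surjective J := cyl_surj hc fun x => ⟨s x, hr.q_s x⟩
  have shr : Shrinkable J := by
    intro U hU V hV
    obtain ⟨U', hU', hUs⟩ := exists_star hU
    -- (1)
    obtain ⟨ε, O, hε, hε0, hO, hεO⟩ := cyl_cover hc U' hU'
    -- covers of E × I
    obtain ⟨V1, hV1, hVs1⟩ := exists_star hV
    obtain ⟨V2, hV2, hVs2⟩ := exists_star hV1
    -- (3) unknotting cover
    obtain ⟨Vu, hVu, hunk⟩ := unknot hI J hc.hJ U' hU'
    have hAE : AE (E × I) := ae_E.homeo hI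
    obtain ⟨Λ, hΛ, hΛ0, hΛ1, hΛd⟩ := exists_lambda hAE
    obtain ⟨VT, hVT, hVTs⟩ := lambda_small hΛ hΛd _ (hVu.pull hc.hJ)
    set b0 : E → E × I := fun n => (s (q n), 0) with hb0
    have hb0c : Continuous b0 := by
      have h1 := hr.hs
      have h2 := hr.hq
      rw [hb0]
      exact (h1.comp h2).prodMk continuous_const
    obtain ⟨b', hb', hb'SZ, hb'n⟩ := zemb hI b0 hb0c (fun z => VT z ∩ V2 z) (hVT.inter hV2)
    -- the homotopy
    let A : Set (E × I) := {p | p.2 = 0}
    let pr : ℝ → I := Set.projIcc 0 1 zero_le_one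
    have hpr : Continuous pr := continuous_projIcc
    let G : A × I → E × I := fun x =>
      Λ ((D (x.1.1.1, pr (2 * x.2)), 0), b' x.1.1.1, pr (2 * x.2 - 1))
    have hG : Continuous G := by
      have h1 := hr.hD
      have h2 := hb'.continuous
      refine hΛ.comp ?_
      refine Continuous.prodMk (Continuous.prodMk (h1.comp ?_) continuous_const) (Continuous.prodMk (h2.comp ?_) (hpr.comp ?_))
      · refine Continuous.prodMk (by fun_prop) (hpr.comp (by fun_prop))
      · fun_prop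
      · fun_prop
    have hpr0 : ∀ t : ℝ, t ≤ 0 → pr t = 0 := fun t ht => Set.projIcc_of_le_left _ ht
    have hpr1 : ∀ t : ℝ, 1 ≤ t → pr t = 1 := fun t ht => Set.projIcc_of_right_le _ ht
    have hG0 : ∀ a : A, G (a, 0) = a := by
      intro a
      have h0 : ((0:I) : ℝ) = 0 := rfl
      show Λ ((D (a.1.1, pr (2 * ((0:I) : ℝ))), 0), b' a.1.1, pr (2 * ((0:I):ℝ) - 1)) = a.1
      rw [h0, hpr0 _ (by norm_num), hpr0 _ (by norm_num), hΛ0, hr.D_zero]
      exact Prod.ext rfl a.2.symm
    have hG1 : ∀ a : A, G (a, 1) = b' a.1.1 := by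
      intro a
      have h0 : ((1:I) : ℝ) = 1 := rfl
      show Λ ((D (a.1.1, pr (2 * ((1:I) : ℝ))), 0), b' a.1.1, pr (2 * ((1:I):ℝ) - 1)) = b' a.1.1
      rw [h0, hpr1 (2 * 1 - 1) (by norm_num), hΛ1]
    let φ : A ≃ₜ E := {
      toFun := fun a => a.1.1
      invFun := fun n => ⟨(n, 0), rfl⟩
      left_inv := fun a => Subtype.ext (Prod.ext rfl a.2.symm)
      right_inv := fun n => rfl
      continuous_toFun := by fun_prop
      continuous_invFun := by fun_prop }
    have hGe : (fun a : A => G (a, 1)) = b' ∘ φ := funext fun a => hG1 a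
    obtain ⟨u, hu1, hu2⟩ := hunk A sz_bottom G hG hG0
      (by rw [hGe]; exact hb'.comp φ.isClosedEmbedding)
      (by rw [hGe, φ.surjective.range_comp]; exact hb'SZ)
      (by
        intro a
        obtain ⟨z, hz1, hz2⟩ := hb'n a.1.1
        refine ⟨J z, fun t => ?_⟩
        have hs0 := hVTs z (b0 a.1.1) hz2.1 (b' a.1.1) hz1.1
        rcases le_total (t : ℝ) (1 / 2) with h | h
        · have e1 : G (a, t) = (D (a.1.1, pr (2 * t)), 0) := by
            show Λ _ = _
            rw [show ((a, t).2 : I) = t from rfl, hpr0 (2 * t - 1) (by linarith), hΛ0]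
          rw [e1, hc.J_zero, hr.q_D]
          have := hs0 0
          rw [hΛ0] at this
          have h3 : J (b0 a.1.1) ∈ Vu (J z) := this
          rw [hb0] at h3
          simp only at h3
          rw [hc.J_zero, hr.q_s] at h3
          exact h3
        · have e1 : G (a, t) = Λ (b0 a.1.1, b' a.1.1, pr (2 * t - 1)) := by
            show Λ ((D (a.1.1, pr (2 * (t:ℝ))), 0), b' a.1.1, pr (2 * (t:ℝ) - 1)) = _
            rw [hpr1 (2 * t) (by linarith), hr.D_one]
          rw [e1]
          exact hs0 _)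
    have hun : ∀ n, u (n, 0) = b' n := by
      intro n
      have := hu1 ⟨(n, 0), rfl⟩
      rw [hG1] at this
      exact this
    -- (4)
    obtain ⟨η, hη, hη0, hηP⟩ := exists_below (Z := E) (fun n r => r < ε (q n) ∧ ∀ t : I, (t : ℝ) ≤ r →
      ∃ z, u (n, 0) ∈ V2 z ∧ u (n, t) ∈ V2 z)
      (by
        intro n r r' h0 hle ⟨h1, h2⟩
        exact ⟨lt_of_le_of_lt hle h1, fun t ht => h2 t (ht.trans hle)⟩)
      (by
        intro n
        have hεq : Continuous fun n => ε (q n) := hε.comp hr.hq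
        have hpos : 0 < ε (q n) := (hε0 _).1
        have e1 : ∀ᶠ n' in 𝓝 n, ε (q n) / 2 < ε (q n') :=
          (hεq.tendsto n).eventually (lt_mem_nhds (by linarith))
        have e2 : ∀ᶠ p : E × I in 𝓝 (n, (0 : I)), u p ∈ V2 (u (n, 0)) :=
          (u.continuous.tendsto (n, 0)).eventually ((hV2 _).1.mem_nhds (hV2 _).2)
        rw [nhds_prod_eq, Filter.eventually_prod_iff] at e2
        obtain ⟨pa, ha, pb, hb, hab⟩ := e2
        rw [Metric.eventually_nhds_iff] at hb
        obtain ⟨δ, hδ, hb⟩ := hb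
        refine ⟨min (ε (q n) / 2) (δ / 2), lt_min (by linarith) (by linarith), ?_⟩
        filter_upwards [e1, ha] with n' h1 h2
        refine ⟨lt_of_le_of_lt (min_le_left _ _) h1, fun t ht => ⟨u (n, 0), hab h2 (hb ?_), hab h2 (hb ?_)⟩⟩
        · simpa using hδ
        · rw [Subtype.dist_eq, Real.dist_eq]
          have h3 : (t : ℝ) ≤ δ / 2 := ht.trans (min_le_right _ _)
          have h4 : (0:ℝ) ≤ t := t.2.1
          have h5 : ((0:I) : ℝ) = 0 := rfl
          rw [h5, sub_zero, abs_of_nonneg h4]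
          linarith)
    let O' : X → Set X := fun x => {x' | (s x', (0:I)) ∈ V2 (s x, 0)}
    have hO' : ∀ x, IsOpen (O' x) ∧ x ∈ O' x := by
      intro x
      refine ⟨?_, (hV2 _).2⟩
      have : Continuous fun x' => ((s x', (0:I)) : E × I) := hr.hs.prodMk continuous_const
      exact (hV2 _).1.preimage this
    have hsm : ∀ x : X, ∃ z, ∀ n (t : I), q n ∈ O' x → (t : ℝ) ≤ η n → u (n, t) ∈ V z := by
      intro x
      obtain ⟨z, hz⟩ := hVs1 (s x, 0)
      refine ⟨z, fun n t hn ht => ?_⟩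
      obtain ⟨z1, hz1, hz1'⟩ := hb'n n
      obtain ⟨z2, hz2, hz2'⟩ := (hηP n).2 t ht
      rw [hun] at hz2
      obtain ⟨z1', h1'⟩ := hVs2 z1
      have a1 : V2 (s x, 0) ⊆ V1 z1' := h1' _ ⟨b0 n, hz1'.2, hn⟩
      have a2 : V2 z2 ⊆ V1 z1' := h1' _ ⟨b' n, hz1.2, hz2⟩
      exact hz z1' ⟨(s x, 0), (hV1 _).2, a1 (hV2 _).2⟩ (a2 hz2')
    -- (5)
    obtain ⟨Rv, hR1, hR2, hR3, hR4⟩ := exists_rv (fun n => ε (q n)) η (hε.comp hr.hq) hη
      (fun n => (hε0 _).1) (fun n => by linarith [(hε0 (q n)).2]) (fun n => (hη0 n).1)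
      (fun n => by linarith [(hηP n).1, (hε0 (q n)).1])
    have nR : Near U' (fun p => J (Rv p)) J := by
      intro p
      rcases le_total (2 * ε (q p.1)) (p.2 : ℝ) with h | h
      · have := hR3 p h
        exact ⟨J p, by rw [show (fun p => J (Rv p)) p = J (Rv p) from rfl, this]; exact (hU' _).2, (hU' _).2⟩
      · obtain ⟨x', hx'⟩ := hεO (q p.1)
        have cJ : ∀ p : E × I, c (J p) = q p.1 := fun p => hc.c_J p.1 p.2
        have lJ : ∀ p : E × I, lev (J p) = p.2 := fun p => hc.lev_J p.1 p.2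
        have hp := (hε0 (q p.1)).1
        refine ⟨i x', hx' _ ?_ ?_, hx' _ ?_ ?_⟩
        · rw [cJ, hR1]; exact (hO _).2
        · rw [lJ, cJ, hR1]
          have := hR2 p
          linarith
        · rw [cJ]; exact (hO _).2
        · rw [lJ, cJ]; linarith
    have nu : Near U' (fun p => J (u (Rv p))) (fun p => J (Rv p)) := by
      intro p
      obtain ⟨z, h1, h2⟩ := hu2 (Rv p)
      exact ⟨z, h2, h1⟩
    have nn := near_trans hUs nu nR
    let g : (E × I) ≃ₜ (E × I) := Rv.trans u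
    have hg : ∀ p, g p = u (Rv p) := fun p => rfl
    refine ⟨g.symm, ?_, ?_⟩
    · intro m
      obtain ⟨z, h1, h2⟩ := nn (g.symm m)
      refine ⟨z, h2, ?_⟩
      have : u (Rv (g.symm m)) = m := g.apply_symm_apply m
      simp only [this] at h1
      exact h1
    · intro y
      by_cases hy : lev y = 0
      · have hyi := hc.eq_i y hy
        obtain ⟨z, hz⟩ := hsm (c y)
        refine ⟨{y' | c y' ∈ O' (c y) ∧ (lev y' : ℝ) < ε (c y')}, ?_, z, ?_⟩
        · refine IsOpen.mem_nhds (IsOpen.inter ((hO' _).1.preimage hc.hc) ?_) ⟨(hO' _).2, ?_⟩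
          · exact isOpen_lt (continuous_subtype_val.comp hc.hlev) (hε.comp hc.hc)
          · rw [hy]; exact (hε0 _).1
        · intro m hm
          obtain ⟨hm1, hm2⟩ := hm
          set p := g.symm m with hp
          have hmp : m = u (Rv p) := (g.apply_symm_apply m).symm
          have cJ : c (J p) = q p.1 := hc.c_J p.1 p.2
          have lJ : lev (J p) = p.2 := hc.lev_J p.1 p.2
          have hm1 : q p.1 ∈ O' (c y) := by rw [← cJ]; exact hm1
          have hm2 : (p.2 : ℝ) < ε (q p.1) := by rw [← cJ, ← lJ]; exact hm2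
          have h4 := hR4 p hm2.le
          have h5 := hz p.1 (Rv p).2 hm1 h4
          have h6 : (p.1, (Rv p).2) = Rv p := Prod.ext (hR1 p).symm rfl
          rw [h6, ← hmp] at h5
          exact h5
      · obtain ⟨⟨n, t⟩, rfl⟩ := hsurj y
        have ht : 0 < t := by
          rw [hc.lev_J] at hy
          exact Subtype.coe_lt_coe.1 (lt_of_le_of_ne t.2.1 (fun h => hy (Subtype.ext h.symm)))
        have hW : (g ⁻¹' V (g (n, t))) ∈ 𝓝 (n, t) :=
          g.continuous.continuousAt.preimage_mem_nhds ((hV _).1.mem_nhds (hV _).2)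
        obtain ⟨V', hV', hV'1, -⟩ := cyl_open hc n t ht _ hW
        refine ⟨V', hV', g (n, t), fun m hm => ?_⟩
        have h1 : g.symm m ∈ J ⁻¹' V' := hm
        have h2 := hV'1 h1
        have h3 : g (g.symm m) ∈ V (g (n, t)) := h2
        rwa [g.apply_symm_apply] at h3
  obtain ⟨h, -⟩ := bing J hc.hJ hsurj.denseRange shr (fun _ => univ) fun z => ⟨isOpen_univ, mem_univ _⟩
  exact ⟨h.symm.trans hI⟩

end Pool.Agent.Tor
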