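import Pool.Agent.Lib.Tor.CylFacts

/-! MODULE Tor.CylVert (1.3 h): vertical homeomorphisms of a mapping cylinder, the top level. -/

open Set Topology Filter

namespace Pool.Agent.Tor

variable {X M : Type} [TopologicalSpace X] [TopologicalSpace M] {q : E → X} {c : M → X}
  {lev : M → I} {i : X → M} {J : E × I → M}

namespace CylVertAux

lemma r_zero {r : E × I → I} 
    (hu : ∀ (x : X) (ε : ℝ), 0 < ε → ∃ O ∈ 𝓝 x, ∃ δ : ℝ, 0 < δ ∧ ∀ n (t : I), q n ∈ O →
      (t : ℝ) < δ → (r (n, t) : ℝ) < ε) (n : E) : r (n, 0) = 0 := by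
  have h1 : (r (n, 0) : ℝ) ≤ 0 := by
    apply le_of_forall_pos_lt_add
    intro ε hε
    obtain ⟨O, hO, δ, hδ, h⟩ := hu (q n) ε hε
    rw [zero_add]
    exact h n 0 (mem_of_mem_nhds hO) hδ
  exact Subtype.ext (le_antisymm h1 (r (n, 0)).2.1)

lemma vert_map (hc : IsCyl q c lev i J) (r : E × I → I) (hr : Continuous r)
    (hu : ∀ (x : X) (ε : ℝ), 0 < ε → ∃ O ∈ 𝓝 x, ∃ δ : ℝ, 0 < δ ∧ ∀ n (t : I), q n ∈ O →
      (t : ℝ) < δ → (r (n, t) : ℝ) < ε) :
    ∃ R : M → M, Continuous R ∧ (∀ n t, R (J (n, t)) = J (n, r (n, t))) ∧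
      (∀ m, c (R m) = c m) ∧ ∀ x, R (i x) = i x := by
  classical
  obtain ⟨pn, hpc, hp1, hp2⟩ := hc.pn
  let R : M → M := fun m => if 0 < lev m then J (pn m, r (pn m, lev m)) else m
  have R_pos : ∀ m, 0 < lev m → R m = J (pn m, r (pn m, lev m)) := fun m h => if_pos h
  have R_zero : ∀ m, ¬ 0 < lev m → R m = m := fun m h => if_neg h
  have hcR : ∀ m, c (R m) = c m := by
    intro m
    by_cases h : 0 < lev m
    · rw [R_pos m h, hc.c_J]
      conv_rhs => rw [← hp2 m h]
      rw [hc.c_J]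
    · rw [R_zero m h]
  refine ⟨R, ?_, ?_, hcR, ?_⟩
  · rw [continuous_iff_continuousAt]
    intro m
    by_cases h : 0 < lev m
    · have hop : IsOpen {m : M | 0 < lev m} := isOpen_lt continuous_const hc.hlev
      have hpm : ContinuousAt pn m := hpc.continuousAt (hop.mem_nhds h)
      have h1 : ContinuousAt (fun m => J (pn m, r (pn m, lev m))) m := by
        apply hc.hJ.continuousAt.comp
        exact hpm.prodMk (hr.continuousAt.comp (hpm.prodMk hc.hlev.continuousAt))
      refine h1.congr ?_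
      filter_upwards [hop.mem_nhds h] with m' hm'
      exact (R_pos m' hm').symm
    · have h0 : lev m = 0 := le_antisymm (not_lt.1 h) (lev m).2.1
      have hm : m = i (c m) := hc.eq_i m h0
      rw [ContinuousAt, R_zero m h]
      intro V hV
      rw [hm] at hV
      obtain ⟨O, hO, ε, hε, hV2⟩ := hc.nhds_i (c m) V hV
      obtain ⟨O', hO', δ, hδ, hr2⟩ := hu (c m) ε hε
      have e1 : ∀ᶠ m' in 𝓝 m, c m' ∈ O := hc.hc.continuousAt.eventually_mem hO
      have e2 : ∀ᶠ m' in 𝓝 m, c m' ∈ O' := hc.hc.continuousAt.eventually_mem hO'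
      have e3 : ∀ᶠ m' in 𝓝 m, (lev m' : ℝ) < min δ ε := by
        have c1 : Continuous (fun m => (lev m : ℝ)) := continuous_subtype_val.comp hc.hlev
        refine c1.continuousAt.eventually_lt_const ?_
        change (lev m : ℝ) < min δ ε
        rw [h0]
        exact lt_min hδ hε
      rw [mem_map]
      filter_upwards [e1, e2, e3] with m' h1 h2 h3
      refine hV2 (R m') ?_ ?_
      · rw [hcR]
        exact h1
      · by_cases h' : 0 < lev m'
        · rw [R_pos m' h', hc.lev_J]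
          refine hr2 _ _ ?_ (h3.trans_le (min_le_left _ _))
          have : q (pn m') = c m' := by
            conv_rhs => rw [← hp2 m' h']
            rw [hc.c_J]
          rw [this]
          exact h2
        · rw [R_zero m' h']
          exact h3.trans_le (min_le_right _ _)
  · intro n t
    by_cases h : 0 < t
    · have h1 : 0 < lev (J (n, t)) := by rw [hc.lev_J]; exact h
      rw [R_pos _ h1, hp1 n t h, hc.lev_J]
    · have ht : t = 0 := le_antisymm (not_lt.1 h) t.2.1
      have h1 : ¬ 0 < lev (J (n, t)) := by rw [hc.lev_J]; exact h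
      rw [R_zero _ h1, ht, r_zero hu]
  · intro x
    have h1 : ¬ 0 < lev (i x) := by rw [hc.lev_i]; exact lt_irrefl _
    exact R_zero _ h1

lemma two_inv (hc : IsCyl q c lev i J) {R R' : M → M} {r r' : E × I → I}
    (h1 : ∀ n t, R (J (n, t)) = J (n, r (n, t))) (h2 : ∀ n t, R' (J (n, t)) = J (n, r' (n, t)))
    (h3 : ∀ x, R (i x) = i x) (h4 : ∀ x, R' (i x) = i x) (h5 : ∀ n t, r' (n, r (n, t)) = t)
    (m : M) : R' (R m) = m := by
  obtain ⟨pn, hpc, hp1, hp2⟩ := hc.pn
  by_cases h : 0 < lev m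
  · conv_lhs => rw [← hp2 m h]
    rw [h1, h2, h5, hp2 m h]
  · have h0 : lev m = 0 := le_antisymm (not_lt.1 h) (lev m).2.1
    have hm : m = i (c m) := hc.eq_i m h0
    rw [hm, h3, h4]

end CylVertAux

open CylVertAux

/-- vertical homeomorphisms. PROOF: `R (J (n,t)) = J (n, r (n,t))` and `R (i x) = i x`; off the zero
level `R m = J (pn m, r (pn m, lev m))`; `r (n,0) = 0` by `hu`; continuity at the zero level by
`nhds_i` and `hu`. -/
theorem vert_homeo (hc : IsCyl q c lev i J) (r r' : E × I → I) (hr : Continuous r)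
    (hr' : Continuous r') (h1 : ∀ n t, r (n, r' (n, t)) = t) (h2 : ∀ n t, r' (n, r (n, t)) = t)
    (hu : ∀ (x : X) (ε : ℝ), 0 < ε → ∃ O ∈ 𝓝 x, ∃ δ : ℝ, 0 < δ ∧ ∀ n (t : I), q n ∈ O →
      (t : ℝ) < δ → (r (n, t) : ℝ) < ε ∧ (r' (n, t) : ℝ) < ε) :
    ∃ R : M ≃ₜ M, (∀ n t, R (J (n, t)) = J (n, r (n, t))) ∧
      (∀ n t, R.symm (J (n, t)) = J (n, r' (n, t))) ∧ (∀ m, c (R m) = c m) ∧
      (∀ m, c (R.symm m) = c m) ∧ (∀ x, R (i x) = i x) ∧ ∀ x, R.symm (i x) = i x := by
  obtain ⟨R, Rc, a1, a2, a3⟩ := vert_map hc r hr (fun x ε hε => by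
    obtain ⟨O, hO, δ, hδ, h⟩ := hu x ε hε
    exact ⟨O, hO, δ, hδ, fun n t hn ht => (h n t hn ht).1⟩)
  obtain ⟨R', Rc', b1, b2, b3⟩ := vert_map hc r' hr' (fun x ε hε => by
    obtain ⟨O, hO, δ, hδ, h⟩ := hu x ε hε
    exact ⟨O, hO, δ, hδ, fun n t hn ht => (h n t hn ht).2⟩)
  exact ⟨⟨⟨R, R', two_inv hc a1 b1 a3 b3 h2, two_inv hc b1 a1 b3 a3 h1⟩, Rc, Rc'⟩,
    a1, b1, a2, b2, a3, b3⟩

/-- the top level is a strong Z-set. PROOF: given a cover of `M` let `e : M -> (0,1/2]` be continuous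
with `ver (m,u)` close to `m` for `u <= e m` (`exists_below`), `f m = ver (m, e m)`. If `f (m_k) -> m'`
with `lev m' = 1`, then `(1 - e(m_k)) lev (m_k) -> 1`, so `e(m_k) -> 0` and `lev m_k -> 1`, while
`pn (m_k) = pn (f m_k) -> pn m'`; hence `m_k -> m'` and `e (m_k) -> e m' > 0`, a contradiction. -/
theorem sz_top [TopologicalSpace.MetrizableSpace M] (hc : IsCyl q c lev i J) :
    SZ {m : M | lev m = 1} := by
  refine ⟨isClosed_eq hc.hlev continuous_const, ?_⟩
  intro U hU
  obtain ⟨ver, hvc, hv0, _, _, hvl, hvJ, _⟩ := exists_ver hc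
  obtain ⟨pn, hpc, hp1, hp2⟩ := hc.pn
  obtain ⟨ε, hεc, hεp, hε⟩ := exists_below (Z := M)
    (fun m r => ∀ u : I, (u : ℝ) ≤ r → ∃ z, ver (m, u) ∈ U z ∧ m ∈ U z)
    (fun m r s _ hrs hs u hu => hs u (hu.trans hrs)) (by
      intro m
      have h1 : ver ⁻¹' (U m) ∈ 𝓝 (m, (0 : I)) := by
        apply hvc.continuousAt.preimage_mem_nhds
        rw [hv0]
        exact (hU m).1.mem_nhds (hU m).2
      rw [nhds_prod_eq, mem_prod_iff] at h1
      obtain ⟨A, hA, B, hB, hAB⟩ := h1
      obtain ⟨δ, hδ, hδB⟩ := Metric.mem_nhds_iff.1 hB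
      refine ⟨δ / 2, by linarith, ?_⟩
      filter_upwards [hA, (hU m).1.mem_nhds (hU m).2] with m' h2 h3
      intro u hu
      refine ⟨m, hAB ⟨h2, hδB ?_⟩, h3⟩
      rw [Metric.mem_ball]
      change |(u : ℝ) - 0| < δ
      rw [sub_zero, abs_of_nonneg u.2.1]
      linarith)
  have hp3 : ∀ m, 0 < ε m / 2 ∧ ε m / 2 ≤ 1 / 2 := fun m => by
    have := hεp m
    constructor <;> linarith [this.1, this.2]
  let e : M → I := fun m => ⟨ε m / 2, (hp3 m).1.le, (hp3 m).2.trans (by norm_num)⟩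
  have hec : Continuous e := (hεc.div_const 2).subtype_mk _
  let f : M → M := fun m => ver (m, e m)
  have hfc : Continuous f := hvc.comp (continuous_id.prodMk hec)
  have hlf : ∀ m, (lev (f m) : ℝ) = (1 - ε m / 2) * lev m := fun m => hvl m (e m)
  have hpf : ∀ m, 0 < lev m → pn (f m) = pn m := by
    intro m hm
    have hm' : (0 : ℝ) < lev m := hm
    have h1 : (lev (f m) : ℝ) = (1 - e m) * lev m := hlf m
    have h2 := hvJ (pn m) (lev m) (e m) (lev (f m)) h1
    rw [hp2 m hm] at h2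
    change pn (ver (m, e m)) = pn m
    rw [h2]
    apply hp1
    change (0 : ℝ) < (lev (f m) : ℝ)
    rw [hlf]
    have := hp3 m
    apply mul_pos _ hm'
    linarith [this.2]
  refine ⟨f, hfc, ?_, ?_⟩
  · intro m
    exact hε m (e m) (by change ε m / 2 ≤ ε m; linarith [(hεp m).1])
  · rw [Set.disjoint_left]
    intro m' hm' hlev
    have hlev' : lev m' = 1 := hlev
    obtain ⟨g, hg, hgt⟩ := mem_closure_iff_seq_limit.1 hm'
    choose mk hmk using hg
    have h1 : Tendsto (fun k => (lev (g k) : ℝ)) atTop (𝓝 1) := by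
      have c1 : Continuous (fun m => (lev m : ℝ)) := continuous_subtype_val.comp hc.hlev
      have := (c1.tendsto m').comp hgt
      rw [hlev'] at this
      exact this
    have h2 : ∀ k, (lev (g k) : ℝ) = (1 - ε (mk k) / 2) * lev (mk k) := by
      intro k
      rw [← hmk k]
      exact hlf _
    have h3 : Tendsto (fun k => ε (mk k) / 2) atTop (𝓝 0) := by
      have h4 : Tendsto (fun k => 1 - (lev (g k) : ℝ)) atTop (𝓝 0) := by
        have := h1.const_sub 1
        simpa using this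
      refine squeeze_zero (fun k => (hp3 _).1.le) (fun k => ?_) h4
      rw [h2]
      have a1 := hp3 (mk k)
      have a2 := (lev (mk k)).2.2
      nlinarith
    have h5 : Tendsto (fun k => (lev (mk k) : ℝ)) atTop (𝓝 1) := by
      refine tendsto_of_tendsto_of_tendsto_of_le_of_le h1 tendsto_const_nhds ?_
        (fun k => (lev (mk k)).2.2)
      intro k
      simp only [h2]
      have a1 := hp3 (mk k)
      have a2 := (lev (mk k)).2.1
      nlinarith
    have h6 : Tendsto (fun k => lev (mk k)) atTop (𝓝 (lev m')) := by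
      rw [hlev', tendsto_subtype_rng]
      exact h5
    have h7 : ∀ᶠ k in atTop, 0 < lev (mk k) := by
      filter_upwards [h5.eventually (lt_mem_nhds (zero_lt_one))] with k hk
      exact hk
    have hm0 : 0 < lev m' := by rw [hlev']; exact zero_lt_one
    have hop : IsOpen {m : M | 0 < lev m} := isOpen_lt continuous_const hc.hlev
    have hpm : ContinuousAt pn m' := hpc.continuousAt (hop.mem_nhds hm0)
    have h8 : Tendsto (fun k => pn (mk k)) atTop (𝓝 (pn m')) := by
      refine (hpm.tendsto.comp hgt).congr' ?_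
      filter_upwards [h7] with k hk
      simp only [Function.comp_apply]
      rw [← hmk k]
      exact hpf _ hk
    have h9 : Tendsto mk atTop (𝓝 m') := by
      have : Tendsto (fun k => J (pn (mk k), lev (mk k))) atTop (𝓝 (J (pn m', lev m'))) :=
        (hc.hJ.tendsto _).comp (h8.prodMk_nhds h6)
      rw [hp2 m' hm0] at this
      refine this.congr' ?_
      filter_upwards [h7] with k hk
      exact hp2 _ hk
    have h10 : Tendsto (fun k => ε (mk k) / 2) atTop (𝓝 (ε m' / 2)) :=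
      ((hεc.div_const 2).tendsto m').comp h9
    have h11 := tendsto_nhds_unique h10 h3
    have := (hp3 m').1
    rw [h11] at this
    exact lt_irrefl _ this

end Pool.Agent.Tor
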