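import Pool.Agent.Lib.Tor.Iter
import Pool.Agent.Lib.Tor.BoxIns
import Pool.Agent.Lib.Tor.StabE

/-! MODULE Tor.Defic (0.8 h): strong Z-sets are deficient. -/

open Set Topology Filter

namespace Pool.Agent.Tor

namespace DeficAux

/-- splitting a sequence of pairs -/
def splitN (X Y : Type) [TopologicalSpace X] [TopologicalSpace Y] :
    (ℕ → X × Y) ≃ₜ (ℕ → X) × (ℕ → Y) where
  toFun u := (fun n => (u n).1, fun n => (u n).2)
  invFun p := fun n => (p.1 n, p.2 n)
  left_inv _ := rfl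
  right_inv _ := rfl
  continuous_toFun := by fun_prop
  continuous_invFun := by fun_prop

lemma metrizable_E : TopologicalSpace.MetrizableSpace E := inferInstance

end DeficAux

open DeficAux

/-- PROOF. Transport to `M = E`. `iter` gives `Th : E = E x (N -> F)`; `(N -> F) = (N -> N -> F)`
(`pi_pi`), apply `box` to every block: `(N -> (N -> F)) = (N -> ((N -> F) x F)) =
(N -> N -> F) x (N -> F)`. So `E = E x E' x E''` with `A` going to `E'' = 0` and the first coordinate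
near the identity. Finally absorb `E'` into `E` near the identity: `stabE` gives `E = E x E` near the
identity, and `E' = E`. -/
theorem deficient {M : Type} [TopologicalSpace M] (hM : M ≃ₜ E) (A : Set M) (hA : SZ A)
    (U : M → Set M) (hU : Cov U) :
    ∃ θ : M ≃ₜ M × E, (∀ m, ∃ z, m ∈ U z ∧ (θ m).1 ∈ U z) ∧ ∀ m ∈ A, (θ m).2 = 0 := by
  have hUE : Cov (fun e : E => hM.symm ⁻¹' U (hM.symm e)) := Cov.pull hU hM.symm.continuous
  obtain ⟨V, hV, hstar⟩ := exists_star hUE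
  obtain ⟨Θ, hΘ1, hΘ2⟩ := iter (hM '' A) (hA.image hM) V hV
  obtain ⟨Θ₁, hΘ₁⟩ := pi_pi F
  obtain ⟨β, hβ⟩ := box
  obtain ⟨θ₂, hθ₂⟩ := stabE (Homeomorph.refl E) V hV
  -- the blocks
  let B : (ℕ → F) ≃ₜ (ℕ → F) × (ℕ → F) :=
    (Θ₁.symm.trans (Homeomorph.piCongrRight fun _ => β)).trans
      ((splitN (ℕ → F) F).trans (Θ₁.prodCongr (Homeomorph.refl (ℕ → F))))
  have hB : ∀ u : ℕ → F, (∀ i, 1 ≤ ‖u i‖) → (B u).2 = 0 := by
    intro u hu
    funext n
    change (β (Θ₁.symm u n)).2 = 0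
    apply hβ
    intro i
    have h1 : Θ₁ (Θ₁.symm u) (Nat.pair n i) = u (Nat.pair n i) := by
      rw [Homeomorph.apply_symm_apply]
    rw [hΘ₁, Nat.unpair_pair] at h1
    change Θ₁.symm u n i = u (Nat.pair n i) at h1
    rw [h1]
    exact hu _
  let G : E ≃ₜ E × E :=
    (Θ.trans ((Homeomorph.refl E).prodCongr B)).trans
      ((Homeomorph.prodAssoc E E E).symm.trans (θ₂.symm.prodCongr (Homeomorph.refl E)))
  have hG2 : ∀ e ∈ hM '' A, (G e).2 = 0 := by
    intro e he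
    change (B (Θ e).2).2 = 0
    exact hB _ (hΘ2 e he)
  have hn1 : Near V (fun e : E => e) (fun e => (Θ e).1) := hΘ1
  have hn2 : Near V (fun e : E => (Θ e).1) (fun e => (G e).1) := by
    intro e
    change ∃ z, (Θ e).1 ∈ V z ∧ θ₂.symm ((Θ e).1, (B (Θ e).2).1) ∈ V z
    obtain ⟨z, hz1, hz2⟩ := hθ₂ (θ₂.symm ((Θ e).1, (B (Θ e).2).1))
    rw [Homeomorph.apply_symm_apply] at hz2
    exact ⟨z, hz2, hz1⟩
  have hn3 := near_trans hstar hn1 hn2
  refine ⟨(hM.trans G).trans (hM.symm.prodCongr (Homeomorph.refl E)), ?_, ?_⟩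
  · intro m
    obtain ⟨z, hz1, hz2⟩ := hn3 (hM m)
    refine ⟨hM.symm z, ?_, hz2⟩
    have : hM.symm (hM m) ∈ U (hM.symm z) := hz1
    rwa [Homeomorph.symm_apply_apply] at this
  · intro m hm
    exact hG2 _ ⟨m, hm, rfl⟩

end Pool.Agent.Tor
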