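import Pool.Agent.Lib.Tor.Crush
import Pool.Agent.Lib.Tor.CylVert
import Pool.Agent.Lib.Tor.Unknot
import Pool.Agent.Lib.Tor.ZEmb
import Pool.Agent.Lib.Tor.Lambda

/-! MODULE Tor.Engulf (3 h): crushing the fibres over a strong Z-set is shrinkable. -/

open Set Topology Filter

namespace Pool.Agent.Tor
namespace EngulfAux

/-! ### clamping -/

/-- clamp to the unit interval -/
noncomputable def cl (x : ℝ) : I := projIcc 0 1 zero_le_one x

theorem continuous_cl : Continuous cl := continuous_projIcc (h := zero_le_one)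

theorem cl_coe' (x : ℝ) : ((cl x : I) : ℝ) = max 0 (min 1 x) := by
  unfold cl
  exact coe_projIcc ..

theorem cl_zero {x : ℝ} (h : x ≤ 0) : cl x = 0 := by
  apply Subtype.ext
  rw [cl_coe', max_eq_left ((min_le_right _ _).trans h)]
  rfl

theorem cl_one {x : ℝ} (h : 1 ≤ x) : cl x = 1 := by
  apply Subtype.ext
  rw [cl_coe', min_eq_left h, max_eq_right zero_le_one]
  rfl

theorem cl_coe {x : ℝ} (h0 : 0 ≤ x) (h1 : x ≤ 1) : ((cl x : I) : ℝ) = x := by
  rw [cl_coe', min_eq_right h1, max_eq_right h0]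

theorem cl_le {x y : ℝ} (h : x ≤ y) (h0 : 0 ≤ y) : ((cl x : I) : ℝ) ≤ y := by
  rw [cl_coe']
  exact max_le h0 ((min_le_right _ _).trans h)

theorem cl_pos {x : ℝ} (h : 0 < x) : (0 : ℝ) < (cl x : I) := by
  rw [cl_coe']
  exact lt_max_of_lt_right (lt_min one_pos h)

/-! ### piecewise linear functions -/

/-- piecewise linear function of `[0,1]` with `e ↦ w` -/
noncomputable def pl (e w t : ℝ) : ℝ :=
  if t ≤ e then t * w / e else w + (t - e) * (1 - w) / (1 - e)

theorem pl_pl {e w t : ℝ} (he : 0 < e) (he1 : e < 1) (hw : 0 < w) (hw1 : w < 1) :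
    pl w e (pl e w t) = t := by
  have he1' : 0 < 1 - e := by linarith
  have hw1' : 0 < 1 - w := by linarith
  unfold pl
  by_cases h : t ≤ e
  · rw [if_pos h]
    have h2 : t * w / e ≤ w := by
      rw [div_le_iff₀ he]
      nlinarith
    rw [if_pos h2]
    field_simp
  · rw [if_neg h]
    push Not at h
    have h2 : ¬ (w + (t - e) * (1 - w) / (1 - e) ≤ w) := by
      have : 0 < (t - e) * (1 - w) / (1 - e) := by
        have : 0 < t - e := by linarith
        positivity
      linarith
    rw [if_neg h2]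
    field_simp
    ring

theorem pl_same {e t : ℝ} (he : 0 < e) (he1 : e < 1) : pl e e t = t := by
  have he1' : 0 < 1 - e := by linarith
  unfold pl
  by_cases h : t ≤ e
  · rw [if_pos h]
    field_simp
  · rw [if_neg h]
    field_simp
    ring

theorem pl_nonneg {e w t : ℝ} (he : 0 < e) (he1 : e < 1) (hw : 0 < w) (hw1 : w < 1)
    (ht : 0 ≤ t) : 0 ≤ pl e w t := by
  have he1' : 0 < 1 - e := by linarith
  have hw1' : 0 < 1 - w := by linarith
  unfold pl
  by_cases h : t ≤ e
  · rw [if_pos h]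
    positivity
  · rw [if_neg h]
    push Not at h
    have : 0 < t - e := by linarith
    positivity

theorem pl_le_one {e w t : ℝ} (he : 0 < e) (he1 : e < 1) (hw : 0 < w) (hw1 : w < 1)
    (ht : t ≤ 1) : pl e w t ≤ 1 := by
  have he1' : 0 < 1 - e := by linarith
  have hw1' : 0 < 1 - w := by linarith
  unfold pl
  by_cases h : t ≤ e
  · rw [if_pos h, div_le_iff₀ he]
    nlinarith
  · rw [if_neg h]
    have : (t - e) * (1 - w) / (1 - e) ≤ 1 - w := by
      rw [div_le_iff₀ he1']
      nlinarith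
    linarith

theorem pl_ge {e w t : ℝ} (he : 0 < e) (he1 : e < 1) (hw1 : w < 1) (h : e ≤ t) :
    w ≤ pl e w t := by
  have he1' : 0 < 1 - e := by linarith
  have hw1' : 0 < 1 - w := by linarith
  unfold pl
  by_cases h' : t ≤ e
  · have : t = e := le_antisymm h' h
    rw [if_pos h', this]
    have : e * w / e = w := by field_simp
    rw [this]
  · rw [if_neg h']
    have : 0 ≤ (t - e) * (1 - w) / (1 - e) := by
      have : 0 ≤ t - e := by linarith
      positivity
    linarith

theorem pl_le_div {e w t : ℝ} (he : 0 < e) (he1 : e < 1) (hw : 0 < w) (hw1 : w < 1)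
    (ht : 0 ≤ t) (ht1 : t ≤ 1) : pl e w t ≤ t / e := by
  by_cases h : t ≤ e
  · unfold pl
    rw [if_pos h]
    apply div_le_div_of_nonneg_right _ he.le
    nlinarith
  · refine (pl_le_one he he1 hw hw1 ht1).trans ?_
    rw [le_div_iff₀ he]
    push Not at h
    linarith

theorem pl_le {e w t : ℝ} (he : 0 < e) (he1 : e < 1) (hw : 0 < w) (hw1 : w < 1)
    (hew : e ≤ w) (ht : 0 ≤ t) (ht1 : t ≤ 1) : pl w e t ≤ t := by
  have he1' : 0 < 1 - e := by linarith
  have hw1' : 0 < 1 - w := by linarith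
  unfold pl
  by_cases h : t ≤ w
  · rw [if_pos h, div_le_iff₀ hw]
    nlinarith
  · rw [if_neg h]
    have : (t - w) * (1 - e) / (1 - w) ≤ t - e := by
      rw [div_le_iff₀ hw1']
      nlinarith [mul_nonneg (sub_nonneg.2 hew) (sub_nonneg.2 ht1)]
    linarith

theorem cont_pl {Y : Type} [TopologicalSpace Y] {e w t : Y → ℝ} (he : Continuous e)
    (hw : Continuous w) (ht : Continuous t) (h0 : ∀ y, 0 < e y) (h1 : ∀ y, e y < 1) :
    Continuous fun y => pl (e y) (w y) (t y) := by
  unfold pl
  refine Continuous.if_le ?_ ?_ ht he ?_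
  · exact (ht.mul hw).div he fun y => (h0 y).ne'
  · exact hw.add (((ht.sub he).mul (continuous_const.sub hw)).div (continuous_const.sub he)
      fun y => by have := h1 y; linarith)
  · intro y hy
    have := (h0 y).ne'
    rw [hy]
    field_simp
    ring

/-! ### small neighbourhoods of `K` -/

variable {X M MK : Type} [MetricSpace X] [TopologicalSpace M]
    [TopologicalSpace MK] {q : E → X} {c : M → X} {lev : M → I} {i : X → M} {J : E × I → M}
    {K : Set X} {p : M → MK} {cK : MK → X}

theorem exists_delta (hc : IsCyl q c lev i J) (h : IsCrush K c p cK) (hne : K.Nonempty)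
    (U : MK → Set MK) (hU : Cov U) :
    ∃ δ : X → ℝ, Continuous δ ∧ (∀ x, 0 < δ x ∧ δ x ≤ 1) ∧ (∀ x y, |δ x - δ y| ≤ dist x y) ∧
      ∀ x, Metric.infDist x K < 3 * δ x → ∃ z, ∀ m, dist (c m) x < 3 * δ x → p m ∈ U z := by
  classical
  have hO : ∀ z : X, ∃ O : Set X, IsOpen O ∧ z ∈ O ∧
      (z ∈ K → ∀ m, c m ∈ O → p m ∈ U (p (i z))) ∧ (z ∉ K → O ⊆ Kᶜ) := by
    intro z
    by_cases hz : z ∈ K
    · have h1 := h.at_K (i z) (by rw [hc.c_i]; exact hz) (U (p (i z)))
        ((hU _).1.mem_nhds (hU _).2)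
      obtain ⟨O, hO, hO'⟩ := h1
      rw [hc.c_i] at hO
      obtain ⟨O', h2, h3, h4⟩ := mem_nhds_iff.1 hO
      exact ⟨O', h3, h4, fun _ m hm => hO' m (h2 hm), fun h => absurd hz h⟩
    · exact ⟨Kᶜ, h.hK.isOpen_compl, hz, fun h => absurd h hz, fun _ => subset_rfl⟩
  choose O hO1 hO2 hO3 hO4 using hO
  obtain ⟨ε, hε, hε1, hε2, hε3⟩ := exists_eps (U := O) (fun z => ⟨hO1 z, hO2 z⟩)
  refine ⟨fun x => ε x / 3, hε.div_const 3, fun x => ⟨by have := (hε1 x).1; positivity, by
    have := (hε1 x).2; linarith⟩, ?_, ?_⟩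
  · intro x y
    have h1 := hε2 x y
    have h2 := abs_nonneg (ε x - ε y)
    have h3 : ε x / 3 - ε y / 3 = (ε x - ε y) / 3 := by ring
    rw [h3, abs_div, abs_of_pos (by norm_num : (0 : ℝ) < 3)]
    linarith
  · intro x hx
    have hx' : Metric.infDist x K < ε x := by linarith
    obtain ⟨z, hz⟩ := hε3 x
    have hzK : z ∈ K := by
      by_contra hzK
      have : ε x ≤ Metric.infDist x K := by
        rw [Metric.le_infDist hne]
        intro y hy
        by_contra hlt
        push Not at hlt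
        exact hO4 z hzK (hz (Metric.mem_ball'.2 hlt)) hy
      linarith
    exact ⟨p (i z), fun m hm => hO3 z hzK m (hz (Metric.mem_ball.2 (by linarith)))⟩

/-- the pushed off map has closure of the range disjoint from `K` -/
theorem clos_disj {κ : X × I → X} (hκd : ∀ x t, dist (κ (x, t)) x ≤ t)
    (hκs : ∀ (x : ℕ → X) (t : ℕ → I) (τ : ℝ) (y : X), 0 < τ → (∀ k, τ ≤ t k) →
      Tendsto (fun k => κ (x k, t k)) atTop (𝓝 y) → y ∉ K)
    {δ : X → ℝ} (hδ : Continuous δ) (hδp : ∀ x, 0 < δ x) :
    Disjoint (closure (range fun x => κ (x, cl (δ x - Metric.infDist x K)))) K := by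
  rw [Set.disjoint_left]
  intro y hy hyK
  obtain ⟨v, hv, hvy⟩ := mem_closure_iff_seq_limit.1 hy
  choose x hx using hv
  have hxy : Tendsto (fun k => κ (x k, cl (δ (x k) - Metric.infDist (x k) K))) atTop (𝓝 y) := by
    refine hvy.congr fun k => ?_
    exact (hx k).symm
  by_cases hcase : ∃ τ : ℝ, 0 < τ ∧ ∃ᶠ k in atTop,
      τ ≤ (cl (δ (x k) - Metric.infDist (x k) K) : ℝ)
  · obtain ⟨τ, hτ, hfr⟩ := hcase
    obtain ⟨φ, hφ, hφ2⟩ := extraction_of_frequently_atTop hfr
    exact hκs (fun k => x (φ k)) (fun k => cl (δ (x (φ k)) - Metric.infDist (x (φ k)) K)) τ y hτ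
      hφ2 (hxy.comp hφ.tendsto_atTop) hyK
  · push Not at hcase
    have ht : Tendsto (fun k => ((cl (δ (x k) - Metric.infDist (x k) K) : I) : ℝ)) atTop
        (𝓝 0) := by
      rw [Metric.tendsto_atTop']
      intro τ hτ
      have := hcase τ hτ
      obtain ⟨N, hN⟩ := Filter.eventually_atTop.1 this
      refine ⟨N, fun k hk => ?_⟩
      have h1 := hN k hk.le
      rw [Real.dist_eq, sub_zero, abs_of_nonneg (cl _).2.1]
      exact h1
    have hx' : Tendsto x atTop (𝓝 y) := by
      rw [tendsto_iff_dist_tendsto_zero] at hxy ⊢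
      refine squeeze_zero (fun _ => dist_nonneg) (fun k => ?_) (by simpa using ht.add hxy)
      have h1 := hκd (x k) (cl (δ (x k) - Metric.infDist (x k) K))
      have h2 := dist_triangle (x k) (κ (x k, cl (δ (x k) - Metric.infDist (x k) K))) y
      rw [dist_comm] at h1
      linarith
    have hlim : Tendsto (fun k => ((cl (δ (x k) - Metric.infDist (x k) K) : I) : ℝ)) atTop
        (𝓝 ((cl (δ y - Metric.infDist y K) : I) : ℝ)) := by
      have hcont : Continuous fun x => ((cl (δ x - Metric.infDist x K) : I) : ℝ) :=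
        continuous_subtype_val.comp (continuous_cl.comp (hδ.sub (Metric.continuous_infDist_pt K)))
      exact (hcont.tendsto y).comp hx'
    have h0 := tendsto_nhds_unique ht hlim
    have h1 : Metric.infDist y K = 0 := Metric.infDist_zero_of_mem hyK
    have h2 : (0 : ℝ) < (cl (δ y - Metric.infDist y K) : I) :=
      cl_pos (by rw [h1, sub_zero]; exact hδp y)
    linarith

/-- the homotopy moving the top level off `K` -/
theorem exists_G0 (hc : IsCyl q c lev i J) {κ : X × I → X} (hκ : Continuous κ)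
    (hκd : ∀ x t, dist (κ (x, t)) x ≤ t)
    {δ : X → ℝ} (hδ : Continuous δ) (hδp : ∀ x, 0 < δ x) :
    ∃ G0 : E × I → M, Continuous G0 ∧ (∀ n, G0 (n, 0) = J (n, 1)) ∧
      (∀ n, c (G0 (n, 1)) = κ (q n, cl (δ (q n) - Metric.infDist (q n) K))) ∧
      (∀ n s, 2 * δ (q n) ≤ Metric.infDist (q n) K → G0 (n, s) = J (n, 1)) ∧
      ∀ n s, dist (c (G0 (n, s))) (q n) ≤ δ (q n) := by
  have hκ0 : ∀ x, κ (x, 0) = x := fun x => by
    have := hκd x 0
    exact dist_le_zero.1 this
  let ψ : E × ℝ → M := fun a =>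
    if a.2 ≤ 1 then J (a.1, cl (1 - a.2)) else i (κ (q a.1, cl (a.2 - 1)))
  have hψ : Continuous ψ := by
    refine Continuous.if_le ?_ ?_ continuous_snd continuous_const ?_
    · exact hc.hJ.comp (continuous_fst.prodMk
        (continuous_cl.comp (continuous_const.sub continuous_snd)))
    · exact hc.hi.comp (hκ.comp ((hc.hq.comp continuous_fst).prodMk
        (continuous_cl.comp (continuous_snd.sub continuous_const))))
    · rintro ⟨n, r⟩ hr
      simp only at hr
      subst hr
      simp only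
      rw [cl_zero (by norm_num), hc.J_zero, hκ0]
  have hcψ : ∀ n r, c (ψ (n, r)) = κ (q n, cl (r - 1)) := by
    intro n r
    by_cases hr : r ≤ 1
    · simp only [ψ, if_pos hr]
      rw [hc.c_J, cl_zero (by linarith), hκ0]
    · simp only [ψ, if_neg hr]
      rw [hc.c_i]
  let χ : X → ℝ := fun x => max 0 (min 1 (2 - Metric.infDist x K / δ x))
  let tt : X → ℝ := fun x => max 0 (δ x - Metric.infDist x K)
  have hinf : Continuous fun x => Metric.infDist x K := Metric.continuous_infDist_pt K
  have hχ : Continuous χ := continuous_const.max (continuous_const.min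
    (continuous_const.sub (hinf.div hδ fun x => (hδp x).ne')))
  have htt : Continuous tt := continuous_const.max (hδ.sub hinf)
  have hχ0 : ∀ x, 0 ≤ χ x := fun x => le_max_left _ _
  have hχ1 : ∀ x, χ x ≤ 1 := fun x => max_le zero_le_one (min_le_left _ _)
  have htt0 : ∀ x, 0 ≤ tt x := fun x => le_max_left _ _
  have httδ : ∀ x, tt x ≤ δ x := fun x =>
    max_le (hδp x).le (by have := Metric.infDist_nonneg (x := x) (s := K); linarith)
  have hfar : ∀ x, 2 * δ x ≤ Metric.infDist x K → χ x + tt x = 0 := by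
    intro x hx
    have hp := hδp x
    have h1 : 2 - Metric.infDist x K / δ x ≤ 0 := by
      have : 2 ≤ Metric.infDist x K / δ x := by
        rw [le_div_iff₀ hp]; exact hx
      linarith
    have h2 : χ x = 0 := max_eq_left ((min_le_right _ _).trans h1)
    have h3 : tt x = 0 := max_eq_left (by linarith)
    rw [h2, h3, add_zero]
  have hend : ∀ x, cl (χ x + tt x - 1) = cl (δ x - Metric.infDist x K) := by
    intro x
    have hp := hδp x
    rcases le_or_gt (Metric.infDist x K) (δ x) with hx | hx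
    · have h1 : 1 ≤ 2 - Metric.infDist x K / δ x := by
        have : Metric.infDist x K / δ x ≤ 1 := by
          rw [div_le_iff₀ hp]; linarith
        linarith
      have h2 : χ x = 1 := by
        simp only [χ]
        rw [min_eq_left h1, max_eq_right zero_le_one]
      have h3 : tt x = δ x - Metric.infDist x K := max_eq_right (by linarith)
      rw [h2, h3]
      congr 1
      ring
    · have h3 : tt x = 0 := max_eq_left (by linarith)
      have h4 := hχ1 x
      rw [cl_zero (by linarith), cl_zero (by linarith)]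
  refine ⟨fun a => ψ (a.1, a.2 * (χ (q a.1) + tt (q a.1))), ?_, ?_, ?_, ?_, ?_⟩
  · refine hψ.comp (continuous_fst.prodMk ?_)
    exact (continuous_subtype_val.comp continuous_snd).mul
      ((hχ.comp (hc.hq.comp continuous_fst)).add (htt.comp (hc.hq.comp continuous_fst)))
  · intro n
    simp only [ψ, Set.Icc.coe_zero, zero_mul]
    rw [if_pos zero_le_one, sub_zero, cl_one le_rfl]
  · intro n
    simp only [Set.Icc.coe_one, one_mul]
    rw [hcψ, hend]
  · intro n s hn
    simp only
    rw [hfar _ hn, mul_zero]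
    simp only [ψ]
    rw [if_pos zero_le_one, sub_zero, cl_one le_rfl]
  · intro n s
    simp only
    rw [hcψ]
    refine (hκd _ _).trans (cl_le ?_ (hδp _).le)
    have h1 := s.2.1
    have h2 := s.2.2
    have h3 := hχ0 (q n)
    have h4 := htt0 (q n)
    have h5 := hχ1 (q n)
    have h6 := httδ (q n)
    have h7 : (s : ℝ) * (χ (q n) + tt (q n)) ≤ 1 * (χ (q n) + tt (q n)) :=
      mul_le_mul_of_nonneg_right h2 (by linarith)
    linarith

end EngulfAux

open EngulfAux

/-- PROOF. Let `a x = infDist x K` (`K` empty: `p` is a homeomorphism by `off_K`, take `k = id`).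
Given a cover `U` of `MK` and a cover `V` of `M`.
(1) `cyl_cover` for `V`: `eps : X -> (0,1/4]`, cover `O` of `X`.
(2) For `x in K` let `O'_x` be open with `c m in O'_x -> p m in U1 (p (i x))` (`U1` an iterated star
refinement of `U`); `exists_below` gives `de : X -> (0,1]` with
`a x < 2 de x -> exists x' in K, ball x (3 de x) subset O'_x'`; replace it by a smaller `1`-Lipschitz
function (`inf_y (de y + dist x y)`), still called `de`.
(3) `b0 : E -> M`, `x = q n`: if `a x >= de x`, `b0 n = J (n, 1 - chi)`, `chi = max 0 (min 1 (2 - a/de))`;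
if `a x <= de x`, `b0 n = i (kap (x, de x - a x))` (`kap` from `StrongK`). Continuous. As in CrushSZ
the closure `C0` of `{c (b0 n)}` is disjoint from `K`. There is an obvious homotopy `G0` from
`n -> J (n,1)` to `b0` (first vertical, then `kap (x, .)`), constant if `a x >= 2 de x`, and otherwise with
`c`-track in `ball x (de x)`, so `p G0` has `U1`-small tracks.
(4) `exists_cov_sep` (twice): closed `D`, `D'` disjoint from `K`, `C0 subset interior D`,
`D subset interior D'`. `zemb` gives a closed embedding `b' : E -> M` with SZ range, so close to `b0`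
that `c (b' n) in D` and that `b0` and `b'` are joined by a homotopy with `p`-small tracks
(`exists_lambda` and `lambda_small` in `M`, which is an AE by `ae_E`).
(5) `unknot` with `C = p`, `A = {lev = 1}` (`sz_top`): a homeomorphism `u` of `M`, `u (J (n,1)) = b' n`,
`p u` near `p` (and so `c u` near `c`, as fine as we like).
(6) `W = {m | c (u m) in interior D'}` is open and contains `J (n,1)`; `cyl_top`: `w : E -> [1/2,1)`.
`chi2 x = max 0 (min 1 (2 - 2 a/de))` (one for `a <= de/2`, zero for `a >= de`),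
`w' n = eps + chi2 (w n - eps)`, `eps = eps (q n)`; `r (n,.)` piecewise linear `[0,eps] -> [0,w']`,
`[eps,1] -> [w',1]`; `vert_homeo` (note `r (n,t) <= t / eps`, `r' (n,t) <= t`) gives `R`. `R` moves only
points with `a (c m) < de`, vertically, so `p R` is near `p`. (7) `k = u o R`. `p k` near `p`.
(8) CLAIM: if `lev m >= eps (c m)` then `c (k m)` is not in the open set
`OK = {y not in D' | a y < de y / 4}`, which contains `K`: if `a (c m) <= de/2` then
`R m in W` or top, so `c (k m) in D'`; if `a (c m) > de (c m) /2` use that `c (k m)` is closer than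
`de (c m) / 8` to `c m` (fine control; `de` is `1`-Lipschitz).
(9) Small preimages. `y in MK` with `cK y in K`: neighbourhood `{y' | cK y' in OK inter O''}` with `O''`
a member of a star refinement of `O` (and `c k` is close to `c` with respect to it): if `p (k m)` is in
it then `lev m < eps (c m)` and `c m in O x1`, so `m in V (i x')`. `cK y` not in `K`: `y = p m0`,
`m1 = k^-1 m0`, `off_K` for the neighbourhood `k (V m1)` of `m0`. -/
theorem crush_shrinkable {X M MK : Type} [MetricSpace X] [TopologicalSpace M] [PolishSpace M]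
    [TopologicalSpace MK] [TopologicalSpace.MetrizableSpace MK] (hX : AE X) (hM : M ≃ₜ E)
    {q : E → X} {c : M → X} {lev : M → I} {i : X → M}
    {J : E × I → M} (hc : IsCyl q c lev i J) {K : Set X} {p : M → MK} {cK : MK → X}
    (h : IsCrush K c p cK) (hS : StrongK K) : Shrinkable p := by
  classical
  intro U hU V hV
  rcases K.eq_empty_or_nonempty with hKe | hne
  · refine ⟨Homeomorph.refl M, fun m => ⟨p m, (hU _).2, (hU _).2⟩, fun y => ?_⟩
    obtain ⟨m0, rfl⟩ := h.surj y
    obtain ⟨V', h1, h2⟩ := h.off_K m0 (by rw [hKe]; exact notMem_empty _) (V m0)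
      ((hV m0).1.mem_nhds (hV m0).2)
    exact ⟨V', h1, m0, h2⟩
  obtain ⟨hKc, κ, hκ, hκd, -, hκs⟩ := hS
  obtain ⟨U1, hU1, s1⟩ := exists_star hU
  obtain ⟨δ1, hδ1, hδ1p, hδ1l, hδ1s⟩ := exists_delta hc h hne U1 hU1
  obtain ⟨ε, O, hε, hεp, hO, hOV⟩ := cyl_cover hc V hV
  obtain ⟨O2, hO2, s2⟩ := exists_star hO
  obtain ⟨Uc, hUc, hUcd⟩ := exists_cov (Z := X) (ε := fun x => δ1 x / 8) (hδ1.div_const 8)
    (fun z => by have := (hδ1p z).1; positivity)
  have hU' : Cov (fun z => U1 z ∩ (cK ⁻¹' (Uc (cK z)) ∩ cK ⁻¹' (O2 (cK z)))) :=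
    hU1.inter ((hUc.pull h.hcK).inter (hO2.pull h.hcK))
  obtain ⟨Vu, hVu, hun⟩ := unknot hM p h.hp _ hU'
  obtain ⟨U3, hU3, s3⟩ := exists_star hVu
  obtain ⟨δ2, hδ2, hδ2p, -, hδ2s⟩ := exists_delta hc h hne U3 hU3
  obtain ⟨G0, hG0, hG0z, hG0e, hG0f, hG0d⟩ := exists_G0 (K := K) hc hκ hκd hδ2
    (fun x => (hδ2p x).1)
  -- the pushed off top level
  have hdis := clos_disj hκd hκs hδ2 (fun x => (hδ2p x).1)
  set C0 : Set X := closure (range fun x => κ (x, cl (δ2 x - Metric.infDist x K))) with hC0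
  have hb0C : ∀ n, c (G0 (n, 1)) ∈ C0 := fun n => by
    rw [hG0e]
    exact subset_closure ⟨q n, rfl⟩
  obtain ⟨Ua, D, hUa, hD, hDK, hC0D, hUaD⟩ := exists_cov_sep isClosed_closure hKc hdis
  obtain ⟨-, D', -, hD', hDK', hDD', -⟩ := exists_cov_sep hD hKc hDK
  -- the embedding of the top level
  obtain ⟨Λ, hΛ, hΛ0, hΛ1, hΛd⟩ := exists_lambda (AE.homeo ae_E hM)
  obtain ⟨VΛ, hVΛ, hVΛs⟩ := lambda_small hΛ hΛd _ (hU3.pull h.hp)
  have hb0 : Continuous fun n => G0 (n, 1) := hG0.comp (continuous_id.prodMk continuous_const)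
  obtain ⟨b', hb', hb'Z, hb'n⟩ := zemb hM (fun n => G0 (n, 1)) hb0 _ (hVΛ.inter (hUa.pull hc.hc))
  have hb'D : ∀ n, c (b' n) ∈ D := by
    intro n
    obtain ⟨z, h1, h2⟩ := hb'n n
    exact hUaD _ (hb0C n) _ ⟨c z, h2.2, h1.2⟩
  have hb'Λ : ∀ n, ∃ z, ∀ t, p (Λ (G0 (n, 1), b' n, t)) ∈ U3 z := by
    intro n
    obtain ⟨z, h1, h2⟩ := hb'n n
    exact ⟨p z, fun t => hVΛs z _ h2.1 _ h1.1 t⟩
  have hG0U : ∀ n, ∃ z, ∀ s, p (G0 (n, s)) ∈ U3 z := by
    intro n
    rcases lt_or_ge (Metric.infDist (q n) K) (2 * δ2 (q n)) with hn | hn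
    · obtain ⟨z, hz⟩ := hδ2s (q n) (by have := (hδ2p (q n)).1; linarith)
      exact ⟨z, fun s => hz _ (by
        have := hG0d n s
        have := (hδ2p (q n)).1
        linarith)⟩
    · exact ⟨p (J (n, 1)), fun s => by rw [hG0f n s hn]; exact (hU3 _).2⟩
  -- the homotopy for the unknotting theorem
  obtain ⟨pn, hpn, hpnJ, hJpn⟩ := hc.pn
  have hApos : ∀ a : {m : M | lev m = 1}, 0 < lev a.1 := fun a => by
    rw [show lev a.1 = 1 from a.2]; exact zero_lt_one
  let N : {m : M | lev m = 1} → E := fun a => pn a.1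
  have hN : Continuous N := hpn.comp_continuous continuous_subtype_val hApos
  have hJN : ∀ a, J (N a, 1) = a.1 := fun a => by
    have := hJpn a.1 (hApos a)
    rw [show lev a.1 = 1 from a.2] at this
    exact this
  have hNJ : ∀ n, N ⟨J (n, 1), hc.lev_J n 1⟩ = n := fun n => hpnJ n 1 zero_lt_one
  let eN : {m : M | lev m = 1} ≃ₜ E :=
    { toFun := N
      invFun := fun n => ⟨J (n, 1), hc.lev_J n 1⟩
      left_inv := fun a => Subtype.ext (hJN a)
      right_inv := hNJ
      continuous_toFun := hN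
      continuous_invFun := (hc.hJ.comp (continuous_id.prodMk continuous_const)).subtype_mk _ }
  let G : {m : M | lev m = 1} × I → M := fun a =>
    if (a.2 : ℝ) ≤ 1 / 2 then G0 (N a.1, cl (2 * a.2))
    else Λ (G0 (N a.1, 1), b' (N a.1), cl (2 * a.2 - 1))
  have hG : Continuous G := by
    have h2 : Continuous fun a : {m : M | lev m = 1} × I => (a.2 : ℝ) :=
      continuous_subtype_val.comp continuous_snd
    refine Continuous.if_le ?_ ?_ h2 continuous_const ?_
    · exact hG0.comp ((hN.comp continuous_fst).prodMk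
        (continuous_cl.comp (continuous_const.mul h2)))
    · exact hΛ.comp ((hb0.comp (hN.comp continuous_fst)).prodMk
        ((hb'.continuous.comp (hN.comp continuous_fst)).prodMk
          (continuous_cl.comp ((continuous_const.mul h2).sub continuous_const))))
    · intro a ha
      rw [ha, cl_one (by norm_num), cl_zero (by norm_num), hΛ0]
  have hG_0 : ∀ a, G (a, 0) = a := by
    intro a
    simp only [G, Set.Icc.coe_zero, mul_zero]
    rw [if_pos (by norm_num), cl_zero le_rfl, hG0z, hJN]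
  have hG_1 : ∀ a, G (a, 1) = b' (N a) := by
    intro a
    simp only [G, Set.Icc.coe_one, mul_one]
    rw [if_neg (by norm_num), cl_one (by norm_num), hΛ1]
  have hG1' : (fun a => G (a, 1)) = fun a => b' (N a) := funext hG_1
  obtain ⟨u, hu1, hu2⟩ := hun {m : M | lev m = 1} (sz_top hc) G hG hG_0
    (by rw [hG1']; exact hb'.comp eN.isClosedEmbedding)
    (by
      rw [hG1']
      have : range (fun a => b' (N a)) = range b' := by
        ext m
        constructor
        · rintro ⟨a, rfl⟩
          exact ⟨_, rfl⟩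
        · rintro ⟨n, rfl⟩
          exact ⟨⟨J (n, 1), hc.lev_J n 1⟩, congrArg b' (hNJ n)⟩
      rw [this]
      exact hb'Z)
    (by
      intro a
      obtain ⟨z1, h1⟩ := hG0U (N a)
      obtain ⟨z2, h2⟩ := hb'Λ (N a)
      obtain ⟨z, hz⟩ := s3 z1
      refine ⟨z, fun t => ?_⟩
      by_cases ht : (t : ℝ) ≤ 1 / 2
      · simp only [G, if_pos ht]
        exact hz z1 ⟨_, h1 1, h1 1⟩ (h1 _)
      · simp only [G, if_neg ht]
        refine hz z2 ⟨p (G0 (N a, 1)), h1 1, ?_⟩ (h2 _)
        have := h2 0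
        rwa [hΛ0] at this)
  have huJ : ∀ n, u (J (n, 1)) = b' n := by
    intro n
    have := hu1 ⟨J (n, 1), hc.lev_J n 1⟩
    rw [hG_1, hNJ] at this
    exact this
  -- the vertical homeomorphism
  obtain ⟨w, hw, hwp, hwW⟩ := cyl_top hc {m | c (u m) ∈ interior D'}
    (isOpen_interior.preimage (hc.hc.comp u.continuous)) (fun n => by
      show c (u (J (n, 1))) ∈ interior D'
      rw [huJ]
      exact hDD' (hb'D n))
  let χ : X → ℝ := fun x => max 0 (min 1 (2 - 2 * Metric.infDist x K / δ1 x))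
  have hinf : Continuous fun x => Metric.infDist x K := Metric.continuous_infDist_pt K
  have hχ : Continuous χ := continuous_const.max (continuous_const.min
    (continuous_const.sub ((continuous_const.mul hinf).div hδ1 fun x => (hδ1p x).1.ne')))
  have hχ0 : ∀ x, 0 ≤ χ x := fun x => le_max_left _ _
  have hχ1 : ∀ x, χ x ≤ 1 := fun x => max_le zero_le_one (min_le_left _ _)
  have hχnear : ∀ x, Metric.infDist x K ≤ δ1 x / 2 → χ x = 1 := by
    intro x hx
    have hp := (hδ1p x).1
    have h1 : 1 ≤ 2 - 2 * Metric.infDist x K / δ1 x := by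
      have : 2 * Metric.infDist x K / δ1 x ≤ 1 := by
        rw [div_le_iff₀ hp]; linarith
      linarith
    simp only [χ]
    rw [min_eq_left h1, max_eq_right zero_le_one]
  have hχfar : ∀ x, δ1 x ≤ Metric.infDist x K → χ x = 0 := by
    intro x hx
    have hp := (hδ1p x).1
    have h1 : 2 - 2 * Metric.infDist x K / δ1 x ≤ 0 := by
      have : 2 ≤ 2 * Metric.infDist x K / δ1 x := by
        rw [le_div_iff₀ hp]; linarith
      linarith
    exact max_eq_left ((min_le_right _ _).trans h1)
  let w' : E → ℝ := fun n => ε (q n) + χ (q n) * (w n - ε (q n))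
  have hεq : Continuous fun n => ε (q n) := hε.comp hc.hq
  have hw' : Continuous w' := hεq.add ((hχ.comp hc.hq).mul (hw.sub hεq))
  have hε0 : ∀ x, 0 < ε x := fun x => (hεp x).1
  have hε1 : ∀ x, ε x < 1 := fun x => lt_of_le_of_lt (hεp x).2 (by norm_num)
  have hεw' : ∀ n, ε (q n) ≤ w' n := by
    intro n
    have h1 := hχ0 (q n)
    have h2 := (hεp (q n)).2
    have h3 := (hwp n).1
    have : 0 ≤ χ (q n) * (w n - ε (q n)) := mul_nonneg h1 (by linarith)
    simp only [w']
    linarith
  have hw'0 : ∀ n, 0 < w' n := fun n => lt_of_lt_of_le (hε0 _) (hεw' n)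
  have hw'1 : ∀ n, w' n < 1 := by
    intro n
    have h1 := hχ1 (q n)
    have h2 := (hεp (q n)).2
    have h3 := (hwp n).1
    have h4 := (hwp n).2
    have : χ (q n) * (w n - ε (q n)) ≤ 1 * (w n - ε (q n)) :=
      mul_le_mul_of_nonneg_right h1 (by linarith)
    simp only [w']
    linarith
  have hcoe : ∀ e w : ℝ, 0 < e → e < 1 → 0 < w → w < 1 → ∀ t : I,
      ((cl (pl e w t) : I) : ℝ) = pl e w t := fun e w h1 h2 h3 h4 t =>
    cl_coe (pl_nonneg h1 h2 h3 h4 t.2.1) (pl_le_one h1 h2 h3 h4 t.2.2)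
  have hsv : Continuous fun a : E × I => (a.2 : ℝ) :=
    continuous_subtype_val.comp continuous_snd
  obtain ⟨R, hRJ, -, hRc, -, hRi, -⟩ := vert_homeo hc
    (fun a => cl (pl (ε (q a.1)) (w' a.1) a.2)) (fun a => cl (pl (w' a.1) (ε (q a.1)) a.2))
    (continuous_cl.comp (cont_pl (hεq.comp continuous_fst) (hw'.comp continuous_fst) hsv
      (fun a => hε0 _) (fun a => hε1 _)))
    (continuous_cl.comp (cont_pl (hw'.comp continuous_fst) (hεq.comp continuous_fst) hsv
      (fun a => hw'0 _) (fun a => hw'1 _)))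
    (fun n t => by
      apply Subtype.ext
      simp only
      rw [hcoe _ _ (hε0 _) (hε1 _) (hw'0 _) (hw'1 _), hcoe _ _ (hw'0 _) (hw'1 _) (hε0 _) (hε1 _),
        pl_pl (hw'0 _) (hw'1 _) (hε0 _) (hε1 _)])
    (fun n t => by
      apply Subtype.ext
      simp only
      rw [hcoe _ _ (hw'0 _) (hw'1 _) (hε0 _) (hε1 _), hcoe _ _ (hε0 _) (hε1 _) (hw'0 _) (hw'1 _),
        pl_pl (hε0 _) (hε1 _) (hw'0 _) (hw'1 _)])
    (by
      intro x e he
      have hx := hε0 x
      refine ⟨{y | ε x / 2 < ε y}, (isOpen_lt continuous_const hε).mem_nhds (by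
        show ε x / 2 < ε x
        linarith), min (e * (ε x / 2)) e, by positivity, ?_⟩
      intro n t hn ht
      have hn' : ε x / 2 < ε (q n) := hn
      have ht1 : (t : ℝ) < e * (ε x / 2) := lt_of_lt_of_le ht (min_le_left _ _)
      have ht2 : (t : ℝ) < e := lt_of_lt_of_le ht (min_le_right _ _)
      have t0 := t.2.1
      have t1 := t.2.2
      simp only
      rw [hcoe _ _ (hε0 _) (hε1 _) (hw'0 _) (hw'1 _), hcoe _ _ (hw'0 _) (hw'1 _) (hε0 _) (hε1 _)]
      constructor
      · refine lt_of_le_of_lt (pl_le_div (hε0 _) (hε1 _) (hw'0 _) (hw'1 _) t0 t1) ?_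
        rw [div_lt_iff₀ (hε0 _)]
        have : e * (ε x / 2) ≤ e * ε (q n) := mul_le_mul_of_nonneg_left hn'.le he.le
        linarith
      · exact lt_of_le_of_lt (pl_le (hε0 _) (hε1 _) (hw'0 _) (hw'1 _) (hεw' n) t0 t1) ht2)
  -- every point off the zero level is in the image of `J`
  have hmJ : ∀ m, 0 < lev m → ∃ n, m = J (n, lev m) ∧ q n = c m := by
    intro m hm
    refine ⟨pn m, (hJpn m hm).symm, ?_⟩
    have := hc.c_J (pn m) (lev m)
    rw [hJpn m hm] at this
    exact this.symm
  -- `R` moves only points near `K`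
  have hRp : Near U1 (fun m => p (R m)) p := by
    intro m
    rcases lt_or_ge (Metric.infDist (c m) K) (δ1 (c m)) with hm | hm
    · obtain ⟨z, hz⟩ := hδ1s (c m) (by have := (hδ1p (c m)).1; linarith)
      have hp := (hδ1p (c m)).1
      exact ⟨z, hz _ (by rw [hRc, dist_self]; linarith), hz _ (by rw [dist_self]; linarith)⟩
    · have hRm : R m = m := by
        rcases (lev m).2.1.eq_or_lt with h0 | h0
        · have h1 : lev m = 0 := Subtype.ext h0.symm
          have h2 := hc.eq_i m h1
          rw [h2, hRi]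
        · obtain ⟨n, hn1, hn2⟩ := hmJ m h0
          have h3 : w' n = ε (q n) := by
            simp only [w']
            rw [hn2, hχfar _ hm, zero_mul, add_zero]
          have h4 := hRJ n (lev m)
          simp only at h4
          rw [h3, pl_same (hε0 _) (hε1 _)] at h4
          have h5 : cl (lev m : ℝ) = lev m := Subtype.ext (cl_coe (lev m).2.1 (lev m).2.2)
          rw [h5, ← hn1] at h4
          exact h4
      refine ⟨p m, ?_, (hU1 _).2⟩
      show p (R m) ∈ U1 (p m)
      rw [hRm]
      exact (hU1 _).2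
  have hup : Near U1 (fun m => p (u (R m))) (fun m => p (R m)) := by
    intro m
    obtain ⟨z, h1, h2⟩ := hu2 (R m)
    exact ⟨z, h2.1, h1.1⟩
  refine ⟨R.trans u, near_trans s1 hup hRp, ?_⟩
  -- the claim
  have claim : ∀ m, c (u (R m)) ∉ D' →
      Metric.infDist (c (u (R m))) K < δ1 (c (u (R m))) / 4 → (lev m : ℝ) < ε (c m) := by
    intro m h1 h2
    by_contra hcon
    push Not at hcon
    have hlev : 0 < lev m := by
      have : (0 : ℝ) < lev m := lt_of_lt_of_le (hε0 (c m)) hcon
      exact this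
    obtain ⟨n, hn1, hn2⟩ := hmJ m hlev
    rcases le_or_gt (Metric.infDist (c m) K) (δ1 (c m) / 2) with hm | hm
    · apply h1
      have h3 : w' n = w n := by
        simp only [w']
        rw [hn2, hχnear _ hm]
        ring
      have h4 := hRJ n (lev m)
      rw [← hn1] at h4
      have h5 : w n ≤ ((cl (pl (ε (q n)) (w' n) (lev m)) : I) : ℝ) := by
        rw [hcoe _ _ (hε0 _) (hε1 _) (hw'0 _) (hw'1 _), ← h3]
        exact pl_ge (hε0 _) (hε1 _) (hw'1 _) (by rw [hn2]; exact hcon)
      have h6 := hwW n _ h5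
      rw [h4]
      exact interior_subset h6
    · obtain ⟨z, h3, h4⟩ := hu2 (R m)
      have h5 := hUcd (cK z) _ h3.2.1 _ h4.2.1
      rw [h.cK_p, h.cK_p, hRc] at h5
      have h6 := hδ1l (c (u (R m))) (c m)
      have h7 : Metric.infDist (c m) K ≤ Metric.infDist (c (u (R m))) K +
          dist (c m) (c (u (R m))) := Metric.infDist_le_infDist_add_dist
      have h8 := (abs_le.1 h6).2
      rw [dist_comm] at h8
      have h9 := (hδ1p (c m)).1
      linarith
  intro y
  by_cases hy : cK y ∈ K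
  · obtain ⟨z, hz⟩ := s2 (cK y)
    obtain ⟨x', hx'⟩ := hOV z
    refine ⟨cK ⁻¹' ((D'ᶜ ∩ {x | Metric.infDist x K < δ1 x / 4}) ∩ O2 (cK y)), ?_, i x', ?_⟩
    · apply IsOpen.mem_nhds
      · exact ((hD'.isOpen_compl.inter (isOpen_lt hinf (hδ1.div_const 4))).inter
          (hO2 _).1).preimage h.hcK
      · refine ⟨⟨fun h1 => Set.disjoint_left.1 hDK' h1 hy, ?_⟩, (hO2 _).2⟩
        show Metric.infDist (cK y) K < δ1 (cK y) / 4
        rw [Metric.infDist_zero_of_mem hy]
        have := (hδ1p (cK y)).1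
        positivity
    · rintro m ⟨⟨h1, h2⟩, h3⟩
      have h1' : c (u (R m)) ∉ D' := by
        have := h1
        rw [Set.mem_compl_iff] at this
        rwa [show cK (p ((R.trans u) m)) = c (u (R m)) from h.cK_p _] at this
      have h2' : Metric.infDist (c (u (R m))) K < δ1 (c (u (R m))) / 4 := by
        have h2'' : Metric.infDist (cK (p ((R.trans u) m))) K < δ1 (cK (p ((R.trans u) m))) / 4 :=
          h2
        rwa [show cK (p ((R.trans u) m)) = c (u (R m)) from h.cK_p _] at h2''
      have h3' : c (u (R m)) ∈ O2 (cK y) := by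
        rwa [show cK (p ((R.trans u) m)) = c (u (R m)) from h.cK_p _] at h3
      have hlev := claim m h1' h2'
      obtain ⟨z', h4, h5⟩ := hu2 (R m)
      have h6 : c m ∈ O2 (cK z') := by
        have := h4.2.2
        rw [Set.mem_preimage, h.cK_p, hRc] at this
        exact this
      have h7 : c (u (R m)) ∈ O2 (cK z') := by
        have := h5.2.2
        rw [Set.mem_preimage, h.cK_p] at this
        exact this
      have h8 : c m ∈ O z := hz _ ⟨_, h3', h7⟩ h6
      exact hx' m h8 (by have := hε0 (c m); linarith)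
  · obtain ⟨m0, rfl⟩ := h.surj y
    rw [h.cK_p] at hy
    set m1 := (R.trans u).symm m0 with hm1
    obtain ⟨V', h1, h2⟩ := h.off_K m0 hy ((R.trans u) '' V m1) (by
      have := (R.trans u).isOpenMap.image_mem_nhds ((hV m1).1.mem_nhds (hV m1).2)
      rwa [hm1, Homeomorph.apply_symm_apply] at this)
    refine ⟨V', h1, m1, ?_⟩
    intro m hm
    obtain ⟨m', hm', he⟩ := h2 hm
    rwa [(R.trans u).injective he] at hm'

end Pool.Agent.Tor
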