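import Pool.Agent.Lib.Tor.Polish
import Pool.Agent.Lib.Tor.Covers

/-! MODULE Tor.KSet (1.2 h): coded operators: topological versus metric form, closed copies of `E`. -/

open Set Topology Filter

namespace Pool.Agent.Tor

/-- PROOF: clear (`dist <= t` gives the equivalence of the limits). -/
theorem CodedM.coded {X : Type} [MetricSpace X] {Om : Set X} (h : CodedM X Om) : Coded X Om := by
  obtain ⟨N, hN, hd, hO, hR⟩ := h
  refine ⟨N, hN, ?_, hO, hR⟩
  intro x t e y ht
  have h1 : Tendsto (fun k => ((t k : I) : ℝ)) atTop (𝓝 0) := by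
    have := (continuous_subtype_val.tendsto (0 : I)).comp ht
    simpa [Function.comp_def] using this
  have h2 : Tendsto (fun k => dist (x k) (N (x k, t k, e k))) atTop (𝓝 0) := by
    refine squeeze_zero (fun _ => dist_nonneg) (fun k => ?_) h1
    rw [dist_comm]
    exact hd _ _ _
  exact tendsto_iff_of_dist h2

namespace KSetAux

/-- a sequence of positive reals which is not bounded below has a subsequence tending to zero -/
lemma bdd_or {a : ℕ → ℝ} (ha : ∀ k, 0 < a k) (h : ¬ ∃ σ > 0, ∀ᶠ k in atTop, σ ≤ a k) :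
    ∃ φ : ℕ → ℕ, StrictMono φ ∧ Tendsto (fun k => a (φ k)) atTop (𝓝 0) := by
  have h1 : ∀ n : ℕ, ∃ᶠ k in atTop, a k < (1 / 2) ^ n := by
    intro n
    by_contra hcon
    apply h
    refine ⟨(1 / 2) ^ n, by positivity, ?_⟩
    rw [not_frequently] at hcon
    exact hcon.mono fun k hk => not_lt.1 hk
  obtain ⟨φ, hφ, hφ2⟩ := extraction_forall_of_frequently h1
  refine ⟨φ, hφ, squeeze_zero (fun k => (ha _).le) (fun k => (hφ2 k).le) ?_⟩
  exact tendsto_pow_atTop_nhds_zero_of_lt_one (by norm_num) (by norm_num)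

/-- reading along eventually bounded parameters -/
lemma reads_ev {X : Type} [TopologicalSpace X] {N : X × I × W → X} (hR : Reads N) (x : ℕ → X)
    (t : ℕ → I) (e : ℕ → W) (τ : ℝ) (y : X) (hτ : 0 < τ) (ht : ∀ᶠ k in atTop, τ ≤ t k)
    (hy : Tendsto (fun k => N (x k, t k, e k)) atTop (𝓝 y)) :
    ∃ e' : W, Tendsto e atTop (𝓝 e') := by
  obtain ⟨K, hK⟩ := eventually_atTop.1 ht
  obtain ⟨e', he'⟩ := hR (fun k => x (k + K)) (fun k => t (k + K)) (fun k => e (k + K)) τ y hτ
    (fun k => hK _ (Nat.le_add_left _ _)) (hy.comp (tendsto_add_atTop_nat K))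
  exact ⟨e', (tendsto_add_atTop_iff_nat K).1 he'⟩

lemma sub_tendsto {φ : ℕ → ℕ} (hφ : StrictMono φ) : Tendsto φ atTop atTop := hφ.tendsto_atTop

section metric

variable {X : Type} [MetricSpace X] {N : X × I × W → X}

lemma unif (h2 : ∀ (x : ℕ → X) (t : ℕ → I) (e : ℕ → W) (y : X), Tendsto t atTop (𝓝 0) →
      (Tendsto x atTop (𝓝 y) ↔ Tendsto (fun k => N (x k, t k, e k)) atTop (𝓝 y)))
    (x : X) {r : ℝ} (hr : 0 < r) :
    ∃ O ∈ 𝓝 x, ∃ δ : ℝ, 0 < δ ∧ ∀ x' ∈ O, ∀ s : I, (s : ℝ) < δ → ∀ e,
      dist (N (x', s, e)) x' < r := by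
  by_contra hcon
  push Not at hcon
  have h1 : ∀ k : ℕ, ∃ x' ∈ Metric.ball x ((1 / 2) ^ k), ∃ s : I, (s : ℝ) < (1 / 2) ^ k ∧ ∃ e,
      r ≤ dist (N (x', s, e)) x' := fun k =>
    hcon _ (Metric.ball_mem_nhds x (by positivity)) _ (by positivity)
  choose x' hx' s hs e he using h1
  have hpow : Tendsto (fun k : ℕ => ((1:ℝ) / 2) ^ k) atTop (𝓝 0) :=
    tendsto_pow_atTop_nhds_zero_of_lt_one (by norm_num) (by norm_num)
  have hxt : Tendsto x' atTop (𝓝 x) := by
    rw [tendsto_iff_dist_tendsto_zero]
    exact squeeze_zero (fun _ => dist_nonneg) (fun k => (Metric.mem_ball.1 (hx' k)).le) hpow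
  have hst : Tendsto s atTop (𝓝 0) := by
    rw [tendsto_subtype_rng]
    exact squeeze_zero (fun k => (s k).2.1) (fun k => (hs k).le) hpow
  have h3 := (h2 x' s e x hst).1 hxt
  have h4 : Tendsto (fun k => dist (N (x' k, s k, e k)) (x' k)) atTop (𝓝 0) := by
    have := h3.dist hxt
    rwa [dist_self] at this
  exact absurd (ge_of_tendsto' h4 he) (not_le.2 hr)

end metric

end KSetAux

open KSetAux

/-- PROOF. By the second property of `Coded`, for every `x` and `r > 0` there are a neighbourhood of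
`x` and `de > 0` such that `dist (N (x',s,e)) x' < r` for all `x'` in it, `s < de` and all `e`
(sequences). `exists_below` on `X x (0,1]` gives a continuous `g (x,t)`, `0 < g <= t`, with
`dist (N (x,s,e)) x <= t` for all `s <= g (x,t)`; extend by `g (x,0) = 0`. `N' (x,t,e) =
N (x, g (x,t), e)`. Reading: if `t_k >= tau` and `N' (x_k,t_k,e_k) -> y` then `g (x_k,t_k)` is bounded
below: along a subsequence with `g -> 0` the second property gives `x_k -> y`, and (compactness of
`[tau,1]`) `t_k -> t' >= tau`, so `g (x_k,t_k) -> g (y,t') > 0`. -/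
theorem Coded.metric {X : Type} [MetricSpace X] {Om : Set X} (h : Coded X Om) : CodedM X Om := by
  classical
  obtain ⟨N, hN, h2, hO, hR⟩ := h
  -- the function `g`
  let Z : Type := {z : X × I // 0 < z.2}
  obtain ⟨ε, hεc, hεp, hε⟩ := exists_below (Z := Z)
    (fun z r => ∀ s : I, (s : ℝ) ≤ r → ∀ e, dist (N (z.1.1, s, e)) z.1.1 ≤ (z.1.2 : ℝ))
    (fun z r s _ hrs hs u hu => hs u (hu.trans hrs)) (by
      rintro ⟨⟨x, t⟩, ht⟩
      have ht' : (0 : ℝ) < t := ht
      obtain ⟨O, hOx, δ, hδ, hh⟩ := unif h2 x (show (0 : ℝ) < t / 2 by linarith)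
      refine ⟨δ / 2, by linarith, ?_⟩
      have c1 : Continuous (fun z : Z => z.1.1) := continuous_fst.comp continuous_subtype_val
      have c2 : Continuous (fun z : Z => (z.1.2 : ℝ)) :=
        continuous_subtype_val.comp (continuous_snd.comp continuous_subtype_val)
      have e1 : ∀ᶠ z : Z in 𝓝 (⟨(x, t), ht⟩ : Z), z.1.1 ∈ O :=
        c1.continuousAt.eventually_mem hOx
      have e2 : ∀ᶠ z : Z in 𝓝 (⟨(x, t), ht⟩ : Z), (t : ℝ) / 2 < z.1.2 :=
        c2.continuousAt.eventually_const_lt (show (t : ℝ) / 2 < t by linarith)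
      filter_upwards [e1, e2] with z hz1 hz2
      intro s hs e
      exact ((hh _ hz1 s (by linarith) e).trans hz2).le)
  let g : X × I → I := fun z => if hz : 0 < z.2 then
    ⟨min (z.2 : ℝ) (ε ⟨z, hz⟩), le_min z.2.2.1 (hεp _).1.le, (min_le_left _ _).trans z.2.2.2⟩ else 0
  have g_le : ∀ z, (g z : ℝ) ≤ z.2 := by
    intro z
    by_cases hz : 0 < z.2
    · simp only [g, dif_pos hz]
      exact min_le_left _ _
    · simp only [g, dif_neg hz]
      exact z.2.2.1
  have g_pos : ∀ z : X × I, 0 < z.2 → 0 < g z := by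
    intro z hz
    simp only [g, dif_pos hz]
    exact Subtype.mk_lt_mk.2 (lt_min (show (0:ℝ) < z.2 from hz) (hεp _).1)
  have g_dist : ∀ (z : X × I), 0 < z.2 → ∀ e, dist (N (z.1, g z, e)) z.1 ≤ (z.2 : ℝ) := by
    intro z hz e
    refine hε ⟨z, hz⟩ (g z) ?_ e
    simp only [g, dif_pos hz]
    exact min_le_right _ _
  have g_cont : Continuous g := by
    rw [continuous_iff_continuousAt]
    intro z
    by_cases hz : 0 < z.2
    · have hop : IsOpen {z : X × I | 0 < z.2} := isOpen_lt continuous_const continuous_snd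
      have h1 : ContinuousAt (g ∘ (Subtype.val : Z → X × I)) ⟨z, hz⟩ := by
        apply Continuous.continuousAt
        have e : g ∘ (Subtype.val : Z → X × I) = fun z : Z =>
            (⟨min (z.1.2 : ℝ) (ε z), le_min z.1.2.2.1 (hεp _).1.le,
              (min_le_left _ _).trans z.1.2.2.2⟩ : I) := by
          funext w
          simp only [Function.comp, g, dif_pos w.2]
        rw [e]
        refine Continuous.subtype_mk ?_ _
        exact (continuous_subtype_val.comp (continuous_snd.comp continuous_subtype_val)).min hεc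
      exact (hop.isOpenEmbedding_subtypeVal.continuousAt_iff (x := (⟨z, hz⟩ : Z))).1 h1
    · have hz0 : z.2 = 0 := le_antisymm (not_lt.1 hz) z.2.2.1
      have e : g z = 0 := by simp only [g, dif_neg hz]
      rw [ContinuousAt, e, tendsto_subtype_rng]
      have h1 : Tendsto (fun z : X × I => (z.2 : ℝ)) (𝓝 z) (𝓝 0) := by
        have : Continuous (fun z : X × I => (z.2 : ℝ)) := by fun_prop
        have := this.tendsto z
        rw [hz0] at this
        exact this
      exact squeeze_zero (fun w => (g w).2.1) g_le h1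
  have N0 : ∀ x e, N (x, 0, e) = x := by
    intro x e
    have := (h2 (fun _ => x) (fun _ => 0) (fun _ => e) x tendsto_const_nhds).1 tendsto_const_nhds
    exact tendsto_nhds_unique tendsto_const_nhds this
  refine ⟨fun z => N (z.1, g (z.1, z.2.1), z.2.2), by fun_prop, ?_, ?_, ?_⟩
  · intro x t e
    by_cases ht : 0 < t
    · exact g_dist (x, t) ht e
    · have ht0 : t = 0 := le_antisymm (not_lt.1 ht) t.2.1
      have e0 : g (x, t) = 0 := by simp only [g, dif_neg ht]
      simp only [e0, N0, dist_self]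
      exact t.2.1
  · intro x t e ht
    exact hO _ _ _ (g_pos (x, t) ht)
  · intro x t e τ y hτ ht hy
    have hgp : ∀ k, (0 : ℝ) < g (x k, t k) := fun k =>
      g_pos (x k, t k) (show (0:ℝ) < t k from lt_of_lt_of_le hτ (ht k))
    have hb : ∃ σ > 0, ∀ᶠ k in atTop, σ ≤ (g (x k, t k) : ℝ) := by
      by_contra hcon
      obtain ⟨φ, hφ, hφ0⟩ := bdd_or hgp hcon
      obtain ⟨t', ψ, hψ, hψt⟩ := CompactSpace.tendsto_subseq (fun k => t (φ k))
      have hχ : Tendsto (fun k => φ (ψ k)) atTop atTop := hφ.tendsto_atTop.comp hψ.tendsto_atTop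
      have a1 : Tendsto (fun k => g (x (φ (ψ k)), t (φ (ψ k)))) atTop (𝓝 0) := by
        rw [tendsto_subtype_rng]
        exact hφ0.comp hψ.tendsto_atTop
      have a2 : Tendsto (fun k => x (φ (ψ k))) atTop (𝓝 y) :=
        (h2 _ _ (fun k => e (φ (ψ k))) y a1).2 (hy.comp hχ)
      have a3 : Tendsto (fun k => g (x (φ (ψ k)), t (φ (ψ k)))) atTop (𝓝 (g (y, t'))) :=
        (g_cont.tendsto _).comp (a2.prodMk_nhds hψt)
      have a4 := tendsto_nhds_unique a1 a3
      have a5 : (τ : ℝ) ≤ t' := by
        have := (continuous_subtype_val.tendsto t').comp hψt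
        exact ge_of_tendsto' this fun k => ht _
      have a6 : 0 < g (y, t') := g_pos (y, t') (show (0:ℝ) < t' from lt_of_lt_of_le hτ a5)
      rw [← a4] at a6
      exact lt_irrefl _ a6
    obtain ⟨σ, hσ, hσ2⟩ := hb
    exact reads_ev hR x (fun k => g (x k, t k)) e σ y hσ hσ2 hy

/-- transport -/
theorem Coded.homeo {X Y : Type} [TopologicalSpace X] [TopologicalSpace Y] {Om : Set X}
    (h : Coded X Om) (e : X ≃ₜ Y) : Coded Y (e '' Om) := by
  obtain ⟨N, hN, h2, hO, hR⟩ := h
  refine ⟨fun z => e (N (e.symm z.1, z.2.1, z.2.2)), ?_, ?_, ?_, ?_⟩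
  · have h1 := e.symm.continuous
    have h3 := e.continuous
    fun_prop
  · intro x t c y ht
    have h3 := h2 (fun k => e.symm (x k)) t c (e.symm y) ht
    have e1 : Tendsto x atTop (𝓝 y) ↔ Tendsto (fun k => e.symm (x k)) atTop (𝓝 (e.symm y)) :=
      e.symm.isInducing.tendsto_nhds_iff
    have e2 : Tendsto (fun k => e (N (e.symm (x k), t k, c k))) atTop (𝓝 y) ↔
        Tendsto (fun k => N (e.symm (x k), t k, c k)) atTop (𝓝 (e.symm y)) := by
      rw [e.symm.isInducing.tendsto_nhds_iff]
      simp only [Function.comp_def, Homeomorph.symm_apply_apply]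
    rw [e1, e2]
    exact h3
  · intro x t c ht
    exact ⟨_, hO _ _ _ ht, rfl⟩
  · intro x t c τ y hτ ht hy
    refine hR (fun k => e.symm (x k)) t c τ (e.symm y) hτ ht ?_
    have := (e.symm.continuous.tendsto y).comp hy
    refine this.congr fun k => ?_
    simp only [Function.comp_apply, Homeomorph.symm_apply_apply]

namespace KSetAux

/-- closed embeddings by sequences -/
theorem closed_emb {A Y : Type} [TopologicalSpace A] [T2Space A] [FirstCountableTopology A]
    [TopologicalSpace Y] [T2Space Y] [FirstCountableTopology Y] {j : A → Y} (hj : Continuous j)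
    (hc : ∀ (x : ℕ → A) (y : Y), Tendsto (fun k => j (x k)) atTop (𝓝 y) →
      ∃ a, Tendsto x atTop (𝓝 a)) :
    IsClosedEmbedding j := by
  refine IsClosedEmbedding.of_continuous_injective_isClosedMap hj ?_ ?_
  · intro a b hab
    let x : ℕ → A := fun k => if Even k then a else b
    have h1 : Tendsto (fun k => j (x k)) atTop (𝓝 (j a)) := by
      have : (fun k => j (x k)) = fun _ => j a := by
        funext k
        simp only [x]
        split_ifs
        · rfl
        · exact hab.symm
      rw [this]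
      exact tendsto_const_nhds
    obtain ⟨c, hcx⟩ := hc x (j a) h1
    have e1 : ∀ k : ℕ, x (2 * k) = a := fun k => if_pos (even_two_mul k)
    have e2 : ∀ k : ℕ, x (2 * k + 1) = b := fun k => if_neg (by simp)
    have t1 : Tendsto (fun k : ℕ => 2 * k) atTop atTop :=
      tendsto_atTop_mono (fun k => by simp only [id]; omega) tendsto_id
    have t2 : Tendsto (fun k : ℕ => 2 * k + 1) atTop atTop :=
      tendsto_atTop_mono (fun k => by simp only [id]; omega) tendsto_id
    have h3 : Tendsto (fun k : ℕ => x (2 * k)) atTop (𝓝 c) := hcx.comp t1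
    have h4 : Tendsto (fun k : ℕ => x (2 * k + 1)) atTop (𝓝 c) := hcx.comp t2
    simp only [e1] at h3
    simp only [e2] at h4
    have h5 := tendsto_nhds_unique h3 tendsto_const_nhds
    have h6 := tendsto_nhds_unique h4 tendsto_const_nhds
    rw [← h5, ← h6]
  · intro C hC
    rw [← isSeqClosed_iff_isClosed]
    intro y z hy hz
    choose x hx using hy
    have h1 : Tendsto (fun k => j (x k)) atTop (𝓝 z) := by
      have : (fun k => j (x k)) = y := funext fun k => (hx k).2
      rw [this]
      exact hz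
    obtain ⟨a, ha⟩ := hc x z h1
    refine ⟨a, hC.mem_of_tendsto ha (Eventually.of_forall fun k => (hx k).1), ?_⟩
    exact tendsto_nhds_unique ((hj.tendsto a).comp ha) h1

lemma bdd_param {X : Type} [MetricSpace X] {ε : X → ℝ} (hε : Continuous ε) (hp : ∀ x, 0 < ε x)
    {x z : ℕ → X} {y : X} (hd : ∀ k, dist (z k) (x k) ≤ ε (x k)) (hz : Tendsto z atTop (𝓝 y)) :
    ∃ σ > 0, ∀ᶠ k in atTop, σ ≤ ε (x k) := by
  by_contra hcon
  obtain ⟨φ, hφ, hφ0⟩ := bdd_or (fun k => hp (x k)) hcon
  have h1 : Tendsto (fun k => dist (z (φ k)) (x (φ k))) atTop (𝓝 0) :=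
    squeeze_zero (fun _ => dist_nonneg) (fun k => hd _) hφ0
  have h2 : Tendsto (fun k => x (φ k)) atTop (𝓝 y) :=
    (tendsto_iff_of_dist h1).1 (hz.comp hφ.tendsto_atTop)
  have h3 : Tendsto (fun k => ε (x (φ k))) atTop (𝓝 (ε y)) := (hε.tendsto y).comp h2
  have h4 := tendsto_nhds_unique h3 hφ0
  exact absurd h4 (hp y).ne'

/-- the code -/
def code (w : W) : W := fun j => Nat.casesOn j ⟨1, zero_le_one⟩ w

lemma code_zero (w : W) : code w 0 = ⟨1, zero_le_one⟩ := rfl

lemma code_succ (w : W) (j : ℕ) : code w (j + 1) = w j := rfl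

lemma code_cont : Continuous code := by
  refine continuous_pi fun j => ?_
  cases j with
  | zero => exact continuous_const
  | succ j => exact continuous_apply j

end KSetAux

/-- PROOF. `jW : E -> W` a closed embedding, code `e(n)_0 = 1`, `e(n)_(j+1) = jW(n)_j`;
`eps : X -> (0,1]` continuous with `dist y x < 2 eps x -> U`-close; `be n = N (q n, eps (q n), e n)`. If
`be (n_k) -> y`: were `eps (q n_k) -> 0` along a subsequence, then `q n_k -> y` and
`eps (q n_k) -> eps y > 0`; so it is bounded below and by `Reads` the codes converge, hence `n_k`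
converges. Injective: apply `Reads` to the alternating sequence. `kap (x,t) = N (x,t,0)`. It misses
`K = range be` for `t > 0`, and limits of `kap (x_k,t_k)`, `t_k >= tau`, are not in `K`: alternate with
the constant sequence `(q n, eps (q n), e n)` and look at the code coordinate `0` (values `0` and
`1`). -/
theorem exists_kset {X : Type} [MetricSpace X] (h : CodedM X univ) (q : E → X)
    (hq : Continuous q) (U : X → Set X) (hU : Cov U) :
    ∃ β : E → X, IsClosedEmbedding β ∧ Near U β q ∧ StrongK (range β) := by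
  classical
  obtain ⟨N, hN, hd, _, hR⟩ := h
  obtain ⟨jW, hjW⟩ := exists_emb_W E
  obtain ⟨ε, hεc, hεp, _, hεb⟩ := exists_eps hU
  have hp2 : ∀ x, 0 < ε x / 2 ∧ ε x / 2 ≤ 1 := fun x => by
    have := hεp x
    constructor <;> linarith [this.1, this.2]
  let δ : X → I := fun x => ⟨ε x / 2, (hp2 x).1.le, (hp2 x).2⟩
  have hδc : Continuous δ := (hεc.div_const 2).subtype_mk _
  let β : E → X := fun n => N (q n, δ (q n), code (jW n))
  have hcodec : Continuous (fun n => code (jW n)) := code_cont.comp hjW.continuous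
  have hβc : Continuous β := by
    have h1 : Continuous (fun n => δ (q n)) := hδc.comp hq
    exact hN.comp (hq.prodMk (h1.prodMk hcodec))
  have hβd : ∀ n, dist (β n) (q n) ≤ ε (q n) / 2 := fun n => hd _ _ _
  have hemb : IsClosedEmbedding β := by
    apply closed_emb hβc
    intro x y hy
    obtain ⟨σ, hσ, hσ2⟩ := bdd_param (ε := fun x => ε x / 2) (hεc.div_const 2) (fun x => (hp2 x).1)
      (x := fun k => q (x k)) (z := fun k => β (x k)) (fun k => hβd (x k)) hy
    obtain ⟨e', he'⟩ := reads_ev hR (fun k => q (x k)) (fun k => δ (q (x k)))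
      (fun k => code (jW (x k))) σ y hσ hσ2 hy
    have h1 : Tendsto (fun k => jW (x k)) atTop (𝓝 fun j => e' (j + 1)) := by
      rw [tendsto_pi_nhds] at he' ⊢
      intro j
      exact he' (j + 1)
    have h2 : (fun j => e' (j + 1)) ∈ range jW :=
      hjW.isClosed_range.mem_of_tendsto h1 (Eventually.of_forall fun k => ⟨x k, rfl⟩)
    obtain ⟨a, ha⟩ := h2
    refine ⟨a, ?_⟩
    rw [← ha] at h1
    exact hjW.isInducing.tendsto_nhds_iff.2 h1
  refine ⟨β, hemb, ?_, hemb.isClosed_range, ?_⟩
  · intro n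
    obtain ⟨z, hz⟩ := hεb (q n)
    refine ⟨z, hz ?_, hz (Metric.mem_ball_self (hεp _).1)⟩
    rw [Metric.mem_ball]
    exact (hβd n).trans_lt (by linarith [(hεp (q n)).1])
  · have key : ∀ (x : ℕ → X) (t : ℕ → I) (τ : ℝ) (y : X), 0 < τ → (∀ k, τ ≤ t k) →
        Tendsto (fun k => N (x k, t k, fun _ => ⟨0, le_rfl⟩)) atTop (𝓝 y) → y ∉ range β := by
      rintro x t τ y hτ ht hy ⟨n, rfl⟩
      have h1 : Tendsto (fun k : ℕ => N ((if Even k then x k else q n),
          (if Even k then t k else δ (q n)),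
          (if Even k then (fun _ => ⟨0, le_rfl⟩ : W) else code (jW n)))) atTop (𝓝 (β n)) := by
        have h2 : Tendsto (fun k : ℕ => if Even k then N (x k, t k, fun _ => ⟨0, le_rfl⟩) else β n)
            atTop (𝓝 (β n)) := Tendsto.if' hy tendsto_const_nhds
        refine h2.congr fun k => ?_
        split_ifs <;> rfl
      obtain ⟨e', he'⟩ := hR _ _ _ (min τ (ε (q n) / 2)) (β n) (lt_min hτ (hp2 _).1) (by
        intro k
        split_ifs
        · exact (min_le_left _ _).trans (ht k)
        · exact min_le_right _ _) h1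
      have h3 : Tendsto (fun k : ℕ => (((if Even k then (fun _ => ⟨0, le_rfl⟩ : W)
          else code (jW n)) 0 : {r : ℝ // 0 ≤ r}) : ℝ)) atTop (𝓝 (e' 0 : ℝ)) := by
        rw [tendsto_pi_nhds] at he'
        exact (continuous_subtype_val.tendsto _).comp (he' 0)
      have t1 : Tendsto (fun k : ℕ => 2 * k) atTop atTop :=
        tendsto_atTop_mono (fun k => by simp only [id]; omega) tendsto_id
      have t2 : Tendsto (fun k : ℕ => 2 * k + 1) atTop atTop :=
        tendsto_atTop_mono (fun k => by simp only [id]; omega) tendsto_id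
      have h4 := h3.comp t1
      have h5 := h3.comp t2
      have e4 : ((fun k : ℕ => (((if Even k then (fun _ => ⟨0, le_rfl⟩ : W)
          else code (jW n)) 0 : {r : ℝ // 0 ≤ r}) : ℝ)) ∘ fun k => 2 * k) = fun _ => (0:ℝ) := by
        funext k
        simp only [Function.comp_apply, if_pos (even_two_mul k)]
      have e5 : ((fun k : ℕ => (((if Even k then (fun _ => ⟨0, le_rfl⟩ : W)
          else code (jW n)) 0 : {r : ℝ // 0 ≤ r}) : ℝ)) ∘ fun k => 2 * k + 1) =
            fun _ => (1:ℝ) := by
        funext k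
        simp only [Function.comp_apply, if_neg (show ¬ Even (2 * k + 1) by simp), code_zero]
      rw [e4] at h4
      rw [e5] at h5
      have h6 := tendsto_nhds_unique h4 tendsto_const_nhds
      have h7 := tendsto_nhds_unique h5 tendsto_const_nhds
      rw [h6] at h7
      exact zero_ne_one h7
    refine ⟨fun z => N (z.1, z.2, fun _ => ⟨0, le_rfl⟩), ?_, fun x t => hd _ _ _, ?_, key⟩
    · exact hN.comp (continuous_fst.prodMk (continuous_snd.prodMk continuous_const))
    · intro x t ht
      exact key (fun _ => x) (fun _ => t) t _ ht (fun _ => le_rfl) tendsto_const_nhds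

end Pool.Agent.Tor
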