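import Pool.Agent.Lib.Tor.Basic

/-! MODULE Tor.VertFun (1.5 h): the vertical reparametrisation (pure real analysis). -/

open Set Topology Filter

namespace Pool.Agent.Tor

namespace VertFunAux

/-- clamping to `[0,1]` -/
noncomputable def cl (x : ℝ) : ℝ := max 0 (min 1 x)

lemma cl_nonneg (x : ℝ) : 0 ≤ cl x := le_max_left _ _

lemma cl_le_one (x : ℝ) : cl x ≤ 1 := max_le zero_le_one (min_le_left _ _)

lemma cl_mono {x y : ℝ} (h : x ≤ y) : cl x ≤ cl y := max_le_max le_rfl (min_le_min le_rfl h)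

lemma cl_cont : Continuous cl := continuous_const.max (continuous_const.min continuous_id)

lemma cl_zero {x : ℝ} (h : x ≤ 0) : cl x = 0 := by
  unfold cl
  rw [max_eq_left]
  exact (min_le_right _ _).trans h

lemma cl_one {x : ℝ} (h : 1 ≤ x) : cl x = 1 := by
  unfold cl
  rw [min_eq_left h, max_eq_right zero_le_one]

section

variable (a : ℕ → E → ℝ)

/-- one step -/
noncomputable def c (i : ℕ) (n : E) (t : ℝ) : ℝ := cl ((t - a i n) / (a (i + 1) n - a i n))

/-- number of levels passed -/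
noncomputable def ell (n : E) (t : ℝ) : ℝ := ∑' i, c a i n t

variable (ha : ∀ i, Continuous (a i))
    (ha1 : ∀ i n, a i n < a (i + 1) n ∧ a (i + 1) n < 1)
    (ha2 : ∀ i n, 1 - (1 / 2 : ℝ) ^ i ≤ a i n)

include ha ha1 in
lemma c_cont (i : ℕ) : Continuous (fun p : E × ℝ => c a i p.1 p.2) := by
  apply cl_cont.comp
  apply Continuous.div
  · exact continuous_snd.sub ((ha i).comp continuous_fst)
  · exact ((ha (i + 1)).comp continuous_fst).sub ((ha i).comp continuous_fst)
  · intro p
    exact (sub_pos.2 (ha1 i p.1).1).ne'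

include ha1 in
lemma a_mono (n : E) : StrictMono (fun i => a i n) := strictMono_nat_of_lt_succ (fun i => (ha1 i n).1)

include ha1 in
lemma a_lt_one (i : ℕ) (n : E) : a i n < 1 := (ha1 i n).1.trans (ha1 i n).2

include ha1 in
lemma c_zero {i j : ℕ} {n : E} {t : ℝ} (h : t ≤ a j n) (hij : j ≤ i) : c a i n t = 0 := by
  apply cl_zero
  apply div_nonpos_of_nonpos_of_nonneg
  · have h2 : a j n ≤ a i n := (a_mono a ha1 n).monotone hij
    linarith
  · exact (sub_pos.2 (ha1 i n).1).le

include ha1 in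
lemma c_one {i j : ℕ} {n : E} {t : ℝ} (h : a j n ≤ t) (hij : i < j) : c a i n t = 1 := by
  apply cl_one
  rw [one_le_div (sub_pos.2 (ha1 i n).1)]
  have h2 : a (i + 1) n ≤ a j n := (a_mono a ha1 n).monotone (Nat.succ_le_of_lt hij)
  linarith

include ha1 in
lemma ell_eq {j : ℕ} {n : E} {t : ℝ} (h : t ≤ a j n) :
    ell a n t = ∑ i ∈ Finset.range j, c a i n t := by
  apply tsum_eq_sum
  intro i hi
  exact c_zero a ha1 h (by simpa using hi)

include ha2 in
lemma exists_a (n : E) {t : ℝ} (ht : t < 1) : ∃ j, t < a j n := by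
  obtain ⟨j, hj⟩ := exists_pow_lt_of_lt_one (sub_pos.2 ht) (by norm_num : (1 / 2 : ℝ) < 1)
  exact ⟨j, by linarith [ha2 j n]⟩

include ha1 in
lemma ell_le {j : ℕ} {n : E} {t : ℝ} (h : t ≤ a j n) : ell a n t ≤ j := by
  rw [ell_eq a ha1 h]
  calc ∑ i ∈ Finset.range j, c a i n t ≤ ∑ i ∈ Finset.range j, (1 : ℝ) :=
        Finset.sum_le_sum (fun i _ => cl_le_one _)
    _ = j := by simp

include ha1 ha2 in
lemma le_ell {j : ℕ} {n : E} {t : ℝ} (h : a j n ≤ t) (ht : t < 1) : (j : ℝ) ≤ ell a n t := by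
  obtain ⟨k, hk⟩ := exists_a a ha2 n ht
  have hjk : j ≤ k := by
    have := (a_mono a ha1 n).lt_iff_lt.1 (h.trans_lt hk)
    exact this.le
  rw [ell_eq a ha1 hk.le]
  calc (j : ℝ) = ∑ i ∈ Finset.range j, (1 : ℝ) := by simp
    _ = ∑ i ∈ Finset.range j, c a i n t := Finset.sum_congr rfl
        (fun i hi => (c_one a ha1 h (by simpa using hi)).symm)
    _ ≤ ∑ i ∈ Finset.range k, c a i n t := Finset.sum_le_sum_of_subset_of_nonneg
        (Finset.range_mono hjk) (fun _ _ _ => cl_nonneg _)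

include ha1 ha2 in
lemma ell_mono {n : E} {s t : ℝ} (h : s ≤ t) (ht : t < 1) : ell a n s ≤ ell a n t := by
  obtain ⟨k, hk⟩ := exists_a a ha2 n ht
  rw [ell_eq a ha1 hk.le, ell_eq a ha1 (h.trans hk.le)]
  apply Finset.sum_le_sum
  intro i _
  apply cl_mono
  exact div_le_div_of_nonneg_right (by linarith) (sub_pos.2 (ha1 i n).1).le

lemma ell_nonneg (n : E) (t : ℝ) : 0 ≤ ell a n t := tsum_nonneg (fun _ => cl_nonneg _)

include ha ha1 ha2 in
lemma ell_cont (n : E) {t : ℝ} (ht : t < 1) : ContinuousAt (fun p : E × ℝ => ell a p.1 p.2) (n, t) := by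
  obtain ⟨k, hk⟩ := exists_a a ha2 n ht
  have h1 : ContinuousAt (fun p : E × ℝ => ∑ i ∈ Finset.range k, c a i p.1 p.2) (n, t) :=
    (continuous_finsetSum _ (fun i _ => c_cont a ha ha1 i)).continuousAt
  apply h1.congr
  have h2 : ∀ᶠ p : E × ℝ in 𝓝 (n, t), p.2 < a k p.1 :=
    (isOpen_lt continuous_snd ((ha k).comp continuous_fst)).mem_nhds hk
  filter_upwards [h2] with p hp
  exact (ell_eq a ha1 hp.le).symm

end

/-- inverse of a continuous family of increasing homeomorphisms of the interval -/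
lemma exists_inv (f : E × I → I) (hf : Continuous f) (h0 : ∀ n, f (n, 0) = 0)
    (h1 : ∀ n, f (n, 1) = 1) (hm : ∀ n, StrictMono (fun t => f (n, t))) :
    ∃ g : E × I → I, Continuous g ∧ (∀ n t, g (n, f (n, t)) = t) ∧ ∀ n t, f (n, g (n, t)) = t := by
  have hs : ∀ n s, ∃ t, f (n, t) = s := by
    intro n s
    have hc : Continuous (fun t => f (n, t)) := hf.comp (Continuous.prodMk_right n)
    have := intermediate_value_univ (0 : I) 1 hc
    rw [h0, h1] at this
    exact this ⟨s.2.1, s.2.2⟩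
  choose g hg using hs
  refine ⟨fun p => g p.1 p.2, ?_, ?_, fun n t => hg n t⟩
  · rw [continuous_iff_continuousAt]
    rintro ⟨n, s⟩
    rw [ContinuousAt, tendsto_order]
    constructor
    · intro b hb
      have : f (n, b) < s := by
        have := hm n hb
        simp only at this
        rwa [hg] at this
      have h2 : ∀ᶠ p : E × I in 𝓝 (n, s), f (p.1, b) < p.2 :=
        (isOpen_lt (hf.comp (continuous_fst.prodMk continuous_const)) continuous_snd).mem_nhds this
      filter_upwards [h2] with p hp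
      rw [← hg p.1 p.2] at hp
      exact (hm p.1).lt_iff_lt.1 hp
    · intro b hb
      have : s < f (n, b) := by
        have := hm n hb
        simp only at this
        rwa [hg] at this
      have h2 : ∀ᶠ p : E × I in 𝓝 (n, s), p.2 < f (p.1, b) :=
        (isOpen_lt continuous_snd (hf.comp (continuous_fst.prodMk continuous_const))).mem_nhds this
      filter_upwards [h2] with p hp
      rw [← hg p.1 p.2] at hp
      exact (hm p.1).lt_iff_lt.1 hp
  · intro n t
    exact (hm n).injective (hg n _)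

/-- `exp (-x)` is `1`-Lipschitz on `[0, oo)` -/
lemma exp_lip {x y : ℝ} (hx : 0 ≤ x) (hy : 0 ≤ y) : |Real.exp (-x) - Real.exp (-y)| ≤ |x - y| := by
  wlog h : x ≤ y generalizing x y
  · rw [abs_sub_comm, abs_sub_comm x y]
    exact this hy hx (le_of_not_ge h)
  have h1 : Real.exp (-y) ≤ Real.exp (-x) := Real.exp_le_exp.2 (by linarith)
  rw [abs_of_nonneg (by linarith), abs_sub_comm, abs_of_nonneg (by linarith)]
  have h2 : Real.exp (-y) = Real.exp (-x) * Real.exp (-(y - x)) := by
    rw [← Real.exp_add]; congr 1; ring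
  have h3 : 1 - (y - x) ≤ Real.exp (-(y - x)) := by
    have := Real.add_one_le_exp (-(y - x)); linarith
  have h4 : Real.exp (-x) ≤ 1 := Real.exp_le_one_iff.2 (by linarith)
  have h5 := Real.exp_pos (-x)
  have h6 : Real.exp (-x) * (1 - (y - x)) ≤ Real.exp (-x) * Real.exp (-(y - x)) :=
    mul_le_mul_of_nonneg_left h3 h5.le
  rw [h2]
  nlinarith

lemma exp_lip2 {k k' l m : ℝ} (hm : 0 < m) (hk : m ≤ k) (hk' : m ≤ k') (hl : 0 ≤ l) :
    |Real.exp (-(k' * l)) - Real.exp (-(k * l))| ≤ |k' - k| / m := by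
  have h1 : Real.exp (-(k' * l)) = Real.exp (-(m * l)) * Real.exp (-((k' - m) * l)) := by
    rw [← Real.exp_add]; congr 1; ring
  have h2 : Real.exp (-(k * l)) = Real.exp (-(m * l)) * Real.exp (-((k - m) * l)) := by
    rw [← Real.exp_add]; congr 1; ring
  rw [h1, h2, ← mul_sub, abs_mul, abs_of_pos (Real.exp_pos _)]
  have h3 := exp_lip (mul_nonneg (sub_nonneg.2 hk') hl) (mul_nonneg (sub_nonneg.2 hk) hl)
  have h4 : |(k' - m) * l - (k - m) * l| = |k' - k| * l := by
    rw [← sub_mul, abs_mul, abs_of_nonneg hl]; congr 2; ring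
  rw [h4] at h3
  have h5 : m * l * Real.exp (-(m * l)) ≤ 1 := by
    have h6 : m * l ≤ Real.exp (m * l) := by
      have := Real.add_one_le_exp (m * l); linarith
    rw [Real.exp_neg]
    calc m * l * (Real.exp (m * l))⁻¹ ≤ Real.exp (m * l) * (Real.exp (m * l))⁻¹ :=
          mul_le_mul_of_nonneg_right h6 (inv_nonneg.2 (Real.exp_pos _).le)
      _ = 1 := mul_inv_cancel₀ (Real.exp_pos _).ne'
  rw [le_div_iff₀ hm]
  calc Real.exp (-(m * l)) * |Real.exp (-((k' - m) * l)) - Real.exp (-((k - m) * l))| * m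
      ≤ Real.exp (-(m * l)) * (|k' - k| * l) * m := by
        apply mul_le_mul_of_nonneg_right _ hm.le
        exact mul_le_mul_of_nonneg_left h3 (Real.exp_pos _).le
    _ = |k' - k| * (m * l * Real.exp (-(m * l))) := by ring
    _ ≤ |k' - k| * 1 := mul_le_mul_of_nonneg_left h5 (abs_nonneg _)
    _ = |k' - k| := mul_one _

end VertFunAux

open VertFunAux in
/-- PROOF. For `t < 1` let `ell (n,t) = sum_i max 0 (min 1 ((t - a_i n) / (a_(i+1) n - a_i n)))`: a
locally finite sum (`a_i n >= 1 - 2^-i`), continuous, nondecreasing in `t`, `0` for `t <= a_0 n`, equal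
to `i` at `t = a_i n`, tending to `oo` as `t -> 1` locally uniformly in `n`. Put
`r' (n,t) = 1 - (1 - e0 n * t) exp (- ka n * ell (n,t))` for `t < 1` and `r' (n,1) = 1`. It is strictly
increasing in `t` from `0` to `1`, continuous on `E x I`; let `r (n,.)` be its inverse (continuous in
both variables because `r'` is continuous and strictly monotone in `t`, `I` compact). (3):
`|exp(-k' l') - exp(-k'' l'')| <= |l' - l''| k' + l'' |k' - k''| exp(- min k' k'' * l'')` and
`l exp (-k l) <= 1 / k`, all `ell` in `[i,i+2]`; `|e' t' - e'' t''| <= |e' - e''| + |t' - t''|`. -/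
theorem vert_fun (e0 ka : E → ℝ) (a : ℕ → E → ℝ) (he : Continuous e0) (hk : Continuous ka)
    (ha : ∀ i, Continuous (a i)) (he1 : ∀ n, 0 < e0 n ∧ e0 n ≤ 1 / 4)
    (hk1 : ∀ n, 0 < ka n ∧ ka n ≤ 1 / 4) (ha0 : ∀ n, 1 / 2 ≤ a 0 n)
    (ha1 : ∀ i n, a i n < a (i + 1) n ∧ a (i + 1) n < 1)
    (ha2 : ∀ i n, 1 - (1 / 2 : ℝ) ^ i ≤ a i n) :
    ∃ r r' : E × I → I, Continuous r ∧ Continuous r' ∧ (∀ n t, r (n, r' (n, t)) = t) ∧
      (∀ n t, r' (n, r (n, t)) = t) ∧ (∀ n, r' (n, 1) = 1) ∧
      (∀ n (t : I), (t : ℝ) ≤ a 0 n → (r' (n, t) : ℝ) = e0 n * t) ∧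
      (∀ n (t : I), e0 n * t ≤ (r' (n, t) : ℝ)) ∧
      (∀ i n (t : I), (t : ℝ) ≤ a i n → (r' (n, t) : ℝ) ≤ e0 n + i * ka n) ∧
      (∀ i n (t : I), a i n ≤ t → 1 - Real.exp (-(i * ka n)) ≤ (r' (n, t) : ℝ)) ∧
      ∀ i n n' (t t' : I), a i n ≤ t → (t : ℝ) ≤ a (i + 2) n → a i n' ≤ t' →
        (t' : ℝ) ≤ a (i + 2) n' → |ka n - ka n'| ≤ (ka n) ^ 2 / 8 →
        |e0 n - e0 n'| ≤ ka n / 8 → 1 - a 0 n ≤ ka n / 8 → 1 - a 0 n' ≤ ka n / 8 →
        |(r' (n, t) : ℝ) - r' (n', t')| ≤ 4 * ka n := by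
  classical
  -- the real valued function
  set g : E × ℝ → ℝ := fun p => if p.2 < 1 then
      1 - (1 - e0 p.1 * p.2) * Real.exp (-(ka p.1 * ell a p.1 p.2)) else 1 with hg
  have g_lt : ∀ n t, t < 1 → g (n, t) = 1 - (1 - e0 n * t) * Real.exp (-(ka n * ell a n t)) := by
    intro n t ht
    simp only [hg, if_pos ht]
  have g_one : ∀ n, g (n, 1) = 1 := by
    intro n
    simp only [hg, lt_irrefl, if_false]
  have het : ∀ n (t : ℝ), 0 ≤ t → t ≤ 1 → 0 < 1 - e0 n * t := by
    intro n t h0 h1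
    nlinarith [he1 n]
  have hex : ∀ n t, Real.exp (-(ka n * ell a n t)) ≤ 1 := by
    intro n t
    apply Real.exp_le_one_iff.2
    have := mul_nonneg (hk1 n).1.le (ell_nonneg a n t)
    linarith
  have hmem : ∀ n (t : I), g (n, t) ∈ Icc (0 : ℝ) 1 := by
    intro n t
    by_cases ht : (t : ℝ) < 1
    · rw [g_lt n t ht]
      have h1 := het n t t.2.1 t.2.2
      have h2 := Real.exp_pos (-(ka n * ell a n t))
      have h3 := hex n t
      have h4 : 0 ≤ e0 n * t := mul_nonneg (he1 n).1.le t.2.1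
      constructor
      · have : (1 - e0 n * t) * Real.exp (-(ka n * ell a n t)) ≤ 1 * 1 :=
          mul_le_mul (by linarith) h3 h2.le zero_le_one
        linarith
      · have := mul_pos h1 h2
        linarith
    · have : (t : ℝ) = 1 := le_antisymm t.2.2 (not_lt.1 ht)
      rw [this, g_one]
      exact ⟨zero_le_one, le_rfl⟩
  set r' : E × I → I := fun p => ⟨g (p.1, p.2), hmem p.1 p.2⟩ with hr'
  have r'_val : ∀ n (t : I), (r' (n, t) : ℝ) = g (n, t) := fun n t => rfl
  have hanti : ∀ n, StrictMono (fun t => r' (n, t)) := by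
    intro n s t hst
    have hst' : (s : ℝ) < t := hst
    show (r' (n, s) : ℝ) < r' (n, t)
    rw [r'_val, r'_val]
    have hs : (s : ℝ) < 1 := lt_of_lt_of_le hst' t.2.2
    rw [g_lt n s hs]
    have h1 := het n s s.2.1 s.2.2
    have h2 := Real.exp_pos (-(ka n * ell a n s))
    by_cases ht : (t : ℝ) < 1
    · rw [g_lt n t ht]
      have h3 := het n t t.2.1 t.2.2
      have h4 : Real.exp (-(ka n * ell a n t)) ≤ Real.exp (-(ka n * ell a n s)) := by
        apply Real.exp_le_exp.2
        have := mul_le_mul_of_nonneg_left (ell_mono a ha1 ha2 (n := n) hst'.le ht) (hk1 n).1.le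
        linarith
      have h5 : (1 - e0 n * t) * Real.exp (-(ka n * ell a n t)) ≤
          (1 - e0 n * t) * Real.exp (-(ka n * ell a n s)) := mul_le_mul_of_nonneg_left h4 h3.le
      have h6 : (1 - e0 n * t) * Real.exp (-(ka n * ell a n s)) <
          (1 - e0 n * s) * Real.exp (-(ka n * ell a n s)) := by
        apply mul_lt_mul_of_pos_right _ h2
        have := mul_lt_mul_of_pos_left hst' (he1 n).1
        linarith
      linarith
    · have : (t : ℝ) = 1 := le_antisymm t.2.2 (not_lt.1 ht)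
      rw [this, g_one]
      have := mul_pos h1 h2
      linarith
  have r0 : ∀ n, r' (n, 0) = 0 := by
    intro n
    apply Subtype.ext
    rw [r'_val]
    have h0 : ((0 : I) : ℝ) = 0 := rfl
    rw [h0, g_lt n 0 zero_lt_one]
    have : ell a n 0 = 0 := by
      rw [ell_eq a ha1 (j := 0) (by linarith [ha0 n])]
      simp
    rw [this]
    simp
  have r1 : ∀ n, r' (n, 1) = 1 := by
    intro n
    apply Subtype.ext
    rw [r'_val]
    exact g_one n
  have gcont : ∀ n (t : ℝ), t ≤ 1 → ContinuousAt g (n, t) := by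
    intro n t ht
    rcases ht.lt_or_eq with ht | ht
    · have h1 : ContinuousAt (fun p : E × ℝ =>
          1 - (1 - e0 p.1 * p.2) * Real.exp (-(ka p.1 * ell a p.1 p.2))) (n, t) := by
        have e1 : ContinuousAt (fun p : E × ℝ => ell a p.1 p.2) (n, t) := ell_cont a ha ha1 ha2 n ht
        have e2 : ContinuousAt (fun p : E × ℝ => ka p.1) (n, t) :=
          (hk.comp continuous_fst).continuousAt
        have e3 : ContinuousAt (fun p : E × ℝ => e0 p.1 * p.2) (n, t) :=
          ((he.comp continuous_fst).mul continuous_snd).continuousAt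
        exact continuousAt_const.sub ((continuousAt_const.sub e3).mul
          (Real.continuous_exp.continuousAt.comp (e2.mul e1).neg))
      apply h1.congr
      have h2 : ∀ᶠ p : E × ℝ in 𝓝 (n, t), p.2 < 1 :=
        (isOpen_lt continuous_snd continuous_const).mem_nhds ht
      filter_upwards [h2] with p hp
      simp only [hg, if_pos hp]
    · subst ht
      rw [ContinuousAt, g_one, Metric.tendsto_nhds]
      intro ε hε
      -- choose `N` with `exp (- N ka/2) < ε`
      obtain ⟨N, hN⟩ : ∃ N : ℕ, Real.exp (-(N * (ka n / 2))) < ε := by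
        have hlt : Real.exp (-(ka n / 2)) < 1 :=
          Real.exp_lt_one_iff.2 (by linarith [(hk1 n).1])
        obtain ⟨N, hN⟩ := exists_pow_lt_of_lt_one hε hlt
        refine ⟨N, ?_⟩
        rw [← Real.exp_nat_mul] at hN
        rwa [mul_neg] at hN
      have h1 : ∀ᶠ p : E × ℝ in 𝓝 (n, 1), a N p.1 < p.2 :=
        (isOpen_lt ((ha N).comp continuous_fst) continuous_snd).mem_nhds (a_lt_one a ha1 N n)
      have h2 : ∀ᶠ p : E × ℝ in 𝓝 (n, 1), ka n / 2 < ka p.1 :=
        (isOpen_lt continuous_const (hk.comp continuous_fst)).mem_nhds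
          (show ka n / 2 < ka n by linarith [(hk1 n).1])
      have h3 : ∀ᶠ p : E × ℝ in 𝓝 (n, 1), 0 < p.2 :=
        (isOpen_lt continuous_const continuous_snd).mem_nhds
          (show (0 : ℝ) < 1 from zero_lt_one)
      filter_upwards [h1, h2, h3] with p hp1 hp2 hp3
      by_cases hp : p.2 < 1
      · have e1 : g p = 1 - (1 - e0 p.1 * p.2) * Real.exp (-(ka p.1 * ell a p.1 p.2)) :=
          g_lt p.1 p.2 hp
        rw [Real.dist_eq, e1]
        have e2 := het p.1 p.2 hp3.le hp.le
        have e3 := Real.exp_pos (-(ka p.1 * ell a p.1 p.2))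
        have e4 : 1 - (1 - e0 p.1 * p.2) * Real.exp (-(ka p.1 * ell a p.1 p.2)) - 1 =
          -((1 - e0 p.1 * p.2) * Real.exp (-(ka p.1 * ell a p.1 p.2))) := by ring
        rw [e4, abs_neg, abs_of_pos (mul_pos e2 e3)]
        have e5 : Real.exp (-(ka p.1 * ell a p.1 p.2)) ≤ Real.exp (-(N * (ka n / 2))) := by
          apply Real.exp_le_exp.2
          have e6 := le_ell a ha1 ha2 hp1.le hp
          have e7 : (N : ℝ) * (ka n / 2) ≤ ell a p.1 p.2 * ka p.1 := by
            apply mul_le_mul e6 hp2.le (by linarith [(hk1 n).1]) (ell_nonneg a _ _)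
          linarith
        have e8 : 1 - e0 p.1 * p.2 ≤ 1 := by
          have := mul_nonneg (he1 p.1).1.le hp3.le
          linarith
        calc (1 - e0 p.1 * p.2) * Real.exp (-(ka p.1 * ell a p.1 p.2))
            ≤ 1 * Real.exp (-(N * (ka n / 2))) := mul_le_mul e8 e5 e3.le zero_le_one
          _ < ε := by rwa [one_mul]
      · have : g p = 1 := by simp only [hg, if_neg hp]
        rw [this, dist_self]
        exact hε
  have rcont : Continuous r' := by
    apply Continuous.subtype_mk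
    rw [continuous_iff_continuousAt]
    rintro ⟨n, t⟩
    have h1 : ContinuousAt (fun p : E × I => ((p.1, (p.2 : ℝ)) : E × ℝ)) (n, t) :=
      (continuous_fst.prodMk (continuous_subtype_val.comp continuous_snd)).continuousAt
    exact ContinuousAt.comp (g := g) (f := fun p : E × I => ((p.1, (p.2 : ℝ)) : E × ℝ))
      (x := (n, t)) (gcont n t t.2.2) h1
  obtain ⟨r, hr, hr1, hr2⟩ := exists_inv r' rcont r0 r1 hanti
  refine ⟨r, r', hr, rcont, hr1, hr2, r1, ?_, ?_, ?_, ?_, ?_⟩
  · intro n t ht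
    have ht1 : (t : ℝ) < 1 := lt_of_le_of_lt ht (a_lt_one a ha1 0 n)
    rw [r'_val, g_lt n t ht1]
    have : ell a n t = 0 := by
      rw [ell_eq a ha1 ht]
      simp
    rw [this]
    simp
  · intro n t
    rw [r'_val]
    by_cases ht : (t : ℝ) < 1
    · rw [g_lt n t ht]
      have h1 := het n t t.2.1 t.2.2
      have h2 := mul_le_mul_of_nonneg_left (hex n t) h1.le
      linarith
    · have : (t : ℝ) = 1 := le_antisymm t.2.2 (not_lt.1 ht)
      rw [this, g_one]
      linarith [(he1 n).2]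
  · intro i n t ht
    have ht1 : (t : ℝ) < 1 := lt_of_le_of_lt ht (a_lt_one a ha1 i n)
    rw [r'_val, g_lt n t ht1]
    have h1 := ell_le a ha1 ht
    have h2 := Real.add_one_le_exp (-(ka n * ell a n t))
    have h3 := mul_le_mul_of_nonneg_left h1 (hk1 n).1.le
    have h4 := hex n t
    have h5 := Real.exp_pos (-(ka n * ell a n t))
    have h6 : e0 n * t * Real.exp (-(ka n * ell a n t)) ≤ e0 n * 1 * 1 := by
      apply mul_le_mul _ h4 h5.le (by linarith [(he1 n).1])
      exact mul_le_mul_of_nonneg_left t.2.2 (he1 n).1.le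
    have h7 : 1 - (1 - e0 n * t) * Real.exp (-(ka n * ell a n t)) =
      1 - Real.exp (-(ka n * ell a n t)) + e0 n * t * Real.exp (-(ka n * ell a n t)) := by ring
    rw [h7]
    linarith
  · intro i n t ht
    rw [r'_val]
    by_cases ht1 : (t : ℝ) < 1
    · rw [g_lt n t ht1]
      have h1 := le_ell a ha1 ha2 ht ht1
      have h2 : Real.exp (-(ka n * ell a n t)) ≤ Real.exp (-(i * ka n)) := by
        apply Real.exp_le_exp.2
        have := mul_le_mul_of_nonneg_left h1 (hk1 n).1.le
        linarith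
      have h3 := Real.exp_pos (-(ka n * ell a n t))
      have h4 : 1 - e0 n * t ≤ 1 := by
        have := mul_nonneg (he1 n).1.le t.2.1
        linarith
      have h5 : (1 - e0 n * t) * Real.exp (-(ka n * ell a n t)) ≤
          1 * Real.exp (-(i * ka n)) := mul_le_mul h4 h2 h3.le zero_le_one
      linarith
    · have : (t : ℝ) = 1 := le_antisymm t.2.2 (not_lt.1 ht1)
      rw [this, g_one]
      have := Real.exp_pos (-(i * ka n))
      linarith
  · intro i n n' t t' h1 h2 h1' h2' hka he0 ha0n ha0n'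
    have ht : (t : ℝ) < 1 := lt_of_le_of_lt h2 (a_lt_one a ha1 (i + 2) n)
    have ht' : (t' : ℝ) < 1 := lt_of_le_of_lt h2' (a_lt_one a ha1 (i + 2) n')
    rw [r'_val, r'_val, g_lt n t ht, g_lt n' t' ht']
    have hl1 := le_ell a ha1 ha2 h1 ht
    have hl2 := ell_le a ha1 h2
    have hl1' := le_ell a ha1 ha2 h1' ht'
    have hl2' := ell_le a ha1 h2'
    push_cast at hl2 hl2'
    set l := ell a n t with hl
    set l' := ell a n' t' with hl'
    have hl0 : 0 ≤ l := ell_nonneg a n t
    have hl0' : 0 ≤ l' := ell_nonneg a n' t'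
    have hkn := hk1 n
    have hkn' := hk1 n'
    have ha0t : a 0 n ≤ t := ((a_mono a ha1 n).monotone (Nat.zero_le i)).trans h1
    have ha0t' : a 0 n' ≤ t' := ((a_mono a ha1 n').monotone (Nat.zero_le i)).trans h1'
    have htt : |(t' : ℝ) - t| ≤ ka n / 8 := by
      rw [abs_le]; constructor <;> linarith
    -- second part
    have hs : |e0 n' * t' - e0 n * t| ≤ ka n / 4 := by
      have e1 : e0 n' * t' - e0 n * t = (e0 n' - e0 n) * t' + e0 n * (t' - t) := by ring
      rw [e1]
      have e2 : |(e0 n' - e0 n) * (t' : ℝ)| ≤ ka n / 8 * 1 := by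
        rw [abs_mul, abs_sub_comm (e0 n')]
        apply mul_le_mul he0 _ (abs_nonneg _) (by linarith)
        rw [abs_of_nonneg t'.2.1]
        exact t'.2.2
      have e3 : |e0 n * ((t' : ℝ) - t)| ≤ 1 * (ka n / 8) := by
        rw [abs_mul]
        apply mul_le_mul _ htt (abs_nonneg _) zero_le_one
        rw [abs_of_pos (he1 n).1]
        linarith [(he1 n).2]
      calc |(e0 n' - e0 n) * (t' : ℝ) + e0 n * (t' - t)| ≤
          |(e0 n' - e0 n) * (t' : ℝ)| + |e0 n * ((t' : ℝ) - t)| := abs_add_le _ _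
        _ ≤ ka n / 8 * 1 + 1 * (ka n / 8) := add_le_add e2 e3
        _ = ka n / 4 := by ring
    -- first part
    have hkk := abs_le.1 hka
    have hksq : ka n ^ 2 ≤ ka n / 4 := by nlinarith
    have hm : 0 < ka n / 2 := by linarith
    have hf1 := exp_lip2 (k := ka n) (k' := ka n') (l := l) hm (by linarith) (by linarith) hl0
    have hf1' : |ka n' - ka n| / (ka n / 2) ≤ ka n / 4 := by
      rw [div_le_iff₀ hm, abs_sub_comm]
      calc |ka n - ka n'| ≤ ka n ^ 2 / 8 := hka
        _ = ka n / 4 * (ka n / 2) := by ring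
    have hf2 := exp_lip (mul_nonneg hkn'.1.le hl0') (mul_nonneg hkn'.1.le hl0)
    have hf2' : |ka n' * l' - ka n' * l| ≤ ka n' * 2 := by
      rw [← mul_sub, abs_mul, abs_of_pos hkn'.1]
      apply mul_le_mul_of_nonneg_left _ hkn'.1.le
      rw [abs_le]; constructor <;> linarith
    have hf : |Real.exp (-(ka n' * l')) - Real.exp (-(ka n * l))| ≤ ka n' * 2 + ka n / 4 := by
      have := abs_sub_le (Real.exp (-(ka n' * l'))) (Real.exp (-(ka n' * l)))
        (Real.exp (-(ka n * l)))
      linarith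
    have hdec : 1 - (1 - e0 n * t) * Real.exp (-(ka n * l)) -
        (1 - (1 - e0 n' * t') * Real.exp (-(ka n' * l'))) =
        (1 - e0 n' * t') * (Real.exp (-(ka n' * l')) - Real.exp (-(ka n * l))) +
        (-(e0 n' * t' - e0 n * t)) * Real.exp (-(ka n * l)) := by ring
    rw [hdec]
    have hp1 : |(1 - e0 n' * t') * (Real.exp (-(ka n' * l')) - Real.exp (-(ka n * l)))| ≤
        1 * (ka n' * 2 + ka n / 4) := by
      rw [abs_mul]
      apply mul_le_mul _ hf (abs_nonneg _) zero_le_one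
      rw [abs_of_pos (het n' t' t'.2.1 t'.2.2)]
      have := mul_nonneg (he1 n').1.le t'.2.1
      linarith
    have hp2 : |(-(e0 n' * t' - e0 n * t)) * Real.exp (-(ka n * l))| ≤ ka n / 4 * 1 := by
      rw [abs_mul, abs_neg]
      apply mul_le_mul hs _ (abs_nonneg _) (by linarith)
      rw [abs_of_pos (Real.exp_pos _)]
      exact hex n t
    calc |(1 - e0 n' * t') * (Real.exp (-(ka n' * l')) - Real.exp (-(ka n * l))) +
        (-(e0 n' * t' - e0 n * t)) * Real.exp (-(ka n * l))|
        ≤ |(1 - e0 n' * t') * (Real.exp (-(ka n' * l')) - Real.exp (-(ka n * l)))| +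
          |(-(e0 n' * t' - e0 n * t)) * Real.exp (-(ka n * l))| := abs_add_le _ _
      _ ≤ 1 * (ka n' * 2 + ka n / 4) + ka n / 4 * 1 := add_le_add hp1 hp2
      _ ≤ 4 * ka n := by nlinarith

end Pool.Agent.Tor
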