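import Pool.Agent.Lib.Tor.Layers
import Pool.Agent.Lib.Tor.VertFun

/-! MODULE Tor.Layer (3 h): the collapse of the mapping cylinder is shrinkable. -/

open Set Topology Filter

namespace Pool.Agent.Tor

namespace LayerAux

/-- compactness of the fibre direction -/
theorem tube {M : Type} [TopologicalSpace M] {J : E × I → M} (hJ : Continuous J)
    (V : M → Set M) (hV : Cov V) (n0 : E) :
    ∃ r : ℝ, 0 < r ∧ ∃ N ∈ 𝓝 n0, ∀ t : I, ∃ m₁, ∀ n'' ∈ N, ∀ t'' : I,
      |(t'' : ℝ) - t| ≤ 8 * r → J (n'', t'') ∈ V m₁ := by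
  have key : ∀ S : Set I, IsCompact S → ∃ r : ℝ, 0 < r ∧ ∃ N ∈ 𝓝 n0, ∀ t ∈ S, ∃ m₁,
      ∀ n'' ∈ N, ∀ t'' : I, |(t'' : ℝ) - t| ≤ 8 * r → J (n'', t'') ∈ V m₁ := by
    intro S hS
    refine hS.induction_on (p := fun S => ∃ r : ℝ, 0 < r ∧ ∃ N ∈ 𝓝 n0, ∀ t ∈ S, ∃ m₁,
      ∀ n'' ∈ N, ∀ t'' : I, |(t'' : ℝ) - t| ≤ 8 * r → J (n'', t'') ∈ V m₁) ?_ ?_ ?_ ?_
    · exact ⟨1, one_pos, univ, univ_mem, fun t ht => absurd ht (notMem_empty t)⟩
    · rintro s t hst ⟨r, hr, N, hN, h⟩
      exact ⟨r, hr, N, hN, fun u hu => h u (hst hu)⟩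
    · rintro s t ⟨r, hr, N, hN, h⟩ ⟨r', hr', N', hN', h'⟩
      refine ⟨min r r', lt_min hr hr', N ∩ N', inter_mem hN hN', ?_⟩
      rintro u (hu | hu)
      · obtain ⟨m₁, hm⟩ := h u hu
        exact ⟨m₁, fun n'' hn t'' ht => hm n'' hn.1 t'' (ht.trans (by
          have := min_le_left r r'; linarith))⟩
      · obtain ⟨m₁, hm⟩ := h' u hu
        exact ⟨m₁, fun n'' hn t'' ht => hm n'' hn.2 t'' (ht.trans (by
          have := min_le_right r r'; linarith))⟩
    · intro t0 _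
      have h1 : J ⁻¹' V (J (n0, t0)) ∈ 𝓝 (n0, t0) :=
        hJ.continuousAt.preimage_mem_nhds ((hV _).1.mem_nhds (hV _).2)
      rw [nhds_prod_eq, mem_prod_iff] at h1
      obtain ⟨N, hN, T, hT, hNT⟩ := h1
      obtain ⟨ρ, hρ, hρT⟩ := Metric.mem_nhds_iff.1 hT
      refine ⟨Metric.ball t0 (ρ / 2), mem_nhdsWithin_of_mem_nhds
        (Metric.ball_mem_nhds _ (by positivity)), ρ / 32, by positivity, N, hN, ?_⟩
      intro t ht
      refine ⟨J (n0, t0), fun n'' hn t'' ht'' => hNT ⟨hn, hρT ?_⟩⟩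
      rw [Metric.mem_ball] at ht ⊢
      have h2 : dist t'' t ≤ ρ / 4 := by
        rw [Subtype.dist_eq, Real.dist_eq]; linarith
      calc dist t'' t0 ≤ dist t'' t + dist t t0 := dist_triangle _ _ _
        _ < ρ := by linarith
  obtain ⟨r, hr, N, hN, h⟩ := key univ isCompact_univ
  exact ⟨r, hr, N, hN, fun t => h t (mem_univ t)⟩

end LayerAux

/-- smallness in the cylinder part. -/
theorem small_part {X M : Type} [TopologicalSpace X] [TopologicalSpace M]
    {q : E → X} {c : M → X} {lev : M → I} {i : X → M} {J : E × I → M}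
    (hc : IsCyl q c lev i J) (V : M → Set M) (hV : Cov V) (e0 : E → ℝ) (he : Continuous e0)
    (he1 : ∀ n, 0 < e0 n ∧ e0 n ≤ 1 / 4) :
    ∃ (ka : E → ℝ) (P : E → Set E), Continuous ka ∧ (∀ n, 0 < ka n ∧ ka n ≤ e0 n) ∧ Cov P ∧
      (∀ n, ∀ n' ∈ P n, ∀ n'' ∈ P n, |ka n' - ka n''| ≤ (ka n') ^ 2 / 8 ∧
        |e0 n' - e0 n''| ≤ ka n' / 8 ∧ ka n' ≤ 2 * ka n'') ∧
      ∀ n, ∀ n' ∈ P n, ∀ t : I, e0 n' / 2 ≤ t → ∃ m₁, ∀ n'' ∈ P n, ∀ t'' : I,
        |(t'' : ℝ) - t| ≤ 4 * ka n' → J (n'', t'') ∈ V m₁ := by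
  obtain ⟨ka, hkac, hka, hkaP⟩ := exists_below (Z := E)
    (fun n r => r ≤ e0 n ∧ ∃ N ∈ 𝓝 n, ∀ t : I, ∃ m₁, ∀ n'' ∈ N, ∀ t'' : I,
      |(t'' : ℝ) - t| ≤ 8 * r → J (n'', t'') ∈ V m₁)
    (by
      rintro n r s hr hrs ⟨h1, N, hN, h2⟩
      refine ⟨hrs.trans h1, N, hN, fun t => ?_⟩
      obtain ⟨m₁, hm⟩ := h2 t
      exact ⟨m₁, fun n'' hn t'' ht => hm n'' hn t'' (ht.trans (by linarith))⟩)
    (by
      intro n0
      obtain ⟨r, hr, N, hN, h⟩ := LayerAux.tube hc.hJ V hV n0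
      refine ⟨min r (e0 n0 / 2), lt_min hr (by have := (he1 n0).1; linarith), ?_⟩
      have hev : ∀ᶠ n' in 𝓝 n0, e0 n0 / 2 < e0 n' :=
        (he.tendsto n0).eventually (lt_mem_nhds (by have := (he1 n0).1; linarith))
      filter_upwards [hev, eventually_mem_nhds_iff.2 hN] with n' h1 h2
      refine ⟨(min_le_right _ _).trans h1.le, N, h2, fun t => ?_⟩
      obtain ⟨m₁, hm⟩ := h t
      exact ⟨m₁, fun n'' hn t'' ht => hm n'' hn t'' (ht.trans (by
        have := min_le_left r (e0 n0 / 2); linarith))⟩)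
  choose hk1 N hN hNV using hkaP
  refine ⟨ka, fun n => interior (N n) ∩ {n' | ka n' < 2 * ka n} ∩
    ({n' | |ka n' - ka n| < (ka n) ^ 2 / 64} ∩ {n' | |e0 n' - e0 n| < ka n / 64}), hkac,
    fun n => ⟨(hka n).1, hk1 n⟩, ?_, ?_, ?_⟩
  · intro n
    have hp := (hka n).1
    refine ⟨(isOpen_interior.inter (isOpen_lt hkac continuous_const)).inter
      ((isOpen_lt (by fun_prop) continuous_const).inter
        (isOpen_lt (by fun_prop) continuous_const)), ⟨⟨mem_interior_iff_mem_nhds.2 (hN n), ?_⟩,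
          ?_, ?_⟩⟩
    · show ka n < 2 * ka n
      linarith
    · show |ka n - ka n| < (ka n) ^ 2 / 64
      rw [sub_self, abs_zero]; positivity
    · show |e0 n - e0 n| < ka n / 64
      rw [sub_self, abs_zero]; positivity
  · rintro n n' ⟨⟨-, h1⟩, h2, h3⟩ n'' ⟨⟨-, h1'⟩, h2', h3'⟩
    have hp := (hka n).1
    have hp1 := (hka n).2
    have h2 : |ka n' - ka n| < (ka n) ^ 2 / 64 := h2
    have h2' : |ka n'' - ka n| < (ka n) ^ 2 / 64 := h2'
    have h3 : |e0 n' - e0 n| < ka n / 64 := h3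
    have h3' : |e0 n'' - e0 n| < ka n / 64 := h3'
    rw [abs_lt] at h2 h2' h3 h3'
    have hsq : (ka n) ^ 2 ≤ ka n := by nlinarith
    have hlow : ka n / 2 ≤ ka n' := by linarith
    have hsq2 : (ka n) ^ 2 / 4 ≤ (ka n') ^ 2 := by nlinarith
    refine ⟨?_, ?_, ?_⟩
    · rw [abs_le]; constructor <;> linarith
    · rw [abs_le]; constructor <;> linarith
    · linarith
  · rintro n n' ⟨⟨-, h1⟩, -⟩ t -
    obtain ⟨m₁, hm⟩ := hNV n t
    have h1 : ka n' < 2 * ka n := h1
    exact ⟨m₁, fun n'' hn t'' ht => hm n'' (interior_subset hn.1.1) t'' (by linarith)⟩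


namespace LayerAux

/-- the uniformity condition near the level zero -/
theorem unif {X : Type} [TopologicalSpace X] {q : E → X} {ε : X → ℝ} (hε : Continuous ε)
    (hε1 : ∀ x, 0 < ε x ∧ ε x ≤ 1 / 4) {r r' : E × I → I} (h2 : ∀ n t, r (n, r' (n, t)) = t)
    {a0 : E → ℝ} (ha0 : ∀ n, 1 / 2 ≤ a0 n)
    (h3 : ∀ n (t : I), (t : ℝ) ≤ a0 n → (r' (n, t) : ℝ) = ε (q n) * t) (x : X) (η : ℝ)
    (hη : 0 < η) : ∃ O ∈ 𝓝 x, ∃ δ : ℝ, 0 < δ ∧ ∀ n (t : I), q n ∈ O →
      (t : ℝ) < δ → (r (n, t) : ℝ) < η ∧ (r' (n, t) : ℝ) < η := by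
  have hx := (hε1 x).1
  refine ⟨{y | ε x / 2 < ε y}, (hε.tendsto x).eventually (lt_mem_nhds (by linarith)),
    min (min (ε x / 4) (1 / 2)) (min η (η * (ε x / 2))),
    lt_min (lt_min (by positivity) (by norm_num)) (lt_min hη (by positivity)), ?_⟩
  intro n t hn ht
  have hn : ε x / 2 < ε (q n) := hn
  simp only [lt_min_iff] at ht
  obtain ⟨⟨h4, h5⟩, h6, h7⟩ := ht
  have ht0 : (0 : ℝ) ≤ t := t.2.1
  have hq := hε1 (q n)
  constructor
  · have hs1 : (t : ℝ) / ε (q n) ≤ 1 / 2 := by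
      rw [div_le_iff₀ hq.1]; linarith
    have hs0 : 0 ≤ (t : ℝ) / ε (q n) := div_nonneg ht0 hq.1.le
    have hq0 : ε (q n) ≠ 0 := hq.1.ne'
    have h8 : r' (n, ⟨(t : ℝ) / ε (q n), hs0, by linarith⟩) = t := by
      apply Subtype.ext
      rw [h3 n _ (hs1.trans (ha0 n))]
      show ε (q n) * ((t : ℝ) / ε (q n)) = t
      field_simp
    have h9 := h2 n ⟨(t : ℝ) / ε (q n), hs0, by linarith⟩
    rw [h8] at h9
    rw [h9]
    show (t : ℝ) / ε (q n) < η
    rw [div_lt_iff₀ hq.1]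
    nlinarith
  · rw [h3 n t (h5.le.trans (ha0 n))]
    nlinarith [hq.2]

end LayerAux

/-- the collapse is shrinkable -/
theorem layer_shrink {X M : Type} [MetricSpace X] [TopologicalSpace M]
    [TopologicalSpace.MetrizableSpace M] {q : E → X} {c : M → X} {lev : M → I} {i : X → M}
    {J : E × I → M} (hc : IsCyl q c lev i J)
    (hone : ∀ U : X → Set X, Cov U → ∃ f : M → X, Continuous f ∧ Near U f c ∧
      (∀ n, ∀ V ∈ 𝓝 (J (n, 1)), ∃ O ∈ 𝓝 (f (J (n, 1))), f ⁻¹' O ⊆ V) ∧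
      IsClosed (range fun n => f (J (n, 1))) ∧
      ∀ U' : X → Set X, Cov U' → ∃ k : M ≃ₜ M, Near U' (fun m => c (k m)) f) :
    Shrinkable c := by
  intro U hU V hV
  obtain ⟨ε, O, hεc, hε, hO, hsmall⟩ := cyl_cover hc V hV
  obtain ⟨ka, P, hkac, hka, hP, hP1, hP2⟩ := small_part hc V hV (fun n => ε (q n))
    (hεc.comp hc.hq) (fun n => hε _)
  obtain ⟨S1, hS1, hS1s⟩ := exists_star hU
  obtain ⟨S2, hS2, hS2s⟩ := exists_star hO
  obtain ⟨f, hfc, hfn, h1, hK, happ⟩ := hone (fun x => S1 x ∩ S2 x) (hS1.inter hS2)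
  -- neighbourhoods over the top
  have hVn : ∀ n, J '' (P n ×ˢ {t : I | (1 : ℝ) / 2 < t}) ∈ 𝓝 (J (n, 1)) := by
    intro n
    obtain ⟨V', hV', -, h⟩ := cyl_open hc n 1 one_pos (P n ×ˢ {t : I | (1 : ℝ) / 2 < t})
      (prod_mem_nhds ((hP n).1.mem_nhds (hP n).2)
        ((isOpen_lt continuous_const continuous_subtype_val).mem_nhds
          (by show (1 : ℝ) / 2 < ((1 : I) : ℝ); norm_num)))
    exact mem_of_superset hV' h
  choose On hOn hOnV using fun n => h1 n _ (hVn n)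
  set K : Set X := range fun n => f (J (n, 1)) with hKdef
  set G : Set X := ⋃ n, interior (On n) with hG
  have hKG : K ⊆ G := by
    rintro _ ⟨n, rfl⟩
    exact mem_iUnion.2 ⟨n, mem_interior_iff_mem_nhds.2 (hOn n)⟩
  have hGo : IsOpen G := isOpen_iUnion fun n => isOpen_interior
  obtain ⟨G', hG'o, hKG', hG'G⟩ := normal_exists_closure_subset hK hGo hKG
  obtain ⟨w, hwc, hw1, hw2⟩ := cyl_top hc (f ⁻¹' G') (hG'o.preimage hfc)
    (fun n => hKG' ⟨n, rfl⟩)
  have hkp : ∀ n, 0 < ka n := fun n => (hka n).1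
  have hk4 : ∀ n, ka n ≤ 1 / 4 := fun n => (hka n).2.trans (hε _).2
  obtain ⟨a, ha0, hac, ha1, ha2, ha3, ha4⟩ := layers hc f hfc h1 hK
    (fun n => max (w n) (1 - ka n / 16)) (by fun_prop)
    (fun n => ⟨(hw1 n).1.trans (le_max_left _ _),
      max_lt (hw1 n).2 (by have := hkp n; linarith)⟩)
  have ha0w : ∀ n, w n ≤ a 0 n := fun n => by rw [ha0]; exact le_max_left _ _
  have ha0k : ∀ n, 1 - a 0 n ≤ ka n / 16 := fun n => by
    rw [ha0]; have := le_max_right (w n) (1 - ka n / 16)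
    show 1 - max (w n) (1 - ka n / 16) ≤ ka n / 16
    linarith
  have ha0h : ∀ n, 1 / 2 ≤ a 0 n := fun n => (hw1 n).1.trans (ha0w n)
  have hmono : ∀ n, StrictMono fun i => a i n := fun n =>
    strictMono_nat_of_lt_succ fun i => (ha1 i n).1
  obtain ⟨r, r', hr, hr', hrr', hr'r, hr1, hv1, hv2, hv3, hv4, hv5⟩ :=
    vert_fun (fun n => ε (q n)) ka a (hεc.comp hc.hq) hkac hac (fun n => hε _)
      (fun n => ⟨hkp n, hk4 n⟩) ha0h ha1 ha2
  obtain ⟨R, hR1, hR2, hR3, hR4, hR5, hR6⟩ := vert_homeo hc r r' hr hr' hrr' hr'r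
    (fun x η hη => LayerAux.unif hεc hε hrr' ha0h hv1 x η hη)
  -- the layers
  set Lo : ℕ → Set M := fun i => {m | ∀ n (t : I), 0 < t → m = J (n, t) → (t : ℝ) ≤ a i n}
    with hLo
  set Up : ℕ → Set M := fun i => {m | ∃ n, ∃ t : I, a i n ≤ t ∧ m = J (n, t)} with hUp
  have hUpm : ∀ j, Up (j + 1) ⊆ Up j := by
    rintro j m ⟨n, t, h, rfl⟩
    exact ⟨n, t, ((ha1 j n).1.le).trans h, rfl⟩
  have hC0 : closure (f '' Up 0) ⊆ G := by
    refine (closure_mono ?_).trans hG'G
    rintro _ ⟨m, ⟨n, t, h, rfl⟩, rfl⟩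
    exact hw2 n t ((ha0w n).trans h)
  -- the claim
  have claim : ∀ x, ∃ Os ∈ 𝓝 x, ∃ m₁, ∀ m, f m ∈ Os → R.symm m ∈ V m₁ := by
    intro x
    by_cases hA : x ∈ closure (f '' Up 1)
    · have hxG : x ∈ G := hC0 (closure_mono (image_mono (hUpm 0)) hA)
      by_cases hB : x ∈ K
      · -- case (C)
        obtain ⟨n, rfl⟩ := hB
        obtain ⟨j, hj⟩ : ∃ j : ℕ, Real.exp (-(j * (ka n / 2))) ≤ ka n := by
          have h5 : Tendsto (fun j : ℕ => Real.exp (-(j * (ka n / 2)))) atTop (𝓝 0) :=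
            Real.tendsto_exp_neg_atTop_nhds_zero.comp
              (tendsto_natCast_atTop_atTop.atTop_mul_const (by have := hkp n; linarith))
          exact (h5.eventually (ge_mem_nhds (hkp n))).exists
        have hW : J '' ((P n ∩ {n' | ka n / 2 < ka n'}) ×ˢ univ ∩
            {p : E × I | a j p.1 < p.2}) ∈ 𝓝 (J (n, 1)) := by
          obtain ⟨V', hV', -, h⟩ := cyl_open hc n 1 one_pos
            ((P n ∩ {n' | ka n / 2 < ka n'}) ×ˢ univ ∩ {p : E × I | a j p.1 < p.2})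
            (inter_mem (prod_mem_nhds (inter_mem ((hP n).1.mem_nhds (hP n).2)
              ((isOpen_lt continuous_const hkac).mem_nhds
                (by show ka n / 2 < ka n; have := hkp n; linarith))) univ_mem)
              ((isOpen_lt ((hac j).comp continuous_fst)
                (continuous_subtype_val.comp continuous_snd)).mem_nhds
                (by
                  show a j n < ((1 : I) : ℝ)
                  have := (ha1 j n).1.trans (ha1 j n).2
                  simpa using this)))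
          exact mem_of_superset hV' h
        obtain ⟨Os, hOs, hOsV⟩ := h1 n _ hW
        obtain ⟨m₁, hm₁⟩ := hP2 n n (hP n).2 1 (by
          show ε (q n) / 2 ≤ ((1 : I) : ℝ)
          have := (hε (q n)).2
          simp only [Icc.coe_one] at *
          linarith)
        refine ⟨Os, hOs, m₁, fun m hm => ?_⟩
        obtain ⟨⟨n', t'⟩, ⟨⟨⟨hn'P, hn'k⟩, -⟩, ht'⟩, rfl⟩ := hOsV hm
        rw [hR2]
        apply hm₁ n' hn'P
        have h6 := hv4 j n' t' (le_of_lt ht')
        have h7 : Real.exp (-(j * ka n')) ≤ Real.exp (-(j * (ka n / 2))) := by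
          apply Real.exp_le_exp.2
          have : (j : ℝ) * (ka n / 2) ≤ j * ka n' :=
            mul_le_mul_of_nonneg_left (le_of_lt hn'k) (Nat.cast_nonneg j)
          linarith
        have h8 : ((r' (n', t') : I) : ℝ) ≤ 1 := (r' (n', t')).2.2
        have h9 := hkp n
        rw [abs_le]
        constructor
        · show -(4 * ka n) ≤ ((r' (n', t') : I) : ℝ) - ((1 : I) : ℝ)
          simp only [Icc.coe_one]
          linarith
        · show ((r' (n', t') : I) : ℝ) - ((1 : I) : ℝ) ≤ 4 * ka n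
          simp only [Icc.coe_one]
          linarith
      · -- case (B)
        obtain ⟨j, hj1, hj2⟩ : ∃ j, x ∈ closure (f '' Up (j + 1)) ∧
            x ∉ closure (f '' Up (j + 2)) := by
          by_contra hcon
          push Not at hcon
          have hall : ∀ j, x ∈ closure (f '' Up (j + 1)) := by
            intro j
            induction j with
            | zero => exact hA
            | succ j ih => exact hcon j ih
          apply hB
          rw [← hK.closure_eq, Metric.mem_closure_iff_infDist_zero]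
          · apply le_antisymm _ Metric.infDist_nonneg
            refine ge_of_tendsto (tendsto_pow_atTop_nhds_zero_of_lt_one
              (by norm_num : (0 : ℝ) ≤ 1 / 2) (by norm_num)) (Eventually.of_forall fun j => ?_)
            have hsub : closure (f '' Up (j + 1)) ⊆ {y | Metric.infDist y K ≤ (1 / 2) ^ j} := by
              apply closure_minimal _ (isClosed_le (Metric.continuous_infDist_pt K)
                continuous_const)
              rintro _ ⟨m, ⟨n, t, h, rfl⟩, rfl⟩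
              exact (ha3 j n t h).le
            exact hsub (hall j)
          · exact range_nonempty _
        have hD : x ∉ closure (f '' Lo j) := fun h => (ha4 j).le_bot ⟨h, hj1⟩
        obtain ⟨n, hn⟩ := mem_iUnion.1 hxG
        set Os : Set X := interior (On n) ∩ ((closure (f '' Up (j + 2)))ᶜ ∩
          (closure (f '' Lo j))ᶜ) with hOs
        have hOsn : Os ∈ 𝓝 x := inter_mem (isOpen_interior.mem_nhds hn)
          (inter_mem (isClosed_closure.isOpen_compl.mem_nhds hj2)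
            (isClosed_closure.isOpen_compl.mem_nhds hD))
        have hpt : ∀ m, f m ∈ Os → ∃ n' ∈ P n, ∃ t' : I, m = J (n', t') ∧ a j n' ≤ t' ∧
            (t' : ℝ) ≤ a (j + 2) n' := by
          rintro m ⟨hm1, hm2, hm3⟩
          obtain ⟨⟨n', t'⟩, ⟨hn', ht'⟩, hm⟩ := hOnV n (show m ∈ f ⁻¹' On n from
            interior_subset (s := On n) hm1)
          refine ⟨n', hn', t', hm.symm, ?_, ?_⟩
          · by_contra hcon
            push Not at hcon
            apply hm3
            apply subset_closure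
            refine ⟨m, ?_, rfl⟩
            intro n1 t1 ht1 hm'
            obtain ⟨rfl, rfl⟩ := cyl_inj hc n1 n' t1 t' ht1 (by rw [← hm', hm])
            exact hcon.le
          · by_contra hcon
            push Not at hcon
            exact hm2 (subset_closure ⟨m, ⟨n', t', hcon.le, hm.symm⟩, rfl⟩)
        by_cases hemp : ∃ m, f m ∈ Os
        · obtain ⟨m0, hm0⟩ := hemp
          obtain ⟨n0, hn0, t0, rfl, hl0, hu0⟩ := hpt m0 hm0
          have hh : (1 : ℝ) / 2 ≤ t0 := by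
            have := (hmono n0).monotone (Nat.zero_le j)
            exact (ha0h n0).trans (this.trans hl0)
          obtain ⟨m₁, hm₁⟩ := hP2 n n0 hn0 (r' (n0, t0)) (by
            have h5 := hv2 n0 t0
            have h6 := (hε (q n0)).1
            nlinarith)
          refine ⟨Os, hOsn, m₁, fun m hm => ?_⟩
          obtain ⟨n', hn', t', rfl, hl', hu'⟩ := hpt m hm
          rw [hR2]
          apply hm₁ n' hn'
          have h7 := hP1 n n0 hn0 n' hn'
          rw [abs_sub_comm]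
          refine hv5 j n0 n' t0 t' hl0 hu0 hl' hu' h7.1 h7.2.1 ?_ ?_
          · have := ha0k n0; have := hkp n0; linarith
          · have h8 := ha0k n'
            have h9 := (hP1 n n' hn' n0 hn0).2.2
            linarith
        · push Not at hemp
          exact ⟨Os, hOsn, i x, fun m hm => absurd hm (hemp m)⟩
    · -- case (A)
      obtain ⟨z, hz⟩ := hS2s x
      obtain ⟨x', hx'⟩ := hsmall z
      refine ⟨(closure (f '' Up 1))ᶜ ∩ S2 x, inter_mem (isClosed_closure.isOpen_compl.mem_nhds hA)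
        ((hS2 x).1.mem_nhds (hS2 x).2), i x', ?_⟩
      rintro m ⟨hm1, hm2⟩
      have hcO : c (R.symm m) ∈ O z := by
        rw [hR4]
        obtain ⟨z1, hz1, hz2⟩ := hfn m
        exact hz z1 ⟨f m, hm2, hz1.2⟩ hz2.2
      apply hx' _ hcO
      by_cases hlev : lev m = 0
      · rw [hc.eq_i m hlev, hR6, hc.lev_i]
        have := (hε (c (i (c m)))).1
        simp only [Icc.coe_zero]
        positivity
      · obtain ⟨pn, -, -, hpn⟩ := hc.pn
        have hlp : 0 < lev m := lt_of_le_of_ne (lev m).2.1 (fun h => hlev h.symm)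
        have hmJ := hpn m hlp
        rw [← hmJ, hR2, hc.lev_J, hc.c_J]
        have hlt : ((lev m : I) : ℝ) ≤ a 1 (pn m) := by
          by_contra hcon
          push Not at hcon
          exact hm1 (subset_closure ⟨m, ⟨pn m, lev m, hcon.le, hmJ.symm⟩, rfl⟩)
        have h5 := hv3 1 (pn m) (lev m) hlt
        have h6 := (hka (pn m)).2
        have h7 := (hε (q (pn m))).1
        push_cast at h5
        linarith
  choose Os hOs m₁ hm₁ using claim
  obtain ⟨Ps, hPs, hPss⟩ := exists_star (U := fun x => interior (Os x))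
    (fun x => ⟨isOpen_interior, mem_interior_iff_mem_nhds.2 (hOs x)⟩)
  obtain ⟨k', hk'⟩ := happ (fun x => Ps x ∩ S1 x) (hPs.inter hS1)
  refine ⟨R.trans k', ?_, ?_⟩
  · have hn1 : Near S1 (fun m => c (k' (R m))) (fun m => f (R m)) := by
      intro m
      obtain ⟨z, h5, h6⟩ := hk' (R m)
      exact ⟨z, h5.2, h6.2⟩
    have hn2 : Near S1 (fun m => f (R m)) c := by
      intro m
      obtain ⟨z, h5, h6⟩ := hfn (R m)
      refine ⟨z, h5.1, ?_⟩
      rw [← hR3 m]
      exact h6.1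
    exact near_trans hS1s hn1 hn2
  · intro x
    obtain ⟨z, hz⟩ := hPss x
    refine ⟨Ps x, (hPs x).1.mem_nhds (hPs x).2, m₁ z, fun m hm => ?_⟩
    have hm : c (k' (R m)) ∈ Ps x := hm
    obtain ⟨b, h5, h6⟩ := hk' (R m)
    have h7 : f (R m) ∈ Os z := interior_subset (hz b ⟨_, hm, h5.1⟩ h6.1)
    have h8 := hm₁ z (R m) h7
    rwa [R.symm_apply_apply] at h8

end Pool.Agent.Tor
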