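import Pool.Agent.Lib.Tor.Engulf
import Pool.Agent.Lib.Tor.CrushSZ
import Pool.Agent.Lib.Tor.KSet
import Pool.Agent.Lib.Tor.Bing

/-! MODULE Tor.OneOne (2 h): maps near the collapse which are one-to-one over the top level. -/

open Set Topology Filter

namespace Pool.Agent.Tor

namespace OneOneAux

/-- clamping to the unit interval -/
noncomputable def cl (r : ℝ) : I := Set.projIcc (0 : ℝ) 1 zero_le_one r

theorem cl_cont : Continuous cl := continuous_projIcc (h := zero_le_one)

theorem cl_nonpos {r : ℝ} (h : r ≤ 0) : cl r = 0 := Set.projIcc_of_le_left _ h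

theorem cl_one_le {r : ℝ} (h : 1 ≤ r) : cl r = 1 := Set.projIcc_of_right_le _ h

/-- a homotopy with small tracks from the top level to a map -/
theorem exists_htpy {X M : Type} [TopologicalSpace X] [TopologicalSpace M] {q : E → X}
    {c : M → X} {lev : M → I} {i : X → M} {J : E × I → M} (hc : IsCyl q c lev i J)
    {Λ : X × X × I → X} (hΛ : Continuous Λ) (h0 : ∀ x y, Λ (x, y, 0) = x)
    (h1 : ∀ x y, Λ (x, y, 1) = y) (b : E → M) (hb : Continuous b) :
    ∃ G : E × I → M, Continuous G ∧ (∀ n, G (n, 0) = J (n, 1)) ∧ (∀ n, G (n, 1) = b n) ∧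
      ∀ n t, ∃ s : I, c (G (n, t)) = Λ (q n, c (b n), s) := by
  obtain ⟨ver, hver, v0, v1, vc, -, -, -⟩ := exists_ver hc
  have ht : Continuous fun x : E × I => (x.2 : ℝ) := continuous_subtype_val.comp continuous_snd
  refine ⟨fun x => if (x.2 : ℝ) ≤ 1 / 3 then ver (J (x.1, 1), cl (3 * (x.2 : ℝ))) else
    if (x.2 : ℝ) ≤ 2 / 3 then i (Λ (q x.1, c (b x.1), cl (3 * (x.2 : ℝ) - 1))) else
      ver (b x.1, cl (3 - 3 * (x.2 : ℝ))), ?_, ?_, ?_, ?_⟩
  · refine Continuous.if_le ?_ (Continuous.if_le ?_ ?_ ht continuous_const ?_) ht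
      continuous_const ?_
    · exact hver.comp ((hc.hJ.comp (continuous_fst.prodMk continuous_const)).prodMk
        (cl_cont.comp (by fun_prop)))
    · exact hc.hi.comp (hΛ.comp ((hc.hq.comp continuous_fst).prodMk
        ((hc.hc.comp (hb.comp continuous_fst)).prodMk (cl_cont.comp (by fun_prop)))))
    · exact hver.comp ((hb.comp continuous_fst).prodMk (cl_cont.comp (by fun_prop)))
    · intro x hx
      rw [cl_one_le (by rw [hx]; norm_num), h1, cl_one_le (by rw [hx]; norm_num), v1]
    · intro x hx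
      rw [if_pos (by rw [hx]; norm_num), cl_one_le (by rw [hx]; norm_num), v1,
        cl_nonpos (by rw [hx]; norm_num), h0, hc.c_J]
  · intro n
    have : ((0 : I) : ℝ) ≤ 1 / 3 := by simp
    simp only [this, if_true]
    rw [cl_nonpos (by simp), v0]
  · intro n
    have e1 : ¬ ((1 : I) : ℝ) ≤ 1 / 3 := by norm_num
    have e2 : ¬ ((1 : I) : ℝ) ≤ 2 / 3 := by norm_num
    simp only [e1, e2, if_false]
    rw [cl_nonpos (by simp), v0]
  · intro n t
    by_cases e1 : (t : ℝ) ≤ 1 / 3
    · exact ⟨0, by simp only [e1, if_true, vc, hc.c_J, h0]⟩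
    · by_cases e2 : (t : ℝ) ≤ 2 / 3
      · exact ⟨cl (3 * (t : ℝ) - 1), by simp only [e1, e2, if_true, if_false, hc.c_i]⟩
      · exact ⟨1, by simp only [e1, e2, if_false, vc, h1]⟩

end OneOneAux

open OneOneAux in
/-- PROOF. Let `U1` be an iterated star refinement of `U`. `exists_kset`: `be : E -> X` closed
embedding, `U1`-near `q`, `K = range be`, `StrongK K`. `exists_crush`: `p : M -> MK`, `cK`.
`crush_shrinkable` and `bing` (`p` onto): `H : M = MK` with `H` near `p` for the pull back of `U1` under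
`cK`; so `cK H` is near `c`. The point of `MK` over `be n` is `y_n = p (i (be n))` (`crush_eq`), and
`n -> y_n` is a closed embedding onto `cK^-1 K`, a strong Z-set (`crush_sz`). Let
`b' n = H^-1 (y_n)`; it is a closed embedding with SZ range (`SZ.preimage`), `c (b' n)` is near
`cK (H (b' n)) = be n`, near `q n = c (J (n,1))`. HOMOTOPY from `J (n,1)` to `b' n`: vertical collapse
(`ver`), then `i (Lambda (q n, c (b' n), t))` (`exists_lambda` for `X`, `lambda_small`), then the reversed
vertical collapse of `b' n`; its `c`-tracks are small. `unknot` with `C = c`, `A = {lev = 1}`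
(`sz_top`, `A` is the homeomorphic image of `E` under `n -> J (n,1)`): `Th : M = M`,
`Th (J (n,1)) = b' n`, `c Th` near `c`. `f = cK o H o Th`. Then `f (J (n,1)) = be n`. One-to-one and
closed over `K`: a neighbourhood `V` of `J (n,1)` gives the neighbourhood `H (Th V)` of `y_n`; `at_K`
gives `O` with `cK y in O -> y in H (Th V)`. Approximation: given `U'`, take `H'` near `p` for the pull
back of `U'`, `k = H'^-1 o H o Th`: `c (k m) = cK (p (k m))` is near `cK (H' (k m)) = f m`. -/
theorem exists_oneone {X M : Type} [MetricSpace X] [CompleteSpace X]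
    [TopologicalSpace.SeparableSpace X] [TopologicalSpace M] [PolishSpace M]
    (hX : AE X) (hcod : CodedM X univ) (hM : M ≃ₜ E) {q : E → X} {c : M → X} {lev : M → I}
    {i : X → M} {J : E × I → M} (hc : IsCyl q c lev i J) (U : X → Set X) (hU : Cov U) :
    ∃ f : M → X, Continuous f ∧ Near U f c ∧
      (∀ n, ∀ V ∈ 𝓝 (J (n, 1)), ∃ O ∈ 𝓝 (f (J (n, 1))), f ⁻¹' O ⊆ V) ∧
      IsClosed (range fun n => f (J (n, 1))) ∧
      ∀ U' : X → Set X, Cov U' → ∃ k : M ≃ₜ M, Near U' (fun m => c (k m)) f := by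
  have : SecondCountableTopology X := UniformSpace.secondCountable_of_separable X
  have : PolishSpace X := inferInstance
  -- covers
  obtain ⟨V1, hV1, s1⟩ := exists_star hU
  obtain ⟨V2, hV2, hunk⟩ := unknot hM c hc.hc V1 hV1
  obtain ⟨Λ, hΛ, Λ0, Λ1, Λd⟩ := exists_lambda hX
  obtain ⟨W, hW, hWs⟩ := lambda_small hΛ Λd V2 hV2
  obtain ⟨W1, hW1, s2⟩ := exists_star hW
  have hU1 : Cov (fun z => W1 z ∩ V1 z) := hW1.inter hV1
  -- the set K
  obtain ⟨β, hβ, hβq, hS⟩ := exists_kset hcod q hc.hq _ hU1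
  have hsc : Function.Surjective c := fun x => ⟨i x, hc.c_i x⟩
  obtain ⟨MK, _, _, p, cK, hcr⟩ := exists_crush c hc.hc hsc (range β) hβ.isClosed_range
  have hsh : Shrinkable p := crush_shrinkable hX hM hc hcr hS
  have hbing : ∀ U' : X → Set X, Cov U' → ∃ h : M ≃ₜ MK,
      ∀ m, ∃ z, cK (h m) ∈ U' z ∧ c m ∈ U' z := by
    intro U' hU'
    obtain ⟨h, hh⟩ := bing p hcr.hp hcr.surj.denseRange hsh _ (hU'.pull hcr.hcK)
    refine ⟨h, fun m => ?_⟩
    obtain ⟨y, h1, h2⟩ := hh m
    refine ⟨cK y, h1, ?_⟩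
    have : cK (p m) ∈ U' (cK y) := h2
    rwa [hcr.cK_p] at this
  obtain ⟨H, hH⟩ := hbing _ hU1
  -- the points over K
  set y : E → MK := fun n => p (i (β n)) with hy
  have hyc : Continuous y := hcr.hp.comp (hc.hi.comp hβ.continuous)
  have hcKy : ∀ n, cK (y n) = β n := fun n => by rw [hy]; simp only [hcr.cK_p, hc.c_i]
  have hyr : range y = cK ⁻¹' range β := by
    ext z
    constructor
    · rintro ⟨n, rfl⟩
      exact ⟨n, (hcKy n).symm⟩
    · rintro ⟨n, hn⟩
      obtain ⟨m, rfl⟩ := hcr.surj z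
      rw [hcr.cK_p] at hn
      refine ⟨n, ?_⟩
      exact crush_eq hcr m (i (β n)) (by rw [← hn]; exact mem_range_self n)
        (by rw [hc.c_i, hn])
  have hyemb : IsClosedEmbedding y := by
    refine ⟨IsEmbedding.of_comp hyc hcr.hcK ?_, ?_⟩
    · have : cK ∘ y = β := funext hcKy
      rw [this]
      exact hβ.isEmbedding
    · rw [hyr]
      exact hβ.isClosed_range.preimage hcr.hcK
  set b : E → M := fun n => H.symm (y n) with hb
  have hbemb : IsClosedEmbedding b := H.symm.isClosedEmbedding.comp hyemb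
  have hbr : range b = H ⁻¹' (cK ⁻¹' range β) := by
    rw [← hyr]
    ext m
    constructor
    · rintro ⟨n, rfl⟩
      exact ⟨n, by simp [hb]⟩
    · rintro ⟨n, hn⟩
      exact ⟨n, by simp only [hb]; rw [hn]; simp⟩
  have hbSZ : SZ (range b) := by
    rw [hbr]
    exact (crush_sz hc hcr hS).preimage H
  have hHb : ∀ n, H (b n) = y n := fun n => by simp [hb]
  have hnear : Near W (fun n => c (b n)) q := by
    refine near_trans s2 (g := β) ?_ ?_
    · intro n
      obtain ⟨z, h1, h2⟩ := hH (b n)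
      rw [hHb, hcKy] at h1
      exact ⟨z, h2.1, h1.1⟩
    · intro n
      obtain ⟨z, h1, h2⟩ := hβq n
      exact ⟨z, h1.1, h2.1⟩
  -- the homotopy
  obtain ⟨G, hG, G0, G1, Gc⟩ := exists_htpy hc hΛ Λ0 Λ1 b hbemb.continuous
  obtain ⟨pn, hpn, pn1, pn2⟩ := hc.pn
  have hA : ∀ a : {m : M | lev m = 1}, 0 < lev a := fun a => by
    have : lev a = 1 := a.2
    rw [this]
    exact zero_lt_one
  have hpnA : Continuous fun a : {m : M | lev m = 1} => pn a :=
    hpn.comp_continuous continuous_subtype_val hA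
  have hJpn : ∀ a : {m : M | lev m = 1}, J (pn a, 1) = a := fun a => by
    have h1 : lev a = 1 := a.2
    have := pn2 a (hA a)
    rwa [h1] at this
  have hpnJ : ∀ n, pn (J (n, 1)) = n := fun n => pn1 n 1 zero_lt_one
  let eA : {m : M | lev m = 1} ≃ₜ E :=
    { toFun := fun a => pn a
      invFun := fun n => ⟨J (n, 1), hc.lev_J n 1⟩
      left_inv := fun a => Subtype.ext (hJpn a)
      right_inv := fun n => hpnJ n
      continuous_toFun := hpnA
      continuous_invFun := (hc.hJ.comp (continuous_id.prodMk continuous_const)).subtype_mk _ }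
  have hGA1 : (fun a : {m : M | lev m = 1} => G (pn a, 1)) = b ∘ eA := by
    funext a
    rw [G1]
    rfl
  obtain ⟨Th, hTh, hThn⟩ := hunk {m : M | lev m = 1} (sz_top hc)
    (fun x => G (pn x.1, x.2))
    (hG.comp ((hpnA.comp continuous_fst).prodMk continuous_snd))
    (fun a => by rw [G0, hJpn])
    (by
      show IsClosedEmbedding (fun a : {m : M | lev m = 1} => G (pn a, 1))
      rw [hGA1]
      exact hbemb.comp eA.isClosedEmbedding)
    (by
      show SZ (range fun a : {m : M | lev m = 1} => G (pn a, 1))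
      rw [hGA1, range_comp, eA.range_coe, image_univ]
      exact hbSZ)
    (fun a => by
      obtain ⟨z, h1, h2⟩ := hnear (pn a)
      refine ⟨z, fun t => ?_⟩
      obtain ⟨s, hs⟩ := Gc (pn a) t
      show c (G (pn a, t)) ∈ V2 z
      rw [hs]
      exact hWs z _ h2 _ h1 s)
  have hThJ : ∀ n, Th (J (n, 1)) = b n := fun n => by
    have := hTh ⟨J (n, 1), hc.lev_J n 1⟩
    simp only at this
    rw [this]
    simp only [hpnJ, G1]
  have hfJ : ∀ n, cK (H (Th (J (n, 1)))) = β n := fun n => by rw [hThJ, hHb, hcKy]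
  refine ⟨fun m => cK (H (Th m)), hcr.hcK.comp (H.continuous.comp Th.continuous), ?_, ?_, ?_, ?_⟩
  · refine near_trans s1 (g := fun m => c (Th m)) ?_ ?_
    · intro m
      obtain ⟨z, h1, h2⟩ := hH (Th m)
      exact ⟨z, h1.2, h2.2⟩
    · intro m
      obtain ⟨z, h1, h2⟩ := hThn m
      exact ⟨z, h2, h1⟩
  · intro n V hV
    have hV' : (fun m => H (Th m)) '' V ∈ 𝓝 (p (i (β n))) := by
      have h1 : H (Th (J (n, 1))) = p (i (β n)) := by rw [hThJ, hHb]
      rw [← h1]
      exact (Th.trans H).isOpenMap.image_mem_nhds hV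
    have hcK : c (i (β n)) ∈ range β := by rw [hc.c_i]; exact mem_range_self n
    obtain ⟨O, hO, hOp⟩ := hcr.at_K (i (β n)) hcK _ hV'
    refine ⟨O, ?_, ?_⟩
    · show O ∈ 𝓝 (cK (H (Th (J (n, 1)))))
      rw [hfJ]
      rwa [hc.c_i] at hO
    · intro m hm
      have hm' : cK (H (Th m)) ∈ O := hm
      obtain ⟨m', hm1⟩ := hcr.surj (H (Th m))
      rw [← hm1, hcr.cK_p] at hm'
      obtain ⟨m2, hm2, he⟩ := hOp m' hm'
      have : m2 = m := by
        have h3 : H (Th m2) = H (Th m) := by rw [← hm1]; exact he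
        exact Th.injective (H.injective h3)
      rwa [← this]
  · have : (range fun n => cK (H (Th (J (n, 1))))) = range β := by
      congr 1
      funext n
      exact hfJ n
    show IsClosed (range fun n => cK (H (Th (J (n, 1)))))
    rw [this]
    exact hβ.isClosed_range
  · intro U' hU'
    obtain ⟨H', hH'⟩ := hbing U' hU'
    refine ⟨Th.trans (H.trans H'.symm), fun m => ?_⟩
    obtain ⟨z, h1, h2⟩ := hH' (H'.symm (H (Th m)))
    rw [Homeomorph.apply_symm_apply] at h1
    exact ⟨z, h2, h1⟩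

end Pool.Agent.Tor
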