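import Pool.Agent.Lib.Tor.Resol
import Pool.Agent.Lib.Tor.CylE
import Pool.Agent.Lib.Tor.OneOne
import Pool.Agent.Lib.Tor.Layer

/-! MODULE Tor.Toru (0.3 h): the characterisation theorem. -/

open Set Topology Filter

namespace Pool.Agent.Tor

/-- Torunczyk: a Polish absolute extensor with a coded operator is homeomorphic to `E`. -/
theorem toru {X : Type} [TopologicalSpace X] [PolishSpace X] (hX : AE X) (hcod : Coded X univ)
    (hne : Nonempty X) : Nonempty (X ≃ₜ E) := by
  letI := TopologicalSpace.upgradeIsCompletelyMetrizable X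
  obtain ⟨q, s, D, hr⟩ := resolution hX hne
  obtain ⟨M, _, _, c, lev, i, J, hc⟩ := exists_cyl q hr.hq
  obtain ⟨hM⟩ := cyl_E hr hc
  have hone := exists_oneone hX hcod.metric hM hc
  have hsh := layer_shrink hc hone
  have hsurj : Function.Surjective c := fun x => ⟨i x, hc.c_i x⟩
  obtain ⟨h, -⟩ := bing c hc.hc hsurj.denseRange hsh (fun _ => univ)
    (fun _ => ⟨isOpen_univ, mem_univ _⟩)
  exact ⟨h.symm.trans hM⟩

end Pool.Agent.Tor
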