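import Pool.Agent.Lib.Tor.ModelL2
import Pool.Agent.Lib.Tor.Toru
import Pool.Agent.Lib.Tor.SZFacts
import Pool.Agent.Lib.Tor.Dugundji
import Pool.Agent.Lib.Tor.KSet

/-! MODULE Tor.Model (1.5 h): the model spaces `I x I x Q x l2`. -/

open Set Topology Filter

namespace Pool.Agent.Tor

/-- Hilbert cube -/
abbrev Q : Type := ℕ → Set.Icc (-1:ℝ) 1

/-- `Q x l2` -/
abbrev X3 : Type := Q × lp (fun _ : ℕ => ℝ) 2

/-- the pseudo-boundary part of `Q x l2` -/
def bd : Set X3 := {p | ¬ ∀ n, ((p.1 n : ℝ)) ∈ Set.Ioo (-1:ℝ) 1}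

/-- PROOF. From `N` for `X` take `N' ((y,x),t,e) = (Psi (y,t), N (x,t,e))`. All properties are
coordinatewise (`Prod.tendsto_iff`, `nhds_prod_eq`/`Filter.Tendsto.prodMk_nhds`). -/
theorem Coded.prod_left {X Y : Type} [TopologicalSpace X] [TopologicalSpace Y] (h : Coded X univ)
    (Ψ : Y × I → Y) (hΨ : Continuous Ψ)
    (h0 : ∀ (y : ℕ → Y) (t : ℕ → I) (y' : Y), Tendsto t atTop (𝓝 0) →
      (Tendsto y atTop (𝓝 y') ↔ Tendsto (fun k => Ψ (y k, t k)) atTop (𝓝 y')))
    (S : Set Y) (hS : ∀ y (t : I), 0 < t → Ψ (y, t) ∈ S) : Coded (Y × X) {p | p.1 ∈ S} := by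
  obtain ⟨N, hN, hN2, _, hN4⟩ := h
  refine ⟨fun p => (Ψ (p.1.1, p.2.1), N (p.1.2, p.2.1, p.2.2)), ?_, ?_, ?_, ?_⟩
  · exact (hΨ.comp (by fun_prop)).prodMk (hN.comp (by fun_prop))
  · intro x t e y ht
    rw [Prod.tendsto_iff, Prod.tendsto_iff]
    exact and_congr (h0 (fun k => (x k).1) t y.1 ht) (hN2 (fun k => (x k).2) t e y.2 ht)
  · intro x t e ht
    exact hS _ _ ht
  · intro x t e τ y hτ ht hlim
    rw [Prod.tendsto_iff] at hlim
    exact hN4 (fun k => (x k).2) t e τ y.2 hτ ht hlim.2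

/-- PROOF. `Coded.prod_left` with `Psi = fst` and `S = univ`. -/
theorem Coded.prod {X Y : Type} [TopologicalSpace X] [TopologicalSpace Y] (h : Coded X univ) :
    Coded (Y × X) univ := by
  have h1 := h.prod_left (Y := Y) (fun p => p.1) continuous_fst
    (fun y t y' _ => Iff.rfl) univ (fun _ _ _ => mem_univ _)
  have h2 : {p : Y × X | p.1 ∈ (univ : Set Y)} = univ := by
    ext p; simp
  rwa [h2] at h1

namespace ModelAux

theorem coded_mono {X : Type} [TopologicalSpace X] {S S' : Set X} (h : Coded X S) (hS : S ⊆ S') :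
    Coded X S' := by
  obtain ⟨N, hN, hN2, hN3, hN4⟩ := h
  exact ⟨N, hN, hN2, fun x t e ht => hS (hN3 x t e ht), hN4⟩

/-- the weight of the `i`-th coordinate -/
noncomputable def wt (i : ℕ) (t : ℝ) : ℝ := max 0 (min 1 (i * t - 1))

theorem wt_nonneg (i : ℕ) (t : ℝ) : 0 ≤ wt i t := le_max_left _ _
theorem wt_le_one (i : ℕ) (t : ℝ) : wt i t ≤ 1 := max_le zero_le_one (min_le_left _ _)

theorem comb_mem {a w : ℝ} (ha : a ∈ Set.Icc (-1 : ℝ) 1) (h0 : 0 ≤ w) (h1 : w ≤ 1) :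
    (1 - w) * a + w ∈ Set.Icc (-1 : ℝ) 1 := by
  obtain ⟨h2, h3⟩ := ha
  constructor <;> nlinarith

/-- pushing far coordinates to `1` -/
noncomputable def push (p : Q × I) : Q := fun i =>
  ⟨(1 - wt i (p.2 : ℝ)) * (p.1 i : ℝ) + wt i (p.2 : ℝ),
    comb_mem (p.1 i).2 (wt_nonneg _ _) (wt_le_one _ _)⟩

theorem push_cont : Continuous push := by
  refine continuous_pi (fun i => ?_)
  refine Continuous.subtype_mk ?_ _
  have h1 : Continuous fun p : Q × I => ((p.1 i : Set.Icc (-1 : ℝ) 1) : ℝ) :=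
    continuous_subtype_val.comp ((continuous_apply i).comp continuous_fst)
  have h2 : Continuous fun p : Q × I => (p.2 : ℝ) := continuous_subtype_val.comp continuous_snd
  have h3 : Continuous fun p : Q × I => wt i (p.2 : ℝ) := by
    unfold wt
    fun_prop
  exact ((continuous_const.sub h3).mul h1).add h3

theorem push_eq {i : ℕ} {q : Q} {t : I} (h : (i : ℝ) * t ≤ 1) : push (q, t) i = q i := by
  apply Subtype.ext
  have hw : wt i (t : ℝ) = 0 := by
    unfold wt
    exact max_eq_left ((min_le_right _ _).trans (by linarith))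
  change (1 - wt i (t : ℝ)) * (q i : ℝ) + wt i (t : ℝ) = (q i : ℝ)
  rw [hw]; ring

theorem push_one {i : ℕ} {q : Q} {t : I} (h : 2 ≤ (i : ℝ) * t) : (push (q, t) i : ℝ) = 1 := by
  have hw : wt i (t : ℝ) = 1 := by
    unfold wt
    rw [min_eq_left (by linarith), max_eq_right zero_le_one]
  change (1 - wt i (t : ℝ)) * (q i : ℝ) + wt i (t : ℝ) = 1
  rw [hw]; ring

theorem ev_small (i : ℕ) {t : ℕ → I} (ht : Tendsto t atTop (𝓝 0)) :
    ∀ᶠ k in atTop, (i : ℝ) * (t k : ℝ) ≤ 1 := by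
  have h1 : Tendsto (fun k => (i : ℝ) * (t k : ℝ)) atTop (𝓝 ((i : ℝ) * ((0 : I) : ℝ))) :=
    ((continuous_subtype_val.tendsto _).comp ht).const_mul _
  have h2 : (i : ℝ) * ((0 : I) : ℝ) < 1 := by simp
  filter_upwards [h1.eventually (gt_mem_nhds h2)] with k hk
  exact hk.le

end ModelAux

open ModelAux

/-- PROOF. `Coded.prod_left` with `X = l2` (`coded_l2.coded`), `S = {q | some coordinate is 1}` and
`Psi (q,t)_i = (1 - sg i t) q_i + sg i t`, where `sg i t = max 0 (min 1 (i t - 1))`; for `t > 0` and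
`i t >= 2` the coordinate is `1`; if `t k -> 0` then for each `i` eventually `sg i (t k) = 0`, so the
`i`-th coordinates of `y k` and `Psi (y k, t k)` agree eventually (`tendsto_pi_nhds`). Then enlarge the
set of values (`bd` contains it). -/
theorem coded_bd : Coded X3 bd := by
  have h1 : Coded X3 {p | p.1 ∈ {q : Q | ∃ i, (q i : ℝ) = 1}} := by
    refine Coded.prod_left (X := lp (fun _ : ℕ => ℝ) 2) coded_l2.coded push push_cont ?_ _ ?_
    · intro y t y' ht
      rw [tendsto_pi_nhds, tendsto_pi_nhds]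
      refine forall_congr' (fun i => ?_)
      refine tendsto_congr' ?_
      filter_upwards [ev_small i ht] with k hk
      exact (push_eq hk).symm
    · intro q t ht
      have ht' : (0 : ℝ) < t := ht
      obtain ⟨i, hi⟩ := exists_nat_ge (2 / (t : ℝ))
      refine ⟨i, push_one ?_⟩
      rwa [div_le_iff₀ ht'] at hi
  refine coded_mono h1 ?_
  rintro p ⟨i, hi⟩ hall
  have := (hall i).2
  rw [hi] at this
  exact lt_irrefl _ this

/-- PROOF. `H ((q,y),t) = ((1 - t) q, y)`. -/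
theorem hd_bd : HD bd := by
  have hmem : ∀ (a : Set.Icc (-1 : ℝ) 1) (t : I), (1 - (t : ℝ)) * (a : ℝ) ∈ Set.Icc (-1 : ℝ) 1 := by
    intro a t
    obtain ⟨h1, h2⟩ := a.2
    obtain ⟨h3, h4⟩ := t.2
    constructor <;> nlinarith
  refine ⟨fun p => (fun i => ⟨(1 - (p.2 : ℝ)) * (p.1.1 i : ℝ), hmem _ _⟩, p.1.2), ?_, ?_, ?_⟩
  · refine Continuous.prodMk ?_ (continuous_snd.comp continuous_fst)
    refine continuous_pi (fun i => ?_)
    refine Continuous.subtype_mk ?_ _
    have h1 : Continuous fun p : X3 × I => ((p.1.1 i : Set.Icc (-1 : ℝ) 1) : ℝ) :=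
      continuous_subtype_val.comp ((continuous_apply i).comp (continuous_fst.comp continuous_fst))
    have h2 : Continuous fun p : X3 × I => (p.2 : ℝ) := continuous_subtype_val.comp continuous_snd
    exact (continuous_const.sub h2).mul h1
  · intro x
    refine Prod.ext ?_ rfl
    funext i
    apply Subtype.ext
    simp
  · intro x t ht hbd
    apply hbd
    intro n
    have ht' : (0 : ℝ) < t := ht
    obtain ⟨h1, h2⟩ := (x.1 n).2
    obtain ⟨h3, h4⟩ := t.2
    change (1 - (t : ℝ)) * (x.1 n : ℝ) ∈ Set.Ioo (-1 : ℝ) 1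
    constructor <;> nlinarith

/-- PROOF. `K n = {p | exists i <= n, p.1 i = 1 or p.1 i = -1}`. -/
theorem fsigma_bd : ∃ K : ℕ → Set X3, (∀ n, IsClosed (K n)) ∧ Monotone K ∧ bd = ⋃ n, K n := by
  refine ⟨fun n => ⋃ i ∈ {i : ℕ | i ≤ n}, {p : X3 | (p.1 i : ℝ) = 1 ∨ (p.1 i : ℝ) = -1}, ?_, ?_, ?_⟩
  · intro n
    refine (Set.finite_le_nat n).isClosed_biUnion (fun i _ => ?_)
    have h1 : Continuous fun p : X3 => ((p.1 i : Set.Icc (-1 : ℝ) 1) : ℝ) :=
      continuous_subtype_val.comp ((continuous_apply i).comp continuous_fst)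
    exact (isClosed_eq h1 continuous_const).union (isClosed_eq h1 continuous_const)
  · intro n m hnm
    exact biUnion_subset_biUnion_left (fun i (hi : i ≤ n) => hi.trans hnm)
  · ext p
    simp only [mem_iUnion]
    constructor
    · intro hp
      have hp' : ¬ ∀ n, ((p.1 n : ℝ)) ∈ Set.Ioo (-1:ℝ) 1 := hp
      push Not at hp'
      obtain ⟨n, hn⟩ := hp'
      refine ⟨n, n, le_refl n, ?_⟩
      obtain ⟨h1, h2⟩ := (p.1 n).2
      by_contra hcon
      change ¬ ((p.1 n : ℝ) = 1 ∨ (p.1 n : ℝ) = -1) at hcon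
      push Not at hcon
      exact hn ⟨lt_of_le_of_ne h1 (Ne.symm hcon.2), lt_of_le_of_ne h2 hcon.1⟩
    · rintro ⟨n, i, _, hi⟩ hall
      obtain ⟨h1, h2⟩ := hall i
      rcases hi with hi | hi
      · rw [hi] at h2; exact lt_irrefl _ h2
      · rw [hi] at h1; exact lt_irrefl _ h1

/-- PROOF: `isClosed_Icc.polishSpace`, products; `l2` is separable (`separable_lp`) and complete. -/
instance polish_X3 : PolishSpace X3 := by
  have h1 : PolishSpace (Set.Icc (-1 : ℝ) 1) := isClosed_Icc.polishSpace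
  have h2 : TopologicalSpace.SeparableSpace (lp (fun _ : ℕ => ℝ) 2) :=
    separable_lp 2 ENNReal.ofNat_ne_top
  have h3 : SecondCountableTopology (lp (fun _ : ℕ => ℝ) 2) :=
    UniformSpace.secondCountable_of_separable _
  infer_instance

/-- PROOF: `AE.prod`, `AE.pi`, `ae_Icc`, `ae_normed`. -/
theorem ae_X3 : AE X3 :=
  AE.prod (AE.pi fun _ => ae_Icc (by norm_num)) (ae_normed _)

namespace ModelAux

theorem coded_X3 : Coded X3 univ := Coded.prod (X := lp (fun _ : ℕ => ℝ) 2) coded_l2.coded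

theorem ae_I : AE I := ae_Icc zero_le_one

theorem ne_X3 : Nonempty X3 := ⟨(fun _ => ⟨0, by norm_num⟩, 0)⟩

end ModelAux

/-- PROOF: `toru`, `Coded.prod`, `coded_l2`. -/
theorem X3_E : Nonempty (X3 ≃ₜ E) := toru ae_X3 coded_X3 ne_X3

/-- PROOF: the same. -/
theorem X2_E : Nonempty ((I × X3) ≃ₜ E) := by
  obtain ⟨x⟩ := ne_X3
  exact toru (AE.prod ae_I ae_X3) (Coded.prod coded_X3) ⟨(0, x)⟩

/-- PROOF: the same. -/
theorem X1_E : Nonempty ((I × I × X3) ≃ₜ E) := by
  obtain ⟨x⟩ := ne_X3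
  exact toru (AE.prod ae_I (AE.prod ae_I ae_X3)) (Coded.prod (Coded.prod coded_X3)) ⟨(0, 0, x)⟩

/-- PROOF: `sz_bottom` and `Homeomorph.prodComm` (`SZ.preimage`). -/
theorem sz_left {X : Type} [TopologicalSpace X] [TopologicalSpace.MetrizableSpace X] :
    SZ {p : I × X | p.1 = 0} :=
  SZ.preimage (Homeomorph.prodComm I X) (sz_bottom (M := X))

end Pool.Agent.Tor
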