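import Pool.Agent.Lib.Tor.HZR
import Pool.Agent.Lib.Tor.SZFacts
import Pool.Agent.Lib.Tor.Toru

/-! Tor.HZSZ: homotopy Z-sets in copies of `E` are strong Z-sets. -/

open Set Topology Filter

namespace Pool.Agent.Tor

namespace HZSZAux

/-- the cut-off of the code in the coordinate `i` -/
noncomputable def sg (i : ℕ) (t : ℝ) : ℝ := max 0 (min 1 (i * t - 1))

theorem continuous_sg (i : ℕ) : Continuous (sg i) := by
  unfold sg
  fun_prop

theorem sg_zero {i : ℕ} {t : ℝ} (h : i * t ≤ 1) : sg i t = 0 := by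
  unfold sg
  apply max_eq_left
  exact le_trans (min_le_right _ _) (by linarith)

theorem sg_one {i : ℕ} {t : ℝ} (h : 2 ≤ i * t) : sg i t = 1 := by
  unfold sg
  rw [min_eq_left (by linarith)]
  exact max_eq_right zero_le_one

/-- the coded operator of `N -> R` -/
noncomputable def nop (q : (ℕ → ℝ) × I × W) : ℕ → ℝ := fun i =>
  (1 - sg i q.2.1) * q.1 i + sg i q.2.1 * (q.2.2 (Nat.unpair i).2 : ℝ)

theorem continuous_nop : Continuous nop := by
  refine continuous_pi fun i => ?_
  unfold nop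
  have h1 : Continuous fun q : (ℕ → ℝ) × I × W => sg i (q.2.1 : ℝ) :=
    (continuous_sg i).comp (by fun_prop)
  have h2 : Continuous fun q : (ℕ → ℝ) × I × W => q.1 i := by fun_prop
  have h3 : Continuous fun q : (ℕ → ℝ) × I × W => (q.2.2 (Nat.unpair i).2 : ℝ) :=
    continuous_subtype_val.comp ((continuous_apply _).comp (by fun_prop))
  fun_prop

end HZSZAux

open HZSZAux

theorem coded_RN : Coded (ℕ → ℝ) univ := by
  refine ⟨nop, continuous_nop, ?_, fun _ _ _ _ => mem_univ _, ?_⟩
  · intro x t e y ht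
    have key : ∀ i : ℕ, (fun k => x k i) =ᶠ[atTop] fun k => nop (x k, t k, e k) i := by
      intro i
      have h1 : Tendsto (fun k => (i : ℝ) * (t k : ℝ)) atTop (𝓝 (i * ((0 : I) : ℝ))) :=
        ((continuous_subtype_val.tendsto _).comp ht).const_mul _
      have h2 : ∀ᶠ k in atTop, (i : ℝ) * (t k : ℝ) < 1 := by
        refine h1.eventually (gt_mem_nhds ?_)
        simp
      filter_upwards [h2] with k hk
      simp only [nop]
      rw [sg_zero hk.le]
      ring
    rw [tendsto_pi_nhds, tendsto_pi_nhds]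
    constructor
    · intro h i
      exact (h i).congr' (key i)
    · intro h i
      exact (h i).congr' (key i).symm
  · intro x t e τ y hτ ht hconv
    obtain ⟨m, hm⟩ := exists_nat_gt (2 / τ)
    rw [tendsto_pi_nhds] at hconv
    have key : ∀ j : ℕ, Tendsto (fun k => (e k j : ℝ)) atTop (𝓝 (y (Nat.pair m j))) := by
      intro j
      refine (hconv (Nat.pair m j)).congr fun k => ?_
      simp only [nop, Nat.unpair_pair]
      rw [sg_one]
      · ring
      · have h1 : (m : ℝ) ≤ (Nat.pair m j : ℕ) := by exact_mod_cast Nat.left_le_pair m j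
        have h2 : 2 / τ < (Nat.pair m j : ℕ) := lt_of_lt_of_le hm h1
        rw [div_lt_iff₀ hτ] at h2
        have h3 : ((Nat.pair m j : ℕ) : ℝ) * τ ≤ (Nat.pair m j : ℕ) * (t k : ℝ) :=
          mul_le_mul_of_nonneg_left (ht k) (by positivity)
        linarith
    have hpos : ∀ j : ℕ, 0 ≤ y (Nat.pair m j) := fun j =>
      ge_of_tendsto' (key j) fun k => (e k j).2
    refine ⟨fun j => ⟨y (Nat.pair m j), hpos j⟩, ?_⟩
    rw [tendsto_pi_nhds]
    intro j
    rw [tendsto_subtype_rng]
    exact key j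

theorem ae_RN : AE (ℕ → ℝ) := AE.pi fun _ => ae_normed ℝ

/-- `R^N` is homeomorphic to `E` -/
theorem RN_homeo_E : Nonempty ((ℕ → ℝ) ≃ₜ E) := toru ae_RN coded_RN ⟨0⟩

/-- in copies of `E` homotopy Z-sets are strong Z-sets -/
theorem HZ.sz {M : Type} [TopologicalSpace M] (hM : M ≃ₜ E) {A : Set M} (hA : HZ A) : SZ A := by
  obtain ⟨k⟩ := RN_homeo_E
  let h : M ≃ₜ (ℕ → ℝ) := hM.trans k.symm
  have h1 : HZ (h '' A) := hA.image h
  have h2 : SZ (h ⁻¹' (h '' A)) := (HZ.sz_R h1).preimage h
  rwa [Set.preimage_image_eq _ h.injective] at h2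

end Pool.Agent.Tor
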