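import Pool.Agent.Lib.Tor.KSet
import Pool.Agent.Lib.Tor.Unknot
import Pool.Agent.Lib.Tor.HZSZ

/-! MODULE Tor.Pair: uniqueness of coded pairs, by back and forth. -/

open Set Topology Filter

namespace Pool.Agent.Tor

namespace PairAux

/-- a continuous function with zero set a closed set, at most the distance -/
theorem exists_v {X : Type} [MetricSpace X] {L : Set X} (hL : IsClosed L) :
    ∃ v : X → ℝ, Continuous v ∧ (∀ x, 0 ≤ v x ∧ v x ≤ 1) ∧ (∀ x, x ∈ L → v x = 0) ∧
      (∀ x, x ∉ L → 0 < v x) ∧ ∀ x, ∀ y ∈ L, v x ≤ dist x y := by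
  rcases L.eq_empty_or_nonempty with rfl | hne
  · exact ⟨fun _ => 1, continuous_const, fun _ => ⟨zero_le_one, le_rfl⟩,
      fun x hx => absurd hx (notMem_empty x), fun _ _ => one_pos,
      fun x y hy => absurd hy (notMem_empty y)⟩
  · refine ⟨fun x => min 1 (Metric.infDist x L), ?_, ?_, ?_, ?_, ?_⟩
    · exact continuous_const.min (Metric.continuous_infDist_pt L)
    · exact fun x => ⟨le_min zero_le_one Metric.infDist_nonneg, min_le_left _ _⟩
    · intro x hx
      simp only [Metric.infDist_zero_of_mem hx]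
      exact min_eq_right zero_le_one
    · intro x hx
      refine lt_min one_pos ?_
      exact (hL.notMem_iff_infDist_pos hne).1 hx
    · intro x y hy
      exact le_trans (min_le_right _ _) (Metric.infDist_le_dist_of_mem hy)

/-- a coded closed embedding, constant on a closed subset of `Om` -/
theorem exists_code {X : Type} [MetricSpace X] [PolishSpace X] {Om : Set X} (hc : CodedM X Om)
    {V : X → Set X} (hV : Cov V) {A L : Set X} (hA : IsClosed A) (hL : IsClosed L)
    (hLO : L ⊆ Om) :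
    ∃ G : A × I → X, Continuous G ∧ (∀ a, G (a, 0) = a) ∧
      IsClosedEmbedding (fun a => G (a, 1)) ∧ (∀ a, G (a, 1) ∈ Om) ∧
      (∀ a : A, (a : X) ∈ L → G (a, 1) = a) ∧ ∀ a, ∃ z, ∀ t, G (a, t) ∈ V z := by
  obtain ⟨N, hN, hNd, hNO, hNR⟩ := hc
  have : PolishSpace A := hA.polishSpace
  obtain ⟨e, he⟩ := exists_emb_W A
  obtain ⟨v, hv, hv01, hv0, hvp, hvd⟩ := exists_v hL
  have hN0 : ∀ x c, N (x, 0, c) = x := by
    intro x c
    have := hNd x 0 c
    have h0 : ((0 : I) : ℝ) = 0 := rfl
    rw [h0] at this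
    exact dist_le_zero.1 this
  obtain ⟨ε, hε, hε1, hεP⟩ := exists_below (Z := A)
    (fun a r => ∃ z, ∀ s : I, (s : ℝ) ≤ r → N (a, s, e a) ∈ V z)
    (fun a r s _ hrs h => by
      obtain ⟨z, hz⟩ := h
      exact ⟨z, fun t ht => hz t (le_trans ht hrs)⟩)
    (by
      intro a₀
      have hcont : Continuous fun q : A × I => N ((q.1 : X), q.2, e q.1) := by
        have := he.continuous
        fun_prop
      have h1 : ∀ᶠ q : A × I in 𝓝 (a₀, 0), N ((q.1 : X), q.2, e q.1) ∈ V a₀ := by
        refine hcont.continuousAt.eventually ?_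
        simp only [hN0]
        exact (hV (a₀ : X)).1.mem_nhds (hV (a₀ : X)).2
      rw [nhds_prod_eq, eventually_prod_iff] at h1
      obtain ⟨pa, hpa, pb, hpb, hh⟩ := h1
      obtain ⟨ρ, hρ, hball⟩ := Metric.eventually_nhds_iff.1 hpb
      refine ⟨ρ / 2, by positivity, ?_⟩
      filter_upwards [hpa] with a ha
      refine ⟨a₀, fun s hs => hh ha (hball ?_)⟩
      rw [Subtype.dist_eq, Real.dist_eq]
      have : ((0 : I) : ℝ) = 0 := rfl
      rw [this, sub_zero, abs_of_nonneg s.2.1]
      linarith)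
  -- the parameter
  let tr : A → ℝ := fun a => min (ε a) (v a / 2)
  have htr : Continuous tr := by
    have h2 : Continuous fun a : A => v a := hv.comp continuous_subtype_val
    exact hε.min (h2.div_const 2)
  have htr01 : ∀ a, 0 ≤ tr a ∧ tr a ≤ 1 := fun a =>
    ⟨le_min (hε1 a).1.le (by have := (hv01 (a : X)).1; linarith),
      le_trans (min_le_left _ _) (hε1 a).2⟩
  have htr0 : ∀ a : A, (a : X) ∈ L → tr a = 0 := by
    intro a ha
    have : v a = 0 := hv0 a ha
    simp only [tr, this, zero_div]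
    exact min_eq_right (hε1 a).1.le
  have htrp : ∀ a : A, (a : X) ∉ L → 0 < tr a := fun a ha =>
    lt_min (hε1 a).1 (by have := hvp (a : X) ha; linarith)
  have htrv : ∀ a : A, tr a ≤ v a / 2 := fun a => min_le_right _ _
  have hmul : ∀ q : A × I, (q.2 : ℝ) * tr q.1 ∈ Icc (0 : ℝ) 1 := fun q =>
    ⟨mul_nonneg q.2.2.1 (htr01 q.1).1, mul_le_one₀ q.2.2.2 (htr01 q.1).1 (htr01 q.1).2⟩
  let G : A × I → X := fun q => N (q.1, ⟨(q.2 : ℝ) * tr q.1, hmul q⟩, e q.1)
  have hG : Continuous G := by
    have h1 := he.continuous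
    have h2 : Continuous fun q : A × I => (⟨(q.2 : ℝ) * tr q.1, hmul q⟩ : I) := by
      apply Continuous.subtype_mk
      fun_prop
    fun_prop
  let ta : A → I := fun a => ⟨tr a, htr01 a⟩
  have hta : Continuous ta := htr.subtype_mk _
  let g : A → X := fun a => N (a, ta a, e a)
  have hG1 : ∀ a, G (a, 1) = g a := by
    intro a
    have : (⟨((1 : I) : ℝ) * tr a, hmul (a, 1)⟩ : I) = ta a := by
      apply Subtype.ext
      simp [ta]
    simp only [G, this, g]
  have hg : Continuous g := by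
    have h1 := he.continuous
    fun_prop
  have hgd : ∀ a, dist (g a) a ≤ tr a := fun a => hNd a (ta a) (e a)
  have hgL : ∀ a : A, (a : X) ∈ L → g a = a := by
    intro a ha
    have := hgd a
    rw [htr0 a ha] at this
    exact dist_le_zero.1 this
  have hgnL : ∀ a : A, (a : X) ∉ L → g a ∉ L := by
    intro a ha hmem
    have h1 := hgd a
    have h2 := htrv a
    have h3 := hvd (a : X) (g a) hmem
    rw [dist_comm] at h3
    have h4 := hvp (a : X) ha
    linarith
  have hgO : ∀ a, g a ∈ Om := by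
    intro a
    by_cases ha : (a : X) ∈ L
    · rw [hgL a ha]
      exact hLO ha
    · exact hNO a (ta a) (e a) (htrp a ha)
  have hginj : Function.Injective g := by
    intro p q hpq
    by_cases hp : (p : X) ∈ L
    · by_cases hq : (q : X) ∈ L
      · rw [hgL p hp, hgL q hq] at hpq
        exact Subtype.ext hpq
      · exact absurd (hpq ▸ (hgL p hp).symm ▸ hp) (hgnL q hq)
    · by_cases hq : (q : X) ∈ L
      · exact absurd (hpq.symm ▸ (hgL q hq).symm ▸ hq) (hgnL p hp)
      · -- both codes are read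
        let u : ℕ → A := fun k => if Even k then p else q
        have hu : ∀ k, g (u k) = g p := by
          intro k
          simp only [u]
          split_ifs
          · rfl
          · exact hpq.symm
        obtain ⟨c, hc⟩ := hNR (fun k => (u k : X)) (fun k => ta (u k)) (fun k => e (u k))
          (min (tr p) (tr q)) (g p) (lt_min (htrp p hp) (htrp q hq)) (by
            intro k
            simp only [u]
            split_ifs
            · exact min_le_left _ _
            · exact min_le_right _ _) (by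
            have : (fun k => N ((u k : X), ta (u k), e (u k))) = fun _ => g p := by
              funext k
              exact hu k
            rw [this]
            exact tendsto_const_nhds)
        have m1 : StrictMono fun k : ℕ => 2 * k := fun a b h => by
          show 2 * a < 2 * b
          omega
        have m2 : StrictMono fun k : ℕ => 2 * k + 1 := fun a b h => by
          show 2 * a + 1 < 2 * b + 1
          omega
        have h1 : Tendsto (fun k : ℕ => e (u (2 * k))) atTop (𝓝 c) := hc.comp m1.tendsto_atTop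
        have h2 : Tendsto (fun k : ℕ => e (u (2 * k + 1))) atTop (𝓝 c) :=
          hc.comp m2.tendsto_atTop
        have e1 : (fun k : ℕ => e (u (2 * k))) = fun _ => e p := by
          funext k
          simp only [u]
          rw [if_pos (even_two_mul k)]
        have e2 : (fun k : ℕ => e (u (2 * k + 1))) = fun _ => e q := by
          funext k
          simp only [u]
          rw [if_neg (by rw [Nat.not_even_iff_odd]; exact odd_two_mul_add_one k)]
        rw [e1] at h1
        rw [e2] at h2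
        have h3 := tendsto_nhds_unique h1 tendsto_const_nhds
        have h4 := tendsto_nhds_unique h2 tendsto_const_nhds
        exact he.injective (h3.symm.trans h4)
  have hgcl : IsClosedMap g := by
    intro K hK
    rw [← isSeqClosed_iff_isClosed]
    intro u y hu huy
    choose a haK hau using hu
    by_cases hcase : ∃ τ > 0, ∃ᶠ k in atTop, τ ≤ tr (a k)
    · obtain ⟨τ, hτ, hfr⟩ := hcase
      obtain ⟨φ, hφ, hφt⟩ := extraction_of_frequently_atTop hfr
      obtain ⟨c, hc⟩ := hNR (fun k => (a (φ k) : X)) (fun k => ta (a (φ k)))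
        (fun k => e (a (φ k))) τ y hτ hφt (by
          have := huy.comp hφ.tendsto_atTop
          refine this.congr fun k => ?_
          exact (hau (φ k)).symm)
      have hmem : c ∈ e '' K := by
        refine (he.isClosedMap K hK).mem_of_tendsto hc (Eventually.of_forall fun k => ?_)
        exact ⟨a (φ k), haK _, rfl⟩
      obtain ⟨b, hb, rfl⟩ := hmem
      have hab : Tendsto (fun k => a (φ k)) atTop (𝓝 b) := he.isInducing.tendsto_nhds_iff.2 hc
      refine ⟨b, hb, ?_⟩
      have h1 : Tendsto (fun k => g (a (φ k))) atTop (𝓝 (g b)) := (hg.tendsto b).comp hab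
      have h2 : Tendsto (fun k => g (a (φ k))) atTop (𝓝 y) := by
        refine (huy.comp hφ.tendsto_atTop).congr fun k => ?_
        exact (hau (φ k)).symm
      exact tendsto_nhds_unique h1 h2
    · push Not at hcase
      have ht0 : Tendsto (fun k => tr (a k)) atTop (𝓝 0) := by
        rw [tendsto_order]
        constructor
        · intro c hc
          exact Eventually.of_forall fun k => lt_of_lt_of_le hc (htr01 _).1
        · intro c hc
          exact hcase c hc
      have hay : Tendsto (fun k => (a k : X)) atTop (𝓝 y) := by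
        rw [tendsto_iff_dist_tendsto_zero] at huy ⊢
        refine squeeze_zero (fun _ => dist_nonneg) (fun k => ?_) (by simpa using ht0.add huy)
        have h1 := dist_triangle (a k : X) (u k) y
        have h2 := hgd (a k)
        rw [hau, dist_comm] at h2
        linarith
      have hyA : y ∈ A := hA.mem_of_tendsto hay (Eventually.of_forall fun k => (a k).2)
      have hay' : Tendsto a atTop (𝓝 ⟨y, hyA⟩) := by
        rw [tendsto_subtype_rng]
        exact hay
      have hyK : (⟨y, hyA⟩ : A) ∈ K := hK.mem_of_tendsto hay' (Eventually.of_forall haK)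
      refine ⟨⟨y, hyA⟩, hyK, ?_⟩
      have h1 : Tendsto (fun k => g (a k)) atTop (𝓝 (g ⟨y, hyA⟩)) := (hg.tendsto _).comp hay'
      have h2 : Tendsto (fun k => g (a k)) atTop (𝓝 y) := huy.congr fun k => (hau k).symm
      exact tendsto_nhds_unique h1 h2
  refine ⟨G, hG, ?_, ?_, ?_, ?_, ?_⟩
  · intro a
    have : (⟨((0 : I) : ℝ) * tr a, hmul (a, 0)⟩ : I) = 0 := by
      apply Subtype.ext
      simp
    simp only [G, this, hN0]
  · have : (fun a => G (a, 1)) = g := funext hG1
    rw [this]
    exact IsClosedEmbedding.of_continuous_injective_isClosedMap hg hginj hgcl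
  · intro a
    rw [hG1]
    exact hgO a
  · intro a ha
    rw [hG1]
    exact hgL a ha
  · intro a
    obtain ⟨z, hz⟩ := hεP a
    refine ⟨z, fun t => hz _ ?_⟩
    show (t : ℝ) * tr a ≤ ε a
    have h1 : (t : ℝ) * tr a ≤ 1 * tr a := mul_le_mul_of_nonneg_right t.2.2 (htr01 a).1
    have h2 : tr a ≤ ε a := min_le_left _ _
    linarith

/-- half a step -/
theorem half {X X' : Type} [MetricSpace X] [MetricSpace X'] [PolishSpace X']
    (hX : X ≃ₜ E) (hX' : X' ≃ₜ E) {Om : Set X} {Om' : Set X'} (hd : HD Om)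
    (hc' : CodedM X' Om') (hd' : HD Om') (h : X ≃ₜ X') {L C : Set X} (hL : IsClosed L)
    (hLO : h '' L ⊆ Om') (hC : IsClosed C) (hCO : C ⊆ Om) (ε : ℝ) (hε : 0 < ε) :
    ∃ h1 : X ≃ₜ X', (∀ x ∈ C, x ∈ L → h1 x = h x) ∧ h1 '' C ⊆ Om' ∧
      (∀ x, dist (h1 x) (h x) ≤ ε) ∧ ∀ y, dist (h1.symm y) (h.symm y) ≤ ε := by
  let U : X' → Set X' := fun z => {y | dist y z < ε / 2 ∧ dist (h.symm y) (h.symm z) < ε / 2}
  have hU : Cov U := by
    intro z
    refine ⟨?_, ?_⟩
    · have h1 : Continuous fun y => dist y z := by fun_prop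
      have h2 : Continuous fun y => dist (h.symm y) (h.symm z) := by fun_prop
      exact (isOpen_lt h1 continuous_const).inter (isOpen_lt h2 continuous_const)
    · show dist z z < ε / 2 ∧ dist (h.symm z) (h.symm z) < ε / 2
      rw [dist_self, dist_self]
      exact ⟨half_pos hε, half_pos hε⟩
  obtain ⟨V, hV, hun⟩ := unknot hX' (id : X' → X') continuous_id U hU
  have hA : IsClosed (h '' C) := h.isClosedMap C hC
  have hSA : SZ (h '' C) := (HZ.sz hX (hd.hz hC hCO)).image h
  obtain ⟨G, hG, hG0, hG1, hGO, hGL, hGV⟩ := exists_code hc' hV hA (h.isClosedMap L hL) hLO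
  have hSG : SZ (range fun a => G (a, 1)) := by
    refine HZ.sz hX' (hd'.hz hG1.isClosed_range ?_)
    rintro _ ⟨a, rfl⟩
    exact hGO a
  obtain ⟨f, hf1, hf2⟩ := hun (h '' C) hSA G hG hG0 hG1 hSG hGV
  refine ⟨h.trans f, ?_, ?_, ?_, ?_⟩
  · intro x hx hxL
    have h1 := hf1 ⟨h x, x, hx, rfl⟩
    have h2 := hGL ⟨h x, x, hx, rfl⟩ ⟨x, hxL, rfl⟩
    show f (h x) = h x
    exact h1.trans h2
  · rintro _ ⟨x, hx, rfl⟩
    have h1 := hf1 ⟨h x, x, hx, rfl⟩
    show f (h x) ∈ Om'
    rw [show f (h x) = _ from h1]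
    exact hGO _
  · intro x
    obtain ⟨z, h1, h2⟩ := hf2 (h x)
    have h3 : dist (h x) z < ε / 2 := h1.1
    have h4 : dist (f (h x)) z < ε / 2 := h2.1
    have h5 := dist_triangle_right (f (h x)) (h x) z
    show dist (f (h x)) (h x) ≤ ε
    linarith
  · intro y
    obtain ⟨z, h1, h2⟩ := hf2 (f.symm y)
    have h3 : dist (h.symm (f.symm y)) (h.symm z) < ε / 2 := h1.2
    have h4 : dist (h.symm (f (f.symm y))) (h.symm z) < ε / 2 := h2.2
    rw [Homeomorph.apply_symm_apply] at h4
    have h5 := dist_triangle_right (h.symm (f.symm y)) (h.symm y) (h.symm z)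
    show dist (h.symm (f.symm y)) (h.symm y) ≤ ε
    linarith

/-- limits of homeomorphisms which are Cauchy together with their inverses -/
theorem lim_homeo {X X' : Type} [MetricSpace X] [MetricSpace X'] [CompleteSpace X]
    [CompleteSpace X'] (h : ℕ → X ≃ₜ X')
    (h1 : ∀ n x, dist (h n x) (h (n + 1) x) ≤ 1 / 2 / 2 ^ n)
    (h2 : ∀ n y, dist ((h n).symm y) ((h (n + 1)).symm y) ≤ 1 / 2 / 2 ^ n) :
    ∃ H : X ≃ₜ X', ∀ x, Tendsto (fun n => h n x) atTop (𝓝 (H x)) := by
  have c1 : ∀ x, CauchySeq fun n => h n x := fun x =>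
    cauchySeq_of_le_geometric_two (fun n => h1 n x)
  have c2 : ∀ y, CauchySeq fun n => (h n).symm y := fun y =>
    cauchySeq_of_le_geometric_two (fun n => h2 n y)
  choose H hH using fun x => cauchySeq_tendsto_of_complete (c1 x)
  choose K hK using fun y => cauchySeq_tendsto_of_complete (c2 y)
  have d1 : ∀ n x, dist (h n x) (H x) ≤ 1 / 2 ^ n := fun n x =>
    dist_le_of_le_geometric_two_of_tendsto (fun n => h1 n x) (hH x) n
  have d2 : ∀ n y, dist ((h n).symm y) (K y) ≤ 1 / 2 ^ n := fun n y =>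
    dist_le_of_le_geometric_two_of_tendsto (fun n => h2 n y) (hK y) n
  have hz : Tendsto (fun n : ℕ => (1 : ℝ) / 2 ^ n) atTop (𝓝 0) := by
    have := tendsto_pow_atTop_nhds_zero_of_lt_one (r := (1 / 2 : ℝ)) (by norm_num) (by norm_num)
    refine this.congr fun n => ?_
    rw [div_pow, one_pow]
  have hHc : Continuous H := by
    refine continuous_of_uniform_approx_of_continuous (fun u hu => ?_)
    obtain ⟨ε, hε, hεu⟩ := Metric.mem_uniformity_dist.1 hu
    obtain ⟨n, hn⟩ := (hz.eventually (gt_mem_nhds hε)).exists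
    refine ⟨h n, (h n).continuous, fun y => hεu ?_⟩
    rw [dist_comm]
    exact lt_of_le_of_lt (d1 n y) hn
  have hKc : Continuous K := by
    refine continuous_of_uniform_approx_of_continuous (fun u hu => ?_)
    obtain ⟨ε, hε, hεu⟩ := Metric.mem_uniformity_dist.1 hu
    obtain ⟨n, hn⟩ := (hz.eventually (gt_mem_nhds hε)).exists
    refine ⟨(h n).symm, (h n).symm.continuous, fun y => hεu ?_⟩
    rw [dist_comm]
    exact lt_of_le_of_lt (d2 n y) hn
  have hHK : ∀ y, H (K y) = y := by
    intro y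
    have t1 : Tendsto (fun n => H ((h n).symm y)) atTop (𝓝 (H (K y))) :=
      (hHc.tendsto _).comp (hK y)
    have t2 : Tendsto (fun n => H ((h n).symm y)) atTop (𝓝 y) := by
      rw [tendsto_iff_dist_tendsto_zero]
      refine squeeze_zero (fun _ => dist_nonneg) (fun n => ?_) hz
      have := d1 n ((h n).symm y)
      rw [Homeomorph.apply_symm_apply, dist_comm] at this
      exact this
    exact tendsto_nhds_unique t1 t2
  have hKH : ∀ x, K (H x) = x := by
    intro x
    have t1 : Tendsto (fun n => K (h n x)) atTop (𝓝 (K (H x))) :=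
      (hKc.tendsto _).comp (hH x)
    have t2 : Tendsto (fun n => K (h n x)) atTop (𝓝 x) := by
      rw [tendsto_iff_dist_tendsto_zero]
      refine squeeze_zero (fun _ => dist_nonneg) (fun n => ?_) hz
      have := d2 n (h n x)
      rw [Homeomorph.symm_apply_apply, dist_comm] at this
      exact this
    exact tendsto_nhds_unique t1 t2
  exact ⟨⟨⟨H, K, hKH, hHK⟩, hHc, hKc⟩, hH⟩

end PairAux

open PairAux

/-- Two coded pairs are homeomorphic (back and forth). -/
theorem pair {X X' : Type} [TopologicalSpace X] [PolishSpace X] [TopologicalSpace X']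
    [PolishSpace X'] (hX : X ≃ₜ E) (hX' : X' ≃ₜ E) {Om : Set X} {Om' : Set X'}
    (hc : Coded X Om) (hc' : Coded X' Om')
    (hF : ∃ K : ℕ → Set X, (∀ n, IsClosed (K n)) ∧ Om = ⋃ n, K n)
    (hF' : ∃ K : ℕ → Set X', (∀ n, IsClosed (K n)) ∧ Om' = ⋃ n, K n)
    (hd : HD Om) (hd' : HD Om') : ∃ h : X ≃ₜ X', h '' Om = Om' := by
  obtain ⟨K, hK, hKO⟩ := hF
  obtain ⟨K', hK', hKO'⟩ := hF'
  let _ : MetricSpace X := (TopologicalSpace.upgradeIsCompletelyMetrizable X).toMetricSpace
  have : CompleteSpace X :=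
    (TopologicalSpace.upgradeIsCompletelyMetrizable X).toCompleteSpace
  let _ : MetricSpace X' := (TopologicalSpace.upgradeIsCompletelyMetrizable X').toMetricSpace
  have : CompleteSpace X' :=
    (TopologicalSpace.upgradeIsCompletelyMetrizable X').toCompleteSpace
  have hcm : CodedM X Om := hc.metric
  have hcm' : CodedM X' Om' := hc'.metric
  have hKsub : ∀ n, K n ⊆ Om := fun n => by rw [hKO]; exact subset_iUnion K n
  have hKsub' : ∀ n, K' n ⊆ Om' := fun n => by rw [hKO']; exact subset_iUnion K' n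
  -- states
  let St : Type := {p : (X ≃ₜ X') × Set X // IsClosed p.2 ∧ p.2 ⊆ Om ∧ p.1 '' p.2 ⊆ Om'}
  have step : ∀ (n : ℕ) (p : St), ∃ q : St, p.1.2 ⊆ q.1.2 ∧ (∀ x ∈ p.1.2, q.1.1 x = p.1.1 x) ∧
      K n ⊆ q.1.2 ∧ K' n ⊆ q.1.1 '' q.1.2 ∧
      (∀ x, dist (p.1.1 x) (q.1.1 x) ≤ 1 / 2 / 2 ^ n) ∧
      ∀ y, dist (p.1.1.symm y) (q.1.1.symm y) ≤ 1 / 2 / 2 ^ n := by
    rintro n ⟨⟨h, L⟩, hL, hLO, hLO'⟩
    simp only at hL hLO hLO'
    have hε : (0 : ℝ) < 1 / 4 / 2 ^ n := by positivity
    have hε2 : (1 : ℝ) / 4 / 2 ^ n + 1 / 4 / 2 ^ n = 1 / 2 / 2 ^ n := by ring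
    obtain ⟨h1, a1, a2, a3, a4⟩ := half hX hX' hd hcm' hd' h hL hLO' (hL.union (hK n))
      (union_subset hLO (hKsub n)) _ hε
    have hcl : IsClosed (h1 '' (L ∪ K n)) := h1.isClosedMap _ (hL.union (hK n))
    have himg : h1.symm '' (h1 '' (L ∪ K n)) = L ∪ K n := by
      rw [← Set.image_comp]
      simp
    obtain ⟨h2, b1, b2, b3, b4⟩ := half hX' hX hd' hcm hd h1.symm hcl
      (by rw [himg]; exact union_subset hLO (hKsub n)) (hcl.union (hK' n))
      (union_subset a2 (hKsub' n)) _ hε
    set C' : Set X' := h1 '' (L ∪ K n) ∪ K' n with hC'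
    have hfix : ∀ x ∈ L ∪ K n, h2 (h1 x) = x := by
      intro x hx
      have := b1 (h1 x) (Or.inl ⟨x, hx, rfl⟩) ⟨x, hx, rfl⟩
      rw [this, Homeomorph.symm_apply_apply]
    have hback : h2.symm '' (h2 '' C') = C' := by
      rw [← Set.image_comp]
      simp
    have hsub : L ∪ K n ⊆ h2 '' C' := by
      intro x hx
      exact ⟨h1 x, Or.inl ⟨x, hx, rfl⟩, hfix x hx⟩
    refine ⟨⟨(h2.symm, h2 '' C'), h2.isClosedMap _ (hcl.union (hK' n)), b2, ?_⟩, ?_, ?_, ?_, ?_,
      ?_, ?_⟩
    · show h2.symm '' (h2 '' C') ⊆ Om'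
      rw [hback]
      exact union_subset a2 (hKsub' n)
    · exact subset_union_left.trans hsub
    · intro x hx
      show h2.symm x = h x
      rw [Homeomorph.symm_apply_eq]
      have e1 : h1 x = h x := a1 x (Or.inl hx) hx
      rw [← e1]
      exact (hfix x (Or.inl hx)).symm
    · exact subset_union_right.trans hsub
    · show K' n ⊆ h2.symm '' (h2 '' C')
      rw [hback]
      exact subset_union_right
    · intro x
      show dist (h x) (h2.symm x) ≤ 1 / 2 / 2 ^ n
      have e1 := a3 x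
      have e2 := b4 x
      have e3 := dist_triangle (h x) (h1 x) (h2.symm x)
      rw [dist_comm (h x) (h1 x), dist_comm (h1 x) (h2.symm x)] at e3
      have e4 : dist (h2.symm x) (h1.symm.symm x) ≤ 1 / 4 / 2 ^ n := e2
      have e5 : h1.symm.symm x = h1 x := rfl
      rw [e5] at e4
      linarith
    · intro y
      show dist (h.symm y) (h2.symm.symm y) ≤ 1 / 2 / 2 ^ n
      have e5 : h2.symm.symm y = h2 y := rfl
      rw [e5]
      have e1 := a4 y
      have e2 := b3 y
      have e3 := dist_triangle (h.symm y) (h1.symm y) (h2 y)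
      rw [dist_comm (h.symm y) (h1.symm y), dist_comm (h1.symm y) (h2 y)] at e3
      linarith
  let p0 : St := ⟨(hX.trans hX'.symm, ∅), isClosed_empty, empty_subset _, by simp⟩
  choose nx hnx using step
  let S : ℕ → St := fun n => Nat.rec p0 (fun n q => nx n q) n
  have hS : ∀ n, S (n + 1) = nx n (S n) := fun n => rfl
  have s1 : ∀ n, (S n).1.2 ⊆ (S (n + 1)).1.2 := fun n => (hnx n (S n)).1
  have s2 : ∀ n, ∀ x ∈ (S n).1.2, (S (n + 1)).1.1 x = (S n).1.1 x := fun n => (hnx n (S n)).2.1
  have s3 : ∀ n, K n ⊆ (S (n + 1)).1.2 := fun n => (hnx n (S n)).2.2.1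
  have s4 : ∀ n, K' n ⊆ (S (n + 1)).1.1 '' (S (n + 1)).1.2 := fun n => (hnx n (S n)).2.2.2.1
  obtain ⟨H, hH⟩ := lim_homeo (fun n => (S n).1.1) (fun n => (hnx n (S n)).2.2.2.2.1)
    (fun n => (hnx n (S n)).2.2.2.2.2)
  have stab : ∀ n m, n ≤ m → (S n).1.2 ⊆ (S m).1.2 ∧
      ∀ x ∈ (S n).1.2, (S m).1.1 x = (S n).1.1 x := by
    intro n m hnm
    induction m, hnm using Nat.le_induction with
    | base => exact ⟨Subset.rfl, fun x _ => rfl⟩
    | succ m _ ih =>
      refine ⟨ih.1.trans (s1 m), fun x hx => ?_⟩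
      rw [s2 m x (ih.1 hx), ih.2 x hx]
  have hHS : ∀ n, ∀ x ∈ (S n).1.2, H x = (S n).1.1 x := by
    intro n x hx
    refine tendsto_nhds_unique (hH x) ?_
    refine tendsto_const_nhds.congr' ?_
    filter_upwards [eventually_ge_atTop n] with m hm
    exact ((stab n m hm).2 x hx).symm
  refine ⟨H, Subset.antisymm ?_ ?_⟩
  · rintro _ ⟨x, hx, rfl⟩
    rw [hKO, mem_iUnion] at hx
    obtain ⟨n, hn⟩ := hx
    have h1 := s3 n hn
    rw [hHS (n + 1) x h1]
    exact (S (n + 1)).2.2.2 ⟨x, h1, rfl⟩
  · intro y hy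
    rw [hKO', mem_iUnion] at hy
    obtain ⟨n, hn⟩ := hy
    obtain ⟨x, hx, hxy⟩ := s4 n hn
    refine ⟨x, (S (n + 1)).2.2.1 hx, ?_⟩
    rw [hHS (n + 1) x hx]
    exact hxy

end Pool.Agent.Tor
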