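import Pool.Agent.Lib.Tor.Nested
import Pool.Agent.Lib.Tor.Pair
import Pool.Agent.Lib.Tor.Model
import Pool.Agent.Lib.Tor.IntAE
import Pool.Agent.Lib.Tor.Toru

/-! Tor.Final: the quadruple of spaces of interval maps, given the coding operators. -/

open Set Topology Filter

namespace Pool.Agent.Tor

namespace FinalAux

theorem Coded.mono {X : Type} [TopologicalSpace X] {Om Om' : Set X} (h : Coded X Om)
    (hs : Om ⊆ Om') : Coded X Om' := by
  obtain ⟨N, h1, h2, h3, h4⟩ := h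
  exact ⟨N, h1, h2, fun x t e ht => hs (h3 x t e ht), h4⟩

/-- the zero slice -/
def slice (X : Type) [TopologicalSpace X] : {p : I × X | p.1 = 0} ≃ₜ X where
  toFun p := p.1.2
  invFun x := ⟨(0, x), rfl⟩
  left_inv p := by
    apply Subtype.ext
    have : p.1.1 = 0 := p.2
    exact Prod.ext this.symm rfl
  right_inv x := rfl
  continuous_toFun := continuous_snd.comp continuous_subtype_val
  continuous_invFun := by
    refine Continuous.subtype_mk ?_ _
    fun_prop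

/-- closure of the transitive maps inside the surjective maps -/
def inner : {f : SI | f.1 ∈ closure Tr} ≃ₜ TI where
  toFun a := ⟨a.1.1, a.2⟩
  invFun f := ⟨⟨f.1, surj_of_mem_closure f.2⟩, f.2⟩
  left_inv a := rfl
  right_inv f := rfl
  continuous_toFun := by
    refine Continuous.subtype_mk ?_ _
    exact continuous_subtype_val.comp continuous_subtype_val
  continuous_invFun := by
    refine Continuous.subtype_mk ?_ _
    refine Continuous.subtype_mk ?_ _
    exact continuous_subtype_val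

end FinalAux

open FinalAux

theorem final (hC : Coded CI univ) (hS : Coded SI univ) (hT : Coded TI {f : TI | f.1 ∉ Tr}) :
    ∃ h : CI ≃ₜ (I × I × X3),
      h '' {f : CI | Function.Surjective f} = {p | p.1 = 0} ∧
      h '' closure Tr = {p | p.1 = 0 ∧ p.2.1 = 0} ∧
      h '' Tr = {p | p.1 = 0 ∧ p.2.1 = 0 ∧ ∀ n, ((p.2.2.1 n : ℝ)) ∈ Set.Ioo (-1:ℝ) 1} := by
  have hid : Function.Surjective (ContinuousMap.id unitInterval : CI) := fun x => ⟨x, rfl⟩
  obtain ⟨eC⟩ := toru ae_CI hC ⟨ContinuousMap.id unitInterval⟩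
  obtain ⟨eS⟩ := toru ae_SI hS ⟨⟨ContinuousMap.id unitInterval, hid⟩⟩
  obtain ⟨eT⟩ := toru ae_TI (Coded.mono hT (subset_univ _))
    ⟨⟨_, defo_mem (ContinuousMap.id unitInterval)⟩⟩
  obtain ⟨e1⟩ := X1_E
  obtain ⟨e2⟩ := X2_E
  obtain ⟨e3⟩ := X3_E
  -- the pair
  obtain ⟨K, hK, -, hKT⟩ := fsigma_TI
  obtain ⟨K', hK', -, hKB⟩ := fsigma_bd
  obtain ⟨h3, hh3⟩ := pair eT e3 hT coded_bd ⟨K, hK, hKT⟩ ⟨K', hK', hKB⟩ hd_TI hd_bd
  have h3iff : ∀ f : TI, f.1 ∈ Tr ↔ ∀ n, (((h3 f).1 n : ℝ)) ∈ Set.Ioo (-1:ℝ) 1 := by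
    intro f
    have h1 : f ∈ {f : TI | f.1 ∉ Tr} ↔ h3 f ∈ bd := by
      rw [← hh3]
      exact (h3.injective.mem_set_image).symm
    have h2 : f.1 ∉ Tr ↔ ¬ ∀ n, (((h3 f).1 n : ℝ)) ∈ Set.Ioo (-1:ℝ) 1 := h1
    exact not_iff_not.1 h2
  -- closure of the transitive maps in the surjective maps
  obtain ⟨h2, hh2⟩ := nested eS e2 (HZ.sz eS hz_TI) (sz_left (X := X3))
    ((inner.trans h3).trans (slice X3).symm)
  have hh2' : ∀ (f : SI) (hf : f.1 ∈ closure Tr), h2 f = (0, h3 ⟨f.1, hf⟩) := by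
    intro f hf
    have := hh2 ⟨f, hf⟩
    exact this
  -- the surjective maps
  obtain ⟨h1, hh1⟩ := nested eC e1 (HZ.sz eC hz_SI) (sz_left (X := I × X3))
    ((show {f : CI | Function.Surjective f} ≃ₜ I × X3 from h2).trans (slice (I × X3)).symm)
  have hh1' : ∀ (f : CI) (hf : Function.Surjective f), h1 f = (0, h2 ⟨f, hf⟩) := by
    intro f hf
    have := hh1 ⟨f, hf⟩
    exact this
  have hall : ∀ (f : CI) (hf : f ∈ closure Tr), h1 f = (0, 0, h3 ⟨f, hf⟩) := by
    intro f hf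
    rw [hh1' f (surj_of_mem_closure hf), hh2' _ hf]
  refine ⟨h1, ?_, ?_, ?_⟩
  · ext p
    constructor
    · rintro ⟨f, hf, rfl⟩
      rw [hh1' f hf]
      rfl
    · intro hp
      have hp' : p.1 = 0 := hp
      refine ⟨(h2.symm p.2).1, (h2.symm p.2).2, ?_⟩
      rw [hh1' _ (h2.symm p.2).2]
      refine Prod.ext hp'.symm ?_
      exact h2.apply_symm_apply p.2
  · ext p
    constructor
    · rintro ⟨f, hf, rfl⟩
      rw [hall f hf]
      exact ⟨rfl, rfl⟩
    · rintro ⟨hp1, hp2⟩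
      refine ⟨(h3.symm p.2.2).1, (h3.symm p.2.2).2, ?_⟩
      rw [hall _ (h3.symm p.2.2).2]
      refine Prod.ext hp1.symm (Prod.ext hp2.symm ?_)
      exact h3.apply_symm_apply p.2.2
  · ext p
    constructor
    · rintro ⟨f, hf, rfl⟩
      have hf' : f ∈ closure Tr := subset_closure hf
      rw [hall f hf']
      exact ⟨rfl, rfl, (h3iff ⟨f, hf'⟩).1 hf⟩
    · rintro ⟨hp1, hp2, hp3⟩
      refine ⟨(h3.symm p.2.2).1, ?_, ?_⟩
      · refine (h3iff (h3.symm p.2.2)).2 ?_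
        rw [h3.apply_symm_apply]
        exact hp3
      · rw [hall _ (h3.symm p.2.2).2]
        refine Prod.ext hp1.symm (Prod.ext hp2.symm ?_)
        exact h3.apply_symm_apply p.2.2

end Pool.Agent.Tor
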