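import Pool.Agent.Lib.Tor.Basic

/-! MODULE Tor.Gauge (1.5 h): gauges on `E` and the elementary push. -/

open Set Topology Filter

namespace Pool.Agent.Tor

/-- `gau nu u = sum_i nu clamp(nu + 1 - i) |u_i|` (finite sum: the weights vanish for
`i >= nu + 1`) -/
noncomputable def gau (ν : ℝ) (u : E) : ℝ :=
  ∑' i : ℕ, ν * (max 0 (min 1 (ν + 1 - i))) * ‖u i‖

namespace GaugeAux

theorem gau_eq {ν : ℝ} {N : ℕ} (h : ν ≤ N) (u : E) :
    gau ν u = ∑ i ∈ Finset.range (N + 1), ν * (max 0 (min 1 (ν + 1 - i))) * ‖u i‖ := by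
  unfold gau
  apply tsum_eq_sum
  intro i hi
  have hi' : N + 1 ≤ i := by
    rw [Finset.mem_range] at hi; omega
  have h1 : (N : ℝ) + 1 ≤ i := by exact_mod_cast hi'
  have h2 : max 0 (min 1 (ν + 1 - i)) = 0 := by
    apply max_eq_left
    exact (min_le_right _ _).trans (by linarith)
  rw [h2]
  simp

theorem w_nonneg {ν : ℝ} (hν : 0 ≤ ν) (i : ℕ) : 0 ≤ ν * (max 0 (min 1 (ν + 1 - i))) :=
  mul_nonneg hν (le_max_left _ _)

theorem sum_cont (N : ℕ) : Continuous fun q : ℝ × E =>
    ∑ i ∈ Finset.range (N + 1), q.1 * (max 0 (min 1 (q.1 + 1 - i))) * ‖q.2 i‖ := by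
  apply continuous_finsetSum
  intro i _
  have h1 : Continuous fun q : ℝ × E => q.2 i := (continuous_apply i).comp continuous_snd
  fun_prop

end GaugeAux

open GaugeAux

theorem gau_cont : Continuous fun q : ℝ × E => gau q.1 q.2 := by
  rw [continuous_iff_continuousAt]
  intro q₀
  obtain ⟨N, hN⟩ := exists_nat_gt q₀.1
  have h1 : ∀ᶠ q : ℝ × E in 𝓝 q₀, q.1 < N :=
    (continuous_fst.tendsto q₀).eventually (gt_mem_nhds hN)
  refine (sum_cont N).continuousAt.congr ?_
  filter_upwards [h1] with q hq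
  exact (gau_eq hq.le q.2).symm

theorem gau_zero (ν : ℝ) : gau ν 0 = 0 := by
  unfold gau
  simp

theorem gau_nonneg {ν : ℝ} (hν : 0 ≤ ν) (u : E) : 0 ≤ gau ν u :=
  tsum_nonneg (fun i => mul_nonneg (w_nonneg hν i) (norm_nonneg _))

theorem gau_add_le {ν : ℝ} (hν : 0 ≤ ν) (u v : E) : gau ν (u + v) ≤ gau ν u + gau ν v := by
  obtain ⟨N, hN⟩ := exists_nat_ge ν
  rw [gau_eq hN, gau_eq hN, gau_eq hN, ← Finset.sum_add_distrib]
  refine Finset.sum_le_sum (fun i _ => ?_)
  rw [← mul_add]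
  exact mul_le_mul_of_nonneg_left (norm_add_le _ _) (w_nonneg hν i)

theorem gau_smul {ν : ℝ} (r : ℝ) (u : E) : gau ν (r • u) = |r| * gau ν u := by
  unfold gau
  rw [← tsum_mul_left]
  refine tsum_congr (fun i => ?_)
  rw [Pi.smul_apply, norm_smul, Real.norm_eq_abs]
  ring

theorem gau_mono {ν ν' : ℝ} (h0 : 0 ≤ ν) (h : ν ≤ ν') (u : E) : gau ν u ≤ gau ν' u := by
  obtain ⟨N, hN⟩ := exists_nat_ge ν'
  rw [gau_eq (h.trans hN), gau_eq hN]
  refine Finset.sum_le_sum (fun i _ => ?_)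
  refine mul_le_mul_of_nonneg_right ?_ (norm_nonneg _)
  refine mul_le_mul h ?_ (le_max_left _ _) (h0.trans h)
  exact max_le_max_left _ (min_le_min_left _ (by linarith))

theorem GaugeAux.coord_le {ν : ℝ} (h0 : 0 ≤ ν) (u : E) {i : ℕ} (hi : (i : ℝ) ≤ ν) :
    ν * ‖u i‖ ≤ gau ν u := by
  obtain ⟨N, hN⟩ := exists_nat_ge ν
  rw [gau_eq hN]
  have hiN : i ∈ Finset.range (N + 1) := by
    rw [Finset.mem_range]
    have : (i : ℝ) ≤ N := hi.trans hN
    have : i ≤ N := by exact_mod_cast this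
    omega
  have h1 : max 0 (min 1 (ν + 1 - i)) = 1 := by
    rw [min_eq_left (by linarith), max_eq_right (by norm_num)]
  have h2 := Finset.single_le_sum
    (f := fun i : ℕ => ν * (max 0 (min 1 (ν + 1 - i))) * ‖u i‖)
    (fun j _ => mul_nonneg (w_nonneg h0 j) (norm_nonneg _)) hiN
  simp only [h1, mul_one] at h2
  exact h2

/-- PROOF: a neighbourhood of `a` contains a cylinder given by `|u_i - a_i| < r`, `i < n`; take
`nu_0 >= n`, `nu_0 r >= 10`. -/
theorem gau_nhds (a : E) (V : Set E) (hV : V ∈ 𝓝 a) :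
    ∃ ν₀ : ℝ, 1 ≤ ν₀ ∧ ∀ ν, ν₀ ≤ ν → ∀ u : E, gau ν (u - a) < 10 → u ∈ V := by
  obtain ⟨V', hV'V, hV'o, haV'⟩ := mem_nhds_iff.1 hV
  obtain ⟨J, w, hw, hJ⟩ := isOpen_pi_iff.1 hV'o a haV'
  have h1 : ∀ i, ∃ r : ℝ, 0 < r ∧ (i ∈ J → Metric.ball (a i) r ⊆ w i) := by
    intro i
    by_cases hi : i ∈ J
    · obtain ⟨r, hr, hr'⟩ := Metric.isOpen_iff.1 (hw i hi).1 (a i) (hw i hi).2
      exact ⟨r, hr, fun _ => hr'⟩
    · exact ⟨1, one_pos, fun h => absurd h hi⟩
  choose r hr hrw using h1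
  refine ⟨1 + ∑ i ∈ J, ((i : ℝ) + 10 / r i), ?_, ?_⟩
  · have : 0 ≤ ∑ i ∈ J, ((i : ℝ) + 10 / r i) :=
      Finset.sum_nonneg (fun i _ => add_nonneg (Nat.cast_nonneg i) (div_nonneg (by norm_num)
        (hr i).le))
    linarith
  · intro ν hν u hu
    apply hV'V
    apply hJ
    intro i hi
    have hi' : i ∈ J := hi
    have h2 : (i : ℝ) + 10 / r i ≤ ∑ i ∈ J, ((i : ℝ) + 10 / r i) :=
      Finset.single_le_sum (f := fun i : ℕ => (i : ℝ) + 10 / r i)
        (fun j _ => add_nonneg (Nat.cast_nonneg j) (div_nonneg (by norm_num) (hr j).le)) hi'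
    have h3 : 0 ≤ 10 / r i := div_nonneg (by norm_num) (hr i).le
    have h4 : (0 : ℝ) ≤ i := Nat.cast_nonneg i
    have hν0 : 0 ≤ ν := by linarith
    have h5 := GaugeAux.coord_le hν0 (u - a) (i := i) (by linarith)
    have h6 : ν * ‖(u - a) i‖ < 10 := lt_of_le_of_lt h5 hu
    apply hrw i hi'
    rw [Metric.mem_ball, dist_eq_norm]
    by_contra hcon
    push Not at hcon
    have h7 : 10 / r i * r i = 10 := div_mul_cancel₀ _ (hr i).ne'
    have h8 : 10 / r i ≤ ν := by linarith
    have h9 : 10 / r i * r i ≤ ν * ‖(u - a) i‖ :=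
      mul_le_mul h8 hcon (hr i).le hν0
    linarith

namespace GaugeAux

/-- fixed points depending on a parameter -/
theorem fix_cont {X : Type} [TopologicalSpace X] (g : X × ℝ → ℝ) (hg : Continuous g)
    (hlip : ∀ x s s', |g (x, s) - g (x, s')| ≤ |s - s'| / 2)
    (h01 : ∀ x s, 0 ≤ g (x, s) ∧ g (x, s) ≤ 1) :
    ∃ σ : X → ℝ, Continuous σ ∧ (∀ x, g (x, σ x) = σ x) ∧ ∀ x s, g (x, s) = s → s = σ x := by
  have hex : ∀ x, ∃ s, g (x, s) = s := by
    intro x
    have hc : Continuous fun s : ℝ => s - g (x, s) := by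
      have : Continuous fun s : ℝ => g (x, s) := hg.comp (by fun_prop)
      exact continuous_id.sub this
    have h1 := intermediate_value_Icc (zero_le_one' ℝ) hc.continuousOn
    have h2 : (0 : ℝ) ∈ Icc ((0 : ℝ) - g (x, 0)) (1 - g (x, 1)) :=
      ⟨by linarith [(h01 x 0).1], by linarith [(h01 x 1).2]⟩
    obtain ⟨s, _, hs⟩ := h1 h2
    exact ⟨s, by simp only at hs; linarith⟩
  choose σ hσ using hex
  have huniq : ∀ x s, g (x, s) = s → s = σ x := by
    intro x s hs
    have h1 := hlip x s (σ x)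
    rw [hs, hσ] at h1
    have h2 : |s - σ x| = 0 := by
      have := abs_nonneg (s - σ x)
      linarith
    have := abs_eq_zero.1 h2
    linarith
  refine ⟨σ, ?_, hσ, huniq⟩
  rw [continuous_iff_continuousAt]
  intro x₀
  have h1 : Tendsto (fun x => g (x, σ x₀)) (𝓝 x₀) (𝓝 (g (x₀, σ x₀))) := by
    have : Continuous fun x => g (x, σ x₀) := hg.comp (by fun_prop)
    exact this.tendsto x₀
  rw [ContinuousAt, Metric.tendsto_nhds]
  intro ε hε
  rw [Metric.tendsto_nhds] at h1
  filter_upwards [h1 (ε / 2) (by linarith)] with x hx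
  rw [Real.dist_eq] at hx ⊢
  have h2 := hlip x (σ x) (σ x₀)
  have h3 : |σ x - σ x₀| ≤ |g (x, σ x) - g (x, σ x₀)| + |g (x, σ x₀) - g (x₀, σ x₀)| := by
    have : σ x - σ x₀ = (g (x, σ x) - g (x, σ x₀)) + (g (x, σ x₀) - g (x₀, σ x₀)) := by
      rw [hσ, hσ]; ring
    rw [this]
    exact abs_add_le _ _
  linarith

theorem gau_sub_le {ν : ℝ} (hν : 0 ≤ ν) (u v : E) : |gau ν u - gau ν v| ≤ gau ν (u - v) := by
  have h1 := gau_add_le hν (u - v) v
  have h2 := gau_add_le hν (v - u) u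
  rw [sub_add_cancel] at h1 h2
  have h3 : gau ν (v - u) = gau ν (u - v) := by
    have : v - u = (-1 : ℝ) • (u - v) := by rw [neg_one_smul, neg_sub]
    rw [this, gau_smul, abs_neg, abs_one, one_mul]
  rw [abs_le]
  constructor <;> linarith

theorem clamp_lip (A B : ℝ) : |max 0 (1 - A) - max 0 (1 - B)| ≤ |A - B| := by
  have h1 := abs_max_sub_max_le_abs (1 - A) (1 - B) 0
  rw [max_comm (1 - A) 0, max_comm (1 - B) 0] at h1
  have h2 : (1 - A) - (1 - B) = -(A - B) := by ring
  rw [h2, abs_neg] at h1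
  exact h1

end GaugeAux

/-- elementary push, with parameters. PROOF: `T (p,u) = (p, u + lam . (b p - a p))`,
`lam = max 0 (1 - gau (nu p) (u - a p))`. Inverse: `u = y - s . (b p - a p)`, where `s in [0,1]` is the
unique solution of `s = max 0 (1 - gau (nu p) (y - s . (b p - a p) - a p))`; the right side is
`1/2`-Lipschitz in `s` (`gau_add_le`, `gau_smul`, `small`), jointly continuous, so the fixed point
exists, is unique and depends continuously on `(p,y)` (general fact: for a continuous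
`g : X x R -> R` with `|g(x,s)-g(x,s')| <= |s-s'|/2` the fixed point `s(x)` is continuous). -/
theorem push_step {P : Type} [TopologicalSpace P] (a b : P → E) (ν : P → ℝ) (ha : Continuous a)
    (hb : Continuous b) (hν : Continuous ν) (hν1 : ∀ p, 1 ≤ ν p)
    (small : ∀ p, gau (ν p) (b p - a p) ≤ 1 / 2) :
    ∃ T : P × E ≃ₜ P × E, (∀ p u, (T (p, u)).1 = p) ∧ (∀ p, T (p, a p) = (p, b p)) ∧
      (∀ p, a p = b p → ∀ u, T (p, u) = (p, u)) ∧
      (∀ p u, 1 ≤ gau (ν p) (u - a p) → T (p, u) = (p, u)) ∧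
      ∀ p u, gau (ν p) ((T (p, u)).2 - a p) ≤ gau (ν p) (u - a p) + 1 / 2 := by
  have hν0 : ∀ p, 0 ≤ ν p := fun p => zero_le_one.trans (hν1 p)
  let lam : P × E → ℝ := fun q => max 0 (1 - gau (ν q.1) (q.2 - a q.1))
  have hlam : Continuous lam := by
    have h1 : Continuous fun q : P × E => gau (ν q.1) (q.2 - a q.1) :=
      gau_cont.comp ((hν.comp continuous_fst).prodMk
        (continuous_snd.sub (ha.comp continuous_fst)))
    exact continuous_const.max (continuous_const.sub h1)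
  have hlam0 : ∀ q, 0 ≤ lam q := fun q => le_max_left _ _
  have hlam1 : ∀ q, lam q ≤ 1 := fun q => max_le zero_le_one (by
    linarith [gau_nonneg (hν0 q.1) (q.2 - a q.1)])
  let g : (P × E) × ℝ → ℝ := fun z => lam (z.1.1, z.1.2 - z.2 • (b z.1.1 - a z.1.1))
  have hg : Continuous g := by
    have hb' : Continuous fun z : (P × E) × ℝ => b z.1.1 - a z.1.1 :=
      (hb.comp (continuous_fst.comp continuous_fst)).sub
        (ha.comp (continuous_fst.comp continuous_fst))
    have h2 : Continuous fun z : (P × E) × ℝ => z.1.2 - z.2 • (b z.1.1 - a z.1.1) :=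
      (continuous_snd.comp continuous_fst).sub (continuous_snd.smul hb')
    exact hlam.comp ((continuous_fst.comp continuous_fst).prodMk h2)
  have hlip : ∀ x s s', |g (x, s) - g (x, s')| ≤ |s - s'| / 2 := by
    intro x s s'
    obtain ⟨p, y⟩ := x
    have h1 := clamp_lip (gau (ν p) (y - s • (b p - a p) - a p))
      (gau (ν p) (y - s' • (b p - a p) - a p))
    have h2 := gau_sub_le (hν0 p) (y - s • (b p - a p) - a p) (y - s' • (b p - a p) - a p)
    have h3 : (y - s • (b p - a p) - a p) - (y - s' • (b p - a p) - a p)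
        = (s' - s) • (b p - a p) := by
      rw [sub_smul]; abel
    rw [h3, gau_smul, abs_sub_comm s' s] at h2
    have h4 : |s - s'| * gau (ν p) (b p - a p) ≤ |s - s'| * (1 / 2) :=
      mul_le_mul_of_nonneg_left (small p) (abs_nonneg _)
    change |max 0 (1 - gau (ν p) (y - s • (b p - a p) - a p))
      - max 0 (1 - gau (ν p) (y - s' • (b p - a p) - a p))| ≤ _
    linarith
  obtain ⟨σ, hσc, hσ, hσu⟩ := fix_cont g hg hlip (fun x s => ⟨hlam0 _, hlam1 _⟩)
  have hab : Continuous fun q : P × E => b q.1 - a q.1 :=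
    (hb.comp continuous_fst).sub (ha.comp continuous_fst)
  let T : P × E ≃ₜ P × E :=
    { toFun := fun q => (q.1, q.2 + lam q • (b q.1 - a q.1))
      invFun := fun q => (q.1, q.2 - σ q • (b q.1 - a q.1))
      left_inv := by
        rintro ⟨p, u⟩
        have h1 : σ (p, u + lam (p, u) • (b p - a p)) = lam (p, u) := by
          symm
          apply hσu
          change lam (p, u + lam (p, u) • (b p - a p) - lam (p, u) • (b p - a p)) = _
          rw [add_sub_cancel_right]
        change (p, u + lam (p, u) • (b p - a p)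
          - σ (p, u + lam (p, u) • (b p - a p)) • (b p - a p)) = (p, u)
        rw [h1, add_sub_cancel_right]
      right_inv := by
        rintro ⟨p, y⟩
        have h1 : lam (p, y - σ (p, y) • (b p - a p)) = σ (p, y) := hσ (p, y)
        change (p, y - σ (p, y) • (b p - a p)
          + lam (p, y - σ (p, y) • (b p - a p)) • (b p - a p)) = (p, y)
        rw [h1, sub_add_cancel]
      continuous_toFun := continuous_fst.prodMk (continuous_snd.add (hlam.smul hab))
      continuous_invFun := continuous_fst.prodMk (continuous_snd.sub (hσc.smul hab)) }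
  have hT : ∀ p u, T (p, u) = (p, u + lam (p, u) • (b p - a p)) := fun p u => rfl
  refine ⟨T, fun p u => rfl, ?_, ?_, ?_, ?_⟩
  · intro p
    have h1 : lam (p, a p) = 1 := by
      change max 0 (1 - gau (ν p) (a p - a p)) = 1
      rw [sub_self, gau_zero, sub_zero, max_eq_right zero_le_one]
    rw [hT, h1, one_smul, add_sub_cancel]
  · intro p hp u
    rw [hT, hp, sub_self, smul_zero, add_zero]
  · intro p u hu
    have h1 : lam (p, u) = 0 := max_eq_left (by
      change 1 - gau (ν p) (u - a p) ≤ 0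
      linarith)
    rw [hT, h1, zero_smul, add_zero]
  · intro p u
    rw [hT]
    change gau (ν p) (u + lam (p, u) • (b p - a p) - a p) ≤ _
    have e1 : u + lam (p, u) • (b p - a p) - a p = (u - a p) + lam (p, u) • (b p - a p) := by abel
    rw [e1]
    have h1 := gau_add_le (hν0 p) (u - a p) (lam (p, u) • (b p - a p))
    rw [gau_smul, abs_of_nonneg (hlam0 _)] at h1
    have h2 : lam (p, u) * gau (ν p) (b p - a p) ≤ 1 * (1 / 2) :=
      mul_le_mul (hlam1 _) (small p) (gau_nonneg (hν0 p) _) zero_le_one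
    linarith

end Pool.Agent.Tor
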