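import Pool.Agent.Lib.Tor.Covers

/-! Tor.HZR: in `s = N -> R` every homotopy Z-set is a strong Z-set. -/

open Set Topology Filter

namespace Pool.Agent.Tor

namespace HZRAux

/-- the sequence space -/
abbrev RN : Type := ℕ → ℝ

/-- truncation after the first `j` coordinates -/
def cut (j : ℕ) (x : RN) : RN := fun i => if i < j then x i else 0

theorem continuous_cut (j : ℕ) : Continuous (cut j) := by
  refine continuous_pi fun i => ?_
  unfold cut
  split_ifs
  · exact continuous_apply i
  · exact continuous_const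

theorem cut_congr {j : ℕ} {x y : RN} (h : ∀ i < j, y i = x i) : cut j y = cut j x := by
  funext i
  unfold cut
  split_ifs with hi
  · exact h i hi
  · rfl

theorem tendsto_cut (x : RN) : Tendsto (fun j => cut j x) atTop (𝓝 x) := by
  rw [tendsto_pi_nhds]
  intro i
  refine tendsto_const_nhds.congr' ?_
  filter_upwards [eventually_gt_atTop i] with j hj
  unfold cut
  rw [if_pos hj]

/-- two points in a common member of the cover -/
def Rel {Z : Type} (U : Z → Set Z) (x y : Z) : Prop := ∃ z, x ∈ U z ∧ y ∈ U z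

theorem Rel.symm {Z : Type} {U : Z → Set Z} {x y : Z} (h : Rel U x y) : Rel U y x := by
  obtain ⟨z, h1, h2⟩ := h
  exact ⟨z, h2, h1⟩

theorem rel_trans {Z : Type} {U V : Z → Set Z}
    (hs : ∀ a, ∃ z, ∀ b, (V a ∩ V b).Nonempty → V b ⊆ U z) {x y w : Z}
    (h1 : Rel V x y) (h2 : Rel V y w) : Rel U x w := by
  obtain ⟨a, hx, hy⟩ := h1
  obtain ⟨b, hy', hw⟩ := h2
  obtain ⟨z, hz⟩ := hs a
  exact ⟨z, hz a ⟨x, hx, hx⟩ hx, hz b ⟨y, hy, hy'⟩ hw⟩

/-- a basic neighbourhood -/
theorem exists_cyl (x : RN) (V : Set RN) (hV : V ∈ 𝓝 x) :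
    ∃ (n : ℕ) (W : Set RN), 1 ≤ n ∧ W ∈ 𝓝 x ∧ ∀ x' ∈ W, ∀ y, (∀ i < n, y i = x' i) → y ∈ V := by
  rw [nhds_pi, Filter.mem_pi] at hV
  obtain ⟨I, hI, t, ht, hsub⟩ := hV
  obtain ⟨n, hn⟩ : ∃ n : ℕ, ∀ i ∈ I, i < n := by
    obtain ⟨n, hn⟩ := hI.bddAbove
    exact ⟨n + 1, fun i hi => Nat.lt_succ_of_le (hn hi)⟩
  refine ⟨n + 1, I.pi t, by omega, ?_, ?_⟩
  · exact (set_pi_mem_nhds_iff hI x).2 fun i _ => ht i
  · intro x' hx' y hy
    refine hsub fun i hi => ?_
    rw [hy i (by have := hn i hi; omega)]
    exact hx' i hi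

/-- adapted clocks -/
theorem exists_clocks (V0 V1 : RN → Set RN) (hV1 : Cov V1)
    (hs : ∀ a, ∃ z, ∀ b, (V1 a ∩ V1 b).Nonempty → V1 b ⊆ V0 z) :
    ∃ g : ℕ → RN → ℝ, (∀ n, Continuous (g n)) ∧ (∀ n x, 0 ≤ g n x ∧ g n x ≤ 1) ∧
      (∀ n x y, (∀ i < n, y i = x i) → g n y = g n x) ∧
      (∀ n x, 0 < g n x → g (n + 1) x = 1) ∧ (∀ x, ∃ n, 0 < g n x) ∧
      ∀ n x, 0 < g n x → ∀ y, (∀ i < n, y i = x i) → Rel V0 x y := by
  obtain ⟨ε, hε, hε1, hP⟩ := exists_below (Z := RN)
    (fun x r => ∀ y : RN, (∀ i : ℕ, (i : ℝ) ≤ 1 / r → y i = x i) → Rel V1 x y)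
    (by
      intro x r s hr hrs h y hy
      exact h y fun i hi => hy i (le_trans hi (one_div_le_one_div_of_le hr hrs)))
    (by
      intro x
      obtain ⟨n, W, hn, hW, h⟩ := exists_cyl x (V1 x) ((hV1 x).1.mem_nhds (hV1 x).2)
      have hn0 : (0 : ℝ) < n := by exact_mod_cast hn
      refine ⟨1 / n, by positivity, ?_⟩
      filter_upwards [hW] with x' hx' y hy
      rw [one_div_one_div] at hy
      refine ⟨x, h x' hx' x' fun _ _ => rfl, h x' hx' y fun i hi => hy i ?_⟩
      exact_mod_cast hi.le)
  -- the elementary quantities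
  let b : ℕ → RN → ℝ := fun j x => max 0 ((j : ℝ) * ε (cut j x) - 1)
  have hb : ∀ j, Continuous (b j) := by
    intro j
    have := hε.comp (continuous_cut j)
    have h2 : Continuous fun x => ε (cut j x) := this
    exact continuous_const.max ((continuous_const.mul h2).sub continuous_const)
  have hbc : ∀ j x y, (∀ i < j, y i = x i) → b j y = b j x := by
    intro j x y h
    simp only [b]
    rw [cut_congr h]
  have hbr : ∀ j x, 0 < b j x → ∀ y, (∀ i < j, y i = x i) → Rel V1 (cut j x) y := by
    intro j x hj y hy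
    apply hP
    intro i hi
    have h1 : 0 < (j : ℝ) * ε (cut j x) - 1 := by
      rcases lt_max_iff.1 hj with h | h
      · exact absurd h (lt_irrefl _)
      · exact h
    have h2 : 1 / ε (cut j x) < j := by
      rw [div_lt_iff₀ (hε1 _).1]
      linarith
    have h3 : i < j := by
      have : (i : ℝ) < j := lt_of_le_of_lt hi h2
      exact_mod_cast this
    rw [hy i h3]
    unfold cut
    rw [if_pos h3]
  let a : ℕ → RN → ℝ := fun n => Nat.rec (b 0) (fun n r x => max (r x) (b (n + 1) x)) n
  have ha0 : a 0 = b 0 := rfl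
  have haS : ∀ n x, a (n + 1) x = max (a n x) (b (n + 1) x) := fun n x => rfl
  have ha : ∀ n, Continuous (a n) := by
    intro n
    induction n with
    | zero => exact hb 0
    | succ n ih => exact ih.max (hb (n + 1))
  have han : ∀ n x, 0 ≤ a n x := by
    intro n x
    induction n with
    | zero => exact le_max_left _ _
    | succ n ih =>
      rw [haS]
      exact le_trans ih (le_max_left _ _)
  have hac : ∀ n x y, (∀ i < n, y i = x i) → a n y = a n x := by
    intro n
    induction n with
    | zero => intro x y h; exact hbc 0 x y h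
    | succ n ih =>
      intro x y h
      rw [haS, haS, ih x y fun i hi => h i (by omega), hbc (n + 1) x y h]
  have har : ∀ n x, 0 < a n x → ∀ y, (∀ i < n, y i = x i) → Rel V0 x y := by
    intro n x
    have key : ∀ j, 0 < b j x → ∀ y, (∀ i < j, y i = x i) → Rel V0 x y := by
      intro j hj y hy
      exact rel_trans hs (hbr j x hj x fun _ _ => rfl).symm (hbr j x hj y hy)
    induction n with
    | zero => intro h; exact key 0 h
    | succ n ih =>
      intro h y hy
      rw [haS] at h
      rcases lt_max_iff.1 h with h | h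
      · exact ih h y fun i hi => hy i (by omega)
      · exact key (n + 1) h y hy
  have hab : ∀ j x, b j x ≤ a j x := by
    intro j x
    cases j with
    | zero => exact le_refl _
    | succ j => rw [haS]; exact le_max_right _ _
  let g : ℕ → RN → ℝ := fun n x => max 0 (min 1 (2 ^ n * a n x - 1))
  have hgpos : ∀ n x, 0 < g n x → 1 < 2 ^ n * a n x := by
    intro n x h
    have h1 : 0 < min 1 (2 ^ n * a n x - 1) := by
      rcases lt_max_iff.1 h with h | h
      · exact absurd h (lt_irrefl _)
      · exact h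
    have := lt_of_lt_of_le h1 (min_le_right _ _)
    linarith
  refine ⟨g, ?_, ?_, ?_, ?_, ?_, ?_⟩
  · intro n
    have := ha n
    simp only [g]
    fun_prop
  · intro n x
    exact ⟨le_max_left _ _, max_le zero_le_one (min_le_left _ _)⟩
  · intro n x y h
    simp only [g]
    rw [hac n x y h]
  · intro n x h
    have h1 := hgpos n x h
    have h2 : a n x ≤ a (n + 1) x := by rw [haS]; exact le_max_left _ _
    have h3 : 2 ≤ 2 ^ (n + 1) * a (n + 1) x := by
      have : (2 : ℝ) ^ (n + 1) * a n x ≤ 2 ^ (n + 1) * a (n + 1) x := by gcongr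
      have h4 : (2 : ℝ) ^ (n + 1) * a n x = 2 * (2 ^ n * a n x) := by ring
      linarith
    simp only [g]
    rw [min_eq_left (by linarith)]
    norm_num
  · intro x
    have h1 : Tendsto (fun j => ε (cut j x)) atTop (𝓝 (ε x)) :=
      (hε.tendsto x).comp (tendsto_cut x)
    have h2 : ∀ᶠ j in atTop, ε x / 2 < ε (cut j x) :=
      h1.eventually (lt_mem_nhds (by have := (hε1 x).1; linarith))
    obtain ⟨m, hm⟩ := exists_nat_gt (2 * (2 / ε x))
    obtain ⟨j, hj1, hj2⟩ := (h2.and (eventually_ge_atTop m)).exists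
    refine ⟨j, ?_⟩
    have hx := (hε1 x).1
    have h3 : 2 < (j : ℝ) * ε (cut j x) := by
      have e1 : (m : ℝ) ≤ j := by exact_mod_cast hj2
      have e2 : 2 * (2 / ε x) < j := lt_of_lt_of_le hm e1
      have e3 : 2 = 2 * (2 / ε x) * (ε x / 2) := by field_simp
      rw [e3]
      have e4 : (0 : ℝ) < j := lt_trans (by positivity) e2
      nlinarith
    have h4 : 1 < b j x := by
      have : (j : ℝ) * ε (cut j x) - 1 ≤ b j x := le_max_right _ _
      linarith
    have h5 : 1 < a j x := lt_of_lt_of_le h4 (hab j x)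
    have h6 : 1 < 2 ^ j * a j x := by
      have : (1 : ℝ) ≤ 2 ^ j := one_le_pow₀ (by norm_num)
      nlinarith
    simp only [g]
    refine lt_max_of_lt_right (lt_min one_pos (by linarith))
  · intro n x h y hy
    have h1 := hgpos n x h
    have h0 : 0 < a n x := by
      rcases (han n x).lt_or_eq with hc | hc
      · exact hc
      · rw [← hc, mul_zero] at h1
        linarith
    exact har n x h0 y hy

end HZRAux

open HZRAux

/-- In `N -> R` homotopy Z-sets are strong Z-sets. PROOF: factor a map near the identity through a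
closed set of locally bounded truncated sequences (adapted clocks), then push off `A` by amounts
which tend to `0` at infinity. -/
theorem HZ.sz_R {A : Set (ℕ → ℝ)} (hA : HZ A) : SZ A := by
  obtain ⟨hAc, H, hH, hH0, hHA⟩ := hA
  refine ⟨hAc, ?_⟩
  intro U hU
  obtain ⟨V0, hV0, s0⟩ := exists_star hU
  obtain ⟨V1, hV1, s1⟩ := exists_star hV0
  obtain ⟨g, hg, hg01, hgc, hgS, hgex, hgr⟩ := exists_clocks V0 V1 hV1 s1
  let _ : MetricSpace (ℕ → ℝ) := TopologicalSpace.metrizableSpaceMetric (ℕ → ℝ)
  -- later clocks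
  have hg1 : ∀ n x, 0 < g n x → ∀ m, n < m → g m x = 1 := by
    intro n x h m hm
    induction m, hm using Nat.le_induction with
    | base => exact hgS n x h
    | succ m hm ih => exact hgS m x (by rw [ih]; exact one_pos)
  -- the size function
  obtain ⟨θ, hθ, hθ1, hθP⟩ := exists_below (Z := ℕ → ℝ)
    (fun y r => ∀ i, (∀ j < i, g j y = 0) → |y i| ≤ 1 / r)
    (fun y r s hr hrs h i hi => le_trans (h i hi) (one_div_le_one_div_of_le hr hrs))
    (by
      intro y
      obtain ⟨k, hk⟩ := hgex y
      have h1 : ∀ᶠ y' in 𝓝 y, 0 < g k y' := (hg k).continuousAt.eventually (lt_mem_nhds hk)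
      have h2 : ∀ᶠ y' in 𝓝 y, ∀ i ∈ Finset.range (k + 1), |y' i| < |y i| + 1 := by
        rw [Filter.eventually_all_finset]
        intro i _
        have hc : Continuous fun y' : ℕ → ℝ => |y' i| := (continuous_apply i).abs
        exact hc.continuousAt.eventually (gt_mem_nhds (lt_add_one _))
      set B : ℝ := ∑ i ∈ Finset.range (k + 1), (|y i| + 1) with hB
      have hB0 : 0 < B := by
        rw [hB]
        refine Finset.sum_pos (fun i _ => by positivity) ⟨0, by simp⟩
      refine ⟨1 / B, by positivity, ?_⟩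
      filter_upwards [h1, h2] with y' hy1 hy2 i hi
      rw [one_div_one_div]
      have hik : i ≤ k := by
        by_contra hc
        rw [not_le] at hc
        rw [hi k hc] at hy1
        exact lt_irrefl _ hy1
      have hir : i ∈ Finset.range (k + 1) := Finset.mem_range.2 (by omega)
      refine le_trans (hy2 i hir).le ?_
      exact Finset.single_le_sum (f := fun i => |y i| + 1) (fun i _ => by positivity) hir)
  -- the truncated map
  let n : (ℕ → ℝ) → ℕ → ℝ := fun x i => x i * (1 - g i x)
  have hn : Continuous n := by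
    refine continuous_pi fun i => ?_
    have := hg i
    simp only [n]
    fun_prop
  have hnk : ∀ x, ∃ k, (∀ i < k, n x i = x i) ∧ 0 < g k x ∧ ∀ i, k < i → n x i = 0 := by
    classical
    intro x
    refine ⟨Nat.find (hgex x), ?_, Nat.find_spec (hgex x), ?_⟩
    · intro i hi
      have h1 := Nat.find_min (hgex x) hi
      have h2 : g i x = 0 := le_antisymm (not_lt.1 h1) (hg01 i x).1
      simp only [n, h2, sub_zero, mul_one]
    · intro i hi
      have h2 := hg1 _ x (Nat.find_spec (hgex x)) i hi
      simp only [n, h2, sub_self, mul_zero]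
  have hnrel : ∀ x, Rel V0 x (n x) := by
    intro x
    obtain ⟨k, hk1, hk2, _⟩ := hnk x
    exact hgr k x hk2 (n x) hk1
  have hnb : ∀ x i, |n x i| ≤ 1 / θ (n x) := by
    intro x i
    obtain ⟨k, hk1, hk2, hk3⟩ := hnk x
    by_cases hi : i ≤ k
    · -- all clocks below `i` vanish or the bound is clear
      by_cases hz : ∀ j < i, g j (n x) = 0
      · exact hθP (n x) i hz
      · -- some clock below `i` is positive at `n x`, hence `g (i)` is one at `n x`
        push Not at hz
        obtain ⟨j, hj, hgj⟩ := hz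
        have hjk : g j (n x) = g j x := hgc j x (n x) fun l hl => hk1 l (by omega)
        have hpos : 0 < g j x := lt_of_le_of_ne (hg01 j x).1 (by rw [← hjk]; exact Ne.symm hgj)
        have h1 : g i x = 1 := hg1 j x hpos i hj
        have h2 : n x i = 0 := by simp only [n, h1, sub_self, mul_zero]
        rw [h2, abs_zero]
        have := (hθ1 (n x)).1
        positivity
    · rw [hk3 i (not_le.1 hi), abs_zero]
      have := (hθ1 (n x)).1
      positivity
  -- the amount of the push
  obtain ⟨ε, hε, hε1, hεP⟩ := exists_below (Z := ℕ → ℝ)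
    (fun y r => ∀ t : I, (t : ℝ) ≤ r → Rel V0 y (H (y, t)) ∧ dist (H (y, t)) y ≤ θ y)
    (fun y r s _ hrs h t ht => h t (le_trans ht hrs))
    (by
      intro y
      have hc : ContinuousAt H (y, 0) := hH.continuousAt
      have hd : Continuous fun q : (ℕ → ℝ) × I => dist (H q) q.1 - θ q.1 := by fun_prop
      have h1 : ∀ᶠ q : (ℕ → ℝ) × I in 𝓝 (y, 0), H q ∈ V0 y := by
        refine hc.eventually ?_
        rw [hH0]
        exact (hV0 y).1.mem_nhds (hV0 y).2
      have h2 : ∀ᶠ q : (ℕ → ℝ) × I in 𝓝 (y, 0), dist (H q) q.1 - θ q.1 < 0 := by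
        refine hd.continuousAt.eventually (gt_mem_nhds ?_)
        simp only [hH0, dist_self]
        have := (hθ1 y).1
        linarith
      have h3 : ∀ᶠ q : (ℕ → ℝ) × I in 𝓝 (y, 0), q.1 ∈ V0 y :=
        continuous_fst.continuousAt.eventually ((hV0 y).1.mem_nhds (hV0 y).2)
      have h4 := (h1.and (h2.and h3))
      rw [nhds_prod_eq, eventually_prod_iff] at h4
      obtain ⟨pa, hpa, pb, hpb, hh⟩ := h4
      obtain ⟨ρ, hρ, hball⟩ := Metric.eventually_nhds_iff.1 hpb
      refine ⟨ρ / 2, by positivity, ?_⟩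
      filter_upwards [hpa] with y' hy' t ht
      have htb : pb t := by
        refine hball ?_
        rw [Subtype.dist_eq, Real.dist_eq]
        have : ((0 : I) : ℝ) = 0 := rfl
        rw [this, sub_zero, abs_of_nonneg t.2.1]
        linarith
      obtain ⟨k1, k2, k3⟩ := hh hy' htb
      exact ⟨⟨y, k3, k1⟩, by linarith⟩)
  let τ : (ℕ → ℝ) → I := fun y => ⟨ε y, (hε1 y).1.le, (hε1 y).2⟩
  have hτ : Continuous τ := hε.subtype_mk _
  have hτ0 : ∀ y, 0 < τ y := fun y => (hε1 y).1
  refine ⟨fun x => H (n x, τ (n x)), by fun_prop, ?_, ?_⟩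
  · intro x
    have h1 := (hεP (n x) (τ (n x)) le_rfl).1
    exact rel_trans s0 (h1.symm) (hnrel x).symm
  · rw [Set.disjoint_left]
    intro a ha haA
    obtain ⟨u, hu, hua⟩ := mem_closure_iff_seq_limit.1 ha
    choose x hx using hu
    have hux : ∀ k, u k = H (n (x k), τ (n (x k))) := fun k => (hx k).symm
    by_cases hcase : ∃ c > 0, ∃ᶠ k in atTop, c ≤ θ (n (x k))
    · obtain ⟨c, hc, hfr⟩ := hcase
      obtain ⟨φ, hφ, hφc⟩ := extraction_of_frequently_atTop hfr
      have hcomp : IsCompact (Set.univ.pi fun _ : ℕ => Icc (-(1 / c)) (1 / c)) :=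
        isCompact_univ_pi fun _ => isCompact_Icc
      have hmem : ∀ k, n (x (φ k)) ∈ Set.univ.pi fun _ : ℕ => Icc (-(1 / c)) (1 / c) := by
        intro k i _
        have h1 := hnb (x (φ k)) i
        have h2 : 1 / θ (n (x (φ k))) ≤ 1 / c := one_div_le_one_div_of_le hc (hφc k)
        exact abs_le.1 (le_trans h1 h2)
      obtain ⟨p, _, ψ, hψ, hp⟩ := hcomp.tendsto_subseq hmem
      have h1 : Tendsto (fun k => H (n (x (φ (ψ k))), τ (n (x (φ (ψ k)))))) atTop
          (𝓝 (H (p, τ p))) := by
        have hcont : Continuous fun y => H (y, τ y) := by fun_prop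
        exact (hcont.tendsto p).comp hp
      have h2 : Tendsto (fun k => H (n (x (φ (ψ k))), τ (n (x (φ (ψ k)))))) atTop (𝓝 a) := by
        have := hua.comp (hφ.tendsto_atTop.comp hψ.tendsto_atTop)
        refine this.congr fun k => ?_
        exact hux _
      have h3 := tendsto_nhds_unique h1 h2
      exact hHA p (τ p) (hτ0 p) (h3 ▸ haA)
    · push Not at hcase
      have hθ0 : Tendsto (fun k => θ (n (x k))) atTop (𝓝 0) := by
        rw [tendsto_order]
        constructor
        · intro c hc
          exact Eventually.of_forall fun k => lt_trans hc (hθ1 _).1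
        · intro c hc
          exact hcase c hc
      have hd : Tendsto (fun k => dist (u k) (n (x k))) atTop (𝓝 0) := by
        refine squeeze_zero (fun _ => dist_nonneg) (fun k => ?_) hθ0
        rw [hux]
        exact (hεP (n (x k)) (τ (n (x k))) le_rfl).2
      have hna : Tendsto (fun k => n (x k)) atTop (𝓝 a) := by
        rw [tendsto_iff_dist_tendsto_zero] at hua ⊢
        refine squeeze_zero (fun _ => dist_nonneg) (fun k => ?_) (by simpa using hd.add hua)
        have := dist_triangle (n (x k)) (u k) a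
        rw [dist_comm (n (x k)) (u k)] at this
        exact this
      have h5 : Tendsto (fun k => θ (n (x k))) atTop (𝓝 (θ a)) := (hθ.tendsto a).comp hna
      have h6 := tendsto_nhds_unique hθ0 h5
      have := (hθ1 a).1
      rw [← h6] at this
      exact lt_irrefl _ this

end Pool.Agent.Tor
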