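import Pool.Agent.Lib.Tor.Covers

/-! MODULE Tor.HomLim (1 h): limits of homeomorphisms, with memory. -/

open Set Topology Filter

namespace Pool.Agent.Tor

namespace HomLimAux

theorem exists_seq {M : Type} [TopologicalSpace M] (Q : ℕ → (M ≃ₜ M) → Prop)
    (R : ℕ → (M ≃ₜ M) → (M ≃ₜ M) → Prop) (Θ₀ : M ≃ₜ M) (h0 : Q 0 Θ₀)
    (step : ∀ k Θ, Q k Θ → ∃ Θ' : M ≃ₜ M, Q (k + 1) Θ' ∧ R k Θ Θ') :
    ∃ Θ : ℕ → (M ≃ₜ M), Θ 0 = Θ₀ ∧ (∀ k, Q k (Θ k)) ∧ ∀ k, R k (Θ k) (Θ (k + 1)) := by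
  choose f hf hf' using step
  let T : ∀ k, {Θ : M ≃ₜ M // Q k Θ} := fun k =>
    Nat.rec ⟨Θ₀, h0⟩ (fun k z => ⟨f k z.1 z.2, hf k z.1 z.2⟩) k
  exact ⟨fun k => (T k).1, rfl, fun k => (T k).2, fun k => hf' k (T k).1 (T k).2⟩

/-- limits of sequences with geometric errors -/
theorem exists_limit {M : Type} [MetricSpace M] [CompleteSpace M] (f : ℕ → M → M)
    (hf : ∀ k, Continuous (f k)) (hd : ∀ k x, dist (f k x) (f (k + 1) x) ≤ 1 * (1 / 2 : ℝ) ^ k) :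
    ∃ g : M → M, Continuous g ∧ (∀ k x, dist (f k x) (g x) ≤ 2 * (1 / 2 : ℝ) ^ k) ∧
      ∀ x, Tendsto (fun k => f k x) atTop (𝓝 (g x)) := by
  have h1 : ∀ x, ∃ y, Tendsto (fun k => f k x) atTop (𝓝 y) := fun x =>
    cauchySeq_tendsto_of_complete
      (cauchySeq_of_le_geometric (1 / 2 : ℝ) 1 (by norm_num) (fun k => hd k x))
  choose g hg using h1
  have h2 : ∀ k x, dist (f k x) (g x) ≤ 2 * (1 / 2 : ℝ) ^ k := by
    intro k x
    have h3 := dist_le_of_le_geometric_of_tendsto (1 / 2 : ℝ) 1 (by norm_num)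
      (fun k => hd k x) (hg x) k
    have h4 : (1 : ℝ) * (1 / 2 : ℝ) ^ k / (1 - 1 / 2) = 2 * (1 / 2 : ℝ) ^ k := by ring
    rwa [h4] at h3
  refine ⟨g, ?_, h2, hg⟩
  have h5 : TendstoUniformly f g atTop := by
    rw [Metric.tendstoUniformly_iff]
    intro ε hε
    have h6 : Tendsto (fun k : ℕ => 2 * (1 / 2 : ℝ) ^ k) atTop (𝓝 (2 * 0)) :=
      (tendsto_pow_atTop_nhds_zero_of_lt_one (by norm_num) (by norm_num)).const_mul 2
    rw [mul_zero] at h6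
    filter_upwards [h6.eventually (gt_mem_nhds hε)] with k hk x
    rw [dist_comm]
    exact (h2 k x).trans_lt hk
  exact h5.continuous (Frequently.of_forall hf)

theorem comp_eq {M : Type} [MetricSpace M] {f f' : ℕ → M → M} {g g' : M → M} (hg : Continuous g)
    (h1 : ∀ k x, dist (f k x) (g x) ≤ 2 * (1 / 2 : ℝ) ^ k)
    (h2 : ∀ x, Tendsto (fun k => f' k x) atTop (𝓝 (g' x))) (h3 : ∀ k x, f k (f' k x) = x) (x : M) :
    g (g' x) = x := by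
  have h4 : Tendsto (fun k => g (f' k x)) atTop (𝓝 (g (g' x))) := (hg.tendsto _).comp (h2 x)
  have h5 : Tendsto (fun k => g (f' k x)) atTop (𝓝 x) := by
    rw [tendsto_iff_dist_tendsto_zero]
    have h6 : Tendsto (fun k : ℕ => 2 * (1 / 2 : ℝ) ^ k) atTop (𝓝 (2 * 0)) :=
      (tendsto_pow_atTop_nhds_zero_of_lt_one (by norm_num) (by norm_num)).const_mul 2
    rw [mul_zero] at h6
    refine squeeze_zero (fun k => dist_nonneg) (fun k => ?_) h6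
    have := h1 k (f' k x)
    rwa [h3, dist_comm] at this
  exact tendsto_nhds_unique h4 h5

end HomLimAux

open HomLimAux

/-- PROOF. Complete metric (`upgradeIsCompletelyMetrizable M`). Given `Th k` apply `step` with the cover
`U z = ball z (2^-k / 2) inter Th k '' (ball ((Th k)^-1 z) (2^-k / 2))`: then
`dist (Th (k+1) x) (Th k x) < 2^-k` and, with `x = (Th (k+1))^-1 y`,
`dist ((Th k)^-1 y) ((Th (k+1))^-1 y) < 2^-k`. So both sequences converge uniformly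
(`cauchySeq_of_le_geometric`, bounds `2 (1/2)^k`), to continuous `Phi` and `Psi`
(`TendstoUniformly.continuous`), and `Phi (Psi y) = lim Th k ((Th k)^-1 y) = y`,
`Psi (Phi x) = lim (Th k)^-1 (Th k x) = x` (`dist (Th k z_k) (Phi z_k)` is small uniformly and
`Phi z_k -> Phi z` if `z_k -> z`). -/
theorem hom_lim {M : Type} [TopologicalSpace M] [PolishSpace M] (Q : ℕ → (M ≃ₜ M) → Prop)
    (R : ℕ → (M ≃ₜ M) → (M ≃ₜ M) → Prop) (Θ₀ : M ≃ₜ M) (h0 : Q 0 Θ₀)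
    (step : ∀ k Θ, Q k Θ → ∀ U : M → Set M, Cov U →
      ∃ Θ' : M ≃ₜ M, Q (k + 1) Θ' ∧ R k Θ Θ' ∧ Near U Θ' Θ) :
    ∃ (Θ : ℕ → (M ≃ₜ M)) (Φ : M ≃ₜ M), Θ 0 = Θ₀ ∧ (∀ k, Q k (Θ k)) ∧
      (∀ k, R k (Θ k) (Θ (k + 1))) ∧ ∀ x, Tendsto (fun k => Θ k x) atTop (𝓝 (Φ x)) := by
  let _ := TopologicalSpace.upgradeIsCompletelyMetrizable M
  have step' : ∀ k Θ, Q k Θ → ∃ Θ' : M ≃ₜ M, Q (k + 1) Θ' ∧ (R k Θ Θ' ∧
      (∀ x, dist (Θ x) (Θ' x) ≤ 1 * (1 / 2 : ℝ) ^ k) ∧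
      ∀ y, dist (Θ.symm y) (Θ'.symm y) ≤ 1 * (1 / 2 : ℝ) ^ k) := by
    intro k Θ hΘ
    have hpos : (0 : ℝ) < (1 / 2 : ℝ) ^ k / 2 := by positivity
    obtain ⟨Θ', h1, h2, h3⟩ := step k Θ hΘ
      (fun z => Metric.ball z ((1 / 2 : ℝ) ^ k / 2) ∩
        Θ '' (Metric.ball (Θ.symm z) ((1 / 2 : ℝ) ^ k / 2)))
      (fun z => ⟨Metric.isOpen_ball.inter (Θ.isOpenMap _ Metric.isOpen_ball),
        Metric.mem_ball_self hpos, ⟨Θ.symm z, Metric.mem_ball_self hpos, Θ.apply_symm_apply z⟩⟩)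
    refine ⟨Θ', h1, h2, ?_, ?_⟩
    · intro x
      obtain ⟨z, hz1, hz2⟩ := h3 x
      have e1 := hz1.1
      have e2 := hz2.1
      rw [Metric.mem_ball] at e1 e2
      have e3 := dist_triangle_right (Θ x) (Θ' x) z
      linarith
    · intro y
      obtain ⟨z, hz1, hz2⟩ := h3 (Θ'.symm y)
      obtain ⟨u, hu, hu'⟩ := hz1.2
      obtain ⟨v, hv, hv'⟩ := hz2.2
      rw [Θ'.apply_symm_apply] at hu'
      have e1 : u = Θ.symm y := by rw [← hu', Θ.symm_apply_apply]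
      have e2 : v = Θ'.symm y := Θ.injective hv'
      rw [e1, Metric.mem_ball] at hu
      rw [e2, Metric.mem_ball] at hv
      have e3 := dist_triangle_right (Θ.symm y) (Θ'.symm y) (Θ.symm z)
      linarith
  obtain ⟨Θ, hΘ0, hΘQ, hΘR⟩ := exists_seq Q (fun k Θ Θ' => R k Θ Θ' ∧
      (∀ x, dist (Θ x) (Θ' x) ≤ 1 * (1 / 2 : ℝ) ^ k) ∧
      ∀ y, dist (Θ.symm y) (Θ'.symm y) ≤ 1 * (1 / 2 : ℝ) ^ k) Θ₀ h0 step'
  obtain ⟨g, hg, hg1, hg2⟩ := exists_limit (fun k => Θ k) (fun k => (Θ k).continuous)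
    (fun k x => (hΘR k).2.1 x)
  obtain ⟨g', hg', hg'1, hg'2⟩ := exists_limit (fun k => (Θ k).symm)
    (fun k => (Θ k).symm.continuous) (fun k x => (hΘR k).2.2 x)
  have hl : Function.LeftInverse g' g := fun x =>
    comp_eq hg' hg'1 hg2 (fun k x => (Θ k).symm_apply_apply x) x
  have hr : Function.RightInverse g' g := fun x =>
    comp_eq hg hg1 hg'2 (fun k x => (Θ k).apply_symm_apply x) x
  exact ⟨Θ, Homeomorph.mk (Equiv.mk g g' hl hr) hg hg', hΘ0, hΘQ, fun k => (hΘR k).1, hg2⟩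

end Pool.Agent.Tor
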