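import Pool.Agent.Lib.Tor.Insert

/-! MODULE Tor.InsertBase (1.3 h): insertion of a coordinate which is absent where `lam <= 0`. -/

open Set Topology Filter

namespace Pool.Agent.Tor

namespace InsertBaseAux

theorem cont_dite {X Z : Type*} [TopologicalSpace X] [TopologicalSpace Z] (P : X → Prop)
    [DecidablePred P] (hP : IsOpen {x | P x}) (A : {x // P x} → Z) (hA : Continuous A) (B : X → Z)
    (hB : ∀ x, ¬ P x → ContinuousAt (fun x => if h : P x then A ⟨x, h⟩ else B x) x) :
    Continuous (fun x => if h : P x then A ⟨x, h⟩ else B x) := by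
  rw [continuous_iff_continuousAt]
  intro x
  by_cases h : P x
  · have h1 : ContinuousOn (fun x => if h : P x then A ⟨x, h⟩ else B x) {x | P x} := by
      rw [continuousOn_iff_continuous_domRestrict]
      refine hA.congr fun y => ?_
      have hy : P y.1 := y.2
      simp only [Set.domRestrict_apply]
      rw [dif_pos hy]
    exact h1.continuousAt (hP.mem_nhds h)
  · exact hB x h

variable {ι : Type}

/-- radial compression -/
noncomputable def comp (l : ℝ) (w : ι → F) : ι → F := fun i => (l / (1 + ‖w i‖)) • w i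

/-- its inverse -/
noncomputable def dec (l : ℝ) (x : ι → F) : ι → F := fun i => (1 / (l - ‖x i‖)) • x i

theorem norm_comp_lt {l : ℝ} (hl : 0 < l) (w : ι → F) (i : ι) : ‖comp l w i‖ < l := by
  unfold comp
  have h1 : 0 < 1 + ‖w i‖ := by positivity
  rw [norm_smul, Real.norm_of_nonneg (by positivity), div_mul_eq_mul_div, div_lt_iff₀ h1]
  nlinarith

theorem dec_comp {l : ℝ} (hl : 0 < l) (w : ι → F) : dec l (comp l w) = w := by
  funext i
  unfold dec comp
  have h1 : 0 < 1 + ‖w i‖ := by positivity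
  have h2 : l - ‖(l / (1 + ‖w i‖)) • w i‖ = l / (1 + ‖w i‖) := by
    rw [norm_smul, Real.norm_of_nonneg (by positivity)]
    field_simp
    ring
  rw [h2, smul_smul]
  have h3 : 1 / (l / (1 + ‖w i‖)) * (l / (1 + ‖w i‖)) = 1 := by
    field_simp
  rw [h3, one_smul]

theorem comp_dec {l : ℝ} (hl : 0 < l) {x : ι → F} (hx : ∀ i, ‖x i‖ < l) : comp l (dec l x) = x := by
  funext i
  unfold dec comp
  have h0 : 0 < l - ‖x i‖ := by linarith [hx i]
  have h2 : 1 + ‖(1 / (l - ‖x i‖)) • x i‖ = l / (l - ‖x i‖) := by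
    rw [norm_smul, Real.norm_of_nonneg (by positivity)]
    field_simp
    ring
  rw [h2, smul_smul]
  have h3 : l / (l / (l - ‖x i‖)) * (1 / (l - ‖x i‖)) = 1 := by
    field_simp
  rw [h3, one_smul]

theorem continuous_comp : Continuous (fun p : ℝ × (ι → F) => comp p.1 p.2) := by
  refine continuous_pi fun i => ?_
  have h1 : Continuous fun p : ℝ × (ι → F) => p.2 i := (continuous_apply i).comp continuous_snd
  refine Continuous.smul (continuous_fst.div (continuous_const.add h1.norm) fun p => ?_) h1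
  have h2 : (0:ℝ) < 1 + ‖p.2 i‖ := by positivity
  exact h2.ne'

end InsertBaseAux

open InsertBaseAux in
/-- PROOF. Let `K = iota -> F` and apply `insertion` with the clocks
`s n (y,v) = max 0 (min 1 (n * max (lam y) 0 - 1))` (they depend on `y` only): continuous, in `[0,1]`,
nondecreasing in `n`, locally eventually `1` where `lam y > 0`; `Om = {lam y > 0}` x everything. This
gives `Phi : Om x K = Om` over `Y`. Define `Theta (y,v)`: if `lam y <= 0` it is `((y,0), v)`; if
`lam y > 0` and `Phi^-1 (y,v) = ((y,v'),w)` it is `((y, c w), v')` with the radial compression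
`(c w)_i = (lam y / (1 + |w_i|)) w_i`, whose inverse is `w_i = (1 / (lam y - |x_i|)) x_i`.
Continuity where `lam y > 0` is clear. Where `lam y <= 0`: for each `n` the clocks `s 0 .. s n` vanish
near `y`, so `v'` and `v` agree in the coordinates `<= n` there, and `|c w_i| < lam y' -> ` small;
same for the inverse. -/
theorem insert_base {Y ι : Type} [TopologicalSpace Y] (lam : Y → ℝ) (hlam : Continuous lam) :
    ∃ Θ : Y × (ℕ → (ι → F)) ≃ₜ
        {p : Y × (ι → F) // p.2 = 0 ∨ ∀ i, ‖p.2 i‖ < lam p.1} × (ℕ → (ι → F)),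
      ∀ p, (Θ p).1.1.1 = p.1 := by
  classical
  let s : ℕ → Y × (ℕ → (ι → F)) → ℝ := fun n p => max 0 (min 1 ((n : ℝ) * max (lam p.1) 0 - 1))
  have hs0 : ∀ (n : ℕ) (p : Y × (ℕ → (ι → F))), (n : ℝ) * max (lam p.1) 0 ≤ 1 → s n p = 0 := by
    intro n p h
    refine max_eq_left ((min_le_right _ _).trans ?_)
    linarith
  have hs1 : ∀ (n : ℕ) (p : Y × (ℕ → (ι → F))), 2 ≤ (n : ℝ) * max (lam p.1) 0 → s n p = 1 := by
    intro n p h
    show max 0 (min 1 ((n : ℝ) * max (lam p.1) 0 - 1)) = 1
    rw [min_eq_left (by linarith), max_eq_right zero_le_one]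
  have hpred : (fun p : Y × (ℕ → (ι → F)) => ∃ n, s n p ≠ 0) = fun p => 0 < lam p.1 := by
    funext p
    apply propext
    constructor
    · rintro ⟨n, hn⟩
      by_contra h
      apply hn
      apply hs0
      rw [max_eq_right (not_lt.1 h), mul_zero]
      exact zero_le_one
    · intro h
      obtain ⟨n, hn⟩ := exists_nat_ge (2 / lam p.1)
      refine ⟨n, ?_⟩
      rw [hs1]
      · exact one_ne_zero
      · rw [max_eq_left h.le]
        rwa [div_le_iff₀ h] at hn
  have key := insertion (Y := Y) (K := ι → F) s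
    (fun n => by
      have h1 : Continuous fun p : Y × (ℕ → (ι → F)) => lam p.1 := hlam.comp continuous_fst
      exact continuous_const.max (continuous_const.min
        ((continuous_const.mul (h1.max continuous_const)).sub continuous_const)))
    (fun n p => ⟨le_max_left _ _, max_le zero_le_one (min_le_left _ _)⟩)
    (fun n p => by
      apply max_le_max_left
      apply min_le_min_left
      have h1 : (0:ℝ) ≤ max (lam p.1) 0 := le_max_right _ _
      push_cast
      nlinarith)
    (fun n y v v' _ => rfl)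
    (fun p hp => by
      have hp' : 0 < lam p.1 := by
        have := congrFun hpred p
        exact this ▸ hp
      obtain ⟨n, hn⟩ := exists_nat_ge (4 / lam p.1)
      rw [div_le_iff₀ hp'] at hn
      refine ⟨n, ?_⟩
      have h1 : ∀ᶠ p' : Y × (ℕ → (ι → F)) in 𝓝 p, lam p.1 / 2 < lam p'.1 := by
        have h2 : ContinuousAt (fun p' : Y × (ℕ → (ι → F)) => lam p'.1) p :=
          (hlam.comp continuous_fst).continuousAt
        exact h2.eventually (lt_mem_nhds (by linarith))
      filter_upwards [h1] with p' hp'' m hm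
      apply hs1
      have h3 : (n : ℝ) ≤ m := by exact_mod_cast hm
      have h4 : lam p'.1 ≤ max (lam p'.1) 0 := le_max_left _ _
      have h5 : (0:ℝ) ≤ n := by positivity
      nlinarith)
  rw [hpred] at key
  obtain ⟨Φ, hΦ⟩ := key
  -- facts on the inverse
  have hΨ1 : ∀ q : {p : Y × (ℕ → (ι → F)) // 0 < lam p.1}, (Φ.symm q).1.1.1 = q.1.1 := by
    intro q
    have := (hΦ (Φ.symm q).1 (Φ.symm q).2).1
    rw [Prod.mk.eta, Φ.apply_symm_apply] at this
    exact this.symm
  have hΨ2 : ∀ (q : {p : Y × (ℕ → (ι → F)) // 0 < lam p.1}) (n : ℕ),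
      (n : ℝ) * max (lam q.1.1) 0 ≤ 1 → ∀ i ≤ n, (Φ.symm q).1.1.2 i = q.1.2 i := by
    intro q n hn i hi
    have := (hΦ (Φ.symm q).1 (Φ.symm q).2).2 n (hs0 n _ (by rw [hΨ1]; exact hn)) i hi
    rw [Prod.mk.eta, Φ.apply_symm_apply] at this
    exact this.symm
  have hopen : IsOpen {p : Y × (ℕ → (ι → F)) | 0 < lam p.1} :=
    isOpen_lt continuous_const (hlam.comp continuous_fst)
  let fx : Y × (ℕ → (ι → F)) → (ι → F) := fun p =>
    if h : 0 < lam p.1 then comp (lam p.1) (Φ.symm ⟨p, h⟩).2 else 0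
  let fv : Y × (ℕ → (ι → F)) → (ℕ → (ι → F)) := fun p =>
    if h : 0 < lam p.1 then (Φ.symm ⟨p, h⟩).1.1.2 else p.2
  have hfx : ∀ p, fx p = 0 ∨ ∀ i, ‖fx p i‖ < lam p.1 := by
    intro p
    by_cases h : 0 < lam p.1
    · right
      intro i
      have : fx p = comp (lam p.1) (Φ.symm ⟨p, h⟩).2 := dif_pos h
      rw [this]
      exact norm_comp_lt h _ i
    · left; exact dif_neg h
  have hfxc : Continuous fx := by
    refine cont_dite (fun p : Y × (ℕ → (ι → F)) => 0 < lam p.1) hopen
      (fun q => comp (lam q.1.1) (Φ.symm q).2) ?_ (fun _ => 0) ?_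
    · exact continuous_comp.comp ((hlam.comp (continuous_fst.comp continuous_subtype_val)).prodMk
        (continuous_snd.comp Φ.symm.continuous))
    · intro p hp
      have hp0 : fx p = 0 := dif_neg hp
      change ContinuousAt fx p
      rw [ContinuousAt, hp0, tendsto_pi_nhds]
      intro i
      have h1 : Tendsto (fun p' : Y × (ℕ → (ι → F)) => max (lam p'.1) 0) (𝓝 p) (𝓝 0) := by
        have h2 : Continuous fun p' : Y × (ℕ → (ι → F)) => max (lam p'.1) 0 :=
          (hlam.comp continuous_fst).max continuous_const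
        have h3 := h2.tendsto p
        rwa [max_eq_right (not_lt.1 hp)] at h3
      refine squeeze_zero_norm (fun p' => ?_) h1
      rcases hfx p' with h | h
      · rw [h]; simp
      · exact (h i).le.trans (le_max_left _ _)
  have hsmall : ∀ (y : Y) (n : ℕ), ¬ 0 < lam y → ∀ᶠ y' in 𝓝 y, (n : ℝ) * max (lam y') 0 ≤ 1 := by
    intro y n hy
    have h2 : Continuous fun y' : Y => (n : ℝ) * max (lam y') 0 :=
      continuous_const.mul (hlam.max continuous_const)
    have h3 : ContinuousAt (fun y' : Y => (n : ℝ) * max (lam y') 0) y := h2.continuousAt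
    have h4 : (n : ℝ) * max (lam y) 0 < 1 := by
      rw [max_eq_right (not_lt.1 hy), mul_zero]; exact zero_lt_one
    filter_upwards [h3.eventually (gt_mem_nhds h4)] with y' hy' using hy'.le
  have hfvc : Continuous fv := by
    refine cont_dite (fun p : Y × (ℕ → (ι → F)) => 0 < lam p.1) hopen
      (fun q => (Φ.symm q).1.1.2) ?_ (fun p => p.2) ?_
    · exact continuous_snd.comp (continuous_subtype_val.comp (continuous_fst.comp
        Φ.symm.continuous))
    · intro p hp
      have hp0 : fv p = p.2 := dif_neg hp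
      change ContinuousAt fv p
      rw [ContinuousAt, hp0, tendsto_pi_nhds]
      intro i
      have h1 : ∀ᶠ p' : Y × (ℕ → (ι → F)) in 𝓝 p, p'.2 i = fv p' i := by
        have h2 := (hsmall p.1 i hp)
        have h3 : ∀ᶠ p' : Y × (ℕ → (ι → F)) in 𝓝 p, (i : ℝ) * max (lam p'.1) 0 ≤ 1 :=
          continuous_fst.continuousAt.eventually h2
        filter_upwards [h3] with p' hp'
        by_cases h : 0 < lam p'.1
        · have e : fv p' = (Φ.symm ⟨p', h⟩).1.1.2 := dif_pos h
          rw [e]
          exact (hΨ2 ⟨p', h⟩ i hp' i le_rfl).symm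
        · have e : fv p' = p'.2 := dif_neg h
          rw [e]
      have h4 : Tendsto (fun p' : Y × (ℕ → (ι → F)) => p'.2 i) (𝓝 p) (𝓝 (p.2 i)) :=
        ((continuous_apply i).comp continuous_snd).tendsto p
      exact h4.congr' h1
  let T := {p : Y × (ι → F) // p.2 = 0 ∨ ∀ i, ‖p.2 i‖ < lam p.1}
  let gv : T × (ℕ → (ι → F)) → Y × (ℕ → (ι → F)) := fun q =>
    if h : 0 < lam q.1.1.1 then (Φ (⟨(q.1.1.1, q.2), h⟩, dec (lam q.1.1.1) q.1.1.2)).1
    else (q.1.1.1, q.2)
  have hT : ∀ q : T, 0 < lam q.1.1 → ∀ i, ‖q.1.2 i‖ < lam q.1.1 := by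
    intro q hq i
    rcases q.2 with h | h
    · rw [h]; simpa using hq
    · exact h i
  have hlamT : Continuous fun q : T × (ℕ → (ι → F)) => lam q.1.1.1 :=
    hlam.comp (continuous_fst.comp (continuous_subtype_val.comp continuous_fst))
  have hopenT : IsOpen {q : T × (ℕ → (ι → F)) | 0 < lam q.1.1.1} :=
    isOpen_lt continuous_const hlamT
  have hgvc : Continuous gv := by
    refine cont_dite (fun q : T × (ℕ → (ι → F)) => 0 < lam q.1.1.1) hopenT
      (fun q => (Φ (⟨(q.1.1.1.1, q.1.2), q.2⟩, dec (lam q.1.1.1.1) q.1.1.1.2)).1) ?_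
      (fun q => (q.1.1.1, q.2)) ?_
    · have c0 : Continuous fun q : {q : T × (ℕ → (ι → F)) // 0 < lam q.1.1.1} => q.1.1.1.1 :=
        continuous_fst.comp (continuous_subtype_val.comp (continuous_fst.comp
          continuous_subtype_val))
      have c1 : Continuous fun q : {q : T × (ℕ → (ι → F)) // 0 < lam q.1.1.1} => q.1.1.1.2 :=
        continuous_snd.comp (continuous_subtype_val.comp (continuous_fst.comp
          continuous_subtype_val))
      have c2 : Continuous fun q : {q : T × (ℕ → (ι → F)) // 0 < lam q.1.1.1} => q.1.2 :=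
        continuous_snd.comp continuous_subtype_val
      have c3 : Continuous fun q : {q : T × (ℕ → (ι → F)) // 0 < lam q.1.1.1} =>
          dec (lam q.1.1.1.1) q.1.1.1.2 := by
        refine continuous_pi fun i => ?_
        have c4 : Continuous fun q : {q : T × (ℕ → (ι → F)) // 0 < lam q.1.1.1} => q.1.1.1.2 i :=
          (continuous_apply i).comp c1
        refine Continuous.smul (continuous_const.div ((hlam.comp c0).sub c4.norm) fun q => ?_) c4
        have := hT q.1.1 q.2 i
        exact (sub_pos.2 this).ne'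
      have c5 : Continuous fun q : {q : T × (ℕ → (ι → F)) // 0 < lam q.1.1.1} =>
          (⟨(q.1.1.1.1, q.1.2), q.2⟩ : {p : Y × (ℕ → (ι → F)) // 0 < lam p.1}) :=
        (c0.prodMk c2).subtype_mk _
      exact continuous_subtype_val.comp (Φ.continuous.comp (c5.prodMk c3))
    · intro q hq
      have hq0 : gv q = (q.1.1.1, q.2) := dif_neg hq
      change ContinuousAt gv q
      have hg1 : ∀ q, (gv q).1 = q.1.1.1 := by
        intro q
        by_cases h : 0 < lam q.1.1.1
        · have e : gv q = (Φ (⟨(q.1.1.1, q.2), h⟩, dec (lam q.1.1.1) q.1.1.2)).1 := dif_pos h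
          rw [e]
          exact (hΦ _ _).1
        · have e : gv q = (q.1.1.1, q.2) := dif_neg h
          rw [e]
      have c0 : Continuous fun q : T × (ℕ → (ι → F)) => q.1.1.1 :=
        continuous_fst.comp (continuous_subtype_val.comp continuous_fst)
      refine ContinuousAt.congr (f := fun q => (q.1.1.1, (gv q).2)) ?_
        (Eventually.of_forall fun q => Prod.ext (hg1 q).symm rfl)
      refine c0.continuousAt.prodMk ?_
      rw [ContinuousAt, hq0, tendsto_pi_nhds]
      intro i
      have h1 : ∀ᶠ q' : T × (ℕ → (ι → F)) in 𝓝 q, q'.2 i = (gv q').2 i := by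
        have h3 : ∀ᶠ q' : T × (ℕ → (ι → F)) in 𝓝 q, (i : ℝ) * max (lam q'.1.1.1) 0 ≤ 1 :=
          c0.continuousAt.eventually (hsmall q.1.1.1 i hq)
        filter_upwards [h3] with q' hq'
        by_cases h : 0 < lam q'.1.1.1
        · have e : gv q' = (Φ (⟨(q'.1.1.1, q'.2), h⟩, dec (lam q'.1.1.1) q'.1.1.2)).1 := dif_pos h
          rw [e]
          exact ((hΦ ⟨(q'.1.1.1, q'.2), h⟩ (dec (lam q'.1.1.1) q'.1.1.2)).2 i
            (hs0 i (q'.1.1.1, q'.2) hq') i le_rfl).symm
        · have e : gv q' = (q'.1.1.1, q'.2) := dif_neg h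
          rw [e]
      have h4 : Tendsto (fun q' : T × (ℕ → (ι → F)) => q'.2 i) (𝓝 q) (𝓝 (q.2 i)) :=
        ((continuous_apply i).comp continuous_snd).tendsto q
      exact h4.congr' h1
  refine ⟨{
    toFun := fun p => (⟨(p.1, fx p), hfx p⟩, fv p)
    invFun := gv
    left_inv := ?_
    right_inv := ?_
    continuous_toFun := ?_
    continuous_invFun := hgvc }, fun p => rfl⟩
  · intro p
    by_cases h : 0 < lam p.1
    · have e1 : fx p = comp (lam p.1) (Φ.symm ⟨p, h⟩).2 := dif_pos h
      have e2 : fv p = (Φ.symm ⟨p, h⟩).1.1.2 := dif_pos h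
      have e3 : gv (⟨(p.1, fx p), hfx p⟩, fv p) =
          (Φ (⟨(p.1, fv p), h⟩, dec (lam p.1) (fx p))).1 := dif_pos h
      rw [e3, e1, e2, dec_comp h]
      have e4 : (⟨(p.1, (Φ.symm ⟨p, h⟩).1.1.2), h⟩ : {p : Y × (ℕ → (ι → F)) // 0 < lam p.1}) =
          (Φ.symm ⟨p, h⟩).1 := by
        apply Subtype.ext
        exact Prod.ext (hΨ1 ⟨p, h⟩).symm rfl
      rw [e4, Prod.mk.eta, Φ.apply_symm_apply]
    · have e2 : fv p = p.2 := dif_neg h
      have e3 : gv (⟨(p.1, fx p), hfx p⟩, fv p) = (p.1, fv p) := dif_neg h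
      rw [e3, e2]
  · intro q
    by_cases h : 0 < lam q.1.1.1
    · have e : gv q = (Φ (⟨(q.1.1.1, q.2), h⟩, dec (lam q.1.1.1) q.1.1.2)).1 := dif_pos h
      set r := Φ (⟨(q.1.1.1, q.2), h⟩, dec (lam q.1.1.1) q.1.1.2) with hr
      have hr1 : r.1.1 = q.1.1.1 := (hΦ _ _).1
      have hlr : 0 < lam (gv q).1 := by rw [e]; exact r.2
      have e5 : (⟨gv q, hlr⟩ : {p : Y × (ℕ → (ι → F)) // 0 < lam p.1}) = r := Subtype.ext e
      have e6 : Φ.symm r = (⟨(q.1.1.1, q.2), h⟩, dec (lam q.1.1.1) q.1.1.2) :=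
        Φ.symm_apply_apply _
      have e1 : fx (gv q) = comp (lam (gv q).1) (Φ.symm ⟨gv q, hlr⟩).2 := dif_pos hlr
      have e2 : fv (gv q) = (Φ.symm ⟨gv q, hlr⟩).1.1.2 := dif_pos hlr
      have e7 : (gv q).1 = q.1.1.1 := by rw [e]; exact hr1
      refine Prod.ext (Subtype.ext (Prod.ext e7 ?_)) ?_
      · change fx (gv q) = q.1.1.2
        rw [e1, e5, e6, e7]
        exact comp_dec h (hT q.1 h)
      · change fv (gv q) = q.2
        rw [e2, e5, e6]
    · have e : gv q = (q.1.1.1, q.2) := dif_neg h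
      have h' : ¬ 0 < lam (gv q).1 := by rw [e]; exact h
      have e1 : fx (gv q) = 0 := dif_neg h'
      have e2 : fv (gv q) = (gv q).2 := dif_neg h'
      have e8 : q.1.1.2 = 0 := by
        rcases q.1.2 with h3 | h3
        · exact h3
        · funext i
          exact absurd (lt_of_le_of_lt (norm_nonneg _) (h3 i)) h
      refine Prod.ext (Subtype.ext (Prod.ext ?_ ?_)) ?_
      · change (gv q).1 = q.1.1.1
        rw [e]
      · change fx (gv q) = q.1.1.2
        rw [e1, e8]
      · change fv (gv q) = q.2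
        rw [e2, e]
  · exact ((continuous_fst.prodMk hfxc).subtype_mk _).prodMk hfvc

end Pool.Agent.Tor
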