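import Pool.Agent.Lib.Tor.Covers

/-! MODULE Tor.InvLim (2 h): limits of homeomorphisms into an inverse sequence. -/

open Set Topology Filter

namespace Pool.Agent.Tor

namespace InvLimAux

section

variable {Y : ℕ → Type} (p : ∀ k, Y (k + 1) → Y k)

/-- composed projections -/
def P {j k : ℕ} (h : j ≤ k) (z : Y k) : Y j :=
  Nat.decreasingInduction (motive := fun m _ => Y m) (fun i _ w => p i w) z h

lemma P_self {k : ℕ} (z : Y k) : P p (le_refl k) z = z :=
  Nat.decreasingInduction_self _ _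

lemma P_succ {j k : ℕ} (h : j ≤ k) (z : Y (k + 1)) :
    P p (Nat.le_succ_of_le h) z = P p h (p k z) :=
  Nat.decreasingInduction_succ (motive := fun m _ => Y m) (fun i _ w => p i w) z h _

lemma P_left {j k : ℕ} (h : j + 1 ≤ k) (z : Y k) :
    P p (Nat.le_of_succ_le h) z = p j (P p h z) :=
  Nat.decreasingInduction_succ_left (motive := fun m _ => Y m) (fun i _ w => p i w) z h _

lemma P_cont [∀ k, TopologicalSpace (Y k)] (hp : ∀ k, Continuous (p k)) {j k : ℕ} (h : j ≤ k) :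
    Continuous (P p h) := by
  induction k, h using Nat.le_induction with
  | base => exact continuous_id.congr fun z => (P_self p z).symm
  | succ k h ih => exact (ih.comp (hp k)).congr fun z => (P_succ p h z).symm

lemma P_thread {z : ∀ k, Y k} (hz : ∀ k, p k (z (k + 1)) = z k) {j k : ℕ} (h : j ≤ k) :
    P p h (z k) = z j := by
  induction k, h using Nat.le_induction with
  | base => exact P_self p _
  | succ k h ih => rw [P_succ p h, hz k, ih]

variable [∀ k, MetricSpace (Y k)]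

/-- distances adding up all the coordinates -/
noncomputable def D : ∀ k, Y k → Y k → ℝ
  | 0, a, b => dist a b
  | k + 1, a, b => dist a b + D k (p k a) (p k b)

lemma D_nonneg (k : ℕ) (a b : Y k) : 0 ≤ D p k a b := by
  induction k with
  | zero => exact dist_nonneg
  | succ k ih => exact add_nonneg dist_nonneg (ih _ _)

lemma dist_le_D (k : ℕ) (a b : Y k) : dist a b ≤ D p k a b := by
  cases k with
  | zero => exact le_rfl
  | succ k => exact le_add_of_nonneg_right (D_nonneg p k _ _)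

lemma D_self (k : ℕ) (a : Y k) : D p k a a = 0 := by
  induction k with
  | zero => exact dist_self a
  | succ k ih => simp only [D, dist_self, ih, add_zero]

lemma D_comm (k : ℕ) (a b : Y k) : D p k a b = D p k b a := by
  induction k with
  | zero => exact dist_comm a b
  | succ k ih => simp only [D]; rw [dist_comm, ih]

lemma D_tri (k : ℕ) (a b c : Y k) : D p k a c ≤ D p k a b + D p k b c := by
  induction k with
  | zero => exact dist_triangle a b c
  | succ k ih =>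
    simp only [D]
    linarith [dist_triangle a b c, ih (p k a) (p k b) (p k c)]

lemma D_proj (k : ℕ) (a b : Y (k + 1)) : D p k (p k a) (p k b) ≤ D p (k + 1) a b := by
  simp only [D]
  linarith [dist_nonneg (x := a) (y := b)]

lemma D_P {j k : ℕ} (h : j ≤ k) (a b : Y k) : D p j (P p h a) (P p h b) ≤ D p k a b := by
  induction k, h using Nat.le_induction with
  | base => rw [P_self, P_self]
  | succ k h ih =>
    rw [P_succ p h, P_succ p h]
    exact (ih _ _).trans (D_proj p k a b)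

lemma D_cont (hp : ∀ k, Continuous (p k)) (k : ℕ) (b : Y k) : Continuous fun a => D p k a b := by
  induction k with
  | zero => exact continuous_id.dist continuous_const
  | succ k ih =>
    simp only [D]
    exact (continuous_id.dist continuous_const).add ((ih (p k b)).comp (hp k))

/-- state of the recursion -/
structure St (Q : ∀ k, (Y 0 ≃ₜ Y k) → Prop) (V : ∀ k, Y k → Set (Y k)) (k : ℕ) where
  Θ : Y 0 ≃ₜ Y k
  hQ : Q k Θ
  m : Y 0 → ℝ
  mc : Continuous m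
  mpos : ∀ y, 0 < m y
  mle : ∀ y, m y ≤ 1
  b : ∀ y u, dist u (Θ y) < m y → ∃ v, u ∈ V k v ∧ Θ y ∈ V k v
  c : ∀ y u, dist u (Θ y) < m y → dist (Θ.symm u) y ≤ (1 / 2) ^ k

variable {p}

lemma exists_st {Q : ∀ k, (Y 0 ≃ₜ Y k) → Prop} {V : ∀ k, Y k → Set (Y k)}
    (hV : ∀ k, Cov (V k)) (k : ℕ) (Θ : Y 0 ≃ₜ Y k) (hQ : Q k Θ) (M : Y 0 → ℝ)
    (hM : Continuous M) (hMp : ∀ y, 0 < M y) :
    ∃ s : St Q V k, s.Θ = Θ ∧ ∀ y, s.m y ≤ M y := by
  have hcov : Cov (fun z : Y k => V k z ∩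
      {u | dist (Θ.symm u) (Θ.symm z) < (1 / 2) ^ (k + 1)}) := by
    intro z
    refine ⟨(hV k z).1.inter ?_, (hV k z).2, ?_⟩
    · exact isOpen_lt (Θ.symm.continuous.dist continuous_const) continuous_const
    · simp only [mem_setOf_eq, dist_self]
      positivity
  obtain ⟨ε, hεc, hε, _, hεb⟩ := exists_eps hcov
  refine ⟨⟨Θ, hQ, fun y => min (M y) (ε (Θ y)), hM.min (hεc.comp Θ.continuous), ?_, ?_, ?_, ?_⟩,
    rfl, fun y => min_le_left _ _⟩
  · intro y
    exact lt_min (hMp y) (hε _).1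
  · intro y
    exact (min_le_right _ _).trans (hε _).2
  · intro y u hu
    obtain ⟨z, hz⟩ := hεb (Θ y)
    have h1 := hz (show u ∈ Metric.ball (Θ y) (ε (Θ y)) from lt_of_lt_of_le hu (min_le_right _ _))
    have h2 := hz (Metric.mem_ball_self (hε (Θ y)).1)
    exact ⟨z, h1.1, h2.1⟩
  · intro y u hu
    obtain ⟨z, hz⟩ := hεb (Θ y)
    have h1 := hz (show u ∈ Metric.ball (Θ y) (ε (Θ y)) from lt_of_lt_of_le hu (min_le_right _ _))
    have h2 := hz (Metric.mem_ball_self (hε (Θ y)).1)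
    have h3 : dist (Θ.symm u) (Θ.symm z) < (1 / 2) ^ (k + 1) := h1.2
    have h4 : dist (Θ.symm (Θ y)) (Θ.symm z) < (1 / 2) ^ (k + 1) := h2.2
    rw [Homeomorph.symm_apply_apply] at h4
    have h5 := dist_triangle_right (Θ.symm u) y (Θ.symm z)
    have h6 : ((1:ℝ) / 2) ^ (k + 1) = (1 / 2) ^ k / 2 := by ring
    linarith

lemma exists_next (hp : ∀ k, Continuous (p k)) {Q : ∀ k, (Y 0 ≃ₜ Y k) → Prop}
    (step : ∀ k (Θ : Y 0 ≃ₜ Y k), Q k Θ → ∀ U : Y k → Set (Y k), Cov U →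
      ∃ Θ' : Y 0 ≃ₜ Y (k + 1), Q (k + 1) Θ' ∧ Near U (fun y => p k (Θ' y)) Θ)
    {V : ∀ k, Y k → Set (Y k)} (hV : ∀ k, Cov (V k)) (k : ℕ) (s : St Q V k) :
    ∃ s' : St Q V (k + 1), (∀ y, s'.m y ≤ s.m y) ∧
      ∀ y, D p k (p k (s'.Θ y)) (s.Θ y) < (1 / 2) ^ (k + 2) * s.m y := by
  let η : Y k → ℝ := fun z => (1 / 2) ^ (k + 2) * s.m (s.Θ.symm z)
  have hηc : Continuous η := continuous_const.mul (s.mc.comp s.Θ.symm.continuous)
  have hηp : ∀ z, 0 < η z := fun z => mul_pos (by positivity) (s.mpos _)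
  have hcov : Cov (fun z : Y k => {x | D p k x z < η z / 4 ∧ η z / 2 < η x}) := by
    intro z
    refine ⟨?_, ?_, ?_⟩
    · exact (isOpen_lt (D_cont p hp k z) continuous_const).inter (isOpen_lt continuous_const hηc)
    · rw [D_self]
      linarith [hηp z]
    · linarith [hηp z]
  obtain ⟨Θ', hQ', hnear⟩ := step k s.Θ s.hQ _ hcov
  obtain ⟨s', e, hm⟩ := exists_st hV (k + 1) Θ' hQ' s.m s.mc s.mpos
  refine ⟨s', hm, ?_⟩
  intro y
  rw [e]
  obtain ⟨z, ⟨h1, h2⟩, h3, h4⟩ := hnear y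
  have h5 : η (s.Θ y) = (1 / 2) ^ (k + 2) * s.m y := by
    simp only [η, Homeomorph.symm_apply_apply]
  rw [← h5]
  have h6 := D_tri p k (p k (Θ' y)) z (s.Θ y)
  rw [D_comm p k z] at h6
  linarith [hηp z]

lemma exists_seq (hp : ∀ k, Continuous (p k)) {Q : ∀ k, (Y 0 ≃ₜ Y k) → Prop}
    (Θ₀ : Y 0 ≃ₜ Y 0) (h0 : Q 0 Θ₀)
    (step : ∀ k (Θ : Y 0 ≃ₜ Y k), Q k Θ → ∀ U : Y k → Set (Y k), Cov U →
      ∃ Θ' : Y 0 ≃ₜ Y (k + 1), Q (k + 1) Θ' ∧ Near U (fun y => p k (Θ' y)) Θ)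
    {V : ∀ k, Y k → Set (Y k)} (hV : ∀ k, Cov (V k)) :
    ∃ s : ∀ k, St Q V k, (s 0).Θ = Θ₀ ∧ (∀ k y, (s (k + 1)).m y ≤ (s k).m y) ∧
      ∀ k y, D p k (p k ((s (k + 1)).Θ y)) ((s k).Θ y) < (1 / 2) ^ (k + 2) * (s k).m y := by
  choose next h1 h2 using exists_next hp step hV
  obtain ⟨s0, e0, _⟩ := exists_st (Q := Q) hV 0 Θ₀ h0 (fun _ => 1) continuous_const
    (fun _ => one_pos)
  exact ⟨fun k => Nat.rec s0 next k, e0, fun k y => h1 k _ y, fun k y => h2 k _ y⟩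

end

section lim

variable {Y : ℕ → Type} (p : ∀ k, Y (k + 1) → Y k) (Θ : ∀ k, Y 0 → Y k)

open Classical in
/-- the approximations in the coordinate `j` -/
noncomputable def A (j k : ℕ) (y : Y 0) : Y j :=
  if h : j ≤ k then P p h (Θ k y) else Θ j y

lemma A_of_le {j k : ℕ} (h : j ≤ k) (y : Y 0) : A p Θ j k y = P p h (Θ k y) := by
  unfold A
  rw [dif_pos h]

lemma A_self (j : ℕ) (y : Y 0) : A p Θ j j y = Θ j y := by
  rw [A_of_le p Θ le_rfl, P_self]

lemma A_proj {j k : ℕ} (h : j + 1 ≤ k) (y : Y 0) :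
    p j (A p Θ (j + 1) k y) = A p Θ j k y := by
  rw [A_of_le p Θ h, A_of_le p Θ (Nat.le_of_succ_le h), P_left p h]

lemma A_cont [∀ k, TopologicalSpace (Y k)] (hp : ∀ k, Continuous (p k))
    (hΘ : ∀ k, Continuous (Θ k)) (j k : ℕ) : Continuous (A p Θ j k) := by
  by_cases h : j ≤ k
  · have : A p Θ j k = fun y => P p h (Θ k y) := by
      funext y
      exact A_of_le p Θ h y
    rw [this]
    exact (P_cont p hp h).comp (hΘ k)
  · have : A p Θ j k = Θ j := by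
      funext y
      unfold A
      rw [dif_neg h]
    rw [this]
    exact hΘ j

variable [∀ k, MetricSpace (Y k)]

lemma A_step {m : ℕ → Y 0 → ℝ}
    (hd : ∀ k y, D p k (p k (Θ (k + 1) y)) (Θ k y) < (1 / 2) ^ (k + 2) * m k y)
    {j k : ℕ} (h : j ≤ k) (y : Y 0) :
    dist (A p Θ j (k + 1) y) (A p Θ j k y) ≤ (1 / 2) ^ (k + 2) * m k y := by
  rw [A_of_le p Θ h, A_of_le p Θ (Nat.le_succ_of_le h), P_succ p h]
  exact (dist_le_D p _ _ _).trans ((D_P p h _ _).trans (hd k y).le)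

lemma A_dist {m : ℕ → Y 0 → ℝ} (hm : ∀ k y, m (k + 1) y ≤ m k y) (hpos : ∀ k y, 0 < m k y)
    (hd : ∀ k y, D p k (p k (Θ (k + 1) y)) (Θ k y) < (1 / 2) ^ (k + 2) * m k y)
    {j k l : ℕ} (h : j ≤ k) (hl : k ≤ l) (y : Y 0) :
    dist (A p Θ j l y) (A p Θ j k y) ≤ ((1 / 2) ^ (k + 1) - (1 / 2) ^ (l + 1)) * m k y := by
  have hanti : ∀ l, k ≤ l → m l y ≤ m k y := by
    intro l hl
    induction l, hl using Nat.le_induction with
    | base => exact le_rfl
    | succ l _ ih => exact (hm l y).trans ih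
  induction l, hl using Nat.le_induction with
  | base => rw [dist_self]; simp
  | succ l hl ih =>
    have h1 := A_step p Θ hd (h.trans hl) y
    have h2 := dist_triangle (A p Θ j (l + 1) y) (A p Θ j l y) (A p Θ j k y)
    have h3 : ((1:ℝ) / 2) ^ (l + 2) * m l y ≤ (1 / 2) ^ (l + 2) * m k y :=
      mul_le_mul_of_nonneg_left (hanti l hl) (by positivity)
    have h4 : ((1:ℝ) / 2) ^ (l + 1) = 2 * (1 / 2) ^ (l + 2) := by ring
    have h5 : ((1:ℝ) / 2) ^ (l + 1 + 1) = (1 / 2) ^ (l + 2) := by ring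
    rw [h5]
    rw [h4] at ih
    linarith

lemma A_dist' {m : ℕ → Y 0 → ℝ} (hm : ∀ k y, m (k + 1) y ≤ m k y) (hpos : ∀ k y, 0 < m k y)
    (hd : ∀ k y, D p k (p k (Θ (k + 1) y)) (Θ k y) < (1 / 2) ^ (k + 2) * m k y)
    {j k l : ℕ} (h : j ≤ k) (hl : k ≤ l) (y : Y 0) :
    dist (A p Θ j l y) (A p Θ j k y) ≤ (1 / 2) ^ (k + 1) * m k y := by
  refine (A_dist p Θ hm hpos hd h hl y).trans ?_
  have := hpos k y
  have h1 : (0:ℝ) < (1 / 2) ^ (l + 1) := by positivity
  nlinarith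

end lim

/-- uniform limits -/
lemma cont_of_approx {X Z : Type} [TopologicalSpace X] [MetricSpace Z] {f : X → Z}
    {F : ℕ → X → Z} {N : ℕ} (hF : ∀ k, Continuous (F k))
    (h : ∀ k, N ≤ k → ∀ x, dist (f x) (F k x) ≤ (1 / 2) ^ k) : Continuous f := by
  apply continuous_of_uniform_approx_of_continuous
  intro u hu
  obtain ⟨ε, hε, hsub⟩ := Metric.mem_uniformity_dist.1 hu
  obtain ⟨n, hn⟩ := exists_pow_lt_of_lt_one hε (by norm_num : (1:ℝ) / 2 < 1)
  refine ⟨F (max n N), hF _, fun y => hsub ?_⟩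
  refine (h _ (le_max_right _ _) y).trans_lt (lt_of_le_of_lt ?_ hn)
  exact pow_le_pow_of_le_one (by norm_num) (by norm_num) (le_max_left _ _)

theorem main (Y : ℕ → Type) [∀ k, MetricSpace (Y k)] [∀ k, CompleteSpace (Y k)]
    (p : ∀ k, Y (k + 1) → Y k) (hp : ∀ k, Continuous (p k)) (Q : ∀ k, (Y 0 ≃ₜ Y k) → Prop)
    (Θ₀ : Y 0 ≃ₜ Y 0) (h0 : Q 0 Θ₀)
    (step : ∀ k (Θ : Y 0 ≃ₜ Y k), Q k Θ → ∀ U : Y k → Set (Y k), Cov U →
      ∃ Θ' : Y 0 ≃ₜ Y (k + 1), Q (k + 1) Θ' ∧ Near U (fun y => p k (Θ' y)) Θ)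
    (V : ∀ k, Y k → Set (Y k)) (hV : ∀ k, Cov (V k)) :
    ∃ (Θ : ∀ k, Y 0 ≃ₜ Y k) (Φ : Y 0 ≃ₜ {y : ∀ k, Y k // ∀ k, p k (y (k + 1)) = y k}),
      Θ 0 = Θ₀ ∧ (∀ k, Q k (Θ k)) ∧ ∀ k, Near (V k) (fun y => (Φ y).1 k) (Θ k) := by
  obtain ⟨s, hs0, hm, hd⟩ := exists_seq hp Θ₀ h0 step hV
  let Θ : ∀ k, Y 0 → Y k := fun k => (s k).Θ
  let m : ℕ → Y 0 → ℝ := fun k => (s k).m
  have hpos : ∀ k y, 0 < m k y := fun k y => (s k).mpos y
  have hle1 : ∀ k y, m k y ≤ 1 := fun k y => (s k).mle y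
  have hΘc : ∀ k, Continuous (Θ k) := fun k => (s k).Θ.continuous
  -- the limit
  have hA1 : ∀ {j k l : ℕ}, j ≤ k → k ≤ l → ∀ y,
      dist (A p Θ j l y) (A p Θ j k y) ≤ (1 / 2) ^ (k + 1) * m k y :=
    fun h hl y => A_dist' p Θ hm hpos hd h hl y
  have hcauchy : ∀ j y, CauchySeq (fun k => A p Θ j k y) := by
    intro j y
    apply Metric.cauchySeq_iff'.2
    intro ε hε
    obtain ⟨n, hn⟩ := exists_pow_lt_of_lt_one hε (by norm_num : (1:ℝ) / 2 < 1)
    refine ⟨max n j, fun k hk => ?_⟩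
    refine (hA1 (le_max_right _ _) hk y).trans_lt (lt_of_le_of_lt ?_ hn)
    calc ((1:ℝ) / 2) ^ (max n j + 1) * m (max n j) y ≤ (1 / 2) ^ (max n j + 1) * 1 :=
          mul_le_mul_of_nonneg_left (hle1 _ _) (by positivity)
      _ = (1 / 2) ^ (max n j + 1) := mul_one _
      _ ≤ (1 / 2) ^ n := pow_le_pow_of_le_one (by norm_num) (by norm_num)
          ((le_max_left _ _).trans (Nat.le_succ _))
  choose φ hφ using fun j y => cauchySeq_tendsto_of_complete (hcauchy j y)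
  have hφ1 : ∀ {j k : ℕ}, j ≤ k → ∀ y, dist (φ j y) (A p Θ j k y) ≤ (1 / 2) ^ (k + 1) * m k y := by
    intro j k h y
    refine le_of_tendsto ((hφ j y).dist tendsto_const_nhds) ?_
    filter_upwards [eventually_ge_atTop k] with l hl
    exact hA1 h hl y
  have hφ2 : ∀ {j k : ℕ}, j ≤ k → ∀ y, dist (φ j y) (A p Θ j k y) ≤ (1 / 2) ^ k := by
    intro j k h y
    refine (hφ1 h y).trans ?_
    have h1 : ((1:ℝ) / 2) ^ (k + 1) * m k y ≤ (1 / 2) ^ (k + 1) * 1 :=
      mul_le_mul_of_nonneg_left (hle1 _ _) (by positivity)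
    have h2 : ((1:ℝ) / 2) ^ (k + 1) = (1 / 2) ^ k / 2 := by ring
    have h3 : (0:ℝ) < (1 / 2) ^ k := by positivity
    linarith
  have hφc : ∀ j, Continuous (φ j) := fun j =>
    cont_of_approx (N := j) (F := fun k => A p Θ j k) (fun k => A_cont p Θ hp hΘc j k)
      (fun k hk y => hφ2 hk y)
  have hφp : ∀ j y, p j (φ (j + 1) y) = φ j y := by
    intro j y
    have h1 : Tendsto (fun k => p j (A p Θ (j + 1) k y)) atTop (𝓝 (p j (φ (j + 1) y))) :=
      ((hp j).tendsto _).comp (hφ (j + 1) y)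
    have h2 : Tendsto (fun k => p j (A p Θ (j + 1) k y)) atTop (𝓝 (φ j y)) := by
      refine (hφ j y).congr' ?_
      filter_upwards [eventually_ge_atTop (j + 1)] with k hk
      exact (A_proj p Θ hk y).symm
    exact tendsto_nhds_unique h1 h2
  have hφΘ : ∀ j y, dist (φ j y) (Θ j y) < m j y := by
    intro j y
    have h1 := hφ1 (le_refl j) y
    rw [A_self] at h1
    refine h1.trans_lt ?_
    have h2 : ((1:ℝ) / 2) ^ (j + 1) < 1 := pow_lt_one₀ (by norm_num) (by norm_num) (by omega)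
    have h3 := hpos j y
    nlinarith
  -- the inverse
  let Z : Type := {y : ∀ k, Y k // ∀ k, p k (y (k + 1)) = y k}
  let w : ℕ → Z → Y 0 := fun k z => (s k).Θ.symm (z.1 k)
  have hwc : ∀ k, Continuous (w k) := fun k =>
    (s k).Θ.symm.continuous.comp ((continuous_apply k).comp continuous_subtype_val)
  have hw1 : ∀ k z, dist (w k z) (w (k + 1) z) ≤ (1 / 2) ^ k := by
    intro k z
    apply (s k).c
    have h1 := hd k (w (k + 1) z)
    have h2 : (s (k + 1)).Θ (w (k + 1) z) = z.1 (k + 1) := Homeomorph.apply_symm_apply _ _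
    rw [h2, z.2 k] at h1
    refine (dist_le_D p k _ _).trans_lt (h1.trans_le ?_)
    have h3 : ((1:ℝ) / 2) ^ (k + 2) ≤ 1 := pow_le_one₀ (by norm_num) (by norm_num)
    have h4 := hpos k (w (k + 1) z)
    change ((1:ℝ) / 2) ^ (k + 2) * m k (w (k + 1) z) ≤ m k (w (k + 1) z)
    nlinarith
  have hw1' : ∀ z k, dist (w k z) (w (k + 1) z) ≤ 1 * (1 / 2) ^ k := by
    intro z k
    rw [one_mul]
    exact hw1 k z
  choose ξ hξ using fun z => cauchySeq_tendsto_of_complete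
    (cauchySeq_of_le_geometric (1 / 2 : ℝ) 1 (by norm_num) (hw1' z))
  have hξ1 : ∀ z k, dist (w k z) (ξ z) ≤ 1 * (1 / 2) ^ k / (1 - 1 / 2) := fun z k =>
    dist_le_of_le_geometric_of_tendsto (1 / 2 : ℝ) 1 (by norm_num) (hw1' z) (hξ z) k
  have hξc : Continuous ξ := by
    apply cont_of_approx (N := 0) (F := fun k => w (k + 1)) (fun k => hwc (k + 1))
    intro k _ z
    rw [dist_comm]
    refine (hξ1 z (k + 1)).trans (le_of_eq ?_)
    ring
  -- the homeomorphism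
  let Φ : Y 0 → Z := fun y => ⟨fun j => φ j y, fun j => hφp j y⟩
  have hΦc : Continuous Φ := (continuous_pi hφc).subtype_mk _
  have hleft : ∀ y, ξ (Φ y) = y := by
    intro y
    have h1 : Tendsto (fun k => w k (Φ y)) atTop (𝓝 y) := by
      rw [tendsto_iff_dist_tendsto_zero]
      refine squeeze_zero (fun _ => dist_nonneg) (fun k => (s k).c y _ (hφΘ k y)) ?_
      exact tendsto_pow_atTop_nhds_zero_of_lt_one (by norm_num) (by norm_num)
    exact tendsto_nhds_unique (hξ (Φ y)) h1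
  have hright : ∀ z, Φ (ξ z) = z := by
    intro z
    apply Subtype.ext
    funext j
    change φ j (ξ z) = z.1 j
    have h1 : Tendsto (fun k => φ j (w k z)) atTop (𝓝 (φ j (ξ z))) :=
      ((hφc j).tendsto _).comp (hξ z)
    have h2 : Tendsto (fun k => φ j (w k z)) atTop (𝓝 (z.1 j)) := by
      rw [tendsto_iff_dist_tendsto_zero]
      refine squeeze_zero' (Eventually.of_forall fun _ => dist_nonneg) ?_
        (tendsto_pow_atTop_nhds_zero_of_lt_one (r := (1:ℝ) / 2) (by norm_num) (by norm_num))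
      filter_upwards [eventually_ge_atTop j] with k hk
      have h3 := hφ2 hk (w k z)
      rw [A_of_le p Θ hk] at h3
      have h4 : Θ k (w k z) = z.1 k := Homeomorph.apply_symm_apply _ _
      rw [h4, P_thread p z.2 hk] at h3
      exact h3
    exact tendsto_nhds_unique h1 h2
  refine ⟨fun k => (s k).Θ, ⟨⟨Φ, ξ, hleft, hright⟩, hΦc, hξc⟩, hs0, fun k => (s k).hQ, ?_⟩
  intro k y
  exact (s k).b y _ (hφΘ k y)

end InvLimAux

/-- PROOF. Fix complete metrics on all `Y k`. Write `p_(l,k) : Y l -> Y k` (`l >= k`) for the composed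
projections. Choose recursively `Theta k` and continuous `eps_k : Y k -> (0,1]`, `eps_k <= 2^-k`, such
that `p_k (Theta (k+1) y)` is so close to `Theta k y` that
(a) for all `j <= k`: `dist (p_(k,j) (p_k (Theta (k+1) y))) (p_(k,j) (Theta k y)) <
2^(-k-3) min (eps_j (Theta j y)) ...`, i.e. all later moves seen in `Y j` sum up to less than
`eps_j (Theta j y)/2` (this is a fine control on `Y k`: use `(Theta k).symm` to express `y` by
`Theta k y`), where `eps_j` is chosen before step `j` so that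
(b) `eps_j`-close points of `Y j` are in a common member of `V j`, and
(c) `dist u (Theta j y) < eps_j (Theta j y)` implies
`dist ((Theta j).symm u) y < 2^-j` (continuity of `(Theta j).symm`).
Limit: `Phi(y)_j = lim_k p_(k,j) (Theta k y)` exists uniformly, is continuous, compatible, and
`dist (Phi(y)_j) (Theta j y) < eps_j (Theta j y)`. Inverse: for `z` in the inverse limit put
`y_k = (Theta k).symm (z_k)`; since `p_k (Theta (k+1) y_(k+1)) = p_k z_(k+1) = z_k` is close to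
`Theta k y_(k+1)`, (c) gives `dist y_k y_(k+1) < 2^-k`; so `Xi z = lim y_k` is continuous. For `m >= k`:
`Phi(y_m)_k` is within `2^-m` (sum of the later moves, (a) with `l >= m`) of `p_(m,k) (Theta m y_m) =
p_(m,k) z_m = z_k`; hence `Phi (Xi z) = z`. And `dist (Phi(y)_m) (Theta m y) < eps_m` with (c) gives
`dist ((Theta m).symm (Phi(y)_m)) y < 2^-m`, so `Xi (Phi y) = y`. -/
theorem inv_lim (Y : ℕ → Type) [∀ k, TopologicalSpace (Y k)] [∀ k, PolishSpace (Y k)]
    (p : ∀ k, Y (k + 1) → Y k) (hp : ∀ k, Continuous (p k)) (Q : ∀ k, (Y 0 ≃ₜ Y k) → Prop)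
    (Θ₀ : Y 0 ≃ₜ Y 0) (h0 : Q 0 Θ₀)
    (step : ∀ k (Θ : Y 0 ≃ₜ Y k), Q k Θ → ∀ U : Y k → Set (Y k), Cov U →
      ∃ Θ' : Y 0 ≃ₜ Y (k + 1), Q (k + 1) Θ' ∧ Near U (fun y => p k (Θ' y)) Θ)
    (V : ∀ k, Y k → Set (Y k)) (hV : ∀ k, Cov (V k)) :
    ∃ (Θ : ∀ k, Y 0 ≃ₜ Y k) (Φ : Y 0 ≃ₜ {y : ∀ k, Y k // ∀ k, p k (y (k + 1)) = y k}),
      Θ 0 = Θ₀ ∧ (∀ k, Q k (Θ k)) ∧ ∀ k, Near (V k) (fun y => (Φ y).1 k) (Θ k) := by
  let up : ∀ k, TopologicalSpace.UpgradedIsCompletelyMetrizableSpace (Y k) := fun k =>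
    TopologicalSpace.upgradeIsCompletelyMetrizable (Y k)
  exact InvLimAux.main Y p hp Q Θ₀ h0 step V hV

end Pool.Agent.Tor
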