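import Pool.Agent.Lib.Tor.InvLim
import Pool.Agent.Lib.Tor.Core

/-! MODULE Tor.Iter (1.5 h): infinite iteration of `core`. -/

open Set Topology Filter

namespace Pool.Agent.Tor

namespace IterAux

/-- the stages -/
abbrev Y (k : ℕ) : Type := E × (Fin k → F)

/-- forget the last coordinate -/
def p (k : ℕ) (y : Y (k + 1)) : Y k := (y.1, fun i => y.2 i.castSucc)

theorem continuous_p (k : ℕ) : Continuous (p k) := by
  unfold p
  fun_prop

/-- the inverse limit -/
abbrev L : Type := {y : ∀ k, Y k // ∀ k, p k (y (k + 1)) = y k}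

theorem L_fst (y : L) (k : ℕ) : (y.1 k).1 = (y.1 0).1 := by
  induction k with
  | zero => rfl
  | succ k ih =>
    rw [← ih]
    exact congrArg Prod.fst (y.2 k)

theorem L_snd (y : L) (k : ℕ) (j : Fin k) :
    (y.1 k).2 j = (y.1 (j + 1)).2 (Fin.last j) := by
  induction k with
  | zero => exact j.elim0
  | succ k ih =>
    refine Fin.lastCases ?_ (fun j => ?_) j
    · rfl
    · have h := congrFun (congrArg Prod.snd (y.2 k)) j
      have h' : (y.1 (k + 1)).2 j.castSucc = (y.1 k).2 j := h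
      rw [h', ih j]
      rfl

/-- the inverse limit is `E x F^N` -/
def homeoL : L ≃ₜ E × (ℕ → F) where
  toFun y := ((y.1 0).1, fun i => (y.1 (i + 1)).2 (Fin.last i))
  invFun q := ⟨fun k => (q.1, fun j : Fin k => q.2 j), fun k => rfl⟩
  left_inv y := by
    apply Subtype.ext
    funext k
    refine Prod.ext (L_fst y k).symm ?_
    funext j
    exact (L_snd y k j).symm
  right_inv q := rfl
  continuous_toFun := by
    refine Continuous.prodMk ?_ ?_
    · exact continuous_fst.comp ((continuous_apply 0).comp continuous_subtype_val)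
    · refine continuous_pi fun i => ?_
      exact (continuous_apply (Fin.last i)).comp (continuous_snd.comp
        ((continuous_apply (i + 1)).comp continuous_subtype_val))
  continuous_invFun := by
    refine Continuous.subtype_mk ?_ _
    refine continuous_pi fun k => ?_
    refine Continuous.prodMk continuous_fst ?_
    refine continuous_pi fun j => ?_
    exact (continuous_apply (j : ℕ)).comp continuous_snd

/-- `E = Y 0` -/
def homeo0 : E ≃ₜ Y 0 where
  toFun e := (e, fun i => i.elim0)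
  invFun y := y.1
  left_inv e := rfl
  right_inv y := by
    refine Prod.ext rfl ?_
    funext i
    exact i.elim0
  continuous_toFun := by
    refine Continuous.prodMk continuous_id ?_
    exact continuous_pi fun i => i.elim0
  continuous_invFun := continuous_fst

theorem step (A : Set E) (hA : SZ A) (k : ℕ) (Θ : Y 0 ≃ₜ Y k) (U : Y k → Set (Y k)) (hU : Cov U) :
    ∃ Θ' : Y 0 ≃ₜ Y (k + 1), (∀ y : Y 0, y.1 ∈ A → 1 ≤ ‖(Θ' y).2 (Fin.last k)‖) ∧
      Near U (fun y => p k (Θ' y)) Θ := by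
  obtain ⟨hE⟩ := E_prod_Fin k
  obtain ⟨V, hV, hs⟩ := exists_star hU
  obtain ⟨θ, hθ⟩ := stab hE V hV
  have hA' : SZ (θ '' (Θ '' (homeo0 '' A))) := ((hA.image homeo0).image Θ).image θ
  obtain ⟨h, hh1, hh2⟩ := core' hE _ hA' V hV
  obtain ⟨σ, hσ⟩ := snoc_homeo k
  have hσ' : ∀ q : Y k × F, p k (σ q) = q.1 := by
    rintro ⟨⟨x, w⟩, v⟩
    obtain ⟨h1, h2, h3⟩ := hσ x w v
    exact Prod.ext h1 (funext h2)
  have hσ'' : ∀ q : Y k × F, (σ q).2 (Fin.last k) = q.2 := by
    rintro ⟨⟨x, w⟩, v⟩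
    exact (hσ x w v).2.2
  refine ⟨((Θ.trans θ).trans h).trans σ, ?_, ?_⟩
  · intro y hy
    have hmem : θ (Θ y) ∈ θ '' (Θ '' (homeo0 '' A)) := by
      refine ⟨Θ y, ⟨y, ⟨y.1, hy, ?_⟩, rfl⟩, rfl⟩
      exact homeo0.right_inv y
    have := hh2 _ hmem
    change 1 ≤ ‖(σ (h (θ (Θ y)))).2 (Fin.last k)‖
    rw [hσ'']
    exact this
  · have h1 : Near V (fun y => (h (θ (Θ y))).1) (fun y => (θ (Θ y)).1) := by
      intro y
      obtain ⟨z, hz1, hz2⟩ := hh1 (θ (Θ y))
      exact ⟨z, hz2, hz1⟩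
    have h2 : Near V (fun y => (θ (Θ y)).1) Θ := by
      intro y
      obtain ⟨z, hz1, hz2⟩ := hθ (Θ y)
      exact ⟨z, hz2, hz1⟩
    have h3 := near_trans hs h1 h2
    intro y
    obtain ⟨z, hz1, hz2⟩ := h3 y
    refine ⟨z, ?_, hz2⟩
    change p k (σ (h (θ (Θ y)))) ∈ U z
    rw [hσ']
    exact hz1

end IterAux

open IterAux

/-- PROOF. `Y k = E x (Fin k -> F)` (`= E` by `E_prod_Fin`, Polish), `p k` = forget the last
coordinate, `Theta_0 = id`, `Q 0 Th = (Th = id)`, `Q (k+1) Th` = for all `y` with `y.1 in A` the last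
coordinate of `Th y` has norm at least `1`. Step: given `Th : Y 0 = Y k`, the set
`A_k = Th (A x {empty})` is SZ (`SZ.image`; `Y 0 = E`); `stab` gives `T : Y k = Y k x F` near the
identity, `core'` (base `Y k`) applied to `T(A_k)` gives `h`, and `Th' = snoc_homeo o h o T o Th`.
`inv_lim` with `V k` = the cover of `Y k` by sets on which all `F`-coordinates have distance `< 1/2`
(for `k >= 1`) and, for `k = 0`, the cover `U`. The inverse limit is `E x (N -> F)`
(`y -> (y_0.1, (last coordinate of y_(i+1))_i)`, inverse by restriction). All coordinates of the limit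
have norm at least `1/2` on `A`; multiply the `F^N` part by `2`. -/
theorem iter (A : Set E) (hA : SZ A) (U : E → Set E) (hU : Cov U) :
    ∃ Θ : E ≃ₜ E × (ℕ → F), (∀ e, ∃ z, e ∈ U z ∧ (Θ e).1 ∈ U z) ∧
      ∀ e ∈ A, ∀ i, 1 ≤ ‖(Θ e).2 i‖ := by
  have : ∀ k, PolishSpace (Y k) := fun k => inferInstance
  obtain ⟨Θ, Φ, hΘ0, hΘ, hN⟩ := inv_lim Y p continuous_p
    (fun k Th => ∀ (l : ℕ) (hl : k = l + 1), ∀ y : Y 0, y.1 ∈ A →
      1 ≤ ‖(Th y).2 ⟨l, by omega⟩‖) (Homeomorph.refl _) (fun l hl => by omega)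
    (fun k Th _ U' hU' => by
      obtain ⟨Th', h1, h2⟩ := step A hA k Th U' hU'
      refine ⟨Th', ?_, h2⟩
      rintro l hl y hy
      obtain rfl : k = l := by omega
      exact h1 y hy)
    (fun k y => {y' | y'.1 ∈ U y.1 ∧ dist y'.2 y.2 < 1 / 4})
    (fun k y => ⟨((hU y.1).1.preimage continuous_fst).inter
        (isOpen_lt (f := fun y' : Y k => dist y'.2 y.2) (g := fun _ => (1 / 4 : ℝ))
          (continuous_snd.dist continuous_const) continuous_const), (hU y.1).2, by simp⟩)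
  let sc : (ℕ → F) ≃ₜ (ℕ → F) := Homeomorph.smulOfNeZero (2 : ℝ) two_ne_zero
  refine ⟨((homeo0.trans Φ).trans homeoL).trans ((Homeomorph.refl E).prodCongr sc), ?_, ?_⟩
  · intro e
    obtain ⟨z, hz1, hz2⟩ := hN 0 (homeo0 e)
    rw [hΘ0] at hz2
    exact ⟨z.1, hz2.1, hz1.1⟩
  · intro e he i
    obtain ⟨z, hz1, hz2⟩ := hN (i + 1) (homeo0 e)
    have h1 := hΘ (i + 1) i rfl (homeo0 e) he
    change 1 ≤ ‖(2 : ℝ) • ((Φ (homeo0 e)).1 (i + 1)).2 (Fin.last i)‖
    have hd1 := (dist_pi_lt_iff (by norm_num)).1 hz1.2 (Fin.last i)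
    have hd2 := (dist_pi_lt_iff (by norm_num)).1 hz2.2 (Fin.last i)
    have hd : dist (((Φ (homeo0 e)).1 (i + 1)).2 (Fin.last i)) ((Θ (i + 1) (homeo0 e)).2 (Fin.last i))
        < 1 / 2 := by
      have := dist_triangle_right (((Φ (homeo0 e)).1 (i + 1)).2 (Fin.last i))
        ((Θ (i + 1) (homeo0 e)).2 (Fin.last i)) (z.2 (Fin.last i))
      linarith
    have h1' : 1 ≤ ‖(Θ (i + 1) (homeo0 e)).2 (Fin.last i)‖ := h1
    rw [dist_eq_norm] at hd
    have h2 := norm_sub_norm_le ((Θ (i + 1) (homeo0 e)).2 (Fin.last i))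
      (((Φ (homeo0 e)).1 (i + 1)).2 (Fin.last i))
    rw [norm_sub_rev] at h2
    rw [norm_smul]
    have h3 : ‖(2 : ℝ)‖ = 2 := by norm_num
    rw [h3]
    linarith

end Pool.Agent.Tor
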