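import Pool.Agent.Lib.Tor.CylVert

/-! MODULE Tor.Layers (1.2 h): separated layers. -/

open Set Topology Filter

namespace Pool.Agent.Tor

namespace LayersAux

variable {X M : Type} [MetricSpace X] [TopologicalSpace M] {q : E → X} {c : M → X} {lev : M → I}
  {i : X → M} {J : E × I → M}

/-- the part below `b` -/
def Lo (J : E × I → M) (b : E → ℝ) : Set M :=
  {m | ∀ n (t : I), 0 < t → m = J (n, t) → (t : ℝ) ≤ b n}

/-- the part above `b` -/
def Hi (J : E × I → M) (b : E → ℝ) : Set M :=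
  {m | ∃ n, ∃ t : I, b n ≤ t ∧ m = J (n, t)}

lemma lo_disj (hc : IsCyl q c lev i J) (f : M → X)
    (h1 : ∀ n, ∀ V ∈ 𝓝 (J (n, 1)), ∃ O ∈ 𝓝 (f (J (n, 1))), f ⁻¹' O ⊆ V)
    {b : E → ℝ} (hb : Continuous b) (hb1 : ∀ n, b n < 1) :
    Disjoint (range fun n => f (J (n, 1))) (closure (f '' Lo J b)) := by
  rw [Set.disjoint_left]
  rintro _ ⟨n, rfl⟩ hcl
  obtain ⟨pn, hpc, hp1, hp2⟩ := hc.pn
  have hlev1 : lev (J (n, 1)) = 1 := hc.lev_J n 1
  have hop : IsOpen {m : M | 0 < lev m} := isOpen_lt continuous_const hc.hlev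
  have hm0 : 0 < lev (J (n, 1)) := by rw [hlev1]; exact zero_lt_one
  have hV : {m : M | 0 < lev m ∧ b (pn m) < lev m} ∈ 𝓝 (J (n, 1)) := by
    have hpm : ContinuousAt pn (J (n, 1)) := hpc.continuousAt (hop.mem_nhds hm0)
    have e1 : ContinuousAt (fun m => b (pn m)) (J (n, 1)) := hb.continuousAt.comp hpm
    have e2 : ContinuousAt (fun m => (lev m : ℝ)) (J (n, 1)) :=
      (continuous_subtype_val.comp hc.hlev).continuousAt
    have e3 : ∀ᶠ m in 𝓝 (J (n, 1)), b (pn m) < (lev m : ℝ) := by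
      refine e1.eventually_lt e2 ?_
      rw [hlev1, hp1 n 1 zero_lt_one]
      exact hb1 n
    filter_upwards [e3, hop.mem_nhds hm0] with m a1 a2
    exact ⟨a2, a1⟩
  obtain ⟨O, hO, hOV⟩ := h1 n _ hV
  obtain ⟨y, hyO, m, hm, rfl⟩ := mem_closure_iff_nhds.1 hcl O hO
  obtain ⟨a1, a2⟩ := hOV hyO
  have a3 := hm (pn m) (lev m) a1 (hp2 m a1).symm
  exact absurd a3 (not_le.2 a2)

lemma step (hc : IsCyl q c lev i J) (f : M → X) (hf : Continuous f)
    (h1 : ∀ n, ∀ V ∈ 𝓝 (J (n, 1)), ∃ O ∈ 𝓝 (f (J (n, 1))), f ⁻¹' O ⊆ V)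
    (hK : IsClosed (range fun n => f (J (n, 1)))) (k : ℕ)
    (b : {b : E → ℝ // Continuous b ∧ ∀ n, b n < 1}) :
    ∃ b' : {b : E → ℝ // Continuous b ∧ ∀ n, b n < 1}, (∀ n, b.1 n < b'.1 n) ∧
      (∀ n, 1 - (1 / 2 : ℝ) ^ (k + 1) ≤ b'.1 n) ∧
      (∀ n (t : I), b'.1 n ≤ t →
        Metric.infDist (f (J (n, t))) (range fun n => f (J (n, 1))) < (1 / 2) ^ k) ∧
      Disjoint (closure (f '' Lo J b.1)) (closure (f '' Hi J b'.1)) := by
  obtain ⟨b, hb, hb1⟩ := b
  have hd := lo_disj hc f h1 hb hb1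
  obtain ⟨G, hG, hKG, hGC⟩ := normal_exists_closure_subset hK isClosed_closure.isOpen_compl
    (Set.subset_compl_iff_disjoint_right.2 hd)
  have hK0 : (range fun n => f (J (n, 1))).Nonempty := range_nonempty _
  let G' : Set X := G ∩ {x | Metric.infDist x (range fun n => f (J (n, 1))) < (1 / 2) ^ k}
  have hG' : IsOpen G' :=
    hG.inter (isOpen_lt (Metric.continuous_infDist_pt _) continuous_const)
  obtain ⟨w, hw, hw1, hwW⟩ := cyl_top hc (f ⁻¹' G') (hG'.preimage hf) (by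
    intro n
    have hn : f (J (n, 1)) ∈ range fun n => f (J (n, 1)) := ⟨n, rfl⟩
    refine ⟨hKG hn, ?_⟩
    change Metric.infDist (f (J (n, 1))) _ < _
    rw [Metric.infDist_zero_of_mem hn]
    positivity)
  refine ⟨⟨fun n => max (max (w n) (1 - (1 / 2) ^ (k + 1))) ((b n + 1) / 2), ?_, ?_⟩,
    ?_, ?_, ?_, ?_⟩
  · fun_prop
  · intro n
    have h3 : (0:ℝ) < (1 / 2) ^ (k + 1) := by positivity
    have := hb1 n
    exact max_lt (max_lt (hw1 n).2 (by linarith)) (by linarith)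
  · intro n
    refine lt_of_lt_of_le ?_ (le_max_right _ _)
    have := hb1 n
    change b n < (b n + 1) / 2
    linarith
  · intro n
    exact (le_max_right _ _).trans (le_max_left _ _)
  · intro n t ht
    have h4 : w n ≤ t := ((le_max_left _ _).trans (le_max_left _ _)).trans ht
    exact (hwW n t h4).2
  · have hsub : f '' Hi J (fun n => max (max (w n) (1 - (1 / 2) ^ (k + 1))) ((b n + 1) / 2)) ⊆
        G := by
      rintro _ ⟨m, ⟨n, t, ht, rfl⟩, rfl⟩
      have h4 : w n ≤ t := ((le_max_left _ _).trans (le_max_left _ _)).trans ht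
      exact (hwW n t h4).1
    exact (Set.subset_compl_iff_disjoint_right.1 ((closure_mono hsub).trans hGC)).symm

end LayersAux

open LayersAux

/-- PROOF. Let `K` be the closed set `{f (J (n,1))}`. CLAIM: for continuous `b : E -> R` with `b < 1` the
closure of `f (Lo b)` is disjoint from `K`: if `f (m_k) -> f (J (n,1))` with `m_k in Lo b`, then `h1`
gives `m_k -> J (n,1)`; but `{m | lev m > 0, lev m > b (pn m)}` is a neighbourhood of `J (n,1)` which
misses `Lo b`. Recursion: given `a i`, let `G` be open, `K subset G`, closure of `G` disjoint from the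
closure of `f (Lo (a i))` (normality), `G subset {infDist . K < 2^-i}`; `cyl_top` for `f^-1 G` gives `w`;
`a (i+1) = max (max w (1 - 2^-(i+1))) ((a i + 1)/2)`. (`infDist`: if `E` were empty.. it is not, so `K`
is nonempty.) -/
theorem layers {X M : Type} [MetricSpace X] [TopologicalSpace M]
    [TopologicalSpace.MetrizableSpace M] {q : E → X} {c : M → X} {lev : M → I} {i : X → M}
    {J : E × I → M} (hc : IsCyl q c lev i J) (f : M → X) (hf : Continuous f)
    (h1 : ∀ n, ∀ V ∈ 𝓝 (J (n, 1)), ∃ O ∈ 𝓝 (f (J (n, 1))), f ⁻¹' O ⊆ V)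
    (hK : IsClosed (range fun n => f (J (n, 1)))) (a₀ : E → ℝ) (ha : Continuous a₀)
    (ha1 : ∀ n, 1 / 2 ≤ a₀ n ∧ a₀ n < 1) :
    ∃ a : ℕ → E → ℝ, a 0 = a₀ ∧ (∀ i, Continuous (a i)) ∧
      (∀ i n, a i n < a (i + 1) n ∧ a (i + 1) n < 1) ∧
      (∀ i n, 1 - (1 / 2 : ℝ) ^ i ≤ a i n) ∧
      (∀ i n (t : I), a (i + 1) n ≤ t →
        Metric.infDist (f (J (n, t))) (range fun n => f (J (n, 1))) < (1 / 2) ^ i) ∧
      ∀ i, Disjoint
        (closure (f '' {m | ∀ n (t : I), 0 < t → m = J (n, t) → (t : ℝ) ≤ a i n}))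
        (closure (f '' {m | ∃ n, ∃ t : I, a (i + 1) n ≤ t ∧ m = J (n, t)})) := by
  choose next s1 s2 s3 s4 using step hc f hf h1 hK
  let s : ∀ _ : ℕ, {b : E → ℝ // Continuous b ∧ ∀ n, b n < 1} := fun k =>
    Nat.rec ⟨a₀, ha, fun n => (ha1 n).2⟩ next k
  refine ⟨fun k => (s k).1, rfl, fun k => (s k).2.1, ?_, ?_, ?_, ?_⟩
  · intro k n
    exact ⟨s1 k (s k) n, (s (k + 1)).2.2 n⟩
  · intro k n
    cases k with
    | zero =>
      rw [pow_zero, sub_self]
      exact le_trans (by norm_num) (ha1 n).1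
    | succ k => exact s2 k (s k) n
  · intro k n t ht
    exact s3 k (s k) n t ht
  · intro k
    exact s4 k (s k)

end Pool.Agent.Tor
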