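import Pool.Agent.Lib.Tor.ModelW

/-! MODULE Tor.ModelBlk (1 h): `l2` as a sum of infinitely many copies of `l2` (blocks). -/

open Set Topology Filter

namespace Pool.Agent.Tor

namespace ModelBlkAux

lemma mem_iff (f : ℕ → ℝ) : Memℓp f 2 ↔ Summable fun i => (f i) ^ 2 := by
  rw [memℓp_gen_iff (by norm_num : (0:ℝ) < (2 : ENNReal).toReal)]
  simp

lemma norm_sq (x : H2) : ‖x‖ ^ 2 = ∑' i, (x i) ^ 2 := by
  have h := lp.norm_rpow_eq_tsum (p := 2) (by norm_num : (0:ℝ) < (2 : ENNReal).toReal) x
  simpa using h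

lemma summable_sq (x : H2) : Summable fun i => (x i) ^ 2 := (mem_iff _).1 (lp.memℓp x)

/-- coordinates of `S j w` -/
def sf (j : ℕ) (w : ℕ → ℝ) : ℕ → ℝ := fun i => if i.unpair.1 = j then w i.unpair.2 else 0

lemma sf_pair (j : ℕ) (w : ℕ → ℝ) (m : ℕ) : sf j w (Nat.pair j m) = w m := by
  simp [sf]

lemma pair_inj (j : ℕ) : Function.Injective (Nat.pair j) := by
  intro a b h
  have := congrArg (fun i => (Nat.unpair i).2) h
  simpa using this

lemma sf_support (j : ℕ) (w : ℕ → ℝ) (i : ℕ) (hi : i ∉ range (Nat.pair j)) : sf j w i = 0 := by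
  unfold sf
  rw [if_neg]
  rintro rfl
  exact hi ⟨i.unpair.2, Nat.pair_unpair i⟩

lemma sf_mem (j : ℕ) (w : H2) : Memℓp (sf j w) 2 := by
  rw [mem_iff, ← (pair_inj j).summable_iff]
  · have := summable_sq w
    refine this.congr fun m => ?_
    simp [sf_pair]
  · intro i hi
    rw [sf_support j w i hi]
    norm_num

lemma sf_tsum (j : ℕ) (w : ℕ → ℝ) : ∑' i, (sf j w i) ^ 2 = ∑' m, (w m) ^ 2 := by
  rw [← (pair_inj j).tsum_eq]
  · simp [sf_pair]
  · intro i hi
    by_contra h
    exact hi (by simp [sf_support j w i h])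

lemma rf_mem (j : ℕ) (x : H2) : Memℓp (fun m => x (Nat.pair j m)) 2 := by
  rw [mem_iff]
  exact (summable_sq x).comp_injective (pair_inj j)

/-- the vector `S j w` -/
noncomputable def sv (j : ℕ) (w : H2) : H2 := ⟨sf j w, sf_mem j w⟩

/-- the vector `R j x` -/
noncomputable def rv (j : ℕ) (x : H2) : H2 := ⟨fun m => x (Nat.pair j m), rf_mem j x⟩

lemma sv_apply (j : ℕ) (w : H2) (i : ℕ) :
    sv j w i = if i.unpair.1 = j then w i.unpair.2 else 0 := rfl

lemma rv_apply (j : ℕ) (x : H2) (m : ℕ) : rv j x m = x (Nat.pair j m) := rfl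

lemma norm_sv (j : ℕ) (w : H2) : ‖sv j w‖ = ‖w‖ := by
  have h : ‖sv j w‖ ^ 2 = ‖w‖ ^ 2 := by
    rw [norm_sq, norm_sq]
    exact sf_tsum j w
  exact (sq_eq_sq₀ (norm_nonneg _) (norm_nonneg _)).1 h

lemma norm_le_of_coord {x y : H2} (h : ∀ i, (x i) ^ 2 ≤ (y i) ^ 2) : ‖x‖ ≤ ‖y‖ := by
  have h2 : ‖x‖ ^ 2 ≤ ‖y‖ ^ 2 := by
    rw [norm_sq, norm_sq]
    exact (summable_sq x).tsum_le_tsum h (summable_sq y)
  exact (sq_le_sq₀ (norm_nonneg _) (norm_nonneg _)).1 h2

lemma norm_rv (j : ℕ) (x : H2) : ‖rv j x‖ ≤ ‖x‖ := by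
  have h2 : ‖rv j x‖ ^ 2 ≤ ‖x‖ ^ 2 := by
    rw [norm_sq, norm_sq]
    exact tsum_comp_le_tsum_of_inj (summable_sq x) (fun i => sq_nonneg _) (pair_inj j)
  exact (sq_le_sq₀ (norm_nonneg _) (norm_nonneg _)).1 h2

/-- the continuous linear map `S j` -/
noncomputable def SL (j : ℕ) : H2 →L[ℝ] H2 :=
  LinearMap.mkContinuous
    { toFun := sv j
      map_add' := by
        intro a b
        ext i
        simp only [lp.coeFn_add, Pi.add_apply, sv_apply]
        split_ifs <;> simp
      map_smul' := by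
        intro c a
        ext i
        simp only [lp.coeFn_smul, Pi.smul_apply, sv_apply, RingHom.id_apply]
        split_ifs <;> simp } 1 (by
    intro w
    simp only [LinearMap.coe_mk, AddHom.coe_mk, one_mul]
    exact (norm_sv j w).le)

/-- the continuous linear map `R j` -/
noncomputable def RL (j : ℕ) : H2 →L[ℝ] H2 :=
  LinearMap.mkContinuous
    { toFun := rv j
      map_add' := by
        intro a b
        ext i
        simp only [lp.coeFn_add, Pi.add_apply, rv_apply]
      map_smul' := by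
        intro c a
        ext i
        simp only [lp.coeFn_smul, Pi.smul_apply, rv_apply, RingHom.id_apply] } 1 (by
    intro w
    simp only [LinearMap.coe_mk, AddHom.coe_mk, one_mul]
    exact norm_rv j w)

lemma SL_apply (j : ℕ) (w : H2) (i : ℕ) :
    SL j w i = if i.unpair.1 = j then w i.unpair.2 else 0 := rfl

lemma RL_apply (j : ℕ) (x : H2) (m : ℕ) : RL j x m = x (Nat.pair j m) := rfl

lemma sum_apply (s : Finset ℕ) (f : ℕ → H2) (i : ℕ) : (∑ j ∈ s, f j) i = ∑ j ∈ s, f j i := by
  classical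
  induction s using Finset.induction_on with
  | empty => simp
  | insert a s ha ih => rw [Finset.sum_insert ha, Finset.sum_insert ha, lp.coeFn_add, Pi.add_apply, ih]

lemma coord (x : H2) (n i : ℕ) :
    (x - ∑ j ∈ Finset.range n, SL j (RL j x)) i = if i.unpair.1 < n then 0 else x i := by
  rw [lp.coeFn_sub, Pi.sub_apply, sum_apply]
  have h : ∀ j, (SL j (RL j x)) i = if i.unpair.1 = j then x i else 0 := by
    intro j
    rw [SL_apply]
    by_cases hj : i.unpair.1 = j
    · rw [if_pos hj, if_pos hj, RL_apply, ← hj, Nat.pair_unpair]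
    · rw [if_neg hj, if_neg hj]
  simp_rw [h]
  rw [Finset.sum_ite_eq]
  by_cases hi : i.unpair.1 < n
  · simp [hi]
  · simp [hi]

end ModelBlkAux

open ModelBlkAux

/-- `S j` puts a vector of `l2` into block `j`, `R j` reads block `j`.

PROOF. `(S j w)_i = if i.unpair.1 = j then w i.unpair.2 else 0` and `(R j x)_m = x (Nat.pair j m)`.
Memlp: square summability (`memℓp_gen_iff`); the coordinates of `S j w` with `unpair.1 = j` are
`w`, along the injective map `m -> pair j m` (`Function.Injective.tsum_eq`,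
`Function.Injective.summable_iff`), so `norm (S j w) = norm w`; and the squares of `R j x` are a
subfamily of the squares of `x`, so `norm (R j x) <= norm x`. Build the continuous linear maps with
`LinearMap.mkContinuous _ 1`. (`R i (S j w)` : `unpair (pair i m) = (i, m)`.)
Last point: `x - sum_{j<n} S j (R j x)` has coordinates `x_i` if `n <= i.unpair.1` and `0`
otherwise; since `i.unpair.1 <= i`... its squared norm is `sum_{i, n <= i.unpair.1} x_i^2 <=
sum_{i >= n} x_i^2` (`Nat.unpair_left_le : (unpair i).1 <= i`, so `n <= i.unpair.1` implies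
`n <= i`), and the tail of a convergent series tends to `0`
(`tendsto_sum_nat_add`/`tendsto_tsum_compl_atTop_zero`). The bound by `norm x` is clear from the
coordinates. -/
theorem exists_blocks : ∃ S R : ℕ → H2 →L[ℝ] H2,
    (∀ j w, R j (S j w) = w) ∧ (∀ i j w, i ≠ j → R i (S j w) = 0) ∧
    (∀ j w, ‖S j w‖ = ‖w‖) ∧ (∀ j x, ‖R j x‖ ≤ ‖x‖) ∧
    (∀ x n, ‖x - ∑ j ∈ Finset.range n, S j (R j x)‖ ≤ ‖x‖) ∧
    ∀ x, Tendsto (fun n => ∑ j ∈ Finset.range n, S j (R j x)) atTop (𝓝 x) := by
  refine ⟨SL, RL, ?_, ?_, norm_sv, norm_rv, ?_, ?_⟩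
  · intro j w
    ext m
    rw [RL_apply, SL_apply]
    simp
  · intro i j w hij
    ext m
    rw [RL_apply, SL_apply]
    simp [hij]
  · intro x n
    refine norm_le_of_coord fun i => ?_
    rw [coord]
    split_ifs
    · have := sq_nonneg (x i)
      simpa using this
    · exact le_rfl
  · intro x
    rw [tendsto_iff_norm_sub_tendsto_zero]
    have h1 : Tendsto (fun n => ‖∑ j ∈ Finset.range n, SL j (RL j x) - x‖ ^ 2) atTop (𝓝 0) := by
      have h2 : ∀ n, ‖∑ j ∈ Finset.range n, SL j (RL j x) - x‖ ^ 2 =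
          ∑' i : ℕ, (if i.unpair.1 < n then 0 else x i) ^ 2 := by
        intro n
        rw [norm_sub_rev, norm_sq]
        refine tsum_congr fun i => ?_
        rw [coord]
      simp_rw [h2]
      have h3 : Tendsto (fun n => ∑' i : ℕ, (if i.unpair.1 < n then 0 else x i) ^ 2) atTop
          (𝓝 (∑' _ : ℕ, (0:ℝ))) := by
        refine tendsto_tsum_of_dominated_convergence (summable_sq x) ?_ ?_
        · intro i
          refine tendsto_const_nhds.congr' ?_
          filter_upwards [eventually_gt_atTop i.unpair.1] with n hn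
          simp [hn]
        · refine Eventually.of_forall fun n i => ?_
          rw [Real.norm_of_nonneg (sq_nonneg _)]
          split_ifs
          · have := sq_nonneg (x i)
            simpa using this
          · exact le_rfl
      simpa using h3
    have h4 := h1.sqrt
    simpa [Real.sqrt_sq (norm_nonneg _)] using h4

end Pool.Agent.Tor
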