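import Pool.Agent.Lib.Tor.ModelBlk
import Pool.Agent.Lib.Tor.Covers

/-! MODULE Tor.ModelL2 (2.5 h): the coded operator of `l2`. -/

open Set Topology Filter

namespace Pool.Agent.Tor

namespace ModelL2Aux

/-- ramp -/
noncomputable def lam (s : ℝ) : ℝ := max 0 (min 1 s)

/-- hat -/
noncomputable def bb (s : ℝ) : ℝ := max 0 (1 - |s - 2|)

lemma lam_cont : Continuous lam := by
  unfold lam
  fun_prop

lemma bb_cont : Continuous bb := by
  unfold bb
  fun_prop

lemma lam_zero {s : ℝ} (h : s ≤ 0) : lam s = 0 := by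
  unfold lam
  rw [min_eq_right (by linarith), max_eq_left h]

lemma lam_one {s : ℝ} (h : 1 ≤ s) : lam s = 1 := by
  unfold lam
  rw [min_eq_left h, max_eq_right (by norm_num)]

lemma lam_id {s : ℝ} (h0 : 0 ≤ s) (h1 : s ≤ 1) : lam s = s := by
  unfold lam
  rw [min_eq_right h1, max_eq_right h0]

lemma bb_nonneg (s : ℝ) : 0 ≤ bb s := le_max_left _ _

lemma bb_zero_lo {s : ℝ} (h : s ≤ 1) : bb s = 0 := by
  unfold bb
  rw [max_eq_left]
  have := neg_abs_le (s - 2)
  linarith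

lemma bb_zero_hi {s : ℝ} (h : 3 ≤ s) : bb s = 0 := by
  unfold bb
  rw [max_eq_left]
  have := le_abs_self (s - 2)
  linarith

lemma bb_lo {s : ℝ} (h1 : 1 ≤ s) (h2 : s ≤ 2) : bb s = s - 1 := by
  unfold bb
  rw [abs_of_nonpos (by linarith), max_eq_right (by linarith)]
  ring

lemma bb_hi {s : ℝ} (h1 : 2 ≤ s) (h2 : s ≤ 3) : bb s = 3 - s := by
  unfold bb
  rw [abs_of_nonneg (by linarith), max_eq_right (by linarith)]
  ring

section ops

variable (S R : ℕ → H2 →L[ℝ] H2)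

/-- truncated operator -/
noncomputable def Gs (M : ℕ) (r : ℝ) (x : H2) (s : ℝ) (v : H2) : H2 :=
  ∑ j ∈ Finset.range M, (lam (r - j) • S j (R j x) + (s * bb (j - r)) • S j v)

lemma Gs_ext {M M' : ℕ} {r : ℝ} (h : r + 3 ≤ M) (hM : M ≤ M') (x : H2) (s : ℝ) (v : H2) :
    Gs S R M' r x s v = Gs S R M r x s v := by
  unfold Gs
  symm
  refine Finset.sum_subset (Finset.range_mono hM) ?_
  intro j _ hj
  rw [Finset.mem_range, not_lt] at hj
  have hj' : (M : ℝ) ≤ j := by exact_mod_cast hj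
  rw [lam_zero (by linarith), bb_zero_hi (by linarith)]
  simp

/-- the operator -/
noncomputable def GG (r : ℝ) (x : H2) (s : ℝ) (v : H2) : H2 := Gs S R (⌈r⌉₊ + 3) r x s v

lemma GG_eq {M : ℕ} {r : ℝ} (h : r + 3 ≤ M) (x : H2) (s : ℝ) (v : H2) :
    GG S R r x s v = Gs S R M r x s v := by
  unfold GG
  have h1 : r + 3 ≤ ((⌈r⌉₊ + 3 : ℕ) : ℝ) := by
    push_cast
    linarith [Nat.le_ceil r]
  rcases le_total (⌈r⌉₊ + 3) M with h2 | h2
  · exact (Gs_ext S R h1 h2 x s v).symm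
  · exact Gs_ext S R h h2 x s v

lemma Gs_cont (M : ℕ) :
    Continuous fun p : ℝ × H2 × ℝ × H2 => Gs S R M p.1 p.2.1 p.2.2.1 p.2.2.2 := by
  unfold Gs
  refine continuous_finsetSum _ fun j _ => ?_
  have a1 : Continuous fun p : ℝ × H2 × ℝ × H2 => lam (p.1 - j) := lam_cont.comp (by fun_prop)
  have a2 : Continuous fun p : ℝ × H2 × ℝ × H2 => S j (R j p.2.1) :=
    (S j).continuous.comp ((R j).continuous.comp (by fun_prop))
  have a3 : Continuous fun p : ℝ × H2 × ℝ × H2 => p.2.2.1 * bb (j - p.1) :=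
    Continuous.mul (by fun_prop) (bb_cont.comp (by fun_prop))
  have a4 : Continuous fun p : ℝ × H2 × ℝ × H2 => S j p.2.2.2 :=
    (S j).continuous.comp (by fun_prop)
  exact (a1.smul a2).add (a3.smul a4)

lemma GG_cont : Continuous fun p : ℝ × H2 × ℝ × H2 => GG S R p.1 p.2.1 p.2.2.1 p.2.2.2 := by
  rw [continuous_iff_continuousAt]
  intro p₀
  refine (Gs_cont S R (⌈p₀.1⌉₊ + 4)).continuousAt.congr ?_
  have h : ∀ᶠ p : ℝ × H2 × ℝ × H2 in 𝓝 p₀, p.1 < p₀.1 + 1 :=
    continuousAt_fst.eventually_lt continuousAt_const (by linarith)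
  filter_upwards [h] with p hp
  refine (GG_eq S R ?_ _ _ _).symm
  push_cast
  linarith [Nat.le_ceil p₀.1]

variable {S R}

lemma R_Gs (h1 : ∀ j w, R j (S j w) = w) (h2 : ∀ i j w, i ≠ j → R i (S j w) = 0) {M i : ℕ}
    (hi : i < M) (r : ℝ) (x : H2) (s : ℝ) (v : H2) :
    R i (Gs S R M r x s v) = lam (r - i) • R i x + (s * bb (i - r)) • v := by
  unfold Gs
  rw [map_sum, Finset.sum_eq_single i]
  · rw [map_add, map_smul, map_smul, h1, h1]
  · intro j _ hj
    rw [map_add, map_smul, map_smul, h2 i j _ (Ne.symm hj), h2 i j _ (Ne.symm hj)]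
    simp
  · intro h
    exact absurd (Finset.mem_range.2 hi) h

lemma R_GG (h1 : ∀ j w, R j (S j w) = w) (h2 : ∀ i j w, i ≠ j → R i (S j w) = 0) (i : ℕ)
    (r : ℝ) (x : H2) (s : ℝ) (v : H2) :
    R i (GG S R r x s v) = lam (r - i) • R i x + (s * bb (i - r)) • v := by
  have h3 : r + 3 ≤ ((max (⌈r⌉₊ + 3) (i + 1) : ℕ) : ℝ) := by
    have h4 : ((⌈r⌉₊ + 3 : ℕ) : ℝ) ≤ ((max (⌈r⌉₊ + 3) (i + 1) : ℕ) : ℝ) := by
      exact_mod_cast le_max_left _ _
    push_cast at h4 ⊢
    linarith [Nat.le_ceil r]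
  rw [GG_eq S R h3]
  exact R_Gs h1 h2 (lt_of_lt_of_le (Nat.lt_succ_self i) (le_max_right _ _)) r x s v

lemma GG_dist (h3 : ∀ j w, ‖S j w‖ = ‖w‖) {r s δ : ℝ} (hr : 0 ≤ r) (hs : 0 ≤ s) {x v : H2}
    (hv : ‖v‖ = 1)
    (h : ∀ n : ℕ, r - 1 ≤ n → ‖x - ∑ j ∈ Finset.range n, S j (R j x)‖ ≤ δ) :
    ‖GG S R r x s v - x‖ ≤ δ + s := by
  set n := ⌊r⌋₊ with hn
  have hn1 : (n : ℝ) ≤ r := Nat.floor_le hr
  have hn2 : r < n + 1 := Nat.lt_floor_add_one r
  have hM : r + 3 ≤ ((n + 4 : ℕ) : ℝ) := by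
    push_cast
    linarith
  have e1 : GG S R r x s v = ∑ j ∈ Finset.range n, S j (R j x) + (r - n) • S n (R n x) +
      (s * (1 - (r - n))) • S (n + 2) v + (s * (r - n)) • S (n + 3) v := by
    rw [GG_eq S R hM]
    unfold Gs
    rw [Finset.sum_range_succ, Finset.sum_range_succ, Finset.sum_range_succ,
      Finset.sum_range_succ]
    have e2 : ∑ j ∈ Finset.range n, (lam (r - j) • S j (R j x) + (s * bb (j - r)) • S j v) =
        ∑ j ∈ Finset.range n, S j (R j x) := by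
      refine Finset.sum_congr rfl fun j hj => ?_
      have hj1 : ((j + 1 : ℕ) : ℝ) ≤ n := by
        exact_mod_cast Finset.mem_range.1 hj
      push_cast at hj1
      rw [lam_one (by linarith), bb_zero_lo (by linarith)]
      simp
    rw [e2]
    push_cast
    rw [lam_id (s := r - n) (by linarith) (by linarith), bb_zero_lo (s := n - r) (by linarith),
      lam_zero (s := r - (n + 1)) (by linarith), bb_zero_lo (s := n + 1 - r) (by linarith),
      lam_zero (s := r - (n + 2)) (by linarith), bb_lo (s := n + 2 - r) (by linarith) (by linarith),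
      lam_zero (s := r - (n + 3)) (by linarith), bb_hi (s := n + 3 - r) (by linarith) (by linarith)]
    have e3 : s * ((n : ℝ) + 2 - r - 1) = s * (1 - (r - n)) := by ring
    have e4 : s * (3 - ((n : ℝ) + 3 - r)) = s * (r - n) := by ring
    rw [e3, e4]
    simp
  have e5 : GG S R r x s v - x = (1 - (r - n)) • (∑ j ∈ Finset.range n, S j (R j x) - x) +
      (r - n) • (∑ j ∈ Finset.range (n + 1), S j (R j x) - x) +
      (s * (1 - (r - n))) • S (n + 2) v + (s * (r - n)) • S (n + 3) v := by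
    rw [e1, Finset.sum_range_succ]
    module
  rw [e5]
  have f0 : 0 ≤ r - n := by linarith
  have f1 : 0 ≤ 1 - (r - n) := by linarith
  have g1 : ‖(1 - (r - n)) • (∑ j ∈ Finset.range n, S j (R j x) - x)‖ ≤ (1 - (r - n)) * δ := by
    rw [norm_smul, Real.norm_of_nonneg f1, norm_sub_rev]
    exact mul_le_mul_of_nonneg_left (h n (by linarith)) f1
  have g2 : ‖(r - n) • (∑ j ∈ Finset.range (n + 1), S j (R j x) - x)‖ ≤ (r - n) * δ := by
    rw [norm_smul, Real.norm_of_nonneg f0, norm_sub_rev]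
    refine mul_le_mul_of_nonneg_left (h (n + 1) ?_) f0
    push_cast
    linarith
  have g3 : ‖(s * (1 - (r - n))) • S (n + 2) v‖ ≤ s * (1 - (r - n)) := by
    rw [norm_smul, Real.norm_of_nonneg (by positivity), h3, hv, mul_one]
  have g4 : ‖(s * (r - n)) • S (n + 3) v‖ ≤ s * (r - n) := by
    rw [norm_smul, Real.norm_of_nonneg (by positivity), h3, hv, mul_one]
  have k1 := norm_add_le ((1 - (r - n)) • (∑ j ∈ Finset.range n, S j (R j x) - x) +
      (r - n) • (∑ j ∈ Finset.range (n + 1), S j (R j x) - x) +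
      (s * (1 - (r - n))) • S (n + 2) v) ((s * (r - n)) • S (n + 3) v)
  have k2 := norm_add_le ((1 - (r - n)) • (∑ j ∈ Finset.range n, S j (R j x) - x) +
      (r - n) • (∑ j ∈ Finset.range (n + 1), S j (R j x) - x)) ((s * (1 - (r - n))) • S (n + 2) v)
  have k3 := norm_add_le ((1 - (r - n)) • (∑ j ∈ Finset.range n, S j (R j x) - x))
      ((r - n) • (∑ j ∈ Finset.range (n + 1), S j (R j x) - x))
  nlinarith

end ops

section rank

variable {S R : ℕ → H2 →L[ℝ] H2}

lemma exists_rank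
    (h5 : ∀ x n, ‖x - ∑ j ∈ Finset.range n, S j (R j x)‖ ≤ ‖x‖)
    (h6 : ∀ x, Tendsto (fun n => ∑ j ∈ Finset.range n, S j (R j x)) atTop (𝓝 x)) :
    ∃ r : H2 × {t : I // 0 < t} → ℝ, Continuous r ∧ (∀ z, 2 ≤ r z) ∧
      ∀ z (n : ℕ), r z - 1 ≤ n →
        ‖z.1 - ∑ j ∈ Finset.range n, S j (R j z.1)‖ ≤ ((z.2 : I) : ℝ) / 4 := by
  have anti : ∀ (z : H2 × {t : I // 0 < t}) (r s : ℝ), 0 < r → r ≤ s →
      (∀ n : ℕ, 1 ≤ n * s →
        ‖z.1 - ∑ j ∈ Finset.range n, S j (R j z.1)‖ ≤ ((z.2 : I) : ℝ) / 4) →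
      ∀ n : ℕ, 1 ≤ n * r →
        ‖z.1 - ∑ j ∈ Finset.range n, S j (R j z.1)‖ ≤ ((z.2 : I) : ℝ) / 4 := by
    intro z r s _ hrs hs n hn
    refine hs n (hn.trans ?_)
    exact mul_le_mul_of_nonneg_left hrs (Nat.cast_nonneg n)
  have loc : ∀ z : H2 × {t : I // 0 < t}, ∃ r : ℝ, r > 0 ∧ ∀ᶠ z' : H2 × {t : I // 0 < t} in 𝓝 z,
      ∀ n : ℕ, 1 ≤ n * r →
        ‖z'.1 - ∑ j ∈ Finset.range n, S j (R j z'.1)‖ ≤ ((z'.2 : I) : ℝ) / 4 := by
    rintro ⟨x, t⟩
    have ht : 0 < ((t : I) : ℝ) := t.2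
    have h7 : ∀ᶠ n in atTop, dist (∑ j ∈ Finset.range n, S j (R j x)) x < ((t : I) : ℝ) / 16 :=
      (Metric.tendsto_nhds.1 (h6 x)) _ (by positivity)
    obtain ⟨N, hN⟩ := eventually_atTop.1 h7
    refine ⟨1 / (N + 1), by positivity, ?_⟩
    have h8 : ∀ᶠ z : H2 × {t : I // 0 < t} in 𝓝 (x, t), ‖z.1 - x‖ < ((t : I) : ℝ) / 16 := by
      have : ContinuousAt (fun z : H2 × {t : I // 0 < t} => ‖z.1 - x‖) (x, t) := by fun_prop
      refine this.eventually_lt continuousAt_const ?_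
      simpa using ht
    have h9 : ∀ᶠ z : H2 × {t : I // 0 < t} in 𝓝 (x, t),
        ((t : I) : ℝ) / 2 < ((z.2 : I) : ℝ) := by
      have : ContinuousAt (fun z : H2 × {t : I // 0 < t} => ((z.2 : I) : ℝ)) (x, t) := by
        fun_prop
      refine continuousAt_const.eventually_lt this ?_
      simp only
      linarith
    filter_upwards [h8, h9] with z hz1 hz2 n hn
    have hn' : N ≤ n := by
      by_contra hlt
      push Not at hlt
      have h10 : (n : ℝ) < N + 1 := by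
        have : (n : ℝ) < N := by exact_mod_cast hlt
        linarith
      rw [mul_one_div, le_div_iff₀ (by positivity)] at hn
      linarith
    have h11 := hN n hn'
    have h12 := h5 (z.1 - x) n
    have h13 : z.1 - ∑ j ∈ Finset.range n, S j (R j z.1) =
        ((z.1 - x) - ∑ j ∈ Finset.range n, S j (R j (z.1 - x))) +
          (x - ∑ j ∈ Finset.range n, S j (R j x)) := by
      simp only [map_sub, Finset.sum_sub_distrib]
      abel
    rw [h13]
    have h14 := norm_add_le ((z.1 - x) - ∑ j ∈ Finset.range n, S j (R j (z.1 - x)))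
      (x - ∑ j ∈ Finset.range n, S j (R j x))
    rw [dist_eq_norm, norm_sub_rev] at h11
    linarith
  obtain ⟨ε, hεc, hεp, hε⟩ := exists_below _ anti loc
  refine ⟨fun z => 1 / ε z + 1, ?_, ?_, ?_⟩
  · exact (continuous_const.div hεc fun z => (hεp z).1.ne').add continuous_const
  · intro z
    have h1 : 1 ≤ 1 / ε z := by
      rw [le_div_iff₀ (hεp z).1]
      linarith [(hεp z).2]
    linarith
  · intro z n hn
    apply hε z n
    have h1 : 1 / ε z ≤ n := by linarith
    rw [div_le_iff₀ (hεp z).1] at h1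
    exact h1

end rank

/-- the reading step, abstractly -/
lemma read {S R : ℕ → H2 →L[ℝ] H2} {w : W → H2} (hw1 : ∀ e, ‖w e‖ = 1)
    (hwr : ∀ (e : ℕ → W) (u : H2), Tendsto (fun k => w (e k)) atTop (𝓝 u) →
      ∃ e', Tendsto e atTop (𝓝 e'))
    (h1 : ∀ j w, R j (S j w) = w) (h2 : ∀ i j w, i ≠ j → R i (S j w) = 0)
    (h3 : ∀ j w, ‖S j w‖ = ‖w‖) (h4 : ∀ j x, ‖R j x‖ ≤ ‖x‖)
    (h6 : ∀ x, Tendsto (fun n => ∑ j ∈ Finset.range n, S j (R j x)) atTop (𝓝 x))
    (x : ℕ → H2) (t : ℕ → ℝ) (e : ℕ → W) (r : ℕ → ℝ) (τ : ℝ) (y : H2) (hτ : 0 < τ)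
    (ht : ∀ k, τ ≤ t k) (ht1 : ∀ k, t k ≤ 1) (hr : ∀ k, 0 ≤ r k)
    (hy : Tendsto (fun k => GG S R (r k) (x k) (t k / 4) (w (e k))) atTop (𝓝 y)) :
    ∃ e' : W, Tendsto e atTop (𝓝 e') := by
  have hRj : Tendsto (fun j => ‖R j y‖) atTop (𝓝 0) := by
    have a1 := ((h6 y).comp (tendsto_add_atTop_nat 1)).sub (h6 y)
    rw [sub_self] at a1
    have a2 := a1.norm
    rw [norm_zero] at a2
    refine a2.congr fun j => ?_
    simp only [Function.comp]
    rw [Finset.sum_range_succ, add_sub_cancel_left, h3]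
  have hRN : ∀ (i k : ℕ), R i (GG S R (r k) (x k) (t k / 4) (w (e k))) =
      lam (r k - i) • R i (x k) + (t k / 4 * bb (i - r k)) • w (e k) := fun i k =>
    R_GG h1 h2 i _ _ _ _
  have hlim : ∀ i : ℕ, Tendsto (fun k => lam (r k - i) • R i (x k) +
      (t k / 4 * bb (i - r k)) • w (e k)) atTop (𝓝 (R i y)) := by
    intro i
    refine (((R i).continuous.tendsto y).comp hy).congr fun k => ?_
    simp only [Function.comp]
    exact hRN i k
  -- bound of the ranks
  obtain ⟨J, hJ⟩ : ∃ J : ℕ, ∀ᶠ k in atTop, r k ≤ J := by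
    have b1 : ∀ᶠ j in atTop, ‖R j y‖ < τ / 16 := hRj.eventually_lt_const (by positivity)
    obtain ⟨J, hJ⟩ := eventually_atTop.1 b1
    refine ⟨J, ?_⟩
    have b2 : ∀ᶠ k in atTop, dist (GG S R (r k) (x k) (t k / 4) (w (e k))) y < τ / 16 :=
      (Metric.tendsto_nhds.1 hy) _ (by positivity)
    filter_upwards [b2] with k hk
    by_contra hlt
    push Not at hlt
    set n := ⌊r k⌋₊ with hn
    have hn1 : (n : ℝ) ≤ r k := Nat.floor_le (hr k)
    have hn2 : r k < n + 1 := Nat.lt_floor_add_one (r k)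
    have hnJ : J ≤ n := Nat.le_floor hlt.le
    have key : ∀ j : ℕ, n + 2 ≤ j → 1 / 2 ≤ bb (j - r k) → False := by
      intro j hj hbj
      have hj' : ((n + 2 : ℕ) : ℝ) ≤ j := by exact_mod_cast hj
      push_cast at hj'
      have c1 := hRN j k
      rw [lam_zero (by linarith), zero_smul, zero_add] at c1
      have c2 : ‖R j (GG S R (r k) (x k) (t k / 4) (w (e k)))‖ = t k / 4 * bb (j - r k) := by
        rw [c1, norm_smul, hw1, mul_one, Real.norm_of_nonneg]
        exact mul_nonneg (by linarith [ht k]) (bb_nonneg _)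
      have c3 : τ / 8 ≤ t k / 4 * bb (j - r k) := by
        have := ht k
        nlinarith
      have c4 := h4 j (GG S R (r k) (x k) (t k / 4) (w (e k)) - y)
      rw [map_sub] at c4
      rw [dist_eq_norm] at hk
      have c5 := hJ j (by omega)
      have c6 := norm_sub_norm_le (R j (GG S R (r k) (x k) (t k / 4) (w (e k)))) (R j y)
      linarith
    rcases le_total (r k - n) (1 / 2) with hf | hf
    · refine key (n + 2) le_rfl ?_
      push_cast
      rw [bb_lo (by linarith) (by linarith)]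
      linarith
    · refine key (n + 3) (by omega) ?_
      push_cast
      rw [bb_hi (by linarith) (by linarith)]
      linarith
  have claim : ∀ φ : ℕ → ℕ, Tendsto φ atTop atTop → ∃ (ψ : ℕ → ℕ) (j₀ : ℕ), R j₀ y ≠ 0 ∧
      (∀ j, j₀ < j → R j y = 0) ∧
      Tendsto (fun k => w (e (φ (ψ k)))) atTop (𝓝 (‖R j₀ y‖⁻¹ • R j₀ y)) := by
    intro φ hφ
    have hc : IsCompact (Icc (0:ℝ) J ×ˢ Icc τ 1) := isCompact_Icc.prod isCompact_Icc
    have hfr : ∃ᶠ k in atTop, ((r (φ k), t (φ k)) : ℝ × ℝ) ∈ Icc (0:ℝ) J ×ˢ Icc τ 1 := by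
      refine Eventually.frequently ?_
      filter_upwards [hφ.eventually hJ] with k hk
      exact ⟨⟨hr _, hk⟩, ⟨ht _, ht1 _⟩⟩
    obtain ⟨⟨ρ, θ⟩, ⟨⟨hρ0, -⟩, ⟨hθ, -⟩⟩, ψ, hψ, hlimψ⟩ := hc.tendsto_subseq' hfr
    simp only at hρ0 hθ
    have hρl : Tendsto (fun k => r (φ (ψ k))) atTop (𝓝 ρ) :=
      (continuous_fst.tendsto _).comp hlimψ
    have hθl : Tendsto (fun k => t (φ (ψ k))) atTop (𝓝 θ) :=
      (continuous_snd.tendsto _).comp hlimψ
    have hφψ : Tendsto (fun k => φ (ψ k)) atTop atTop := hφ.comp hψ.tendsto_atTop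
    have hcoef : ∀ i : ℕ, Tendsto (fun k => t (φ (ψ k)) / 4 * bb (i - r (φ (ψ k)))) atTop
        (𝓝 (θ / 4 * bb (i - ρ))) := fun i =>
      (hθl.div_const 4).mul ((bb_cont.tendsto _).comp (tendsto_const_nhds.sub hρl))
    have hlim2 : ∀ i : ℕ, ρ < i → Tendsto (fun k => (t (φ (ψ k)) / 4 *
        bb (i - r (φ (ψ k)))) • w (e (φ (ψ k)))) atTop (𝓝 (R i y)) := by
      intro i hi
      refine ((hlim i).comp hφψ).congr' ?_
      filter_upwards [hρl.eventually_lt_const hi] with k hk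
      simp only [Function.comp]
      rw [lam_zero (by linarith), zero_smul, zero_add]
    have hnorm : ∀ i : ℕ, ρ < i → ‖R i y‖ = θ / 4 * bb (i - ρ) := by
      intro i hi
      refine tendsto_nhds_unique (hlim2 i hi).norm ?_
      refine (hcoef i).congr fun k => ?_
      rw [norm_smul, hw1, mul_one, Real.norm_of_nonneg]
      exact mul_nonneg (by linarith [ht (φ (ψ k))]) (bb_nonneg _)
    have hcl1 : ρ ≤ ⌈ρ⌉₊ := Nat.le_ceil ρ
    have hcl2 : (⌈ρ⌉₊ : ℝ) < ρ + 1 := Nat.ceil_lt_add_one hρ0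
    have hj0 : ρ < ((⌈ρ⌉₊ + 2 : ℕ) : ℝ) := by
      push_cast
      linarith
    have hcpos : 0 < θ / 4 * bb (((⌈ρ⌉₊ + 2 : ℕ) : ℝ) - ρ) := by
      push_cast
      rw [bb_hi (by linarith) (by linarith)]
      have : 0 < θ := lt_of_lt_of_le hτ hθ
      have : 0 < 3 - ((⌈ρ⌉₊ : ℝ) + 2 - ρ) := by linarith
      positivity
    refine ⟨ψ, ⌈ρ⌉₊ + 2, ?_, ?_, ?_⟩
    · rw [← norm_pos_iff, hnorm _ hj0]
      exact hcpos
    · intro j hj
      have hj' : ((⌈ρ⌉₊ + 3 : ℕ) : ℝ) ≤ j := by exact_mod_cast hj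
      push_cast at hj'
      rw [← norm_eq_zero, hnorm j (by linarith), bb_zero_hi (by linarith), mul_zero]
    · have d1 := ((hcoef (⌈ρ⌉₊ + 2)).inv₀ hcpos.ne').smul (hlim2 _ hj0)
      rw [hnorm _ hj0]
      refine d1.congr' ?_
      filter_upwards [(hcoef (⌈ρ⌉₊ + 2)).eventually_const_lt hcpos] with k hk
      rw [smul_smul, inv_mul_cancel₀ hk.ne', one_smul]
  obtain ⟨-, j₀, hj1, hj2, -⟩ := claim id tendsto_id
  refine hwr e (‖R j₀ y‖⁻¹ • R j₀ y) ?_
  refine tendsto_of_subseq_tendsto fun φ hφ => ?_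
  obtain ⟨ψ, j₁, hk1, hk2, hk3⟩ := claim φ hφ
  have : j₁ = j₀ := by
    rcases lt_trichotomy j₁ j₀ with h | h | h
    · exact absurd (hk2 _ h) hj1
    · exact h
    · exact absurd (hj2 _ h) hk1
  rw [this] at hk3
  exact ⟨ψ, hk3⟩

end ModelL2Aux

open ModelL2Aux

/-- PROOF. Take `w` (`exists_sphere`), `S, R` (`exists_blocks`); write
`x_n = sum_{j<n} S j (R j x)`.

RANK. On `Z = H2 x {t : I // 0 < t}` `exists_below` with
`P (x,t) rho := for all n : N with 1 <= n rho : norm (x - x_n) < t/4` gives a continuous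
`eps : Z -> (0,1]`; (locally: `norm (x' - x'_n) <= norm (x' - x) + norm (x - x_n)` by linearity and
the bound of `exists_blocks`, and `x_n -> x`). Put `r = 1/eps + 1 : Z -> [2, oo)`; so
`n >= r - 1` implies `norm (x - x_n) < t/4`.

OPERATOR. `lam s = max 0 (min 1 s)`, `b s = max 0 (1 - |s - 2|)` (support `(1,3)`, 1-Lipschitz,
`b <= 1`). For `t > 0`, `r = r(x,t)`:
`N (x,t,e) = sum'_j lam (r - j) . S j (R j x) + (t/4) sum'_j b (j - r) . S j (w e)`
(`finsum`; locally finite: `lam (r - j) = 0` for `j >= r`, `b (j - r) = 0` for `j >= r + 3`, and `r` is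
locally bounded; `continuous_finsum`; or `sum over range (ceil r + 4)`), `N (x,0,e) = x`.
DISTANCE: if `n <= r <= n+1` the first sum is `(1-(r-n)) x_n + (r-n) x_(n+1)`, so at distance `< t/4`
of `x`. In the second sum at most two terms are nonzero (`1 < j - r < 3`), their coefficients sum up
to `1`, so its norm is at most `1`. Hence `dist (N (x,t,e)) x <= t/2 <= t`. Continuity at `t = 0` follows
from this, continuity at `t > 0` from the continuity of all terms (`{t > 0}` is open).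

READING. Let `t_k >= tau > 0`, `N_k = N (x_k,t_k,e_k) -> y`, `w_k = w (e_k)`, `r_k`. Applying `R j`:
`(1) R j N_k = (t_k/4) b (j - r_k) w_k` for `j >= r_k`.
`r_k` is bounded: `norm (R j y) -> 0` as `j -> oo` (`R j y = R j (y - y_j)`, since `R j` kills `y_j`), and
`j = ceil (r_k) + 1` has `j - r_k in [1,2)`, `j' = j+1` has `j' - r_k in [2,3)`; one of `b (j - r_k)`,
`b (j' - r_k)` is `>= 1/2` (they sum up to `1`), so `norm (R j N_k) >= tau/8` for some `j >= r_k`, while
`norm (R j N_k) <= norm (N_k - y) + norm (R j y)`.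
CLAIM: for every sequence `phi -> oo` of indices there are a subsequence `psi` and `j0` with
`R j0 y != 0`, `R j y = 0` for all `j > j0`, and `w_(phi (psi k)) -> (norm (R j0 y))^-1 R j0 y`.
Proof: by compactness (`IsCompact.tendsto_subseq` for `Icc 2 J` and `Icc tau 1`) pass to a
subsequence with `r_k -> r`, `t_k -> t >= tau`. Let `j0 = ceil r + 2`, `j0 - r in [2,3)`,
`b (j0 - r) > 0`. For `j > r + 1` eventually `j >= r_k`, so by `(1)` `R j y = lim (t_k/4) b (j - r_k) w_k`;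
for `j > j0`, `j - r >= 3` and the scalars tend to `0`, `norm w_k = 1`, so `R j y = 0`. For `j = j0` the
scalars tend to `c = (t/4) b (j0 - r) > 0`, so `w_k -> c^-1 R j0 y`, and `norm w_k = 1` gives
`norm (R j0 y) = c`.
`j0` is determined by `y` (last nonzero block), so all the subsequential limits agree and
`w_k -> u` (`tendsto_of_subseq_tendsto`); the reading property of `w` gives `e'`. -/
theorem coded_l2 : CodedM H2 univ := by
  obtain ⟨w, hwc, hw1, hwr⟩ := exists_sphere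
  obtain ⟨S, R, h1, h2, h3, h4, h5, h6⟩ := exists_blocks
  obtain ⟨r, hrc, hr2, hr⟩ := exists_rank h5 h6
  let rr : H2 → I → ℝ := fun x t => if h : 0 < t then r (x, ⟨t, h⟩) else 2
  have hrr2 : ∀ x t, 2 ≤ rr x t := by
    intro x t
    simp only [rr]
    split_ifs
    · exact hr2 _
    · exact le_rfl
  let N : H2 × I × W → H2 := fun p =>
    if 0 < p.2.1 then GG S R (rr p.1 p.2.1) p.1 ((p.2.1 : ℝ) / 4) (w p.2.2) else p.1
  have hd : ∀ p : H2 × I × W, dist (N p) p.1 ≤ p.2.1 := by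
    rintro ⟨x, t, e⟩
    simp only [N]
    split_ifs with ht
    · rw [dist_eq_norm]
      have ht' : (0:ℝ) < t := ht
      have hrt : rr x t = r (x, ⟨t, ht⟩) := by simp only [rr, dif_pos ht]
      have := GG_dist h3 (r := rr x t) (s := (t : ℝ) / 4) (δ := (t : ℝ) / 4) (x := x) (v := w e)
        (by linarith [hrr2 x t]) (by positivity) (hw1 e) (fun n hn => by
          rw [hrt] at hn
          exact hr (x, ⟨t, ht⟩) n hn)
      linarith
    · rw [dist_self]
      exact t.2.1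
  refine ⟨N, ?_, fun x t e => hd (x, t, e), fun _ _ _ _ => mem_univ _, ?_⟩
  · rw [continuous_iff_continuousAt]
    rintro ⟨x₀, t₀, e₀⟩
    by_cases ht : 0 < t₀
    · have hopen : IsOpen {p : H2 × I × W | 0 < p.2.1} :=
        isOpen_lt continuous_const (continuous_fst.comp continuous_snd)
      have hemb := hopen.isOpenEmbedding_subtypeVal
      have key : ContinuousAt (N ∘ (Subtype.val : {p : H2 × I × W | 0 < p.2.1} → H2 × I × W))
          ⟨(x₀, t₀, e₀), ht⟩ := by
        have hc : Continuous fun p : {p : H2 × I × W | 0 < p.2.1} =>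
            GG S R (r (p.1.1, ⟨p.1.2.1, p.2⟩)) p.1.1 ((p.1.2.1 : ℝ) / 4) (w p.1.2.2) := by
          have e1 : Continuous fun p : {p : H2 × I × W | 0 < p.2.1} =>
              ((p.1.1, ⟨p.1.2.1, p.2⟩) : H2 × {t : I // 0 < t}) := by
            refine Continuous.prodMk (by fun_prop) ?_
            exact Continuous.subtype_mk (by fun_prop) _
          have e2 : Continuous fun p : {p : H2 × I × W | 0 < p.2.1} =>
              ((r (p.1.1, ⟨p.1.2.1, p.2⟩), p.1.1, (p.1.2.1 : ℝ) / 4, w p.1.2.2) :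
                ℝ × H2 × ℝ × H2) := by
            refine Continuous.prodMk (hrc.comp e1) (Continuous.prodMk (by fun_prop)
              (Continuous.prodMk ?_ ?_))
            · fun_prop
            · exact hwc.comp (by fun_prop)
          exact (GG_cont S R).comp e2
        refine hc.continuousAt.congr (Eventually.of_forall fun p => ?_)
        have hp : 0 < p.1.2.1 := p.2
        simp only [Function.comp, N, if_pos hp, rr, dif_pos hp]
      exact (hemb.continuousAt_iff (x := ⟨(x₀, t₀, e₀), ht⟩)).1 key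
    · have ht0 : (t₀ : ℝ) = 0 := by
        have := t₀.2.1
        have h8 : ¬ (0:ℝ) < t₀ := ht
        linarith
      have hN0 : N (x₀, t₀, e₀) = x₀ := by simp only [N, if_neg ht]
      unfold ContinuousAt
      rw [hN0, tendsto_iff_dist_tendsto_zero]
      have g1 : Tendsto (fun p : H2 × I × W => (p.2.1 : ℝ) + dist p.1 x₀) (𝓝 (x₀, t₀, e₀))
          (𝓝 0) := by
        have : Continuous (fun p : H2 × I × W => (p.2.1 : ℝ) + dist p.1 x₀) := by fun_prop
        have h9 := this.tendsto (x₀, t₀, e₀)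
        simpa [ht0] using h9
      refine squeeze_zero (fun _ => dist_nonneg) (fun p => ?_) g1
      exact (dist_triangle _ p.1 _).trans (add_le_add (hd p) le_rfl)
  · intro x t e τ y hτ ht hy
    have hpos : ∀ k, 0 < t k := fun k => by
      have : (0:ℝ) < t k := lt_of_lt_of_le hτ (ht k)
      exact this
    refine ModelL2Aux.read hw1 hwr h1 h2 h3 h4 h6 x (fun k => (t k : ℝ)) e
      (fun k => rr (x k) (t k)) τ y hτ ht (fun k => (t k).2.2)
      (fun k => by linarith [hrr2 (x k) (t k)]) ?_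
    refine hy.congr fun k => ?_
    simp only [N, if_pos (hpos k)]

end Pool.Agent.Tor
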