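import Pool.Agent.Lib.Tor.Polish

/-! MODULE Tor.ModelW (1 h): the code space embeds into the unit sphere of `l2`. -/

open Set Topology Filter

namespace Pool.Agent.Tor

/-- real `l2` -/
abbrev H2 : Type := lp (fun _ : ℕ => ℝ) 2

namespace ModelWAux

open PolishAux

theorem memH2 {w : ℕ → ℝ} (h : Summable (fun i => (w i) ^ 2)) : Memℓp w 2 := by
  refine memℓp_gen ?_
  simpa using h

theorem normH2 (v : H2) : ‖v‖ ^ 2 = ∑' i, (v i) ^ 2 := by
  have h := lp.norm_rpow_eq_tsum (p := 2) (by simp) v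
  simpa using h

theorem summableH2 (v : H2) : Summable (fun i => (v i) ^ 2) := by
  have := lp.memℓp v
  have h2 := (memℓp_gen_iff (by simp)).1 this
  simpa using h2

theorem summable_mul (f g : ℕ → ℝ) (hf : Summable (fun i => (f i) ^ 2))
    (hg : Summable (fun i => (g i) ^ 2)) : Summable (fun i => |f i * g i|) := by
  refine Summable.of_nonneg_of_le (fun i => abs_nonneg _) (fun i => ?_) (hf.add hg)
  rw [abs_mul]
  nlinarith [sq_nonneg (|f i| - |g i|), sq_abs (f i), sq_abs (g i), abs_nonneg (f i),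
    abs_nonneg (g i), mul_nonneg (abs_nonneg (f i)) (abs_nonneg (g i))]

theorem cs (f g : H2) : ∑' i, |f i * g i| ≤ ‖f‖ * ‖g‖ := by
  have hf := summableH2 f
  have hg := summableH2 g
  have h1 := summable_mul _ _ hf hg
  have hS : 0 ≤ ∑' i, |f i * g i| := tsum_nonneg fun i => abs_nonneg _
  refine h1.tsum_le_of_sum_le fun s => ?_
  have h2 : (∑ i ∈ s, |f i * g i|) ^ 2 ≤ (∑ i ∈ s, (f i) ^ 2) * (∑ i ∈ s, (g i) ^ 2) := by
    have := Finset.sum_mul_sq_le_sq_mul_sq s (fun i => |f i|) (fun i => |g i|)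
    simpa [abs_mul] using this
  have h3 : ∑ i ∈ s, (f i) ^ 2 ≤ ‖f‖ ^ 2 := by
    rw [normH2]
    exact hf.sum_le_tsum s fun i _ => sq_nonneg _
  have h4 : ∑ i ∈ s, (g i) ^ 2 ≤ ‖g‖ ^ 2 := by
    rw [normH2]
    exact hg.sum_le_tsum s fun i _ => sq_nonneg _
  have h5 : (∑ i ∈ s, |f i * g i|) ^ 2 ≤ (‖f‖ * ‖g‖) ^ 2 := by
    rw [mul_pow]
    refine h2.trans (mul_le_mul h3 h4 (Finset.sum_nonneg fun i _ => sq_nonneg _) (sq_nonneg _))
  exact le_of_sq_le_sq h5 (mul_nonneg (norm_nonneg _) (norm_nonneg _))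

variable {X : Type} [MetricSpace X] {ρ : ℕ → ℕ → X → ℝ}

/-- the map into the unit sphere -/
noncomputable def ww (h : PU X ρ) (x : X) : H2 :=
  ⟨fun m => Real.sqrt (8 * vv h x m), memH2 (by
    have h1 := ((vv_hasSum h x).mul_left 8).summable
    refine h1.congr fun m => ?_
    rw [Real.sq_sqrt (by have := vv_nonneg h x m; positivity)])⟩

theorem ww_apply (h : PU X ρ) (x : X) (m : ℕ) : ww h x m = Real.sqrt (8 * vv h x m) := rfl

theorem ww_sq (h : PU X ρ) (x : X) (m : ℕ) : (ww h x m) ^ 2 = 8 * vv h x m := by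
  rw [ww_apply, Real.sq_sqrt (by have := vv_nonneg h x m; positivity)]

theorem ww_nonneg (h : PU X ρ) (x : X) (m : ℕ) : 0 ≤ ww h x m := Real.sqrt_nonneg _

theorem ww_norm (h : PU X ρ) (x : X) : ‖ww h x‖ = 1 := by
  have h1 : ‖ww h x‖ ^ 2 = 1 := by
    rw [normH2]
    simp_rw [ww_sq]
    rw [((vv_hasSum h x).mul_left 8).tsum_eq]
    norm_num
  nlinarith [norm_nonneg (ww h x)]

theorem ww_cont_bound (h : PU X ρ) (x y : X) : ‖ww h y - ww h x‖ ^ 2 ≤ 8 * ‖vv h y - vv h x‖ := by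
  rw [normH2, normL1, ← tsum_mul_left]
  have hs : Summable (fun m => 8 * |(vv h y - vv h x : L1) m|) :=
    (summableL1 (vv h y - vv h x)).mul_left 8
  refine (summableH2 (ww h y - ww h x)).tsum_le_tsum (fun m => ?_) hs
  change (ww h y m - ww h x m) ^ 2 ≤ 8 * |vv h y m - vv h x m|
  have e : 8 * |vv h y m - vv h x m| = |(ww h y m) ^ 2 - (ww h x m) ^ 2| := by
    rw [ww_sq, ww_sq, ← mul_sub, abs_mul]
    norm_num
  rw [e]
  have ha := ww_nonneg h y m
  have hb := ww_nonneg h x m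
  have e2 : (ww h y m) ^ 2 - (ww h x m) ^ 2 = (ww h y m - ww h x m) * (ww h y m + ww h x m) := by
    ring
  rw [e2, abs_mul, abs_of_nonneg (add_nonneg ha hb), ← sq_abs (ww h y m - ww h x m), sq]
  refine mul_le_mul_of_nonneg_left ?_ (abs_nonneg _)
  rw [abs_le]
  constructor <;> linarith

theorem ww_continuous (h : PU X ρ) : Continuous (ww h) := by
  rw [continuous_iff_continuousAt]
  intro x
  rw [ContinuousAt, tendsto_iff_norm_sub_tendsto_zero]
  have h1 : Tendsto (fun y => 8 * ‖vv h y - vv h x‖) (𝓝 x) (𝓝 0) := by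
    have h2 := (vv_continuous h).tendsto x
    rw [tendsto_iff_norm_sub_tendsto_zero] at h2
    simpa using h2.const_mul 8
  have h2 : Tendsto (fun y => ‖ww h y - ww h x‖ ^ 2) (𝓝 x) (𝓝 0) :=
    squeeze_zero (fun y => sq_nonneg _) (fun y => ww_cont_bound h x y) h1
  have h3 := h2.sqrt
  simpa [Real.sqrt_sq (norm_nonneg _)] using h3

theorem vv_bound (h : PU X ρ) (x y : X) : ‖vv h y - vv h x‖ ≤ (1 / 4) * ‖ww h y - ww h x‖ := by
  have h1 : ‖vv h y - vv h x‖ = (1 / 8) * ∑' m, |(ww h y - ww h x : H2) m * (ww h y + ww h x : H2) m| := by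
    rw [normL1, ← tsum_mul_left]
    congr 1
    funext m
    change |vv h y m - vv h x m| = 1 / 8 * |(ww h y m - ww h x m) * (ww h y m + ww h x m)|
    have e2 : (ww h y m - ww h x m) * (ww h y m + ww h x m) = 8 * (vv h y m - vv h x m) := by
      rw [mul_sub, ← ww_sq, ← ww_sq]
      ring
    rw [e2, abs_mul]
    norm_num
    ring
  rw [h1]
  have h2 := cs (ww h y - ww h x) (ww h y + ww h x)
  have h3 : ‖ww h y + ww h x‖ ≤ 2 := by
    refine (norm_add_le _ _).trans ?_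
    rw [ww_norm, ww_norm]
    norm_num
  have h4 : ‖ww h y - ww h x‖ * ‖ww h y + ww h x‖ ≤ ‖ww h y - ww h x‖ * 2 :=
    mul_le_mul_of_nonneg_left h3 (norm_nonneg _)
  linarith

theorem ww_cauchy (h : PU X ρ) {x : ℕ → X} {u : H2}
    (hu : Tendsto (fun k => ww h (x k)) atTop (𝓝 u)) : CauchySeq x := by
  have h1 : CauchySeq (fun k => ww h (x k)) := hu.cauchySeq
  have h2 : CauchySeq (fun k => vv h (x k)) := by
    rw [Metric.cauchySeq_iff] at h1 ⊢
    intro ε hε
    obtain ⟨N, hN⟩ := h1 ε hε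
    refine ⟨N, fun m hm n hn => ?_⟩
    have h3 := hN m hm n hn
    rw [dist_eq_norm] at h3 ⊢
    have h4 := vv_bound h (x n) (x m)
    have h5 := norm_nonneg (ww h (x m) - ww h (x n))
    linarith
  obtain ⟨v, hv⟩ := cauchySeq_tendsto_of_complete h2
  exact vv_cauchy h hv

theorem exists_sphere_gen (X : Type) [TopologicalSpace X] [PolishSpace X] (hne : Nonempty X) :
    ∃ w : X → H2, Continuous w ∧ (∀ e, ‖w e‖ = 1) ∧
      ∀ (e : ℕ → X) (u : H2), Tendsto (fun k => w (e k)) atTop (𝓝 u) →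
        ∃ e', Tendsto e atTop (𝓝 e') := by
  classical
  let := TopologicalSpace.upgradeIsCompletelyMetrizable X
  obtain ⟨ρ, hρ⟩ := PolishAux.exists_PU X hne
  exact ⟨ww hρ, ww_continuous hρ, ww_norm hρ, fun e u hu =>
    cauchySeq_tendsto_of_complete (ww_cauchy hρ hu)⟩

end ModelWAux

/-- A continuous map of `W` to the unit sphere of `l2` which can be read: convergence of the values
forces convergence of the codes.

PROOF. `w e = (sqrt (8 (vv e)_m))_m` with the map `vv` of Polish.lean into `l1`, whose coordinates are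
nonnegative and sum up to `1/8`; `norm (w e - w e')^2 <= 8 norm (vv e - vv e')` and, by
Cauchy-Schwarz, `norm (vv e - vv e') <= (1/4) norm (w e - w e')`, so `vv_cauchy` gives the reading. -/
theorem exists_sphere : ∃ w : W → H2, Continuous w ∧ (∀ e, ‖w e‖ = 1) ∧
    ∀ (e : ℕ → W) (u : H2), Tendsto (fun k => w (e k)) atTop (𝓝 u) →
      ∃ e', Tendsto e atTop (𝓝 e') :=
  ModelWAux.exists_sphere_gen W ⟨fun _ => ⟨0, le_rfl⟩⟩

end Pool.Agent.Tor
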