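import Pool.Agent.Lib.Tor.Unknot
import Pool.Agent.Lib.Tor.Dugundji
import Pool.Agent.Lib.Tor.SZFacts

/-! Tor.Nested: extension of homeomorphisms between strong Z-sets. -/

open Set Topology Filter

namespace Pool.Agent.Tor

namespace NestedAux

/-- a homotopy between two maps into an absolute extensor -/
theorem exists_homotopy {A M : Type} [TopologicalSpace A] [TopologicalSpace.MetrizableSpace A]
    [TopologicalSpace M] (hM : AE M) (f g : A → M) (hf : Continuous f) (hg : Continuous g) :
    ∃ G : A × I → M, Continuous G ∧ (∀ a, G (a, 0) = f a) ∧ ∀ a, G (a, 1) = g a := by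
  let S : Set (A × I) := {q | q.2 = 0 ∨ q.2 = 1}
  have hS : IsClosed S :=
    (isClosed_eq continuous_snd continuous_const).union (isClosed_eq continuous_snd continuous_const)
  classical
  let F : S → M := fun q => if q.1.2 = 0 then f q.1.1 else g q.1.1
  have hF : Continuous F := by
    have hlc : IsLocallyConstant (fun q : S => (decide (q.1.2 = 0) : Bool)) := by
      rw [IsLocallyConstant.iff_eventually_eq]
      intro q
      have hne : (0 : I) ≠ 1 := zero_ne_one
      rcases q.2 with h | h
      · have : ∀ᶠ q' : S in 𝓝 q, q'.1.2 ≠ 1 := by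
          have hc : Continuous fun q' : S => q'.1.2 := continuous_snd.comp continuous_subtype_val
          exact hc.continuousAt.eventually_ne (by rw [h]; exact hne)
        filter_upwards [this] with q' hq'
        have h' : q'.1.2 = 0 := q'.2.resolve_right hq'
        simp [h, h']
      · have : ∀ᶠ q' : S in 𝓝 q, q'.1.2 ≠ 0 := by
          have hc : Continuous fun q' : S => q'.1.2 := continuous_snd.comp continuous_subtype_val
          exact hc.continuousAt.eventually_ne (by rw [h]; exact hne.symm)
        filter_upwards [this] with q' hq'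
        simp [h, hq']
    rw [continuous_iff_continuousAt]
    intro q
    have h1 := (IsLocallyConstant.iff_eventually_eq _).1 hlc q
    have hfst : Continuous fun q' : S => q'.1.1 := continuous_fst.comp continuous_subtype_val
    by_cases h0 : q.1.2 = 0
    · have : F =ᶠ[𝓝 q] fun q' => f q'.1.1 := by
        filter_upwards [h1] with q' hq'
        have : q'.1.2 = 0 := by simpa [h0] using hq'
        simp only [F, this, if_true]
      exact ((hf.comp hfst).continuousAt).congr this.symm
    · have : F =ᶠ[𝓝 q] fun q' => g q'.1.1 := by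
        filter_upwards [h1] with q' hq'
        have : ¬ q'.1.2 = 0 := by simpa [h0] using hq'
        simp only [F, this, if_false]
      exact ((hg.comp hfst).continuousAt).congr this.symm
  obtain ⟨G, hG, hGF⟩ := hM.extend hS F hF
  refine ⟨G, hG, fun a => ?_, fun a => ?_⟩
  · have := hGF ⟨(a, 0), Or.inl rfl⟩
    simpa [F] using this
  · have := hGF ⟨(a, 1), Or.inr rfl⟩
    simpa [F] using this

/-- the case of one space -/
theorem one {Y : Type} [TopologicalSpace Y] (hY : Y ≃ₜ E) {A A' : Set Y} (hA : SZ A) (hA' : SZ A')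
    (h : A ≃ₜ A') : ∃ g : Y ≃ₜ Y, ∀ a : A, g a = h a := by
  have : TopologicalSpace.MetrizableSpace Y := hY.isEmbedding.metrizableSpace
  obtain ⟨V, hV, hun⟩ := unknot hY (fun _ : Y => ()) continuous_const (fun _ => univ)
    (fun _ => ⟨isOpen_univ, mem_univ _⟩)
  obtain ⟨G, hG, h0, h1⟩ := exists_homotopy (ae_E.homeo hY) (fun a : A => (a : Y))
    (fun a : A => (h a : Y)) continuous_subtype_val (continuous_subtype_val.comp h.continuous)
  have hr : range (fun a : A => G (a, 1)) = A' := by
    simp only [h1]
    rw [range_comp' (fun a : A' => (a : Y)) h, h.surjective.range_eq, image_univ,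
      Subtype.range_coe]
  obtain ⟨g, hg, -⟩ := hun A hA G hG h0
    (by
      simp only [h1]
      exact hA'.1.isClosedEmbedding_subtypeVal.comp h.isClosedEmbedding)
    (by rw [hr]; exact hA')
    (fun a => ⟨(), fun t => (hV ()).2⟩)
  exact ⟨g, fun a => by rw [hg a, h1 a]⟩

end NestedAux

open NestedAux

theorem nested {Y Y' : Type} [TopologicalSpace Y] [TopologicalSpace Y'] (hY : Y ≃ₜ E)
    (hY' : Y' ≃ₜ E) {A : Set Y} {A' : Set Y'} (hA : SZ A) (hA' : SZ A') (h : A ≃ₜ A') :
    ∃ g : Y ≃ₜ Y', ∀ a : A, g a = h a := by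
  let k : Y ≃ₜ Y' := hY.trans hY'.symm
  obtain ⟨g, hg⟩ := one hY' (hA.image k) hA' ((k.image A).symm.trans h)
  refine ⟨k.trans g, fun a => ?_⟩
  have := hg ⟨k a, mem_image_of_mem k a.2⟩
  have h2 : (k.image A).symm ⟨k a, mem_image_of_mem k a.2⟩ = a := by
    rw [Homeomorph.symm_apply_eq]
    rfl
  simpa [h2] using this

end Pool.Agent.Tor
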