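import Pool.Agent.Lib.Tor.Tele
import Pool.Agent.Lib.Tor.Polish
import Pool.Agent.Lib.Tor.Dugundji

/-! MODULE Tor.Resol (2.5 h): every Polish absolute extensor is an exact fibre deformation retract
image of `E`. -/

open Set Topology Filter

namespace Pool.Agent.Tor

namespace ResolAux

/-- the orbit of a telescope point -/
noncomputable def ys (rho : F → F) (z : F) (w : ℕ → F) : ℕ → F
  | 0 => z
  | i + 1 => w i + rho (ys rho z w i)

/-- the correction weight -/
noncomputable def cc (i : ℕ) (be : ℝ) : ℝ := max 0 (min 1 (i - be + 1))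

/-- the orbit of the corrected point -/
noncomputable def Yq (rho : F → F) (be s : ℝ) (z v : F) (w : ℕ → F) : ℕ → F
  | 0 => z
  | i + 1 => ((1 - s) • w i + cc i be • (v - rho (Yq rho be s z v w i))) +
      rho (Yq rho be s z v w i)

/-- the corrected sequence -/
noncomputable def Wq (rho : F → F) (be s : ℝ) (z v : F) (w : ℕ → F) (i : ℕ) : F :=
  (1 - s) • w i + cc i be • (v - rho (Yq rho be s z v w i))

lemma ys_Wq (rho : F → F) (be s : ℝ) (z v : F) (w : ℕ → F) (i : ℕ) :
    ys rho z (Wq rho be s z v w) i = Yq rho be s z v w i := by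
  induction i with
  | zero => rfl
  | succ i ih => rw [ys, ih]; rfl

lemma cc_nonneg (i : ℕ) (be : ℝ) : 0 ≤ cc i be := le_max_left _ _

lemma cc_le_one (i : ℕ) (be : ℝ) : cc i be ≤ 1 := max_le zero_le_one (min_le_left _ _)

lemma cc_zero {i : ℕ} {be : ℝ} (h : (i : ℝ) ≤ be - 1) : cc i be = 0 := by
  unfold cc
  rw [max_eq_left]
  exact (min_le_right _ _).trans (by linarith)

lemma cc_one {i : ℕ} {be : ℝ} (h : be ≤ i) : cc i be = 1 := by
  unfold cc
  rw [min_eq_left (by linarith), max_eq_right zero_le_one]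

lemma cc_cont (i : ℕ) : Continuous (cc i) :=
  continuous_const.max (continuous_const.min ((continuous_const.sub continuous_id).add
    continuous_const))

lemma ys_cont {Z : Type} [TopologicalSpace Z] {rho : F → F} (hrho : Continuous rho)
    {z : Z → F} {w : Z → ℕ → F} (hz : Continuous z) (hw : Continuous w) (i : ℕ) :
    Continuous (fun p => ys rho (z p) (w p) i) := by
  induction i with
  | zero => exact hz
  | succ i ih => exact ((continuous_apply i).comp hw).add (hrho.comp ih)

lemma Wq_cont {Z : Type} [TopologicalSpace Z] {rho : F → F} (hrho : Continuous rho)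
    {be s : Z → ℝ} {z v : Z → F} {w : Z → ℕ → F} (hbe : Continuous be) (hs : Continuous s)
    (hz : Continuous z) (hv : Continuous v) (hw : Continuous w) :
    Continuous (fun p => Wq rho (be p) (s p) (z p) (v p) (w p)) := by
  have hY : ∀ i, Continuous (fun p => Yq rho (be p) (s p) (z p) (v p) (w p) i) := by
    intro i
    induction i with
    | zero => exact hz
    | succ i ih =>
      exact (((continuous_const.sub hs).smul ((continuous_apply i).comp hw)).add
        (((cc_cont i).comp hbe).smul (hv.sub (hrho.comp ih)))).add (hrho.comp ih)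
  apply continuous_pi
  intro i
  exact ((continuous_const.sub hs).smul ((continuous_apply i).comp hw)).add
        (((cc_cont i).comp hbe).smul (hv.sub (hrho.comp (hY i))))

section

variable {rho : F → F} {be s : ℝ} {z v : F} {w : ℕ → F} (hrho : ∀ y, ‖rho y‖ ≤ 1 / 4)
    (hv : ‖v‖ ≤ 1 / 4) (hrv : rho v = v) (hbe : 1 ≤ be)
    (h1 : ∀ i : ℕ, be - 1 < i → (1 - s) • w i = 0)
    (h2 : ∀ i : ℕ, (1 - s) • w i = 0 ∨ ‖(1 - s) • w i‖ < be + 2 - i)

include hbe h1 in
lemma Yq_eq {n : ℕ} (hn : be + 1 ≤ n) : Yq rho be s z v w n = v := by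
  obtain ⟨m, rfl⟩ : ∃ m, n = m + 1 := by
    cases n with
    | zero => exfalso; norm_num at hn; linarith
    | succ m => exact ⟨m, rfl⟩
  push_cast at hn
  have hm : be ≤ m := by linarith
  rw [Yq, h1 m (by linarith), cc_one hm]
  simp

include hrho hv hrv hbe h1 h2 in
lemma Wq_adm (i : ℕ) : Wq rho be s z v w i = 0 ∨ ‖Wq rho be s z v w i‖ < be + 2 - i := by
  unfold Wq
  by_cases hi : (i : ℝ) ≤ be - 1
  · rw [cc_zero hi]
    simpa using h2 i
  · push Not at hi
    rw [h1 i hi, zero_add]
    by_cases hi2 : be + 1 ≤ i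
    · left
      rw [Yq_eq hbe h1 hi2, hrv, sub_self, smul_zero]
    · right
      push Not at hi2
      have h3 : ‖v - rho (Yq rho be s z v w i)‖ ≤ 1 / 2 := by
        have := norm_sub_le v (rho (Yq rho be s z v w i))
        have := hrho (Yq rho be s z v w i)
        linarith
      rw [norm_smul, Real.norm_eq_abs, abs_of_nonneg (cc_nonneg _ _)]
      have h4 : cc i be * ‖v - rho (Yq rho be s z v w i)‖ ≤ 1 * (1 / 2) :=
        mul_le_mul (cc_le_one _ _) h3 (norm_nonneg _) zero_le_one
      linarith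

end

/-- stage parameters -/
noncomputable def st (k : ℝ) (t : ℝ) : ℝ := max 0 (min 1 (4 * t - k))

lemma st_cont (k : ℝ) : Continuous (st k) :=
  continuous_const.max (continuous_const.min ((continuous_const.mul continuous_id).sub
    continuous_const))

lemma st_nonneg (k t : ℝ) : 0 ≤ st k t := le_max_left _ _

lemma st_le_one (k t : ℝ) : st k t ≤ 1 := max_le zero_le_one (min_le_left _ _)

lemma st_zero {k t : ℝ} (h : 4 * t ≤ k) : st k t = 0 := by
  unfold st
  rw [max_eq_left]
  exact (min_le_right _ _).trans (by linarith)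

lemma st_one {k t : ℝ} (h : k + 1 ≤ 4 * t) : st k t = 1 := by
  unfold st
  rw [min_eq_left (by linarith), max_eq_right zero_le_one]

end ResolAux

open ResolAux

/-- PROOF. Let `j : X -> F` be a closed embedding with `|j x| <= 1/4` and `r : F -> X` continuous with
`r (j x) = x` (`AE`), `rho = j o r : F -> F`, `|rho y| <= 1/4`, `rho (j x) = j x`. For `(al,z,w)` in `TN`
put `y_0 = z`, `y_(i+1) = w_i + rho (y_i)`. For `i >= al` one has `w_i = 0` (`|w_i| < al - i <= 0` is
impossible), so `r (y_(i+1)) = r (y_i)` for `i >= max al 0`; `q (al,z,w) := r (y_n)` for any integer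
`n >= max al 0` (well defined, locally one formula, hence continuous).
DEFORMATION of `(al,z,w)`, `x = q (al,z,w)`, through points of `TN` with the same value `x` of `q`. Let
`be = max al 0 + 1`, `c_i(be) = max 0 (min 1 (i - be + 1))` (zero for `i <= be - 1`, one for `i >= be`).
Stage 1: raise `al` linearly to `be + 2`, `z, w` fixed (allowed, `|w_j| < al - j` is preserved).
Stage 2, parameter `s in [0,1]`, level `be + 2`, recursively `y_0 = z`,
`w_i(s) = (1 - s) w_i + c_i(be) (j x - rho (y_i(s)))`, `y_(i+1)(s) = w_i(s) + rho (y_i(s))`.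
At `s = 0` this is the old point: if `c_i(be) > 0` then `i > be - 1 >= max al 0`, so `r (y_i) = x` and the
correction vanishes. Admissible: if `c_i(be) > 0` then the old `w_i` is `0`; the first integer
`i_0 >= be` has `c = 1`, `w = j x - rho (y)`, so `y_(i_0+1) = j x` and all later corrections vanish; for
`i < be + 1` one has `|c_i (j x - rho y_i)| <= 1/2 < (be + 2) - i`; for the `i` with `c_i = 0`,
`|(1-s) w_i| < be + 2 - i` or `= 0`. The value of `q` is `r (j x) = x` throughout.
Stage 3: at `s = 1` the point depends on `(be, z, x)` only: `P(be,z,x)`, level `be + 2`,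
`w_i = c_i(be) (j x - rho (y_i))`. Move `z` linearly to `0`. Stage 4: move `be` linearly to `1`. End:
`s x = P(1, 0, x)`. Everything is continuous coordinatewise. Concatenate the four stages
(`Path`-free: a piecewise formula in `t` on `[0,1/4], ...`). -/
theorem tele_resol {X : Type} [TopologicalSpace X] [PolishSpace X] (hX : AE X)
    (hne : Nonempty X) :
    ∃ (q : TN → X) (s : X → TN) (D : TN × I → TN), Continuous q ∧ Continuous s ∧ Continuous D ∧
      (∀ x, q (s x) = x) ∧ (∀ n, D (n, 0) = n) ∧ (∀ n, D (n, 1) = s (q n)) ∧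
      ∀ n t, q (D (n, t)) = q n := by
  classical
  obtain ⟨j, hj, hjn⟩ := exists_emb_F X
  obtain ⟨r, hr, hrj⟩ := hX.extend_emb hj id continuous_id
  simp only [id] at hrj
  set rho : F → F := fun y => j (r y) with hrho_def
  have hrho : Continuous rho := hj.continuous.comp hr
  have hrhon : ∀ y, ‖rho y‖ ≤ 1 / 4 := fun y => hjn _
  have hrhoj : ∀ x, rho (j x) = j x := fun x => by simp only [hrho_def, hrj]
  -- continuity of the coordinates
  have c1 : Continuous (fun p : TN => p.1.1) := continuous_fst.comp continuous_subtype_val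
  have c2 : Continuous (fun p : TN => p.1.2.1) :=
    continuous_fst.comp (continuous_snd.comp continuous_subtype_val)
  have c3 : Continuous (fun p : TN => p.1.2.2) :=
    continuous_snd.comp (continuous_snd.comp continuous_subtype_val)
  -- the map `q`
  set q : TN → X := fun p => r (ys rho p.1.2.1 p.1.2.2 ⌈p.1.1⌉₊) with hq_def
  have w_zero : ∀ (p : TN) (m : ℕ), p.1.1 ≤ m → p.1.2.2 m = 0 := by
    intro p m hm
    rcases p.2 m with h | h
    · exact h
    · have := norm_nonneg (p.1.2.2 m)
      linarith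
  have q_eq : ∀ (p : TN) (n : ℕ), p.1.1 ≤ n → r (ys rho p.1.2.1 p.1.2.2 n) = q p := by
    intro p n hn
    have h1 : ⌈p.1.1⌉₊ ≤ n := Nat.ceil_le.2 hn
    induction n, h1 using Nat.le_induction with
    | base => rfl
    | succ m hm ih =>
      have h2 : p.1.1 ≤ m := Nat.ceil_le.1 hm
      rw [← ih h2, ys, w_zero p m h2, zero_add]
      exact hrj _
  have hq : Continuous q := by
    rw [continuous_iff_continuousAt]
    intro p
    have h1 : ContinuousAt (fun p' : TN => r (ys rho p'.1.2.1 p'.1.2.2 (⌈p.1.1⌉₊ + 1))) p :=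
      (hr.comp (ys_cont hrho c2 c3 _)).continuousAt
    apply h1.congr
    have h2 : ∀ᶠ p' : TN in 𝓝 p, p'.1.1 < (⌈p.1.1⌉₊ + 1 : ℕ) := by
      apply (isOpen_lt c1 continuous_const).mem_nhds
      show p.1.1 < (⌈p.1.1⌉₊ + 1 : ℕ)
      push_cast
      linarith [Nat.le_ceil p.1.1]
    filter_upwards [h2] with p' hp'
    exact q_eq p' _ hp'.le
  -- the parameters
  set be : TN × I → ℝ := fun p => (max p.1.1.1 0 + 1) + st 3 p.2 * (1 - (max p.1.1.1 0 + 1))
    with hbe_def
  set L : TN × I → ℝ := fun p => p.1.1.1 + st 0 p.2 * (be p + 2 - p.1.1.1) with hL_def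
  set Z : TN × I → F := fun p => (1 - st 2 p.2) • p.1.1.2.1 with hZ_def
  set V : TN × I → F := fun p => j (q p.1) with hV_def
  set Ww : TN × I → ℕ → F := fun p => Wq rho (be p) (st 1 p.2) (Z p) (V p) p.1.1.2.2 with hWw_def
  have ct : ∀ k, Continuous (fun p : TN × I => st k p.2) := fun k =>
    (st_cont k).comp (continuous_subtype_val.comp continuous_snd)
  have c1' : Continuous (fun p : TN × I => p.1.1.1) := c1.comp continuous_fst
  have hbe_c : Continuous be := by
    have h0 : Continuous (fun p : TN × I => max p.1.1.1 0 + 1) :=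
      (c1'.max continuous_const).add continuous_const
    exact h0.add ((ct 3).mul (continuous_const.sub h0))
  have hL_c : Continuous L := c1'.add ((ct 0).mul ((hbe_c.add continuous_const).sub c1'))
  have hZ_c : Continuous Z := (continuous_const.sub (ct 2)).smul (c2.comp continuous_fst)
  have hV_c : Continuous V := hj.continuous.comp (hq.comp continuous_fst)
  have hW_c : Continuous Ww := Wq_cont hrho hbe_c (ct 1) hZ_c hV_c (c3.comp continuous_fst)
  have hbe1 : ∀ p, 1 ≤ be p := by
    intro p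
    have h1 := st_nonneg 3 p.2
    have h2 := st_le_one 3 p.2
    have h3 := le_max_right p.1.1.1 0
    have h4 : be p = 1 + (1 - st 3 p.2) * max p.1.1.1 0 := by simp only [hbe_def]; ring
    rw [h4]
    have := mul_nonneg (sub_nonneg.2 h2) h3
    linarith
  -- first stage
  have W_first : ∀ p : TN × I, (p.2 : ℝ) ≤ 1 / 4 → Ww p = p.1.1.2.2 ∧ Z p = p.1.1.2.1 ∧
      be p = max p.1.1.1 0 + 1 := by
    intro p hp
    have s1 : st 1 p.2 = 0 := st_zero (by linarith)
    have s2 : st 2 p.2 = 0 := st_zero (by linarith)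
    have s3 : st 3 p.2 = 0 := st_zero (by linarith)
    have hb : be p = max p.1.1.1 0 + 1 := by simp only [hbe_def, s3]; ring
    have hZ : Z p = p.1.1.2.1 := by simp only [hZ_def, s2]; simp
    have key : ∀ i, cc i (be p) • (V p - rho (ys rho p.1.1.2.1 p.1.1.2.2 i)) = 0 := by
      intro i
      by_cases hi : (i : ℝ) ≤ be p - 1
      · rw [cc_zero hi, zero_smul]
      · push Not at hi
        rw [hb] at hi
        have h3 := le_max_left p.1.1.1 0
        have h4 := q_eq p.1 i (by linarith)
        have h5 : rho (ys rho p.1.1.2.1 p.1.1.2.2 i) = V p := by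
          simp only [hrho_def, hV_def] at h4 ⊢
          rw [h4]
        rw [h5, sub_self, smul_zero]
    have hY : ∀ i, Yq rho (be p) (st 1 p.2) (Z p) (V p) p.1.1.2.2 i =
        ys rho p.1.1.2.1 p.1.1.2.2 i := by
      intro i
      induction i with
      | zero => exact hZ
      | succ i ih =>
        rw [Yq, ih, key i, s1, ys]
        simp
    refine ⟨?_, hZ, hb⟩
    funext i
    show (1 - st 1 p.2) • p.1.1.2.2 i + cc i (be p) • (V p - rho (Yq rho (be p) (st 1 p.2) (Z p)
      (V p) p.1.1.2.2 i)) = p.1.1.2.2 i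
    rw [hY, key i, s1]
    simp
  -- later stages
  have later : ∀ p : TN × I, 1 / 4 ≤ (p.2 : ℝ) → L p = be p + 2 ∧
      (∀ i : ℕ, be p - 1 < i → (1 - st 1 p.2) • p.1.1.2.2 i = 0) ∧
      (∀ i : ℕ, (1 - st 1 p.2) • p.1.1.2.2 i = 0 ∨
        ‖(1 - st 1 p.2) • p.1.1.2.2 i‖ < be p + 2 - i) := by
    intro p hp
    have s0 : st 0 p.2 = 1 := st_one (by linarith)
    refine ⟨by simp only [hL_def, s0]; ring, ?_, ?_⟩
    · intro i hi
      by_cases hp2 : 1 / 2 ≤ (p.2 : ℝ)
      · rw [st_one (show (1 : ℝ) + 1 ≤ 4 * (p.2 : ℝ) by linarith), sub_self, zero_smul]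
      · push Not at hp2
        have s3 : st 3 p.2 = 0 := st_zero (by linarith)
        have hb : be p = max p.1.1.1 0 + 1 := by simp only [hbe_def, s3]; ring
        rw [hb] at hi
        have h3 := le_max_left p.1.1.1 0
        rw [w_zero p.1 i (by linarith), smul_zero]
    · intro i
      by_cases hp2 : 1 / 2 ≤ (p.2 : ℝ)
      · left
        rw [st_one (show (1 : ℝ) + 1 ≤ 4 * (p.2 : ℝ) by linarith), sub_self, zero_smul]
      · push Not at hp2
        have s3 : st 3 p.2 = 0 := st_zero (by linarith)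
        have hb : be p = max p.1.1.1 0 + 1 := by simp only [hbe_def, s3]; ring
        rcases p.1.2 i with h | h
        · left
          rw [h, smul_zero]
        · right
          have h3 := le_max_left p.1.1.1 0
          have h4 := st_nonneg 1 p.2
          have h5 := st_le_one 1 p.2
          rw [norm_smul, Real.norm_eq_abs, abs_of_nonneg (by linarith)]
          have h6 : (1 - st 1 p.2) * ‖p.1.1.2.2 i‖ ≤ 1 * ‖p.1.1.2.2 i‖ :=
            mul_le_mul_of_nonneg_right (by linarith) (norm_nonneg _)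
          rw [hb]
          linarith
  have adm : ∀ p : TN × I, ∀ i : ℕ, Ww p i = 0 ∨ ‖Ww p i‖ < L p - i := by
    intro p i
    by_cases hp : (p.2 : ℝ) ≤ 1 / 4
    · obtain ⟨h1, h2, h3⟩ := W_first p hp
      rw [h1]
      rcases p.1.2 i with h | h
      · exact Or.inl h
      · right
        have h4 := le_max_left p.1.1.1 0
        have h5 : 0 ≤ st 0 p.2 * (be p + 2 - p.1.1.1) :=
          mul_nonneg (st_nonneg _ _) (by rw [h3]; linarith)
        have h6 : L p = p.1.1.1 + st 0 p.2 * (be p + 2 - p.1.1.1) := rfl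
        rw [h6]
        linarith
    · push Not at hp
      obtain ⟨h1, h2, h3⟩ := later p hp.le
      rw [h1]
      exact Wq_adm hrhon (hjn _) (hrhoj _) (hbe1 p) h2 h3 i
  set D : TN × I → TN := fun p => ⟨(L p, Z p, Ww p), adm p⟩ with hD_def
  have hD : Continuous D := (hL_c.prodMk (hZ_c.prodMk hW_c)).subtype_mk _
  have s_adm : ∀ x : X, ∀ i : ℕ, Wq rho 1 1 0 (j x) 0 i = 0 ∨
      ‖Wq rho 1 1 0 (j x) 0 i‖ < (1 + 2 : ℝ) - i := by
    intro x i
    apply Wq_adm hrhon (hjn _) (hrhoj _) le_rfl
    · intro i _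
      simp
    · intro i
      simp
  set s : X → TN := fun x => ⟨(1 + 2, 0, Wq rho 1 1 0 (j x) 0), s_adm x⟩ with hs_def
  have hs : Continuous s := by
    apply Continuous.subtype_mk
    exact continuous_const.prodMk (continuous_const.prodMk (Wq_cont hrho continuous_const
      continuous_const continuous_const hj.continuous continuous_const))
  refine ⟨q, s, D, hq, hs, hD, ?_, ?_, ?_, ?_⟩
  · intro x
    rw [← q_eq (s x) 3 (by show (1 + 2 : ℝ) ≤ (3 : ℕ); norm_num)]
    show r (ys rho 0 (Wq rho 1 1 0 (j x) 0) 3) = x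
    rw [ys_Wq, Yq_eq le_rfl (fun i _ => by simp) (by norm_num), hrj]
  · intro n
    have h0 : (((n, 0) : TN × I).2 : ℝ) = 0 := rfl
    obtain ⟨h1, h2, h3⟩ := W_first (n, 0) (by rw [h0]; norm_num)
    apply Subtype.ext
    show (L (n, 0), Z (n, 0), Ww (n, 0)) = n.1
    have h4 : L (n, 0) = n.1.1 := by
      show n.1.1 + st 0 ((0 : I) : ℝ) * (be (n, 0) + 2 - n.1.1) = n.1.1
      rw [st_zero (show 4 * ((0 : I) : ℝ) ≤ 0 by simp)]
      ring
    rw [h1, h2, h4]
  · intro n
    apply Subtype.ext
    show (L (n, 1), Z (n, 1), Ww (n, 1)) = ((1 + 2 : ℝ), (0 : F), Wq rho 1 1 0 (j (q n)) 0)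
    have h1 : ((1 : I) : ℝ) = 1 := rfl
    have e0 : st 0 ((1 : I) : ℝ) = 1 := st_one (by rw [h1]; norm_num)
    have e1 : st 1 ((1 : I) : ℝ) = 1 := st_one (by rw [h1]; norm_num)
    have e2 : st 2 ((1 : I) : ℝ) = 1 := st_one (by rw [h1]; norm_num)
    have e3 : st 3 ((1 : I) : ℝ) = 1 := st_one (by rw [h1]; norm_num)
    have hb : be (n, 1) = 1 := by
      show (max n.1.1 0 + 1) + st 3 ((1 : I) : ℝ) * (1 - (max n.1.1 0 + 1)) = 1
      rw [e3]; ring
    have hL : L (n, 1) = 1 + 2 := by
      show n.1.1 + st 0 ((1 : I) : ℝ) * (be (n, 1) + 2 - n.1.1) = 1 + 2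
      rw [e0, hb]; ring
    have hZ : Z (n, 1) = 0 := by
      show (1 - st 2 ((1 : I) : ℝ)) • n.1.2.1 = 0
      rw [e2, sub_self, zero_smul]
    have hY : ∀ i, Yq rho 1 1 0 (j (q n)) n.1.2.2 i = Yq rho 1 1 0 (j (q n)) 0 i := by
      intro i
      induction i with
      | zero => rfl
      | succ i ih => rw [Yq, Yq, ih]; simp
    have hW : Ww (n, 1) = Wq rho 1 1 0 (j (q n)) 0 := by
      show Wq rho (be (n, 1)) (st 1 ((1 : I) : ℝ)) (Z (n, 1)) (j (q n)) n.1.2.2 = _
      rw [hb, e1, hZ]
      funext i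
      simp only [Wq, hY]
      simp
    rw [hL, hZ, hW]
  · intro n t
    by_cases ht : (t : ℝ) ≤ 1 / 4
    · obtain ⟨h1, h2, h3⟩ := W_first (n, t) ht
      obtain ⟨N, hN⟩ := exists_nat_ge (max (L (n, t)) n.1.1)
      rw [← q_eq (D (n, t)) N ((le_max_left _ _).trans hN), ← q_eq n N ((le_max_right _ _).trans hN)]
      show r (ys rho (Z (n, t)) (Ww (n, t)) N) = r (ys rho n.1.2.1 n.1.2.2 N)
      rw [h1, h2]
    · push Not at ht
      obtain ⟨h1, h2, h3⟩ := later (n, t) ht.le
      obtain ⟨N, hN⟩ := exists_nat_ge (L (n, t))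
      rw [← q_eq (D (n, t)) N hN]
      show r (ys rho (Z (n, t)) (Ww (n, t)) N) = q n
      have h4 : be (n, t) + 1 ≤ N := by rw [h1] at hN; linarith
      have h5 := Yq_eq (rho := rho) (z := Z (n, t)) (v := V (n, t)) (hbe1 (n, t)) h2 h4
      show r (ys rho (Z (n, t)) (Wq rho (be (n, t)) (st 1 t) (Z (n, t)) (V (n, t)) n.1.2.2) N) = q n
      rw [ys_Wq, h5]
      exact hrj _

/-- PROOF: `tele_resol` and `tele_homeo`, with `q (n,v) = q n`, `D ((n,v),t) = (D (n,t), (1-t) v)`,
`s x = (s x, 0)`. -/
theorem resolution {X : Type} [TopologicalSpace X] [PolishSpace X] (hX : AE X)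
    (hne : Nonempty X) :
    ∃ (q : E → X) (s : X → E) (D : E × I → E), IsResol q s D := by
  obtain ⟨q, s, D, hq, hs, hD, qs, D0, D1, qD⟩ := tele_resol hX hne
  obtain ⟨e⟩ := tele_homeo
  refine ⟨fun n => q (e.symm n).1, fun x => e (s x, 0),
    fun p => e (D ((e.symm p.1).1, p.2), (1 - (p.2 : ℝ)) • (e.symm p.1).2), ?_⟩
  constructor
  · exact hq.comp (continuous_fst.comp e.symm.continuous)
  · exact e.continuous.comp (hs.prodMk continuous_const)
  · apply e.continuous.comp
    have h1 : Continuous (fun p : E × I => e.symm p.1) := e.symm.continuous.comp continuous_fst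
    apply Continuous.prodMk
    · exact hD.comp ((continuous_fst.comp h1).prodMk continuous_snd)
    · exact (continuous_const.sub (continuous_subtype_val.comp continuous_snd)).smul
        (continuous_snd.comp h1)
  · intro x
    simp [qs]
  · intro n
    simp [D0]
  · intro n
    simp [D1]
  · intro n t
    simp [qD]

end Pool.Agent.Tor
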