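import Pool.Agent.Lib.Tor.Insert
import Pool.Agent.Lib.Tor.Covers
import Pool.Agent.Lib.Tor.Reindex

/-! MODULE Tor.Stab (1.3 h): fine stability `E = E x F`, also over a base. -/

open Set Topology Filter

namespace Pool.Agent.Tor

namespace StabAux

section

variable {Y : Type} [PseudoMetricSpace Y] (U : Y × E → Set (Y × E))

/-- admissible radii -/
def Aset (n : ℕ) (p : Y × E) : Set ℝ :=
  {r | 0 ≤ r ∧ r ≤ 1 ∧ (0 < r → ∃ z, ∀ q : Y × E, dist p.1 q.1 < r →
    (∀ i < n, dist (p.2 i) (q.2 i) < r) → q ∈ U z)}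

/-- the gauge -/
noncomputable def gg (n : ℕ) (p : Y × E) : ℝ := sSup (Aset U n p)

theorem zero_mem (n : ℕ) (p : Y × E) : (0 : ℝ) ∈ Aset U n p :=
  ⟨le_rfl, zero_le_one, fun h => absurd h (lt_irrefl 0)⟩

theorem bdd (n : ℕ) (p : Y × E) : BddAbove (Aset U n p) := ⟨1, fun _ hr => hr.2.1⟩

theorem gg_nonneg (n : ℕ) (p : Y × E) : 0 ≤ gg U n p := le_csSup (bdd U n p) (zero_mem U n p)

theorem gg_mono (n : ℕ) (p : Y × E) : gg U n p ≤ gg U (n + 1) p := by
  apply csSup_le_csSup (bdd U (n + 1) p) ⟨0, zero_mem U n p⟩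
  rintro r ⟨h1, h2, h3⟩
  refine ⟨h1, h2, fun h => ?_⟩
  obtain ⟨z, hz⟩ := h3 h
  exact ⟨z, fun q hq hq' => hz q hq fun i hi => hq' i (by omega)⟩

theorem gg_adapted (n : ℕ) (y : Y) (v v' : E) (h : ∀ i < n, v i = v' i) :
    gg U n (y, v) = gg U n (y, v') := by
  unfold gg
  congr 1
  ext r
  unfold Aset
  simp only [Set.mem_ofPred_eq]
  refine and_congr Iff.rfl (and_congr Iff.rfl (imp_congr Iff.rfl (exists_congr fun z =>
    forall_congr' fun q => imp_congr Iff.rfl (imp_congr ?_ Iff.rfl))))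
  exact forall_congr' fun i => ⟨fun h1 hi => by rw [← h i hi]; exact h1 hi,
    fun h1 hi => by rw [h i hi]; exact h1 hi⟩

/-- the pseudodistance -/
noncomputable def DD (n : ℕ) (p q : Y × E) : ℝ :=
  dist p.1 q.1 + ∑ i ∈ Finset.range n, dist (p.2 i) (q.2 i)

theorem DD_fst (n : ℕ) (p q : Y × E) : dist p.1 q.1 ≤ DD n p q := by
  unfold DD
  have : 0 ≤ ∑ i ∈ Finset.range n, dist (p.2 i) (q.2 i) :=
    Finset.sum_nonneg fun i _ => dist_nonneg
  linarith

theorem DD_snd (n : ℕ) (p q : Y × E) {i : ℕ} (hi : i < n) : dist (p.2 i) (q.2 i) ≤ DD n p q := by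
  unfold DD
  have h1 : dist (p.2 i) (q.2 i) ≤ ∑ i ∈ Finset.range n, dist (p.2 i) (q.2 i) :=
    Finset.single_le_sum (f := fun i => dist (p.2 i) (q.2 i)) (fun i _ => dist_nonneg)
      (Finset.mem_range.2 hi)
  have h2 : 0 ≤ dist p.1 q.1 := dist_nonneg
  linarith

theorem DD_nonneg (n : ℕ) (p q : Y × E) : 0 ≤ DD n p q := dist_nonneg.trans (DD_fst n p q)

theorem DD_comm (n : ℕ) (p q : Y × E) : DD n p q = DD n q p := by
  unfold DD
  rw [dist_comm]
  congr 1
  exact Finset.sum_congr rfl fun i _ => dist_comm _ _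

theorem gg_le (n : ℕ) (p q : Y × E) : gg U n p ≤ gg U n q + DD n p q := by
  apply csSup_le ⟨0, zero_mem U n p⟩
  rintro r ⟨h1, h2, h3⟩
  have hD := DD_nonneg n p q
  rcases le_or_gt (r - DD n p q) 0 with h | h
  · have := gg_nonneg U n q
    linarith
  · obtain ⟨z, hz⟩ := h3 (by linarith)
    have h4 : r - DD n p q ∈ Aset U n q := by
      refine ⟨h.le, by linarith, fun _ => ⟨z, fun q' h5 h6 => hz q' ?_ fun i hi => ?_⟩⟩
      · have := dist_triangle p.1 q.1 q'.1
        have := DD_fst n p q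
        linarith
      · have := dist_triangle (p.2 i) (q.2 i) (q'.2 i)
        have := DD_snd n p q hi
        have := h6 i hi
        linarith
    have h5 : r - DD n p q ≤ gg U n q := le_csSup (bdd U n q) h4
    linarith

theorem continuous_gg (n : ℕ) : Continuous (gg U n) := by
  rw [continuous_iff_continuousAt]
  intro p
  rw [ContinuousAt, tendsto_iff_dist_tendsto_zero]
  have h1 : Tendsto (fun q => DD n q p) (𝓝 p) (𝓝 0) := by
    have h2 : Continuous (fun q : Y × E => DD n q p) := by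
      unfold DD
      fun_prop
    have h3 : DD n p p = 0 := by
      unfold DD
      simp
    have h4 := h2.tendsto p
    rwa [h3] at h4
  apply squeeze_zero (fun q => dist_nonneg) _ h1
  intro q
  rw [Real.dist_eq, abs_le]
  have h2 := gg_le U n p q
  have h3 := gg_le U n q p
  rw [DD_comm] at h2
  constructor <;> linarith

theorem gg_pos (hU : Cov U) (p : Y × E) : ∃ n, 0 < gg U n p := by
  obtain ⟨hUo, hUp⟩ := hU p
  have h1 : U p ∈ 𝓝 p.1 ×ˢ 𝓝 p.2 := by
    rw [← nhds_prod_eq]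
    exact hUo.mem_nhds hUp
  obtain ⟨V, hV, W, hW, hVW⟩ := mem_prod_iff.1 h1
  obtain ⟨r₁, hr₁, hr₁V⟩ := Metric.mem_nhds_iff.1 hV
  rw [nhds_pi, Filter.mem_pi] at hW
  obtain ⟨J, hJ, t, ht, htW⟩ := hW
  have h2 : ∀ i, ∃ r > 0, Metric.ball (p.2 i) r ⊆ t i := fun i => Metric.mem_nhds_iff.1 (ht i)
  choose ρ hρ hρt using h2
  let n := hJ.toFinset.sup id + 1
  have hn : ∀ i ∈ J, i < n := by
    intro i hi
    have : i ≤ hJ.toFinset.sup id := Finset.le_sup (f := id) (hJ.mem_toFinset.2 hi)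
    omega
  obtain ⟨r, hr0, hr1, hrr, hrJ⟩ : ∃ r : ℝ, 0 < r ∧ r ≤ 1 ∧ r ≤ r₁ ∧ ∀ i < n, r ≤ ρ i := by
    have hne : (Finset.range n).Nonempty := ⟨0, Finset.mem_range.2 (by omega)⟩
    refine ⟨min (min 1 r₁) ((Finset.range n).inf' hne ρ), ?_, ?_, ?_, ?_⟩
    · refine lt_min (lt_min one_pos hr₁) ?_
      rw [Finset.lt_inf'_iff]
      intro i _
      exact hρ i
    · exact (min_le_left _ _).trans (min_le_left _ _)
    · exact (min_le_left _ _).trans (min_le_right _ _)
    · intro i hi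
      exact (min_le_right _ _).trans (Finset.inf'_le _ (Finset.mem_range.2 hi))
  refine ⟨n, lt_of_lt_of_le hr0 (le_csSup (bdd U n p) ⟨hr0.le, hr1, fun _ => ⟨p, ?_⟩⟩)⟩
  intro q hq1 hq2
  apply hVW
  refine ⟨hr₁V ?_, htW ?_⟩
  · rw [Metric.mem_ball, dist_comm]
    exact lt_of_lt_of_le hq1 hrr
  · intro i hi
    apply hρt
    rw [Metric.mem_ball, dist_comm]
    exact lt_of_lt_of_le (hq2 i (hn i hi)) (hrJ i (hn i hi))

/-- the clocks -/
noncomputable def ck (n : ℕ) (p : Y × E) : ℝ := min 1 (n * gg U n p)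

theorem gg_mono' {n m : ℕ} (h : n ≤ m) (p : Y × E) : gg U n p ≤ gg U m p :=
  monotone_nat_of_le_succ (f := fun n => gg U n p) (fun n => gg_mono U n p) h

end

end StabAux

open StabAux

/-- PROOF. Choose a metric on `Y`. For `n` and `p = (y,v)` let `g_n p` be the supremum of `0` and of
all `r in [0,1]` such that for some `z` every `(y',v')` with `dist y y' < r` and
`dist (v i) (v' i) < r` for all `i < n` lies in `U z`. Then `g_n` is 1-Lipschitz for the pseudometric
`max (dist y y') (max_(i<n) dist (v i) (v' i))`, hence continuous and adapted (depends on `y` and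
`v_0 ... v_(n-1)` only), it is nondecreasing in `n`, and every `p` has some `g_n p > 0` (product
topology). Clocks `s_n = min 1 (n g_n)`: nondecreasing, and near `p` with `g_(n1) p > 0` one has
`g_n >= g_(n1) p / 2` for all `n >= n1` on a neighbourhood, so `s_n = 1` for large `n`. Hence
`Om = univ` and `insertion` gives `Phi : (Y x E) x F = Y x E`; `theta = Phi^-1`. If `p = Phi (p', w)`,
let `n` be the first index with `s n p' /= 0`; the coordinates below `n` of `p` and `p'` agree and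
`g_n p' > 0`, so `p` and `p'` lie in one `U z`. -/
theorem stab_over {Y : Type} [TopologicalSpace Y] [TopologicalSpace.MetrizableSpace Y]
    (U : Y × E → Set (Y × E)) (hU : Cov U) :
    ∃ θ : Y × E ≃ₜ (Y × E) × F, (∀ p, (θ p).1.1 = p.1) ∧
      ∀ p, ∃ z, p ∈ U z ∧ (θ p).1 ∈ U z := by
  let _ : MetricSpace Y := TopologicalSpace.metrizableSpaceMetric Y
  have h01 : ∀ n p, ck U n p ∈ Icc (0 : ℝ) 1 := fun n p =>
    ⟨le_min zero_le_one (mul_nonneg (Nat.cast_nonneg n) (gg_nonneg U n p)), min_le_left _ _⟩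
  have hev : ∀ p, ∃ n₀, ∀ᶠ p' in 𝓝 p, ∀ n, n₀ ≤ n → ck U n p' = 1 := by
    intro p
    obtain ⟨n₁, hn₁⟩ := gg_pos U hU p
    obtain ⟨k, hk⟩ := exists_nat_ge (2 / gg U n₁ p)
    refine ⟨max n₁ k, ?_⟩
    have h1 : ∀ᶠ p' in 𝓝 p, gg U n₁ p / 2 < gg U n₁ p' :=
      ((continuous_gg U n₁).tendsto p).eventually (lt_mem_nhds (by linarith))
    filter_upwards [h1] with p' hp' n hn
    have h2 : n₁ ≤ n := (le_max_left _ _).trans hn
    have h3 : k ≤ n := (le_max_right _ _).trans hn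
    have h4 := gg_mono' U h2 p'
    unfold ck
    apply min_eq_left
    have h5 : (k : ℝ) ≤ n := by exact_mod_cast h3
    have h6 : 1 ≤ (k : ℝ) * (gg U n₁ p / 2) := by
      rw [div_le_iff₀ hn₁] at hk
      linarith
    have h7 : (0 : ℝ) ≤ k := Nat.cast_nonneg k
    calc (1 : ℝ) ≤ (k : ℝ) * (gg U n₁ p / 2) := h6
      _ ≤ n * gg U n p' := mul_le_mul h5 (by linarith) (by linarith) (h7.trans h5)
  have hOm : ∀ p, ∃ n, ck U n p ≠ 0 := by
    intro p
    obtain ⟨n₀, hn₀⟩ := hev p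
    refine ⟨n₀, ?_⟩
    rw [hn₀.self_of_nhds n₀ le_rfl]
    exact one_ne_zero
  obtain ⟨Φ, hΦ⟩ := insertion (Y := Y) (K := F) (ck U)
    (fun n => continuous_const.min (continuous_const.mul (continuous_gg U n))) h01
    (fun n p => by
      unfold ck
      apply min_le_min_left
      apply mul_le_mul _ (gg_mono U n p) (gg_nonneg U n p) (Nat.cast_nonneg _)
      push_cast; linarith)
    (fun n y v v' h => by unfold ck; rw [gg_adapted U n y v v' h])
    (fun p _ => hev p)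
  let e : Y × E ≃ₜ {p : Y × E // ∃ n, ck U n p ≠ 0} :=
    { toFun := fun p => ⟨p, hOm p⟩
      invFun := fun p => p.1
      left_inv := fun _ => rfl
      right_inv := fun _ => rfl
      continuous_toFun := continuous_id.subtype_mk _
      continuous_invFun := continuous_subtype_val }
  let θ : Y × E ≃ₜ (Y × E) × F := e.trans (Φ.symm.trans (e.symm.prodCongr (Homeomorph.refl F)))
  have hθ : ∀ p, ∃ q : {p : Y × E // ∃ n, ck U n p ≠ 0}, ∃ w, (θ p).1 = q.1 ∧
      (Φ (q, w)).1 = p := by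
    intro p
    refine ⟨(Φ.symm (e p)).1, (Φ.symm (e p)).2, rfl, ?_⟩
    rw [Prod.mk.eta, Φ.apply_symm_apply]
    rfl
  refine ⟨θ, ?_, ?_⟩
  · intro p
    obtain ⟨q, w, h1, h2⟩ := hθ p
    rw [h1, ← h2]
    exact (hΦ q w).1.symm
  · intro p
    obtain ⟨q, w, h1, h2⟩ := hθ p
    obtain ⟨h3, h4⟩ := hΦ q w
    rw [h2] at h3 h4
    rw [h1]
    classical
    obtain ⟨n, hn, hmin⟩ : ∃ n, ck U n q.1 ≠ 0 ∧ ∀ m < n, ck U m q.1 = 0 :=
      ⟨Nat.find q.2, Nat.find_spec q.2, fun m hm => by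
        have := Nat.find_min q.2 hm
        push Not at this
        exact this⟩
    have hg : 0 < gg U n q.1 := by
      rcases eq_or_lt_of_le (gg_nonneg U n q.1) with h | h
      · exfalso
        apply hn
        unfold ck
        rw [← h, mul_zero]
        exact min_eq_right zero_le_one
      · exact h
    obtain ⟨r, ⟨hr0, hr1, hr⟩, hrp⟩ := exists_lt_of_lt_csSup ⟨0, zero_mem U n q.1⟩ hg
    obtain ⟨z, hz⟩ := hr hrp
    refine ⟨z, hz p ?_ ?_, hz q.1 ?_ ?_⟩
    · rw [h3, dist_self]; exact hrp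
    · intro i hi
      have h5 := h4 i (hmin i hi) i le_rfl
      rw [h5, dist_self]; exact hrp
    · rw [dist_self]; exact hrp
    · intro i hi
      rw [dist_self]; exact hrp

/-- PROOF: transport to `Unit x E`. -/
theorem stab {M : Type} [TopologicalSpace M] (hM : M ≃ₜ E) (U : M → Set M) (hU : Cov U) :
    ∃ θ : M ≃ₜ M × F, ∀ m, ∃ z, m ∈ U z ∧ (θ m).1 ∈ U z := by
  let e : M ≃ₜ Unit × E := hM.trans (Homeomorph.punitProd E).symm
  let U' : Unit × E → Set (Unit × E) := fun q => e.symm ⁻¹' U (e.symm q)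
  have hU' : Cov U' := fun q =>
    ⟨(hU (e.symm q)).1.preimage e.symm.continuous, (hU (e.symm q)).2⟩
  obtain ⟨θ, _, hθ⟩ := stab_over U' hU'
  refine ⟨e.trans (θ.trans (e.symm.prodCongr (Homeomorph.refl F))), fun m => ?_⟩
  obtain ⟨z, h1, h2⟩ := hθ (e m)
  refine ⟨e.symm z, ?_, h2⟩
  have h3 : e.symm (e m) ∈ U (e.symm z) := h1
  rwa [e.symm_apply_apply] at h3

end Pool.Agent.Tor
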