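import Pool.Agent.Lib.Tor.InsertBase
import Pool.Agent.Lib.Tor.Reindex

/-! MODULE Tor.Tele (1 h): the telescope is homeomorphic to `E`. -/

open Set Topology Filter

namespace Pool.Agent.Tor

/-- the telescope: `(al, z, w)` with `w_j = 0` or `|w_j| < al - j` -/
abbrev TN : Type := {p : ℝ × F × (ℕ → F) // ∀ j : ℕ, p.2.2 j = 0 ∨ ‖p.2.2 j‖ < p.1 - j}

namespace TeleAux

/-- one room -/
theorem one_room (j : ℕ) : ∃ Θ : ℝ × (ℕ → F) ≃ₜ
    {p : ℝ × F // p.2 = 0 ∨ ‖p.2‖ < p.1 - j} × (ℕ → F), ∀ p, (Θ p).1.1.1 = p.1 := by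
  obtain ⟨Θ, hΘ⟩ := insert_base (Y := ℝ) (ι := Unit) (fun al => al - j)
    (continuous_id.sub continuous_const)
  refine ⟨{
    toFun := fun p => (⟨((Θ (p.1, fun n _ => p.2 n)).1.1.1,
        (Θ (p.1, fun n _ => p.2 n)).1.1.2 ()), ?_⟩, fun n => (Θ (p.1, fun n _ => p.2 n)).2 n ())
    invFun := fun q => ((Θ.symm (⟨(q.1.1.1, fun _ => q.1.1.2), ?_⟩, fun n _ => q.2 n)).1,
        fun n => (Θ.symm (⟨(q.1.1.1, fun _ => q.1.1.2), ?_⟩, fun n _ => q.2 n)).2 n ())
    left_inv := ?_
    right_inv := ?_
    continuous_toFun := ?_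
    continuous_invFun := ?_ }, fun p => ?_⟩
  · rcases (Θ (p.1, fun n _ => p.2 n)).1.2 with h | h
    · left
      change (Θ (p.1, fun n _ => p.2 n)).1.1.2 () = 0
      rw [h]; rfl
    · exact Or.inr (h ())
  · rcases q.1.2 with h | h
    · left
      funext _
      exact h
    · exact Or.inr fun _ => h
  · rcases q.1.2 with h | h
    · left
      funext _
      exact h
    · exact Or.inr fun _ => h
  · rintro ⟨al, v⟩
    simp only
    have e : ((⟨((Θ (al, fun n _ => v n)).1.1.1, fun _ => (Θ (al, fun n _ => v n)).1.1.2 ()), by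
        rcases (Θ (al, fun n _ => v n)).1.2 with h | h
        · left
          funext _
          change (Θ (al, fun n _ => v n)).1.1.2 () = 0
          rw [h]; rfl
        · exact Or.inr fun _ => h ()⟩ :
          {p : ℝ × (Unit → F) // p.2 = 0 ∨ ∀ i, ‖p.2 i‖ < p.1 - j}),
        (fun n (_ : Unit) => (Θ (al, fun n _ => v n)).2 n ())) = Θ (al, fun n _ => v n) := by
      refine Prod.ext (Subtype.ext (Prod.ext rfl ?_)) ?_
      · funext u; rfl
      · funext n u; rfl
    refine Prod.ext ?_ ?_
    · simp only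
      rw [e, Θ.symm_apply_apply]
    · simp only
      rw [e, Θ.symm_apply_apply]
  · rintro ⟨⟨⟨al, w⟩, hw⟩, v⟩
    simp only
    have hw' : (fun _ : Unit => w) = 0 ∨ ∀ i : Unit, ‖(fun _ : Unit => w) i‖ < al - j := by
      rcases hw with h | h
      · left
        funext _
        exact h
      · exact Or.inr fun _ => h
    set q := Θ.symm (⟨(al, fun _ : Unit => w), hw'⟩, fun n _ => v n) with hq
    have e : (q.1, fun n (_ : Unit) => q.2 n ()) = q := by
      refine Prod.ext rfl ?_
      funext n u; rfl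
    have e2 : Θ q = (⟨(al, fun _ : Unit => w), hw'⟩, fun n _ => v n) := Θ.apply_symm_apply _
    refine Prod.ext (Subtype.ext (Prod.ext ?_ ?_)) ?_
    · change (Θ (q.1, fun n (_ : Unit) => q.2 n ())).1.1.1 = al
      rw [e, e2]
    · change (Θ (q.1, fun n (_ : Unit) => q.2 n ())).1.1.2 () = w
      rw [e, e2]
    · change (fun n => (Θ (q.1, fun n (_ : Unit) => q.2 n ())).2 n ()) = v
      rw [e, e2]
  · have c0 : Continuous fun p : ℝ × (ℕ → F) => Θ (p.1, fun n (_ : Unit) => p.2 n) :=
      Θ.continuous.comp (continuous_fst.prodMk (continuous_pi fun n => continuous_pi fun _ =>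
        (continuous_apply n).comp continuous_snd))
    have c1 : Continuous fun p : ℝ × (ℕ → F) => (Θ (p.1, fun n (_ : Unit) => p.2 n)).1.1 :=
      continuous_subtype_val.comp (continuous_fst.comp c0)
    refine Continuous.prodMk (Continuous.subtype_mk ((continuous_fst.comp c1).prodMk
      ((continuous_apply ()).comp (continuous_snd.comp c1))) _) (continuous_pi fun n => ?_)
    exact (continuous_apply ()).comp ((continuous_apply n).comp (continuous_snd.comp c0))
  · have c1 : Continuous fun q : {p : ℝ × F // p.2 = 0 ∨ ‖p.2‖ < p.1 - j} × (ℕ → F) => q.1.1 :=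
      continuous_subtype_val.comp continuous_fst
    have c0 : Continuous fun q : {p : ℝ × F // p.2 = 0 ∨ ‖p.2‖ < p.1 - j} × (ℕ → F) =>
        Θ.symm (⟨(q.1.1.1, fun _ : Unit => q.1.1.2), by
          rcases q.1.2 with h | h
          · left
            funext _
            exact h
          · exact Or.inr fun _ => h⟩, fun n _ => q.2 n) := by
      refine Θ.symm.continuous.comp (Continuous.prodMk (Continuous.subtype_mk
        ((continuous_fst.comp c1).prodMk (continuous_pi fun _ => continuous_snd.comp c1)) _)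
        (continuous_pi fun n => continuous_pi fun _ => (continuous_apply n).comp continuous_snd))
    exact (continuous_fst.comp c0).prodMk (continuous_pi fun n => (continuous_apply ()).comp
      ((continuous_apply n).comp (continuous_snd.comp c0)))
  · exact hΘ _

end TeleAux

/-- PROOF. For every `j`, `insert_base` with `Y = R`, `iota = Unit` (`Unit -> F` is `F`),
`lam al = al - j` gives `Th_j : R x (N -> F) = {(al,w) : w = 0 or |w| < al - j} x (N -> F)` over `R`.
Take all `j` together over the common base `R`: `(al, (v_j)_j) -> (al, (w_j)_j, (v'_j)_j)` is a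
homeomorphism of `R x (N -> (N -> F))` onto `{(al,w) : all j ok} x (N -> (N -> F))`. With the extra
factor `F` (`z`): `TN x (N -> N -> F) = R x F x (N -> N -> F) = E` (`pi_pi`, `E_prod_F`, `R_prod_E`). -/
theorem tele_homeo : Nonempty (TN × (ℕ → ℕ → F) ≃ₜ E) := by
  choose Θ hΘ using TeleAux.one_room
  have hs : ∀ j q, ((Θ j).symm q).1 = q.1.1.1 := by
    intro j q
    have := hΘ j ((Θ j).symm q)
    rw [(Θ j).apply_symm_apply] at this
    exact this.symm
  have c0 : ∀ j : ℕ, Continuous fun p : ℝ × F × (ℕ → ℕ → F) => Θ j (p.1, p.2.2 j) := fun j =>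
    (Θ j).continuous.comp (continuous_fst.prodMk
      ((continuous_apply j).comp (continuous_snd.comp continuous_snd)))
  let A : TN × (ℕ → ℕ → F) → ℝ × F × (ℕ → ℕ → F) := fun q => (q.1.1.1, q.1.1.2.1, fun j =>
      ((Θ j).symm (⟨(q.1.1.1, q.1.1.2.2 j), q.1.2 j⟩, q.2 j)).2)
  let Ψ : (ℝ × F × (ℕ → ℕ → F)) ≃ₜ TN × (ℕ → ℕ → F) := {
    toFun := fun p => (⟨(p.1, p.2.1, fun j => (Θ j (p.1, p.2.2 j)).1.1.2), fun j => by
        have h1 := (Θ j (p.1, p.2.2 j)).1.2
        rw [hΘ j (p.1, p.2.2 j)] at h1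
        exact h1⟩, fun j => (Θ j (p.1, p.2.2 j)).2)
    invFun := A
    left_inv := by
      rintro ⟨al, z, v⟩
      refine Prod.ext rfl (Prod.ext rfl ?_)
      funext j
      have e : ((⟨(al, (Θ j (al, v j)).1.1.2), by
          have h1 := (Θ j (al, v j)).1.2
          rw [hΘ j (al, v j)] at h1
          exact h1⟩ : {p : ℝ × F // p.2 = 0 ∨ ‖p.2‖ < p.1 - j}), (Θ j (al, v j)).2)
          = Θ j (al, v j) :=
        Prod.ext (Subtype.ext (Prod.ext (hΘ j (al, v j)).symm rfl)) rfl
      change ((Θ j).symm (⟨(al, (Θ j (al, v j)).1.1.2), _⟩, (Θ j (al, v j)).2)).2 = v j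
      rw [e, (Θ j).symm_apply_apply]
    right_inv := by
      rintro ⟨⟨⟨al, z, w⟩, hw⟩, v⟩
      have e : ∀ j, Θ j (al, ((Θ j).symm (⟨(al, w j), hw j⟩, v j)).2) = (⟨(al, w j), hw j⟩, v j) := by
        intro j
        have e1 : (al, ((Θ j).symm (⟨(al, w j), hw j⟩, v j)).2) =
            (Θ j).symm (⟨(al, w j), hw j⟩, v j) :=
          Prod.ext (hs j (⟨(al, w j), hw j⟩, v j)).symm rfl
        rw [e1, (Θ j).apply_symm_apply]
      refine Prod.ext (Subtype.ext (Prod.ext rfl (Prod.ext rfl ?_))) ?_
      · funext j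
        change (Θ j (al, ((Θ j).symm (⟨(al, w j), hw j⟩, v j)).2)).1.1.2 = w j
        rw [e j]
      · funext j
        change (Θ j (al, ((Θ j).symm (⟨(al, w j), hw j⟩, v j)).2)).2 = v j
        rw [e j]
    continuous_toFun := by
      refine Continuous.prodMk (Continuous.subtype_mk (continuous_fst.prodMk
        ((continuous_fst.comp continuous_snd).prodMk (continuous_pi fun j => ?_))) _)
        (continuous_pi fun j => ?_)
      · exact continuous_snd.comp (continuous_subtype_val.comp (continuous_fst.comp (c0 j)))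
      · exact continuous_snd.comp (c0 j)
    continuous_invFun := by
      have c1 : Continuous fun q : TN × (ℕ → ℕ → F) => q.1.1 :=
        continuous_subtype_val.comp continuous_fst
      refine (continuous_fst.comp c1).prodMk ((continuous_fst.comp (continuous_snd.comp c1)).prodMk
        (continuous_pi fun j => ?_))
      refine continuous_snd.comp ((Θ j).symm.continuous.comp (Continuous.prodMk
        (Continuous.subtype_mk ((continuous_fst.comp c1).prodMk ((continuous_apply j).comp
          (continuous_snd.comp (continuous_snd.comp c1)))) _)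
        ((continuous_apply j).comp continuous_snd))) }
  obtain ⟨P, -⟩ := pi_pi F
  obtain ⟨C⟩ := cons_homeo F
  obtain ⟨R⟩ := R_prod_E
  exact ⟨Ψ.symm.trans (((Homeomorph.refl ℝ).prodCongr
    (((Homeomorph.refl F).prodCongr P).trans C)).trans R)⟩

end Pool.Agent.Tor
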